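import Mathlib

/-! Quantitative nondivergence on an ultrametric tree (residues modulo powers of `ℓ`). -/

set_option autoImplicit false

namespace Pool.Agent.W71

/-- marked values -/
def MarkedAt {S : Type*} [PartialOrder S] (g : S → ℝ) (T : Set S) (ε : ℝ) : Prop :=
  ∃ F : Set S, F ⊆ T ∧ IsChain (· ≤ ·) F ∧ (∀ s ∈ F, ε ≤ g s ∧ g s ≤ 1) ∧
    ∀ s ∈ T, (∀ s' ∈ F, s ≤ s' ∨ s' ≤ s) → s ∈ F ∨ 1 ≤ g s

/-- the residue class of `a` modulo `ℓ ^ i` inside `[0, ℓ ^ M)` -/
def cell (ℓ M i a : ℕ) : Finset ℕ := (Finset.range (ℓ ^ M)).filter (fun p => p % ℓ ^ i = a)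

lemma mem_cell {ℓ M i a p : ℕ} : p ∈ cell ℓ M i a ↔ p < ℓ ^ M ∧ p % ℓ ^ i = a := by
  simp [cell]

/-- the constants -/
def tK (ℓ D : ℕ) : ℕ → ℕ
  | 0 => 0
  | k + 1 => ℓ * (tK ℓ D k + D)

/-- a cell is covered by its children -/
lemma cell_sub_biUnion {ℓ M i a : ℕ} (hℓ : 2 ≤ ℓ) :
    cell ℓ M i a ⊆ (Finset.range ℓ).biUnion (fun c => cell ℓ M (i + 1) (a + c * ℓ ^ i)) := by
  intro p hp
  rw [mem_cell] at hp
  rw [Finset.mem_biUnion]
  have hpos : 0 < ℓ ^ i := by positivity
  refine ⟨p / ℓ ^ i % ℓ, Finset.mem_range.2 (Nat.mod_lt _ (by omega)), ?_⟩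
  rw [mem_cell]
  refine ⟨hp.1, ?_⟩
  rw [pow_succ, Nat.mod_mul, hp.2]
  ring

lemma child_sub {ℓ M i a c : ℕ} (_hℓ : 2 ≤ ℓ) (ha : a < ℓ ^ i) :
    cell ℓ M (i + 1) (a + c * ℓ ^ i) ⊆ cell ℓ M i a := by
  intro p hp
  rw [mem_cell] at hp ⊢
  refine ⟨hp.1, ?_⟩
  have h1 : p % ℓ ^ (i + 1) % ℓ ^ i = p % ℓ ^ i := by
    rw [pow_succ, Nat.mod_mul_right_mod]
  rw [← h1, hp.2, Nat.add_mul_mod_self_right, Nat.mod_eq_of_lt ha]

theorem tkm {S : Type*} [PartialOrder S] (ℓ M m u D : ℕ) (hℓ : 2 ≤ ℓ) (hmM : m ≤ M)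
    (f : S → ℕ → ℝ) (rank : S → ℕ) (hrank : ∀ s s', s < s' → rank s < rank s') (ε : ℝ)
    (hconst : ∀ s p p', p % ℓ ^ m = p' % ℓ ^ m → f s p = f s p')
    (hgood : ∀ s i a, i ≤ m → (∃ p ∈ cell ℓ M i a, 1 ≤ f s p) →
      ((cell ℓ M i a).filter (fun p => f s p < ε)).card * ℓ ^ u ≤ D * ℓ ^ (M - i)) :
    ∀ (k : ℕ) (T : Set S) (R : Finset ℕ), R.card = k → (∀ s ∈ T, rank s ∈ R) →
      ∀ h i a, i + h = m → a < ℓ ^ i → (∀ s ∈ T, ∃ p ∈ cell ℓ M i a, 1 ≤ f s p) →
        ∀ [DecidablePred fun p => ¬ MarkedAt (fun s => f s p) T ε],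
        ((cell ℓ M i a).filter (fun p => ¬ MarkedAt (fun s => f s p) T ε)).card * ℓ ^ u ≤
          tK ℓ D k * ℓ ^ (M - i) := by
  classical
  intro k
  induction k with
  | zero =>
    intro T R hR hT h i a hi ha hrich _
    have hT0 : ∀ s, s ∉ T := by
      intro s hs
      have := hT s hs
      rw [Finset.card_eq_zero.1 hR] at this
      simp at this
    have : (cell ℓ M i a).filter (fun p => ¬ MarkedAt (fun s => f s p) T ε) = ∅ := by
      rw [Finset.filter_eq_empty_iff]
      intro p _
      rw [not_not]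
      exact ⟨∅, by simp, by simp, by simp, fun s hs _ => absurd hs (hT0 s)⟩
    rw [this]; simp
  | succ k ihk =>
    intro T R hR hT h
    induction h with
    | zero =>
      intro i a hi ha hrich _
      have hi' : i = m := by omega
      have : (cell ℓ M i a).filter (fun p => ¬ MarkedAt (fun s => f s p) T ε) = ∅ := by
        rw [Finset.filter_eq_empty_iff]
        intro p hp
        rw [not_not]
        refine ⟨∅, by simp, by simp, by simp, fun s hs _ => Or.inr ?_⟩
        obtain ⟨p', hp', h1⟩ := hrich s hs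
        have h2 : f s p = f s p' := by
          apply hconst
          rw [mem_cell] at hp hp'
          rw [← hi', hp.2, hp'.2]
        change 1 ≤ f s p
        rw [h2]; exact h1
      rw [this]; simp
    | succ h ihh =>
      intro i a hi ha hrich _
      have hpos : 0 < ℓ ^ i := by positivity
      have hchild : ∀ c ∈ Finset.range ℓ,
          ((cell ℓ M (i + 1) (a + c * ℓ ^ i)).filter
            (fun p => ¬ MarkedAt (fun s => f s p) T ε)).card * ℓ ^ u ≤
          tK ℓ D (k + 1) * ℓ ^ (M - (i + 1)) := by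
        intro c hc
        rw [Finset.mem_range] at hc
        have hac : a + c * ℓ ^ i < ℓ ^ (i + 1) := by
          rw [pow_succ]
          calc a + c * ℓ ^ i < ℓ ^ i + c * ℓ ^ i := by omega
            _ = (c + 1) * ℓ ^ i := by ring
            _ ≤ ℓ * ℓ ^ i := Nat.mul_le_mul_right _ hc
            _ = ℓ ^ i * ℓ := by ring
        by_cases hr : ∀ s ∈ T, ∃ p ∈ cell ℓ M (i + 1) (a + c * ℓ ^ i), 1 ≤ f s p
        · exact ihh (i + 1) (a + c * ℓ ^ i) (by omega) hac hr
        · push Not at hr
          obtain ⟨s0, hs0T, hs0⟩ := hr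
          set T' : Set S := {s ∈ T | s ≠ s0 ∧ (s ≤ s0 ∨ s0 ≤ s)} with hT'
          have h1 := ihk T' (R.erase (rank s0))
            (by rw [Finset.card_erase_of_mem (hT s0 hs0T), hR]; rfl)
            (by
              rintro s ⟨hsT, hne, hcmp⟩
              rw [Finset.mem_erase]
              refine ⟨?_, hT s hsT⟩
              rcases hcmp with h | h
              · exact (hrank _ _ (lt_of_le_of_ne h hne)).ne
              · exact (hrank _ _ (lt_of_le_of_ne h hne.symm)).ne')
            (h + 1) i a hi ha (fun s hs => hrich s hs.1)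
          have h2 := hgood s0 i a (by omega) (hrich s0 hs0T)
          have h3 : (cell ℓ M (i + 1) (a + c * ℓ ^ i)).filter
              (fun p => ¬ MarkedAt (fun s => f s p) T ε) ⊆
              (cell ℓ M i a).filter (fun p => ¬ MarkedAt (fun s => f s p) T' ε) ∪
              (cell ℓ M i a).filter (fun p => f s0 p < ε) := by
            intro p hp
            rw [Finset.mem_filter] at hp
            obtain ⟨hpC, hpM⟩ := hp
            have hpC' := child_sub hℓ ha hpC
            by_contra hcon
            rw [Finset.mem_union, not_or, Finset.mem_filter, Finset.mem_filter] at hcon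
            obtain ⟨hc1, hc2⟩ := hcon
            have hx1 : MarkedAt (fun s => f s p) T' ε := by
              by_contra h; exact hc1 ⟨hpC', h⟩
            have hx2 : ε ≤ f s0 p := by
              by_contra h; exact hc2 ⟨hpC', not_le.1 h⟩
            apply hpM
            obtain ⟨F, hF1, hF2, hF3, hF4⟩ := hx1
            refine ⟨insert s0 F, ?_, ?_, ?_, ?_⟩
            · intro s hs
              rcases hs with h | h
              · rw [h]; exact hs0T
              · exact (hF1 h).1
            · apply hF2.insert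
              intro s hs _
              rcases (hF1 hs).2.2 with h | h
              · exact Or.inr h
              · exact Or.inl h
            · intro s hs
              rcases hs with h | h
              · rw [h]; exact ⟨hx2, (hs0 p hpC).le⟩
              · exact hF3 s h
            · intro s hsT hcmp
              by_cases hss0 : s = s0
              · left; rw [hss0]; exact Set.mem_insert _ _
              · have hsT' : s ∈ T' := ⟨hsT, hss0, hcmp s0 (Set.mem_insert _ _)⟩
                rcases hF4 s hsT' (fun s' hs' => hcmp s' (Set.mem_insert_of_mem _ hs')) with h | h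
                · left; exact Set.mem_insert_of_mem _ h
                · right; exact h
          have h4 := (Finset.card_le_card h3).trans (Finset.card_union_le _ _)
          have hexp : ℓ ^ (M - i) = ℓ * ℓ ^ (M - (i + 1)) := by
            rw [← pow_succ']; congr 1; omega
          calc _ ≤ (((cell ℓ M i a).filter (fun p => ¬ MarkedAt (fun s => f s p) T' ε)).card +
                ((cell ℓ M i a).filter (fun p => f s0 p < ε)).card) * ℓ ^ u :=
                Nat.mul_le_mul_right _ h4
            _ = ((cell ℓ M i a).filter (fun p => ¬ MarkedAt (fun s => f s p) T' ε)).card * ℓ ^ u +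
                ((cell ℓ M i a).filter (fun p => f s0 p < ε)).card * ℓ ^ u := by ring
            _ ≤ tK ℓ D k * ℓ ^ (M - i) + D * ℓ ^ (M - i) := Nat.add_le_add h1 h2
            _ = tK ℓ D (k + 1) * ℓ ^ (M - (i + 1)) := by
                rw [hexp]; simp only [tK]; ring
      have hcov : (cell ℓ M i a).filter (fun p => ¬ MarkedAt (fun s => f s p) T ε) ⊆
          (Finset.range ℓ).biUnion (fun c => (cell ℓ M (i + 1) (a + c * ℓ ^ i)).filter
            (fun p => ¬ MarkedAt (fun s => f s p) T ε)) := by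
        intro p hp
        rw [Finset.mem_filter] at hp
        have := cell_sub_biUnion (M := M) hℓ hp.1
        rw [Finset.mem_biUnion] at this ⊢
        obtain ⟨c, hc, hpc⟩ := this
        exact ⟨c, hc, Finset.mem_filter.2 ⟨hpc, hp.2⟩⟩
      have h5 := (Finset.card_le_card hcov).trans Finset.card_biUnion_le
      have hexp : ℓ ^ (M - i) = ℓ * ℓ ^ (M - (i + 1)) := by
        rw [← pow_succ']; congr 1; omega
      calc _ ≤ (∑ c ∈ Finset.range ℓ, ((cell ℓ M (i + 1) (a + c * ℓ ^ i)).filter
            (fun p => ¬ MarkedAt (fun s => f s p) T ε)).card) * ℓ ^ u :=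
            Nat.mul_le_mul_right _ h5
        _ = ∑ c ∈ Finset.range ℓ, ((cell ℓ M (i + 1) (a + c * ℓ ^ i)).filter
            (fun p => ¬ MarkedAt (fun s => f s p) T ε)).card * ℓ ^ u := Finset.sum_mul _ _ _
        _ ≤ ∑ c ∈ Finset.range ℓ, tK ℓ D (k + 1) * ℓ ^ (M - (i + 1)) :=
            Finset.sum_le_sum hchild
        _ = tK ℓ D (k + 1) * ℓ ^ (M - i) := by
            rw [Finset.sum_const, Finset.card_range, hexp, smul_eq_mul]; ring

end Pool.Agent.W71
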