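import Mathlib
import Pool.Agent.W71.Tree

/-! `ℓ`-adic absolute value and polynomials. -/

set_option autoImplicit false

open Polynomial

namespace Pool.Agent.W71

/-- real-valued `ℓ`-adic absolute value -/
noncomputable def nl (ℓ : ℕ) (x : ℚ) : ℝ := (padicNorm ℓ x : ℝ)

section
variable {ℓ : ℕ}

lemma nl_nonneg (x : ℚ) : 0 ≤ nl ℓ x := by
  unfold nl; exact_mod_cast padicNorm.nonneg x

@[simp] lemma nl_zero : nl ℓ 0 = 0 := by simp [nl]

@[simp] lemma nl_one : nl ℓ 1 = 1 := by simp [nl]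

@[simp] lemma nl_neg (x : ℚ) : nl ℓ (-x) = nl ℓ x := by simp [nl]

variable [hp : Fact ℓ.Prime]

lemma nl_mul (x y : ℚ) : nl ℓ (x * y) = nl ℓ x * nl ℓ y := by
  unfold nl; rw [padicNorm.mul]; push_cast; rfl

lemma nl_div (x y : ℚ) : nl ℓ (x / y) = nl ℓ x / nl ℓ y := by
  unfold nl; rw [padicNorm.div]; push_cast; rfl

lemma nl_inv (x : ℚ) : nl ℓ x⁻¹ = (nl ℓ x)⁻¹ := by
  rw [← one_div, nl_div, nl_one, one_div]

lemma nl_pos {x : ℚ} (hx : x ≠ 0) : 0 < nl ℓ x := by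
  rcases (nl_nonneg (ℓ := ℓ) x).lt_or_eq with h | h
  · exact h
  · exfalso
    apply padicNorm.nonzero (p := ℓ) hx
    unfold nl at h
    exact_mod_cast h.symm

lemma nl_add (x y : ℚ) : nl ℓ (x + y) ≤ max (nl ℓ x) (nl ℓ y) := by
  unfold nl
  have := padicNorm.nonarchimedean (p := ℓ) (q := x) (r := y)
  exact_mod_cast this

lemma nl_pow (x : ℚ) (k : ℕ) : nl ℓ (x ^ k) = nl ℓ x ^ k := by
  induction k with
  | zero => simp
  | succ k ih => rw [pow_succ, nl_mul, ih, pow_succ]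

lemma nl_prod {ι : Type*} (s : Finset ι) (f : ι → ℚ) : nl ℓ (∏ i ∈ s, f i) = ∏ i ∈ s, nl ℓ (f i) := by
  classical
  induction s using Finset.induction_on with
  | empty => simp
  | insert a s ha ih => rw [Finset.prod_insert ha, Finset.prod_insert ha, nl_mul, ih]

lemma nl_sum_le {ι : Type*} (s : Finset ι) (f : ι → ℚ) (B : ℝ) (hB : 0 ≤ B)
    (h : ∀ i ∈ s, nl ℓ (f i) ≤ B) : nl ℓ (∑ i ∈ s, f i) ≤ B := by
  classical
  induction s using Finset.induction_on with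
  | empty => simpa using hB
  | insert a s ha ih =>
    rw [Finset.sum_insert ha]
    refine (nl_add _ _).trans (max_le (h a (Finset.mem_insert_self _ _)) ?_)
    exact ih (fun i hi => h i (Finset.mem_insert_of_mem hi))

lemma nl_sum_lt {ι : Type*} (s : Finset ι) (f : ι → ℚ) (B : ℝ) (hB : 0 < B)
    (h : ∀ i ∈ s, nl ℓ (f i) < B) : nl ℓ (∑ i ∈ s, f i) < B := by
  classical
  induction s using Finset.induction_on with
  | empty => simpa using hB
  | insert a s ha ih =>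
    rw [Finset.sum_insert ha]
    refine lt_of_le_of_lt (nl_add _ _) (max_lt (h a (Finset.mem_insert_self _ _)) ?_)
    exact ih (fun i hi => h i (Finset.mem_insert_of_mem hi))

lemma nl_int_le (k : ℤ) : nl ℓ (k : ℚ) ≤ 1 := by
  unfold nl; exact_mod_cast padicNorm.of_int (p := ℓ) k

lemma nl_nat_le (k : ℕ) : nl ℓ (k : ℚ) ≤ 1 := by
  exact_mod_cast nl_int_le (ℓ := ℓ) (k : ℤ)

lemma nl_int_eq_one {k : ℤ} (h : ¬ (ℓ : ℤ) ∣ k) : nl ℓ (k : ℚ) = 1 := by
  unfold nl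
  rw [(padicNorm.int_eq_one_iff k).2 h]; simp

lemma nl_self : nl ℓ (ℓ : ℚ) = (ℓ : ℝ)⁻¹ := by
  unfold nl
  rw [padicNorm.padicNorm_p_of_prime]; simp

lemma nl_self_pow (m : ℕ) : nl ℓ ((ℓ : ℚ) ^ m) = ((ℓ : ℝ) ^ m)⁻¹ := by
  rw [nl_pow, nl_self, inv_pow]

/-- an integer not divisible by `ℓ ^ k` is not too small -/
lemma nl_int_ge {k : ℕ} {z : ℤ} (h : ¬ ((ℓ : ℤ) ^ k ∣ z)) : ((ℓ : ℝ) ^ k)⁻¹ ≤ nl ℓ (z : ℚ) := by
  have h1 := mt (padicNorm.dvd_iff_norm_le (p := ℓ) (n := k) (z := z)).2 (by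
    push_cast; exact h)
  rw [not_le] at h1
  unfold nl
  have h2 : (((ℓ : ℚ) ^ (-(k : ℤ)) : ℚ) : ℝ) ≤ ((padicNorm ℓ z : ℚ) : ℝ) := by exact_mod_cast h1.le
  simpa [zpow_neg] using h2

lemma nl_int_le_of_dvd {k : ℕ} {z : ℤ} (h : ((ℓ : ℤ) ^ k ∣ z)) : nl ℓ (z : ℚ) ≤ ((ℓ : ℝ) ^ k)⁻¹ := by
  have h1 := (padicNorm.dvd_iff_norm_le (p := ℓ) (n := k) (z := z)).1 (by
    push_cast; exact h)
  unfold nl
  have h2 : ((padicNorm ℓ z : ℚ) : ℝ) ≤ (((ℓ : ℚ) ^ (-(k : ℤ)) : ℚ) : ℝ) := by exact_mod_cast h1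
  simpa [zpow_neg] using h2

/-- product formula inequality -/
lemma one_le_abs_mul_nl {z : ℤ} (hz : z ≠ 0) : 1 ≤ |(z : ℝ)| * nl ℓ (z : ℚ) := by
  have hℓ1 : 1 < ℓ := hp.out.one_lt
  obtain ⟨w, hzw, hw⟩ := FiniteMultiplicity.exists_eq_pow_mul_and_not_dvd
    (Int.finiteMultiplicity_iff.2 ⟨by simpa using hℓ1.ne', hz⟩ : FiniteMultiplicity (ℓ : ℤ) z)
  generalize multiplicity (ℓ : ℤ) z = k at hzw
  have hℓ0 : (0 : ℝ) < (ℓ : ℝ) ^ k := by
    have : (0 : ℝ) < ℓ := by exact_mod_cast (by omega : 0 < ℓ)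
    positivity
  have h1 : nl ℓ (z : ℚ) = ((ℓ : ℝ) ^ k)⁻¹ := by
    rw [hzw]; push_cast
    rw [nl_mul, nl_self_pow, nl_int_eq_one hw, mul_one]
  have hw0 : w ≠ 0 := by
    intro h; rw [h] at hw; exact hw (dvd_zero _)
  have h2 : (1 : ℝ) ≤ |(w : ℝ)| := by
    rw [← Int.cast_abs]; exact_mod_cast Int.one_le_abs hw0
  rw [h1, hzw]
  push_cast
  rw [abs_mul, abs_of_pos hℓ0]
  calc (1 : ℝ) ≤ |(w : ℝ)| := h2
    _ = (ℓ : ℝ) ^ k * |(w : ℝ)| * ((ℓ : ℝ) ^ k)⁻¹ := by field_simp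

/-- ultrametric Lagrange interpolation -/
lemma nl_lagrange (D : ℕ) (F : ℚ[X]) (hF : F.natDegree ≤ D) (N : Finset ℚ) (hN : N.card = D + 1)
    (s L e : ℝ) (z : ℚ) (hs : 0 < s) (hL : 0 < L)
    (hsep : ∀ x ∈ N, ∀ y ∈ N, x ≠ y → s ≤ nl ℓ (x - y))
    (hz : ∀ x ∈ N, nl ℓ (z - x) ≤ L) (he : ∀ x ∈ N, nl ℓ (F.eval x) < e) :
    nl ℓ (F.eval z) < e * (L / s) ^ D := by
  have hinj : Set.InjOn (id : ℚ → ℚ) (N : Set ℚ) := fun a _ b _ h => h
  have hdeg : F.degree < N.card := by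
    rw [hN]
    exact lt_of_le_of_lt degree_le_natDegree (by exact_mod_cast Nat.lt_succ_of_le hF)
  have heq := Lagrange.eq_interpolate hinj hdeg
  have heval : F.eval z = ∑ i ∈ N, F.eval i * (Lagrange.basis N id i).eval z := by
    conv_lhs => rw [heq]
    rw [Lagrange.interpolate_apply, eval_finsetSum]
    simp [eval_mul]
  have hNne : N.Nonempty := Finset.card_pos.1 (by omega)
  have he0 : 0 < e := by
    obtain ⟨x, hx⟩ := hNne
    exact lt_of_le_of_lt (nl_nonneg _) (he x hx)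
  rw [heval]
  apply nl_sum_lt _ _ _ (by positivity)
  intro i hi
  rw [nl_mul]
  have h1 : nl ℓ ((Lagrange.basis N id i).eval z) ≤ (L / s) ^ D := by
    rw [Lagrange.basis, eval_prod, nl_prod]
    calc ∏ j ∈ N.erase i, nl ℓ ((Lagrange.basisDivisor (id i) (id j)).eval z)
        ≤ ∏ j ∈ N.erase i, (L / s) := by
          refine Finset.prod_le_prod (fun j _ => nl_nonneg _) (fun j hj => ?_)
          have hj' := Finset.mem_erase.1 hj
          rw [Lagrange.basisDivisor]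
          simp only [eval_mul, eval_C, eval_sub, eval_X, id, nl_mul, nl_inv]
          have h1 := hsep i hi j hj'.2 (Ne.symm hj'.1)
          have h2 := hz j hj'.2
          rw [inv_mul_eq_div]
          exact div_le_div₀ hL.le h2 hs h1
      _ = (L / s) ^ D := by
          rw [Finset.prod_const, Finset.card_erase_of_mem hi, hN]; simp
  have hpos : 0 < (L / s) ^ D := by positivity
  calc nl ℓ (F.eval i) * nl ℓ ((Lagrange.basis N id i).eval z)
      ≤ nl ℓ (F.eval i) * (L / s) ^ D := mul_le_mul_of_nonneg_left h1 (nl_nonneg _)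
    _ < e * (L / s) ^ D := mul_lt_mul_of_pos_right (he i hi) hpos

/-- the `ℓ`-adic point attached to `p` -/
noncomputable def pt (ℓ m p : ℕ) : ℚ := -((p : ℚ) / (ℓ : ℚ) ^ m)

omit hp in
lemma pt_sub (m p p' : ℕ) : pt ℓ m p - pt ℓ m p' = -((((p : ℤ) - (p' : ℤ) : ℤ) : ℚ) / (ℓ : ℚ) ^ m) := by
  unfold pt; push_cast; ring

lemma nl_pt_sub (m p p' : ℕ) :
    nl ℓ (pt ℓ m p - pt ℓ m p') = (ℓ : ℝ) ^ m * nl ℓ ((((p : ℤ) - (p' : ℤ) : ℤ) : ℚ)) := by
  rw [pt_sub, nl_neg, nl_div, nl_self_pow, div_inv_eq_mul, mul_comm]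

lemma card_cell_le {M i a : ℕ} (hiM : i ≤ M) : (cell ℓ M i a).card ≤ ℓ ^ (M - i) := by
  have hℓ : 0 < ℓ := hp.out.pos
  have h1 : ∀ p ∈ cell ℓ M i a, p / ℓ ^ i ∈ Finset.range (ℓ ^ (M - i)) := by
    intro p hp
    rw [mem_cell] at hp
    rw [Finset.mem_range, Nat.div_lt_iff_lt_mul (by positivity), ← pow_add]
    have : M - i + i = M := by omega
    rw [this]; exact hp.1
  have h2 : Set.InjOn (fun p => p / ℓ ^ i) (cell ℓ M i a : Set ℕ) := by
    intro p hp p' hp' h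
    simp only [Finset.mem_coe, mem_cell] at hp hp'
    simp only at h
    rw [← Nat.div_add_mod p (ℓ ^ i), ← Nat.div_add_mod p' (ℓ ^ i), hp.2, hp'.2, h]
  have := Finset.card_le_card_of_injOn _ h1 h2
  rwa [Finset.card_range] at this

/-- goodness of polynomials on residue classes -/
lemma ugood (D : ℕ) (F : ℚ[X]) (hF : F.natDegree ≤ D) (m M u i a p0 : ℕ)
    (hM : m + u ≤ M) (him : i ≤ m) (hp0 : p0 ∈ cell ℓ M i a) (B : ℝ) (hB : 0 < B)
    (h : B ≤ nl ℓ (F.eval (pt ℓ m p0)))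
    [DecidablePred fun p => nl ℓ (F.eval (pt ℓ m p)) < B * ((ℓ : ℝ) ^ (u * D))⁻¹] :
    ((cell ℓ M i a).filter (fun p => nl ℓ (F.eval (pt ℓ m p)) < B * ((ℓ : ℝ) ^ (u * D))⁻¹)).card *
      ℓ ^ u ≤ D * ℓ ^ (M - i) := by
  classical
  have hℓ : 0 < ℓ := hp.out.pos
  have hℓR : (0 : ℝ) < ℓ := by exact_mod_cast hℓ
  set S := (cell ℓ M i a).filter (fun p => nl ℓ (F.eval (pt ℓ m p)) < B * ((ℓ : ℝ) ^ (u * D))⁻¹) with hS
  by_contra hcon
  push Not at hcon
  have hexp : ℓ ^ (M - i) = ℓ ^ (M - (i + u)) * ℓ ^ u := by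
    rw [← pow_add]; congr 1; omega
  rw [hexp, ← mul_assoc] at hcon
  have hcard : D * ℓ ^ (M - (i + u)) < S.card := lt_of_mul_lt_mul_right hcon (by positivity)
  -- the residues
  set Q := S.image (fun p => p % ℓ ^ (i + u)) with hQ
  have hQcard : D + 1 ≤ Q.card := by
    by_contra hlt
    push Not at hlt
    have h1 : S.card ≤ ∑ r ∈ Q, (cell ℓ M (i + u) r).card := by
      have h2 : S ⊆ Q.biUnion (fun r => cell ℓ M (i + u) r) := by
        intro p hp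
        rw [Finset.mem_biUnion]
        refine ⟨p % ℓ ^ (i + u), Finset.mem_image_of_mem _ hp, ?_⟩
        rw [mem_cell]
        have := (Finset.mem_filter.1 hp).1
        rw [mem_cell] at this
        exact ⟨this.1, rfl⟩
      exact (Finset.card_le_card h2).trans Finset.card_biUnion_le
    have h3 : ∑ r ∈ Q, (cell ℓ M (i + u) r).card ≤ Q.card * ℓ ^ (M - (i + u)) := by
      rw [← smul_eq_mul, ← Finset.sum_const]
      exact Finset.sum_le_sum (fun r _ => card_cell_le (by omega))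
    have h4 : Q.card * ℓ ^ (M - (i + u)) ≤ D * ℓ ^ (M - (i + u)) :=
      Nat.mul_le_mul_right _ (by omega)
    omega
  obtain ⟨Q', hQ'sub, hQ'card⟩ := Finset.exists_subset_card_eq hQcard
  have hch : ∀ r ∈ Q', ∃ p ∈ S, p % ℓ ^ (i + u) = r := by
    intro r hr
    have := hQ'sub hr
    rw [hQ, Finset.mem_image] at this
    exact this
  choose! g hg1 hg2 using hch
  set N : Finset ℚ := Q'.image (fun r => pt ℓ m (g r)) with hN
  have hℓQ : ((ℓ : ℚ) ^ m) ≠ 0 := by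
    have : (ℓ : ℚ) ≠ 0 := by exact_mod_cast hℓ.ne'
    positivity
  have hptinj : ∀ p p' : ℕ, pt ℓ m p = pt ℓ m p' → p = p' := by
    intro p p' h
    unfold pt at h
    rw [neg_inj, div_left_inj' hℓQ] at h
    exact_mod_cast h
  have hNcard : N.card = D + 1 := by
    rw [hN, Finset.card_image_of_injOn, hQ'card]
    intro r hr r' hr' h
    have h1 := hptinj _ _ h
    rw [← hg2 r hr, ← hg2 r' hr', h1]
  have key := nl_lagrange (ℓ := ℓ) D F hF N hNcard ((ℓ : ℝ) ^ m * ((ℓ : ℝ) ^ (i + u))⁻¹)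
    ((ℓ : ℝ) ^ m * ((ℓ : ℝ) ^ i)⁻¹) (B * ((ℓ : ℝ) ^ (u * D))⁻¹) (pt ℓ m p0)
    (by positivity) (by positivity) ?_ ?_ ?_
  · have e1 : (ℓ : ℝ) ^ m * ((ℓ : ℝ) ^ i)⁻¹ / ((ℓ : ℝ) ^ m * ((ℓ : ℝ) ^ (i + u))⁻¹) = (ℓ : ℝ) ^ u := by
      rw [pow_add]; field_simp
    rw [e1, ← pow_mul] at key
    have e2 : B * ((ℓ : ℝ) ^ (u * D))⁻¹ * (ℓ : ℝ) ^ (u * D) = B := by field_simp
    rw [e2] at key
    exact absurd h (not_le.2 key)
  · intro x hx y hy hxy
    rw [hN, Finset.mem_image] at hx hy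
    obtain ⟨r, hr, rfl⟩ := hx
    obtain ⟨r', hr', rfl⟩ := hy
    rw [nl_pt_sub]
    refine mul_le_mul_of_nonneg_left ?_ (by positivity)
    apply nl_int_ge
    intro hdvd
    apply hxy
    have h1 : (g r) % ℓ ^ (i + u) = (g r') % ℓ ^ (i + u) := by
      have h2 : ((g r' : ℕ) : ℤ) ≡ ((g r : ℕ) : ℤ) [ZMOD ((ℓ ^ (i + u) : ℕ) : ℤ)] := by
        rw [Int.modEq_iff_dvd]
        push_cast; exact hdvd
      exact ((Int.natCast_modEq_iff).1 h2).symm
    rw [hg2 r hr, hg2 r' hr'] at h1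
    rw [h1]
  · intro x hx
    rw [hN, Finset.mem_image] at hx
    obtain ⟨r, hr, rfl⟩ := hx
    rw [nl_pt_sub]
    refine mul_le_mul_of_nonneg_left ?_ (by positivity)
    apply nl_int_le_of_dvd
    have h1 := (Finset.mem_filter.1 (hg1 r hr)).1
    rw [mem_cell] at h1 hp0
    have h2 : ((g r : ℕ) : ℤ) ≡ ((p0 : ℕ) : ℤ) [ZMOD ((ℓ ^ i : ℕ) : ℤ)] := by
      rw [Int.natCast_modEq_iff]
      unfold Nat.ModEq
      rw [h1.2, hp0.2]
    rw [Int.modEq_iff_dvd] at h2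
    push_cast at h2; exact h2
  · intro x hx
    rw [hN, Finset.mem_image] at hx
    obtain ⟨r, hr, rfl⟩ := hx
    exact (Finset.mem_filter.1 (hg1 r hr)).2

/-- polynomials with `ℓ`-integral coefficients -/
def LInt (ℓ : ℕ) (P : ℚ[X]) : Prop := ∀ k, nl ℓ (P.coeff k) ≤ 1

lemma LInt.mul {P Q : ℚ[X]} (hP : LInt ℓ P) (hQ : LInt ℓ Q) : LInt ℓ (P * Q) := by
  intro k
  rw [coeff_mul]
  apply nl_sum_le _ _ _ zero_le_one
  intro x _
  rw [nl_mul]
  exact mul_le_one₀ (hP _) (nl_nonneg _) (hQ _)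

lemma LInt.prod {ι : Type*} (s : Finset ι) (f : ι → ℚ[X]) (h : ∀ i ∈ s, LInt ℓ (f i)) :
    LInt ℓ (∏ i ∈ s, f i) := by
  classical
  induction s using Finset.induction_on with
  | empty =>
    intro k
    rw [Finset.prod_empty, coeff_one]
    split_ifs <;> simp
  | insert a s ha ih =>
    rw [Finset.prod_insert ha]
    exact (h a (Finset.mem_insert_self _ _)).mul (ih (fun i hi => h i (Finset.mem_insert_of_mem hi)))

/-- a polynomial takes a value as large as a coefficient on `0, …, D` if `D < ℓ` -/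
lemma exists_nat_ge_coeff (D : ℕ) (hD : D < ℓ) (F : ℚ[X]) (hF : F.natDegree ≤ D) (e : ℕ) :
    ∃ p ≤ D, nl ℓ (F.coeff e) ≤ nl ℓ (F.eval (p : ℚ)) := by
  classical
  by_contra hcon
  push Not at hcon
  set N : Finset ℚ := (Finset.range (D + 1)).image (fun p : ℕ => (p : ℚ)) with hN
  have hcard : N.card = D + 1 := by
    rw [hN, Finset.card_image_of_injective _ Nat.cast_injective, Finset.card_range]
  have hinj : Set.InjOn (id : ℚ → ℚ) (N : Set ℚ) := fun a _ b _ h => h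
  have hdeg : F.degree < N.card := by
    rw [hcard]
    exact lt_of_le_of_lt degree_le_natDegree (by exact_mod_cast Nat.lt_succ_of_le hF)
  have heq := Lagrange.eq_interpolate hinj hdeg
  have hc : F.coeff e = ∑ i ∈ N, F.eval i * (Lagrange.basis N id i).coeff e := by
    conv_lhs => rw [heq]
    rw [Lagrange.interpolate_apply, finsetSum_coeff]
    simp
  have hbasis : ∀ i ∈ N, LInt ℓ (Lagrange.basis N id i) := by
    intro i hi
    rw [Lagrange.basis]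
    apply LInt.prod
    intro j hj
    have hj' := Finset.mem_erase.1 hj
    have hi0 := hi
    have hj0 := hj'.2
    rw [hN, Finset.mem_image] at hi0 hj0
    obtain ⟨i', hi', hii⟩ := hi0
    obtain ⟨j', hj'', hjj⟩ := hj0
    rw [Finset.mem_range] at hi' hj''
    have hne : i' ≠ j' := by
      intro h; apply hj'.1; rw [← hii, ← hjj, h]
    rw [Lagrange.basisDivisor]
    have h1 : nl ℓ (id i - id j) = 1 := by
      simp only [id]
      rw [← hii, ← hjj]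
      have : ((i' : ℚ) - (j' : ℚ)) = (((i' : ℤ) - (j' : ℤ) : ℤ) : ℚ) := by push_cast; ring
      rw [this]
      apply nl_int_eq_one
      intro hdvd
      have h2 : ((i' : ℤ) - j').natAbs < ℓ := by omega
      have h3 : ((i' : ℤ) - j') = 0 := Int.eq_zero_of_dvd_of_natAbs_lt_natAbs hdvd (by simpa using h2)
      omega
    intro k
    rw [coeff_C_mul, nl_mul, nl_inv, h1, inv_one, one_mul, coeff_sub, coeff_X, coeff_C]
    have hjint : nl ℓ (id j) ≤ 1 := by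
      simp only [id]; rw [← hjj]; exact nl_nat_le _
    have hsub : ∀ x y : ℚ, nl ℓ x ≤ 1 → nl ℓ y ≤ 1 → nl ℓ (x - y) ≤ 1 := by
      intro x y hx hy
      rw [sub_eq_add_neg]
      refine (nl_add _ _).trans (max_le hx ?_)
      rw [nl_neg]; exact hy
    apply hsub
    · split_ifs <;> simp
    · split_ifs
      · exact hjint
      · simp
  have hpos : 0 < nl ℓ (F.coeff e) := lt_of_le_of_lt (nl_nonneg _) (hcon 0 (by omega))
  have hlt : nl ℓ (F.coeff e) < nl ℓ (F.coeff e) := by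
    conv_lhs => rw [hc]
    apply nl_sum_lt _ _ _ hpos
    intro i hi
    rw [nl_mul]
    have hi0 := hi
    rw [hN, Finset.mem_image] at hi0
    obtain ⟨i', hi', hii⟩ := hi0
    rw [Finset.mem_range] at hi'
    have h1 := hcon i' (by omega)
    rw [hii] at h1
    calc nl ℓ (F.eval i) * nl ℓ ((Lagrange.basis N id i).coeff e) ≤ nl ℓ (F.eval i) * 1 :=
          mul_le_mul_of_nonneg_left (hbasis i hi e) (nl_nonneg _)
      _ = nl ℓ (F.eval i) := mul_one _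
      _ < _ := h1
  exact lt_irrefl _ hlt

/-- lower bound for a polynomial at some point `pt ℓ m p` -/
lemma exists_pt_ge_coeff (D : ℕ) (hD : D < ℓ) (F : ℚ[X]) (hF : F.natDegree ≤ D) (e m : ℕ) :
    ∃ p ≤ D, nl ℓ (F.coeff e) * ((ℓ : ℝ) ^ m) ^ e ≤ nl ℓ (F.eval (pt ℓ m p)) := by
  have hℓ0 : (ℓ : ℚ) ≠ 0 := by exact_mod_cast hp.out.ne_zero
  set H : ℚ[X] := F.comp (C (-((ℓ : ℚ) ^ m)⁻¹) * X) with hH
  have hHd : H.natDegree ≤ D := by
    rw [hH]
    refine (natDegree_comp_le).trans ?_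
    have h1 : (C (-((ℓ : ℚ) ^ m)⁻¹) * X : ℚ[X]).natDegree ≤ 1 := by
      refine (natDegree_C_mul_le _ _).trans natDegree_X_le
    calc F.natDegree * _ ≤ F.natDegree * 1 := Nat.mul_le_mul_left _ h1
      _ ≤ D := by omega
  obtain ⟨p, hpD, hpge⟩ := exists_nat_ge_coeff (ℓ := ℓ) D hD H hHd e
  refine ⟨p, hpD, ?_⟩
  have h1 : H.coeff e = F.coeff e * (-((ℓ : ℚ) ^ m)⁻¹) ^ e := by
    rw [hH, comp_C_mul_X_coeff]
  have h2 : H.eval (p : ℚ) = F.eval (pt ℓ m p) := by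
    rw [hH, eval_comp]
    congr 1
    unfold pt
    simp only [eval_mul, eval_C, eval_X]
    ring
  rw [h1, h2, nl_mul, nl_pow, nl_neg, nl_inv, nl_self_pow, inv_inv] at hpge
  exact hpge

end

end Pool.Agent.W71
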