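import Mathlib
import Pool.Agent.Helper404.KMC
import Pool.Agent.W71.Padic

/-! Lattice bases of rational subspaces and generalized minors. -/

set_option autoImplicit false

open Polynomial

namespace Pool.Agent.W71

open Pool.Agent.Helper404 (toP castQ Dt IB SB W W_ne_zero W_eq_Dt mu)

variable {n : ℕ}

/-! ### values of divided derivatives -/

/-- `k`-th divided derivative of the polynomial with coefficient vector `u`, at `z` -/
noncomputable def hd {R : Type*} [CommRing R] (k : ℕ) (u : Fin (n + 1) → ℤ) (z : R) : R :=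
  ((hasseDeriv k (toP u)).map (Int.castRingHom R)).eval z

/-- generalized minor at `z` -/
noncomputable def dv {R : Type*} [CommRing R] {j : ℕ} (v : Fin j → Fin (n + 1) → ℤ)
    (e : Fin j → ℕ) (z : R) : R :=
  ((Dt v e).map (Int.castRingHom R)).eval z

lemma dv_eq_det {R : Type*} [CommRing R] {j : ℕ} (v : Fin j → Fin (n + 1) → ℤ)
    (e : Fin j → ℕ) (z : R) : dv v e z = Matrix.det (Matrix.of fun a b => hd (e b) (v a) z) := by
  unfold dv Dt hd
  have h3 : ((Matrix.det (Matrix.of fun a b : Fin j => hasseDeriv (e b) (toP (v a)))).map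
      (Int.castRingHom R)).eval z = ((evalRingHom z).comp (mapRingHom (Int.castRingHom R)))
        (Matrix.det (Matrix.of fun a b : Fin j => hasseDeriv (e b) (toP (v a)))) := rfl
  rw [h3, RingHom.map_det]
  rfl

lemma map_hasseDeriv {R : Type*} [CommRing R] (k : ℕ) (p : ℤ[X]) :
    (hasseDeriv k p).map (Int.castRingHom R) = hasseDeriv k (p.map (Int.castRingHom R)) := by
  ext i
  simp [hasseDeriv_coeff]

lemma toP_coeff (u : Fin (n + 1) → ℤ) (i : Fin (n + 1)) : (toP u).coeff i = u i := by
  unfold toP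
  rw [finsetSum_coeff, Finset.sum_eq_single i]
  · simp
  · intro b _ hb
    have : (i : ℕ) ≠ (b : ℕ) := fun h => hb (Fin.ext h.symm)
    simp [coeff_X_pow, this]
  · simp

lemma toP_coeff' (u : Fin (n + 1) → ℤ) (i : ℕ) (hi : i < n + 1) : (toP u).coeff i = u ⟨i, hi⟩ :=
  toP_coeff u ⟨i, hi⟩

lemma natDegree_mapP {R : Type*} [CommRing R] (u : Fin (n + 1) → ℤ) :
    ((toP u).map (Int.castRingHom R)).natDegree ≤ n :=
  natDegree_map_le.trans (Pool.Agent.Helper404.toP_natDegree u)

lemma hd_eq_coeff {R : Type*} [CommRing R] (k : ℕ) (u : Fin (n + 1) → ℤ) (z : R) :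
    hd k u z = (taylor z ((toP u).map (Int.castRingHom R))).coeff k := by
  unfold hd
  rw [taylor_coeff, map_hasseDeriv]

lemma hasseDeriv_eval_eq {R : Type*} [CommRing R] (P : R[X]) (hP : P.natDegree ≤ n) (k : ℕ) (c : R) :
    (hasseDeriv k P).eval c =
      ∑ l : Fin (n + 1), P.coeff l * ((((l : ℕ).choose k : ℕ) : R) * c ^ ((l : ℕ) - k)) := by
  have h1 := P.as_sum_range' (n + 1) (by omega)
  conv_lhs => rw [h1]
  rw [map_sum, eval_finsetSum, Finset.sum_range]
  refine Finset.sum_congr rfl (fun l _ => ?_)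
  rw [hasseDeriv_monomial, eval_monomial]
  ring

lemma hd_shift {R : Type*} [CommRing R] (k : ℕ) (u : Fin (n + 1) → ℤ) (z c : R) :
    hd k u (z + c) =
      ∑ l : Fin (n + 1), hd (l : ℕ) u z * ((((l : ℕ).choose k : ℕ) : R) * c ^ ((l : ℕ) - k)) := by
  rw [hd_eq_coeff, add_comm z c, ← taylor_taylor, taylor_coeff, hasseDeriv_eval_eq (n := n)]
  · simp only [hd_eq_coeff]
  · rw [natDegree_taylor]; exact natDegree_mapP u

lemma hd_zero {R : Type*} [CommRing R] (k : Fin (n + 1)) (u : Fin (n + 1) → ℤ) :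
    hd (k : ℕ) u (0 : R) = (u k : R) := by
  rw [hd_eq_coeff, taylor_zero, coeff_map, toP_coeff]; rfl

/-! ### Cauchy–Binet expansion -/

lemma det_mul_expand {R : Type*} [CommRing R] {κ : Type*} [Fintype κ] [DecidableEq κ] {j : ℕ}
    (A : Matrix (Fin j) κ R) (B : Matrix κ (Fin j) R) :
    (A * B).det = ∑ φ : Fin j → κ, (∏ b, B (φ b) b) *
      Matrix.det (Matrix.of fun a b => A a (φ b)) := by
  have h1 : (A * B).det = Matrix.detRowAlternating (fun b : Fin j => ∑ k, B k b • (fun a => A a k)) := by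
    rw [← Matrix.det_transpose]
    change Matrix.detRowAlternating _ = _
    congr 1
    ext b a
    simp only [Matrix.transpose_apply, Matrix.mul_apply, Finset.sum_apply, Pi.smul_apply, smul_eq_mul]
    exact Finset.sum_congr rfl (fun k _ => mul_comm _ _)
  rw [h1]
  have h2 := MultilinearMap.map_sum (Matrix.detRowAlternating (n := Fin j) (R := R)).toMultilinearMap
    (fun b (k : κ) => B k b • (fun a => A a k))
  change Matrix.detRowAlternating _ = ∑ r : Fin j → κ, Matrix.detRowAlternating _ at h2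
  rw [h2]
  refine Finset.sum_congr rfl (fun φ _ => ?_)
  have h3 := MultilinearMap.map_smul_univ (Matrix.detRowAlternating (n := Fin j) (R := R)).toMultilinearMap
    (fun b => B (φ b) b) (fun b a => A a (φ b))
  change Matrix.detRowAlternating _ = _ • Matrix.detRowAlternating _ at h3
  rw [h3, smul_eq_mul]
  congr 1
  rw [← Matrix.det_transpose]
  rfl

/-- minors at a shifted point -/
lemma dv_shift {R : Type*} [CommRing R] {j : ℕ} (v : Fin j → Fin (n + 1) → ℤ)
    (e : Fin j → ℕ) (z c : R) :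
    dv v e (z + c) = ∑ φ : Fin j → Fin (n + 1),
      (∏ b, ((((φ b : ℕ).choose (e b) : ℕ) : R) * c ^ ((φ b : ℕ) - e b))) *
        dv v (fun b => (φ b : ℕ)) z := by
  rw [dv_eq_det]
  have h1 : (Matrix.of fun a b => hd (e b) (v a) (z + c)) =
      (Matrix.of fun a (l : Fin (n + 1)) => hd (l : ℕ) (v a) z) *
      (Matrix.of fun (l : Fin (n + 1)) b => ((((l : ℕ).choose (e b) : ℕ) : R) * c ^ ((l : ℕ) - e b))) := by
    ext a b
    rw [Matrix.mul_apply]
    simp only [Matrix.of_apply]
    exact hd_shift _ _ _ _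
  rw [h1, det_mul_expand]
  refine Finset.sum_congr rfl (fun φ _ => ?_)
  rw [dv_eq_det]
  rfl

/-! ### lattice bases -/

/-- `v` is a basis of the lattice of integer points of `U` -/
def ZB (U : Submodule ℚ (Fin (n + 1) → ℚ)) (j : ℕ) (v : Fin j → Fin (n + 1) → ℤ) : Prop :=
  IB U j v ∧ ∀ x : Fin (n + 1) → ℤ, castQ x ∈ U → ∃ c : Fin j → ℤ, x = ∑ a, c a • v a

lemma castQ_sum {j : ℕ} (c : Fin j → ℤ) (v : Fin j → Fin (n + 1) → ℤ) :
    castQ (∑ a, c a • v a) = ∑ a, (c a : ℚ) • castQ (v a) := by
  ext i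
  simp [castQ, Finset.sum_apply]

lemma castQ_inj {x y : Fin (n + 1) → ℤ} (h : castQ x = castQ y) : x = y := by
  ext i
  have := congrFun h i
  simpa [castQ] using this

lemma toP_mapQ_sum {j : ℕ} (c : Fin j → ℚ) (v : Fin j → Fin (n + 1) → ℤ) (y : Fin (n + 1) → ℤ)
    (h : castQ y = ∑ a, c a • castQ (v a)) :
    (toP y).map (Int.castRingHom ℚ) = ∑ a, c a • (toP (v a)).map (Int.castRingHom ℚ) := by
  simp only [Pool.Agent.Helper404.toP_map]
  rw [h]
  simp only [Finset.sum_apply, Pi.smul_apply, smul_eq_mul, map_sum, Finset.sum_mul, C_mul,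
    Finset.smul_sum, smul_eq_C_mul]
  rw [Finset.sum_comm]
  refine Finset.sum_congr rfl (fun x _ => Finset.sum_congr rfl (fun y _ => by ring))

lemma Dt_mapQ {j : ℕ} (v : Fin j → Fin (n + 1) → ℤ) (e : Fin j → ℕ) :
    (Dt v e).map (Int.castRingHom ℚ) = Matrix.det (Matrix.of fun a b : Fin j =>
      hasseDeriv (e b) ((toP (v a)).map (Int.castRingHom ℚ))) := by
  unfold Dt
  rw [← coe_mapRingHom, RingHom.map_det]
  congr 1
  ext a b k
  simp [hasseDeriv_coeff]

/-- replacing one vector by a rational combination -/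
lemma Dt_update {j : ℕ} (v : Fin j → Fin (n + 1) → ℤ) (a0 : Fin j) (c : Fin j → ℚ)
    (y : Fin (n + 1) → ℤ) (h : castQ y = ∑ a, c a • castQ (v a)) (e : Fin j → ℕ) :
    (Dt (Function.update v a0 y) e).map (Int.castRingHom ℚ) =
      C (c a0) * (Dt v e).map (Int.castRingHom ℚ) := by
  rw [Dt_mapQ, Dt_mapQ]
  set M := (Matrix.of fun a b : Fin j => hasseDeriv (e b) ((toP (v a)).map (Int.castRingHom ℚ))) with hM
  have h1 : (Matrix.of fun a b : Fin j =>
      hasseDeriv (e b) ((toP (Function.update v a0 y a)).map (Int.castRingHom ℚ))) =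
      M.updateRow a0 (∑ k, (C (c k)) • M k) := by
    ext1 a b
    by_cases ha : a = a0
    · subst ha
      rw [Matrix.updateRow_self]
      simp only [Matrix.of_apply, Function.update_self, Finset.sum_apply, Pi.smul_apply, hM]
      rw [toP_mapQ_sum c v y h, map_sum]
      refine Finset.sum_congr rfl (fun i _ => ?_)
      rw [map_smul, smul_eq_C_mul, smul_eq_mul]
    · rw [Matrix.updateRow_ne ha]
      simp only [Matrix.of_apply, hM, Function.update_of_ne ha]
  rw [h1, Matrix.det_updateRow_sum, smul_eq_mul]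

lemma exists_zbasis {U : Submodule ℚ (Fin (n + 1) → ℚ)} (h : ∃ j v, IB U j v) :
    ∃ j v, ZB U j v := by
  classical
  obtain ⟨j, v0, hv0⟩ := h
  have hex : ∃ m : ℕ, ∃ v : Fin j → Fin (n + 1) → ℤ, IB U j v ∧ mu v = m := ⟨_, v0, hv0, rfl⟩
  obtain ⟨v, hv, hmu⟩ := Nat.find_spec hex
  refine ⟨j, v, hv, fun x hx => ?_⟩
  rw [← hv.2] at hx
  obtain ⟨c, hc⟩ := (Submodule.mem_span_range_iff_exists_fun ℚ).1 hx
  by_cases hint : ∀ a, ((⌊c a⌋ : ℤ) : ℚ) = c a
  · refine ⟨fun a => ⌊c a⌋, castQ_inj ?_⟩
    rw [castQ_sum, ← hc]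
    exact Finset.sum_congr rfl (fun a _ => by rw [hint a])
  · exfalso
    push Not at hint
    obtain ⟨a0, ha0⟩ := hint
    set y : Fin (n + 1) → ℤ := x - ∑ a, ⌊c a⌋ • v a with hy
    have hyc : castQ y = ∑ a, (Int.fract (c a)) • castQ (v a) := by
      have h1 : castQ y = castQ x - castQ (∑ a, ⌊c a⌋ • v a) := by
        ext i; simp [castQ, hy]
      rw [h1, castQ_sum, ← hc, ← Finset.sum_sub_distrib]
      refine Finset.sum_congr rfl (fun a _ => ?_)
      rw [← sub_smul]; rfl
    have hfr : 0 < Int.fract (c a0) := by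
      rcases (Int.fract_nonneg (c a0)).lt_or_eq with h | h
      · exact h
      · exfalso; apply ha0
        have := Int.floor_add_fract (c a0)
        rw [← h, add_zero] at this
        exact this
    have hfr1 := Int.fract_lt_one (c a0)
    set v' := Function.update v a0 y with hv'
    have hD : ∀ e, (Dt v' e).map (Int.castRingHom ℚ) =
        C (Int.fract (c a0)) * (Dt v e).map (Int.castRingHom ℚ) :=
      fun e => Dt_update v a0 _ y hyc e
    have hWne := W_ne_zero v hv.1
    -- the new tuple is a basis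
    have hcast : (fun a => castQ (v' a)) = Function.update (fun a => castQ (v a)) a0 (castQ y) := by
      ext1 a
      by_cases ha : a = a0
      · subst ha; simp [hv']
      · simp [hv', Function.update_of_ne ha]
    have hy_mem : castQ y ∈ U := by
      rw [hyc, ← hv.2]
      exact Submodule.sum_mem _ (fun a _ => Submodule.smul_mem _ _ (Submodule.subset_span ⟨a, rfl⟩))
    have hIB' : IB U j v' := by
      have hrank : Module.finrank ℚ U = j := hv.finrank
      have hle : Submodule.span ℚ (Set.range (fun a => castQ (v' a))) ≤ U := by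
        rw [Submodule.span_le]
        rintro _ ⟨a, rfl⟩
        have hca : castQ (v' a) = Function.update (fun a => castQ (v a)) a0 (castQ y) a :=
          congrFun hcast a
        simp only [SetLike.mem_coe]
        rw [hca]
        by_cases ha : a = a0
        · subst ha; simpa using hy_mem
        · rw [Function.update_of_ne ha, ← hv.2]
          exact Submodule.subset_span ⟨a, rfl⟩
      have hge : U ≤ Submodule.span ℚ (Set.range (fun a => castQ (v' a))) := by
        rw [← hv.2, Submodule.span_le]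
        have hother : ∀ a, a ≠ a0 → castQ (v a) ∈ Submodule.span ℚ (Set.range (fun a => castQ (v' a))) := by
          intro a ha
          apply Submodule.subset_span
          exact ⟨a, by simp [hv', Function.update_of_ne ha]⟩
        rintro _ ⟨a, rfl⟩
        by_cases ha : a = a0
        · subst ha
          have h1 : castQ y ∈ Submodule.span ℚ (Set.range (fun a => castQ (v' a))) :=
            Submodule.subset_span ⟨a, by simp [hv']⟩
          have h2 : castQ (v a) = (Int.fract (c a))⁻¹ • (castQ y -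
              ∑ b ∈ Finset.univ.erase a, Int.fract (c b) • castQ (v b)) := by
            rw [hyc, ← Finset.add_sum_erase _ _ (Finset.mem_univ a), add_sub_cancel_right, smul_smul,
              inv_mul_cancel₀ hfr.ne', one_smul]
          change castQ (v a) ∈ _
          rw [h2]
          apply Submodule.smul_mem
          apply Submodule.sub_mem _ h1
          apply Submodule.sum_mem
          intro b hb
          exact Submodule.smul_mem _ _ (hother b (Finset.ne_of_mem_erase hb))
        · exact hother a ha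
      have heq := le_antisymm hle hge
      refine ⟨?_, heq⟩
      rw [linearIndependent_iff_card_eq_finrank_span, Set.finrank, heq, hrank, Fintype.card_fin]
    have hmin : mu v ≤ mu v' := by
      rw [hmu]; exact Nat.find_min' hex ⟨v', hIB', rfl⟩
    have h1 := congrArg leadingCoeff (hD (fun b => (b : ℕ)))
    rw [← W_eq_Dt, ← W_eq_Dt, leadingCoeff_mul, leadingCoeff_C,
      leadingCoeff_map_of_injective (RingHom.injective_int _),
      leadingCoeff_map_of_injective (RingHom.injective_int _)] at h1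
    have h2 : (0 : ℚ) < |((W v).leadingCoeff : ℚ)| := by
      rw [abs_pos]
      exact_mod_cast leadingCoeff_ne_zero.2 hWne
    have h3 : |((W v).leadingCoeff : ℚ)| ≤ |((W v').leadingCoeff : ℚ)| := by
      unfold mu at hmin
      have : (((W v).leadingCoeff.natAbs : ℤ) : ℚ) ≤ (((W v').leadingCoeff.natAbs : ℤ) : ℚ) := by
        exact_mod_cast hmin
      rw [Int.natCast_natAbs, Int.natCast_natAbs] at this
      simpa using this
    simp only [eq_intCast] at h1
    rw [h1, abs_mul, abs_of_pos hfr] at h3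
    nlinarith

/-- a lattice basis compared with an arbitrary integer tuple -/
lemma ZB.prop {U : Submodule ℚ (Fin (n + 1) → ℚ)} {j : ℕ} {v : Fin j → Fin (n + 1) → ℤ}
    (h : ZB U j v) (v' : Fin j → Fin (n + 1) → ℤ) (hv' : ∀ a, castQ (v' a) ∈ U) :
    ∃ d : ℤ, ∀ e : Fin j → ℕ, Dt v' e = C d * Dt v e := by
  choose A hA using fun a => h.2 (v' a) (hv' a)
  refine ⟨(Matrix.of A).det, fun e => ?_⟩
  unfold Dt
  have hC : (C (Matrix.of A).det : ℤ[X]) = ((Matrix.of A).map C).det := by
    rw [RingHom.map_det]; rfl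
  rw [hC, ← Matrix.det_mul]
  congr 1
  ext1 a b
  rw [Matrix.mul_apply]
  simp only [Matrix.of_apply, Matrix.map_apply]
  have h1 : toP (v' a) = ∑ i, A a i • toP (v i) := by
    rw [hA a]
    unfold toP
    simp only [Finset.sum_apply, Pi.smul_apply, smul_eq_mul, map_sum, Finset.sum_mul, C_mul,
      Finset.smul_sum, smul_eq_C_mul]
    rw [Finset.sum_comm]
    refine Finset.sum_congr rfl (fun x _ => Finset.sum_congr rfl (fun y _ => by ring))
  rw [h1, map_sum]
  refine Finset.sum_congr rfl (fun i _ => ?_)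
  rw [map_smul, smul_eq_C_mul]

/-- every rational subspace has an integer basis -/
lemma exists_IB (U : Submodule ℚ (Fin (n + 1) → ℚ)) : ∃ j v, IB U j v := by
  classical
  set b := Module.finBasis ℚ U with hb
  refine ⟨Module.finrank ℚ U, ?_⟩
  have hden : ∀ x : Fin (n + 1) → ℚ, ∃ (d : ℕ) (y : Fin (n + 1) → ℤ), d ≠ 0 ∧ castQ y = (d : ℚ) • x := by
    intro x
    refine ⟨∏ i, (x i).den, fun i => (x i).num * ∏ k ∈ Finset.univ.erase i, ((x k).den : ℤ),
      Finset.prod_ne_zero_iff.2 (fun i _ => (x i).den_ne_zero), ?_⟩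
    ext i
    simp only [castQ, Pi.smul_apply, smul_eq_mul]
    push_cast
    rw [← Finset.mul_prod_erase _ _ (Finset.mem_univ i)]
    have h1 : ((x i).den : ℚ) * x i = (x i).num := by
      rw [mul_comm]; exact Rat.mul_den_eq_num (x i)
    calc ((x i).num : ℚ) * ∏ k ∈ Finset.univ.erase i, ((x k).den : ℚ)
        = (((x i).den : ℚ) * x i) * ∏ k ∈ Finset.univ.erase i, ((x k).den : ℚ) := by rw [h1]
      _ = _ := by ring
  choose d y hd hy using fun a : Fin (Module.finrank ℚ U) => hden (b a : Fin (n + 1) → ℚ)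
  refine ⟨y, ?_, ?_⟩
  · have h1 : LinearIndependent ℚ (fun a => ((b a : U) : Fin (n + 1) → ℚ)) :=
      b.linearIndependent.map' U.subtype (Submodule.ker_subtype U)
    have hd' : ∀ a, (d a : ℚ) ≠ 0 := fun a => by exact_mod_cast hd a
    have h2 := h1.units_smul (fun a => Units.mk0 (d a : ℚ) (hd' a))
    convert h2 using 1
    ext1 a
    rw [hy a]; rfl
  · apply le_antisymm
    · rw [Submodule.span_le]
      rintro _ ⟨a, rfl⟩
      change castQ (y a) ∈ U
      rw [hy a]
      exact Submodule.smul_mem _ _ (b a).2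
    · intro x hx
      have h1 := b.sum_repr ⟨x, hx⟩
      have h2 : x = ∑ a, b.repr ⟨x, hx⟩ a • ((b a : U) : Fin (n + 1) → ℚ) := by
        have := congrArg (fun u : U => (u : Fin (n + 1) → ℚ)) h1
        simp only [Submodule.coe_sum, Submodule.coe_smul] at this
        exact this.symm
      rw [h2]
      apply Submodule.sum_mem
      intro a _
      have h3 : ((b a : U) : Fin (n + 1) → ℚ) = ((d a : ℚ))⁻¹ • castQ (y a) := by
        rw [hy a, smul_smul, inv_mul_cancel₀ (by exact_mod_cast hd a), one_smul]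
      rw [h3]
      apply Submodule.smul_mem
      apply Submodule.smul_mem
      exact Submodule.subset_span ⟨a, rfl⟩

/-- the element of the poset attached to a subspace -/
def mkS (U : Submodule ℚ (Fin (n + 1) → ℚ)) : SB n := ⟨U, exists_IB U⟩

/-- dimension -/
noncomputable def zd (s : SB n) : ℕ := (exists_zbasis s.2).choose

/-- lattice basis -/
noncomputable def zb (s : SB n) : Fin (zd s) → Fin (n + 1) → ℤ :=
  (exists_zbasis s.2).choose_spec.choose

lemma zb_ZB (s : SB n) : ZB s.1 (zd s) (zb s) := (exists_zbasis s.2).choose_spec.choose_spec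

lemma zd_eq (s : SB n) : zd s = Pool.Agent.Helper404.rk s := (zb_ZB s).1.finrank.symm

lemma zd_le (s : SB n) : zd s ≤ n + 1 := (zb_ZB s).1.le

/-- independence modulo a prime -/
lemma ZB.indep_mod {U : Submodule ℚ (Fin (n + 1) → ℚ)} {j : ℕ} {v : Fin j → Fin (n + 1) → ℤ}
    (h : ZB U j v) (ℓ : ℕ) (hℓ : ℓ ≠ 0) (c : Fin j → ℤ)
    (hc : ∀ i, (ℓ : ℤ) ∣ (∑ a, c a • v a) i) : ∀ a, (ℓ : ℤ) ∣ c a := by
  choose y hy using hc
  have hℓQ : (ℓ : ℚ) ≠ 0 := by exact_mod_cast hℓ
  have h1 : castQ (∑ a, c a • v a) = (ℓ : ℚ) • castQ y := by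
    ext i
    simp only [castQ, Pi.smul_apply, smul_eq_mul]
    rw [hy i]; push_cast; rfl
  have h2 : castQ y ∈ U := by
    have h3 : castQ y = (ℓ : ℚ)⁻¹ • castQ (∑ a, c a • v a) := by
      rw [h1, smul_smul, inv_mul_cancel₀ hℓQ, one_smul]
    rw [h3]
    apply Submodule.smul_mem
    rw [castQ_sum, ← h.1.2]
    exact Submodule.sum_mem _ (fun a _ => Submodule.smul_mem _ _ (Submodule.subset_span ⟨a, rfl⟩))
  obtain ⟨c', hc'⟩ := h.2 y h2
  have h4 : ∑ a, ((c a : ℚ) - (ℓ : ℚ) * (c' a : ℚ)) • castQ (v a) = 0 := by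
    have h5 := h1
    rw [hc', castQ_sum, castQ_sum, Finset.smul_sum] at h5
    rw [← sub_eq_zero] at h5
    rw [← h5, ← Finset.sum_sub_distrib]
    refine Finset.sum_congr rfl (fun a _ => ?_)
    rw [sub_smul, mul_smul]
  have h6 := (Fintype.linearIndependent_iff.1 h.1.1) _ h4
  intro a
  refine ⟨c' a, ?_⟩
  have h7 := h6 a
  have h8 : (c a : ℚ) = ((ℓ : ℤ) * c' a : ℤ) := by push_cast; linarith
  exact_mod_cast h8

end Pool.Agent.W71
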