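import Mathlib
import Pool.Agent.Helper404.KM
import Pool.Agent.W71.Tree

/-! The two-step nondivergence: an ultrametric variable, then a real variable. -/

set_option autoImplicit false

open MeasureTheory Set

namespace Pool.Agent.W71

open Pool.Agent.Helper404 (km kmC kmC_nonneg Marked)

/-- weakly marked values -/
def Mk {S : Type*} [PartialOrder S] (g : S → ℝ) (T : Set S) (ε : ℝ) : Prop :=
  ∃ F : Set S, F ⊆ T ∧ IsChain (· ≤ ·) F ∧ (∀ s ∈ F, g s ≤ 1) ∧
    ∀ s ∈ T, (∀ s' ∈ F, s ≤ s' ∨ s' ≤ s) → ε ≤ g s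

lemma bddAbove_image {G : ℝ → ℝ} (hG : Continuous G) (a l : ℝ) :
    BddAbove (G '' Ico a (a + l)) := by
  have h1 : IsCompact (G '' Icc a (a + l)) := isCompact_Icc.image hG
  exact h1.bddAbove.mono (image_mono Ico_subset_Icc_self)

lemma exists_half {G : ℝ → ℝ} (a l : ℝ) (hl : 0 < l) (u e : ℝ) (hu : 0 ≤ u) (he : 0 < e)
    (h : e ≤ sSup (G '' Ico a (a + l)) * u) : ∃ z ∈ Ico a (a + l), e / 2 ≤ G z * u := by
  by_contra hcon
  push Not at hcon
  rcases hu.lt_or_eq with hu' | hu'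
  · have h1 : sSup (G '' Ico a (a + l)) ≤ (e / 2) / u := by
      apply csSup_le
      · exact (nonempty_Ico.2 (by linarith)).image _
      · rintro _ ⟨z, hz, rfl⟩
        rw [le_div_iff₀ hu']
        exact (hcon z hz).le
    have h2 : sSup (G '' Ico a (a + l)) * u ≤ e / 2 := by
      rwa [le_div_iff₀ hu'] at h1
    linarith
  · rw [← hu', mul_zero] at h
    linarith

theorem two {S : Type*} [PartialOrder S] (G : S → ℝ → ℝ) (hcont : ∀ s, Continuous (G s))
    (hG0 : ∀ s z, 0 ≤ G s z) (rank : S → ℕ) (hrank : ∀ s s', s < s' → rank s < rank s')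
    (C α : ℝ) (hC : 0 ≤ C)
    (hgood : ∀ s, ∀ c : ℝ, 0 ≤ c → ∀ a l : ℝ, 0 < l → (∃ z ∈ Ico a (a + l), 1 ≤ c * G s z) →
      ∀ ε : ℝ, 0 < ε → volume {x ∈ Ico a (a + l) | c * G s x < ε} ≤
        ENNReal.ofReal (C * ε ^ α) * ENNReal.ofReal l)
    (u : S → ℝ) (hu : ∀ s, 0 ≤ u s) (T : Set S) (R : Finset ℕ) (hT : ∀ s ∈ T, rank s ∈ R)
    (a l : ℝ) (hl : 0 < l) (ε₁ ε₂ : ℝ) (h1 : 0 < ε₁) (h1' : ε₁ ≤ 1) (h2 : 0 < ε₂) (h2' : ε₂ ≤ 1)
    (hM : MarkedAt (fun s => sSup (G s '' Ico a (a + l)) * u s) T ε₁) :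
    volume {z ∈ Ico a (a + l) | ¬ Mk (fun s => G s z * u s) T (ε₁ * ε₂ / 2)} ≤
      ENNReal.ofReal ((kmC C R.card + R.card * C) * ε₂ ^ α) * ENNReal.ofReal l := by
  classical
  obtain ⟨F, hFT, hFc, hF1, hF2⟩ := hM
  have hbdd : ∀ s, BddAbove (G s '' Ico a (a + l)) := fun s => bddAbove_image (hcont s) a l
  set T' : Set S := {s ∈ T | s ∉ F ∧ ∀ s' ∈ F, s ≤ s' ∨ s' ≤ s} with hT'
  have hkm := km (fun s z => (2 * u s) * G s z) rank hrank
    (fun s => continuous_const.mul (hcont s)) C α hC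
    (fun s a l hl hex ε hε => hgood s (2 * u s) (by have := hu s; positivity) a l hl hex ε hε)
    R.card T' R rfl (fun s hs => hT s hs.1) a l hl (by
      rintro s ⟨hsT, hsF, hcmp⟩
      have h3 : 1 ≤ sSup (G s '' Ico a (a + l)) * u s := by
        rcases hF2 s hsT hcmp with h | h
        · exact absurd h hsF
        · exact h
      obtain ⟨z, hz, hz'⟩ := exists_half a l hl (u s) 1 (hu s) one_pos h3
      exact ⟨z, hz, by linarith⟩) ε₂ h2
  have hinj : Set.InjOn rank F := by
    intro s hs s' hs' hss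
    by_contra hne
    rcases hFc hs hs' hne with h | h
    · exact absurd hss (hrank _ _ (lt_of_le_of_ne h hne)).ne
    · exact absurd hss (hrank _ _ (lt_of_le_of_ne h (Ne.symm hne))).ne'
  have hfin : F.Finite := by
    apply Set.Finite.of_finite_image _ hinj
    apply R.finite_toSet.subset
    rintro _ ⟨s, hs, rfl⟩
    exact hT s (hFT hs)
  have hcard : hfin.toFinset.card ≤ R.card := by
    rw [← Finset.card_image_of_injOn (f := rank) (s := hfin.toFinset) (by simpa using hinj)]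
    apply Finset.card_le_card
    intro r hr
    rw [Finset.mem_image] at hr
    obtain ⟨s, hs, rfl⟩ := hr
    exact hT s (hFT (hfin.mem_toFinset.1 hs))
  have hB : ∀ s ∈ hfin.toFinset,
      volume {z ∈ Ico a (a + l) | (2 / ε₁ * u s) * G s z < ε₂} ≤
        ENNReal.ofReal (C * ε₂ ^ α) * ENNReal.ofReal l := by
    intro s hs
    have hsF := hfin.mem_toFinset.1 hs
    apply hgood s _ (by have := hu s; positivity) a l hl _ ε₂ h2
    obtain ⟨z, hz, hz'⟩ := exists_half a l hl (u s) ε₁ (hu s) h1 (hF1 s hsF).1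
    refine ⟨z, hz, ?_⟩
    have : 2 / ε₁ * u s * G s z = (G s z * u s) / (ε₁ / 2) := by field_simp
    rw [this, one_le_div (by positivity)]
    exact hz'
  have hsub : {z ∈ Ico a (a + l) | ¬ Mk (fun s => G s z * u s) T (ε₁ * ε₂ / 2)} ⊆
      {z ∈ Ico a (a + l) | ¬ Marked (fun s z => (2 * u s) * G s z) T' ε₂ z} ∪
      ⋃ s ∈ hfin.toFinset, {z ∈ Ico a (a + l) | (2 / ε₁ * u s) * G s z < ε₂} := by
    rintro z ⟨hz, hzM⟩
    by_contra hcon
    rw [mem_union, not_or] at hcon
    obtain ⟨hc1, hc2⟩ := hcon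
    have hx1 : Marked (fun s z => (2 * u s) * G s z) T' ε₂ z := by
      by_contra h; exact hc1 ⟨hz, h⟩
    have hx2 : ∀ s ∈ F, ε₂ ≤ (2 / ε₁ * u s) * G s z := by
      intro s hs
      by_contra h
      apply hc2
      rw [mem_iUnion₂]
      exact ⟨s, hfin.mem_toFinset.2 hs, hz, not_le.1 h⟩
    apply hzM
    obtain ⟨F', hF'T, hF'c, hF'1, hF'2⟩ := hx1
    refine ⟨F ∪ F', ?_, ?_, ?_, ?_⟩
    · intro s hs
      rcases hs with h | h
      · exact hFT h
      · exact (hF'T h).1
    · intro s hs s' hs' hne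
      rcases hs with h | h <;> rcases hs' with h' | h'
      · exact hFc h h' hne
      · rcases (hF'T h').2.2 s h with h3 | h3
        · exact Or.inr h3
        · exact Or.inl h3
      · exact (hF'T h).2.2 s' h'
      · exact hF'c h h' hne
    · intro s hs
      rcases hs with h | h
      · have h3 := (hF1 s h).2
        have h4 : G s z ≤ sSup (G s '' Ico a (a + l)) := le_csSup (hbdd s) ⟨z, hz, rfl⟩
        change G s z * u s ≤ 1
        exact (mul_le_mul_of_nonneg_right h4 (hu s)).trans h3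
      · have h3 := (hF'1 s h).2
        change G s z * u s ≤ 1
        have h5 := mul_nonneg (hG0 s z) (hu s)
        have h6 : 2 * u s * G s z = 2 * (G s z * u s) := by ring
        simp only [h6] at h3
        linarith
    · intro s hsT hcmp
      change ε₁ * ε₂ / 2 ≤ G s z * u s
      have h12 : ε₁ * ε₂ ≤ ε₂ := mul_le_of_le_one_left h2.le h1'
      by_cases hsF : s ∈ F
      · have h3 := hx2 s hsF
        have : 2 / ε₁ * u s * G s z = (G s z * u s) / (ε₁ / 2) := by field_simp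
        rw [this, le_div_iff₀ (by positivity)] at h3
        linarith
      · have hsT' : s ∈ T' := ⟨hsT, hsF, fun s' hs' => hcmp s' (Or.inl hs')⟩
        have h6 : 2 * u s * G s z = 2 * (G s z * u s) := by ring
        rcases hF'2 s hsT' (fun s' hs' => hcmp s' (Or.inr hs')) with h | h
        · have h3 := (hF'1 s h).1
          simp only [h6] at h3
          linarith
        · simp only [h6] at h
          linarith
  have hαpos : 0 ≤ ε₂ ^ α := Real.rpow_nonneg h2.le _
  calc volume {z ∈ Ico a (a + l) | ¬ Mk (fun s => G s z * u s) T (ε₁ * ε₂ / 2)}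
      ≤ volume {z ∈ Ico a (a + l) | ¬ Marked (fun s z => (2 * u s) * G s z) T' ε₂ z} +
        volume (⋃ s ∈ hfin.toFinset, {z ∈ Ico a (a + l) | (2 / ε₁ * u s) * G s z < ε₂}) :=
        (measure_mono hsub).trans (measure_union_le _ _)
    _ ≤ ENNReal.ofReal (kmC C R.card * ε₂ ^ α) * ENNReal.ofReal l +
        ∑ s ∈ hfin.toFinset, ENNReal.ofReal (C * ε₂ ^ α) * ENNReal.ofReal l := by
        refine add_le_add hkm ?_
        exact (measure_biUnion_finset_le _ _).trans (Finset.sum_le_sum hB)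
    _ ≤ ENNReal.ofReal (kmC C R.card * ε₂ ^ α) * ENNReal.ofReal l +
        R.card * (ENNReal.ofReal (C * ε₂ ^ α) * ENNReal.ofReal l) := by
        gcongr
        rw [Finset.sum_const, nsmul_eq_mul]
        gcongr
    _ = ENNReal.ofReal ((kmC C R.card + R.card * C) * ε₂ ^ α) * ENNReal.ofReal l := by
        have e1 : (R.card : ENNReal) = ENNReal.ofReal (R.card : ℝ) := by
          rw [ENNReal.ofReal_natCast]
        rw [← mul_assoc, ← add_mul, e1, ← ENNReal.ofReal_mul (by positivity),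
          ← ENNReal.ofReal_add (by have := kmC_nonneg hC R.card; positivity) (by positivity)]
        congr 2
        ring

end Pool.Agent.W71
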