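import Mathlib
import Pool.Agent.Helper404.KMC
import Pool.Agent.W71.Basis
import Pool.Agent.W71.Two

/-! The `S`-arithmetic norm of a lattice basis; marked points have no short vectors. -/

set_option autoImplicit false

open Polynomial

namespace Pool.Agent.W71

open Pool.Agent.Helper404 (toP castQ Dt IB SB W W_ne_zero W_eq_Dt mu term Nm term_le exists_term
  term_nonneg Nm_nonneg nrm laplace rk rk_strict botS Nm_empty castQ_eq_zero)

variable {n : ℕ}

/-- `ℓ`-adic norm of a tuple at `x` -/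
noncomputable def Ux (ℓ : ℕ) {j : ℕ} (v : Fin j → Fin (n + 1) → ℤ) (x : ℚ) : ℝ :=
  Finset.univ.sup' Finset.univ_nonempty
    (fun I : Fin j → Fin (n + 1) => nl ℓ (dv v (fun b => (I b : ℕ)) x))

section
variable {ℓ : ℕ}

lemma le_Ux {j : ℕ} (v : Fin j → Fin (n + 1) → ℤ) (x : ℚ) (I : Fin j → Fin (n + 1)) :
    nl ℓ (dv v (fun b => (I b : ℕ)) x) ≤ Ux ℓ v x :=
  Finset.le_sup' (fun I : Fin j → Fin (n + 1) => nl ℓ (dv v (fun b => (I b : ℕ)) x))
    (Finset.mem_univ I)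

lemma exists_Ux (ℓ : ℕ) {j : ℕ} (v : Fin j → Fin (n + 1) → ℤ) (x : ℚ) :
    ∃ I : Fin j → Fin (n + 1), Ux ℓ v x = nl ℓ (dv v (fun b => (I b : ℕ)) x) := by
  obtain ⟨I, _, hI⟩ := Finset.exists_mem_eq_sup' Finset.univ_nonempty
    (fun I : Fin j → Fin (n + 1) => nl ℓ (dv v (fun b => (I b : ℕ)) x))
  exact ⟨I, hI⟩

lemma Ux_nonneg {j : ℕ} (v : Fin j → Fin (n + 1) → ℤ) (x : ℚ) : 0 ≤ Ux ℓ v x := by
  obtain ⟨I, hI⟩ := exists_Ux ℓ v x
  rw [hI]; exact nl_nonneg _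

lemma Ux_empty (v : Fin 0 → Fin (n + 1) → ℤ) (x : ℚ) : Ux ℓ v x = 1 := by
  obtain ⟨I, hI⟩ := exists_Ux ℓ v x
  rw [hI]
  simp [dv, Dt]

lemma term_eq (w : Fin (n + 1) → ℝ) {j : ℕ} (v : Fin j → Fin (n + 1) → ℤ) (z : ℝ)
    (I : Fin j → Fin (n + 1)) :
    term w v z I = |dv v (fun b => (I b : ℕ)) z| / ∏ b, w (I b) := rfl

lemma nrm_eq (w : Fin (n + 1) → ℝ) (u : Fin (n + 1) → ℤ) (z : ℝ) (k : Fin (n + 1)) :
    nrm w u z k = |hd (k : ℕ) u z| / w k := rfl

variable [hp : Fact ℓ.Prime]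

lemma Ux_add_int_le {j : ℕ} (v : Fin j → Fin (n + 1) → ℤ) (x : ℚ) (k : ℤ) :
    Ux ℓ v (x + k) ≤ Ux ℓ v x := by
  obtain ⟨I, hI⟩ := exists_Ux ℓ v (x + k)
  rw [hI, dv_shift]
  apply nl_sum_le _ _ _ (Ux_nonneg _ _)
  intro φ _
  rw [nl_mul]
  have h1 : nl ℓ (∏ b, ((((φ b : ℕ).choose (I b : ℕ) : ℕ) : ℚ) * (k : ℚ) ^ ((φ b : ℕ) - (I b : ℕ)))) ≤ 1 := by
    have : (∏ b, ((((φ b : ℕ).choose (I b : ℕ) : ℕ) : ℚ) * (k : ℚ) ^ ((φ b : ℕ) - (I b : ℕ)))) =
        ((∏ b, ((((φ b : ℕ).choose (I b : ℕ) : ℕ) : ℤ) * k ^ ((φ b : ℕ) - (I b : ℕ))) : ℤ) : ℚ) := by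
      push_cast; rfl
    rw [this]; exact nl_int_le _
  calc _ ≤ 1 * Ux ℓ v x := mul_le_mul h1 (le_Ux v x φ) (nl_nonneg _) zero_le_one
    _ = _ := one_mul _

lemma Ux_add_int {j : ℕ} (v : Fin j → Fin (n + 1) → ℤ) (x : ℚ) (k : ℤ) :
    Ux ℓ v (x + k) = Ux ℓ v x := by
  apply le_antisymm (Ux_add_int_le v x k)
  have := Ux_add_int_le (ℓ := ℓ) v (x + k) (-k)
  push_cast at this
  rwa [add_neg_cancel_right] at this

lemma Ux_laplace {j : ℕ} (v : Fin j → Fin (n + 1) → ℤ) (u : Fin (n + 1) → ℤ) (x : ℚ) (Y : ℝ)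
    (hY : ∀ k : Fin (n + 1), nl ℓ (hd (k : ℕ) u x) ≤ Y) :
    Ux ℓ (Fin.cons u v : Fin (j + 1) → Fin (n + 1) → ℤ) x ≤ Y * Ux ℓ v x := by
  obtain ⟨I, hI⟩ := exists_Ux ℓ (Fin.cons u v : Fin (j + 1) → Fin (n + 1) → ℤ) x
  rw [hI]
  have hY0 : 0 ≤ Y := (nl_nonneg _).trans (hY 0)
  have hexp : dv (Fin.cons u v : Fin (j + 1) → Fin (n + 1) → ℤ) (fun b => (I b : ℕ)) x =
      ∑ b : Fin (j + 1), (-1) ^ (b : ℕ) * hd (I b : ℕ) u x *
        dv v (fun c => (I (b.succAbove c) : ℕ)) x := by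
    rw [dv_eq_det, Matrix.det_succ_row_zero]
    refine Finset.sum_congr rfl (fun b _ => ?_)
    rw [dv_eq_det]
    simp only [Matrix.of_apply, Fin.cons_zero]
    congr 2
  rw [hexp]
  apply nl_sum_le _ _ _ (mul_nonneg hY0 (Ux_nonneg _ _))
  intro b _
  rw [nl_mul, nl_mul, nl_pow, nl_neg, nl_one, one_pow, one_mul]
  exact mul_le_mul (hY _) (le_Ux v x (fun c => I (b.succAbove c))) (nl_nonneg _) hY0

omit hp in
lemma dv_scale {R : Type*} [CommRing R] {j : ℕ} {v v' : Fin j → Fin (n + 1) → ℤ} {d : ℤ}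
    (h : ∀ e : Fin j → ℕ, Dt v' e = C d * Dt v e) (e : Fin j → ℕ) (z : R) :
    dv v' e z = (d : R) * dv v e z := by
  unfold dv
  rw [h, Polynomial.map_mul, map_C, eval_mul, eval_C]; rfl

lemma Ux_scale {j : ℕ} {v v' : Fin j → Fin (n + 1) → ℤ} {d : ℤ}
    (h : ∀ e : Fin j → ℕ, Dt v' e = C d * Dt v e) (x : ℚ) :
    nl ℓ (d : ℚ) * Ux ℓ v x ≤ Ux ℓ v' x := by
  obtain ⟨I, hI⟩ := exists_Ux ℓ v x
  rw [hI, ← nl_mul, ← dv_scale h]
  exact le_Ux v' x I

omit hp in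
lemma Nm_scale (w : Fin (n + 1) → ℝ) {j : ℕ} {v v' : Fin j → Fin (n + 1) → ℤ} {d : ℤ}
    (h : ∀ e : Fin j → ℕ, Dt v' e = C d * Dt v e) (z : ℝ) :
    |(d : ℝ)| * Nm w v z ≤ Nm w v' z := by
  obtain ⟨I, hI⟩ := exists_term w v z
  rw [hI, term_eq, ← mul_div_assoc, ← abs_mul, ← dv_scale h]
  exact term_le w v' z I

/-- a lattice basis has minimal norm -/
lemma ZB.min_norm {U : Submodule ℚ (Fin (n + 1) → ℚ)} {j : ℕ} {v v' : Fin j → Fin (n + 1) → ℤ}
    (h : ZB U j v) (h' : IB U j v') (w : Fin (n + 1) → ℝ) (hw : ∀ k, 0 < w k) (z : ℝ) (x : ℚ) :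
    Nm w v z * Ux ℓ v x ≤ Nm w v' z * Ux ℓ v' x := by
  obtain ⟨d, hd⟩ := h.prop v' (fun a => by
    rw [← h'.2]; exact Submodule.subset_span ⟨a, rfl⟩)
  have hd0 : d ≠ 0 := by
    rintro rfl
    apply W_ne_zero v' h'.1
    rw [W_eq_Dt, hd]; simp
  have h1 := one_le_abs_mul_nl (ℓ := ℓ) hd0
  have hN := Nm_nonneg w hw v z
  have hU := Ux_nonneg (ℓ := ℓ) v x
  calc Nm w v z * Ux ℓ v x = 1 * (Nm w v z * Ux ℓ v x) := (one_mul _).symm
    _ ≤ (|(d : ℝ)| * nl ℓ (d : ℚ)) * (Nm w v z * Ux ℓ v x) :=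
        mul_le_mul_of_nonneg_right h1 (mul_nonneg hN hU)
    _ = (|(d : ℝ)| * Nm w v z) * (nl ℓ (d : ℚ) * Ux ℓ v x) := by ring
    _ ≤ Nm w v' z * Ux ℓ v' x :=
        mul_le_mul (Nm_scale w hd z) (Ux_scale hd x) (mul_nonneg (nl_nonneg _) hU)
          (Nm_nonneg w hw v' z)

/-- the `S`-norm attached to a subspace is minimal among integer bases of any length -/
lemma zb_min (w : Fin (n + 1) → ℝ) (hw : ∀ k, 0 < w k) (s : SB n) {j : ℕ}
    (v' : Fin j → Fin (n + 1) → ℤ) (h : IB s.1 j v') (z : ℝ) (x : ℚ) :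
    Nm w (zb s) z * Ux ℓ (zb s) x ≤ Nm w v' z * Ux ℓ v' x := by
  have hj : j = zd s := by rw [← h.finrank, (zb_ZB s).1.finrank]
  subst hj
  exact (zb_ZB s).min_norm h w hw z x

lemma zb_eq (w : Fin (n + 1) → ℝ) (hw : ∀ k, 0 < w k) (s : SB n) {j : ℕ}
    (v' : Fin j → Fin (n + 1) → ℤ) (h : ZB s.1 j v') (z : ℝ) (x : ℚ) :
    Nm w (zb s) z * Ux ℓ (zb s) x = Nm w v' z * Ux ℓ v' x := by
  have hj : j = zd s := by rw [← h.1.finrank, (zb_ZB s).1.finrank]
  subst hj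
  exact le_antisymm ((zb_ZB s).min_norm h.1 w hw z x) (h.min_norm (zb_ZB s).1 w hw z x)

/-! ### the zero space and the whole space -/

lemma rk_bot : rk (botS n) = 0 := by unfold rk botS; simp

lemma IB_bot : IB (botS n).1 0 (Fin.elim0 : Fin 0 → Fin (n + 1) → ℤ) := by
  constructor
  · exact linearIndependent_empty_type
  · simp [botS]

lemma bot_norm (w : Fin (n + 1) → ℝ) (s : SB n) (hs : s.1 = ⊥) (z : ℝ) (x : ℚ) :
    Nm w (zb s) z * Ux ℓ (zb s) x = 1 := by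
  have h0 : zd s = 0 := by
    rw [zd_eq]; unfold rk; rw [hs]; simp
  have : ∀ (m : ℕ) (v : Fin m → Fin (n + 1) → ℤ), m = 0 → Nm w v z * Ux ℓ v x = 1 := by
    rintro m v rfl
    rw [Nm_empty, Ux_empty, mul_one]
  exact this _ _ h0

/-- standard basis -/
def stdB (n : ℕ) : Fin (n + 1) → Fin (n + 1) → ℤ := fun a => Pi.single a 1

lemma stdB_ZB : ZB (⊤ : Submodule ℚ (Fin (n + 1) → ℚ)) (n + 1) (stdB n) := by
  have hcast : (fun a => castQ (stdB n a)) = fun a => Pi.basisFun ℚ (Fin (n + 1)) a := by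
    ext a i
    simp only [castQ, stdB, Pi.basisFun_apply, Pi.single_apply]
    split_ifs <;> simp
  refine ⟨⟨?_, ?_⟩, ?_⟩
  · rw [hcast]; exact (Pi.basisFun ℚ (Fin (n + 1))).linearIndependent
  · rw [hcast]; exact (Pi.basisFun ℚ (Fin (n + 1))).span_eq
  · intro x _
    refine ⟨x, ?_⟩
    ext i
    simp [stdB, Finset.sum_apply, Pi.single_apply]

lemma hd_std {R : Type*} [CommRing R] (k : ℕ) (a : Fin (n + 1)) (z : R) :
    hd k (stdB n a) z = (((a : ℕ).choose k : ℕ) : R) * z ^ ((a : ℕ) - k) := by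
  have h1 : toP (stdB n a) = X ^ (a : ℕ) := by
    unfold toP stdB
    rw [Finset.sum_eq_single a]
    · simp
    · intro b _ hb
      rw [Pi.single_eq_of_ne hb]; simp
    · simp
  unfold hd
  rw [map_hasseDeriv, h1, Polynomial.map_pow, map_X, ← monomial_one_right_eq_X_pow,
    hasseDeriv_monomial, eval_monomial, mul_one]

lemma dv_std {R : Type*} [CommRing R] (z : R) :
    dv (stdB n) (fun b => (b : ℕ)) z = 1 := by
  rw [dv_eq_det]
  have h1 : (Matrix.of fun a b : Fin (n + 1) => hd (b : ℕ) (stdB n a) z).det =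
      ∏ i : Fin (n + 1), hd (i : ℕ) (stdB n i) z := by
    rw [Matrix.det_of_lowerTriangular]
    · rfl
    · intro a b hab
      simp only [Matrix.of_apply]
      rw [hd_std, Nat.choose_eq_zero_of_lt]
      · simp
      · exact hab
  rw [h1]
  apply Finset.prod_eq_one
  intro i _
  rw [hd_std]; simp

lemma dv_std_perm {R : Type*} [CommRing R] (σ : Equiv.Perm (Fin (n + 1))) (z : R) :
    dv (stdB n) (fun b => ((σ b : Fin (n + 1)) : ℕ)) z = ((Equiv.Perm.sign σ : ℤ) : R) := by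
  rw [dv_eq_det]
  have h1 : (Matrix.of fun a b : Fin (n + 1) => hd ((σ b : Fin (n + 1)) : ℕ) (stdB n a) z) =
      (Matrix.of fun a b : Fin (n + 1) => hd (b : ℕ) (stdB n a) z).submatrix id σ := rfl
  rw [h1, Matrix.det_permute', ← dv_eq_det, dv_std, mul_one]

lemma dv_std_not_inj {R : Type*} [CommRing R] (I : Fin (n + 1) → Fin (n + 1))
    (hI : ¬ Function.Injective I) (z : R) : dv (stdB n) (fun b => (I b : ℕ)) z = 0 := by
  rw [dv_eq_det]
  simp only [Function.Injective] at hI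
  push Not at hI
  obtain ⟨a, b, hab, hne⟩ := hI
  apply Matrix.det_zero_of_column_eq hne
  intro k
  simp only [Matrix.of_apply, hab]

lemma top_norm (w : Fin (n + 1) → ℝ) (hw : ∀ k, 0 < w k) (hw1 : ∏ k, w k = 1) (s : SB n)
    (hs : s.1 = ⊤) (z : ℝ) (x : ℚ) : Nm w (zb s) z * Ux ℓ (zb s) x = 1 := by
  rw [zb_eq w hw s (stdB n) (by rw [hs]; exact stdB_ZB)]
  have h1 : Nm w (stdB n) z = 1 := by
    apply le_antisymm
    · obtain ⟨I, hI⟩ := exists_term w (stdB n) z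
      rw [hI, term_eq]
      by_cases hinj : Function.Injective I
      · have hbij := Finite.injective_iff_bijective.1 hinj
        set σ := Equiv.ofBijective I hbij with hσ
        have h2 : dv (stdB n) (fun b => (I b : ℕ)) z = ((Equiv.Perm.sign σ : ℤ) : ℝ) :=
          dv_std_perm σ z
        have h3 : ∏ b, w (I b) = 1 := by
          rw [← hw1]; exact Equiv.prod_comp σ w
        rw [h2, h3, div_one]
        rcases Int.units_eq_one_or (Equiv.Perm.sign σ) with h | h <;> simp [h]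
      · rw [dv_std_not_inj I hinj]; simp
    · have h2 := term_le w (stdB n) z id
      rw [term_eq] at h2
      simp only [id] at h2
      rw [dv_std, hw1] at h2
      simpa using h2
  have h2 : Ux ℓ (stdB n) x = 1 := by
    apply le_antisymm
    · obtain ⟨I, hI⟩ := exists_Ux ℓ (stdB n) x
      rw [hI]
      by_cases hinj : Function.Injective I
      · have hbij := Finite.injective_iff_bijective.1 hinj
        set σ := Equiv.ofBijective I hbij with hσ
        have h2 : dv (stdB n) (fun b => (I b : ℕ)) x = ((Equiv.Perm.sign σ : ℤ) : ℚ) :=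
          dv_std_perm σ x
        rw [h2]
        exact nl_int_le _
      · rw [dv_std_not_inj I hinj]; simp
    · have h2 := le_Ux (ℓ := ℓ) (stdB n) x id
      simp only [id] at h2
      rw [dv_std] at h2
      simpa using h2
  rw [h1, h2, mul_one]

/-! ### primal bound -/

/-- weakly marked points have no short vectors -/
lemma primal_bound (w : Fin (n + 1) → ℝ) (hw : ∀ k, 0 < w k) (ρ : ℝ) (hρ : 0 < ρ) (ε : ℝ)
    (z : ℝ) (x : ℚ)
    (hM : Mk (fun s : SB n => Nm w (zb s) z * (Ux ℓ (zb s) x / ρ ^ (rk s))) {s : SB n | s.1 ≠ ⊥} ε)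
    (u : Fin (n + 1) → ℤ) (hu : u ≠ 0) (X Y : ℝ)
    (hX : ∀ k, nrm w u z k ≤ X) (hY : ∀ k : Fin (n + 1), nl ℓ (hd (k : ℕ) u x) ≤ Y) :
    ε * ρ ≤ (n + 1) * (X * Y) := by
  classical
  obtain ⟨F, hFT, hFc, hF1, hF2⟩ := hM
  have hX0 : 0 ≤ X := le_trans (div_nonneg (abs_nonneg _) (hw 0).le) (hX 0)
  have hY0 : 0 ≤ Y := (nl_nonneg _).trans (hY 0)
  have hdivmul : ∀ s : SB n, Nm w (zb s) z * (Ux ℓ (zb s) x / ρ ^ (rk s)) =
      (Nm w (zb s) z * Ux ℓ (zb s) x) / ρ ^ (rk s) := fun s => by ring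
  -- choose the largest element of `F ∪ {⊥}` not containing `u`
  obtain ⟨A, hAF, hAu, hAf, hAmax⟩ : ∃ A : SB n, (A ∈ F ∨ A = botS n) ∧ castQ u ∉ A.1 ∧
      Nm w (zb A) z * Ux ℓ (zb A) x ≤ ρ ^ (rk A) ∧
      ∀ s ∈ F, castQ u ∉ s.1 → s ≤ A := by
    by_cases hne : ∃ s ∈ F, castQ u ∉ s.1
    · have hex : ∃ m : ℕ, ∃ s ∈ F, castQ u ∉ s.1 ∧ (n + 1) - rk s = m := by
        obtain ⟨s, hs, hs'⟩ := hne
        exact ⟨_, s, hs, hs', rfl⟩
      obtain ⟨A, hA, hAu, hAm⟩ := Nat.find_spec hex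
      refine ⟨A, Or.inl hA, hAu, ?_, ?_⟩
      · have := hF1 A hA
        simp only at this
        rw [hdivmul] at this
        rwa [div_le_one (by positivity)] at this
      · intro s hs hsu
        rcases eq_or_ne s A with h | h
        · exact h.le
        rcases hFc hs hA h with h' | h'
        · exact h'
        · exfalso
          have hlt := rk_strict A s (lt_of_le_of_ne h' h.symm)
          have hmin := Nat.find_min' hex ⟨s, hs, hsu, rfl⟩
          have hle : rk s ≤ n + 1 := by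
            rw [← zd_eq]; exact zd_le s
          omega
    · push Not at hne
      refine ⟨botS n, Or.inr rfl, ?_, ?_, ?_⟩
      · intro h
        have : castQ u ∈ (⊥ : Submodule ℚ (Fin (n + 1) → ℚ)) := h
        rw [Submodule.mem_bot] at this
        exact hu (castQ_eq_zero this)
      · rw [bot_norm w (botS n) rfl, rk_bot, pow_zero]
      · intro s hs hsu
        exact absurd (hne s hs) hsu
  have hIB := (zb_ZB A).1
  have hjj : zd A = rk A := zd_eq A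
  -- the new subspace
  have hIB' : IB (A.1 ⊔ Submodule.span ℚ {castQ u}) (zd A + 1)
      (Fin.cons u (zb A) : Fin (zd A + 1) → Fin (n + 1) → ℤ) := by
    have hcomp : (fun a => castQ ((Fin.cons u (zb A) : Fin (zd A + 1) → Fin (n + 1) → ℤ) a)) =
        (Fin.cons (castQ u) (fun a => castQ (zb A a)) : Fin (zd A + 1) → Fin (n + 1) → ℚ) := by
      ext a
      refine Fin.cases ?_ (fun a => ?_) a
      · simp
      · simp
    constructor
    · rw [hcomp]
      rw [linearIndependent_finCons]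
      refine ⟨hIB.1, ?_⟩
      rw [hIB.2]; exact hAu
    · rw [hcomp, Fin.range_cons, Submodule.span_insert, hIB.2, sup_comm]
  set A' : SB n := ⟨A.1 ⊔ Submodule.span ℚ {castQ u}, zd A + 1, _, hIB'⟩ with hA'
  have hA'u : castQ u ∈ A'.1 := Submodule.mem_sup_right (Submodule.mem_span_singleton_self _)
  have hAA' : A ≤ A' := by
    change A.1 ≤ A'.1
    exact le_sup_left
  have hA'ne : A' ∈ {s : SB n | s.1 ≠ ⊥} := by
    intro h
    rw [h, Submodule.mem_bot] at hA'u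
    exact hu (castQ_eq_zero hA'u)
  have hcmp : ∀ s' ∈ F, A' ≤ s' ∨ s' ≤ A' := by
    intro s' hs'
    by_cases hsu : castQ u ∈ s'.1
    · left
      have hAs : A ≤ s' := by
        rcases hAF with h | h
        · rcases eq_or_ne A s' with h2 | h2
          · exact h2.le
          · rcases hFc h hs' h2 with h3 | h3
            · exact h3
            · exact absurd (h3 hsu) hAu
        · rw [h]
          change (⊥ : Submodule ℚ (Fin (n + 1) → ℚ)) ≤ s'.1
          exact bot_le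
      change A.1 ⊔ Submodule.span ℚ {castQ u} ≤ s'.1
      refine sup_le hAs ?_
      rw [Submodule.span_singleton_le_iff_mem]
      exact hsu
    · right
      exact (hAmax s' hs' hsu).trans hAA'
  have hfA' := hF2 A' hA'ne hcmp
  simp only at hfA'
  rw [hdivmul] at hfA'
  have hdim : rk A' = rk A + 1 := by
    rw [← hjj]; exact hIB'.finrank
  have h1 := zb_min (ℓ := ℓ) w hw A' _ hIB' z x
  have h2 := laplace w hw (zb A) u z X hX
  have h2' := Ux_laplace (ℓ := ℓ) (zb A) u x Y hY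
  rw [hdim, le_div_iff₀ (by positivity)] at hfA'
  have hjjR : ((zd A : ℕ) : ℝ) = (rk A : ℝ) := by exact_mod_cast hjj
  rw [hjjR] at h2
  set j := rk A with hj
  have hNA := Nm_nonneg w hw (zb A) z
  have hUA := Ux_nonneg (ℓ := ℓ) (zb A) x
  have h3 : ε * ρ ^ (j + 1) ≤ ((j + 1) * (X * Y)) * ρ ^ j := by
    calc ε * ρ ^ (j + 1) ≤ Nm w (zb A') z * Ux ℓ (zb A') x := hfA'
      _ ≤ _ := h1
      _ ≤ ((j + 1) * X * Nm w (zb A) z) * (Y * Ux ℓ (zb A) x) :=
          mul_le_mul h2 h2' (Ux_nonneg _ _) (by positivity)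
      _ = ((j + 1) * (X * Y)) * (Nm w (zb A) z * Ux ℓ (zb A) x) := by ring
      _ ≤ ((j + 1) * (X * Y)) * ρ ^ j := by gcongr
  have h4 : ε * ρ ≤ (j + 1) * (X * Y) := by
    have hρj : 0 < ρ ^ j := by positivity
    have : (ε * ρ) * ρ ^ j ≤ ((j + 1) * (X * Y)) * ρ ^ j := by
      calc (ε * ρ) * ρ ^ j = ε * ρ ^ (j + 1) := by ring
        _ ≤ _ := h3
    exact le_of_mul_le_mul_right this hρj
  refine h4.trans ?_
  have hj1 : (j : ℝ) + 1 ≤ n + 1 := by
    have := hIB'.le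
    rw [hjj] at this
    exact_mod_cast this
  have hXY : 0 ≤ X * Y := mul_nonneg hX0 hY0
  exact mul_le_mul_of_nonneg_right hj1 hXY

end

end Pool.Agent.W71
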