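import Mathlib
import Pool.Agent.W71.SNorm

/-! Dual version: marked points have no short dual vectors. -/

set_option autoImplicit false

open Polynomial

namespace Pool.Agent.W71

open Pool.Agent.Helper404 (toP castQ Dt IB SB W W_ne_zero W_eq_Dt mu term Nm term_le exists_term
  term_nonneg Nm_nonneg nrm laplace rk rk_strict botS Nm_empty castQ_eq_zero)

variable {n : ℕ}

/-- dual coordinates: the value of the functional `y` at `(X - z) ^ k` -/
noncomputable def dl {R : Type*} [CommRing R] (y : Fin (n + 1) → ℤ) (z : R) (k : ℕ) : R :=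
  ∑ i : Fin (n + 1), (y i : R) * (((k.choose (i : ℕ) : ℕ) : R) * (-z) ^ (k - (i : ℕ)))

/-- integer pairing -/
def pr (y u : Fin (n + 1) → ℤ) : ℤ := ∑ i, y i * u i

lemma pairing {R : Type*} [CommRing R] (y u : Fin (n + 1) → ℤ) (z : R) :
    ∑ k : Fin (n + 1), dl y z (k : ℕ) * hd (k : ℕ) u z = (pr y u : R) := by
  unfold dl pr
  push_cast
  have h1 : ∀ i : Fin (n + 1), (u i : R) =
      ∑ l : Fin (n + 1), hd (l : ℕ) u z * ((((l : ℕ).choose (i : ℕ) : ℕ) : R) * (-z) ^ ((l : ℕ) - i)) := by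
    intro i
    rw [← hd_shift, add_neg_cancel, hd_zero]
  calc ∑ k : Fin (n + 1), (∑ i : Fin (n + 1), (y i : R) *
        ((((k : ℕ).choose (i : ℕ) : ℕ) : R) * (-z) ^ ((k : ℕ) - (i : ℕ)))) * hd (k : ℕ) u z
      = ∑ i : Fin (n + 1), ∑ k : Fin (n + 1), (y i : R) *
        ((((k : ℕ).choose (i : ℕ) : ℕ) : R) * (-z) ^ ((k : ℕ) - (i : ℕ))) * hd (k : ℕ) u z := by
        simp_rw [Finset.sum_mul]
        exact Finset.sum_comm
    _ = ∑ i : Fin (n + 1), (y i : R) * (u i : R) := by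
        refine Finset.sum_congr rfl (fun i _ => ?_)
        rw [h1 i, Finset.mul_sum]
        refine Finset.sum_congr rfl (fun k _ => ?_)
        ring

/-- contraction identity -/
lemma contraction {R : Type*} [CommRing R] {j : ℕ} (y : Fin (n + 1) → ℤ) (v0 : Fin (n + 1) → ℤ)
    (v : Fin j → Fin (n + 1) → ℤ) (hv : ∀ a, pr y (v a) = 0) (e : Fin j → ℕ) (z : R) :
    ∑ k : Fin (n + 1), dl y z (k : ℕ) *
      dv (Fin.cons v0 v : Fin (j + 1) → Fin (n + 1) → ℤ) (Fin.cons (k : ℕ) e : Fin (j + 1) → ℕ) z =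
      (pr y v0 : R) * dv v e z := by
  have h1 : ∀ k : Fin (n + 1),
      dv (Fin.cons v0 v : Fin (j + 1) → Fin (n + 1) → ℤ) (Fin.cons (k : ℕ) e : Fin (j + 1) → ℕ) z =
      ∑ i : Fin (j + 1), (-1) ^ (i : ℕ) *
        hd (k : ℕ) ((Fin.cons v0 v : Fin (j + 1) → Fin (n + 1) → ℤ) i) z *
        Matrix.det (Matrix.of fun a b : Fin j =>
          hd (e b) ((Fin.cons v0 v : Fin (j + 1) → Fin (n + 1) → ℤ) (i.succAbove a)) z) := by
    intro k
    rw [dv_eq_det, Matrix.det_succ_column_zero]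
    refine Finset.sum_congr rfl (fun i _ => ?_)
    simp only [Matrix.of_apply, Fin.cons_zero]
    congr 2
  simp_rw [h1, Finset.mul_sum]
  rw [Finset.sum_comm]
  have h2 : ∀ i : Fin (j + 1), ∑ k : Fin (n + 1), dl y z (k : ℕ) * ((-1) ^ (i : ℕ) *
        hd (k : ℕ) ((Fin.cons v0 v : Fin (j + 1) → Fin (n + 1) → ℤ) i) z *
        Matrix.det (Matrix.of fun a b : Fin j =>
          hd (e b) ((Fin.cons v0 v : Fin (j + 1) → Fin (n + 1) → ℤ) (i.succAbove a)) z)) =
      (-1) ^ (i : ℕ) * (pr y ((Fin.cons v0 v : Fin (j + 1) → Fin (n + 1) → ℤ) i) : R) *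
        Matrix.det (Matrix.of fun a b : Fin j =>
          hd (e b) ((Fin.cons v0 v : Fin (j + 1) → Fin (n + 1) → ℤ) (i.succAbove a)) z) := by
    intro i
    rw [← pairing y _ z, Finset.mul_sum, Finset.sum_mul]
    refine Finset.sum_congr rfl (fun k _ => ?_)
    ring
  simp_rw [h2]
  rw [Fin.sum_univ_succ]
  have h3 : ∑ i : Fin j, (-1) ^ ((i.succ : Fin (j + 1)) : ℕ) *
      (pr y ((Fin.cons v0 v : Fin (j + 1) → Fin (n + 1) → ℤ) i.succ) : R) *
        Matrix.det (Matrix.of fun a b : Fin j =>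
          hd (e b) ((Fin.cons v0 v : Fin (j + 1) → Fin (n + 1) → ℤ) (i.succ.succAbove a)) z) = 0 := by
    apply Finset.sum_eq_zero
    intro i _
    rw [Fin.cons_succ, hv]; simp
  rw [h3, add_zero, dv_eq_det]
  simp only [Fin.cons_zero, Fin.val_zero, pow_zero, one_mul, Fin.zero_succAbove, Fin.cons_succ]

section
variable {ℓ : ℕ}

lemma contr_real (w : Fin (n + 1) → ℝ) (hw : ∀ k, 0 < w k) {j : ℕ} (y v0 : Fin (n + 1) → ℤ)
    (v : Fin j → Fin (n + 1) → ℤ) (hv : ∀ a, pr y (v a) = 0) (z X : ℝ)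
    (hX : ∀ k : Fin (n + 1), |dl y z (k : ℕ)| * w k ≤ X) :
    |(pr y v0 : ℝ)| * Nm w v z ≤
      (n + 1) * X * Nm w (Fin.cons v0 v : Fin (j + 1) → Fin (n + 1) → ℤ) z := by
  obtain ⟨I, hI⟩ := exists_term w v z
  have hX0 : 0 ≤ X := (mul_nonneg (abs_nonneg _) (hw 0).le).trans (hX 0)
  have hpos : 0 < ∏ b, w (I b) := Finset.prod_pos (fun _ _ => hw _)
  rw [hI, term_eq, ← mul_div_assoc, div_le_iff₀ hpos, ← abs_mul, ← contraction y v0 v hv]
  calc |∑ k : Fin (n + 1), dl y z (k : ℕ) *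
      dv (Fin.cons v0 v : Fin (j + 1) → Fin (n + 1) → ℤ) (Fin.cons (k : ℕ) (fun b => (I b : ℕ)) : Fin (j + 1) → ℕ) z|
      ≤ ∑ k : Fin (n + 1), |dl y z (k : ℕ) *
      dv (Fin.cons v0 v : Fin (j + 1) → Fin (n + 1) → ℤ) (Fin.cons (k : ℕ) (fun b => (I b : ℕ)) : Fin (j + 1) → ℕ) z| :=
        Finset.abs_sum_le_sum_abs _ _
    _ ≤ ∑ k : Fin (n + 1), X * Nm w (Fin.cons v0 v : Fin (j + 1) → Fin (n + 1) → ℤ) z * ∏ b, w (I b) := by
        refine Finset.sum_le_sum (fun k _ => ?_)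
        rw [abs_mul]
        have h1 := term_le w (Fin.cons v0 v : Fin (j + 1) → Fin (n + 1) → ℤ) z
          (Fin.cons k I : Fin (j + 1) → Fin (n + 1))
        rw [term_eq] at h1
        have hpos' : 0 < ∏ b, w ((Fin.cons k I : Fin (j + 1) → Fin (n + 1)) b) :=
          Finset.prod_pos (fun _ _ => hw _)
        rw [div_le_iff₀ hpos', Fin.prod_univ_succ] at h1
        simp only [Fin.cons_zero, Fin.cons_succ] at h1
        have h2 : (fun b : Fin (j + 1) => (((Fin.cons k I : Fin (j + 1) → Fin (n + 1)) b : Fin (n + 1)) : ℕ)) =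
            (Fin.cons (k : ℕ) (fun b => (I b : ℕ)) : Fin (j + 1) → ℕ) := by
          ext b
          refine Fin.cases ?_ (fun b => ?_) b
          · simp
          · simp
        rw [h2] at h1
        have h3 := hX k
        calc |dl y z (k : ℕ)| * |dv (Fin.cons v0 v : Fin (j + 1) → Fin (n + 1) → ℤ)
              (Fin.cons (k : ℕ) (fun b => (I b : ℕ)) : Fin (j + 1) → ℕ) z|
            ≤ |dl y z (k : ℕ)| * (Nm w (Fin.cons v0 v : Fin (j + 1) → Fin (n + 1) → ℤ) z *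
                (w k * ∏ b, w (I b))) := mul_le_mul_of_nonneg_left h1 (abs_nonneg _)
          _ = (|dl y z (k : ℕ)| * w k) * (Nm w (Fin.cons v0 v : Fin (j + 1) → Fin (n + 1) → ℤ) z *
                ∏ b, w (I b)) := by ring
          _ ≤ X * (Nm w (Fin.cons v0 v : Fin (j + 1) → Fin (n + 1) → ℤ) z * ∏ b, w (I b)) :=
              mul_le_mul_of_nonneg_right h3 (mul_nonneg (Nm_nonneg w hw _ _) hpos.le)
          _ = _ := by ring
    _ = (n + 1) * X * Nm w (Fin.cons v0 v : Fin (j + 1) → Fin (n + 1) → ℤ) z * ∏ b, w (I b) := by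
        rw [Finset.sum_const, Finset.card_univ, Fintype.card_fin, nsmul_eq_mul]; push_cast; ring

variable [hp : Fact ℓ.Prime]

lemma contr_padic {j : ℕ} (y v0 : Fin (n + 1) → ℤ)
    (v : Fin j → Fin (n + 1) → ℤ) (hv : ∀ a, pr y (v a) = 0) (x : ℚ) (Y : ℝ)
    (hY : ∀ k : Fin (n + 1), nl ℓ (dl y x (k : ℕ)) ≤ Y) :
    nl ℓ (pr y v0 : ℚ) * Ux ℓ v x ≤ Y * Ux ℓ (Fin.cons v0 v : Fin (j + 1) → Fin (n + 1) → ℤ) x := by
  obtain ⟨I, hI⟩ := exists_Ux ℓ v x
  have hY0 : 0 ≤ Y := (nl_nonneg _).trans (hY 0)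
  rw [hI, ← nl_mul, ← contraction y v0 v hv]
  apply nl_sum_le _ _ _ (mul_nonneg hY0 (Ux_nonneg _ _))
  intro k _
  rw [nl_mul]
  have h1 := le_Ux (ℓ := ℓ) (Fin.cons v0 v : Fin (j + 1) → Fin (n + 1) → ℤ) x
    (Fin.cons k I : Fin (j + 1) → Fin (n + 1))
  have h2 : (fun b : Fin (j + 1) => (((Fin.cons k I : Fin (j + 1) → Fin (n + 1)) b : Fin (n + 1)) : ℕ)) =
      (Fin.cons (k : ℕ) (fun b => (I b : ℕ)) : Fin (j + 1) → ℕ) := by
    ext b
    refine Fin.cases ?_ (fun b => ?_) b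
    · simp
    · simp
  rw [h2] at h1
  exact mul_le_mul (hY k) h1 (nl_nonneg _) hY0

/-- rational functional -/
def prQ (y : Fin (n + 1) → ℤ) : (Fin (n + 1) → ℚ) →ₗ[ℚ] ℚ where
  toFun x := ∑ i, (y i : ℚ) * x i
  map_add' a b := by simp [mul_add, Finset.sum_add_distrib]
  map_smul' c a := by
    simp only [Pi.smul_apply, smul_eq_mul, RingHom.id_apply, Finset.mul_sum]
    exact Finset.sum_congr rfl (fun i _ => by ring)

lemma prQ_castQ (y u : Fin (n + 1) → ℤ) : prQ y (castQ u) = (pr y u : ℚ) := by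
  simp [prQ, pr, castQ]

/-- splitting a lattice along a functional -/
lemma exists_split (y : Fin (n + 1) → ℤ) (A : Submodule ℚ (Fin (n + 1) → ℚ))
    (hA : ¬ A ≤ LinearMap.ker (prQ y)) {j : ℕ} (v : Fin j → Fin (n + 1) → ℤ)
    (hv : ZB (A ⊓ LinearMap.ker (prQ y)) j v) :
    ∃ v0 : Fin (n + 1) → ℤ, pr y v0 ≠ 0 ∧
      ZB A (j + 1) (Fin.cons v0 v : Fin (j + 1) → Fin (n + 1) → ℤ) := by
  classical
  -- an integer vector of `A` outside the kernel
  have hex0 : ∃ u : Fin (n + 1) → ℤ, castQ u ∈ A ∧ pr y u ≠ 0 := by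
    obtain ⟨j', v', hv'⟩ := exists_IB A
    by_contra hcon
    push Not at hcon
    apply hA
    rw [← hv'.2, Submodule.span_le]
    rintro _ ⟨a, rfl⟩
    have h1 : castQ (v' a) ∈ A := by rw [← hv'.2]; exact Submodule.subset_span ⟨a, rfl⟩
    have h2 := hcon _ h1
    simp only [SetLike.mem_coe, LinearMap.mem_ker]
    rw [prQ_castQ, h2]; simp
  have hex : ∃ m : ℕ, ∃ u : Fin (n + 1) → ℤ, castQ u ∈ A ∧ pr y u ≠ 0 ∧ (pr y u).natAbs = m := by
    obtain ⟨u, h1, h2⟩ := hex0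
    exact ⟨_, u, h1, h2, rfl⟩
  obtain ⟨v0, hv0A, hv0, hv0m⟩ := Nat.find_spec hex
  refine ⟨v0, hv0, ?_⟩
  have hcomp : (fun a => castQ ((Fin.cons v0 v : Fin (j + 1) → Fin (n + 1) → ℤ) a)) =
      (Fin.cons (castQ v0) (fun a => castQ (v a)) : Fin (j + 1) → Fin (n + 1) → ℚ) := by
    ext a
    refine Fin.cases ?_ (fun a => ?_) a
    · simp
    · simp
  have hv0Q : prQ y (castQ v0) ≠ 0 := by
    rw [prQ_castQ]; exact_mod_cast hv0
  refine ⟨⟨?_, ?_⟩, ?_⟩
  · rw [hcomp, linearIndependent_finCons]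
    refine ⟨hv.1.1, ?_⟩
    rw [hv.1.2]
    intro h
    exact hv0Q h.2
  · rw [hcomp, Fin.range_cons, Submodule.span_insert, hv.1.2]
    apply le_antisymm
    · apply sup_le
      · rw [Submodule.span_singleton_le_iff_mem]; exact hv0A
      · exact inf_le_left
    · intro x hx
      set c := prQ y x / prQ y (castQ v0) with hc
      have h1 : x - c • castQ v0 ∈ A ⊓ LinearMap.ker (prQ y) := by
        refine ⟨Submodule.sub_mem _ hx (Submodule.smul_mem _ _ hv0A), ?_⟩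
        rw [SetLike.mem_coe, LinearMap.mem_ker, map_sub, map_smul, smul_eq_mul, hc,
          div_mul_cancel₀ _ hv0Q, sub_self]
      have h2 : x = c • castQ v0 + (x - c • castQ v0) := by abel
      rw [h2]
      exact Submodule.add_mem_sup (Submodule.smul_mem _ _ (Submodule.mem_span_singleton_self _)) h1
  · intro x hx
    -- division
    set c := pr y v0 with hc
    set q := pr y x / c with hq
    have hlin : ∀ m : ℤ, pr y (x - m • v0) = pr y x - m * c := by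
      intro m
      simp only [pr, Pi.sub_apply, Pi.smul_apply, smul_eq_mul, mul_sub, Finset.sum_sub_distrib, hc,
        Finset.mul_sum]
      congr 1
      exact Finset.sum_congr rfl (fun i _ => by ring)
    have hcQ : ∀ m : ℤ, castQ (x - m • v0) = castQ x - (m : ℚ) • castQ v0 := by
      intro m; ext i; simp [castQ]
    have hzero : pr y (x - q • v0) = 0 := by
      by_contra hne
      have h1 : castQ (x - q • v0) ∈ A := by
        rw [hcQ]
        exact Submodule.sub_mem _ hx (Submodule.smul_mem _ _ hv0A)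
      have h2 := Nat.find_min' hex ⟨_, h1, hne, rfl⟩
      rw [← hv0m] at h2
      rw [hlin] at h2 hne
      have h3 : pr y x - q * c = pr y x % c := by
        rw [hq]; have := Int.emod_add_mul_ediv (pr y x) c; linarith
      rw [h3] at h2
      have h4 := Int.emod_lt_abs (pr y x) hv0
      have h5 := Int.emod_nonneg (pr y x) hv0
      rw [Int.abs_eq_natAbs] at h4
      omega
    have h1 : castQ (x - q • v0) ∈ A ⊓ LinearMap.ker (prQ y) := by
      refine ⟨?_, ?_⟩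
      · rw [SetLike.mem_coe, hcQ]
        exact Submodule.sub_mem _ hx (Submodule.smul_mem _ _ hv0A)
      · rw [SetLike.mem_coe, LinearMap.mem_ker, prQ_castQ, hzero]; simp
    obtain ⟨c', hc'⟩ := hv.2 _ h1
    refine ⟨(Fin.cons q c' : Fin (j + 1) → ℤ), ?_⟩
    rw [Fin.sum_univ_succ]
    simp only [Fin.cons_zero, Fin.cons_succ]
    rw [← hc']; abel

/-- weakly marked points have no short dual vectors -/
lemma dual_bound (w : Fin (n + 1) → ℝ) (hw : ∀ k, 0 < w k) (hw1 : ∏ k, w k = 1) (ρ : ℝ)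
    (hρ : 0 < ρ) (ε : ℝ) (z : ℝ) (x : ℚ)
    (hM : Mk (fun s : SB n => Nm w (zb s) z * (Ux ℓ (zb s) x / ρ ^ (n + 1 - rk s)))
      {s : SB n | s.1 ≠ ⊤} ε)
    (y : Fin (n + 1) → ℤ) (hy : y ≠ 0) (X Y : ℝ)
    (hX : ∀ k : Fin (n + 1), |dl y z (k : ℕ)| * w k ≤ X)
    (hY : ∀ k : Fin (n + 1), nl ℓ (dl y x (k : ℕ)) ≤ Y) :
    ε * ρ ≤ (n + 1) * (X * Y) := by
  classical
  obtain ⟨F, hFT, hFc, hF1, hF2⟩ := hM
  have hX0 : 0 ≤ X := (mul_nonneg (abs_nonneg _) (hw 0).le).trans (hX 0)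
  have hY0 : 0 ≤ Y := (nl_nonneg _).trans (hY 0)
  have hdivmul : ∀ s : SB n, Nm w (zb s) z * (Ux ℓ (zb s) x / ρ ^ (n + 1 - rk s)) =
      (Nm w (zb s) z * Ux ℓ (zb s) x) / ρ ^ (n + 1 - rk s) := fun s => by ring
  set K := LinearMap.ker (prQ y) with hK
  have hKtop : K ≠ ⊤ := by
    intro h
    obtain ⟨i, hi⟩ := Function.ne_iff.1 hy
    have h1 : castQ (Pi.single i 1 : Fin (n + 1) → ℤ) ∈ K := by rw [h]; trivial
    rw [hK, LinearMap.mem_ker, prQ_castQ] at h1
    have h2 : pr y (Pi.single i 1 : Fin (n + 1) → ℤ) = y i := by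
      unfold pr
      rw [Finset.sum_eq_single i]
      · simp
      · intro b _ hb
        rw [Pi.single_eq_of_ne hb]; simp
      · simp
    rw [h2] at h1
    apply hi
    exact_mod_cast h1
  -- choose the smallest element of `F ∪ {⊤}` not inside `K`
  obtain ⟨A, hAF, hAu, hAf, hAmin⟩ : ∃ A : SB n, (A ∈ F ∨ A = mkS ⊤) ∧ ¬ A.1 ≤ K ∧
      Nm w (zb A) z * Ux ℓ (zb A) x ≤ ρ ^ (n + 1 - rk A) ∧
      ∀ s ∈ F, ¬ s.1 ≤ K → A ≤ s := by
    by_cases hne : ∃ s ∈ F, ¬ s.1 ≤ K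
    · have hex : ∃ m : ℕ, ∃ s ∈ F, ¬ s.1 ≤ K ∧ rk s = m := by
        obtain ⟨s, hs, hs'⟩ := hne
        exact ⟨_, s, hs, hs', rfl⟩
      obtain ⟨A, hA, hAu, hAm⟩ := Nat.find_spec hex
      refine ⟨A, Or.inl hA, hAu, ?_, ?_⟩
      · have := hF1 A hA
        simp only at this
        rw [hdivmul] at this
        rwa [div_le_one (by positivity)] at this
      · intro s hs hsu
        rcases eq_or_ne A s with h | h
        · exact h.le
        rcases hFc hA hs h with h' | h'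
        · exact h'
        · exfalso
          have hlt := rk_strict s A (lt_of_le_of_ne h' h.symm)
          have hmin := Nat.find_min' hex ⟨s, hs, hsu, rfl⟩
          omega
    · push Not at hne
      refine ⟨mkS ⊤, Or.inr rfl, ?_, ?_, ?_⟩
      · intro h
        exact hKtop (top_le_iff.1 h)
      · rw [top_norm w hw hw1 (mkS ⊤) rfl]
        have h0 : rk (mkS (⊤ : Submodule ℚ (Fin (n + 1) → ℚ))) = n + 1 := by
          unfold rk mkS; simp
        rw [h0]; simp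
      · intro s hs hsu
        exact absurd (hne s hs) hsu
  set A' : SB n := mkS (A.1 ⊓ K) with hA'
  have hA'1 : A'.1 = A.1 ⊓ K := rfl
  have hA'A : A' ≤ A := by
    change A.1 ⊓ K ≤ A.1
    exact inf_le_left
  have hA'ne : A' ∈ {s : SB n | s.1 ≠ ⊤} := by
    intro h
    apply hKtop
    rw [← top_le_iff, ← h]
    exact inf_le_right
  have hcmp : ∀ s' ∈ F, A' ≤ s' ∨ s' ≤ A' := by
    intro s' hs'
    by_cases hsu : s'.1 ≤ K
    · right
      have hsA : s' ≤ A := by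
        rcases hAF with h | h
        · rcases eq_or_ne s' A with h2 | h2
          · exact h2.le
          · rcases hFc hs' h h2 with h3 | h3
            · exact h3
            · exact absurd (show A.1 ≤ K from le_trans (show A.1 ≤ s'.1 from h3) hsu) hAu
        · rw [h]
          change s'.1 ≤ ⊤
          exact le_top
      change s'.1 ≤ A.1 ⊓ K
      exact le_inf hsA hsu
    · left
      exact hA'A.trans (hAmin s' hs' hsu)
  have hfA' := hF2 A' hA'ne hcmp
  simp only at hfA'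
  rw [hdivmul] at hfA'
  have hZB' : ZB (A.1 ⊓ K) (zd A') (zb A') := zb_ZB A'
  obtain ⟨v0, hv0, hZB⟩ := exists_split y A.1 hAu (zb A') hZB'
  have hker : ∀ a, pr y (zb A' a) = 0 := by
    intro a
    have h1 : castQ (zb A' a) ∈ A.1 ⊓ K := by
      rw [← hZB'.1.2]; exact Submodule.subset_span ⟨a, rfl⟩
    have h2 := h1.2
    rw [SetLike.mem_coe, hK, LinearMap.mem_ker, prQ_castQ] at h2
    exact_mod_cast h2
  have hdim : rk A = rk A' + 1 := by
    rw [← zd_eq A']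
    unfold rk
    exact hZB.1.finrank
  have hrkA : rk A ≤ n + 1 := by rw [← zd_eq]; exact zd_le A
  have h1 := zb_eq (ℓ := ℓ) w hw A _ hZB z x
  have h2 := contr_real w hw y v0 (zb A') hker z X hX
  have h2' := contr_padic (ℓ := ℓ) y v0 (zb A') hker x Y hY
  have h3 := one_le_abs_mul_nl (ℓ := ℓ) hv0
  have hNA := Nm_nonneg w hw (zb A') z
  have hUA := Ux_nonneg (ℓ := ℓ) (zb A') x
  have hNA2 := Nm_nonneg w hw (Fin.cons v0 (zb A') : Fin (zd A' + 1) → Fin (n + 1) → ℤ) z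
  rw [le_div_iff₀ (by positivity)] at hfA'
  have hexp : n + 1 - rk A' = (n + 1 - rk A) + 1 := by omega
  rw [hexp] at hfA'
  set N := n + 1 - rk A with hN
  have h4 : ε * ρ ^ (N + 1) ≤ ((n + 1) * (X * Y)) * ρ ^ N := by
    calc ε * ρ ^ (N + 1) ≤ Nm w (zb A') z * Ux ℓ (zb A') x := hfA'
      _ = 1 * (Nm w (zb A') z * Ux ℓ (zb A') x) := (one_mul _).symm
      _ ≤ (|(pr y v0 : ℝ)| * nl ℓ (pr y v0 : ℚ)) * (Nm w (zb A') z * Ux ℓ (zb A') x) :=
          mul_le_mul_of_nonneg_right h3 (mul_nonneg hNA hUA)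
      _ = (|(pr y v0 : ℝ)| * Nm w (zb A') z) * (nl ℓ (pr y v0 : ℚ) * Ux ℓ (zb A') x) := by ring
      _ ≤ ((n + 1) * X * Nm w (Fin.cons v0 (zb A') : Fin (zd A' + 1) → Fin (n + 1) → ℤ) z) *
          (Y * Ux ℓ (Fin.cons v0 (zb A') : Fin (zd A' + 1) → Fin (n + 1) → ℤ) x) :=
          mul_le_mul h2 h2' (mul_nonneg (nl_nonneg _) hUA)
            (mul_nonneg (by positivity) hNA2)
      _ = ((n + 1) * (X * Y)) * (Nm w (zb A) z * Ux ℓ (zb A) x) := by rw [h1]; ring
      _ ≤ ((n + 1) * (X * Y)) * ρ ^ N := by gcongr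
  have hρj : 0 < ρ ^ N := by positivity
  have h5 : (ε * ρ) * ρ ^ N ≤ ((n + 1) * (X * Y)) * ρ ^ N := by
    calc (ε * ρ) * ρ ^ N = ε * ρ ^ (N + 1) := by ring
      _ ≤ _ := h4
  exact le_of_mul_le_mul_right h5 hρj

end

end Pool.Agent.W71
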