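import Mathlib
import Pool.Agent.W71.Dual

/-! Translations of primal and dual vectors. -/

set_option autoImplicit false

open Polynomial

namespace Pool.Agent.W71

open Pool.Agent.Helper404 (toP castQ nrm)

variable {n : ℕ}

lemma hd_formula {R : Type*} [CommRing R] (k : ℕ) (u : Fin (n + 1) → ℤ) (c : R) :
    hd k u c = ∑ l : Fin (n + 1), (u l : R) * ((((l : ℕ).choose k : ℕ) : R) * c ^ ((l : ℕ) - k)) := by
  have h := hd_shift k u 0 c
  rw [zero_add] at h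
  rw [h]
  refine Finset.sum_congr rfl (fun l _ => ?_)
  rw [hd_zero]

lemma dl_eq_coeff {R : Type*} [CommRing R] (y : Fin (n + 1) → ℤ) (z : R) (k : ℕ) :
    dl y z k = ∑ i : Fin (n + 1), (y i : R) * ((X - C z) ^ k).coeff (i : ℕ) := by
  unfold dl
  refine Finset.sum_congr rfl (fun i _ => ?_)
  have h1 : (X - C z : R[X]) = X + C (-z) := by rw [C_neg]; ring
  rw [h1, coeff_X_add_C_pow]
  ring

lemma dl_shift {R : Type*} [CommRing R] (y : Fin (n + 1) → ℤ) (z c : R) (k : ℕ) (hk : k ≤ n) :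
    dl y (z + c) k = ∑ i : Fin (n + 1), dl y z (i : ℕ) *
      (((k.choose (i : ℕ) : ℕ) : R) * (-c) ^ (k - (i : ℕ))) := by
  have h1 : (X - C (z + c) : R[X]) ^ k = ∑ j ∈ Finset.range (k + 1),
      (X - C z) ^ j * (C (-c)) ^ (k - j) * ((k.choose j : ℕ) : R[X]) := by
    rw [← add_pow]
    congr 1
    rw [C_add, C_neg]; ring
  have h2 : ∀ i : ℕ, ((X - C (z + c) : R[X]) ^ k).coeff i = ∑ j ∈ Finset.range (k + 1),
      ((X - C z) ^ j).coeff i * (((k.choose j : ℕ) : R) * (-c) ^ (k - j)) := by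
    intro i
    rw [h1, finsetSum_coeff]
    refine Finset.sum_congr rfl (fun j _ => ?_)
    have h3 : (X - C z : R[X]) ^ j * (C (-c)) ^ (k - j) * ((k.choose j : ℕ) : R[X]) =
        (X - C z) ^ j * C ((-c) ^ (k - j) * ((k.choose j : ℕ) : R)) := by
      rw [C_mul, C_pow, C_eq_natCast]; ring
    rw [h3, coeff_mul_C]
    ring
  rw [dl_eq_coeff]
  simp_rw [h2, Finset.mul_sum]
  rw [Finset.sum_comm]
  have h3 : ∀ j ∈ Finset.range (k + 1), ∑ i : Fin (n + 1), (y i : R) *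
      (((X - C z) ^ j).coeff (i : ℕ) * (((k.choose j : ℕ) : R) * (-c) ^ (k - j))) =
      dl y z j * (((k.choose j : ℕ) : R) * (-c) ^ (k - j)) := by
    intro j _
    rw [dl_eq_coeff, Finset.sum_mul]
    refine Finset.sum_congr rfl (fun i _ => ?_)
    ring
  rw [Finset.sum_congr rfl h3, ← Fin.sum_univ_eq_sum_range
    (fun j => dl y z j * (((k.choose j : ℕ) : R) * (-c) ^ (k - j)))]
  rw [Fin.sum_univ_eq_sum_range (fun j => dl y z j * (((k.choose j : ℕ) : R) * (-c) ^ (k - j))),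
    Fin.sum_univ_eq_sum_range (fun j => dl y z j * (((k.choose j : ℕ) : R) * (-c) ^ (k - j)))]
  apply Finset.sum_subset
  · intro j hj
    rw [Finset.mem_range] at hj ⊢; omega
  · intro j _ hj
    rw [Finset.mem_range] at hj
    rw [Nat.choose_eq_zero_of_lt (by omega)]
    simp

/-- primal translation -/
def tr (q : ℕ) (a : ℤ) (v : Fin (n + 1) → ℤ) : Fin (n + 1) → ℤ := fun k =>
  ∑ i : Fin (n + 1), v i * ((((i : ℕ).choose (k : ℕ) : ℕ) : ℤ) *
    (a ^ ((i : ℕ) - k) * (q : ℤ) ^ (n - ((i : ℕ) - k))))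

/-- dual translation -/
def trd (q : ℕ) (a : ℤ) (y : Fin (n + 1) → ℤ) : Fin (n + 1) → ℤ := fun k =>
  ∑ i : Fin (n + 1), y i * ((((k : ℕ).choose (i : ℕ) : ℕ) : ℤ) *
    ((-a) ^ ((k : ℕ) - i) * (q : ℤ) ^ (n - ((k : ℕ) - i))))

section
variable {K : Type*} [Field K]

lemma tr_cast (q : ℕ) (hq : (q : K) ≠ 0) (a : ℤ) (v : Fin (n + 1) → ℤ) (k : Fin (n + 1)) :
    ((tr q a v k : ℤ) : K) = (q : K) ^ n * hd (k : ℕ) v ((a : K) / q) := by
  rw [hd_formula, Finset.mul_sum]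
  unfold tr
  push_cast
  refine Finset.sum_congr rfl (fun i _ => ?_)
  have h1 : (i : ℕ) - k ≤ n := by have := i.2; omega
  have h2 : (q : K) ^ n = (q : K) ^ (n - ((i : ℕ) - k)) * (q : K) ^ ((i : ℕ) - k) := by
    rw [← pow_add]; congr 1; omega
  rw [h2, div_pow]
  field_simp

lemma trd_cast (q : ℕ) (hq : (q : K) ≠ 0) (a : ℤ) (y : Fin (n + 1) → ℤ) (k : Fin (n + 1)) :
    ((trd q a y k : ℤ) : K) = (q : K) ^ n * dl y ((a : K) / q) (k : ℕ) := by
  unfold dl trd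
  rw [Finset.mul_sum]
  push_cast
  refine Finset.sum_congr rfl (fun i _ => ?_)
  have h1 : (k : ℕ) - i ≤ n := by have := k.2; omega
  have h2 : (q : K) ^ n = (q : K) ^ (n - ((k : ℕ) - i)) * (q : K) ^ ((k : ℕ) - i) := by
    rw [← pow_add]; congr 1; omega
  rw [h2, ← neg_div, div_pow]
  field_simp

lemma hd_tr (q : ℕ) (hq : (q : K) ≠ 0) (a : ℤ) (v : Fin (n + 1) → ℤ) (k : ℕ) (z : K) :
    hd k (tr q a v) z = (q : K) ^ n * hd k v ((a : K) / q + z) := by
  rw [hd_formula, hd_shift, Finset.mul_sum]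
  refine Finset.sum_congr rfl (fun l _ => ?_)
  rw [tr_cast q hq]; ring

lemma dl_trd (q : ℕ) (hq : (q : K) ≠ 0) (a : ℤ) (y : Fin (n + 1) → ℤ) (k : ℕ) (hk : k ≤ n) (z : K) :
    dl (trd q a y) z k = (q : K) ^ n * dl y ((a : K) / q + z) k := by
  rw [dl_shift _ _ _ _ hk, Finset.mul_sum]
  conv_lhs => unfold dl
  refine Finset.sum_congr rfl (fun l _ => ?_)
  rw [trd_cast q hq]; ring

end

lemma dl_zero {R : Type*} [CommRing R] (y : Fin (n + 1) → ℤ) (k : Fin (n + 1)) :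
    dl y (0 : R) (k : ℕ) = (y k : R) := by
  unfold dl
  rw [Finset.sum_eq_single k]
  · simp
  · intro i _ hi
    rcases lt_or_gt_of_ne hi with h | h
    · have h' : 0 < (k : ℕ) - i := Nat.sub_pos_of_lt h
      simp [h'.ne']
    · rw [Nat.choose_eq_zero_of_lt (by exact h)]; simp
  · simp

lemma tr_ne_zero (q : ℕ) (hq : q ≠ 0) (a : ℤ) (v : Fin (n + 1) → ℤ) (hv : v ≠ 0) : tr q a v ≠ 0 := by
  intro h
  apply hv
  ext k
  have hq' : (q : ℚ) ≠ 0 := by exact_mod_cast hq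
  have h1 := hd_tr (K := ℚ) q hq' a v k (-((a : ℚ) / q))
  rw [h, add_neg_cancel, hd_zero, hd_formula] at h1
  simp only [Pi.zero_apply, Int.cast_zero, zero_mul, Finset.sum_const_zero] at h1
  have h2 := (mul_eq_zero.1 h1.symm).resolve_left (pow_ne_zero _ hq')
  exact_mod_cast h2

lemma trd_ne_zero (q : ℕ) (hq : q ≠ 0) (a : ℤ) (y : Fin (n + 1) → ℤ) (hy : y ≠ 0) :
    trd q a y ≠ 0 := by
  intro h
  apply hy
  ext k
  have hq' : (q : ℚ) ≠ 0 := by exact_mod_cast hq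
  have h1 := dl_trd (K := ℚ) q hq' a y k (by have := k.2; omega) (-((a : ℚ) / q))
  rw [h, add_neg_cancel, dl_zero] at h1
  unfold dl at h1
  simp only [Pi.zero_apply, Int.cast_zero, zero_mul, Finset.sum_const_zero] at h1
  have h2 := (mul_eq_zero.1 h1.symm).resolve_left (pow_ne_zero _ hq')
  exact_mod_cast h2

end Pool.Agent.W71
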