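import Mathlib
import Pool.Agent.W71.SNorm

/-! Real lower bounds: general tools and the rational (type A) case. -/

set_option autoImplicit false

open Polynomial Set

namespace Pool.Agent.W71

open Pool.Agent.Helper404 (toP castQ Dt IB SB W W_ne_zero W_eq_Dt mu term Nm term_le exists_term
  term_nonneg Nm_nonneg nrm laplace rk rk_strict botS Nm_empty castQ_eq_zero Dt_natDegree
  lagrange_bound)

variable {n : ℕ}

/-- constant of the interpolation lemma -/
noncomputable def CD (D : ℕ) : ℝ := ((D : ℝ) + 1) * (2 * ((D : ℝ) + 1)) ^ D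

lemma CD_pos (D : ℕ) : 0 < CD D := by unfold CD; positivity

lemma one_le_CD (D : ℕ) : 1 ≤ CD D := by
  unfold CD
  have h1 : (1 : ℝ) ≤ (D : ℝ) + 1 := by linarith [(Nat.cast_nonneg D : (0 : ℝ) ≤ D)]
  have h2 : (1 : ℝ) ≤ (2 * ((D : ℝ) + 1)) ^ D := one_le_pow₀ (by linarith)
  calc (1 : ℝ) = 1 * 1 := (mul_one 1).symm
    _ ≤ _ := mul_le_mul h1 h2 zero_le_one (by linarith)

/-- a polynomial is large somewhere on `[a + r, a + 2 r)` if it is large at `a` -/
lemma exists_near (D : ℕ) (f : ℝ[X]) (hf : f.natDegree ≤ D) (a r : ℝ) (hr : 0 < r) :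
    ∃ z ∈ Ico (a + r) (a + r + r), |f.eval a| ≤ CD D * |f.eval z| := by
  classical
  have hD1 : (0 : ℝ) < (D : ℝ) + 1 := by positivity
  set pts : Finset ℝ := (Finset.range (D + 1)).image (fun i : ℕ => a + r + (i : ℝ) * (r / (D + 1)))
    with hpts
  have hstep : 0 < r / ((D : ℝ) + 1) := by positivity
  have hinj : Function.Injective (fun i : ℕ => a + r + (i : ℝ) * (r / ((D : ℝ) + 1))) := by
    intro x y hxy
    simp only at hxy
    have h1 : (x : ℝ) * (r / ((D : ℝ) + 1)) = (y : ℝ) * (r / ((D : ℝ) + 1)) := by linarith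
    have h2 := mul_right_cancel₀ hstep.ne' h1
    exact_mod_cast h2
  have hcard : pts.card = D + 1 := by
    rw [hpts, Finset.card_image_of_injective _ hinj, Finset.card_range]
  have hmem : ∀ x ∈ pts, x ∈ Ico (a + r) (a + r + r) := by
    intro x hx
    rw [hpts, Finset.mem_image] at hx
    obtain ⟨i, hi, rfl⟩ := hx
    rw [Finset.mem_range] at hi
    have hi' : (i : ℝ) < (D : ℝ) + 1 := by exact_mod_cast hi
    have h1 : (i : ℝ) * (r / ((D : ℝ) + 1)) < r := by
      rw [mul_div_assoc', div_lt_iff₀ hD1]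
      nlinarith
    have h2 : 0 ≤ (i : ℝ) * (r / ((D : ℝ) + 1)) := by positivity
    exact ⟨by linarith, by linarith⟩
  obtain ⟨z, hz, hzmax⟩ := Finset.exists_max_image pts (fun x => |f.eval x|)
    (Finset.card_pos.1 (by omega))
  refine ⟨z, hmem z hz, ?_⟩
  have h := lagrange_bound D f hf pts hcard (r / (D + 1)) (2 * r) (|f.eval z|) a hstep
    (by
      rw [div_le_iff₀ hD1]
      nlinarith)
    (by
      intro x hx y hy hxy
      rw [hpts, Finset.mem_image] at hx hy
      obtain ⟨i, hi, rfl⟩ := hx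
      obtain ⟨i', hi', rfl⟩ := hy
      have hne : i ≠ i' := fun h => hxy (by rw [h])
      have e : a + r + (i : ℝ) * (r / (D + 1)) - (a + r + (i' : ℝ) * (r / (D + 1))) =
          (((i : ℤ) - (i' : ℤ) : ℤ) : ℝ) * (r / (D + 1)) := by push_cast; ring
      rw [e, abs_mul, abs_of_pos hstep]
      have h1 : (1 : ℝ) ≤ |(((i : ℤ) - (i' : ℤ) : ℤ) : ℝ)| := by
        have h3 : (i : ℤ) - (i' : ℤ) ≠ 0 := by omega
        rw [← Int.cast_abs]
        exact_mod_cast Int.one_le_abs h3
      nlinarith)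
    (by
      intro x hx
      have := hmem x hx
      rw [abs_le]
      constructor <;> linarith [this.1, this.2])
    (fun x hx => hzmax x hx)
  have e : 2 * r / (r / ((D : ℝ) + 1)) = 2 * ((D : ℝ) + 1) := by field_simp
  rw [e] at h
  refine h.trans (le_of_eq ?_)
  unfold CD; ring

lemma dv_eq_eval {j : ℕ} (v : Fin j → Fin (n + 1) → ℤ) (e : Fin j → ℕ) (z : ℝ) :
    dv v e z = ((Dt v e).map (Int.castRingHom ℝ)).eval z := rfl

lemma dv_natDegree {j : ℕ} (v : Fin j → Fin (n + 1) → ℤ) (hj : j ≤ n + 1) (e : Fin j → ℕ) :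
    ((Dt v e).map (Int.castRingHom ℝ)).natDegree ≤ (n + 1) * n :=
  natDegree_map_le.trans ((Dt_natDegree _ _).trans (Nat.mul_le_mul_right _ hj))

/-- some ordinary minor is nonzero -/
lemma exists_minor {j : ℕ} (v : Fin j → Fin (n + 1) → ℤ)
    (hv : LinearIndependent ℚ (fun a => castQ (v a))) :
    ∃ K : Fin j → Fin (n + 1), dv v (fun b => (K b : ℕ)) (0 : ℤ) ≠ 0 := by
  by_contra hcon
  push Not at hcon
  apply W_ne_zero v hv
  apply Polynomial.funext
  intro c
  have h1 : dv v (fun b => (b : ℕ)) (0 + c) = 0 := by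
    rw [dv_shift]
    apply Finset.sum_eq_zero
    intro φ _
    rw [hcon, mul_zero]
  rw [zero_add] at h1
  unfold dv at h1
  rw [W_eq_Dt, eval_zero, ← h1]
  congr 1
  ext i
  simp

lemma dv_zero_int {R : Type*} [CommRing R] {j : ℕ} (v : Fin j → Fin (n + 1) → ℤ) (e : Fin j → ℕ) :
    dv v e (0 : R) = ((dv v e (0 : ℤ) : ℤ) : R) := by
  unfold dv
  have h1 : (Dt v e).map (Int.castRingHom R) = ((Dt v e).map (Int.castRingHom ℤ)).map (Int.castRingHom R) := by
    rw [Polynomial.map_map]; rfl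
  rw [h1, eval_zero_map]
  simp

/-- value of the tuple norm near `a` -/
lemma Nm_near (w : Fin (n + 1) → ℝ) (hw : ∀ k, 0 < w k) {j : ℕ} (v : Fin j → Fin (n + 1) → ℤ)
    (hj : j ≤ n + 1) (I : Fin j → Fin (n + 1)) (a r : ℝ) (hr : 0 < r) :
    ∃ z ∈ Ico (a + r) (a + r + r), |dv v (fun b => (I b : ℕ)) a| / ∏ b, w (I b) ≤
      CD ((n + 1) * n) * Nm w v z := by
  obtain ⟨z, hz, h⟩ := exists_near ((n + 1) * n) _ (dv_natDegree v hj (fun b => (I b : ℕ))) a r hr
  refine ⟨z, hz, ?_⟩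
  have h1 := term_le w v z I
  rw [term_eq] at h1
  have hpos : 0 < ∏ b, w (I b) := Finset.prod_pos (fun _ _ => hw _)
  rw [div_le_iff₀ hpos] at h1 ⊢
  rw [dv_eq_eval]
  refine h.trans ?_
  rw [dv_eq_eval] at h1
  calc CD ((n + 1) * n) * |eval z (Polynomial.map (Int.castRingHom ℝ) (Dt v fun b => ↑(I b)))|
      ≤ CD ((n + 1) * n) * (Nm w v z * ∏ b, w (I b)) :=
        mul_le_mul_of_nonneg_left h1 (CD_pos _).le
    _ = _ := by ring

/-- smallest exponent occurring -/
lemma exists_ord {j : ℕ} (v : Fin (j + 1) → Fin (n + 1) → ℤ)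
    (hv : LinearIndependent ℚ (fun a => castQ (v a))) :
    ∃ k : Fin (n + 1), (∃ a, v a k ≠ 0) ∧ ∀ a, X ^ (k : ℕ) ∣ toP (v a) := by
  classical
  have h0 : ∃ i : Fin (n + 1), ∃ a, v a i ≠ 0 := by
    by_contra hcon
    push Not at hcon
    have := hv.ne_zero 0
    apply this
    ext i
    simp [castQ, hcon i 0]
  have hex : ∃ k : ℕ, ∃ i : Fin (n + 1), (i : ℕ) = k ∧ ∃ a, v a i ≠ 0 := by
    obtain ⟨i, hi⟩ := h0
    exact ⟨i, i, rfl, hi⟩
  obtain ⟨k, hk, hk'⟩ := Nat.find_spec hex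
  refine ⟨k, hk', fun a => ?_⟩
  rw [X_pow_dvd_iff]
  intro d hd
  by_contra hne
  have hdn : d < n + 1 := lt_trans hd k.2
  rw [toP_coeff' _ _ hdn] at hne
  have h5 : Nat.find hex ≤ d := Nat.find_min' hex ⟨⟨d, hdn⟩, rfl, a, hne⟩
  omega

/-- type A: a generalized minor of the form `X ^ k * F` with `F(0) ≠ 0`, one of whose indices is `0` -/
lemma exists_typeA {j : ℕ} (v : Fin (j + 1) → Fin (n + 1) → ℤ)
    (hv : LinearIndependent ℚ (fun a => castQ (v a))) (k : Fin (n + 1)) (hk : ∃ a, v a k ≠ 0)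
    (hdvd : ∀ a, X ^ (k : ℕ) ∣ toP (v a)) :
    ∃ (I : Fin (j + 1) → Fin (n + 1)) (b0 : Fin (j + 1)) (G : ℤ[X]), I b0 = 0 ∧ G.eval 0 ≠ 0 ∧
      Dt v (fun b => (I b : ℕ)) = X ^ (k : ℕ) * G := by
  classical
  obtain ⟨K, hK⟩ := exists_minor v hv
  choose Q hQ using hdvd
  have hQ0 : ∀ a, (Q a).eval 0 = v a k := by
    intro a
    have h1 := toP_coeff (v a) k
    rw [hQ a, coeff_X_pow_mul'] at h1
    simp only [le_refl, if_true, Nat.sub_self] at h1
    rw [← h1, coeff_zero_eq_eval_zero]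
  -- Cramer over ℚ
  set A : Matrix (Fin (j + 1)) (Fin (j + 1)) ℚ := Matrix.of fun a b => ((v a (K b) : ℤ) : ℚ) with hA
  have hdet : A.det ≠ 0 := by
    have h1 : dv v (fun b => (K b : ℕ)) (0 : ℚ) = A.det := by
      rw [dv_eq_det]
      congr 1
      ext a b
      simp only [Matrix.of_apply, hA]
      exact hd_zero (K b) (v a)
    rw [← h1, dv_zero_int]
    exact_mod_cast hK
  set q : Fin (j + 1) → ℚ := fun a => ((v a k : ℤ) : ℚ) with hq
  have hq0 : q ≠ 0 := by
    obtain ⟨a, ha⟩ := hk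
    intro h
    have := congrFun h a
    simp only [hq, Pi.zero_apply, Int.cast_eq_zero] at this
    exact ha this
  have hcr := Matrix.mulVec_cramer A q
  have hne : A.cramer q ≠ 0 := by
    intro h
    rw [h, Matrix.mulVec_zero] at hcr
    have := smul_ne_zero hdet hq0
    exact this hcr.symm
  obtain ⟨b0, hb0⟩ := Function.ne_iff.1 hne
  rw [Matrix.cramer_apply, Pi.zero_apply] at hb0
  set M' : Matrix (Fin (j + 1)) (Fin (j + 1)) ℤ[X] :=
    Matrix.of fun a b => hasseDeriv (K b : ℕ) (toP (v a)) with hM'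
  refine ⟨Function.update K b0 0, b0, (M'.updateCol b0 Q).det, by simp, ?_, ?_⟩
  · intro h0
    apply hb0
    have h1 : (((M'.updateCol b0 Q).det.eval 0 : ℤ) : ℚ) = (A.updateCol b0 q).det := by
      have h2 : ((M'.updateCol b0 Q).det.eval 0) = (evalRingHom 0) (M'.updateCol b0 Q).det := rfl
      rw [h2, RingHom.map_det]
      rw [show (((evalRingHom (0 : ℤ)).mapMatrix (M'.updateCol b0 Q)).det : ℚ) =
        (Int.castRingHom ℚ) ((evalRingHom (0 : ℤ)).mapMatrix (M'.updateCol b0 Q)).det from rfl]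
      rw [RingHom.map_det]
      congr 1
      ext a b
      simp only [RingHom.mapMatrix_apply, Matrix.map_apply, coe_evalRingHom, eq_intCast]
      by_cases hb : b = b0
      · subst hb
        rw [Matrix.updateCol_self, Matrix.updateCol_self, hQ0]
      · rw [Matrix.updateCol_ne hb, Matrix.updateCol_ne hb]
        simp only [hM', hA, Matrix.of_apply]
        have h3 := hd_zero (R := ℤ) (K b) (v a)
        unfold hd at h3
        have h4 : (hasseDeriv (K b : ℕ) (toP (v a))).map (Int.castRingHom ℤ) =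
            hasseDeriv (K b : ℕ) (toP (v a)) := by
          ext i; simp
        rw [h4] at h3
        rw [h3]; simp
    rw [← h1, h0]; simp
  · have h1 : (Matrix.of fun a b : Fin (j + 1) =>
        hasseDeriv ((Function.update K b0 0 b : Fin (n + 1)) : ℕ) (toP (v a))) =
        M'.updateCol b0 ((X ^ (k : ℕ) : ℤ[X]) • Q) := by
      ext1 a b
      by_cases hb : b = b0
      · subst hb
        rw [Matrix.updateCol_self]
        simp only [Matrix.of_apply, Function.update_self, Fin.val_zero, Pi.smul_apply, smul_eq_mul]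
        rw [hasseDeriv_zero', hQ a]
      · rw [Matrix.updateCol_ne hb]
        simp only [Matrix.of_apply, Function.update_of_ne hb, hM']
    unfold Dt
    rw [h1, Matrix.det_updateCol_smul]

end Pool.Agent.W71
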