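import Mathlib
import Pool.Agent.H393R2.Geom2
import Pool.Agent.W71.RLower

/-! Short vectors in a lattice of small covolume (Minkowski, via maximal minors). -/

set_option autoImplicit false

open Polynomial Set

namespace Pool.Agent.W71

open Pool.Agent.Helper404 (toP castQ Dt IB SB W W_ne_zero W_eq_Dt mu term Nm term_le exists_term
  term_nonneg Nm_nonneg nrm laplace rk rk_strict botS Nm_empty castQ_eq_zero Dt_natDegree
  lagrange_bound)

variable {n : ℕ}

lemma hd_sum {R : Type*} [CommRing R] {j : ℕ} (c : Fin j → ℤ) (v : Fin j → Fin (n + 1) → ℤ)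
    (k : ℕ) (z : R) : hd k (∑ a, c a • v a) z = ∑ a, (c a : R) * hd k (v a) z := by
  have h1 : toP (∑ a, c a • v a) = ∑ a, C (c a) * toP (v a) := by
    unfold toP
    simp only [Finset.sum_apply, Pi.smul_apply, smul_eq_mul, map_sum, Finset.sum_mul, C_mul,
      Finset.mul_sum]
    rw [Finset.sum_comm]
    refine Finset.sum_congr rfl (fun x _ => Finset.sum_congr rfl (fun y _ => by ring))
  unfold hd
  rw [h1, map_sum, Polynomial.map_sum, eval_finsetSum]
  refine Finset.sum_congr rfl (fun a _ => ?_)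
  rw [← smul_eq_C_mul, map_smul, smul_eq_C_mul, Polynomial.map_mul, map_C, eval_mul, eval_C]
  rfl

theorem mink_tuple (w : Fin (n + 1) → ℝ) (hw : ∀ k, 0 < w k) {j : ℕ}
    (v : Fin (j + 1) → Fin (n + 1) → ℤ) (z : ℝ) (hΔ : 0 < Nm w v z) :
    ∃ c : Fin (j + 1) → ℤ, c ≠ 0 ∧ ∀ k, nrm w (∑ a, c a • v a) z k ≤
      (j + 1) * (2 * (Nm w v z) ^ (1 / ((j + 1 : ℕ) : ℝ))) := by
  classical
  set Δ := Nm w v z with hΔd
  obtain ⟨I, hI⟩ := exists_term w v z
  rw [← hΔd] at hI
  set M : Matrix (Fin (j + 1)) (Fin (j + 1)) ℝ :=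
    Matrix.of fun a b => hd (I b : ℕ) (v a) z / w (I b) with hM
  have hdetgen : ∀ J : Fin (j + 1) → Fin (n + 1),
      |Matrix.det (Matrix.of fun a b => hd (J b : ℕ) (v a) z / w (J b))| = term w v z J := by
    intro J
    have h1 : (Matrix.of fun a b => hd (J b : ℕ) (v a) z / w (J b)) =
        Matrix.of fun a b => (w (J b))⁻¹ * (Matrix.of fun a b => hd (J b : ℕ) (v a) z) a b := by
      ext a b
      simp only [Matrix.of_apply]
      ring
    rw [h1, Matrix.det_mul_row, abs_mul, ← dv_eq_det, term_eq, Finset.prod_inv_distrib, abs_inv,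
      abs_of_pos (Finset.prod_pos (fun b _ => hw (J b)))]
    ring
  have hdetM : |M.det| = Δ := by rw [hM, hdetgen, ← hI]
  have hMne : M.det ≠ 0 := by
    intro h; rw [h, abs_zero] at hdetM; linarith
  set δ : ℝ := Δ ^ (1 / ((j + 1 : ℕ) : ℝ)) with hδ
  have hδpos : 0 < δ := Real.rpow_pos_of_pos hΔ _
  have hδj : δ ^ (j + 1) = Δ := by
    rw [hδ, ← Real.rpow_natCast, ← Real.rpow_mul hΔ.le, one_div_mul_cancel (by positivity),
      Real.rpow_one]
  obtain ⟨c, hc0, hc⟩ := Pool.Agent.H393R2.Geom.minkowski_forms M.transpose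
    (by rw [Matrix.det_transpose]; exact hMne) (fun _ => 2 * δ) (fun _ => by positivity) (by
      rw [Matrix.det_transpose, hdetM, Finset.prod_const, Finset.card_univ, Fintype.card_fin,
        mul_pow, hδj]
      have : (1 : ℝ) < 2 ^ (j + 1) := one_lt_pow₀ (by norm_num) (by omega)
      nlinarith)
  refine ⟨c, hc0, fun k => ?_⟩
  have hform : ∀ b, |∑ a, (c a : ℝ) * M a b| ≤ 2 * δ := by
    intro b
    have h1 := hc b
    rw [Pool.Agent.H393R2.Geom.app_apply] at h1
    simp only [Matrix.mulVec, dotProduct, Matrix.transpose_apply] at h1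
    refine le_trans (le_of_eq ?_) h1
    congr 1
    exact Finset.sum_congr rfl (fun a _ => mul_comm _ _)
  set q : Fin (j + 1) → ℝ := fun a => hd (k : ℕ) (v a) z / w k with hq
  have hcr := Matrix.mulVec_cramer M q
  have hcrb : ∀ b, |M.cramer q b| ≤ Δ := by
    intro b
    rw [Matrix.cramer_apply]
    have h1 : M.updateCol b q = Matrix.of fun a b' =>
        hd ((Function.update I b k b' : Fin (n + 1)) : ℕ) (v a) z / w (Function.update I b k b') := by
      ext1 a b'
      by_cases hb : b' = b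
      · subst hb
        rw [Matrix.updateCol_self]
        simp only [Matrix.of_apply, Function.update_self, hq]
      · rw [Matrix.updateCol_ne hb]
        simp only [Matrix.of_apply, Function.update_of_ne hb, hM]
    rw [h1, hdetgen]
    exact term_le w v z _
  have hqa : ∀ a, M.det * q a = ∑ b, M a b * M.cramer q b := by
    intro a
    have h1 := congrFun hcr a
    simp only [Matrix.mulVec, dotProduct, Pi.smul_apply, smul_eq_mul] at h1
    exact h1.symm
  rw [nrm_eq, hd_sum]
  have h2 : |∑ a, (c a : ℝ) * hd (k : ℕ) (v a) z| / w k = |∑ a, (c a : ℝ) * q a| := by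
    have h3 : ∑ a, (c a : ℝ) * q a = (∑ a, (c a : ℝ) * hd (k : ℕ) (v a) z) / w k := by
      rw [Finset.sum_div]
      refine Finset.sum_congr rfl (fun a _ => ?_)
      simp only [hq]; ring
    rw [h3, abs_div, abs_of_pos (hw k)]
  rw [h2]
  have h4 : M.det * ∑ a, (c a : ℝ) * q a = ∑ b, M.cramer q b * ∑ a, (c a : ℝ) * M a b := by
    calc M.det * ∑ a, (c a : ℝ) * q a = ∑ a, (c a : ℝ) * (M.det * q a) := by
          rw [Finset.mul_sum]
          exact Finset.sum_congr rfl (fun a _ => by ring)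
      _ = ∑ a, ∑ b, (c a : ℝ) * (M a b * M.cramer q b) := by
          refine Finset.sum_congr rfl (fun a _ => ?_)
          rw [hqa, Finset.mul_sum]
      _ = ∑ b, ∑ a, (c a : ℝ) * (M a b * M.cramer q b) := Finset.sum_comm
      _ = _ := by
          refine Finset.sum_congr rfl (fun b _ => ?_)
          rw [Finset.mul_sum]
          exact Finset.sum_congr rfl (fun a _ => by ring)
  have h5 : Δ * |∑ a, (c a : ℝ) * q a| ≤ Δ * ((j + 1) * (2 * δ)) := by
    rw [← hdetM, ← abs_mul, h4]
    calc |∑ b, M.cramer q b * ∑ a, (c a : ℝ) * M a b|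
        ≤ ∑ b, |M.cramer q b * ∑ a, (c a : ℝ) * M a b| := Finset.abs_sum_le_sum_abs _ _
      _ ≤ ∑ b : Fin (j + 1), Δ * (2 * δ) := by
          refine Finset.sum_le_sum (fun b _ => ?_)
          rw [abs_mul]
          exact mul_le_mul (hcrb b) (hform b) (abs_nonneg _) hΔ.le
      _ = |M.det| * ((j + 1) * (2 * δ)) := by
          rw [Finset.sum_const, Finset.card_univ, Fintype.card_fin, nsmul_eq_mul, hdetM]
          push_cast; ring
  exact le_of_mul_le_mul_left h5 hΔ

end Pool.Agent.W71
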