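import Mathlib

/-! Degree of the Wronskian-type determinant over a field of large characteristic. -/

set_option autoImplicit false

open Polynomial

namespace Pool.Agent.W71

variable {F : Type*} [Field F]

/-- coefficient of a product at the sum of degree bounds -/
lemma coeff_prod_le {ι : Type*} (s : Finset ι) (f : ι → F[X]) (d : ι → ℕ)
    (h : ∀ i ∈ s, (f i).natDegree ≤ d i) :
    (∏ i ∈ s, f i).natDegree ≤ ∑ i ∈ s, d i ∧
      (∏ i ∈ s, f i).coeff (∑ i ∈ s, d i) = ∏ i ∈ s, (f i).coeff (d i) := by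
  classical
  induction s using Finset.induction_on with
  | empty => simp
  | insert a s ha ih =>
    obtain ⟨h1, h2⟩ := ih (fun i hi => h i (Finset.mem_insert_of_mem hi))
    have h3 := h a (Finset.mem_insert_self _ _)
    rw [Finset.prod_insert ha, Finset.sum_insert ha, Finset.prod_insert ha]
    refine ⟨natDegree_mul_le.trans (Nat.add_le_add h3 h1), ?_⟩
    rw [coeff_mul_add_eq_of_natDegree_le h3 h1, h2]

lemma det_coeff {j : ℕ} (M : Matrix (Fin j) (Fin j) F[X]) (d : Fin j → ℕ)
    (h : ∀ i b, (M i b).natDegree ≤ d i) :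
    M.det.coeff (∑ i, d i) = Matrix.det (Matrix.of fun i b => (M i b).coeff (d i)) := by
  rw [Matrix.det_apply, Matrix.det_apply, finsetSum_coeff]
  refine Finset.sum_congr rfl (fun σ _ => ?_)
  have h1 := (coeff_prod_le Finset.univ (fun b => M (σ b) b) (fun b => d (σ b))
    (fun b _ => h _ _)).2
  have h2 : ∑ b, d (σ b) = ∑ i, d i := Equiv.sum_comp σ d
  rw [h2] at h1
  rcases Int.units_eq_one_or (Equiv.Perm.sign σ) with hs | hs
  · rw [hs, one_smul, one_smul, h1]; rfl
  · rw [hs]
    simp only [Units.neg_smul, one_smul, coeff_neg]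
    rw [h1]; rfl

/-- nonvanishing of the binomial determinant -/
lemma det_choose_ne_zero {j N : ℕ} (hj : j ≤ N + 1) (hN : ∀ i : ℕ, 0 < i → i ≤ N → (i : F) ≠ 0)
    (d : Fin j → ℕ) (hd : Function.Injective d) (hdN : ∀ i, d i ≤ N) :
    Matrix.det (Matrix.of fun i b : Fin j => (((d i).choose (b : ℕ) : ℕ) : F)) ≠ 0 := by
  intro h0
  have hv : (Matrix.vandermonde (fun i => ((d i : ℕ) : F))).det ≠ 0 := by
    rw [Matrix.det_vandermonde_ne_zero_iff]
    intro a b hab
    simp only at hab
    by_contra hne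
    have hne' : d a ≠ d b := fun h => hne (hd h)
    rcases lt_or_gt_of_ne hne' with h | h
    · apply hN (d b - d a) (by omega) (by have := hdN b; omega)
      rw [Nat.cast_sub h.le, hab, sub_self]
    · apply hN (d a - d b) (by omega) (by have := hdN a; omega)
      rw [Nat.cast_sub h.le, hab, sub_self]
  apply hv
  rw [Matrix.det_eval_matrixOfPolynomials_eq_det_vandermonde (fun i => ((d i : ℕ) : F))
    (fun b => descPochhammer F (b : ℕ)) (fun b => descPochhammer_natDegree F b)
    (fun b => monic_descPochhammer F b)]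
  have h1 : (Matrix.of fun i b : Fin j => (descPochhammer F (b : ℕ)).eval ((d i : ℕ) : F)) =
      Matrix.of fun i b : Fin j => ((Nat.factorial (b : ℕ) : ℕ) : F) *
        (Matrix.of fun i b : Fin j => (((d i).choose (b : ℕ) : ℕ) : F)) i b := by
    ext i b
    simp only [Matrix.of_apply]
    rw [descPochhammer_eval_eq_descFactorial, Nat.descFactorial_eq_factorial_mul_choose]
    push_cast; rfl
  rw [h1, Matrix.det_mul_row, h0, mul_zero]

/-- the Wronskian-type determinant -/
noncomputable def Wf {j : ℕ} (f : Fin j → F[X]) : F[X] :=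
  Matrix.det (Matrix.of fun a b : Fin j => hasseDeriv (b : ℕ) (f a))

lemma Wf_distinct {j N : ℕ} (hj : j ≤ N + 1) (hN : ∀ i : ℕ, 0 < i → i ≤ N → (i : F) ≠ 0)
    (g : Fin j → F[X]) (hg0 : ∀ i, g i ≠ 0) (hg : Function.Injective fun i => (g i).natDegree)
    (hgN : ∀ i, (g i).natDegree ≤ N) :
    ∃ e, (Wf g).coeff e ≠ 0 ∧ e + ∑ b : Fin j, (b : ℕ) = ∑ i, (g i).natDegree := by
  set d := fun i => (g i).natDegree with hd
  set E : Matrix (Fin j) (Fin j) F[X] := Matrix.of fun i b => X ^ (b : ℕ) * hasseDeriv (b : ℕ) (g i)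
    with hE
  have hdeg : ∀ i b, (E i b).natDegree ≤ d i := by
    intro i b
    rw [natDegree_le_iff_coeff_eq_zero]
    intro m hm
    simp only [hE, Matrix.of_apply, coeff_X_pow_mul']
    split_ifs with h
    · rw [hasseDeriv_coeff, Nat.sub_add_cancel h, coeff_eq_zero_of_natDegree_lt hm, mul_zero]
    · rfl
  have hco : ∀ i b, (E i b).coeff (d i) = (g i).leadingCoeff * (((d i).choose (b : ℕ) : ℕ) : F) := by
    intro i b
    simp only [hE, Matrix.of_apply, coeff_X_pow_mul']
    split_ifs with h
    · rw [hasseDeriv_coeff, Nat.sub_add_cancel h, mul_comm]; rfl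
    · rw [Nat.choose_eq_zero_of_lt (by omega)]; simp
  have h1 := det_coeff E d hdeg
  have h2 : (Matrix.of fun i b => (E i b).coeff (d i)) =
      Matrix.of fun i b : Fin j => (g i).leadingCoeff *
        (Matrix.of fun i b : Fin j => (((d i).choose (b : ℕ) : ℕ) : F)) i b := by
    ext i b
    simp only [Matrix.of_apply]
    exact hco i b
  rw [h2, Matrix.det_mul_column] at h1
  have h3 : E.det = (∏ b : Fin j, (X : F[X]) ^ (b : ℕ)) * Wf g := by
    rw [hE]
    exact Matrix.det_mul_row (fun b : Fin j => (X : F[X]) ^ (b : ℕ)) _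
  rw [h3, Finset.prod_pow_eq_pow_sum, coeff_X_pow_mul'] at h1
  have hne : (∏ i, (g i).leadingCoeff) * Matrix.det (Matrix.of fun i b : Fin j =>
      (((d i).choose (b : ℕ) : ℕ) : F)) ≠ 0 := by
    apply mul_ne_zero
    · exact Finset.prod_ne_zero_iff.2 (fun i _ => leadingCoeff_ne_zero.2 (hg0 i))
    · exact det_choose_ne_zero hj hN d hg hgN
  split_ifs at h1 with h
  · refine ⟨∑ i, d i - ∑ b : Fin j, (b : ℕ), ?_, Nat.sub_add_cancel h⟩
    rw [h1]; exact hne
  · exact absurd h1.symm hne

/-- change of basis -/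
lemma Wf_change {j : ℕ} (f : Fin j → F[X]) (A : Matrix (Fin j) (Fin j) F) :
    Wf (fun i => ∑ k, A i k • f k) = C A.det * Wf f := by
  unfold Wf
  have hC : (C A.det : F[X]) = (A.map C).det := by
    rw [RingHom.map_det]; rfl
  rw [hC, ← Matrix.det_mul]
  congr 1
  ext1 i b
  rw [Matrix.mul_apply]
  simp only [Matrix.of_apply, Matrix.map_apply]
  rw [map_sum]
  refine Finset.sum_congr rfl (fun k _ => ?_)
  rw [map_smul, smul_eq_C_mul]

lemma comb_ne_zero {j : ℕ} {f : Fin j → F[X]} (hf : LinearIndependent F f)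
    {A : Matrix (Fin j) (Fin j) F} (hA : A.det ≠ 0) :
    LinearIndependent F (fun i => ∑ k, A i k • f k) := by
  rw [Fintype.linearIndependent_iff] at hf ⊢
  intro c hc
  have h1 : ∑ k, (∑ i, c i * A i k) • f k = 0 := by
    rw [← hc]
    simp only [Finset.sum_smul, Finset.smul_sum, mul_smul]
    exact Finset.sum_comm
  have h2 := hf _ h1
  have h3 : Matrix.vecMul c A = 0 := by
    ext k
    exact h2 k
  have h4 := Matrix.eq_zero_of_vecMul_eq_zero hA h3
  intro i
  exact congrFun h4 i

/-- Echelon form: some invertible combination has distinct degrees. -/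
lemma exists_echelon {j : ℕ} (f : Fin j → F[X]) (hf : LinearIndependent F f) :
    ∃ A : Matrix (Fin j) (Fin j) F, A.det ≠ 0 ∧
      Function.Injective fun i => (∑ k, A i k • f k).natDegree := by
  classical
  have hex : ∃ m : ℕ, ∃ A : Matrix (Fin j) (Fin j) F, A.det ≠ 0 ∧
      ∑ i, (∑ k, A i k • f k).natDegree = m := ⟨_, 1, by simp, rfl⟩
  obtain ⟨A, hA, hmin⟩ := Nat.find_spec hex
  refine ⟨A, hA, ?_⟩
  by_contra hinj
  simp only [Function.Injective] at hinj
  push Not at hinj
  obtain ⟨a, b, hab, hne⟩ := hinj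
  set g := fun i => ∑ k, A i k • f k with hg
  have hgi : LinearIndependent F g := comb_ne_zero hf hA
  have hab' : (g a).natDegree = (g b).natDegree := hab
  have hgb : g b ≠ 0 := hgi.ne_zero b
  have hga : g a ≠ 0 := hgi.ne_zero a
  set c := (g a).leadingCoeff / (g b).leadingCoeff with hc
  set A' := A.updateRow a (A a + (-c) • A b) with hA'
  have hdet : A'.det = A.det := Matrix.det_updateRow_add_smul_self A hne (-c)
  set g' := fun i => ∑ k, A' i k • f k with hg'
  have hg'a : g' a = g a - c • g b := by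
    have h1 : ∀ k, A' a k = A a k - c * A b k := by
      intro k
      simp [hA', Matrix.updateRow_self, sub_eq_add_neg]
    change ∑ k, A' a k • f k = ∑ k, A a k • f k - c • ∑ k, A b k • f k
    simp_rw [h1, sub_smul, mul_smul]
    rw [Finset.sum_sub_distrib, Finset.smul_sum]
  have hg'o : ∀ i, i ≠ a → g' i = g i := by
    intro i hi
    simp only [hg', hA', Matrix.updateRow_ne hi, hg]
  have hg'a0 : g' a ≠ 0 := by
    have h1 : LinearIndependent F g' := comb_ne_zero hf (by rw [hdet]; exact hA)
    exact h1.ne_zero a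
  have hlc : (g b).leadingCoeff ≠ 0 := leadingCoeff_ne_zero.2 hgb
  have hlt : (g' a).natDegree < (g a).natDegree := by
    have hle : (g' a).natDegree ≤ (g a).natDegree := by
      rw [hg'a]
      refine (natDegree_sub_le _ _).trans (max_le le_rfl ?_)
      exact (natDegree_smul_le _ _).trans hab'.ge
    have hco : (g' a).coeff (g a).natDegree = 0 := by
      rw [hg'a, coeff_sub, coeff_smul, smul_eq_mul]
      nth_rewrite 2 [hab']
      rw [coeff_natDegree, coeff_natDegree, hc, div_mul_cancel₀ _ hlc, sub_self]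
    rcases hle.lt_or_eq with h | h
    · exact h
    · exfalso
      rw [← h, coeff_natDegree] at hco
      exact hg'a0 (leadingCoeff_eq_zero.1 hco)
  have h2 := Nat.find_min' hex ⟨A', by rw [hdet]; exact hA, rfl⟩
  rw [← hmin] at h2
  have h3 : ∑ i, (g' i).natDegree < ∑ i, (g i).natDegree := by
    apply Finset.sum_lt_sum
    · intro i _
      by_cases hi : i = a
      · rw [hi]; exact hlt.le
      · rw [hg'o i hi]
    · exact ⟨a, Finset.mem_univ a, hlt⟩
  exact absurd h2 (not_le.2 h3)

/-- sum of distinct naturals each at least `k` -/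
lemma sum_ge {j : ℕ} (d : Fin j → ℕ) (hd : Function.Injective d) (k : ℕ) (hk : ∀ i, k ≤ d i) :
    j * k + ∑ b : Fin j, (b : ℕ) ≤ ∑ i, d i := by
  classical
  have h1 : ∀ s : Finset ℕ, (∀ x ∈ s, k ≤ x) → s.card * k + ∑ b ∈ Finset.range s.card, b ≤ ∑ x ∈ s, x := by
    intro s
    induction s using Finset.induction_on_max with
    | empty => simp
    | insert a s ha ih =>
      intro hks
      have hns : a ∉ s := fun h => lt_irrefl _ (ha a h)
      rw [Finset.card_insert_of_notMem hns, Finset.sum_insert hns, Finset.sum_range_succ]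
      have h2 := ih (fun x hx => hks x (Finset.mem_insert_of_mem hx))
      have h3 : k + s.card ≤ a := by
        have h4 : s ⊆ Finset.Ico k a := by
          intro x hx
          rw [Finset.mem_Ico]
          exact ⟨hks x (Finset.mem_insert_of_mem hx), ha x hx⟩
        have h5 := Finset.card_le_card h4
        rw [Nat.card_Ico] at h5
        have := hks a (Finset.mem_insert_self _ _)
        omega
      have h6 : (s.card + 1) * k = s.card * k + k := by ring
      omega
  have h2 := h1 (Finset.univ.image d) (by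
    intro x hx
    rw [Finset.mem_image] at hx
    obtain ⟨i, _, rfl⟩ := hx
    exact hk i)
  rw [Finset.card_image_of_injective _ hd, Finset.card_univ, Fintype.card_fin,
    Finset.sum_image (fun a _ b _ h => hd h), Finset.sum_range] at h2
  exact h2

/-- sum of distinct naturals, one of which is `m` -/
lemma sum_ge' {j : ℕ} (d : Fin (j + 1) → ℕ) (hd : Function.Injective d) (i0 : Fin (j + 1)) :
    d i0 + ∑ b : Fin j, (b : ℕ) ≤ ∑ i, d i := by
  rw [Fin.sum_univ_succAbove d i0]
  have h1 := sum_ge (fun i => d (i0.succAbove i))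
    (fun a b h => Fin.succAbove_right_injective (hd h)) 0 (fun _ => Nat.zero_le _)
  simp only [mul_zero, zero_add] at h1
  omega

/-- Wronskian degree: generic version, divisibility by `X ^ k` -/
theorem Wf_coeff_A {j N k : ℕ} (hj : j ≤ N + 1) (hN : ∀ i : ℕ, 0 < i → i ≤ N → (i : F) ≠ 0)
    (f : Fin j → F[X]) (hf : LinearIndependent F f) (hfN : ∀ i, (f i).natDegree ≤ N)
    (hk : ∀ i, X ^ k ∣ f i) : ∃ e, j * k ≤ e ∧ (Wf f).coeff e ≠ 0 := by
  obtain ⟨A, hA, hinj⟩ := exists_echelon f hf
  set g := fun i => ∑ k, A i k • f k with hg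
  have hgi : LinearIndependent F g := comb_ne_zero hf hA
  have hgN : ∀ i, (g i).natDegree ≤ N := by
    intro i
    apply natDegree_sum_le_of_forall_le
    intro k _
    exact (natDegree_smul_le _ _).trans (hfN k)
  obtain ⟨e, he, hsum⟩ := Wf_distinct hj hN g (fun i => hgi.ne_zero i) hinj hgN
  refine ⟨e, ?_, ?_⟩
  · have h1 := sum_ge (fun i => (g i).natDegree) hinj k (by
      intro i
      have h2 : X ^ k ∣ g i := by
        apply Finset.dvd_sum
        intro m _
        exact (hk m).trans (Dvd.intro_left (C (A i m)) (by rw [smul_eq_C_mul]))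
      have h3 := natDegree_le_of_dvd h2 (hgi.ne_zero i)
      rwa [natDegree_X_pow] at h3)
    omega
  · rw [Wf_change, coeff_C_mul] at he
    intro h
    apply he
    rw [h, mul_zero]

/-- Wronskian degree when the span contains a polynomial of degree `m` -/
theorem Wf_coeff_B {j N m : ℕ} (hj : j + 1 ≤ N + 1) (hN : ∀ i : ℕ, 0 < i → i ≤ N → (i : F) ≠ 0)
    (f : Fin (j + 1) → F[X]) (hf : LinearIndependent F f) (hfN : ∀ i, (f i).natDegree ≤ N)
    (c : Fin (j + 1) → F) (hm : (∑ i, c i • f i).natDegree = m) (hm0 : ∑ i, c i • f i ≠ 0) :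
    ∃ e, m - j ≤ e ∧ (Wf f).coeff e ≠ 0 := by
  classical
  obtain ⟨A, hA, hinj⟩ := exists_echelon f hf
  set g := fun i => ∑ k, A i k • f k with hg
  have hgi : LinearIndependent F g := comb_ne_zero hf hA
  have hgN : ∀ i, (g i).natDegree ≤ N := by
    intro i
    apply natDegree_sum_le_of_forall_le
    intro k _
    exact (natDegree_smul_le _ _).trans (hfN k)
  obtain ⟨e, he, hsum⟩ := Wf_distinct hj hN g (fun i => hgi.ne_zero i) hinj hgN
  -- express in terms of `g`
  obtain ⟨c', hc'⟩ : ∃ c' : Fin (j + 1) → F, ∑ i, c i • f i = ∑ i, c' i • g i := by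
    have hu : IsUnit A.det := isUnit_iff_ne_zero.2 hA
    refine ⟨Matrix.vecMul c A⁻¹, ?_⟩
    have h1 : ∑ i, (Matrix.vecMul c A⁻¹) i • g i =
        ∑ k, (Matrix.vecMul (Matrix.vecMul c A⁻¹) A) k • f k := by
      simp only [hg, Matrix.vecMul, dotProduct, Finset.sum_smul, Finset.smul_sum, mul_smul]
      exact Finset.sum_comm
    rw [h1, Matrix.vecMul_vecMul, Matrix.nonsing_inv_mul _ hu, Matrix.vecMul_one]
  have hdisj : natDegree (∑ i, c' i • g i) = Finset.univ.sup fun i => (c' i • g i).natDegree := by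
    apply natDegree_sum_eq_of_disjoint
    intro a ha b hb hab h
    simp only [Finset.mem_univ, true_and, ne_eq, Set.mem_ofPred_eq] at ha hb
    apply hab
    apply hinj
    have hca : c' a ≠ 0 := by rintro h0; rw [h0, zero_smul] at ha; exact ha rfl
    have hcb : c' b ≠ 0 := by rintro h0; rw [h0, zero_smul] at hb; exact hb rfl
    simp only [Function.comp_apply] at h
    rw [natDegree_smul _ hca, natDegree_smul _ hcb] at h
    exact h
  have hex : ∃ i0, (g i0).natDegree = m := by
    rw [← hc', hm] at hdisj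
    obtain ⟨i0, _, hi0⟩ := Finset.exists_mem_eq_sup (Finset.univ : Finset (Fin (j + 1)))
      ⟨0, Finset.mem_univ _⟩ (fun i => (c' i • g i).natDegree)
    by_cases hc0 : c' i0 = 0
    · -- then the degree is zero and all terms have degree zero
      rw [hi0, hc0, zero_smul, natDegree_zero] at hdisj
      rw [hc'] at hm0
      obtain ⟨i1, _, hi1⟩ := Finset.exists_ne_zero_of_sum_ne_zero hm0
      have hc1 : c' i1 ≠ 0 := by rintro h0; rw [h0, zero_smul] at hi1; exact hi1 rfl
      refine ⟨i1, ?_⟩
      have h5 : (c' i1 • g i1).natDegree ≤ Finset.univ.sup fun i => (c' i • g i).natDegree :=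
        Finset.le_sup (f := fun i => (c' i • g i).natDegree) (Finset.mem_univ i1)
      rw [hi0, hc0, zero_smul, natDegree_zero, natDegree_smul _ hc1] at h5
      omega
    · refine ⟨i0, ?_⟩
      rw [hi0, natDegree_smul _ hc0] at hdisj
      exact hdisj.symm
  obtain ⟨i0, hi0⟩ := hex
  refine ⟨e, ?_, ?_⟩
  · have h1 := sum_ge' (fun i => (g i).natDegree) hinj i0
    rw [hi0, ← hsum] at h1
    rw [Fin.sum_univ_castSucc] at h1
    simp only [Fin.val_castSucc, Fin.val_last] at h1
    omega
  · rw [Wf_change, coeff_C_mul] at he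
    intro h
    apply he
    rw [h, mul_zero]

end Pool.Agent.W71
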