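import Mathlib
import Pool.Agent.W71.SNorm
import Pool.Agent.W71.WronDeg

/-! `ℓ`-adic lower bounds for lattice bases. -/

set_option autoImplicit false

open Polynomial

namespace Pool.Agent.W71

open Pool.Agent.Helper404 (toP castQ Dt IB SB W W_ne_zero W_eq_Dt mu term Nm term_le exists_term
  term_nonneg Nm_nonneg nrm laplace rk rk_strict botS Nm_empty castQ_eq_zero Dt_natDegree)

variable {n : ℕ}

section
variable {ℓ : ℕ} [hp : Fact ℓ.Prime]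

omit hp in
lemma toP_sum {j : ℕ} (c : Fin j → ℤ) (v : Fin j → Fin (n + 1) → ℤ) :
    toP (∑ a, c a • v a) = ∑ a, C (c a) * toP (v a) := by
  unfold toP
  simp only [Finset.sum_apply, Pi.smul_apply, smul_eq_mul, map_sum, Finset.sum_mul, C_mul,
    Finset.mul_sum]
  rw [Finset.sum_comm]
  refine Finset.sum_congr rfl (fun x _ => Finset.sum_congr rfl (fun y _ => by ring))

lemma indep_zmod {U : Submodule ℚ (Fin (n + 1) → ℚ)} {j : ℕ} {v : Fin j → Fin (n + 1) → ℤ}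
    (h : ZB U j v) :
    LinearIndependent (ZMod ℓ) (fun a => (toP (v a)).map (Int.castRingHom (ZMod ℓ))) := by
  rw [Fintype.linearIndependent_iff]
  intro g hg a
  -- lift the coefficients
  set c : Fin j → ℤ := fun a => ((g a).val : ℤ) with hc
  have hcg : ∀ a, ((c a : ℤ) : ZMod ℓ) = g a := by
    intro a; simp [hc]
  have h1 : ∀ i, (ℓ : ℤ) ∣ (∑ a, c a • v a) i := by
    intro i
    rw [← ZMod.intCast_zmod_eq_zero_iff_dvd]
    have h2 := congrArg (fun p : (ZMod ℓ)[X] => p.coeff (i : ℕ)) hg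
    simp only [finsetSum_coeff, coeff_smul, coeff_map, coeff_zero, toP_coeff] at h2
    rw [← h2]
    simp only [Finset.sum_apply, Pi.smul_apply, smul_eq_mul]
    push_cast
    refine Finset.sum_congr rfl (fun b _ => ?_)
    rw [hcg]; rfl
  have h2 := h.indep_mod ℓ hp.out.ne_zero c h1 a
  rw [← hcg a]
  exact (ZMod.intCast_zmod_eq_zero_iff_dvd _ _).2 h2

lemma Wf_map {j : ℕ} (v : Fin j → Fin (n + 1) → ℤ) :
    Wf (fun a => (toP (v a)).map (Int.castRingHom (ZMod ℓ))) = (W v).map (Int.castRingHom (ZMod ℓ)) := by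
  unfold Wf W
  rw [← coe_mapRingHom, RingHom.map_det]
  congr 1
  ext a b k
  simp [hasseDeriv_coeff]

lemma lower_of_coeff {j : ℕ} (v : Fin j → Fin (n + 1) → ℤ) (hj : j ≤ n + 1)
    (hℓ : (n + 1) * n < ℓ) (m e : ℕ)
    (he : (Wf (fun a => (toP (v a)).map (Int.castRingHom (ZMod ℓ)))).coeff e ≠ 0) :
    ∃ p ≤ (n + 1) * n, ((ℓ : ℝ) ^ m) ^ e ≤ Ux ℓ v (pt ℓ m p) := by
  rw [Wf_map, coeff_map] at he
  have h1 : ¬ (ℓ : ℤ) ∣ (W v).coeff e := by
    intro h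
    apply he
    exact (ZMod.intCast_zmod_eq_zero_iff_dvd _ _).2 h
  have hdeg : ((W v).map (Int.castRingHom ℚ)).natDegree ≤ (n + 1) * n := by
    refine natDegree_map_le.trans ?_
    rw [W_eq_Dt]
    exact (Dt_natDegree _ _).trans (Nat.mul_le_mul_right _ hj)
  obtain ⟨p, hp1, hp2⟩ := exists_pt_ge_coeff (ℓ := ℓ) ((n + 1) * n) hℓ _ hdeg e m
  refine ⟨p, hp1, ?_⟩
  rw [coeff_map, eq_intCast, nl_int_eq_one h1, one_mul] at hp2
  refine hp2.trans ?_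
  have h3 := le_Ux (ℓ := ℓ) v (pt ℓ m p) (fun b => Fin.castLE hj b)
  refine le_trans (le_of_eq ?_) h3
  rfl

/-- lower bound, all polynomials divisible by `X ^ k` -/
theorem padicA {U : Submodule ℚ (Fin (n + 1) → ℚ)} {j : ℕ} {v : Fin j → Fin (n + 1) → ℤ}
    (h : ZB U j v) (hℓ : (n + 1) * n < ℓ) (hn : 1 ≤ n) (k : ℕ) (hk : ∀ a, X ^ k ∣ toP (v a)) (m : ℕ) :
    ∃ p ≤ (n + 1) * n, ((ℓ : ℝ) ^ m) ^ (j * k) ≤ Ux ℓ v (pt ℓ m p) := by
  have hj : j ≤ n + 1 := h.1.le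
  have hℓn : n < ℓ := by nlinarith
  have hN : ∀ i : ℕ, 0 < i → i ≤ n → ((i : ℕ) : ZMod ℓ) ≠ 0 := by
    intro i hi hin h0
    rw [ZMod.natCast_eq_zero_iff] at h0
    have := Nat.le_of_dvd hi h0
    omega
  obtain ⟨e, he1, he2⟩ := Wf_coeff_A (F := ZMod ℓ) hj hN
    (fun a => (toP (v a)).map (Int.castRingHom (ZMod ℓ))) (indep_zmod h)
    (fun a => natDegree_mapP _) (k := k) (by
      intro a
      have := Polynomial.map_dvd (Int.castRingHom (ZMod ℓ)) (hk a)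
      simpa using this)
  obtain ⟨p, hp1, hp2⟩ := lower_of_coeff v hj hℓ m e he2
  refine ⟨p, hp1, le_trans ?_ hp2⟩
  have hℓ1 : (1 : ℝ) ≤ (ℓ : ℝ) ^ m := one_le_pow₀ (by exact_mod_cast hp.out.one_lt.le)
  exact pow_le_pow_right₀ hℓ1 he1

/-- lower bound when the lattice contains a monic polynomial of degree `n` -/
theorem padicB {U : Submodule ℚ (Fin (n + 1) → ℚ)} {j : ℕ} {v : Fin (j + 1) → Fin (n + 1) → ℤ}
    (h : ZB U (j + 1) v) (hℓ : (n + 1) * n < ℓ) (hn : 1 ≤ n) (c : Fin (j + 1) → ℤ)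
    (hc : (toP (∑ a, c a • v a)).Monic) (hcn : (toP (∑ a, c a • v a)).natDegree = n) (m : ℕ) :
    ∃ p ≤ (n + 1) * n, ((ℓ : ℝ) ^ m) ^ (n - j) ≤ Ux ℓ v (pt ℓ m p) := by
  have hj : j + 1 ≤ n + 1 := h.1.le
  have hℓn : n < ℓ := by nlinarith
  have hN : ∀ i : ℕ, 0 < i → i ≤ n → ((i : ℕ) : ZMod ℓ) ≠ 0 := by
    intro i hi hin h0
    rw [ZMod.natCast_eq_zero_iff] at h0
    have := Nat.le_of_dvd hi h0
    omega
  have hsum : ∑ i, ((c i : ℤ) : ZMod ℓ) • (toP (v i)).map (Int.castRingHom (ZMod ℓ)) =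
      (toP (∑ a, c a • v a)).map (Int.castRingHom (ZMod ℓ)) := by
    rw [toP_sum, Polynomial.map_sum]
    refine Finset.sum_congr rfl (fun i _ => ?_)
    rw [Polynomial.map_mul, map_C, smul_eq_C_mul]; rfl
  obtain ⟨e, he1, he2⟩ := Wf_coeff_B (F := ZMod ℓ) (m := n) hj hN
    (fun a => (toP (v a)).map (Int.castRingHom (ZMod ℓ))) (indep_zmod h)
    (fun a => natDegree_mapP _) (fun a => ((c a : ℤ) : ZMod ℓ)) (by
      rw [hsum, hc.natDegree_map, hcn]) (by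
      rw [hsum]
      exact (hc.map _).ne_zero)
  obtain ⟨p, hp1, hp2⟩ := lower_of_coeff v hj hℓ m e he2
  refine ⟨p, hp1, le_trans ?_ hp2⟩
  have hℓ1 : (1 : ℝ) ≤ (ℓ : ℝ) ^ m := one_le_pow₀ (by exact_mod_cast hp.out.one_lt.le)
  exact pow_le_pow_right₀ hℓ1 he1

end

end Pool.Agent.W71
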