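import Mathlib
import Pool.Agent.W71.Mink
import Pool.Agent.W71.PLower

/-! Real lower bounds near an algebraic integer of degree `n` (type B). -/

set_option autoImplicit false

open Polynomial Set

namespace Pool.Agent.W71

open Pool.Agent.Helper404 (toP castQ Dt IB SB W W_ne_zero W_eq_Dt mu term Nm term_le exists_term
  term_nonneg Nm_nonneg nrm laplace rk rk_strict botS Nm_empty castQ_eq_zero Dt_natDegree
  lagrange_bound)

variable {n : ℕ}

/-- `β` is a root of the monic integer polynomial with coefficient vector `p`, and satisfies a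
Liouville inequality for all other integer polynomials of degree at most `n` -/
structure BetaData (n : ℕ) (β : ℝ) (p : Fin (n + 1) → ℤ) : Prop where
  monic : p (Fin.last n) = 1
  root : hd 0 p β = 0
  liou : ∃ c : ℝ, 0 < c ∧ ∀ u : Fin (n + 1) → ℤ, castQ u ∉ Submodule.span ℚ {castQ p} →
    ∀ H : ℝ, (∀ k : Fin (n + 1), |hd (k : ℕ) u β| ≤ H) → c ≤ |hd 0 u β| * H ^ (n - 1)

/-- the weights of the flow -/
noncomputable def wt (n : ℕ) (t : ℝ) : Fin (n + 1) → ℝ :=
  fun k => if k = 0 then Real.exp (-(n * t)) else Real.exp t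

lemma wt_pos (t : ℝ) (k : Fin (n + 1)) : 0 < wt n t k := by
  unfold wt; split_ifs <;> positivity

lemma wt_zero (t : ℝ) : wt n t 0 = Real.exp (-(n * t)) := by simp [wt]

lemma wt_ne {t : ℝ} {k : Fin (n + 1)} (hk : k ≠ 0) : wt n t k = Real.exp t := by simp [wt, hk]

lemma wt_le {t : ℝ} (ht : 0 ≤ t) (k : Fin (n + 1)) : wt n t k ≤ Real.exp t := by
  unfold wt
  split_ifs
  · apply Real.exp_le_exp.2
    have : 0 ≤ (n : ℝ) * t := by positivity
    linarith
  · exact le_rfl

lemma wt_prod (t : ℝ) : ∏ k, wt n t k = 1 := by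
  rw [Fin.prod_univ_succ, wt_zero]
  have : ∀ i : Fin n, wt n t i.succ = Real.exp t := fun i => wt_ne (Fin.succ_ne_zero i)
  simp only [this, Finset.prod_const, Finset.card_univ, Fintype.card_fin]
  rw [← Real.exp_nat_mul, ← Real.exp_add]
  simp

/-- an independent tuple has positive norm -/
lemma Nm_pos (w : Fin (n + 1) → ℝ) (hw : ∀ k, 0 < w k) {j : ℕ} (v : Fin j → Fin (n + 1) → ℤ)
    (hv : LinearIndependent ℚ (fun a => castQ (v a))) (z : ℝ) : 0 < Nm w v z := by
  rcases (Nm_nonneg w hw v z).lt_or_eq with h | h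
  · exact h
  · exfalso
    obtain ⟨K, hK⟩ := exists_minor v hv
    apply hK
    have h1 : dv v (fun b => (K b : ℕ)) (z + (-z)) = 0 := by
      rw [dv_shift]
      apply Finset.sum_eq_zero
      intro φ _
      have h3 := term_le w v z φ
      rw [← h, term_eq, div_le_iff₀ (Finset.prod_pos (fun _ _ => hw _)), zero_mul] at h3
      rw [abs_nonpos_iff.1 h3, mul_zero]
    rw [add_neg_cancel, dv_zero_int] at h1
    exact_mod_cast h1

/-- lower bound for the covolume away from `p` -/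
lemma delta_lower {β : ℝ} {p : Fin (n + 1) → ℤ} (hn : 1 ≤ n) {c : ℝ} (hc : 0 < c)
    (hliou : ∀ u : Fin (n + 1) → ℤ, castQ u ∉ Submodule.span ℚ {castQ p} →
      ∀ H : ℝ, (∀ k : Fin (n + 1), |hd (k : ℕ) u β| ≤ H) → c ≤ |hd 0 u β| * H ^ (n - 1))
    (w : Fin (n + 1) → ℝ) (hw : ∀ k, 0 < w k) (wm : ℝ) (hwm : ∀ k, w k ≤ wm) {j : ℕ}
    (v : Fin (j + 1) → Fin (n + 1) → ℤ) (hv : LinearIndependent ℚ (fun a => castQ (v a)))
    (hp : castQ p ∉ Submodule.span ℚ (Set.range fun a => castQ (v a))) :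
    ((c / (w 0 * wm ^ (n - 1))) ^ (1 / (n : ℝ)) / (2 * (j + 1))) ^ (j + 1) ≤ Nm w v β := by
  have hΔ := Nm_pos w hw v hv β
  set Δ := Nm w v β with hΔd
  obtain ⟨a, ha0, ha⟩ := mink_tuple w hw v β hΔ
  rw [← hΔd] at ha
  set B : ℝ := (j + 1) * (2 * Δ ^ (1 / ((j + 1 : ℕ) : ℝ))) with hB
  have hBpos : 0 < B := by
    have := Real.rpow_pos_of_pos hΔ (1 / ((j + 1 : ℕ) : ℝ))
    positivity
  have hwm0 : 0 < wm := (hw 0).trans_le (hwm 0)
  set u := ∑ i, a i • v i with hu
  have hcast : castQ u = ∑ i, (a i : ℚ) • castQ (v i) := castQ_sum a v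
  have hu_span : castQ u ∈ Submodule.span ℚ (Set.range fun a => castQ (v a)) := by
    rw [hcast]
    exact Submodule.sum_mem _ (fun i _ => Submodule.smul_mem _ _ (Submodule.subset_span ⟨i, rfl⟩))
  have hu0 : castQ u ≠ 0 := by
    intro h
    rw [hcast] at h
    have := Fintype.linearIndependent_iff.1 hv _ h
    apply ha0
    ext i
    exact_mod_cast this i
  have hu_not : castQ u ∉ Submodule.span ℚ {castQ p} := by
    intro h
    rw [Submodule.mem_span_singleton] at h
    obtain ⟨d, hd⟩ := h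
    have hd0 : d ≠ 0 := by
      rintro rfl
      rw [zero_smul] at hd
      exact hu0 hd.symm
    apply hp
    have : castQ p = d⁻¹ • castQ u := by rw [← hd, smul_smul, inv_mul_cancel₀ hd0, one_smul]
    rw [this]
    exact Submodule.smul_mem _ _ hu_span
  have hbd : ∀ k : Fin (n + 1), |hd (k : ℕ) u β| ≤ w k * B := by
    intro k
    have := ha k
    rw [nrm_eq, div_le_iff₀ (hw k)] at this
    linarith
  have h1 := hliou u hu_not (wm * B) (fun k => (hbd k).trans
    (mul_le_mul_of_nonneg_right (hwm k) hBpos.le))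
  have h2 : c ≤ (w 0 * wm ^ (n - 1)) * B ^ n := by
    have h3 := hbd 0
    rw [Fin.val_zero] at h3
    calc c ≤ |hd 0 u β| * (wm * B) ^ (n - 1) := h1
      _ ≤ (w 0 * B) * (wm * B) ^ (n - 1) := mul_le_mul_of_nonneg_right h3 (by positivity)
      _ = (w 0 * wm ^ (n - 1)) * B ^ n := by
          obtain ⟨m, rfl⟩ : ∃ m, n = m + 1 := ⟨n - 1, by omega⟩
          simp only [Nat.add_sub_cancel]
          rw [mul_pow, pow_succ]; ring
  have hw0 := hw 0
  have h4 : (c / (w 0 * wm ^ (n - 1))) ^ (1 / (n : ℝ)) ≤ B := by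
    have h5 : c / (w 0 * wm ^ (n - 1)) ≤ B ^ n := by
      rw [div_le_iff₀ (by positivity)]; linarith
    calc (c / (w 0 * wm ^ (n - 1))) ^ (1 / (n : ℝ)) ≤ (B ^ n) ^ (1 / (n : ℝ)) :=
          Real.rpow_le_rpow (by positivity) h5 (by positivity)
      _ = B := by
          rw [← Real.rpow_natCast, ← Real.rpow_mul hBpos.le, mul_one_div_cancel (by positivity),
            Real.rpow_one]
  have h6 : (c / (w 0 * wm ^ (n - 1))) ^ (1 / (n : ℝ)) / (2 * (j + 1)) ≤
      Δ ^ (1 / ((j + 1 : ℕ) : ℝ)) := by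
    rw [div_le_iff₀ (by positivity)]
    refine h4.trans (le_of_eq ?_)
    rw [hB]; ring
  calc ((c / (w 0 * wm ^ (n - 1))) ^ (1 / (n : ℝ)) / (2 * (j + 1))) ^ (j + 1)
      ≤ (Δ ^ (1 / ((j + 1 : ℕ) : ℝ))) ^ (j + 1) := by
        apply pow_le_pow_left₀ _ h6
        positivity
    _ = Δ := by
        rw [← Real.rpow_natCast, ← Real.rpow_mul hΔ.le, one_div_mul_cancel (by positivity),
          Real.rpow_one]

lemma hd_last {R : Type*} [CommRing R] (u : Fin (n + 1) → ℤ) (z : R) :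
    hd n u z = (u (Fin.last n) : R) := by
  have h := hd_shift n u (0 : R) z
  rw [zero_add] at h
  rw [h, Finset.sum_eq_single (Fin.last n)]
  · rw [hd_zero]; simp
  · intro b _ hb
    have : (b : ℕ) < n := by
      have h1 := b.2
      have h2 : (b : ℕ) ≠ n := fun h => hb (Fin.ext h)
      omega
    rw [Nat.choose_eq_zero_of_lt this]; simp
  · simp

/-- minors of `cons p v` through the last coordinate -/
lemma dv_cons_last {R : Type*} [CommRing R] {j : ℕ} (p : Fin (n + 1) → ℤ)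
    (v : Fin j → Fin (n + 1) → ℤ) (hp : p (Fin.last n) = 1) (hv : ∀ a, v a (Fin.last n) = 0)
    (e : Fin j → ℕ) (z : R) :
    dv (Fin.cons p v : Fin (j + 1) → Fin (n + 1) → ℤ) (Fin.cons n e : Fin (j + 1) → ℕ) z =
      dv v e z := by
  rw [dv_eq_det, Matrix.det_succ_column_zero, Fin.sum_univ_succ]
  have h1 : ∀ i : Fin j, (-1) ^ ((i.succ : Fin (j + 1)) : ℕ) *
      (Matrix.of fun a b : Fin (j + 1) => hd ((Fin.cons n e : Fin (j + 1) → ℕ) b)
        ((Fin.cons p v : Fin (j + 1) → Fin (n + 1) → ℤ) a) z) i.succ 0 *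
      ((Matrix.of fun a b : Fin (j + 1) => hd ((Fin.cons n e : Fin (j + 1) → ℕ) b)
        ((Fin.cons p v : Fin (j + 1) → Fin (n + 1) → ℤ) a) z).submatrix i.succ.succAbove Fin.succ).det
        = 0 := by
    intro i
    simp only [Matrix.of_apply, Fin.cons_zero, Fin.cons_succ]
    rw [hd_last, hv]; simp
  rw [Finset.sum_eq_zero (fun i _ => h1 i), add_zero, dv_eq_det]
  simp only [Matrix.of_apply, Fin.cons_zero, Fin.val_zero, pow_zero, one_mul]
  rw [hd_last, hp]
  simp only [Int.cast_one, one_mul]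
  rfl

/-- expansion of the minors of `cons p v` through index `0` along `p` -/
lemma dv_cons_zero {R : Type*} [CommRing R] {j : ℕ} (p : Fin (n + 1) → ℤ)
    (v : Fin j → Fin (n + 1) → ℤ) (e : Fin (j + 1) → ℕ) (z : R) :
    dv (Fin.cons p v : Fin (j + 1) → Fin (n + 1) → ℤ) e z =
      ∑ b : Fin (j + 1), (-1) ^ (b : ℕ) * hd (e b) p z * dv v (fun c => e (b.succAbove c)) z := by
  rw [dv_eq_det, Matrix.det_succ_row_zero]
  refine Finset.sum_congr rfl (fun b _ => ?_)
  rw [dv_eq_det]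
  simp only [Matrix.of_apply, Fin.cons_zero]
  congr 2

/-- splitting off `p` -/
lemma ZB_cons {p : Fin (n + 1) → ℤ} (hp1 : p (Fin.last n) = 1)
    (V : Submodule ℚ (Fin (n + 1) → ℚ)) (hpV : castQ p ∈ V) {j : ℕ}
    (v : Fin j → Fin (n + 1) → ℤ)
    (hv : ZB (V ⊓ LinearMap.ker (LinearMap.proj (Fin.last n) : (Fin (n + 1) → ℚ) →ₗ[ℚ] ℚ)) j v) :
    (∀ a, v a (Fin.last n) = 0) ∧
      ZB V (j + 1) (Fin.cons p v : Fin (j + 1) → Fin (n + 1) → ℤ) := by
  set K := LinearMap.ker (LinearMap.proj (Fin.last n) : (Fin (n + 1) → ℚ) →ₗ[ℚ] ℚ) with hK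
  have hcomp : (fun a => castQ ((Fin.cons p v : Fin (j + 1) → Fin (n + 1) → ℤ) a)) =
      (Fin.cons (castQ p) (fun a => castQ (v a)) : Fin (j + 1) → Fin (n + 1) → ℚ) := by
    ext a
    refine Fin.cases ?_ (fun a => ?_) a
    · simp
    · simp
  have hpK : castQ p ∉ K := by
    rw [hK, LinearMap.mem_ker, LinearMap.proj_apply]
    simp [castQ, hp1]
  have hlast : ∀ a, v a (Fin.last n) = 0 := by
    intro a
    have h1 : castQ (v a) ∈ V ⊓ K := by rw [← hv.1.2]; exact Submodule.subset_span ⟨a, rfl⟩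
    have h2 := h1.2
    rw [SetLike.mem_coe, hK, LinearMap.mem_ker, LinearMap.proj_apply] at h2
    simpa [castQ] using h2
  refine ⟨hlast, ⟨⟨?_, ?_⟩, ?_⟩⟩
  · rw [hcomp, linearIndependent_finCons]
    refine ⟨hv.1.1, ?_⟩
    rw [hv.1.2]
    intro h
    exact hpK h.2
  · rw [hcomp, Fin.range_cons, Submodule.span_insert, hv.1.2]
    apply le_antisymm
    · apply sup_le
      · rw [Submodule.span_singleton_le_iff_mem]; exact hpV
      · exact inf_le_left
    · intro x hx
      have h1 : x - (x (Fin.last n)) • castQ p ∈ V ⊓ K := by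
        refine ⟨Submodule.sub_mem _ hx (Submodule.smul_mem _ _ hpV), ?_⟩
        rw [SetLike.mem_coe, hK, LinearMap.mem_ker, LinearMap.proj_apply]
        simp [castQ, hp1]
      have h2 : x = (x (Fin.last n)) • castQ p + (x - (x (Fin.last n)) • castQ p) := by abel
      rw [h2]
      exact Submodule.add_mem_sup (Submodule.smul_mem _ _ (Submodule.mem_span_singleton_self _)) h1
  · intro x hx
    have hcQ : castQ (x - x (Fin.last n) • p) = castQ x - ((x (Fin.last n) : ℤ) : ℚ) • castQ p := by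
      ext i; simp [castQ]
    have h1 : castQ (x - x (Fin.last n) • p) ∈ V ⊓ K := by
      refine ⟨?_, ?_⟩
      · rw [SetLike.mem_coe, hcQ]
        exact Submodule.sub_mem _ hx (Submodule.smul_mem _ _ hpV)
      · rw [SetLike.mem_coe, hK, LinearMap.mem_ker, LinearMap.proj_apply]
        simp [castQ, hp1]
    obtain ⟨c', hc'⟩ := hv.2 _ h1
    refine ⟨(Fin.cons (x (Fin.last n)) c' : Fin (j + 1) → ℤ), ?_⟩
    rw [Fin.sum_univ_succ]
    simp only [Fin.cons_zero, Fin.cons_succ]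
    rw [← hc']; abel

end Pool.Agent.W71
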