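import Mathlib
import Pool.Agent.W71.Beta

/-! Type B lower bounds. -/

set_option autoImplicit false

open Polynomial Set

namespace Pool.Agent.W71

open Pool.Agent.Helper404 (toP castQ Dt IB SB W W_ne_zero W_eq_Dt mu term Nm term_le exists_term
  term_nonneg Nm_nonneg nrm laplace rk rk_strict botS Nm_empty castQ_eq_zero Dt_natDegree
  lagrange_bound)

variable {n : ℕ}

/-- the derivative is nonzero at `β` -/
lemma BetaData.deriv_ne {β : ℝ} {p : Fin (n + 1) → ℤ} (h : BetaData n β p) (hn : 1 ≤ n) :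
    hd 1 p β ≠ 0 := by
  obtain ⟨c, hc, hl⟩ := h.liou
  set u : Fin (n + 1) → ℤ := fun i => if h : (i : ℕ) + 1 < n + 1 then
    (((i : ℕ) + 1 : ℕ) : ℤ) * p ⟨(i : ℕ) + 1, h⟩ else 0 with hu
  have hulast : u (Fin.last n) = 0 := by simp [hu]
  have hu' : toP u = hasseDeriv 1 (toP p) := by
    ext i
    rw [hasseDeriv_coeff]
    by_cases hi : i < n + 1
    · rw [toP_coeff' u i hi]
      by_cases hi2 : i + 1 < n + 1
      · rw [toP_coeff' p (i + 1) hi2]
        have h7 : u ⟨i, hi⟩ = (((i : ℕ) + 1 : ℕ) : ℤ) * p ⟨i + 1, hi2⟩ := by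
          simp only [hu]
          rw [dif_pos hi2]
        rw [h7]
        simp
      · have h1 : (toP p).coeff (i + 1) = 0 :=
          coeff_eq_zero_of_natDegree_lt (lt_of_le_of_lt (Pool.Agent.Helper404.toP_natDegree p) (by omega))
        have h7 : u ⟨i, hi⟩ = 0 := by
          simp only [hu]
          rw [dif_neg hi2]
        rw [h1, h7, mul_zero]
    · have h1 : (toP p).coeff (i + 1) = 0 :=
        coeff_eq_zero_of_natDegree_lt (lt_of_le_of_lt (Pool.Agent.Helper404.toP_natDegree p) (by omega))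
      have h2 : (toP u).coeff i = 0 :=
        coeff_eq_zero_of_natDegree_lt (lt_of_le_of_lt (Pool.Agent.Helper404.toP_natDegree u) (by omega))
      rw [h1, h2, mul_zero]
  have hne : castQ u ∉ Submodule.span ℚ {castQ p} := by
    intro hmem
    rw [Submodule.mem_span_singleton] at hmem
    obtain ⟨d, hd⟩ := hmem
    have h1 := congrFun hd (Fin.last n)
    simp only [Pi.smul_apply, castQ, h.monic, hulast, smul_eq_mul] at h1
    have hd0 : d = 0 := by simpa using h1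
    rw [hd0, zero_smul] at hd
    have h2 := congrFun hd (⟨n - 1, by omega⟩ : Fin (n + 1))
    simp only [Pi.zero_apply, castQ, hu] at h2
    have h3 : n - 1 + 1 < n + 1 := by omega
    rw [dif_pos h3] at h2
    have h4 : (⟨n - 1 + 1, h3⟩ : Fin (n + 1)) = Fin.last n := by
      ext; simp; omega
    rw [h4, h.monic, mul_one] at h2
    have h5 : ((n - 1 : ℕ) : ℚ) + 1 = 0 := by
      push_cast at h2
      linarith
    have h6 : (0 : ℚ) ≤ ((n - 1 : ℕ) : ℚ) := Nat.cast_nonneg _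
    linarith
  obtain ⟨H, hH⟩ : ∃ H : ℝ, ∀ k : Fin (n + 1), |hd (k : ℕ) u β| ≤ H := by
    refine ⟨∑ k : Fin (n + 1), |hd (k : ℕ) u β|, fun k => ?_⟩
    exact Finset.single_le_sum (f := fun k : Fin (n + 1) => |hd (k : ℕ) u β|)
      (fun _ _ => abs_nonneg _) (Finset.mem_univ k)
  have h1 := hl u hne H hH
  have h2 : hd 0 u β = hd 1 p β := by
    unfold hd
    rw [hu', hasseDeriv_zero']
  intro h0
  rw [h2, h0, abs_zero, zero_mul] at h1
  linarith

/-- lower bound for `p` near `β` -/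
lemma BetaData.near {β : ℝ} {p : Fin (n + 1) → ℤ} (h : BetaData n β p) (hn : 1 ≤ n) :
    ∃ c r0 : ℝ, 0 < c ∧ 0 < r0 ∧ ∀ r : ℝ, 0 < r → r ≤ r0 → ∀ z ∈ Ico (β + r) (β + r + r),
      c * r ≤ |hd 0 p z| := by
  set P : ℝ[X] := (toP p).map (Int.castRingHom ℝ) with hP
  have hroot : P.eval β = 0 := by
    have := h.root
    unfold hd at this
    rwa [hasseDeriv_zero'] at this
  obtain ⟨Q, hQ⟩ := dvd_iff_isRoot.2 (show P.IsRoot β from hroot)
  have hQβ : Q.eval β = hd 1 p β := by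
    have h1 : hd 1 p β = (derivative P).eval β := by
      unfold hd
      rw [hasseDeriv_one', derivative_map]
    rw [h1, hQ, derivative_mul]
    simp
  have hQ0 : Q.eval β ≠ 0 := by rw [hQβ]; exact h.deriv_ne hn
  have hcont : Continuous fun z => |Q.eval z| := Q.continuous.abs
  have hpos : |Q.eval β| / 2 < |Q.eval β| := by
    have := abs_pos.2 hQ0
    linarith
  obtain ⟨δ, hδ, hball⟩ := Metric.isOpen_iff.1 (isOpen_lt continuous_const hcont) β hpos
  refine ⟨|Q.eval β| / 2, δ / 3, by have := abs_pos.2 hQ0; linarith, by positivity, ?_⟩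
  intro r hr hr0 z hz
  have h1 : hd 0 p z = (z - β) * Q.eval z := by
    unfold hd
    rw [hasseDeriv_zero']
    change P.eval z = _
    rw [hQ]; simp
  have h2 : |Q.eval β| / 2 < |Q.eval z| := by
    apply hball
    rw [Metric.mem_ball, Real.dist_eq, abs_lt]
    constructor <;> linarith [hz.1, hz.2]
  have h3 : r ≤ |z - β| := by
    rw [abs_of_nonneg (by linarith [hz.1])]
    linarith [hz.1]
  rw [h1, abs_mul]
  calc |Q.eval β| / 2 * r ≤ |Q.eval z| * |z - β| :=
        mul_le_mul h2.le h3 hr.le (abs_nonneg _)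
    _ = _ := mul_comm _ _

lemma BetaData.upper (β : ℝ) (p : Fin (n + 1) → ℤ) :
    ∃ C : ℝ, 1 ≤ C ∧ ∀ z ∈ Icc β (β + 2), ∀ k : Fin (n + 1), |hd (k : ℕ) p z| ≤ C := by
  have h1 : ∀ k : Fin (n + 1), ∃ C : ℝ, ∀ z ∈ Icc β (β + 2), |hd (k : ℕ) p z| ≤ C := by
    intro k
    have hc : Continuous fun z : ℝ => hd (k : ℕ) p z := Polynomial.continuous _
    obtain ⟨C, hC⟩ := isCompact_Icc.exists_bound_of_continuousOn (s := Icc β (β + 2)) hc.continuousOn
    exact ⟨C, fun z hz => by simpa using hC z hz⟩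
  choose C hC using h1
  refine ⟨1 + ∑ k, |C k|, ?_, ?_⟩
  · have : 0 ≤ ∑ k, |C k| := Finset.sum_nonneg (fun _ _ => abs_nonneg _)
    linarith
  · intro z hz k
    have h2 := hC k z hz
    have h3 : |C k| ≤ ∑ k, |C k| := Finset.single_le_sum (f := fun k => |C k|)
      (fun _ _ => abs_nonneg _) (Finset.mem_univ k)
    linarith [le_abs_self (C k)]

/-- auxiliary weights -/
noncomputable def wr (n : ℕ) (r : ℝ) : Fin (n + 1) → ℝ := fun k => if k = 0 then r else 1

lemma wr_pos {r : ℝ} (hr : 0 < r) (k : Fin (n + 1)) : 0 < wr n r k := by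
  unfold wr; split_ifs
  · exact hr
  · exact one_pos

lemma not_mem_span {p : Fin (n + 1) → ℤ} (hp1 : p (Fin.last n) = 1) {j : ℕ}
    (v : Fin j → Fin (n + 1) → ℤ) (hlast : ∀ a, v a (Fin.last n) = 0) :
    castQ p ∉ Submodule.span ℚ (Set.range fun a => castQ (v a)) := by
  intro h
  have h1 : Submodule.span ℚ (Set.range fun a => castQ (v a)) ≤
      LinearMap.ker (LinearMap.proj (Fin.last n) : (Fin (n + 1) → ℚ) →ₗ[ℚ] ℚ) := by
    rw [Submodule.span_le]
    rintro _ ⟨a, rfl⟩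
    rw [SetLike.mem_coe, LinearMap.mem_ker, LinearMap.proj_apply]
    simp [castQ, hlast a]
  have h2 := h1 h
  rw [LinearMap.mem_ker, LinearMap.proj_apply] at h2
  simp [castQ, hp1] at h2

/-- uniform constant in `delta_lower` -/
lemma delta_uniform {β : ℝ} {p : Fin (n + 1) → ℤ} (h : BetaData n β p) (hn : 1 ≤ n) :
    ∃ c1 : ℝ, 0 < c1 ∧ c1 ≤ 1 ∧
      (∀ (j : ℕ) (v : Fin j → Fin (n + 1) → ℤ), j ≤ n → LinearIndependent ℚ (fun a => castQ (v a)) →
        castQ p ∉ Submodule.span ℚ (Set.range fun a => castQ (v a)) → ∀ t : ℝ, 0 ≤ t →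
        (c1 * Real.exp (t / n)) ^ j ≤ Nm (wt n t) v β) ∧
      (∀ (j : ℕ) (v : Fin j → Fin (n + 1) → ℤ), j ≤ n → LinearIndependent ℚ (fun a => castQ (v a)) →
        castQ p ∉ Submodule.span ℚ (Set.range fun a => castQ (v a)) → ∀ r : ℝ, 0 < r → r ≤ 1 →
        (c1 * r ^ (-(1 / (n : ℝ)))) ^ j ≤ Nm (wr n r) v β) := by
  obtain ⟨c, hc, hl⟩ := h.liou
  have hn0 : (0 : ℝ) < n := by exact_mod_cast hn
  set c0 : ℝ := c ^ (1 / (n : ℝ)) with hc0
  have hc0pos : 0 < c0 := Real.rpow_pos_of_pos hc _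
  set c1 : ℝ := min 1 (c0 / (2 * (n + 1))) with hc1
  have hc1pos : 0 < c1 := lt_min one_pos (by positivity)
  have hc1le : c1 ≤ c0 / (2 * (n + 1)) := min_le_right _ _
  have key : ∀ (w : Fin (n + 1) → ℝ), (∀ k, 0 < w k) → ∀ wm : ℝ, (∀ k, w k ≤ wm) → 0 < wm →
      ∀ x : ℝ, 0 < x → (w 0 * wm ^ (n - 1))⁻¹ ^ (1 / (n : ℝ)) = x →
      ∀ (j : ℕ) (v : Fin j → Fin (n + 1) → ℤ), j ≤ n → LinearIndependent ℚ (fun a => castQ (v a)) →
        castQ p ∉ Submodule.span ℚ (Set.range fun a => castQ (v a)) →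
        (c1 * x) ^ j ≤ Nm w v β := by
    intro w hw wm hwm hwm0 x hx hxe j v hj hv hpv
    rcases Nat.eq_zero_or_pos j with h0 | hjpos
    · subst h0
      rw [pow_zero, Nm_empty]
    · obtain ⟨j', rfl⟩ : ∃ j', j = j' + 1 := ⟨j - 1, by omega⟩
      have h1 := delta_lower hn hc hl w hw wm hwm v hv hpv
      refine le_trans ?_ h1
      apply pow_le_pow_left₀ (by positivity)
      have h2 : (c / (w 0 * wm ^ (n - 1))) ^ (1 / (n : ℝ)) = c0 * x := by
        have := hw 0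
        rw [div_eq_mul_inv, Real.mul_rpow hc.le (by positivity), hxe]
      rw [h2]
      calc c1 * x ≤ c0 / (2 * (n + 1)) * x := mul_le_mul_of_nonneg_right hc1le hx.le
        _ = (c0 * x) / (2 * (n + 1)) := by ring
        _ ≤ (c0 * x) / (2 * ((j' : ℝ) + 1)) := by
            apply div_le_div_of_nonneg_left (by positivity) (by positivity)
            have : (j' : ℝ) + 1 ≤ n + 1 := by
              have : ((j' + 1 : ℕ) : ℝ) ≤ n := by exact_mod_cast hj
              push_cast at this; linarith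
            linarith
  refine ⟨c1, hc1pos, min_le_left _ _, ?_, ?_⟩
  · intro j v hj hv hpv t ht
    apply key (wt n t) (wt_pos t) (Real.exp t) (wt_le ht) (Real.exp_pos t) _ (Real.exp_pos _) _
      j v hj hv hpv
    rw [wt_zero, ← Real.exp_nat_mul, ← Real.exp_add, ← Real.exp_neg, ← Real.exp_mul]
    congr 1
    have : ((n - 1 : ℕ) : ℝ) = (n : ℝ) - 1 := by
      rw [Nat.cast_sub hn]; simp
    rw [this]
    field_simp
    ring
  · intro j v hj hv hpv r hr hr1
    apply key (wr n r) (wr_pos hr) 1 (by intro k; unfold wr; split_ifs <;> linarith) one_pos _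
      (Real.rpow_pos_of_pos hr _) _ j v hj hv hpv
    rw [one_pow, mul_one]
    have : wr n r 0 = r := by simp [wr]
    rw [this, Real.rpow_neg hr.le, Real.inv_rpow hr.le]

lemma hlast_wt (hn : 1 ≤ n) (t : ℝ) : wt n t (Fin.last n) = Real.exp t := by
  apply wt_ne
  intro h
  have := congrArg (fun x : Fin (n + 1) => (x : ℕ)) h
  simp at this
  omega

lemma cons_coe {j : ℕ} (k : Fin (n + 1)) (I : Fin j → Fin (n + 1)) :
    (fun b : Fin (j + 1) => (((Fin.cons k I : Fin (j + 1) → Fin (n + 1)) b : Fin (n + 1)) : ℕ)) =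
      (Fin.cons (k : ℕ) (fun b => (I b : ℕ)) : Fin (j + 1) → ℕ) := by
  ext b
  refine Fin.cases ?_ (fun b => ?_) b
  · simp
  · simp

/-- first type B bound -/
lemma typeB_one {β : ℝ} {p : Fin (n + 1) → ℤ} (h : BetaData n β p) (hn : 1 ≤ n) :
    ∃ c : ℝ, 0 < c ∧ ∀ (j : ℕ) (v : Fin j → Fin (n + 1) → ℤ), j ≤ n →
      LinearIndependent ℚ (fun a => castQ (v a)) → (∀ a, v a (Fin.last n) = 0) →
      ∀ t : ℝ, 0 ≤ t → ∀ r : ℝ, 0 < r → ∃ z ∈ Ico (β + r) (β + r + r),
        c * Real.exp (-(((n : ℝ) - j) * t / n)) ≤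
          Nm (wt n t) (Fin.cons p v : Fin (j + 1) → Fin (n + 1) → ℤ) z := by
  obtain ⟨c1, hc1, hc1', hW, -⟩ := delta_uniform h hn
  have hn0 : (0 : ℝ) < n := by exact_mod_cast hn
  refine ⟨c1 ^ n / CD ((n + 1) * n), by have := CD_pos ((n + 1) * n); positivity, ?_⟩
  intro j v hj hv hlast t ht r hr
  have h1 := hW j v hj hv (not_mem_span h.monic v hlast) t ht
  obtain ⟨I, hI⟩ := exists_term (wt n t) v β
  rw [hI, term_eq] at h1
  obtain ⟨z, hz, h2⟩ := Nm_near (wt n t) (wt_pos t)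
    (Fin.cons p v : Fin (j + 1) → Fin (n + 1) → ℤ) (by omega)
    (Fin.cons (Fin.last n) I : Fin (j + 1) → Fin (n + 1)) β r hr
  refine ⟨z, hz, ?_⟩
  rw [cons_coe, Fin.val_last, dv_cons_last p v h.monic hlast, Fin.prod_univ_succ] at h2
  simp only [Fin.cons_zero, Fin.cons_succ] at h2
  rw [hlast_wt hn] at h2
  have hCD := CD_pos ((n + 1) * n)
  have h3 : (c1 * Real.exp (t / n)) ^ j * (Real.exp t)⁻¹ ≤
      CD ((n + 1) * n) * Nm (wt n t) (Fin.cons p v : Fin (j + 1) → Fin (n + 1) → ℤ) z := by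
    refine le_trans ?_ h2
    have hpos : 0 < ∏ b, wt n t (I b) := Finset.prod_pos (fun _ _ => wt_pos t _)
    calc (c1 * Real.exp (t / n)) ^ j * (Real.exp t)⁻¹
        ≤ (|dv v (fun b => (I b : ℕ)) β| / ∏ b, wt n t (I b)) * (Real.exp t)⁻¹ :=
          mul_le_mul_of_nonneg_right h1 (by positivity)
      _ = _ := by field_simp
  have h4 : c1 ^ n * Real.exp (-(((n : ℝ) - j) * t / n)) ≤
      (c1 * Real.exp (t / n)) ^ j * (Real.exp t)⁻¹ := by
    rw [mul_pow, ← Real.exp_nat_mul, ← Real.exp_neg, mul_assoc, ← Real.exp_add]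
    have e1 : (j : ℝ) * (t / n) + -t = -(((n : ℝ) - j) * t / n) := by field_simp; ring
    rw [e1]
    exact mul_le_mul_of_nonneg_right (pow_le_pow_of_le_one hc1.le hc1' hj) (Real.exp_pos _).le
  calc c1 ^ n / CD ((n + 1) * n) * Real.exp (-(((n : ℝ) - j) * t / n))
      = (c1 ^ n * Real.exp (-(((n : ℝ) - j) * t / n))) / CD ((n + 1) * n) := by ring
    _ ≤ (CD ((n + 1) * n) * Nm (wt n t) (Fin.cons p v : Fin (j + 1) → Fin (n + 1) → ℤ) z) /
        CD ((n + 1) * n) := div_le_div_of_nonneg_right (h4.trans h3) hCD.le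
    _ = _ := by field_simp

end Pool.Agent.W71
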