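import Mathlib
import Pool.Agent.W71.TypeB
import Pool.Agent.W71.Trans

/-! Existence of a suitable algebraic integer of every degree. -/

set_option autoImplicit false

open Polynomial Set

namespace Pool.Agent.W71

open Pool.Agent.Helper404 (toP castQ toP_natDegree)

variable {n : ℕ}

/-- the polynomial `X ^ n - 2` -/
noncomputable def fZ (n : ℕ) : ℤ[X] := X ^ n - C 2

/-- its coefficient vector -/
noncomputable def pZ (n : ℕ) : Fin (n + 1) → ℤ := fun i => (fZ n).coeff i

lemma fZ_monic (hn : 1 ≤ n) : (fZ n).Monic := by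
  unfold fZ
  exact monic_X_pow_sub_C _ (by omega)

lemma fZ_natDegree : (fZ n).natDegree = n := by
  unfold fZ
  exact natDegree_X_pow_sub_C

lemma fZ_irr (hn : 1 ≤ n) : Irreducible (fZ n) := by
  have h2 : Prime (2 : ℤ) := Int.prime_two
  apply irreducible_of_eisenstein_criterion (P := Ideal.span {(2 : ℤ)})
  · rw [Ideal.span_singleton_prime (by norm_num)]; exact h2
  · rw [(fZ_monic hn).leadingCoeff, Ideal.mem_span_singleton]
    exact fun h => by norm_num at h
  · intro k hk
    have hk' : k < n := by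
      have h1 := hk.trans_le degree_le_natDegree
      rw [fZ_natDegree] at h1
      exact_mod_cast h1
    rw [Ideal.mem_span_singleton]
    unfold fZ
    rw [coeff_sub, coeff_X_pow, if_neg hk'.ne, coeff_C]
    split_ifs <;> simp
  · rw [← natDegree_pos_iff_degree_pos, fZ_natDegree]; omega
  · unfold fZ
    rw [coeff_sub, coeff_X_pow, if_neg (by omega), coeff_C_zero, Ideal.span_singleton_pow,
      Ideal.mem_span_singleton]
    intro h
    norm_num at h
  · exact (fZ_monic hn).isPrimitive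

/-- rational version -/
noncomputable def fQ (n : ℕ) : ℚ[X] := (fZ n).map (Int.castRingHom ℚ)

lemma fQ_irr (hn : 1 ≤ n) : Irreducible (fQ n) :=
  (IsPrimitive.Int.irreducible_iff_irreducible_map_cast (fZ_monic hn).isPrimitive).1 (fZ_irr hn)

lemma fQ_monic (hn : 1 ≤ n) : (fQ n).Monic := (fZ_monic hn).map _

lemma fQ_natDegree (hn : 1 ≤ n) : (fQ n).natDegree = n := by
  unfold fQ
  rw [(fZ_monic hn).natDegree_map, fZ_natDegree]

/-- the norm inequality -/
lemma norm_lower (hn : 1 ≤ n) (β : ℝ) (hβ : β ^ n = 2) (U : ℤ[X])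
    (hU : ¬ fQ n ∣ U.map (Int.castRingHom ℚ)) (H : ℝ) (hH : ∀ i, |(U.coeff i : ℝ)| ≤ H)
    (hdeg : U.natDegree ≤ n) :
    1 ≤ |(U.map (Int.castRingHom ℝ)).eval β| * (((n : ℝ) + 1) * 2 ^ n * H) ^ (n - 1) := by
  classical
  have hirr := fQ_irr hn
  have : Fact (Irreducible (fQ n)) := ⟨hirr⟩
  set pb := AdjoinRoot.powerBasis hirr.ne_zero with hpb
  have : FiniteDimensional ℚ (AdjoinRoot (fQ n)) := pb.finite
  have hH0 : 0 ≤ H := (abs_nonneg _).trans (hH 0)
  set x : AdjoinRoot (fQ n) := aeval (AdjoinRoot.root (fQ n)) U with hx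
  have hxmk : x = AdjoinRoot.mk (fQ n) (U.map (Int.castRingHom ℚ)) := by
    rw [hx, AdjoinRoot.aeval_eq_of_algebra]; rfl
  have hx0 : x ≠ 0 := by
    rw [hxmk, Ne, AdjoinRoot.mk_eq_zero]; exact hU
  have hroot0 : aeval (AdjoinRoot.root (fQ n)) (fZ n) = 0 := by
    rw [AdjoinRoot.aeval_eq_of_algebra]
    exact AdjoinRoot.mk_self
  have hrootint : IsIntegral ℤ (AdjoinRoot.root (fQ n)) := by
    refine ⟨fZ n, fZ_monic hn, ?_⟩
    rw [← aeval_def]; exact hroot0
  have hxint : IsIntegral ℤ x := adjoin_le_integralClosure hrootint (aeval_mem_adjoin_singleton ℤ _)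
  have hnint := Algebra.isIntegral_norm ℚ hxint
  obtain ⟨y, hy⟩ := IsIntegrallyClosed.isIntegral_iff.1 hnint
  have hy0 : y ≠ 0 := by
    rintro rfl
    rw [map_zero] at hy
    exact hx0 (Algebra.norm_eq_zero_iff.1 hy.symm)
  have hprod := Algebra.norm_eq_prod_embeddings ℚ ℂ x
  rw [← hy] at hprod
  have hnorm : (1 : ℝ) ≤ ∏ σ : AdjoinRoot (fQ n) →ₐ[ℚ] ℂ, ‖σ x‖ := by
    rw [← norm_prod, ← hprod]
    have h1 : (algebraMap ℚ ℂ) ((algebraMap ℤ ℚ) y) = ((y : ℤ) : ℂ) := by simp
    rw [h1, Complex.norm_intCast]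
    have h2 : (1 : ℤ) ≤ |y| := Int.one_le_abs hy0
    exact_mod_cast h2
  have hkey : ∀ (σ : AdjoinRoot (fQ n) →ₐ[ℚ] ℂ) (V : ℤ[X]),
      aeval (σ (AdjoinRoot.root (fQ n))) V = σ (aeval (AdjoinRoot.root (fQ n)) V) := by
    intro σ V
    exact aeval_algHom_apply (σ.restrictScalars ℤ) (AdjoinRoot.root (fQ n)) V
  have hbound : ∀ σ : AdjoinRoot (fQ n) →ₐ[ℚ] ℂ, ‖σ x‖ ≤ ((n : ℝ) + 1) * 2 ^ n * H := by
    intro σ
    set z := σ (AdjoinRoot.root (fQ n)) with hz
    have hzn : z ^ n = 2 := by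
      have h1 : aeval z (fZ n) = 0 := by
        rw [hz, hkey, hroot0, map_zero]
      unfold fZ at h1
      simp only [map_sub, map_pow, aeval_X, aeval_C] at h1
      have h2 : (algebraMap ℤ ℂ) 2 = 2 := by simp
      rw [h2] at h1
      exact sub_eq_zero.1 h1
    have hz2 : ‖z‖ ≤ 2 := by
      by_contra hcon
      push Not at hcon
      have h1 : ‖z‖ ^ n = 2 := by rw [← norm_pow, hzn]; simp
      have h2 : ‖z‖ ^ 1 ≤ ‖z‖ ^ n := pow_le_pow_right₀ (by linarith) hn
      rw [pow_one] at h2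
      linarith
    have hσx : σ x = aeval z U := by
      rw [hx, hz, hkey]
    rw [hσx, aeval_eq_sum_range' (n := n + 1) (by omega)]
    refine (norm_sum_le _ _).trans ?_
    calc ∑ i ∈ Finset.range (n + 1), ‖U.coeff i • z ^ i‖
        ≤ ∑ i ∈ Finset.range (n + 1), H * 2 ^ n := by
          refine Finset.sum_le_sum (fun i hi => ?_)
          rw [Finset.mem_range] at hi
          rw [zsmul_eq_mul, norm_mul, norm_pow, Complex.norm_intCast]
          apply mul_le_mul (hH i) _ (by positivity) hH0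
          calc ‖z‖ ^ i ≤ 2 ^ i := pow_le_pow_left₀ (norm_nonneg _) hz2 _
            _ ≤ 2 ^ n := pow_le_pow_right₀ (by norm_num) (by omega)
      _ = _ := by rw [Finset.sum_const, Finset.card_range, nsmul_eq_mul]; push_cast; ring
  -- the real embedding
  have heval : eval₂ (Algebra.ofId ℚ ℂ : ℚ →+* ℂ) (β : ℂ) (fQ n) = 0 := by
    have h1 : aeval (β : ℂ) (fZ n) = 0 := by
      unfold fZ
      simp only [map_sub, map_pow, aeval_X, aeval_C]
      have h2 : ((β : ℂ)) ^ n = 2 := by exact_mod_cast hβ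
      rw [h2]; simp
    have h2 : eval₂ (Algebra.ofId ℚ ℂ : ℚ →+* ℂ) (β : ℂ) (fQ n) = aeval (β : ℂ) (fZ n) := by
      unfold fQ
      rw [eval₂_map, aeval_def]
      congr 1
    rw [h2, h1]
  set σ0 : AdjoinRoot (fQ n) →ₐ[ℚ] ℂ := AdjoinRoot.liftAlgHom (fQ n) (Algebra.ofId ℚ ℂ) (β : ℂ) heval
    with hσ0
  have hσ0x : ‖σ0 x‖ = |(U.map (Int.castRingHom ℝ)).eval β| := by
    have h0 : σ0 (AdjoinRoot.root (fQ n)) = (β : ℂ) := by
      rw [hσ0]; exact AdjoinRoot.liftAlgHom_root _ _ _ _
    rw [hx, ← hkey, h0]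
    have h1 : aeval (β : ℂ) U = (((U.map (Int.castRingHom ℝ)).eval β : ℝ) : ℂ) := by
      have h2 := hom_eval₂ U (Int.castRingHom ℝ) Complex.ofRealHom β
      rw [eval_map]
      change _ = Complex.ofRealHom (eval₂ (Int.castRingHom ℝ) β U)
      rw [h2, aeval_def]
      have h3 : algebraMap ℤ ℂ = Complex.ofRealHom.comp (Int.castRingHom ℝ) :=
        RingHom.ext_int _ _
      rw [h3]
      rfl
    rw [h1, Complex.norm_real, Real.norm_eq_abs]
  have hcard : (Finset.univ.erase σ0).card = n - 1 := by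
    rw [Finset.card_erase_of_mem (Finset.mem_univ _), Finset.card_univ,
      AlgHom.card, pb.finrank, AdjoinRoot.powerBasis_dim, fQ_natDegree hn]
  have hfinal : ∏ σ : AdjoinRoot (fQ n) →ₐ[ℚ] ℂ, ‖σ x‖ ≤
      |(U.map (Int.castRingHom ℝ)).eval β| * (((n : ℝ) + 1) * 2 ^ n * H) ^ (n - 1) := by
    rw [← Finset.mul_prod_erase Finset.univ _ (Finset.mem_univ σ0), hσ0x]
    apply mul_le_mul_of_nonneg_left _ (abs_nonneg _)
    calc ∏ σ ∈ Finset.univ.erase σ0, ‖σ x‖ ≤
        ∏ σ ∈ Finset.univ.erase σ0, (((n : ℝ) + 1) * 2 ^ n * H) :=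
          Finset.prod_le_prod (fun σ _ => norm_nonneg _) (fun σ _ => hbound σ)
      _ = _ := by rw [Finset.prod_const, hcard]
  exact hnorm.trans hfinal

lemma toP_pZ : toP (pZ n) = fZ n := by
  ext i
  by_cases hi : i < n + 1
  · rw [toP_coeff' _ i hi]; rfl
  · rw [coeff_eq_zero_of_natDegree_lt, coeff_eq_zero_of_natDegree_lt]
    · rw [fZ_natDegree]; omega
    · have := toP_natDegree (pZ n)
      omega

/-- the real number `2 ^ (1 / n)` -/
noncomputable def rt (n : ℕ) : ℝ := (2 : ℝ) ^ (1 / (n : ℝ))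

lemma rt_pow (hn : 1 ≤ n) : rt n ^ n = 2 := by
  unfold rt
  rw [one_div]
  exact Real.rpow_inv_natCast_pow (by norm_num) (by omega)

lemma rt_pos (n : ℕ) : 0 < rt n := by unfold rt; positivity

lemma rt_le (hn : 1 ≤ n) : rt n ≤ 2 := by
  by_contra hcon
  push Not at hcon
  have h2 : rt n ^ 1 ≤ rt n ^ n := pow_le_pow_right₀ (by linarith) hn
  rw [pow_one, rt_pow hn] at h2
  linarith

theorem betaData (hn : 1 ≤ n) : BetaData n (rt n) (pZ n) := by
  refine ⟨?_, ?_, ?_⟩
  · change (fZ n).coeff ((Fin.last n : Fin (n + 1)) : ℕ) = 1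
    rw [Fin.val_last]
    have h1 := (fZ_monic hn).coeff_natDegree
    rwa [fZ_natDegree] at h1
  · unfold hd
    rw [toP_pZ, hasseDeriv_zero]
    simp only [LinearMap.id_coe, id_eq]
    unfold fZ
    simp only [Polynomial.map_sub, Polynomial.map_pow, map_X, map_C, eval_sub, eval_pow, eval_X,
      eval_C]
    rw [rt_pow hn]; simp
  · set C0 : ℝ := (n + 1) * (2 ^ n * 2 ^ n) with hC0
    have hC00 : 0 < C0 := by positivity
    set K : ℝ := ((n : ℝ) + 1) * 2 ^ n * C0 with hK
    have hK0 : 0 < K := by positivity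
    refine ⟨(K ^ (n - 1))⁻¹, by positivity, ?_⟩
    intro u hu H hH
    have hH0 : 0 ≤ H := (abs_nonneg _).trans (hH 0)
    have hcoef : ∀ i, |((toP u).coeff i : ℝ)| ≤ C0 * H := by
      intro i
      by_cases hi : i < n + 1
      · rw [toP_coeff' _ i hi]
        have h1 := hd_shift i u (rt n) (-(rt n))
        rw [add_neg_cancel] at h1
        have h2 : hd i u (0 : ℝ) = (u ⟨i, hi⟩ : ℝ) := hd_zero ⟨i, hi⟩ u
        rw [← h2, h1]
        refine (Finset.abs_sum_le_sum_abs _ _).trans ?_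
        calc ∑ l : Fin (n + 1), |hd (l : ℕ) u (rt n) * ((((l : ℕ).choose i : ℕ) : ℝ) *
              (-(rt n)) ^ ((l : ℕ) - i))| ≤ ∑ _l : Fin (n + 1), H * (2 ^ n * 2 ^ n) := by
              refine Finset.sum_le_sum (fun l _ => ?_)
              rw [abs_mul, abs_mul, abs_pow, abs_neg, Nat.abs_cast, abs_of_pos (rt_pos n)]
              apply mul_le_mul (hH l) _ (by have := rt_pos n; positivity) hH0
              apply mul_le_mul _ _ (by have := rt_pos n; positivity) (by positivity)
              · have h1 : (l : ℕ).choose i ≤ 2 ^ n :=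
                  (Nat.choose_le_two_pow l i).trans (Nat.pow_le_pow_right (by norm_num)
                    (by have := l.2; omega))
                exact_mod_cast h1
              · calc rt n ^ ((l : ℕ) - i) ≤ 2 ^ ((l : ℕ) - i) :=
                    pow_le_pow_left₀ (rt_pos n).le (rt_le hn) _
                  _ ≤ 2 ^ n := pow_le_pow_right₀ (by norm_num) (by have := l.2; omega)
          _ = C0 * H := by
              rw [Finset.sum_const, Finset.card_univ, Fintype.card_fin, nsmul_eq_mul, hC0]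
              push_cast; ring
      · rw [coeff_eq_zero_of_natDegree_lt]
        · simp only [Int.cast_zero, abs_zero]; positivity
        · have := toP_natDegree u
          omega
    have hndvd : ¬ fQ n ∣ (toP u).map (Int.castRingHom ℚ) := by
      rintro ⟨g, hg⟩
      apply hu
      rw [Submodule.mem_span_singleton]
      by_cases hg0 : g = 0
      · refine ⟨0, ?_⟩
        rw [hg0, mul_zero] at hg
        ext i
        have h1 := congrArg (fun f => f.coeff (i : ℕ)) hg
        simp only [coeff_map, toP_coeff, coeff_zero] at h1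
        simp only [zero_smul, Pi.zero_apply, castQ]
        exact h1.symm
      · have h1 : ((toP u).map (Int.castRingHom ℚ)).natDegree ≤ n :=
          natDegree_map_le.trans (toP_natDegree u)
        rw [hg, (fQ_monic hn).natDegree_mul' hg0, fQ_natDegree hn] at h1
        have h2 : g.natDegree = 0 := by omega
        obtain ⟨a, rfl⟩ := natDegree_eq_zero.1 h2
        refine ⟨a, ?_⟩
        ext i
        have h1 := congrArg (fun f => f.coeff (i : ℕ)) hg
        simp only [coeff_map, toP_coeff, coeff_mul_C] at h1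
        have h3 : (fQ n).coeff (i : ℕ) = (pZ n i : ℚ) := by
          unfold fQ pZ; rw [coeff_map]; rfl
        rw [h3] at h1
        simp only [Pi.smul_apply, castQ, smul_eq_mul]
        rw [mul_comm]
        exact h1.symm
    have h1 := norm_lower hn (rt n) (rt_pow hn) (toP u) hndvd (C0 * H) hcoef (toP_natDegree u)
    have h2 : hd 0 u (rt n) = ((toP u).map (Int.castRingHom ℝ)).eval (rt n) := by
      unfold hd
      rw [hasseDeriv_zero]; rfl
    rw [← h2] at h1
    have h3 : ((n : ℝ) + 1) * 2 ^ n * (C0 * H) = K * H := by rw [hK]; ring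
    rw [h3, mul_pow] at h1
    rw [inv_le_iff_one_le_mul₀ (by positivity)]
    calc (1 : ℝ) ≤ |hd 0 u (rt n)| * (K ^ (n - 1) * H ^ (n - 1)) := h1
      _ = _ := by ring

end Pool.Agent.W71
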