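import Mathlib
import Pool.Agent.W71.TypeB

/-! Second type B lower bound. -/

set_option autoImplicit false

open Polynomial Set

namespace Pool.Agent.W71

open Pool.Agent.Helper404 (toP castQ Dt IB SB W W_ne_zero W_eq_Dt mu term Nm term_le exists_term
  term_nonneg Nm_nonneg nrm laplace rk rk_strict botS Nm_empty castQ_eq_zero Dt_natDegree
  lagrange_bound)

variable {n : ℕ}

lemma inj_of_dv_ne {j : ℕ} (v : Fin j → Fin (n + 1) → ℤ) (I : Fin j → Fin (n + 1)) (z : ℝ)
    (h : dv v (fun b => (I b : ℕ)) z ≠ 0) : Function.Injective I := by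
  by_contra hI
  simp only [Function.Injective] at hI
  push Not at hI
  obtain ⟨a, b, hab, hne⟩ := hI
  apply h
  rw [dv_eq_det]
  apply Matrix.det_zero_of_column_eq hne
  intro k
  simp only [Matrix.of_apply, hab]

lemma F1 (hn : 1 ≤ n) (t : ℝ) {j : ℕ} (p : Fin (n + 1) → ℤ) (v : Fin j → Fin (n + 1) → ℤ)
    (hp : p (Fin.last n) = 1) (hlast : ∀ a, v a (Fin.last n) = 0) (I : Fin j → Fin (n + 1)) (z : ℝ) :
    |dv v (fun b => (I b : ℕ)) z| ≤
      Nm (wt n t) (Fin.cons p v : Fin (j + 1) → Fin (n + 1) → ℤ) z *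
        (Real.exp t * ∏ b, wt n t (I b)) := by
  have h1 := term_le (wt n t) (Fin.cons p v : Fin (j + 1) → Fin (n + 1) → ℤ) z
    (Fin.cons (Fin.last n) I : Fin (j + 1) → Fin (n + 1))
  rw [term_eq, div_le_iff₀ (Finset.prod_pos (fun _ _ => wt_pos t _)), Fin.prod_univ_succ] at h1
  simp only [Fin.cons_zero, Fin.cons_succ] at h1
  rw [hlast_wt hn, cons_coe, Fin.val_last, dv_cons_last p v hp hlast] at h1
  exact h1

lemma F2 (t : ℝ) {j : ℕ} (v : Fin (j + 1) → Fin (n + 1) → ℤ) (I : Fin (j + 1) → Fin (n + 1)) (z : ℝ) :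
    |dv v (fun b => (I b : ℕ)) z| ≤ Nm (wt n t) v z * ∏ b, wt n t (I b) := by
  have h1 := term_le (wt n t) v z I
  rwa [term_eq, div_le_iff₀ (Finset.prod_pos (fun _ _ => wt_pos t _))] at h1

/-- second type B bound -/
lemma typeB_two {β : ℝ} {p : Fin (n + 1) → ℤ} (h : BetaData n β p) (hn : 1 ≤ n) :
    ∃ c r0 : ℝ, 0 < c ∧ 0 < r0 ∧ ∀ (j : ℕ) (v : Fin j → Fin (n + 1) → ℤ), j ≤ n →
      LinearIndependent ℚ (fun a => castQ (v a)) → (∀ a, v a (Fin.last n) = 0) →
      ∀ t : ℝ, 0 ≤ t → ∀ r : ℝ, 0 < r → r ≤ r0 → ∃ z ∈ Ico (β + r) (β + r + r),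
        c * (Real.exp (((n : ℝ) - j) * t) * r ^ (((n : ℝ) - j) / n)) ≤
          Nm (wt n t) (Fin.cons p v : Fin (j + 1) → Fin (n + 1) → ℤ) z := by
  obtain ⟨c1, hc1, hc1', -, hR⟩ := delta_uniform h hn
  obtain ⟨c2, r1, hc2, hr1, hnear⟩ := h.near hn
  obtain ⟨C, hC1, hC⟩ := BetaData.upper β p
  have hn0 : (0 : ℝ) < n := by exact_mod_cast hn
  have hCD := CD_pos ((n + 1) * n)
  set K := CD ((n + 1) * n) with hK
  have hK1 : 1 ≤ K := one_le_CD _
  have hC0 : 0 < C := by linarith
  set c : ℝ := min (c1 ^ n / K) (c2 * c1 ^ n / (K * (1 + n * C))) with hc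
  have hcpos : 0 < c := lt_min (by positivity) (by positivity)
  refine ⟨c, min 1 r1, hcpos, lt_min one_pos hr1, ?_⟩
  intro j v hj hv hlast t ht r hr hr0
  have hr1' : r ≤ 1 := hr0.trans (min_le_left _ _)
  have hr1'' : r ≤ r1 := hr0.trans (min_le_right _ _)
  have h1 := hR j v hj hv (not_mem_span h.monic v hlast) r hr hr1'
  set Δ := Nm (wr n r) v β with hΔ
  have hΔpos : 0 < Δ := Nm_pos _ (wr_pos hr) v hv β
  obtain ⟨I, hI⟩ := exists_term (wr n r) v β
  have hprodpos : 0 < ∏ b, wr n r (I b) := Finset.prod_pos (fun _ _ => wr_pos hr _)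
  have hdvI : |dv v (fun b => (I b : ℕ)) β| = Δ * ∏ b, wr n r (I b) := by
    rw [hΔ, hI, term_eq]; field_simp
  have hne : dv v (fun b => (I b : ℕ)) β ≠ 0 := by
    intro h0
    rw [h0, abs_zero] at hdvI
    have : 0 < Δ * ∏ b, wr n r (I b) := by positivity
    linarith
  have hinj := inj_of_dv_ne v I β hne
  -- lower bound for `r * Δ`
  have hrΔ : c1 ^ n * r ^ (((n : ℝ) - j) / n) ≤ r * Δ := by
    have e1 : r ^ (((n : ℝ) - j) / n) = r * (r ^ (-(1 / (n : ℝ)))) ^ j := by
      rw [← Real.rpow_natCast, ← Real.rpow_mul hr.le]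
      nth_rewrite 2 [← Real.rpow_one r]
      rw [← Real.rpow_add hr]
      congr 1
      field_simp
      ring
    rw [e1]
    have h2 : c1 ^ n * (r ^ (-(1 / (n : ℝ)))) ^ j ≤ Δ := by
      refine le_trans ?_ h1
      rw [mul_pow]
      exact mul_le_mul_of_nonneg_right (pow_le_pow_of_le_one hc1.le hc1' hj) (by positivity)
    calc c1 ^ n * (r * (r ^ (-(1 / (n : ℝ)))) ^ j) = r * (c1 ^ n * (r ^ (-(1 / (n : ℝ)))) ^ j) := by ring
      _ ≤ r * Δ := mul_le_mul_of_nonneg_left h2 hr.le
  have hexpj : Real.exp (-(n * t)) * Real.exp t ^ j = Real.exp (-(((n : ℝ) - j) * t)) := by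
    rw [← Real.exp_nat_mul, ← Real.exp_add]; congr 1; ring
  by_cases hz : ∃ b0, I b0 = 0
  · -- an index equals zero
    obtain ⟨b0, hb0⟩ := hz
    have hothers : ∀ b, b ≠ b0 → I b ≠ 0 := fun b hb h0 => hb (hinj (h0.trans hb0.symm))
    have hp1 : ∏ b, wr n r (I b) = r := by
      rw [← Finset.mul_prod_erase _ _ (Finset.mem_univ b0)]
      rw [Finset.prod_eq_one]
      · rw [hb0]; simp [wr]
      · intro b hb
        have := hothers b (Finset.ne_of_mem_erase hb)
        simp [wr, this]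
    have hp2 : Real.exp t * ∏ b, wt n t (I b) = Real.exp (-(((n : ℝ) - j) * t)) := by
      rw [← Finset.mul_prod_erase _ _ (Finset.mem_univ b0), hb0, wt_zero]
      have h3 : ∏ b ∈ Finset.univ.erase b0, wt n t (I b) = Real.exp t ^ (j - 1) := by
        rw [Finset.prod_congr rfl (fun b hb => wt_ne (hothers b (Finset.ne_of_mem_erase hb))),
          Finset.prod_const, Finset.card_erase_of_mem (Finset.mem_univ b0)]
        simp
      have hj1 : 1 ≤ j := by have := b0.2; omega
      rw [h3, ← hexpj]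
      obtain ⟨j', rfl⟩ : ∃ j', j = j' + 1 := ⟨j - 1, by omega⟩
      simp only [Nat.add_sub_cancel]
      rw [pow_succ]; ring
    obtain ⟨z, hzI, h2⟩ := Nm_near (wt n t) (wt_pos t)
      (Fin.cons p v : Fin (j + 1) → Fin (n + 1) → ℤ) (by omega)
      (Fin.cons (Fin.last n) I : Fin (j + 1) → Fin (n + 1)) β r hr
    refine ⟨z, hzI, ?_⟩
    rw [cons_coe, Fin.val_last, dv_cons_last p v h.monic hlast, Fin.prod_univ_succ] at h2
    simp only [Fin.cons_zero, Fin.cons_succ] at h2
    rw [hlast_wt hn, hp2, hdvI, hp1, Real.exp_neg, div_inv_eq_mul] at h2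
    have h3 : c1 ^ n * r ^ (((n : ℝ) - j) / n) * Real.exp (((n : ℝ) - j) * t) ≤
        K * Nm (wt n t) (Fin.cons p v : Fin (j + 1) → Fin (n + 1) → ℤ) z := by
      refine le_trans ?_ h2
      apply mul_le_mul_of_nonneg_right _ (Real.exp_pos _).le
      rw [mul_comm Δ r]; exact hrΔ
    calc c * (Real.exp (((n : ℝ) - j) * t) * r ^ (((n : ℝ) - j) / n))
        ≤ (c1 ^ n / K) * (Real.exp (((n : ℝ) - j) * t) * r ^ (((n : ℝ) - j) / n)) :=
          mul_le_mul_of_nonneg_right (min_le_left _ _) (by positivity)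
      _ = (c1 ^ n * r ^ (((n : ℝ) - j) / n) * Real.exp (((n : ℝ) - j) * t)) / K := by ring
      _ ≤ (K * Nm (wt n t) (Fin.cons p v : Fin (j + 1) → Fin (n + 1) → ℤ) z) / K :=
          div_le_div_of_nonneg_right h3 hCD.le
      _ = _ := by field_simp
  · -- no index equals zero
    push Not at hz
    have hp1 : ∏ b, wr n r (I b) = 1 := by
      apply Finset.prod_eq_one
      intro b _
      simp [wr, hz b]
    have hp2 : ∏ b, wt n t (I b) = Real.exp t ^ j := by
      rw [Finset.prod_congr rfl (fun b _ => wt_ne (hz b)), Finset.prod_const]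
      simp
    rw [hp1, mul_one] at hdvI
    obtain ⟨z, hzI, h2⟩ := exists_near ((n + 1) * n) _ (dv_natDegree v (by omega)
      (fun b => (I b : ℕ))) β r hr
    rw [← dv_eq_eval, ← dv_eq_eval, hdvI] at h2
    refine ⟨z, hzI, ?_⟩
    set G := Nm (wt n t) (Fin.cons p v : Fin (j + 1) → Fin (n + 1) → ℤ) z with hG
    have hG0 : 0 ≤ G := Nm_nonneg _ (wt_pos t) _ _
    set E := Real.exp (-(((n : ℝ) - j) * t)) with hE
    have hEpos : 0 < E := Real.exp_pos _
    -- the first coordinate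
    set J : Fin (j + 1) → Fin (n + 1) := Fin.cons 0 I with hJ
    have hJprod : ∏ b, wt n t (J b) = E := by
      rw [Fin.prod_univ_succ]
      simp only [hJ, Fin.cons_zero, Fin.cons_succ]
      rw [wt_zero, hp2, hexpj]
    have hF2 : |dv (Fin.cons p v : Fin (j + 1) → Fin (n + 1) → ℤ) (fun b => (J b : ℕ)) z| ≤ G * E := by
      have := F2 t (Fin.cons p v : Fin (j + 1) → Fin (n + 1) → ℤ) J z
      rwa [hJprod] at this
    have hF1 : ∀ b : Fin j, |dv v (fun c => (J (b.succ.succAbove c) : ℕ)) z| ≤ G * E := by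
      intro b
      have h3 := F1 hn t p v h.monic hlast (fun c => J (b.succ.succAbove c)) z
      have h4 : Real.exp t * ∏ c, wt n t (J (b.succ.succAbove c)) = E := by
        have h5 := Fin.prod_univ_succAbove (fun b => wt n t (J b)) b.succ
        rw [hJprod] at h5
        have h6 : wt n t (J b.succ) = Real.exp t := by
          simp only [hJ, Fin.cons_succ]
          exact wt_ne (hz b)
        rw [h6] at h5
        exact h5.symm
      rwa [h4] at h3
    have hexpand := dv_cons_zero (R := ℝ) p v (fun b => (J b : ℕ)) z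
    rw [Fin.sum_univ_succ] at hexpand
    have h0 : (fun c : Fin j => ((J ((0 : Fin (j + 1)).succAbove c) : Fin (n + 1)) : ℕ)) =
        fun c => (I c : ℕ) := by
      ext c
      simp [hJ]
    have hJ0 : ((J 0 : Fin (n + 1)) : ℕ) = 0 := by simp [hJ]
    rw [h0, hJ0] at hexpand
    simp only [Fin.val_zero, pow_zero, one_mul] at hexpand
    have hz2 : z ∈ Icc β (β + 2) := ⟨by linarith [hzI.1], by linarith [hzI.2]⟩
    have h3 : |hd 0 p z| * |dv v (fun b => (I b : ℕ)) z| ≤ G * E + j * (C * (G * E)) := by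
      have h4 : hd 0 p z * dv v (fun b => (I b : ℕ)) z =
          dv (Fin.cons p v : Fin (j + 1) → Fin (n + 1) → ℤ) (fun b => (J b : ℕ)) z -
          ∑ b : Fin j, (-1) ^ ((b.succ : Fin (j + 1)) : ℕ) * hd ((J b.succ : Fin (n + 1)) : ℕ) p z *
            dv v (fun c => (J (b.succ.succAbove c) : ℕ)) z := by
        rw [hexpand]; ring
      rw [← abs_mul, h4]
      refine (abs_sub _ _).trans (add_le_add hF2 ?_)
      refine (Finset.abs_sum_le_sum_abs _ _).trans ?_
      calc ∑ b : Fin j, |(-1) ^ ((b.succ : Fin (j + 1)) : ℕ) * hd ((J b.succ : Fin (n + 1)) : ℕ) p z *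
            dv v (fun c => (J (b.succ.succAbove c) : ℕ)) z|
          ≤ ∑ b : Fin j, C * (G * E) := by
            refine Finset.sum_le_sum (fun b _ => ?_)
            rw [abs_mul, abs_mul, abs_pow, abs_neg, abs_one, one_pow, one_mul]
            exact mul_le_mul (hC z hz2 _) (hF1 b) (abs_nonneg _) hC0.le
        _ = j * (C * (G * E)) := by
            rw [Finset.sum_const, Finset.card_univ, Fintype.card_fin, nsmul_eq_mul]
    have h5 : c2 * r * (Δ / K) ≤ |hd 0 p z| * |dv v (fun b => (I b : ℕ)) z| := by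
      apply mul_le_mul (hnear r hr hr1'' z hzI) _ (by positivity) (abs_nonneg _)
      rw [div_le_iff₀ hCD]
      linarith
    have hjn : (j : ℝ) ≤ n := by exact_mod_cast hj
    have h6 : c2 * (c1 ^ n * r ^ (((n : ℝ) - j) / n)) ≤ (K * (1 + n * C)) * (G * E) := by
      have hGE : 0 ≤ G * E := by positivity
      calc c2 * (c1 ^ n * r ^ (((n : ℝ) - j) / n)) ≤ c2 * (r * Δ) :=
            mul_le_mul_of_nonneg_left hrΔ hc2.le
        _ = K * (c2 * r * (Δ / K)) := by field_simp
        _ ≤ K * (G * E + j * (C * (G * E))) := mul_le_mul_of_nonneg_left (h5.trans h3) hCD.le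
        _ = (K * (1 + j * C)) * (G * E) := by ring
        _ ≤ (K * (1 + n * C)) * (G * E) := by
            apply mul_le_mul_of_nonneg_right _ hGE
            apply mul_le_mul_of_nonneg_left _ hCD.le
            have := mul_le_mul_of_nonneg_right hjn hC0.le
            linarith
    have hEE : Real.exp (((n : ℝ) - j) * t) * E = 1 := by
      rw [hE, ← Real.exp_add]; simp
    have hKC : 0 < K * (1 + n * C) := by positivity
    calc c * (Real.exp (((n : ℝ) - j) * t) * r ^ (((n : ℝ) - j) / n))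
        ≤ (c2 * c1 ^ n / (K * (1 + n * C))) *
            (Real.exp (((n : ℝ) - j) * t) * r ^ (((n : ℝ) - j) / n)) :=
          mul_le_mul_of_nonneg_right (min_le_right _ _) (by positivity)
      _ = (c2 * (c1 ^ n * r ^ (((n : ℝ) - j) / n))) * Real.exp (((n : ℝ) - j) * t) /
            (K * (1 + n * C)) := by ring
      _ ≤ ((K * (1 + n * C)) * (G * E)) * Real.exp (((n : ℝ) - j) * t) / (K * (1 + n * C)) := by
          apply div_le_div_of_nonneg_right _ hKC.le
          exact mul_le_mul_of_nonneg_right h6 (Real.exp_pos _).le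
      _ = G * (Real.exp (((n : ℝ) - j) * t) * E) := by field_simp
      _ = G := by rw [hEE, mul_one]

end Pool.Agent.W71
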