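import Mathlib
import Pool.Agent.W71.TypeB2

/-! Lower bounds for the suprema: types A and B. -/

set_option autoImplicit false

open Polynomial Set

namespace Pool.Agent.W71

open Pool.Agent.Helper404 (toP castQ Dt IB SB W W_ne_zero W_eq_Dt mu term Nm term_le exists_term
  term_nonneg Nm_nonneg nrm laplace rk rk_strict botS Nm_empty castQ_eq_zero Dt_natDegree
  lagrange_bound)

variable {n : ℕ}

/-- radius of the real window -/
noncomputable def rad (ℓ : ℕ) (e : ℝ) (m : ℕ) : ℝ := Real.exp (-(e * (m * Real.log ℓ)))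

lemma rad_pos (ℓ : ℕ) (e : ℝ) (m : ℕ) : 0 < rad ℓ e m := Real.exp_pos _

/-- lower bounds for all subspaces -/
def Rich (n ℓ : ℕ) (β e νp νd : ℝ) : Prop :=
  ∃ c : ℝ, 0 < c ∧ c ≤ 1 ∧ ∃ m0 : ℕ, ∀ m : ℕ, m0 ≤ m → ∀ t : ℝ, 0 ≤ t → ∀ s : SB n, 1 ≤ rk s →
    rk s ≤ n → ∃ z ∈ Ico (β + rad ℓ e m) (β + rad ℓ e m + rad ℓ e m), ∃ p ≤ (n + 1) * n,
      c * Real.exp (-((rk s : ℝ) * νp * t)) ≤
        Nm (wt n t) (zb s) z * Ux ℓ (zb s) (pt ℓ m p) ∧
      c * Real.exp (-(((n : ℝ) + 1 - rk s) * νd * t)) ≤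
        Nm (wt n t) (zb s) z * Ux ℓ (zb s) (pt ℓ m p)

lemma prod_wt_le {j : ℕ} (t : ℝ) (ht : 0 ≤ t) (I : Fin j → Fin (n + 1)) :
    ∏ b, wt n t (I b) ≤ Real.exp t ^ j := by
  calc ∏ b, wt n t (I b) ≤ ∏ _b : Fin j, Real.exp t :=
        Finset.prod_le_prod (fun _ _ => (wt_pos t _).le) (fun _ _ => wt_le ht _)
    _ = _ := by simp

lemma prod_wt_le' {j : ℕ} (t : ℝ) (ht : 0 ≤ t) (I : Fin (j + 1) → Fin (n + 1)) (b0 : Fin (j + 1))
    (hb0 : I b0 = 0) : ∏ b, wt n t (I b) ≤ Real.exp (-(n * t)) * Real.exp t ^ j := by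
  rw [Fin.prod_univ_succAbove _ b0, hb0, wt_zero]
  exact mul_le_mul_of_nonneg_left (prod_wt_le t ht _) (Real.exp_pos _).le

section
variable {ℓ : ℕ} [hp : Fact ℓ.Prime]

/-- type A, one tuple -/
lemma typeA_tuple {U : Submodule ℚ (Fin (n + 1) → ℚ)} {j : ℕ} {v : Fin (j + 1) → Fin (n + 1) → ℤ}
    (hv : ZB U (j + 1) v) (hn : 1 ≤ n) (hjn : j + 1 ≤ n) (hℓ : (n + 1) * n < ℓ) (A : ℝ)
    (hA : (n : ℝ) ≤ A) (m : ℕ) (t : ℝ) (ht : 0 ≤ t) :
    ∃ z ∈ Ico (0 + rad ℓ (1 + A) m) (0 + rad ℓ (1 + A) m + rad ℓ (1 + A) m),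
      ∃ p ≤ (n + 1) * n, (CD ((n + 1) * n))⁻¹ * Real.exp (-(((j + 1 : ℕ) : ℝ) * ((A - n) / (A + 1)) * t)) ≤
        Nm (wt n t) v z * Ux ℓ v (pt ℓ m p) := by
  obtain ⟨k, hk, hdvd⟩ := exists_ord v hv.1.1
  obtain ⟨p, hp1, hp2⟩ := padicA (ℓ := ℓ) hv hℓ hn k hdvd m
  set r := rad ℓ (1 + A) m with hr
  have hrpos : 0 < r := rad_pos _ _ _
  set K := CD ((n + 1) * n) with hK
  have hKpos : 0 < K := CD_pos _
  have hn0 : (0 : ℝ) ≤ n := Nat.cast_nonneg n
  have hA1 : 0 < A + 1 := by linarith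
  set L : ℝ := m * Real.log ℓ with hL
  have hℓpos : (0 : ℝ) < ℓ := by exact_mod_cast hp.out.pos
  have hL0 : 0 ≤ L := mul_nonneg (Nat.cast_nonneg _) (Real.log_natCast_nonneg _)
  have hqexp : ((ℓ : ℝ) ^ m) ^ ((j + 1) * (k : ℕ)) = Real.exp ((((j + 1 : ℕ) : ℝ) * k) * L) := by
    rw [← pow_mul, ← Real.rpow_natCast, ← Real.exp_log (Real.rpow_pos_of_pos hℓpos _),
      Real.log_rpow hℓpos, hL]
    congr 1
    push_cast; ring
  rw [hqexp] at hp2
  have hUnn : 0 ≤ Ux ℓ v (pt ℓ m p) := Ux_nonneg _ _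
  -- first bound
  have hfirst : ∃ z ∈ Ico (0 + r) (0 + r + r),
      K⁻¹ * Real.exp (((n : ℝ) - j) * t - (1 + A) * k * L) ≤ Nm (wt n t) v z := by
    obtain ⟨I, b0, G, hb0, hG0, hDt⟩ := exists_typeA v hv.1.1 k hk hdvd
    have hGne : G ≠ 0 := by rintro rfl; simp at hG0
    have hdegG : (G.map (Int.castRingHom ℝ)).natDegree ≤ (n + 1) * n := by
      refine natDegree_map_le.trans ?_
      have h1 : (Dt v (fun b => (I b : ℕ))).natDegree ≤ (n + 1) * n :=
        (Dt_natDegree _ _).trans (Nat.mul_le_mul_right _ (by omega))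
      rw [hDt, natDegree_X_pow_mul _ hGne] at h1
      omega
    obtain ⟨z, hz, h1⟩ := exists_near ((n + 1) * n) _ hdegG 0 r hrpos
    refine ⟨z, hz, ?_⟩
    have h2 : (1 : ℝ) ≤ |(G.map (Int.castRingHom ℝ)).eval 0| := by
      rw [eval_zero_map, eq_intCast, ← Int.cast_abs]
      exact_mod_cast Int.one_le_abs hG0
    have hzr : r ≤ z := by linarith [hz.1]
    have hz0 : 0 ≤ z := hrpos.le.trans hzr
    have h3 : |dv v (fun b => (I b : ℕ)) z| = z ^ (k : ℕ) * |(G.map (Int.castRingHom ℝ)).eval z| := by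
      unfold dv
      rw [hDt, Polynomial.map_mul, Polynomial.map_pow, map_X, eval_mul, eval_pow, eval_X, abs_mul,
        abs_of_nonneg (pow_nonneg hz0 _)]
    have h4 := term_le (wt n t) v z I
    have hPpos : 0 < ∏ b, wt n t (I b) := Finset.prod_pos (fun _ _ => wt_pos t _)
    rw [term_eq, div_le_iff₀ hPpos, h3] at h4
    have h5 : r ^ (k : ℕ) * K⁻¹ ≤ Nm (wt n t) v z * (Real.exp (-(n * t)) * Real.exp t ^ j) := by
      calc r ^ (k : ℕ) * K⁻¹ ≤ z ^ (k : ℕ) * |(G.map (Int.castRingHom ℝ)).eval z| := by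
            apply mul_le_mul (pow_le_pow_left₀ hrpos.le hzr _) _ (by positivity) (pow_nonneg hz0 _)
            rw [inv_le_iff_one_le_mul₀' hKpos]
            exact h2.trans h1
        _ ≤ Nm (wt n t) v z * ∏ b, wt n t (I b) := h4
        _ ≤ _ := mul_le_mul_of_nonneg_left (prod_wt_le' t ht I b0 hb0)
            (Nm_nonneg _ (wt_pos t) _ _)
    have h6 : Real.exp (-(n * t)) * Real.exp t ^ j = (Real.exp (((n : ℝ) - j) * t))⁻¹ := by
      rw [← Real.exp_nat_mul, ← Real.exp_add, ← Real.exp_neg]; congr 1; ring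
    have h7 : r ^ (k : ℕ) = Real.exp (-((1 + A) * k * L)) := by
      rw [hr, rad, ← Real.exp_nat_mul]; congr 1; ring
    rw [h6, h7, ← div_eq_mul_inv (Nm (wt n t) v z), le_div_iff₀ (Real.exp_pos _)] at h5
    calc K⁻¹ * Real.exp (((n : ℝ) - j) * t - (1 + A) * k * L)
        = Real.exp (-((1 + A) * k * L)) * K⁻¹ * Real.exp (((n : ℝ) - j) * t) := by
          rw [sub_eq_add_neg, Real.exp_add]; ring
      _ ≤ _ := h5
  -- second bound
  have hsecond : ∃ z ∈ Ico (0 + r) (0 + r + r),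
      K⁻¹ * Real.exp (-(((j + 1 : ℕ) : ℝ) * t)) ≤ Nm (wt n t) v z := by
    obtain ⟨I, hI⟩ := exists_minor v hv.1.1
    obtain ⟨z, hz, h1⟩ := Nm_near (wt n t) (wt_pos t) v (by omega) I 0 r hrpos
    refine ⟨z, hz, ?_⟩
    have h2 : (1 : ℝ) ≤ |dv v (fun b => (I b : ℕ)) (0 : ℝ)| := by
      rw [dv_zero_int, ← Int.cast_abs]
      exact_mod_cast Int.one_le_abs hI
    have hPpos : 0 < ∏ b, wt n t (I b) := Finset.prod_pos (fun _ _ => wt_pos t _)
    have h3 : Real.exp (-(((j + 1 : ℕ) : ℝ) * t)) ≤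
        |dv v (fun b => (I b : ℕ)) (0 : ℝ)| / ∏ b, wt n t (I b) := by
      rw [Real.exp_neg, Real.exp_nat_mul, ← one_div]
      exact div_le_div₀ (abs_nonneg _) h2 hPpos (prod_wt_le t ht I)
    rw [inv_mul_le_iff₀ hKpos]
    exact h3.trans h1
  set J : ℝ := ((j + 1 : ℕ) : ℝ) with hJ
  have hJj : J = (j : ℝ) + 1 := by rw [hJ]; push_cast; ring
  have hJn : J ≤ n := by rw [hJ]; exact_mod_cast hjn
  have hJ1 : 1 ≤ J := by rw [hJj]; linarith [(Nat.cast_nonneg j : (0 : ℝ) ≤ j)]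
  have hk0 : (0 : ℝ) ≤ (k : ℕ) := Nat.cast_nonneg _
  have hν : (A - n) / (A + 1) = 1 - (n + 1) / (A + 1) := by field_simp; ring
  by_cases hcase : -(J * ((A - n) / (A + 1)) * t) ≤ -(J * t) + J * k * L
  · obtain ⟨z, hz, h1⟩ := hsecond
    refine ⟨z, hz, p, hp1, ?_⟩
    calc K⁻¹ * Real.exp (-(J * ((A - n) / (A + 1)) * t))
        ≤ K⁻¹ * Real.exp (-(J * t) + J * k * L) := by gcongr
      _ = (K⁻¹ * Real.exp (-(J * t))) * Real.exp (J * k * L) := by rw [Real.exp_add]; ring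
      _ ≤ _ := mul_le_mul h1 hp2 (Real.exp_pos _).le (Nm_nonneg _ (wt_pos t) _ _)
  · push Not at hcase
    obtain ⟨z, hz, h1⟩ := hfirst
    refine ⟨z, hz, p, hp1, ?_⟩
    have hkL : (k : ℕ) * L ≤ (n + 1) / (A + 1) * t := by
      have h2 : J * ((k : ℕ) * L) ≤ J * ((n + 1) / (A + 1) * t) := by
        rw [hν] at hcase
        nlinarith
      exact le_of_mul_le_mul_left h2 (by linarith)
    have hexp : -(J * ((A - n) / (A + 1)) * t) ≤
        (((n : ℝ) - j) * t - (1 + A) * k * L) + J * k * L := by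
      have h3 : (1 + A - J) * ((k : ℕ) * L) ≤ (1 + A - J) * ((n + 1) / (A + 1) * t) :=
        mul_le_mul_of_nonneg_left hkL (by linarith)
      have h4 : (1 + A - J) * ((n + 1) / (A + 1) * t) = (n + 1) * t - J * ((n + 1) / (A + 1)) * t := by
        field_simp
        ring
      have h5 : (n : ℝ) - j = n + 1 - J := by rw [hJj]; ring
      rw [h5, hν]
      nlinarith
    calc K⁻¹ * Real.exp (-(J * ((A - n) / (A + 1)) * t))
        ≤ K⁻¹ * Real.exp ((((n : ℝ) - j) * t - (1 + A) * k * L) + J * k * L) := by gcongr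
      _ = (K⁻¹ * Real.exp (((n : ℝ) - j) * t - (1 + A) * k * L)) * Real.exp (J * k * L) := by
          rw [Real.exp_add]; ring
      _ ≤ _ := mul_le_mul h1 hp2 (Real.exp_pos _).le (Nm_nonneg _ (wt_pos t) _ _)

theorem richA (hn : 1 ≤ n) (hℓ : (n + 1) * n < ℓ) (A νp νd : ℝ) (hA : (n : ℝ) ≤ A)
    (h1 : (A - n) / (A + 1) ≤ νp) (h2 : n * ((A - n) / (A + 1)) ≤ νd) :
    Rich n ℓ 0 (1 + A) νp νd := by
  have hKpos : 0 < CD ((n + 1) * n) := CD_pos _
  refine ⟨(CD ((n + 1) * n))⁻¹, by positivity, inv_le_one_of_one_le₀ (one_le_CD _), 0, ?_⟩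
  intro m _ t ht s hs1 hsn
  have key : ∀ (J : ℕ) (v : Fin J → Fin (n + 1) → ℤ), ZB s.1 J v → J = rk s →
      ∃ z ∈ Ico (0 + rad ℓ (1 + A) m) (0 + rad ℓ (1 + A) m + rad ℓ (1 + A) m),
      ∃ p ≤ (n + 1) * n, (CD ((n + 1) * n))⁻¹ * Real.exp (-((rk s : ℝ) * ((A - n) / (A + 1)) * t)) ≤
        Nm (wt n t) v z * Ux ℓ v (pt ℓ m p) := by
    intro J v hv hJ
    obtain ⟨j, rfl⟩ : ∃ j, J = j + 1 := ⟨J - 1, by omega⟩
    have := typeA_tuple (ℓ := ℓ) hv hn (by omega) hℓ A hA m t ht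
    have hJR : ((j + 1 : ℕ) : ℝ) = (rk s : ℝ) := by exact_mod_cast hJ
    rwa [hJR] at this
  obtain ⟨z, hz, p, hp1, hp2⟩ := key (zd s) (zb s) (zb_ZB s) (zd_eq s)
  refine ⟨z, hz, p, hp1, ?_, ?_⟩
  · refine le_trans ?_ hp2
    gcongr
  · refine le_trans (mul_le_mul_of_nonneg_left (Real.exp_le_exp.2 (neg_le_neg
      (mul_le_mul_of_nonneg_right ?_ ht))) (by positivity)) hp2
    have hrk : (1 : ℝ) ≤ rk s := by exact_mod_cast hs1
    have hrk' : (rk s : ℝ) ≤ n := by exact_mod_cast hsn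
    have hν0 : 0 ≤ (A - n) / (A + 1) := div_nonneg (by linarith) (by linarith)
    have h3 : (rk s : ℝ) * ((A - n) / (A + 1)) ≤ n * ((A - n) / (A + 1)) :=
      mul_le_mul_of_nonneg_right hrk' hν0
    have hνd : 0 ≤ νd := le_trans (by positivity) h2
    have h4 : νd ≤ ((n : ℝ) + 1 - rk s) * νd := by
      have : 1 ≤ (n : ℝ) + 1 - rk s := by linarith
      calc νd = 1 * νd := (one_mul _).symm
        _ ≤ _ := mul_le_mul_of_nonneg_right this hνd
    linarith

theorem richB (hn : 1 ≤ n) (hℓ : (n + 1) * n < ℓ) {β : ℝ} {q : Fin (n + 1) → ℤ}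
    (hβ : BetaData n β q) (w νp νd : ℝ) (hw : (n : ℝ) ≤ w)
    (h1 : (w - n) / (w + 1) ≤ νp) (h2 : (w - n) / (w + 1) / n ≤ νd) :
    Rich n ℓ β (n * (1 + w)) νp νd := by
  obtain ⟨c1, hc1, hc1', hW, -⟩ := delta_uniform hβ hn
  obtain ⟨c2, hc2, hB1⟩ := typeB_one hβ hn
  obtain ⟨c3, r0, hc3, hr0, hB2⟩ := typeB_two hβ hn
  set K := CD ((n + 1) * n) with hK
  have hKpos : 0 < K := CD_pos _
  have hn0 : (0 : ℝ) < n := by exact_mod_cast hn
  have hw1 : 0 < w + 1 := by linarith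
  have hℓ1 : 1 < ℓ := hp.out.one_lt
  have hlogℓ : 0 < Real.log ℓ := Real.log_pos (by exact_mod_cast hℓ1)
  have hℓpos : (0 : ℝ) < ℓ := by exact_mod_cast hp.out.pos
  -- small radius
  obtain ⟨m0, hm0⟩ : ∃ m0 : ℕ, ∀ m : ℕ, m0 ≤ m → rad ℓ (n * (1 + w)) m ≤ r0 := by
    obtain ⟨m0, hm0⟩ := exists_nat_gt ((-Real.log r0) / (n * (1 + w) * Real.log ℓ))
    refine ⟨m0, fun m hm => ?_⟩
    have hpos : 0 < n * (1 + w) * Real.log ℓ := by
      have : 0 < 1 + w := by linarith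
      positivity
    rw [div_lt_iff₀ hpos] at hm0
    unfold rad
    rw [← Real.le_log_iff_exp_le hr0]
    have h3 : (m0 : ℝ) ≤ m := by exact_mod_cast hm
    have h4 : (m0 : ℝ) * (n * (1 + w) * Real.log ℓ) ≤ m * (n * (1 + w) * Real.log ℓ) :=
      mul_le_mul_of_nonneg_right h3 hpos.le
    nlinarith
  set ν := (w - n) / (w + 1) with hν
  have hν0 : 0 ≤ ν := div_nonneg (by linarith) hw1.le
  have hνp0 : 0 ≤ νp := hν0.trans h1
  have hνd0 : 0 ≤ νd := le_trans (by positivity) h2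
  set c : ℝ := min 1 (min (c1 ^ n / K) (min c2 c3)) with hc
  have hcpos : 0 < c := lt_min one_pos (lt_min (by positivity) (lt_min hc2 hc3))
  have hcA : c ≤ c1 ^ n / K := (min_le_right _ _).trans (min_le_left _ _)
  have hcB : c ≤ c2 := (min_le_right _ _).trans ((min_le_right _ _).trans (min_le_left _ _))
  have hcC : c ≤ c3 := (min_le_right _ _).trans ((min_le_right _ _).trans (min_le_right _ _))
  refine ⟨c, hcpos, min_le_left _ _, m0, ?_⟩
  intro m hm t ht s hs1 hsn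
  have hrk1 : (1 : ℝ) ≤ rk s := by exact_mod_cast hs1
  have hrkn : (rk s : ℝ) ≤ n := by exact_mod_cast hsn
  have hrad := hm0 m hm
  set r := rad ℓ (n * (1 + w)) m with hr
  have hrpos : 0 < r := rad_pos _ _ _
  set L : ℝ := m * Real.log ℓ with hL
  have hL0 : 0 ≤ L := mul_nonneg (Nat.cast_nonneg _) hlogℓ.le
  by_cases hmem : castQ q ∈ s.1
  · -- `q` belongs to the space
    set s' : SB n := mkS (s.1 ⊓ LinearMap.ker (LinearMap.proj (Fin.last n) :
      (Fin (n + 1) → ℚ) →ₗ[ℚ] ℚ)) with hs'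
    obtain ⟨hlast, hZB⟩ := ZB_cons hβ.monic s.1 hmem (zb s') (zb_ZB s')
    set j := zd s' with hj
    have hjrk : j + 1 = rk s := hZB.1.finrank.symm
    have hjn : j ≤ n := by omega
    have hjR : (j : ℝ) + 1 = rk s := by exact_mod_cast hjrk
    have hpad : ∃ p ≤ (n + 1) * n, ((ℓ : ℝ) ^ m) ^ (n - j) ≤
        Ux ℓ (Fin.cons q (zb s') : Fin (j + 1) → Fin (n + 1) → ℤ) (pt ℓ m p) := by
      have hsum : ∑ a : Fin (j + 1), (Fin.cons 1 (fun _ => 0) : Fin (j + 1) → ℤ) a •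
          (Fin.cons q (zb s') : Fin (j + 1) → Fin (n + 1) → ℤ) a = q := by
        rw [Fin.sum_univ_succ]
        simp
      have hco : (toP q).coeff n = 1 := by
        have := toP_coeff q (Fin.last n)
        rw [Fin.val_last, hβ.monic] at this
        exact this
      have hdeg : (toP q).natDegree = n := by
        apply le_antisymm (Pool.Agent.Helper404.toP_natDegree q)
        apply le_natDegree_of_ne_zero
        rw [hco]; exact one_ne_zero
      apply padicB (ℓ := ℓ) hZB hℓ hn (Fin.cons 1 (fun _ => 0) : Fin (j + 1) → ℤ)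
      · rw [hsum, Monic, leadingCoeff, hdeg, hco]
      · rw [hsum, hdeg]
    obtain ⟨p, hp1, hp2⟩ := hpad
    set N : ℝ := (n : ℝ) - j with hN
    have hN1 : 1 ≤ N := by
      have : (j : ℝ) + 1 ≤ n := by exact_mod_cast (by omega : j + 1 ≤ n)
      rw [hN]; linarith
    have hNn : N ≤ n := by rw [hN]; linarith [(Nat.cast_nonneg j : (0 : ℝ) ≤ j)]
    have hqexp : ((ℓ : ℝ) ^ m) ^ (n - j) = Real.exp (N * L) := by
      rw [← pow_mul, ← Real.rpow_natCast, ← Real.exp_log (Real.rpow_pos_of_pos hℓpos _),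
        Real.log_rpow hℓpos, hL]
      congr 1
      push_cast [Nat.cast_sub hjn]
      rw [hN]; ring
    rw [hqexp] at hp2
    have hmain : ∃ z ∈ Ico (β + r) (β + r + r), c * Real.exp (-(N * (ν / n) * t)) ≤
        Nm (wt n t) (Fin.cons q (zb s') : Fin (j + 1) → Fin (n + 1) → ℤ) z *
        Ux ℓ (Fin.cons q (zb s') : Fin (j + 1) → Fin (n + 1) → ℤ) (pt ℓ m p) := by
      have hν' : ν = 1 - (n + 1) / (w + 1) := by rw [hν]; field_simp; ring
      by_cases hcase : -(ν / n * t) ≤ -(t / n) + L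
      · obtain ⟨z, hz, h3⟩ := hB1 j (zb s') hjn (zb_ZB s').1.1 hlast t ht r hrpos
        refine ⟨z, hz, ?_⟩
        rw [← hN] at h3
        calc c * Real.exp (-(N * (ν / n) * t))
            ≤ c2 * Real.exp (-(N * t / n) + N * L) := by
              have h4 : -(N * (ν / n) * t) ≤ -(N * t / n) + N * L := by
                have h5 := mul_le_mul_of_nonneg_left hcase (by linarith : (0 : ℝ) ≤ N)
                calc -(N * (ν / n) * t) = N * -(ν / n * t) := by ring
                  _ ≤ N * (-(t / n) + L) := h5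
                  _ = _ := by ring
              gcongr
          _ = (c2 * Real.exp (-(N * t / n))) * Real.exp (N * L) := by rw [Real.exp_add]; ring
          _ ≤ _ := mul_le_mul h3 hp2 (Real.exp_pos _).le (Nm_nonneg _ (wt_pos t) _ _)
      · push Not at hcase
        obtain ⟨z, hz, h3⟩ := hB2 j (zb s') hjn (zb_ZB s').1.1 hlast t ht r hrpos hrad
        refine ⟨z, hz, ?_⟩
        rw [← hN] at h3
        have hrN : r ^ (N / n) = Real.exp (-(N * ((1 + w) * L))) := by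
          rw [hr, rad, ← Real.exp_mul]
          congr 1
          field_simp
          rw [hL]; ring
        rw [hrN] at h3
        have h6 : -(ν / n * t) ≤ t - w * L := by
          have h7 : L ≤ (n + 1) / (w + 1) * t / n := by
            have h8 : -(ν / n * t) = -(t / n) + (n + 1) / (w + 1) * t / n := by
              rw [hν']; ring
            rw [h8] at hcase
            linarith
          have hw0 : 0 ≤ w := hn0.le.trans hw
          have h9 := mul_le_mul_of_nonneg_left h7 hw0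
          have h10 : t - w * ((n + 1) / (w + 1) * t / n) = -(ν / n * t) := by
            rw [hν]; field_simp; ring
          linarith
        calc c * Real.exp (-(N * (ν / n) * t))
            ≤ c3 * Real.exp ((N * t + -(N * ((1 + w) * L))) + N * L) := by
              have h4 : -(N * (ν / n) * t) ≤ (N * t + -(N * ((1 + w) * L))) + N * L := by
                have h5 := mul_le_mul_of_nonneg_left h6 (by linarith : (0 : ℝ) ≤ N)
                calc -(N * (ν / n) * t) = N * -(ν / n * t) := by ring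
                  _ ≤ N * (t - w * L) := h5
                  _ = _ := by ring
              gcongr
          _ = (c3 * (Real.exp (N * t) * Real.exp (-(N * ((1 + w) * L))))) * Real.exp (N * L) := by
              rw [Real.exp_add, Real.exp_add]; ring
          _ ≤ _ := mul_le_mul h3 hp2 (Real.exp_pos _).le (Nm_nonneg _ (wt_pos t) _ _)
    obtain ⟨z, hz, h3⟩ := hmain
    rw [← zb_eq (ℓ := ℓ) (wt n t) (wt_pos t) s _ hZB] at h3
    refine ⟨z, hz, p, hp1, ?_, ?_⟩
    · refine le_trans (mul_le_mul_of_nonneg_left (Real.exp_le_exp.2 (neg_le_neg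
        (mul_le_mul_of_nonneg_right ?_ ht))) hcpos.le) h3
      -- N ν / n ≤ rk s * νp
      calc N * (ν / n) = (N / n) * ν := by ring
        _ ≤ 1 * ν := by
            apply mul_le_mul_of_nonneg_right _ hν0
            rw [div_le_one hn0]; exact hNn
        _ ≤ (rk s : ℝ) * νp := mul_le_mul hrk1 h1 hν0 (by linarith)
    · have h5 : (n : ℝ) + 1 - rk s = N := by rw [hN, ← hjR]; ring
      rw [h5]
      refine le_trans (mul_le_mul_of_nonneg_left (Real.exp_le_exp.2 (neg_le_neg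
        (mul_le_mul_of_nonneg_right ?_ ht))) hcpos.le) h3
      exact mul_le_mul_of_nonneg_left h2 (by linarith)
  · -- `q` does not belong to the space
    have key : ∀ (J : ℕ) (v : Fin J → Fin (n + 1) → ℤ), ZB s.1 J v → J = rk s →
        ∃ z ∈ Ico (β + r) (β + r + r), ∃ p ≤ (n + 1) * n, c ≤
          Nm (wt n t) v z * Ux ℓ v (pt ℓ m p) := by
      intro J v hv hJ
      have hpv : castQ q ∉ Submodule.span ℚ (Set.range fun a => castQ (v a)) := by
        rw [hv.1.2]; exact hmem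
      have h3 := hW J v (by omega) hv.1.1 hpv t ht
      obtain ⟨I, hI⟩ := exists_term (wt n t) v β
      rw [hI, term_eq] at h3
      obtain ⟨z, hz, h4⟩ := Nm_near (wt n t) (wt_pos t) v (by omega) I β r hrpos
      obtain ⟨p, hp1, hp2⟩ := padicA (ℓ := ℓ) hv hℓ hn 0 (fun a => by simp) m
      rw [mul_zero, pow_zero] at hp2
      refine ⟨z, hz, p, hp1, ?_⟩
      have h5 : c1 ^ n ≤ (c1 * Real.exp (t / n)) ^ J := by
        rw [mul_pow]
        have h6 : (1 : ℝ) ≤ Real.exp (t / n) ^ J :=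
          one_le_pow₀ (Real.one_le_exp (by positivity))
        calc c1 ^ n ≤ c1 ^ J := pow_le_pow_of_le_one hc1.le hc1' (by omega)
          _ = c1 ^ J * 1 := (mul_one _).symm
          _ ≤ _ := mul_le_mul_of_nonneg_left h6 (by positivity)
      have h7 : c1 ^ n / K ≤ Nm (wt n t) v z := by
        rw [div_le_iff₀ hKpos]
        have := (h5.trans h3).trans h4
        linarith
      calc c ≤ c1 ^ n / K := hcA
        _ ≤ Nm (wt n t) v z := h7
        _ = Nm (wt n t) v z * 1 := (mul_one _).symm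
        _ ≤ _ := mul_le_mul_of_nonneg_left hp2 (Nm_nonneg _ (wt_pos t) _ _)
    obtain ⟨z, hz, p, hp1, hp2⟩ := key (zd s) (zb s) (zb_ZB s) (zd_eq s)
    have hN0 : 0 ≤ (n : ℝ) + 1 - rk s := by linarith
    refine ⟨z, hz, p, hp1, le_trans ?_ hp2, le_trans ?_ hp2⟩
    · calc c * Real.exp (-((rk s : ℝ) * νp * t)) ≤ c * 1 := by
            apply mul_le_mul_of_nonneg_left _ hcpos.le
            rw [Real.exp_le_one_iff]
            have : 0 ≤ (rk s : ℝ) * νp * t := by positivity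
            linarith
        _ = c := mul_one _
    · calc c * Real.exp (-(((n : ℝ) + 1 - rk s) * νd * t)) ≤ c * 1 := by
            apply mul_le_mul_of_nonneg_left _ hcpos.le
            rw [Real.exp_le_one_iff]
            have : 0 ≤ ((n : ℝ) + 1 - rk s) * νd * t := by positivity
            linarith
        _ = c := mul_one _

end

end Pool.Agent.W71
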