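import Mathlib
import Pool.Agent.W71.Rich
import Pool.Agent.W71.Trans

/-! One time level of the construction. -/

set_option autoImplicit false

open Polynomial Set MeasureTheory

namespace Pool.Agent.W71

open Pool.Agent.Helper404 (toP castQ Dt IB SB W W_ne_zero W_eq_Dt mu term Nm term_le exists_term
  term_nonneg Nm_nonneg nrm laplace rk rk_strict botS Nm_empty castQ_eq_zero Dt_natDegree
  lagrange_bound sublevel kmC kmC_nonneg Nm_cont)

variable {n : ℕ}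

/-- no short primal vector at time `t` -/
def OkP (n : ℕ) (ξ t κ : ℝ) : Prop :=
  ∀ v : Fin (n + 1) → ℤ, v ≠ 0 → ∃ k : Fin (n + 1), κ * wt n t k ≤ |hd (k : ℕ) v ξ|

/-- no short dual vector at time `t` -/
def OkD (n : ℕ) (ξ t κ : ℝ) : Prop :=
  ∀ y : Fin (n + 1) → ℤ, y ≠ 0 → ∃ k : Fin (n + 1), κ ≤ |dl y ξ (k : ℕ)| * wt n t k

section
variable {ℓ : ℕ} [hp : Fact ℓ.Prime]

lemma okP_of_Mk (m p : ℕ) (z t ρ ε κ : ℝ) (hρ : 0 < ρ)
    (hM : Mk (fun s : SB n => Nm (wt n t) (zb s) z * (Ux ℓ (zb s) (pt ℓ m p) / ρ ^ (rk s)))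
      {s : SB n | s.1 ≠ ⊥} ε) (hκ : κ * (n + 1) < ε * ρ) :
    OkP n ((p : ℝ) / (ℓ : ℝ) ^ m + z) t κ := by
  intro v hv
  by_contra hcon
  push Not at hcon
  have hℓpos : (0 : ℝ) < ℓ := by exact_mod_cast hp.out.pos
  have hℓ0 : ((ℓ ^ m : ℕ) : ℝ) ≠ 0 := by push_cast; positivity
  have hℓQ : ((ℓ ^ m : ℕ) : ℚ) ≠ 0 := by
    have : (ℓ : ℚ) ≠ 0 := by exact_mod_cast hp.out.ne_zero
    push_cast; positivity
  set u := tr (ℓ ^ m) (p : ℤ) v with hu
  have hune : u ≠ 0 := tr_ne_zero _ (pow_ne_zero _ hp.out.ne_zero) _ _ hv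
  have h1 := primal_bound (ℓ := ℓ) (wt n t) (wt_pos t) ρ hρ ε z (pt ℓ m p) hM u hune
    (((ℓ : ℝ) ^ m) ^ n * κ) ((((ℓ : ℝ) ^ m) ^ n)⁻¹) ?_ ?_
  · have h2 : ((ℓ : ℝ) ^ m) ^ n * κ * ((((ℓ : ℝ) ^ m) ^ n)⁻¹) = κ := by
      field_simp
    rw [h2] at h1
    linarith
  · intro k
    rw [nrm_eq, div_le_iff₀ (wt_pos t k), hu, hd_tr _ hℓ0, abs_mul, mul_assoc]
    push_cast
    rw [abs_of_pos (by positivity)]
    exact mul_le_mul_of_nonneg_left (hcon k).le (by positivity)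
  · intro k
    rw [hu, hd_tr _ hℓQ]
    have h3 : (((p : ℤ) : ℚ) / ((ℓ ^ m : ℕ) : ℚ)) + pt ℓ m p = 0 := by
      unfold pt; push_cast; ring
    rw [h3, hd_zero, nl_mul, nl_pow]
    have h4 : nl ℓ ((ℓ ^ m : ℕ) : ℚ) = ((ℓ : ℝ) ^ m)⁻¹ := by
      push_cast; exact nl_self_pow m
    rw [h4, inv_pow]
    exact mul_le_of_le_one_right (by positivity) (nl_int_le _)

lemma okD_of_Mk (m p : ℕ) (z t ρ ε κ : ℝ) (hρ : 0 < ρ)
    (hM : Mk (fun s : SB n => Nm (wt n t) (zb s) z *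
      (Ux ℓ (zb s) (pt ℓ m p) / ρ ^ (n + 1 - rk s))) {s : SB n | s.1 ≠ ⊤} ε)
    (hκ : κ * (n + 1) < ε * ρ) :
    OkD n ((p : ℝ) / (ℓ : ℝ) ^ m + z) t κ := by
  intro v hv
  by_contra hcon
  push Not at hcon
  have hℓpos : (0 : ℝ) < ℓ := by exact_mod_cast hp.out.pos
  have hℓ0 : ((ℓ ^ m : ℕ) : ℝ) ≠ 0 := by push_cast; positivity
  have hℓQ : ((ℓ ^ m : ℕ) : ℚ) ≠ 0 := by
    have : (ℓ : ℚ) ≠ 0 := by exact_mod_cast hp.out.ne_zero
    push_cast; positivity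
  set u := trd (ℓ ^ m) (p : ℤ) v with hu
  have hune : u ≠ 0 := trd_ne_zero _ (pow_ne_zero _ hp.out.ne_zero) _ _ hv
  have h1 := dual_bound (ℓ := ℓ) (wt n t) (wt_pos t) (wt_prod t) ρ hρ ε z (pt ℓ m p) hM u hune
    (((ℓ : ℝ) ^ m) ^ n * κ) ((((ℓ : ℝ) ^ m) ^ n)⁻¹) ?_ ?_
  · have h2 : ((ℓ : ℝ) ^ m) ^ n * κ * ((((ℓ : ℝ) ^ m) ^ n)⁻¹) = κ := by
      field_simp
    rw [h2] at h1
    linarith
  · intro k
    rw [hu, dl_trd _ hℓ0 _ _ _ (by have := k.2; omega), abs_mul, mul_assoc]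
    push_cast
    rw [abs_of_pos (by positivity)]
    exact mul_le_mul_of_nonneg_left (hcon k).le (by positivity)
  · intro k
    rw [hu, dl_trd _ hℓQ _ _ _ (by have := k.2; omega)]
    have h3 : (((p : ℤ) : ℚ) / ((ℓ ^ m : ℕ) : ℚ)) + pt ℓ m p = 0 := by
      unfold pt; push_cast; ring
    rw [h3, dl_zero, nl_mul, nl_pow]
    have h4 : nl ℓ ((ℓ ^ m : ℕ) : ℚ) = ((ℓ : ℝ) ^ m)⁻¹ := by
      push_cast; exact nl_self_pow m
    rw [h4, inv_pow]
    exact mul_le_of_le_one_right (by positivity) (nl_int_le _)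

/-- periodicity of the `ℓ`-adic norms -/
lemma Ux_periodic {j : ℕ} (v : Fin j → Fin (n + 1) → ℤ) (m p p' : ℕ)
    (h : p % ℓ ^ m = p' % ℓ ^ m) : Ux ℓ v (pt ℓ m p) = Ux ℓ v (pt ℓ m p') := by
  have hℓ0 : (ℓ : ℚ) ^ m ≠ 0 := pow_ne_zero _ (by exact_mod_cast hp.out.ne_zero)
  have h1 : ((p : ℤ)) ≡ (p' : ℤ) [ZMOD ((ℓ ^ m : ℕ) : ℤ)] := (Int.natCast_modEq_iff).2 h
  obtain ⟨k, hk⟩ := (Int.modEq_iff_dvd).1 h1
  have h2 : pt ℓ m p = pt ℓ m p' + ((k : ℤ) : ℚ) := by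
    unfold pt
    have h3 : (p' : ℚ) - (p : ℚ) = (ℓ : ℚ) ^ m * k := by exact_mod_cast hk
    field_simp
    linarith
  rw [h2, Ux_add_int]

/-- the tree step -/
lemma level_tree (w : Fin (n + 1) → ℝ) (hw : ∀ k, 0 < w k) (d : SB n → ℝ) (hd0 : ∀ s, 0 < d s)
    (T : Set (SB n)) (R : Finset ℕ) (hTR : ∀ s ∈ T, rk s ∈ R) (a l : ℝ) (hl : 0 < l) (m u : ℕ)
    (hrich : ∀ s ∈ T, ∃ z ∈ Ico a (a + l), ∃ p < ℓ ^ (m + u),
      1 ≤ Nm w (zb s) z * (Ux ℓ (zb s) (pt ℓ m p) / d s))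
    [DecidablePred fun p => ¬ MarkedAt (fun s : SB n => sSup (Nm w (zb s) '' Ico a (a + l)) *
        (Ux ℓ (zb s) (pt ℓ m p) / d s)) T (((ℓ : ℝ) ^ (u * ((n + 1) * n)))⁻¹)] :
    ((Finset.range (ℓ ^ m)).filter (fun p => ¬ MarkedAt
      (fun s : SB n => sSup (Nm w (zb s) '' Ico a (a + l)) * (Ux ℓ (zb s) (pt ℓ m p) / d s))
      T (((ℓ : ℝ) ^ (u * ((n + 1) * n)))⁻¹))).card * ℓ ^ u ≤ tK ℓ ((n + 1) * n) R.card * ℓ ^ m := by
  classical
  set f : SB n → ℕ → ℝ := fun s p => sSup (Nm w (zb s) '' Ico a (a + l)) *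
    (Ux ℓ (zb s) (pt ℓ m p) / d s) with hf
  set ε₁ : ℝ := ((ℓ : ℝ) ^ (u * ((n + 1) * n)))⁻¹ with hε₁
  have hℓpos : 0 < ℓ := hp.out.pos
  have hconst : ∀ s p p', p % ℓ ^ m = p' % ℓ ^ m → f s p = f s p' := by
    intro s p p' h
    simp only [hf]
    rw [Ux_periodic _ _ _ _ h]
  have hbdd : ∀ s : SB n, BddAbove (Nm w (zb s) '' Ico a (a + l)) := fun s =>
    bddAbove_image (Nm_cont w _) a l
  have hmain := tkm ℓ (m + u) m u ((n + 1) * n) hp.out.two_le (by omega) f rk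
    (fun s s' h => rk_strict s s' h) ε₁ hconst ?_ R.card T R rfl hTR m 0 0 (by omega)
    (by simp) ?_
  · -- from residues modulo `ℓ ^ (m + u)` to residues modulo `ℓ ^ m`
    rw [Nat.sub_zero] at hmain
    set B := (Finset.range (ℓ ^ m)).filter (fun p => ¬ MarkedAt (fun s => f s p) T ε₁) with hB
    set B' := (cell ℓ (m + u) 0 0).filter (fun p => ¬ MarkedAt (fun s => f s p) T ε₁) with hB'
    have hcard : B.card * ℓ ^ u ≤ B'.card := by
      have h1 : ∀ x ∈ B ×ˢ Finset.range (ℓ ^ u), x.1 + ℓ ^ m * x.2 ∈ B' := by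
        rintro ⟨p, c⟩ hx
        rw [Finset.mem_product, hB, Finset.mem_filter, Finset.mem_range, Finset.mem_range] at hx
        obtain ⟨⟨h2, h3⟩, h4⟩ := hx
        rw [hB', Finset.mem_filter, mem_cell]
        refine ⟨⟨?_, ?_⟩, ?_⟩
        · simp only at h2 h4 ⊢
          calc p + ℓ ^ m * c < ℓ ^ m + ℓ ^ m * c := by omega
            _ = ℓ ^ m * (c + 1) := by ring
            _ ≤ ℓ ^ m * ℓ ^ u := Nat.mul_le_mul_left _ (by omega)
            _ = ℓ ^ (m + u) := (pow_add _ _ _).symm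
        · simp [Nat.mod_one]
        · simp only at h3 ⊢
          have h5 : (fun s => f s (p + ℓ ^ m * c)) = (fun s => f s p) := by
            funext s
            exact hconst s _ _ (by simp)
          rw [h5]; exact h3
      have h2 : Set.InjOn (fun x : ℕ × ℕ => x.1 + ℓ ^ m * x.2) (B ×ˢ Finset.range (ℓ ^ u) : Finset (ℕ × ℕ)) := by
        rintro ⟨p, c⟩ hx ⟨p', c'⟩ hx' heq
        simp only [Finset.coe_product, Set.mem_prod, Finset.mem_coe, hB, Finset.mem_filter,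
          Finset.mem_range] at hx hx'
        simp only at heq
        have h3 : p = p' := by
          have := congrArg (fun x => x % ℓ ^ m) heq
          simp only [Nat.add_mul_mod_self_left] at this
          rwa [Nat.mod_eq_of_lt hx.1.1, Nat.mod_eq_of_lt hx'.1.1] at this
        subst h3
        have h4 : c = c' := by
          have h5 : ℓ ^ m * c = ℓ ^ m * c' := by omega
          exact Nat.eq_of_mul_eq_mul_left (by positivity) h5
        rw [h4]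
      have h3 := Finset.card_le_card_of_injOn _ h1 h2
      rwa [Finset.card_product, Finset.card_range] at h3
    have h4 : B.card * ℓ ^ u * ℓ ^ u ≤ tK ℓ ((n + 1) * n) R.card * ℓ ^ m * ℓ ^ u := by
      calc B.card * ℓ ^ u * ℓ ^ u ≤ B'.card * ℓ ^ u := Nat.mul_le_mul_right _ hcard
        _ ≤ tK ℓ ((n + 1) * n) R.card * ℓ ^ (m + u) := by convert hmain
        _ = _ := by rw [pow_add]; ring
    have h5 : B.card * ℓ ^ u ≤ tK ℓ ((n + 1) * n) R.card * ℓ ^ m :=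
      Nat.le_of_mul_le_mul_right h4 (by positivity)
    convert h5
  · -- goodness
    intro s i b him hex
    obtain ⟨p0, hp0, hp1⟩ := hex
    simp only [hf] at hp1
    set S := sSup (Nm w (zb s) '' Ico a (a + l)) with hS
    have hS0 : 0 ≤ S := by
      apply Real.sSup_nonneg
      rintro _ ⟨z, _, rfl⟩
      exact Nm_nonneg w hw _ _
    have hSpos : 0 < S := by
      rcases hS0.lt_or_eq with h | h
      · exact h
      · rw [← h, zero_mul] at hp1; linarith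
    obtain ⟨I, hI⟩ := exists_Ux ℓ (zb s) (pt ℓ m p0)
    set F : ℚ[X] := (Dt (zb s) (fun b => (I b : ℕ))).map (Int.castRingHom ℚ) with hF
    have hFd : F.natDegree ≤ (n + 1) * n := by
      refine natDegree_map_le.trans ((Dt_natDegree _ _).trans ?_)
      exact Nat.mul_le_mul_right _ (zd_le s)
    have hFe : ∀ x : ℚ, nl ℓ (F.eval x) ≤ Ux ℓ (zb s) x := fun x => le_Ux (zb s) x I
    have hp2 : d s / S ≤ nl ℓ (F.eval (pt ℓ m p0)) := by
      have h1 : Ux ℓ (zb s) (pt ℓ m p0) = nl ℓ (F.eval (pt ℓ m p0)) := hI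
      rw [← h1, div_le_iff₀ hSpos]
      rw [mul_div_assoc', le_div_iff₀ (hd0 s)] at hp1
      linarith
    have h2 := ugood (ℓ := ℓ) ((n + 1) * n) F hFd m (m + u) u i b p0 le_rfl him hp0 (d s / S)
      (div_pos (hd0 s) hSpos) hp2
    refine le_trans (Nat.mul_le_mul_right _ (Finset.card_le_card ?_)) h2
    intro p hpf
    rw [Finset.mem_filter] at hpf ⊢
    refine ⟨hpf.1, ?_⟩
    have h3 := hpf.2
    simp only [hf] at h3
    refine lt_of_le_of_lt (hFe _) ?_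
    rw [mul_div_assoc', div_lt_iff₀ (hd0 s)] at h3
    rw [div_mul_eq_mul_div, lt_div_iff₀ hSpos]
    linarith
  · -- richness
    intro s hs
    obtain ⟨z, hz, p, hp1, hp2⟩ := hrich s hs
    refine ⟨p, ?_, ?_⟩
    · rw [mem_cell]; exact ⟨hp1, by simp [Nat.mod_one]⟩
    · simp only [hf]
      refine hp2.trans (mul_le_mul_of_nonneg_right ?_ (div_nonneg (Ux_nonneg _ _) (hd0 s).le))
      exact le_csSup (hbdd s) ⟨z, hz, rfl⟩

/-- the constant of the real step -/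
noncomputable def cR (n : ℕ) : ℝ := 4 * (((n + 1) * n : ℕ) + 1) ^ 2

lemma cR_nonneg (n : ℕ) : 0 ≤ cR n := by unfold cR; positivity

/-- real goodness -/
lemma real_good (hn : 1 ≤ n) (w : Fin (n + 1) → ℝ) (hw : ∀ k, 0 < w k) (s : SB n) (c : ℝ)
    (hc : 0 ≤ c) (a l : ℝ) (hl : 0 < l) (hex : ∃ z ∈ Ico a (a + l), 1 ≤ c * Nm w (zb s) z)
    (ε : ℝ) (hε : 0 < ε) :
    volume {x ∈ Ico a (a + l) | c * Nm w (zb s) x < ε} ≤
      ENNReal.ofReal (cR n * ε ^ (1 / (((n + 1) * n : ℕ) : ℝ))) * ENNReal.ofReal l := by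
  obtain ⟨z, hz, hz1⟩ := hex
  obtain ⟨I, hI⟩ := exists_term w (zb s) z
  have hcpos : 0 < c := by
    rcases hc.lt_or_eq with h | h
    · exact h
    · rw [← h, zero_mul] at hz1; linarith
  have hwI : 0 < ∏ b, w (I b) := Finset.prod_pos (fun _ _ => hw _)
  set p := (Dt (zb s) (fun b => (I b : ℕ))).map (Int.castRingHom ℝ) with hp
  have hdeg : p.natDegree ≤ (n + 1) * n := by
    refine natDegree_map_le.trans ((Dt_natDegree _ _).trans ?_)
    exact Nat.mul_le_mul_right _ (zd_le s)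
  have h1 : c⁻¹ * ∏ b, w (I b) ≤ |p.eval z| := by
    rw [hI] at hz1
    unfold term at hz1
    rw [mul_div_assoc', le_div_iff₀ hwI, one_mul] at hz1
    rw [inv_mul_le_iff₀ hcpos]
    exact hz1
  have h2 := sublevel ((n + 1) * n) (by nlinarith) p hdeg a l hl z (c⁻¹ * ∏ b, w (I b))
    (ε * (c⁻¹ * ∏ b, w (I b))) hz (by positivity) h1 (by positivity)
  rw [mul_div_assoc, div_self (by positivity), mul_one] at h2
  unfold cR
  rw [← ENNReal.ofReal_mul (by positivity)]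
  refine le_trans (measure_mono ?_) h2
  rintro x ⟨hx, hx'⟩
  refine ⟨hx, ?_⟩
  have h3 := term_le w (zb s) x I
  unfold term at h3
  rw [div_le_iff₀ hwI] at h3
  have h4 : |p.eval x| < ε * (c⁻¹ * ∏ b, w (I b)) := by
    refine lt_of_le_of_lt h3 ?_
    have h5 : Nm w (zb s) x < ε * c⁻¹ := by
      rw [← div_eq_mul_inv, lt_div_iff₀ hcpos]; linarith
    calc Nm w (zb s) x * ∏ b, w (I b) < (ε * c⁻¹) * ∏ b, w (I b) :=
          mul_lt_mul_of_pos_right h5 hwI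
      _ = _ := by ring
  exact h4

end

end Pool.Agent.W71
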