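import Mathlib
import Pool.Agent.W71.Stage

/-! One time level of the construction, combined statement. -/

set_option autoImplicit false

open Polynomial Set MeasureTheory

namespace Pool.Agent.W71

open Pool.Agent.Helper404 (toP castQ Dt IB SB W W_ne_zero W_eq_Dt mu term Nm term_le exists_term
  term_nonneg Nm_nonneg nrm laplace rk rk_strict botS Nm_empty castQ_eq_zero Dt_natDegree
  lagrange_bound sublevel kmC kmC_nonneg Nm_cont)

variable {n : ℕ}

/-- exponent of the real step -/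
noncomputable def aR (n : ℕ) : ℝ := 1 / (((n + 1) * n : ℕ) : ℝ)

section
variable {ℓ : ℕ} [hp : Fact ℓ.Prime]

lemma rk_top {s : SB n} (hs : s.1 = ⊤) : rk s = n + 1 := by
  unfold rk; rw [hs]; simp

lemma rk_eq_zero_iff {s : SB n} : rk s = 0 ↔ s.1 = ⊥ := by
  unfold rk; exact Submodule.finrank_eq_zero

lemma rk_le (s : SB n) : rk s ≤ n + 1 := by rw [← zd_eq]; exact zd_le s

lemma rk_eq_top {s : SB n} (hs : rk s = n + 1) : s.1 = ⊤ := by
  apply Submodule.eq_top_of_finrank_eq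
  unfold rk at hs; rw [hs]; simp

theorem level (hn : 1 ≤ n) (hℓ : (n + 1) * n < ℓ) {β e νp νd : ℝ} (hνp : 0 ≤ νp) (hνd : 0 ≤ νd)
    (hR : Rich n ℓ β e νp νd) :
    ∃ c : ℝ, 0 < c ∧ c ≤ 1 ∧ ∃ m0 : ℕ, ∀ m : ℕ, m0 ≤ m → ∀ t : ℝ, 0 ≤ t → ∀ u : ℕ, ∀ ε₂ : ℝ,
      0 < ε₂ → ε₂ ≤ 1 → ∃ B : Finset ℕ,
        B.card * ℓ ^ u ≤ 2 * tK ℓ ((n + 1) * n) (n + 1) * ℓ ^ m ∧
        ∀ p : ℕ, p < ℓ ^ m → p ∉ B →
          volume {z ∈ Ico (β + rad ℓ e m) (β + rad ℓ e m + rad ℓ e m) |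
            ¬ (OkP n ((p : ℝ) / (ℓ : ℝ) ^ m + z) t
                (c * (((ℓ : ℝ) ^ (u * ((n + 1) * n)))⁻¹ * ε₂) * Real.exp (-(νp * t))) ∧
               OkD n ((p : ℝ) / (ℓ : ℝ) ^ m + z) t
                (c * (((ℓ : ℝ) ^ (u * ((n + 1) * n)))⁻¹ * ε₂) * Real.exp (-(νd * t))))} ≤
            ENNReal.ofReal (2 * ((kmC (cR n) (n + 1) + (n + 1) * cR n) * ε₂ ^ (aR n))) *
              ENNReal.ofReal (rad ℓ e m) := by
  classical
  obtain ⟨c, hc, hc1, m1, hrich⟩ := hR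
  refine ⟨c / (4 * (n + 1)), by positivity, ?_, max m1 1, ?_⟩
  · rw [div_le_one (by positivity)]
    have : (0 : ℝ) ≤ n := Nat.cast_nonneg n
    linarith
  intro m hm t ht u ε₂ hε₂ hε₂1
  have hm1 : m1 ≤ m := (le_max_left _ _).trans hm
  have hm1' : 1 ≤ m := (le_max_right _ _).trans hm
  have hℓpos : (0 : ℝ) < ℓ := by exact_mod_cast hp.out.pos
  have hℓone : (1 : ℝ) ≤ ℓ := by exact_mod_cast hp.out.one_lt.le
  set r := rad ℓ e m with hr
  have hrpos : 0 < r := rad_pos _ _ _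
  set ρp := c * Real.exp (-(νp * t)) with hρp
  set ρd := c * Real.exp (-(νd * t)) with hρd
  have hρp0 : 0 < ρp := by positivity
  have hρd0 : 0 < ρd := by positivity
  have hexp1 : ∀ ν : ℝ, 0 ≤ ν → Real.exp (-(ν * t)) ≤ 1 := by
    intro ν hν
    rw [Real.exp_le_one_iff]
    have := mul_nonneg hν ht
    linarith
  have hρp1 : ρp ≤ 1 := mul_le_one₀ hc1 (Real.exp_pos _).le (hexp1 _ hνp)
  have hρd1 : ρd ≤ 1 := mul_le_one₀ hc1 (Real.exp_pos _).le (hexp1 _ hνd)
  set ε₁ : ℝ := ((ℓ : ℝ) ^ (u * ((n + 1) * n)))⁻¹ with hε₁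
  have hε₁0 : 0 < ε₁ := by positivity
  have hε₁1 : ε₁ ≤ 1 := inv_le_one_of_one_le₀ (one_le_pow₀ hℓone)
  have hcard : ∀ p ≤ (n + 1) * n, p < ℓ ^ (m + u) := by
    intro p hp1
    have h1 : ℓ ^ 1 ≤ ℓ ^ (m + u) := Nat.pow_le_pow_right hp.out.pos (by omega)
    rw [pow_one] at h1
    omega
  have hpow : ∀ (ν : ℝ) (k : ℕ), 1 ≤ k →
      (c * Real.exp (-(ν * t))) ^ k ≤ c * Real.exp (-((k : ℝ) * ν * t)) := by
    intro ν k hk
    rw [mul_pow, ← Real.exp_nat_mul]
    have h1 : c ^ k ≤ c := by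
      calc c ^ k ≤ c ^ 1 := pow_le_pow_of_le_one hc.le hc1 hk
        _ = c := pow_one c
    have h2 : (k : ℝ) * -(ν * t) = -((k : ℝ) * ν * t) := by ring
    rw [h2]
    exact mul_le_mul_of_nonneg_right h1 (Real.exp_pos _).le
  -- the primal family
  have hP := level_tree (ℓ := ℓ) (wt n t) (wt_pos t) (fun s => ρp ^ (rk s))
    (fun s => by positivity) {s : SB n | s.1 ≠ ⊥} (Finset.Icc 1 (n + 1)) (by
      intro s hs
      rw [Finset.mem_Icc]
      refine ⟨?_, rk_le s⟩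
      rw [Nat.one_le_iff_ne_zero]
      exact fun h => hs (rk_eq_zero_iff.1 h)) (β + r) r hrpos m u (by
      intro s hs
      have hs1 : 1 ≤ rk s := by
        rw [Nat.one_le_iff_ne_zero]
        exact fun h => hs (rk_eq_zero_iff.1 h)
      by_cases hs2 : rk s ≤ n
      · obtain ⟨z, hz, p, hp1, hp2, -⟩ := hrich m hm1 t ht s hs1 hs2
        refine ⟨z, hz, p, hcard p hp1, ?_⟩
        rw [mul_div_assoc', one_le_div (by positivity)]
        exact (hpow νp (rk s) hs1).trans hp2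
      · have hs3 : s.1 = ⊤ := rk_eq_top (by have := rk_le s; omega)
        refine ⟨β + r, ⟨le_rfl, by linarith⟩, 0, by have := hp.out.pos; positivity, ?_⟩
        rw [mul_div_assoc', top_norm _ (wt_pos t) (wt_prod t) s hs3, one_le_div (by positivity)]
        exact pow_le_one₀ hρp0.le hρp1)
  have hD := level_tree (ℓ := ℓ) (wt n t) (wt_pos t) (fun s => ρd ^ (n + 1 - rk s))
    (fun s => by positivity) {s : SB n | s.1 ≠ ⊤} (Finset.Icc 0 n) (by
      intro s hs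
      rw [Finset.mem_Icc]
      refine ⟨by omega, ?_⟩
      by_contra hcon
      exact hs (rk_eq_top (by have := rk_le s; omega))) (β + r) r hrpos m u (by
      intro s hs
      have hs2 : rk s ≤ n := by
        by_contra hcon
        exact hs (rk_eq_top (by have := rk_le s; omega))
      by_cases hs1 : 1 ≤ rk s
      · obtain ⟨z, hz, p, hp1, -, hp2⟩ := hrich m hm1 t ht s hs1 hs2
        refine ⟨z, hz, p, hcard p hp1, ?_⟩
        rw [mul_div_assoc', one_le_div (by positivity)]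
        refine (hpow νd (n + 1 - rk s) (by omega)).trans ?_
        have h3 : ((n + 1 - rk s : ℕ) : ℝ) = (n : ℝ) + 1 - rk s := by
          rw [Nat.cast_sub (by omega)]; push_cast; ring
        rw [h3]; exact hp2
      · have hs3 : s.1 = ⊥ := rk_eq_zero_iff.1 (by omega)
        refine ⟨β + r, ⟨le_rfl, by linarith⟩, 0, by have := hp.out.pos; positivity, ?_⟩
        rw [mul_div_assoc', bot_norm _ s hs3, one_le_div (by positivity)]
        exact pow_le_one₀ hρd0.le hρd1)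
  rw [Nat.card_Icc] at hP hD
  simp only [Nat.add_sub_cancel, Nat.sub_zero] at hP hD
  set MP : ℕ → Prop := fun p => MarkedAt (fun s : SB n => sSup (Nm (wt n t) (zb s) ''
    Ico (β + r) (β + r + r)) * (Ux ℓ (zb s) (pt ℓ m p) / ρp ^ (rk s))) {s : SB n | s.1 ≠ ⊥} ε₁ with hMP
  set MD : ℕ → Prop := fun p => MarkedAt (fun s : SB n => sSup (Nm (wt n t) (zb s) ''
    Ico (β + r) (β + r + r)) * (Ux ℓ (zb s) (pt ℓ m p) / ρd ^ (n + 1 - rk s)))
    {s : SB n | s.1 ≠ ⊤} ε₁ with hMD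
  refine ⟨(Finset.range (ℓ ^ m)).filter (fun p => ¬ MP p) ∪
    (Finset.range (ℓ ^ m)).filter (fun p => ¬ MD p), ?_, ?_⟩
  · calc _ ≤ (((Finset.range (ℓ ^ m)).filter (fun p => ¬ MP p)).card +
        ((Finset.range (ℓ ^ m)).filter (fun p => ¬ MD p)).card) * ℓ ^ u :=
          Nat.mul_le_mul_right _ (Finset.card_union_le _ _)
      _ = ((Finset.range (ℓ ^ m)).filter (fun p => ¬ MP p)).card * ℓ ^ u +
        ((Finset.range (ℓ ^ m)).filter (fun p => ¬ MD p)).card * ℓ ^ u := by ring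
      _ ≤ tK ℓ ((n + 1) * n) (n + 1) * ℓ ^ m + tK ℓ ((n + 1) * n) (n + 1) * ℓ ^ m :=
          Nat.add_le_add hP hD
      _ = _ := by ring
  · intro p hpm hpB
    rw [Finset.mem_union, not_or, Finset.mem_filter, Finset.mem_filter, Finset.mem_range] at hpB
    have hpP : MP p := by
      by_contra h
      exact hpB.1 ⟨hpm, h⟩
    have hpD : MD p := by
      by_contra h
      exact hpB.2 ⟨hpm, h⟩
    have hcRn := cR_nonneg n
    have hkm := kmC_nonneg hcRn (n + 1)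
    have hεα : 0 ≤ ε₂ ^ aR n := Real.rpow_nonneg hε₂.le _
    have h1 := two (fun (s : SB n) z => Nm (wt n t) (zb s) z) (fun s => Nm_cont _ _)
      (fun s z => Nm_nonneg _ (wt_pos t) _ _) rk (fun s s' h => rk_strict s s' h)
      (cR n) (aR n) hcRn (fun s c' hc' a l hl hex ε hε =>
        real_good hn (wt n t) (wt_pos t) s c' hc' a l hl hex ε hε)
      (fun s => Ux ℓ (zb s) (pt ℓ m p) / ρp ^ (rk s))
      (fun s => div_nonneg (Ux_nonneg _ _) (by positivity)) {s : SB n | s.1 ≠ ⊥}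
      (Finset.Icc 1 (n + 1)) (by
        intro s hs
        rw [Finset.mem_Icc]
        refine ⟨?_, rk_le s⟩
        rw [Nat.one_le_iff_ne_zero]
        exact fun h => hs (rk_eq_zero_iff.1 h)) (β + r) r hrpos ε₁ ε₂ hε₁0 hε₁1 hε₂ hε₂1 hpP
    have h2 := two (fun (s : SB n) z => Nm (wt n t) (zb s) z) (fun s => Nm_cont _ _)
      (fun s z => Nm_nonneg _ (wt_pos t) _ _) rk (fun s s' h => rk_strict s s' h)
      (cR n) (aR n) hcRn (fun s c' hc' a l hl hex ε hε =>
        real_good hn (wt n t) (wt_pos t) s c' hc' a l hl hex ε hε)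
      (fun s => Ux ℓ (zb s) (pt ℓ m p) / ρd ^ (n + 1 - rk s))
      (fun s => div_nonneg (Ux_nonneg _ _) (by positivity)) {s : SB n | s.1 ≠ ⊤}
      (Finset.Icc 0 n) (by
        intro s hs
        rw [Finset.mem_Icc]
        refine ⟨by omega, ?_⟩
        by_contra hcon
        exact hs (rk_eq_top (by have := rk_le s; omega))) (β + r) r hrpos ε₁ ε₂ hε₁0 hε₁1 hε₂
        hε₂1 hpD
    rw [Nat.card_Icc] at h1 h2
    simp only [Nat.add_sub_cancel, Nat.sub_zero] at h1 h2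
    push_cast at h1 h2
    have hsub : {z ∈ Ico (β + r) (β + r + r) |
            ¬ (OkP n ((p : ℝ) / (ℓ : ℝ) ^ m + z) t
                (c / (4 * (n + 1)) * (ε₁ * ε₂) * Real.exp (-(νp * t))) ∧
               OkD n ((p : ℝ) / (ℓ : ℝ) ^ m + z) t
                (c / (4 * (n + 1)) * (ε₁ * ε₂) * Real.exp (-(νd * t))))} ⊆
        {z ∈ Ico (β + r) (β + r + r) | ¬ Mk (fun s : SB n => Nm (wt n t) (zb s) z *
          (Ux ℓ (zb s) (pt ℓ m p) / ρp ^ (rk s))) {s : SB n | s.1 ≠ ⊥} (ε₁ * ε₂ / 2)} ∪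
        {z ∈ Ico (β + r) (β + r + r) | ¬ Mk (fun s : SB n => Nm (wt n t) (zb s) z *
          (Ux ℓ (zb s) (pt ℓ m p) / ρd ^ (n + 1 - rk s))) {s : SB n | s.1 ≠ ⊤} (ε₁ * ε₂ / 2)} := by
      rintro z ⟨hz, hz'⟩
      by_contra hcon
      rw [mem_union, not_or] at hcon
      apply hz'
      have hn1 : (0 : ℝ) < (n : ℝ) + 1 := by positivity
      constructor
      · refine okP_of_Mk m p z t ρp (ε₁ * ε₂ / 2) _ hρp0 ?_ ?_
        · by_contra h; exact hcon.1 ⟨hz, h⟩
        · have h3 : c / (4 * ((n : ℝ) + 1)) * (ε₁ * ε₂) * Real.exp (-(νp * t)) * (n + 1) =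
              (1 / 4) * (ε₁ * ε₂ * ρp) := by rw [hρp]; field_simp
          rw [h3]
          have h4 : 0 < ε₁ * ε₂ * ρp := by positivity
          linarith
      · refine okD_of_Mk m p z t ρd (ε₁ * ε₂ / 2) _ hρd0 ?_ ?_
        · by_contra h; exact hcon.2 ⟨hz, h⟩
        · have h3 : c / (4 * ((n : ℝ) + 1)) * (ε₁ * ε₂) * Real.exp (-(νd * t)) * (n + 1) =
              (1 / 4) * (ε₁ * ε₂ * ρd) := by rw [hρd]; field_simp
          rw [h3]
          have h4 : 0 < ε₁ * ε₂ * ρd := by positivity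
          linarith
    refine (measure_mono hsub).trans ((measure_union_le _ _).trans ((add_le_add h1 h2).trans ?_))
    rw [← add_mul, ← ENNReal.ofReal_add (by positivity) (by positivity)]
    refine le_of_eq ?_
    congr 2
    ring

end

end Pool.Agent.W71
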