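import Mathlib
import Pool.Agent.W71.Stage2

/-! All time levels: the stage lemma. -/

set_option autoImplicit false

open Polynomial Set MeasureTheory

namespace Pool.Agent.W71

open Pool.Agent.Helper404 (kmC kmC_nonneg)

variable {n : ℕ}

lemma OkP.mono {ξ t κ κ' : ℝ} (h : OkP n ξ t κ) (hκ : κ' ≤ κ) : OkP n ξ t κ' := by
  intro v hv
  obtain ⟨k, hk⟩ := h v hv
  exact ⟨k, (mul_le_mul_of_nonneg_right hκ (wt_pos t k).le).trans hk⟩

lemma OkD.mono {ξ t κ κ' : ℝ} (h : OkD n ξ t κ) (hκ : κ' ≤ κ) : OkD n ξ t κ' := by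
  intro v hv
  obtain ⟨k, hk⟩ := h v hv
  exact ⟨k, hκ.trans hk⟩

/-- goodness at all integer times from `T` on -/
def Okk (n : ℕ) (νp νd ε : ℝ) (T : ℕ) (ξ : ℝ) : Prop :=
  ∀ t : ℕ, T ≤ t → OkP n ξ t (Real.exp (-((νp + ε) * t))) ∧ OkD n ξ t (Real.exp (-((νd + ε) * t)))

section
variable {ℓ : ℕ} [hp : Fact ℓ.Prime]

theorem stage (hn : 1 ≤ n) (hℓ : (n + 1) * n < ℓ) {β e νp νd : ℝ} (hνp : 0 ≤ νp) (hνd : 0 ≤ νd)
    (hR : Rich n ℓ β e νp νd) (ε δ : ℝ) (hε : 0 < ε) (hδ : 0 < δ) :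
    ∃ T0 m0 : ℕ, ∀ m : ℕ, m0 ≤ m → ∃ B : Finset ℕ, (B.card : ℝ) ≤ δ * (ℓ : ℝ) ^ m ∧
      ∀ p : ℕ, p < ℓ ^ m → p ∉ B →
        volume {z ∈ Ico (β + rad ℓ e m) (β + rad ℓ e m + rad ℓ e m) |
          ¬ Okk n νp νd ε T0 ((p : ℝ) / (ℓ : ℝ) ^ m + z)} ≤
          ENNReal.ofReal δ * ENNReal.ofReal (rad ℓ e m) := by
  classical
  obtain ⟨c, hc, hc1, m0, hlev⟩ := level hn hℓ hνp hνd hR
  have hℓpos : (0 : ℝ) < ℓ := by exact_mod_cast hp.out.pos
  have hℓ1 : (1 : ℝ) < ℓ := by exact_mod_cast hp.out.one_lt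
  set L := Real.log ℓ with hL
  have hL0 : 0 < L := Real.log_pos hℓ1
  set D : ℕ := (n + 1) * n with hD
  have hD1 : 1 ≤ D := by rw [hD]; nlinarith
  -- the step `N`
  obtain ⟨N, hN⟩ := exists_nat_ge (4 * D * L / ε)
  have hN0 : (0 : ℝ) < N := by
    have hDR : (0 : ℝ) < D := by exact_mod_cast hD1
    exact lt_of_lt_of_le (by positivity) hN
  have hN0' : 0 < N := by exact_mod_cast hN0
  have hDN : D * L / N ≤ ε / 4 := by
    rw [div_le_iff₀ hε] at hN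
    rw [div_le_iff₀ hN0]
    nlinarith
  set θ := Real.exp (-(L / N)) with hθ
  have hθ0 : 0 < θ := Real.exp_pos _
  have hθ1 : θ < 1 := by rw [hθ, Real.exp_lt_one_iff]; have : 0 < L / N := by positivity
                         linarith
  set α := aR n with hα
  have hα0 : 0 < α := by
    rw [hα, aR]
    have : (0 : ℝ) < (((n + 1) * n : ℕ) : ℝ) := by exact_mod_cast hD1
    positivity
  set φ := Real.exp (-(ε / 4 * α)) with hφ
  have hφ0 : 0 < φ := Real.exp_pos _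
  have hφ1 : φ < 1 := by rw [hφ, Real.exp_lt_one_iff]; have : 0 < ε / 4 * α := by positivity
                         linarith
  set K1 : ℝ := 2 * (tK ℓ D (n + 1) : ℕ) * ℓ with hK1
  have hK10 : 0 ≤ K1 := by positivity
  set K2 : ℝ := 2 * (kmC (cR n) (n + 1) + (n + 1) * cR n) with hK2
  have hK20 : 0 ≤ K2 := by
    have h1 := cR_nonneg n
    have h2 := kmC_nonneg h1 (n + 1)
    positivity
  -- choice of `T0`
  have htend : ∀ (x K : ℝ), 0 < x → x < 1 → 0 ≤ K → ∃ T : ℕ, ∀ t : ℕ, T ≤ t →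
      K * (x ^ t / (1 - x)) ≤ δ := by
    intro x K hx0 hx1 hK
    have h1 : Filter.Tendsto (fun t : ℕ => K * (x ^ t / (1 - x))) Filter.atTop (nhds (K * (0 / (1 - x)))) :=
      ((tendsto_pow_atTop_nhds_zero_of_lt_one hx0.le hx1).div_const _).const_mul _
    rw [zero_div, mul_zero] at h1
    have h2 := (h1.eventually (gt_mem_nhds hδ))
    obtain ⟨T, hT⟩ := Filter.eventually_atTop.1 h2
    exact ⟨T, fun t ht => (hT t ht).le⟩
  obtain ⟨T1, hT1⟩ := htend θ K1 hθ0 hθ1 hK10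
  obtain ⟨T2, hT2⟩ := htend φ K2 hφ0 hφ1 hK20
  obtain ⟨T3, hT3⟩ := exists_nat_ge (2 * (-Real.log c) / ε)
  set T0 := max T1 (max T2 T3) with hT0
  refine ⟨T0, m0, fun m hm => ?_⟩
  -- the level data at integer times
  have hlevt : ∀ t : ℕ, ∃ B : Finset ℕ, (B.card : ℝ) ≤ K1 * θ ^ t * (ℓ : ℝ) ^ m ∧
        ∀ p : ℕ, p < ℓ ^ m → p ∉ B →
          volume {z ∈ Ico (β + rad ℓ e m) (β + rad ℓ e m + rad ℓ e m) |
            ¬ (OkP n ((p : ℝ) / (ℓ : ℝ) ^ m + z) t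
                (c * Real.exp (-(ε / 2 * t)) * Real.exp (-(νp * t))) ∧
               OkD n ((p : ℝ) / (ℓ : ℝ) ^ m + z) t
                (c * Real.exp (-(ε / 2 * t)) * Real.exp (-(νd * t))))} ≤
            ENNReal.ofReal (K2 * φ ^ t) * ENNReal.ofReal (rad ℓ e m) := by
    intro t
    have ht0 : (0 : ℝ) ≤ t := Nat.cast_nonneg t
    obtain ⟨B, hB1, hB2⟩ := hlev m hm t ht0 (t / N) (Real.exp (-(ε / 4 * t))) (Real.exp_pos _)
      (by rw [Real.exp_le_one_iff]; have : 0 ≤ ε / 4 * t := by positivity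
          linarith)
    have htN : (t : ℝ) / N - 1 ≤ ((t / N : ℕ) : ℝ) := by
      have h1 : t < N * (t / N + 1) := by
        have := Nat.div_add_mod t N
        have h2 := Nat.mod_lt t hN0'
        rw [mul_add, mul_one]; omega
      have h2 : (t : ℝ) < N * ((t / N : ℕ) + 1) := by exact_mod_cast h1
      have h3 : (t : ℝ) / N < (t / N : ℕ) + 1 := by
        rw [div_lt_iff₀ hN0]; linarith
      linarith
    have htN' : ((t / N : ℕ) : ℝ) ≤ (t : ℝ) / N := Nat.cast_div_le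
    have hpowexp : ∀ k : ℕ, (ℓ : ℝ) ^ k = Real.exp (k * L) := by
      intro k
      rw [Real.exp_nat_mul, hL, Real.exp_log hℓpos]
    refine ⟨B, ?_, ?_⟩
    · have hB1' : (B.card : ℝ) * (ℓ : ℝ) ^ (t / N) ≤ 2 * (tK ℓ D (n + 1) : ℕ) * (ℓ : ℝ) ^ m := by
        exact_mod_cast hB1
      have h1 : θ ^ t * ℓ * (ℓ : ℝ) ^ (t / N) ≥ 1 := by
        rw [hpowexp, hθ, ← Real.exp_nat_mul]
        have h2 : (ℓ : ℝ) = Real.exp L := by rw [hL, Real.exp_log hℓpos]
        rw [h2, ← Real.exp_add, ← Real.exp_add, ge_iff_le, Real.one_le_exp_iff]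
        have h3 : (t : ℝ) * -(L / N) + L + ((t / N : ℕ) : ℝ) * L =
            (((t / N : ℕ) : ℝ) - ((t : ℝ) / N - 1)) * L := by ring
        rw [h3]
        exact mul_nonneg (by linarith) hL0.le
      have hpos : (0 : ℝ) < (ℓ : ℝ) ^ (t / N) := by positivity
      have h4 : (B.card : ℝ) * (ℓ : ℝ) ^ (t / N) ≤ K1 * θ ^ t * (ℓ : ℝ) ^ m * (ℓ : ℝ) ^ (t / N) := by
        calc (B.card : ℝ) * (ℓ : ℝ) ^ (t / N) ≤ 2 * (tK ℓ D (n + 1) : ℕ) * (ℓ : ℝ) ^ m := hB1'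
          _ = 2 * (tK ℓ D (n + 1) : ℕ) * (ℓ : ℝ) ^ m * 1 := (mul_one _).symm
          _ ≤ 2 * (tK ℓ D (n + 1) : ℕ) * (ℓ : ℝ) ^ m * (θ ^ t * ℓ * (ℓ : ℝ) ^ (t / N)) :=
              mul_le_mul_of_nonneg_left h1 (by positivity)
          _ = _ := by rw [hK1]; ring
      exact le_of_mul_le_mul_right h4 hpos
    · intro p hp1 hp2
      have h1 := hB2 p hp1 hp2
      have h5 : Real.exp (-(ε / 4 * t)) ^ α = φ ^ t := by
        rw [← Real.exp_mul, hφ, ← Real.exp_nat_mul]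
        congr 1; ring
      have hK2' : 2 * ((kmC (cR n) (n + 1) + (n + 1) * cR n) * φ ^ t) = K2 * φ ^ t := by
        rw [hK2]; ring
      rw [h5, hK2'] at h1
      refine le_trans (measure_mono ?_) h1
      rintro z ⟨hz, hz'⟩
      refine ⟨hz, fun hcon => hz' ?_⟩
      have h6 : c * Real.exp (-(ε / 2 * t)) ≤
          c * (((ℓ : ℝ) ^ (t / N * D))⁻¹ * Real.exp (-(ε / 4 * t))) := by
        apply mul_le_mul_of_nonneg_left _ hc.le
        rw [hpowexp, ← Real.exp_neg, ← Real.exp_add, Real.exp_le_exp]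
        push_cast
        have h7 : ((t / N : ℕ) : ℝ) * D * L ≤ ε / 4 * t := by
          have hDL : (0 : ℝ) ≤ D * L := by positivity
          calc ((t / N : ℕ) : ℝ) * D * L = ((t / N : ℕ) : ℝ) * (D * L) := by ring
            _ ≤ ((t : ℝ) / N) * (D * L) := mul_le_mul_of_nonneg_right htN' hDL
            _ = (D * L / N) * t := by ring
            _ ≤ _ := mul_le_mul_of_nonneg_right hDN ht0
        linarith
      exact ⟨hcon.1.mono (mul_le_mul_of_nonneg_right h6 (Real.exp_pos _).le),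
        hcon.2.mono (mul_le_mul_of_nonneg_right h6 (Real.exp_pos _).le)⟩
  choose Bt hBt1 hBt2 using hlevt
  refine ⟨(Finset.range (ℓ ^ m)).filter (fun p => ∃ t, T0 ≤ t ∧ p ∈ Bt t), ?_, ?_⟩
  · -- cardinality
    set B := (Finset.range (ℓ ^ m)).filter (fun p => ∃ t, T0 ≤ t ∧ p ∈ Bt t) with hB
    have hex : ∀ p ∈ B, ∃ t, T0 ≤ t ∧ p ∈ Bt t := fun p hp => (Finset.mem_filter.1 hp).2
    choose! tp htp1 htp2 using hex
    obtain ⟨T', hT'⟩ : ∃ T' : ℕ, ∀ p ∈ B, tp p < T' := by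
      refine ⟨B.sup tp + 1, fun p hp => ?_⟩
      have := Finset.le_sup (f := tp) hp
      omega
    have hsub : B ⊆ (Finset.Ico T0 T').biUnion Bt := by
      intro p hp
      rw [Finset.mem_biUnion]
      exact ⟨tp p, Finset.mem_Ico.2 ⟨htp1 p hp, hT' p hp⟩, htp2 p hp⟩
    have h1 : (B.card : ℝ) ≤ ∑ t ∈ Finset.Ico T0 T', ((Bt t).card : ℝ) := by
      have := (Finset.card_le_card hsub).trans Finset.card_biUnion_le
      exact_mod_cast this
    have h1pos : 0 < 1 - θ := by linarith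
    calc (B.card : ℝ) ≤ ∑ t ∈ Finset.Ico T0 T', ((Bt t).card : ℝ) := h1
      _ ≤ ∑ t ∈ Finset.Ico T0 T', K1 * θ ^ t * (ℓ : ℝ) ^ m := Finset.sum_le_sum (fun t _ => hBt1 t)
      _ = K1 * (∑ t ∈ Finset.Ico T0 T', θ ^ t) * (ℓ : ℝ) ^ m := by
          rw [Finset.mul_sum, Finset.sum_mul]
      _ ≤ K1 * (θ ^ T0 / (1 - θ)) * (ℓ : ℝ) ^ m := by
          apply mul_le_mul_of_nonneg_right _ (by positivity)
          apply mul_le_mul_of_nonneg_left _ hK10
          exact geom_sum_Ico_le_of_lt_one hθ0.le hθ1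
      _ ≤ δ * (ℓ : ℝ) ^ m :=
          mul_le_mul_of_nonneg_right (hT1 T0 (le_max_left _ _)) (by positivity)
  · intro p hpm hpB
    have hpt : ∀ t, T0 ≤ t → p ∉ Bt t := by
      intro t ht hcon
      exact hpB (Finset.mem_filter.2 ⟨Finset.mem_range.2 hpm, t, ht, hcon⟩)
    set S : ℕ → Set ℝ := fun i => {z ∈ Ico (β + rad ℓ e m) (β + rad ℓ e m + rad ℓ e m) |
            ¬ (OkP n ((p : ℝ) / (ℓ : ℝ) ^ m + z) ((T0 + i : ℕ) : ℝ)
                (c * Real.exp (-(ε / 2 * ((T0 + i : ℕ) : ℝ))) * Real.exp (-(νp * ((T0 + i : ℕ) : ℝ)))) ∧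
               OkD n ((p : ℝ) / (ℓ : ℝ) ^ m + z) ((T0 + i : ℕ) : ℝ)
                (c * Real.exp (-(ε / 2 * ((T0 + i : ℕ) : ℝ))) * Real.exp (-(νd * ((T0 + i : ℕ) : ℝ)))))} with hS
    have hsub : {z ∈ Ico (β + rad ℓ e m) (β + rad ℓ e m + rad ℓ e m) |
          ¬ Okk n νp νd ε T0 ((p : ℝ) / (ℓ : ℝ) ^ m + z)} ⊆ ⋃ i, S i := by
      rintro z ⟨hz, hz'⟩
      by_contra hcon
      apply hz'
      intro t ht
      have h1 : z ∉ S (t - T0) := fun h => hcon (mem_iUnion.2 ⟨_, h⟩)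
      have h2 : OkP n ((p : ℝ) / (ℓ : ℝ) ^ m + z) ((T0 + (t - T0) : ℕ) : ℝ)
                (c * Real.exp (-(ε / 2 * ((T0 + (t - T0) : ℕ) : ℝ))) *
                  Real.exp (-(νp * ((T0 + (t - T0) : ℕ) : ℝ)))) ∧
               OkD n ((p : ℝ) / (ℓ : ℝ) ^ m + z) ((T0 + (t - T0) : ℕ) : ℝ)
                (c * Real.exp (-(ε / 2 * ((T0 + (t - T0) : ℕ) : ℝ))) *
                  Real.exp (-(νd * ((T0 + (t - T0) : ℕ) : ℝ)))) := by
        by_contra h
        exact h1 ⟨hz, h⟩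
      have h3 : T0 + (t - T0) = t := by omega
      rw [h3] at h2
      have h4 : c * Real.exp (-(ε / 2 * t)) ≥ Real.exp (-(ε * t)) := by
        have h5 : Real.exp (-(ε / 2 * t)) ≤ c := by
          rw [← Real.le_log_iff_exp_le hc]
          have h6 : (T3 : ℝ) ≤ t := by
            exact_mod_cast ((le_max_right _ _).trans (le_max_right _ _)).trans ht
          have h7 := hT3.trans h6
          rw [div_le_iff₀ hε] at h7
          linarith
        calc Real.exp (-(ε * t)) = Real.exp (-(ε / 2 * t)) * Real.exp (-(ε / 2 * t)) := by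
              rw [← Real.exp_add]; congr 1; ring
          _ ≤ c * Real.exp (-(ε / 2 * t)) := mul_le_mul_of_nonneg_right h5 (Real.exp_pos _).le
      have h8 : ∀ ν : ℝ, Real.exp (-((ν + ε) * t)) ≤
          c * Real.exp (-(ε / 2 * t)) * Real.exp (-(ν * t)) := by
        intro ν
        calc Real.exp (-((ν + ε) * t)) = Real.exp (-(ε * t)) * Real.exp (-(ν * t)) := by
              rw [← Real.exp_add]; congr 1; ring
          _ ≤ _ := mul_le_mul_of_nonneg_right h4 (Real.exp_pos _).le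
      exact ⟨h2.1.mono (h8 νp), h2.2.mono (h8 νd)⟩
    have h1φ : 0 < 1 - φ := by linarith
    have hsum : HasSum (fun i : ℕ => K2 * φ ^ (T0 + i)) (K2 * (φ ^ T0 / (1 - φ))) := by
      have h1 := (hasSum_geometric_of_lt_one hφ0.le hφ1).mul_left (K2 * φ ^ T0)
      have h2 : (fun i : ℕ => K2 * φ ^ T0 * φ ^ i) = (fun i : ℕ => K2 * φ ^ (T0 + i)) := by
        funext i; rw [pow_add]; ring
      rw [h2] at h1
      have h3 : K2 * (φ ^ T0 / (1 - φ)) = K2 * φ ^ T0 * (1 - φ)⁻¹ := by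
        rw [div_eq_mul_inv]; ring
      rw [h3]; exact h1
    calc volume {z ∈ Ico (β + rad ℓ e m) (β + rad ℓ e m + rad ℓ e m) |
          ¬ Okk n νp νd ε T0 ((p : ℝ) / (ℓ : ℝ) ^ m + z)}
        ≤ volume (⋃ i, S i) := measure_mono hsub
      _ ≤ ∑' i, volume (S i) := measure_iUnion_le _
      _ ≤ ∑' i, ENNReal.ofReal (K2 * φ ^ (T0 + i)) * ENNReal.ofReal (rad ℓ e m) :=
          ENNReal.tsum_le_tsum (fun i => hBt2 (T0 + i) p hpm (hpt _ (by omega)))
      _ = (∑' i, ENNReal.ofReal (K2 * φ ^ (T0 + i))) * ENNReal.ofReal (rad ℓ e m) :=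
          ENNReal.tsum_mul_right
      _ = ENNReal.ofReal (K2 * (φ ^ T0 / (1 - φ))) * ENNReal.ofReal (rad ℓ e m) := by
          rw [← ENNReal.ofReal_tsum_of_nonneg (fun i => by positivity) hsum.summable, hsum.tsum_eq]
      _ ≤ _ := by
          gcongr
          exact hT2 T0 ((le_max_left _ _).trans (le_max_right _ _))

end

end Pool.Agent.W71
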