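import Mathlib
import Pool.Agent.W71.Stage3

/-! Perturbation and periodicity of the goodness conditions. -/

set_option autoImplicit false

open Polynomial Set MeasureTheory

namespace Pool.Agent.W71

variable {n : ℕ}

/-- the loss constant -/
noncomputable def pC (n : ℕ) : ℝ := 2 * ((n + 1) * 2 ^ n)

lemma pC_pos (n : ℕ) : 0 < pC n := by unfold pC; positivity

lemma one_le_pC (n : ℕ) : 1 ≤ pC n := by
  unfold pC
  have h1 : (1 : ℝ) ≤ 2 ^ n := one_le_pow₀ (by norm_num)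
  have h2 : (0 : ℝ) ≤ n := Nat.cast_nonneg n
  nlinarith

lemma choose_le_two_pow' (l k : ℕ) (hl : l ≤ n) : ((l.choose k : ℕ) : ℝ) ≤ 2 ^ n := by
  have h1 : l.choose k ≤ 2 ^ n :=
    (Nat.choose_le_two_pow l k).trans (Nat.pow_le_pow_right (by norm_num) hl)
  exact_mod_cast h1

lemma wt_mul_pow_le {t c : ℝ} (_ht : 0 ≤ t) (hc1 : |c| ≤ 1) (hc : |c| * Real.exp ((n + 1) * t) ≤ 1)
    (k l : Fin (n + 1)) (hkl : k < l) : wt n t l * |c| ^ ((l : ℕ) - k) ≤ wt n t k := by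
  have hl0 : l ≠ 0 := fun h => by rw [h] at hkl; exact absurd hkl (Fin.not_lt_zero k)
  have hkl' : (k : ℕ) < l := hkl
  by_cases hk : k = 0
  · subst hk
    rw [wt_ne hl0, wt_zero]
    have h1 : |c| ^ ((l : ℕ) - (0 : Fin (n + 1))) ≤ |c| := by
      calc |c| ^ ((l : ℕ) - (0 : Fin (n + 1))) ≤ |c| ^ 1 :=
            pow_le_pow_of_le_one (abs_nonneg _) hc1 (by omega)
        _ = |c| := pow_one _
    have h2 : Real.exp t * |c| ≤ Real.exp (-(n * t)) := by
      have h3 : Real.exp ((n + 1) * t) = Real.exp t * Real.exp (n * t) := by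
        rw [← Real.exp_add]; congr 1; ring
      rw [h3] at hc
      rw [Real.exp_neg, ← one_div, le_div_iff₀ (Real.exp_pos _)]
      linarith
    exact (mul_le_mul_of_nonneg_left h1 (Real.exp_pos _).le).trans h2
  · rw [wt_ne hl0, wt_ne hk]
    exact mul_le_of_le_one_right (Real.exp_pos _).le (pow_le_one₀ (abs_nonneg _) hc1)

lemma OkP.pert {ξ ξ' t κ : ℝ} (h : OkP n ξ t κ) (hκ : 0 < κ) (ht : 0 ≤ t)
    (hc1 : |ξ - ξ'| ≤ 1) (hc : |ξ - ξ'| * Real.exp ((n + 1) * t) ≤ 1) :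
    OkP n ξ' t (κ / pC n) := by
  intro v hv
  by_contra hcon
  push Not at hcon
  obtain ⟨k, hk⟩ := h v hv
  set c := ξ - ξ' with hcdef
  have h1 : ξ = ξ' + c := by rw [hcdef]; ring
  have hwk := wt_pos (n := n) t k
  rw [h1, hd_shift] at hk
  have h2 : |∑ l : Fin (n + 1), hd (l : ℕ) v ξ' * ((((l : ℕ).choose (k : ℕ) : ℕ) : ℝ) *
      c ^ ((l : ℕ) - k))| ≤ ∑ _l : Fin (n + 1), 2 ^ n * (κ / pC n * wt n t k) := by
    refine (Finset.abs_sum_le_sum_abs _ _).trans (Finset.sum_le_sum (fun l _ => ?_))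
    rw [abs_mul, abs_mul, abs_pow, Nat.abs_cast]
    rcases lt_or_ge l k with hlk | hlk
    · rw [Nat.choose_eq_zero_of_lt (by exact hlk)]
      simp only [Nat.cast_zero, zero_mul, mul_zero]
      have := pC_pos n
      positivity
    · have h3 : |hd (l : ℕ) v ξ'| * |c| ^ ((l : ℕ) - k) ≤ κ / pC n * wt n t k := by
        rcases hlk.lt_or_eq with hlk' | hlk'
        · calc |hd (l : ℕ) v ξ'| * |c| ^ ((l : ℕ) - k)
              ≤ (κ / pC n * wt n t l) * |c| ^ ((l : ℕ) - k) :=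
                mul_le_mul_of_nonneg_right (hcon l).le (by positivity)
            _ = κ / pC n * (wt n t l * |c| ^ ((l : ℕ) - k)) := by ring
            _ ≤ _ := mul_le_mul_of_nonneg_left (wt_mul_pow_le ht hc1 hc k l hlk')
                (div_pos hκ (pC_pos n)).le
        · subst hlk'
          rw [Nat.sub_self, pow_zero, mul_one]
          exact (hcon k).le
      have h4 := choose_le_two_pow' (n := n) (l : ℕ) (k : ℕ) (by have := l.2; omega)
      calc |hd (l : ℕ) v ξ'| * ((((l : ℕ).choose (k : ℕ) : ℕ) : ℝ) * |c| ^ ((l : ℕ) - k))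
          = (((l : ℕ).choose (k : ℕ) : ℕ) : ℝ) * (|hd (l : ℕ) v ξ'| * |c| ^ ((l : ℕ) - k)) := by ring
        _ ≤ 2 ^ n * (κ / pC n * wt n t k) :=
            mul_le_mul h4 h3 (by positivity) (by positivity)
  have h5 := hk.trans h2
  rw [Finset.sum_const, Finset.card_univ, Fintype.card_fin, nsmul_eq_mul] at h5
  have h6 : ((n + 1 : ℕ) : ℝ) * (2 ^ n * (κ / pC n * wt n t k)) = κ * wt n t k / 2 := by
    unfold pC; push_cast; field_simp
  rw [h6] at h5
  have : 0 < κ * wt n t k := by positivity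
  linarith

lemma OkD.pert {ξ ξ' t κ : ℝ} (h : OkD n ξ t κ) (hκ : 0 < κ) (ht : 0 ≤ t)
    (hc1 : |ξ - ξ'| ≤ 1) (hc : |ξ - ξ'| * Real.exp ((n + 1) * t) ≤ 1) :
    OkD n ξ' t (κ / pC n) := by
  intro y hy
  by_contra hcon
  push Not at hcon
  obtain ⟨k, hk⟩ := h y hy
  set c := ξ - ξ' with hcdef
  have h1 : ξ = ξ' + c := by rw [hcdef]; ring
  have hwk := wt_pos (n := n) t k
  rw [h1, dl_shift _ _ _ _ (by have := k.2; omega)] at hk
  have h2 : |∑ i : Fin (n + 1), dl y ξ' (i : ℕ) * ((((k : ℕ).choose (i : ℕ) : ℕ) : ℝ) *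
      (-c) ^ ((k : ℕ) - i))| * wt n t k ≤ ∑ _i : Fin (n + 1), 2 ^ n * (κ / pC n) := by
    refine (mul_le_mul_of_nonneg_right (Finset.abs_sum_le_sum_abs _ _) hwk.le).trans ?_
    rw [Finset.sum_mul]
    refine Finset.sum_le_sum (fun i _ => ?_)
    rw [abs_mul, abs_mul, abs_pow, abs_neg, Nat.abs_cast]
    rcases lt_or_ge k i with hlk | hlk
    · rw [Nat.choose_eq_zero_of_lt (by exact hlk)]
      simp only [Nat.cast_zero, zero_mul, mul_zero]
      have := pC_pos n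
      positivity
    · have h3 : |dl y ξ' (i : ℕ)| * |c| ^ ((k : ℕ) - i) * wt n t k ≤ κ / pC n := by
        rcases hlk.lt_or_eq with hlk' | hlk'
        · calc |dl y ξ' (i : ℕ)| * |c| ^ ((k : ℕ) - i) * wt n t k
              = |dl y ξ' (i : ℕ)| * (wt n t k * |c| ^ ((k : ℕ) - i)) := by ring
            _ ≤ |dl y ξ' (i : ℕ)| * wt n t i :=
                mul_le_mul_of_nonneg_left (wt_mul_pow_le ht hc1 hc i k hlk') (abs_nonneg _)
            _ ≤ _ := (hcon i).le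
        · subst hlk'
          rw [Nat.sub_self, pow_zero, mul_one]
          exact (hcon _).le
      have h4 := choose_le_two_pow' (n := n) (k : ℕ) (i : ℕ) (by have := k.2; omega)
      calc |dl y ξ' (i : ℕ)| * ((((k : ℕ).choose (i : ℕ) : ℕ) : ℝ) * |c| ^ ((k : ℕ) - i)) * wt n t k
          = (((k : ℕ).choose (i : ℕ) : ℕ) : ℝ) * (|dl y ξ' (i : ℕ)| * |c| ^ ((k : ℕ) - i) * wt n t k) := by
            ring
        _ ≤ 2 ^ n * (κ / pC n) :=
            mul_le_mul h4 h3 (by positivity) (by positivity)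
  have h5 := hk.trans h2
  rw [Finset.sum_const, Finset.card_univ, Fintype.card_fin, nsmul_eq_mul] at h5
  have h6 : ((n + 1 : ℕ) : ℝ) * (2 ^ n * (κ / pC n)) = κ / 2 := by
    unfold pC; push_cast; field_simp
  rw [h6] at h5
  linarith

lemma OkP.shift {ξ t κ : ℝ} (h : OkP n ξ t κ) (a : ℤ) : OkP n (a + ξ) t κ := by
  intro v hv
  obtain ⟨k, hk⟩ := h (tr 1 a v) (tr_ne_zero 1 one_ne_zero a v hv)
  refine ⟨k, ?_⟩
  rw [hd_tr 1 (by norm_num)] at hk
  simpa using hk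

lemma OkD.shift {ξ t κ : ℝ} (h : OkD n ξ t κ) (a : ℤ) : OkD n (a + ξ) t κ := by
  intro v hv
  obtain ⟨k, hk⟩ := h (trd 1 a v) (trd_ne_zero 1 one_ne_zero a v hv)
  refine ⟨k, ?_⟩
  rw [dl_trd 1 (by norm_num) _ _ _ (by have := k.2; omega)] at hk
  simpa using hk

lemma Okk.shift {νp νd ε ξ : ℝ} {T : ℕ} (h : Okk n νp νd ε T ξ) (a : ℤ) :
    Okk n νp νd ε T (a + ξ) := fun t ht => ⟨(h t ht).1.shift a, (h t ht).2.shift a⟩

lemma div_mod_real (q : ℕ) (hq : 0 < q) (p : ℤ) :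
    (p : ℝ) / q = ((p / (q : ℤ) : ℤ) : ℝ) + (((p % (q : ℤ)).toNat : ℕ) : ℝ) / q := by
  have hq' : (q : ℝ) ≠ 0 := by exact_mod_cast hq.ne'
  have h1 : 0 ≤ p % (q : ℤ) := Int.emod_nonneg _ (by exact_mod_cast hq.ne')
  have h2 : (((p % (q : ℤ)).toNat : ℕ) : ℝ) = ((p % (q : ℤ) : ℤ) : ℝ) := by
    have h3 : (((p % (q : ℤ)).toNat : ℕ) : ℤ) = p % (q : ℤ) := Int.toNat_of_nonneg h1
    exact_mod_cast h3
  rw [h2]
  field_simp
  have h4 := Int.emod_add_mul_ediv p (q : ℤ)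
  have h5 : (p : ℝ) = ((p % (q : ℤ) : ℤ) : ℝ) + q * ((p / (q : ℤ) : ℤ) : ℝ) := by exact_mod_cast h4.symm
  linarith

end Pool.Agent.W71
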