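import Mathlib
import Pool.Agent.W71.Pert

/-! The nested construction. -/

set_option autoImplicit false

open Polynomial Set MeasureTheory

namespace Pool.Agent.W71

variable {n : ℕ}

/-- selection of a good grid cell -/
lemma grid (a r β : ℝ) (hr : 0 < r) (hr1 : r ≤ 1) (q : ℕ) (hq : 32 / r ≤ q) (Bad : Set ℝ)
    (hBad : volume {ξ ∈ Ico a (a + r) | ξ ∈ Bad} ≤ ENNReal.ofReal (r / 2)) (B : Finset ℕ)
    (hB : (B.card : ℝ) ≤ r / 16 * q) :
    ∃ p : ℤ, a ≤ p / q + β ∧ (p + 1) / q + β ≤ a + r ∧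
      (∃ ξ0 ∈ Ico ((p : ℝ) / q + β) ((p + 1) / q + β), ξ0 ∉ Bad) ∧ (p % (q : ℤ)).toNat ∉ B := by
  classical
  have hq0 : (0 : ℝ) < q := lt_of_lt_of_le (by positivity) hq
  have hqN : 0 < q := by exact_mod_cast hq0
  have hqr : 32 / (q : ℝ) ≤ r := by
    rw [div_le_iff₀ hr] at hq
    rw [div_le_iff₀ hq0]; linarith
  by_contra hcon
  push Not at hcon
  set N : ℤ := ⌊(a - β) * q⌋ with hN
  set P : Finset ℤ := B.image (fun b : ℕ => N + (((b : ℤ) - N) % (q : ℤ))) ∪
    B.image (fun b : ℕ => N + q + (((b : ℤ) - N) % (q : ℤ))) with hP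
  have hPcard : P.card ≤ 2 * B.card := by
    have h1 := Finset.card_union_le (B.image (fun b : ℕ => N + (((b : ℤ) - N) % (q : ℤ))))
      (B.image (fun b : ℕ => N + q + (((b : ℤ) - N) % (q : ℤ))))
    have h2 := Finset.card_image_le (s := B) (f := fun b : ℕ => N + (((b : ℤ) - N) % (q : ℤ)))
    have h3 := Finset.card_image_le (s := B) (f := fun b : ℕ => N + q + (((b : ℤ) - N) % (q : ℤ)))
    rw [← hP] at h1
    omega
  have hcover : Ico a (a + r) ⊆ ({ξ ∈ Ico a (a + r) | ξ ∈ Bad} ∪ Ico a (a + 1 / q)) ∪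
      (Ico (a + r - 1 / q) (a + r) ∪ ⋃ p ∈ P, Ico ((p : ℝ) / q + β) ((p + 1) / q + β)) := by
    intro x hx
    by_cases hxB : x ∈ Bad
    · exact Or.inl (Or.inl ⟨hx, hxB⟩)
    set p : ℤ := ⌊(x - β) * q⌋ with hp
    have hp1 : (p : ℝ) ≤ (x - β) * q := Int.floor_le _
    have hp2 : (x - β) * q < p + 1 := Int.lt_floor_add_one _
    have hcell : x ∈ Ico ((p : ℝ) / q + β) ((p + 1) / q + β) := by
      constructor
      · have : (p : ℝ) / q ≤ x - β := by rw [div_le_iff₀ hq0]; exact hp1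
        linarith
      · have : x - β < ((p : ℝ) + 1) / q := by rw [lt_div_iff₀ hq0]; exact hp2
        linarith
    by_cases h1 : a ≤ p / q + β
    · by_cases h2 : ((p : ℝ) + 1) / q + β ≤ a + r
      · -- the residue is bad
        have h3 := hcon p h1 h2 ⟨x, hcell, hxB⟩
        right; right
        rw [mem_iUnion₂]
        refine ⟨p, ?_, hcell⟩
        have hNp : N ≤ p := by
          rw [hN, hp]
          apply Int.floor_le_floor
          apply mul_le_mul_of_nonneg_right _ hq0.le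
          linarith [hx.1]
        have hpN : p < N + 2 * q := by
          have h4 : (p : ℝ) < ((N + 2 * q : ℤ) : ℝ) := by
            have h5 : (a - β) * q < N + 1 := Int.lt_floor_add_one _
            have h6 : (x - β) * q ≤ (a - β) * q + q := by
              have : x ≤ a + 1 := by linarith [hx.2]
              nlinarith
            have h7 : (1 : ℝ) ≤ q := by exact_mod_cast hqN
            push_cast
            linarith
          exact_mod_cast h4
        have hqZ : (0 : ℤ) < q := by exact_mod_cast hqN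
        have h8 : (((p % (q : ℤ)).toNat : ℕ) : ℤ) = p % (q : ℤ) :=
          Int.toNat_of_nonneg (Int.emod_nonneg _ hqZ.ne')
        have h9 : ((((p % (q : ℤ)).toNat : ℕ) : ℤ) - N) % (q : ℤ) = (p - N) % (q : ℤ) := by
          rw [h8]; exact Int.emod_sub_emod p q N
        rw [hP, Finset.mem_union, Finset.mem_image, Finset.mem_image]
        by_cases h10 : p - N < q
        · left
          refine ⟨_, h3, ?_⟩
          rw [h9, Int.emod_eq_of_lt (by omega) h10]; ring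
        · right
          refine ⟨_, h3, ?_⟩
          have h11 : (p - N) % (q : ℤ) = p - N - q := by
            rw [← Int.sub_emod_right, Int.emod_eq_of_lt (by omega) (by omega)]
          rw [h9, h11]; ring
      · right; left
        push Not at h2
        refine ⟨?_, hx.2⟩
        have h3 : ((p : ℝ) + 1) / q = p / q + 1 / q := by ring
        have h4 := hcell.1
        linarith
    · left; right
      push Not at h1
      refine ⟨hx.1, ?_⟩
      have h3 : ((p : ℝ) + 1) / q = p / q + 1 / q := by ring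
      have h4 := hcell.2
      linarith
  have hvol : ENNReal.ofReal r ≤ ENNReal.ofReal (r / 2 + 1 / q + (1 / q + P.card * (1 / q))) := by
    calc ENNReal.ofReal r = volume (Ico a (a + r)) := by rw [Real.volume_Ico]; congr 1; ring
      _ ≤ (volume {ξ ∈ Ico a (a + r) | ξ ∈ Bad} + volume (Ico a (a + 1 / q))) +
          (volume (Ico (a + r - 1 / q) (a + r)) +
            ∑ p ∈ P, volume (Ico ((p : ℝ) / q + β) ((p + 1) / q + β))) := by
          refine (measure_mono hcover).trans ((measure_union_le _ _).trans ?_)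
          refine add_le_add (measure_union_le _ _) ((measure_union_le _ _).trans ?_)
          exact add_le_add le_rfl (measure_biUnion_finset_le _ _)
      _ ≤ (ENNReal.ofReal (r / 2) + ENNReal.ofReal (1 / q)) + (ENNReal.ofReal (1 / q) +
            ENNReal.ofReal (P.card * (1 / q))) := by
          refine add_le_add (add_le_add hBad ?_) (add_le_add ?_ ?_)
          · rw [Real.volume_Ico]; apply le_of_eq; congr 1; ring
          · rw [Real.volume_Ico]; apply le_of_eq; congr 1; ring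
          · have h1 : ∀ p ∈ P, volume (Ico ((p : ℝ) / q + β) ((p + 1) / q + β)) =
                ENNReal.ofReal (1 / q) := by
              intro p _
              rw [Real.volume_Ico]; congr 1; ring
            rw [Finset.sum_congr rfl h1, Finset.sum_const, nsmul_eq_mul,
              ENNReal.ofReal_mul (by positivity), ENNReal.ofReal_natCast]
      _ = _ := by
          rw [← ENNReal.ofReal_add (by positivity) (by positivity),
            ← ENNReal.ofReal_add (by positivity) (by positivity),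
            ← ENNReal.ofReal_add (by positivity) (by positivity)]
  rw [ENNReal.ofReal_le_ofReal_iff (by positivity)] at hvol
  have h1 : (P.card : ℝ) ≤ 2 * (r / 16 * q) := by
    have : (P.card : ℝ) ≤ 2 * B.card := by exact_mod_cast hPcard
    linarith
  have h2 : (P.card : ℝ) * (1 / q) ≤ r / 8 := by
    calc (P.card : ℝ) * (1 / q) ≤ 2 * (r / 16 * q) * (1 / q) :=
          mul_le_mul_of_nonneg_right h1 (by positivity)
      _ = r / 8 := by field_simp; ring
  have h3 : 1 / (q : ℝ) ≤ r / 32 := by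
    have : 1 / (q : ℝ) = (32 / q) / 32 := by ring
    rw [this]; linarith
  linarith

section
variable {ℓ : ℕ} [hp : Fact ℓ.Prime]

lemma rad_le (e : ℝ) (he : 2 ≤ e) (m : ℕ) (hm : 1 ≤ m) : rad ℓ e m ≤ 1 / (2 * (ℓ : ℝ) ^ m) := by
  have hℓpos : (0 : ℝ) < ℓ := by exact_mod_cast hp.out.pos
  have hℓ2 : (2 : ℝ) ≤ ℓ := by exact_mod_cast hp.out.two_le
  have hL0 : 0 < Real.log ℓ := Real.log_pos (by linarith)
  have h1 : rad ℓ e m ≤ rad ℓ 2 m := by
    unfold rad
    apply Real.exp_le_exp.2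
    have h2 : (0 : ℝ) ≤ m * Real.log ℓ := by positivity
    have := mul_le_mul_of_nonneg_right he h2
    linarith
  have h2 : rad ℓ 2 m = 1 / ((ℓ : ℝ) ^ m * (ℓ : ℝ) ^ m) := by
    unfold rad
    have h3 : (ℓ : ℝ) ^ m = Real.exp (m * Real.log ℓ) := by
      rw [Real.exp_nat_mul, Real.exp_log hℓpos]
    rw [h3, ← Real.exp_add, one_div, ← Real.exp_neg]
    congr 1; ring
  rw [h2] at h1
  refine h1.trans ?_
  apply one_div_le_one_div_of_le (by positivity)
  apply mul_le_mul_of_nonneg_right _ (by positivity)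
  calc (2 : ℝ) ≤ ℓ := hℓ2
    _ = (ℓ : ℝ) ^ 1 := (pow_one _).symm
    _ ≤ (ℓ : ℝ) ^ m := pow_le_pow_right₀ (by linarith) hm

lemma step (hn : 1 ≤ n) (hℓ : (n + 1) * n < ℓ) {β e νp νd : ℝ} (hνp : 0 ≤ νp) (hνd : 0 ≤ νd)
    (hR : Rich n ℓ β e νp νd) (ε : ℝ) (hε : 0 < ε) (a r : ℝ) (hr : 0 < r)
    (hr1 : r ≤ 1) (Bad : Set ℝ)
    (hBad : volume {ξ ∈ Ico a (a + r) | ξ ∈ Bad} ≤ ENNReal.ofReal (r / 2)) (M : ℕ) :
    ∃ m : ℕ, M ≤ m ∧ ∃ (p : ℤ) (T : ℕ), Real.exp ((n + 1) * T) ≤ (ℓ : ℝ) ^ m ∧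
      a ≤ p / (ℓ : ℝ) ^ m + β ∧ (p + 1) / (ℓ : ℝ) ^ m + β ≤ a + r ∧
      (∃ ξ0 ∈ Ico ((p : ℝ) / (ℓ : ℝ) ^ m + β) ((p + 1) / (ℓ : ℝ) ^ m + β), ξ0 ∉ Bad) ∧
      volume {ξ ∈ Ico ((p : ℝ) / (ℓ : ℝ) ^ m + β + rad ℓ e m)
        ((p : ℝ) / (ℓ : ℝ) ^ m + β + rad ℓ e m + rad ℓ e m) | ¬ Okk n νp νd ε T ξ} ≤
        ENNReal.ofReal (rad ℓ e m / 2) := by
  obtain ⟨T, m0, hst⟩ := stage hn hℓ hνp hνd hR ε (r / 16) hε (by positivity)
  have hℓpos : (0 : ℝ) < ℓ := by exact_mod_cast hp.out.pos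
  have hℓ1 : (1 : ℝ) < ℓ := by exact_mod_cast hp.out.one_lt
  have htend := tendsto_pow_atTop_atTop_of_one_lt hℓ1
  obtain ⟨m1, hm1⟩ := Filter.eventually_atTop.1 (htend.eventually_ge_atTop (32 / r))
  obtain ⟨m2, hm2⟩ := Filter.eventually_atTop.1
    (htend.eventually_ge_atTop (Real.exp ((n + 1) * T)))
  set m := max (max M m0) (max m1 m2) with hm
  have hmM : M ≤ m := (le_max_left _ _).trans (le_max_left _ _)
  have hmm0 : m0 ≤ m := (le_max_right _ _).trans (le_max_left _ _)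
  have hmm1 : m1 ≤ m := (le_max_left _ _).trans (le_max_right _ _)
  have hmm2 : m2 ≤ m := (le_max_right _ _).trans (le_max_right _ _)
  obtain ⟨B, hB1, hB2⟩ := hst m hmm0
  have hqpos : 0 < ℓ ^ m := pow_pos hp.out.pos _
  obtain ⟨p, hp1, hp2, hp3, hp4⟩ := grid a r β hr hr1 (ℓ ^ m) (by push_cast; exact hm1 m hmm1)
    Bad hBad B (by push_cast; exact hB1)
  push_cast at hp1 hp2 hp3
  refine ⟨m, hmM, p, T, hm2 m hmm2, hp1, hp2, hp3, ?_⟩
  set b : ℕ := (p % ((ℓ ^ m : ℕ) : ℤ)).toNat with hb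
  have hbq : b < ℓ ^ m := by
    have h1 : 0 ≤ p % ((ℓ ^ m : ℕ) : ℤ) := Int.emod_nonneg _ (by exact_mod_cast hqpos.ne')
    have h2 : p % ((ℓ ^ m : ℕ) : ℤ) < ((ℓ ^ m : ℕ) : ℤ) :=
      Int.emod_lt_of_pos _ (by exact_mod_cast hqpos)
    omega
  have h1 := hB2 b hbq hp4
  have h2 := div_mod_real (ℓ ^ m) hqpos p
  push_cast at h2
  have h3 : (((p % ((ℓ : ℤ) ^ m)).toNat : ℕ) : ℝ) = (b : ℝ) := by
    rw [hb]; push_cast; rfl
  rw [h3] at h2
  set k : ℤ := p / ((ℓ : ℤ) ^ m) with hk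
  set r' := rad ℓ e m with hr'
  have hr'pos : 0 < r' := rad_pos _ _ _
  -- translate
  have hsub : {ξ ∈ Ico ((p : ℝ) / (ℓ : ℝ) ^ m + β + r') ((p : ℝ) / (ℓ : ℝ) ^ m + β + r' + r') |
      ¬ Okk n νp νd ε T ξ} ⊆ (fun z => ((p : ℝ) / (ℓ : ℝ) ^ m) + z) ''
      {z ∈ Ico (β + r') (β + r' + r') | ¬ Okk n νp νd ε T ((b : ℝ) / (ℓ : ℝ) ^ m + z)} := by
    rintro ξ ⟨hξ, hξ'⟩
    refine ⟨ξ - (p : ℝ) / (ℓ : ℝ) ^ m, ⟨⟨by linarith [hξ.1], by linarith [hξ.2]⟩, ?_⟩, by ring⟩
    intro hcon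
    apply hξ'
    have h4 := hcon.shift k
    have h5 : (k : ℝ) + ((b : ℝ) / (ℓ : ℝ) ^ m + (ξ - (p : ℝ) / (ℓ : ℝ) ^ m)) = ξ := by
      rw [h2]; ring
    rwa [h5] at h4
  refine (measure_mono hsub).trans ?_
  have h6 : volume ((fun z => ((p : ℝ) / (ℓ : ℝ) ^ m) + z) ''
      {z ∈ Ico (β + r') (β + r' + r') | ¬ Okk n νp νd ε T ((b : ℝ) / (ℓ : ℝ) ^ m + z)}) =
      volume {z ∈ Ico (β + r') (β + r' + r') | ¬ Okk n νp νd ε T ((b : ℝ) / (ℓ : ℝ) ^ m + z)} := by
    rw [image_add_left, measure_preimage_add]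
  rw [h6]
  refine h1.trans ?_
  rw [← ENNReal.ofReal_mul (by positivity)]
  apply ENNReal.ofReal_le_ofReal
  nlinarith

end

end Pool.Agent.W71
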