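import Mathlib
import Pool.Agent.W71.Nest

/-! The nested construction, the limit point. -/

set_option autoImplicit false

open Polynomial Set MeasureTheory

namespace Pool.Agent.W71

variable {n : ℕ}

/-- a state of the construction -/
structure St where
  m : ℕ
  p : ℤ
  T : ℕ

/-- left end of the window -/
noncomputable def lf (ℓ : ℕ) (β e : ℝ) (s : St) : ℝ :=
  (s.p : ℝ) / (ℓ : ℝ) ^ s.m + β + rad ℓ e s.m

/-- invariant of a state -/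
def Inv (n ℓ : ℕ) (β e νp νd ε : ℝ) (s : St) : Prop :=
  1 ≤ s.m ∧ volume {ξ ∈ Ico (lf ℓ β e s) (lf ℓ β e s + rad ℓ e s.m) | ¬ Okk n νp νd ε s.T ξ} ≤
    ENNReal.ofReal (rad ℓ e s.m / 2)

section
variable {ℓ : ℕ} [hp : Fact ℓ.Prime]

lemma rad_le_one (e : ℝ) (he : 2 ≤ e) (m : ℕ) (hm : 1 ≤ m) : rad ℓ e m ≤ 1 := by
  have hℓ1 : (1 : ℝ) ≤ ℓ := by exact_mod_cast hp.out.one_lt.le
  refine (rad_le e he m hm).trans ?_
  have h1 : (1 : ℝ) ≤ (ℓ : ℝ) ^ m := one_le_pow₀ hℓ1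
  rw [div_le_one (by positivity)]
  linarith

lemma init_state (hn : 1 ≤ n) (hℓ : (n + 1) * n < ℓ) {β e νp νd : ℝ} (hνp : 0 ≤ νp)
    (hνd : 0 ≤ νd) (hR : Rich n ℓ β e νp νd) (ε : ℝ) (hε : 0 < ε) :
    ∃ s : St, Inv n ℓ β e νp νd ε s := by
  obtain ⟨m, hm, p, T, -, -, -, -, h⟩ := step (ℓ := ℓ) hn hℓ hνp hνd hR ε hε 0 1 one_pos le_rfl ∅
    (by simp) 1
  exact ⟨⟨m, p, T⟩, hm, h⟩

lemma next_state (hn : 1 ≤ n) (hℓ : (n + 1) * n < ℓ) {β e β' e' νp νd : ℝ} (he : 2 ≤ e)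
    (he' : 2 ≤ e') (hνp : 0 ≤ νp) (hνd : 0 ≤ νd) (hR : Rich n ℓ β' e' νp νd) (ε ε' : ℝ)
    (hε' : 0 < ε') (s : St) (hs : Inv n ℓ β e νp νd ε s) :
    ∃ s' : St, Inv n ℓ β' e' νp νd ε' s' ∧ s.m < s'.m ∧ lf ℓ β e s ≤ lf ℓ β' e' s' ∧
      lf ℓ β' e' s' + rad ℓ e' s'.m ≤ lf ℓ β e s + rad ℓ e s.m ∧
      Real.exp ((n + 1) * s'.T) ≤ (ℓ : ℝ) ^ s'.m ∧
      ∃ ξ0 : ℝ, Okk n νp νd ε s.T ξ0 ∧ ∀ ξ ∈ Icc (lf ℓ β' e' s') (lf ℓ β' e' s' + rad ℓ e' s'.m),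
        |ξ0 - ξ| ≤ 1 / (ℓ : ℝ) ^ s'.m := by
  obtain ⟨m, hm, p, T, h1, h2, h3, ⟨ξ0, hξ0, hξ0'⟩, h5⟩ := step (ℓ := ℓ) hn hℓ hνp hνd hR ε' hε'
    (lf ℓ β e s) (rad ℓ e s.m) (rad_pos _ _ _) (rad_le_one e he s.m hs.1)
    {ξ | ¬ Okk n νp νd ε s.T ξ} hs.2 (s.m + 1)
  have hℓpos : (0 : ℝ) < ℓ := by exact_mod_cast hp.out.pos
  have hr' := rad_pos ℓ e' m
  have hr'le := rad_le (ℓ := ℓ) e' he' m (by omega)
  have hq : 1 / (2 * (ℓ : ℝ) ^ m) = (1 / (ℓ : ℝ) ^ m) / 2 := by field_simp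
  rw [hq] at hr'le
  have hq2 : ((p : ℝ) + 1) / (ℓ : ℝ) ^ m = p / (ℓ : ℝ) ^ m + 1 / (ℓ : ℝ) ^ m := by ring
  rw [hq2] at h3 hξ0
  refine ⟨⟨m, p, T⟩, ⟨by simp only; omega, h5⟩, by simp only; omega, ?_, ?_, h1, ξ0, not_not.1 hξ0', ?_⟩
  · simp only [lf] at h2 ⊢
    linarith
  · simp only [lf] at h3 ⊢
    linarith
  · intro ξ hξ
    simp only [lf] at hξ ⊢
    rw [abs_le]
    constructor
    · linarith [hξ0.1, hξ.2]
    · linarith [hξ0.2, hξ.1]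

theorem nested (hn : 1 ≤ n) (hℓ : (n + 1) * n < ℓ) {νp νd : ℝ} (hνp : 0 ≤ νp)
    (hνd : 0 ≤ νd) (be ee : ℕ → ℝ) (hee : ∀ k, 2 ≤ ee k)
    (hR : ∀ k, Rich n ℓ (be k) (ee k) νp νd) :
    ∃ (m : ℕ → ℕ) (p : ℕ → ℤ) (ξ : ℝ), StrictMono m ∧ (∀ k, 1 ≤ m k) ∧
      (∀ k, ξ ∈ Icc ((p k : ℝ) / (ℓ : ℝ) ^ (m k) + be k + rad ℓ (ee k) (m k))
        ((p k : ℝ) / (ℓ : ℝ) ^ (m k) + be k + rad ℓ (ee k) (m k) + rad ℓ (ee k) (m k))) ∧
      ∀ ε : ℝ, 0 < ε → ∃ T : ℕ, ∀ t : ℕ, T ≤ t →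
        OkP n ξ t (Real.exp (-((νp + ε) * t))) ∧ OkD n ξ t (Real.exp (-((νd + ε) * t))) := by
  classical
  have hℓpos : (0 : ℝ) < ℓ := by exact_mod_cast hp.out.pos
  have hℓ1 : (1 : ℝ) < ℓ := by exact_mod_cast hp.out.one_lt
  set ep : ℕ → ℝ := fun k => 1 / ((k : ℝ) + 1) with hep
  have hep0 : ∀ k, 0 < ep k := fun k => by simp only [hep]; positivity
  -- the sequence
  obtain ⟨s0, hs0⟩ := init_state (ℓ := ℓ) hn hℓ hνp hνd (hR 0) (ep 0) (hep0 0)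
  have hnext : ∀ (k : ℕ) (s : {s : St // Inv n ℓ (be k) (ee k) νp νd (ep k) s}),
      ∃ s' : {s : St // Inv n ℓ (be (k + 1)) (ee (k + 1)) νp νd (ep (k + 1)) s},
        s.1.m < s'.1.m ∧ lf ℓ (be k) (ee k) s.1 ≤ lf ℓ (be (k + 1)) (ee (k + 1)) s'.1 ∧
      lf ℓ (be (k + 1)) (ee (k + 1)) s'.1 + rad ℓ (ee (k + 1)) s'.1.m ≤
        lf ℓ (be k) (ee k) s.1 + rad ℓ (ee k) s.1.m ∧
      Real.exp ((n + 1) * s'.1.T) ≤ (ℓ : ℝ) ^ s'.1.m ∧
      ∃ ξ0 : ℝ, Okk n νp νd (ep k) s.1.T ξ0 ∧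
        ∀ ξ ∈ Icc (lf ℓ (be (k + 1)) (ee (k + 1)) s'.1)
          (lf ℓ (be (k + 1)) (ee (k + 1)) s'.1 + rad ℓ (ee (k + 1)) s'.1.m),
        |ξ0 - ξ| ≤ 1 / (ℓ : ℝ) ^ s'.1.m := by
    rintro k ⟨s, hs⟩
    obtain ⟨s', h1, h2⟩ := next_state (ℓ := ℓ) hn hℓ (hee k) (hee (k + 1)) hνp hνd (hR (k + 1))
      (ep k) (ep (k + 1)) (hep0 _) s hs
    exact ⟨⟨s', h1⟩, h2⟩
  choose nx hnx using hnext
  let sq : (k : ℕ) → {s : St // Inv n ℓ (be k) (ee k) νp νd (ep k) s} := fun k =>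
    Nat.rec ⟨s0, hs0⟩ (fun k s => nx k s) k
  have hsq : ∀ k, sq (k + 1) = nx k (sq k) := fun k => rfl
  have hprop := fun k => hnx k (sq k)
  simp only [← hsq] at hprop
  set m : ℕ → ℕ := fun k => (sq k).1.m with hm
  set p : ℕ → ℤ := fun k => (sq k).1.p with hpdef
  set Tt : ℕ → ℕ := fun k => (sq k).1.T with hTt
  set A : ℕ → ℝ := fun k => lf ℓ (be k) (ee k) (sq k).1 with hA
  set Rr : ℕ → ℝ := fun k => rad ℓ (ee k) (sq k).1.m with hRr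
  have hRpos : ∀ k, 0 < Rr k := fun k => rad_pos _ _ _
  have hmono : StrictMono m := strictMono_nat_of_lt_succ (fun k => (hprop k).1)
  have hAmono : Monotone A := monotone_nat_of_le_succ (fun k => (hprop k).2.1)
  have hBanti : Antitone (fun k => A k + Rr k) :=
    antitone_nat_of_succ_le (fun k => (hprop k).2.2.1)
  have hAB : ∀ k, A k ≤ A k + Rr k := fun k => by linarith [hRpos k]
  have hall : ∀ j k, A j ≤ A k + Rr k := by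
    intro j k
    calc A j ≤ A (max j k) := hAmono (le_max_left _ _)
      _ ≤ A (max j k) + Rr (max j k) := hAB _
      _ ≤ A k + Rr k := hBanti (le_max_right _ _)
  have hbdd : BddAbove (Set.range A) := ⟨A 0 + Rr 0, by rintro _ ⟨j, rfl⟩; exact hall j 0⟩
  set ξ := sSup (Set.range A) with hξ
  have hξmem : ∀ k, ξ ∈ Icc (A k) (A k + Rr k) := by
    intro k
    refine ⟨le_csSup hbdd ⟨k, rfl⟩, csSup_le (Set.range_nonempty _) ?_⟩
    rintro _ ⟨j, rfl⟩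
    exact hall j k
  refine ⟨m, p, ξ, hmono, fun k => (sq k).2.1, hξmem, ?_⟩
  -- goodness
  have hmtop : ∀ t : ℕ, ∃ j, Real.exp ((n + 1) * t) ≤ (ℓ : ℝ) ^ (m (j + 1)) := by
    intro t
    obtain ⟨j, hj⟩ := Filter.eventually_atTop.1
      ((tendsto_pow_atTop_atTop_of_one_lt hℓ1).eventually_ge_atTop (Real.exp ((n + 1) * t)))
    exact ⟨j, hj _ ((Nat.le_succ j).trans (hmono.id_le (j + 1)))⟩
  have hgood : ∀ k t : ℕ, Tt k ≤ t → OkP n ξ t (Real.exp (-((νp + ep k) * t)) / pC n) ∧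
      OkD n ξ t (Real.exp (-((νd + ep k) * t)) / pC n) := by
    intro k t ht
    -- the right index
    obtain ⟨j, hkj, hTj, hj⟩ : ∃ j, k ≤ j ∧ Tt j ≤ t ∧
        Real.exp ((n + 1) * t) ≤ (ℓ : ℝ) ^ (m (j + 1)) := by
      have hex : ∃ j, k ≤ j ∧ Real.exp ((n + 1) * t) ≤ (ℓ : ℝ) ^ (m (j + 1)) := by
        obtain ⟨j, hj⟩ := hmtop t
        refine ⟨max j k, le_max_right _ _, hj.trans ?_⟩
        exact pow_le_pow_right₀ hℓ1.le (hmono.monotone (Nat.succ_le_succ (le_max_left j k)))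
      obtain ⟨h1, h2⟩ := Nat.find_spec hex
      refine ⟨Nat.find hex, h1, ?_, h2⟩
      rcases h1.lt_or_eq with h3 | h3
      · obtain ⟨i, hi⟩ : ∃ i, Nat.find hex = i + 1 := ⟨Nat.find hex - 1, by omega⟩
        have h4 := Nat.find_min hex (m := i) (by omega)
        rw [not_and, not_le] at h4
        have h5 := h4 (by omega)
        have h6 := (hprop i).2.2.2.1
        have h7 : Real.exp ((n + 1) * (Tt (i + 1) : ℝ)) < Real.exp ((n + 1) * (t : ℝ)) :=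
          lt_of_le_of_lt h6 h5
        rw [Real.exp_lt_exp] at h7
        have h8 : (Tt (i + 1) : ℝ) < t := by
          have : (0 : ℝ) < (n : ℝ) + 1 := by positivity
          exact lt_of_mul_lt_mul_left h7 this.le
        rw [hi]
        exact_mod_cast h8.le
      · rw [← h3]; exact ht
    obtain ⟨ξ0, hξ0, hξ0'⟩ := (hprop j).2.2.2.2
    have h1 := hξ0' ξ (hξmem (j + 1))
    have h2 := hξ0 t hTj
    have ht0 : (0 : ℝ) ≤ t := Nat.cast_nonneg t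
    have hq1 : (1 : ℝ) ≤ (ℓ : ℝ) ^ (m (j + 1)) := one_le_pow₀ hℓ1.le
    have hqpos : (0 : ℝ) < (ℓ : ℝ) ^ (m (j + 1)) := by positivity
    have hc1 : |ξ0 - ξ| ≤ 1 := h1.trans (by rw [div_le_one hqpos]; exact hq1)
    have hc2 : |ξ0 - ξ| * Real.exp ((n + 1) * t) ≤ 1 := by
      calc |ξ0 - ξ| * Real.exp ((n + 1) * t) ≤ 1 / (ℓ : ℝ) ^ (m (j + 1)) * (ℓ : ℝ) ^ (m (j + 1)) :=
            mul_le_mul h1 hj (Real.exp_pos _).le (by positivity)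
        _ = 1 := by field_simp
    have hepjk : ep j ≤ ep k := by
      simp only [hep]
      apply one_div_le_one_div_of_le (by positivity)
      have : (k : ℝ) ≤ j := by exact_mod_cast hkj
      linarith
    have hmon : ∀ ν : ℝ, Real.exp (-((ν + ep k) * t)) / pC n ≤ Real.exp (-((ν + ep j) * t)) / pC n := by
      intro ν
      have := pC_pos n
      gcongr
    exact ⟨(h2.1.pert (Real.exp_pos _) ht0 hc1 hc2).mono (hmon νp),
      (h2.2.pert (Real.exp_pos _) ht0 hc1 hc2).mono (hmon νd)⟩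
  intro ε hε
  obtain ⟨k, hk⟩ := exists_nat_ge (2 / ε)
  have hepk : ep k ≤ ε / 2 := by
    simp only [hep]
    rw [div_le_iff₀ hε] at hk
    rw [div_le_iff₀ (by positivity)]
    nlinarith
  obtain ⟨T1, hT1⟩ := exists_nat_ge (2 * Real.log (pC n) / ε)
  refine ⟨max (Tt k) T1, fun t ht => ?_⟩
  have h1 := hgood k t ((le_max_left _ _).trans ht)
  have h2 : (T1 : ℝ) ≤ t := by exact_mod_cast (le_max_right _ _).trans ht
  have h3 : Real.log (pC n) ≤ ε / 2 * t := by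
    have h4 := hT1.trans h2
    rw [div_le_iff₀ hε] at h4
    linarith
  have ht0 : (0 : ℝ) ≤ t := Nat.cast_nonneg t
  have h5 : ∀ ν : ℝ, Real.exp (-((ν + ε) * t)) ≤ Real.exp (-((ν + ep k) * t)) / pC n := by
    intro ν
    rw [le_div_iff₀ (pC_pos n)]
    calc Real.exp (-((ν + ε) * t)) * pC n
        = Real.exp (-((ν + ε) * t)) * Real.exp (Real.log (pC n)) := by
          rw [Real.exp_log (pC_pos n)]
      _ = Real.exp (-((ν + ε) * t) + Real.log (pC n)) := (Real.exp_add _ _).symm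
      _ ≤ Real.exp (-((ν + ep k) * t)) := by
          apply Real.exp_le_exp.2
          have h6 := mul_le_mul_of_nonneg_right hepk ht0
          nlinarith
  exact ⟨h1.1.mono (h5 νp), h1.2.mono (h5 νd)⟩

end

end Pool.Agent.W71
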