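import Mathlib
import Pool.Agent.W71.Nest2

/-! Consequences of the goodness conditions: the exponents are not too large. -/

set_option autoImplicit false

open Polynomial Set

namespace Pool.Agent.W71

open Pool.Agent.Helper404 (toP castQ toP_natDegree)

variable {n : ℕ}

/-- coefficient vector -/
def vec (n : ℕ) (P : ℤ[X]) : Fin (n + 1) → ℤ := fun i => P.coeff i

lemma toP_vec {P : ℤ[X]} (hP : P.natDegree ≤ n) : toP (vec n P) = P := by
  ext i
  by_cases hi : i < n + 1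
  · rw [toP_coeff' _ i hi]; rfl
  · rw [coeff_eq_zero_of_natDegree_lt, coeff_eq_zero_of_natDegree_lt]
    · omega
    · have := toP_natDegree (vec n P)
      omega

lemma vec_ne_zero {P : ℤ[X]} (hP : P.natDegree ≤ n) (h0 : P ≠ 0) : vec n P ≠ 0 := by
  intro h
  apply h0
  rw [← toP_vec hP, h]
  unfold toP; simp

lemma hd_vec {P : ℤ[X]} (hP : P.natDegree ≤ n) (ξ : ℝ) : hd 0 (vec n P) ξ = aeval ξ P := by
  unfold hd
  rw [toP_vec hP, hasseDeriv_zero]
  simp only [LinearMap.id_coe, id_eq]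
  rw [aeval_def, eval_map]; rfl

/-- the height -/
def Ht (n : ℕ) (P : ℤ[X]) : ℕ := (Finset.range (n + 1)).sup (fun i => (P.coeff i).natAbs)

lemma coeff_le_Ht {P : ℤ[X]} (i : Fin (n + 1)) : |(P.coeff i : ℝ)| ≤ Ht n P := by
  have h1 : (P.coeff i).natAbs ≤ Ht n P :=
    Finset.le_sup (f := fun i => (P.coeff i).natAbs) (Finset.mem_range.2 i.2)
  have h2 : |(P.coeff i : ℝ)| = ((P.coeff i).natAbs : ℝ) := by
    rw [Nat.cast_natAbs]; push_cast; rfl
  rw [h2]
  exact_mod_cast h1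

lemma Ht_pos {P : ℤ[X]} (hP : P.natDegree ≤ n) (h0 : P ≠ 0) : 1 ≤ Ht n P := by
  by_contra hcon
  have h1 : Ht n P = 0 := by omega
  apply vec_ne_zero hP h0
  ext i
  have h2 := coeff_le_Ht (P := P) i
  rw [h1] at h2
  have h3 : |(P.coeff i : ℝ)| = 0 := le_antisymm (by simpa using h2) (abs_nonneg _)
  have h4 : (P.coeff i : ℝ) = 0 := abs_eq_zero.1 h3
  change P.coeff i = 0
  exact_mod_cast h4

/-- finitely many polynomials of bounded height -/
lemma finite_Ht (n N : ℕ) : {P : ℤ[X] | P.natDegree ≤ n ∧ Ht n P ≤ N}.Finite := by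
  apply Set.Finite.subset
    ((Fintype.piFinset (fun _ : Fin (n + 1) => Finset.Icc (-(N : ℤ)) N)).finite_toSet.image
      (fun v => toP v))
  rintro P ⟨hP, hN⟩
  refine ⟨vec n P, ?_, toP_vec hP⟩
  rw [Finset.mem_coe, Fintype.mem_piFinset]
  intro i
  rw [Finset.mem_Icc, ← abs_le]
  have h1 : (P.coeff i).natAbs ≤ Ht n P :=
    Finset.le_sup (f := fun i => (P.coeff i).natAbs) (Finset.mem_range.2 i.2)
  change |P.coeff i| ≤ N
  rw [Int.abs_eq_natAbs]
  omega

/-- constant for derivatives -/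
noncomputable def cX (n : ℕ) (ξ : ℝ) : ℝ := (n + 1) * (2 ^ n * max 1 |ξ| ^ n)

lemma one_le_cX (n : ℕ) (ξ : ℝ) : 1 ≤ cX n ξ := by
  unfold cX
  have h1 : (1 : ℝ) ≤ 2 ^ n := one_le_pow₀ (by norm_num)
  have h2 : (1 : ℝ) ≤ max 1 |ξ| ^ n := one_le_pow₀ (le_max_left _ _)
  have h3 : (1 : ℝ) ≤ 2 ^ n * max 1 |ξ| ^ n := by nlinarith
  have h4 : (0 : ℝ) ≤ n := Nat.cast_nonneg n
  nlinarith

lemma pow_max_le (ξ : ℝ) (j : ℕ) (hj : j ≤ n) : |ξ| ^ j ≤ max 1 |ξ| ^ n := by
  calc |ξ| ^ j ≤ max 1 |ξ| ^ j := pow_le_pow_left₀ (abs_nonneg _) (le_max_right _ _) _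
    _ ≤ _ := pow_le_pow_right₀ (le_max_left _ _) hj

lemma hd_le (v : Fin (n + 1) → ℤ) (ξ H : ℝ) (hH : ∀ i, |(v i : ℝ)| ≤ H) (k : ℕ) :
    |hd k v ξ| ≤ cX n ξ * H := by
  have hH0 : 0 ≤ H := (abs_nonneg _).trans (hH 0)
  rw [hd_formula]
  refine (Finset.abs_sum_le_sum_abs _ _).trans ?_
  calc ∑ l : Fin (n + 1), |(v l : ℝ) * ((((l : ℕ).choose k : ℕ) : ℝ) * ξ ^ ((l : ℕ) - k))|
      ≤ ∑ _l : Fin (n + 1), H * (2 ^ n * max 1 |ξ| ^ n) := by
        refine Finset.sum_le_sum (fun l _ => ?_)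
        rw [abs_mul, abs_mul, abs_pow, Nat.abs_cast]
        apply mul_le_mul (hH l) _ (by positivity) hH0
        apply mul_le_mul (choose_le_two_pow' _ _ (by have := l.2; omega)) _ (by positivity)
          (by positivity)
        exact pow_max_le ξ _ (by have := l.2; omega)
    _ = _ := by
        rw [Finset.sum_const, Finset.card_univ, Fintype.card_fin, nsmul_eq_mul]
        unfold cX; push_cast; ring

/-- first clause -/
lemma clause1 (ξ νp : ℝ) (hν : νp < 1)
    (hP : ∀ ε : ℝ, 0 < ε → ∃ T : ℕ, ∀ t : ℕ, T ≤ t → OkP n ξ t (Real.exp (-((νp + ε) * t))))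
    (P : ℤ[X]) (h0 : P ≠ 0) (hdeg : P.natDegree ≤ n) : aeval ξ P ≠ 0 := by
  intro hroot
  obtain ⟨T, hT⟩ := hP ((1 - νp) / 2) (by linarith)
  set C := cX n ξ * Ht n P with hC
  have hC0 : 0 ≤ C := by
    have := one_le_cX n ξ
    positivity
  obtain ⟨T', hT'⟩ := exists_nat_gt (C / ((1 - νp) / 2))
  set t := max T T' with ht
  obtain ⟨k, hk⟩ := hT t (le_max_left _ _) (vec n P) (vec_ne_zero hdeg h0)
  have hwk := wt_pos (n := n) (t : ℝ) k
  have hk0 : k ≠ 0 := by
    rintro rfl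
    have h1 : hd ((0 : Fin (n + 1)) : ℕ) (vec n P) ξ = 0 := by
      have := hd_vec hdeg ξ
      rw [hroot] at this
      exact this
    rw [h1, abs_zero] at hk
    have := mul_pos (Real.exp_pos (-((νp + (1 - νp) / 2) * (t : ℝ)))) hwk
    linarith
  have h2 := hd_le (vec n P) ξ (Ht n P) (fun i => coeff_le_Ht i) k
  rw [wt_ne hk0, ← Real.exp_add] at hk
  have h3 : -((νp + (1 - νp) / 2) * (t : ℝ)) + t = (1 - νp) / 2 * t := by ring
  rw [h3] at hk
  have h4 : C < (1 - νp) / 2 * t := by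
    have h5 : (T' : ℝ) ≤ t := by exact_mod_cast le_max_right _ _
    have h6 := lt_of_lt_of_le hT' h5
    rw [div_lt_iff₀ (by linarith)] at h6
    linarith
  have h5 := Real.add_one_le_exp ((1 - νp) / 2 * (t : ℝ))
  linarith

/-- finiteness for the polynomial exponent -/
lemma clause3 (ξ νp w : ℝ) (hw : (n : ℝ) ≤ w) (hν : νp = (w - n) / (w + 1))
    (hP : ∀ ε : ℝ, 0 < ε → ∃ T : ℕ, ∀ t : ℕ, T ≤ t → OkP n ξ t (Real.exp (-((νp + ε) * t))))
    (v : ℝ) (hv : w < v) :
    {P : ℤ[X] | P ≠ 0 ∧ P.natDegree ≤ n ∧ |aeval ξ P| ≤ ((Ht n P : ℕ) : ℝ) ^ (-v)}.Finite := by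
  have hn0 : (0 : ℝ) ≤ n := Nat.cast_nonneg n
  have hw1 : 0 < w + 1 := by linarith
  have hν0 : 0 ≤ νp := by rw [hν]; exact div_nonneg (by linarith) hw1.le
  have h1ν : 0 < 1 - νp := by
    have : 1 - νp = (n + 1) / (w + 1) := by rw [hν]; field_simp; ring
    rw [this]; positivity
  have hwν : w * (1 - νp) = n + νp := by
    rw [hν]; field_simp; ring
  set ε := (v - w) * (1 - νp) / (2 * (1 + v)) with hε
  have hv1 : 0 < 1 + v := by linarith
  have hε0 : 0 < ε := by
    rw [hε]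
    have : 0 < v - w := by linarith
    positivity
  have hε1 : ε * (2 * (1 + v)) = (v - w) * (1 - νp) := by rw [hε]; field_simp
  set σ := 1 - νp - ε with hσ
  have hσ0 : 0 < σ := by
    have h2 : ε * (2 * (1 + v)) < (1 - νp) * (2 * (1 + v)) := by
      rw [hε1]
      have : v - w < 2 * (1 + v) := by linarith
      nlinarith
    have := lt_of_mul_lt_mul_right h2 (by linarith)
    linarith
  -- the gap
  set τ := n + νp + ε with hτ
  have hτ0 : 0 ≤ τ := by linarith
  have hgap : τ < v * σ := by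
    have h2 : v * σ - τ = (v - w) * (1 - νp) / 2 := by
      rw [hσ, hτ]
      linear_combination hwν - (1 / 2) * hε1
    have h3 : 0 < (v - w) * (1 - νp) / 2 := by
      have : 0 < v - w := by linarith
      positivity
    linarith
  obtain ⟨T, hT⟩ := hP ε hε0
  set C := cX n ξ with hC
  have hC1 : 1 ≤ C := one_le_cX n ξ
  -- bound for the height
  obtain ⟨N, hN⟩ := exists_nat_ge (Real.exp (max (σ * (T + 1)) ((τ * (Real.log C + σ)) / (v * σ - τ))))
  apply (finite_Ht n N).subset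
  rintro P ⟨h0, hdeg, hsmall⟩
  refine ⟨hdeg, ?_⟩
  by_contra hcon
  push Not at hcon
  have hH : (N : ℝ) < Ht n P := by exact_mod_cast hcon
  set H : ℝ := ((Ht n P : ℕ) : ℝ) with hHdef
  have hHpos : 0 < H := lt_of_le_of_lt (Nat.cast_nonneg _) hH
  have hlogH : max (σ * (T + 1)) ((τ * (Real.log C + σ)) / (v * σ - τ)) < Real.log H := by
    rw [Real.lt_log_iff_exp_lt hHpos]
    linarith
  have hlog1 : σ * (T + 1) < Real.log H := lt_of_le_of_lt (le_max_left _ _) hlogH
  have hlog2 : (τ * (Real.log C + σ)) / (v * σ - τ) < Real.log H :=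
    lt_of_le_of_lt (le_max_right _ _) hlogH
  have hlogC : 0 ≤ Real.log C := Real.log_nonneg hC1
  set x := (Real.log C + Real.log H) / σ with hx
  have hx0 : 0 ≤ x := by
    rw [hx]
    have : 0 < Real.log H := lt_of_le_of_lt (by positivity) hlog1
    positivity
  set t := ⌊x⌋₊ + 1 with ht
  have ht1 : x < t := by rw [ht]; push_cast; exact Nat.lt_floor_add_one x
  have ht2 : (t : ℝ) ≤ x + 1 := by
    rw [ht]; push_cast
    have := Nat.floor_le hx0
    linarith
  have htT : T ≤ t := by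
    have h2 : (T : ℝ) + 1 < x := by
      rw [hx, lt_div_iff₀ hσ0]
      linarith
    have h3 : (T : ℝ) < t := by linarith
    exact_mod_cast h3.le
  obtain ⟨k, hk⟩ := hT t htT (vec n P) (vec_ne_zero hdeg h0)
  have hk0 : k = 0 := by
    by_contra hk0
    have h2 := hd_le (vec n P) ξ H (fun i => coeff_le_Ht i) k
    rw [wt_ne hk0, ← Real.exp_add] at hk
    have h3 : -((νp + ε) * (t : ℝ)) + t = σ * t := by rw [hσ]; ring
    rw [h3] at hk
    have h4 : Real.log (C * H) < σ * t := by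
      rw [Real.log_mul (by positivity) hHpos.ne']
      rw [hx, div_lt_iff₀ hσ0] at ht1
      linarith
    have h5 : C * H < Real.exp (σ * t) := by
      rwa [← Real.log_lt_iff_lt_exp (by positivity)]
    linarith
  subst hk0
  rw [wt_zero] at hk
  have h2 : hd ((0 : Fin (n + 1)) : ℕ) (vec n P) ξ = aeval ξ P := hd_vec hdeg ξ
  rw [h2, ← Real.exp_add] at hk
  have h3 := hk.trans hsmall
  rw [Real.rpow_def_of_pos hHpos, Real.exp_le_exp] at h3
  have h4 : v * Real.log H ≤ τ * t := by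
    have : -((νp + ε) * (t : ℝ)) + -((n : ℝ) * t) = -(τ * t) := by rw [hτ]; ring
    rw [this] at h3
    linarith
  have h5 : τ * t ≤ τ * (x + 1) := mul_le_mul_of_nonneg_left ht2 hτ0
  have h6 : x + 1 = (Real.log C + Real.log H + σ) / σ := by rw [hx]; field_simp
  rw [h6] at h5
  have h7 : v * Real.log H ≤ τ * ((Real.log C + Real.log H + σ) / σ) := h4.trans h5
  have h8 : v * Real.log H * σ ≤ τ * (Real.log C + Real.log H + σ) := by
    have h9 := mul_le_mul_of_nonneg_right h7 hσ0.le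
    have h10 : τ * ((Real.log C + Real.log H + σ) / σ) * σ = τ * (Real.log C + Real.log H + σ) := by
      field_simp
    rw [h10] at h9
    exact h9
  rw [div_lt_iff₀ (by linarith)] at hlog2
  nlinarith

end Pool.Agent.W71
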