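import Mathlib
import Pool.Agent.W71.Fin1

/-! Consequences of the dual goodness conditions: the simultaneous exponent is not too large. -/

set_option autoImplicit false

open Polynomial Set

namespace Pool.Agent.W71

variable {n : ℕ}

lemma dl_index_zero (y : Fin (n + 1) → ℤ) (ξ : ℝ) : dl y ξ 0 = y 0 := by
  unfold dl
  rw [Finset.sum_eq_single 0]
  · simp
  · intro i _ hi
    have : 0 < (i : ℕ) := Nat.pos_of_ne_zero (fun h => hi (Fin.ext h))
    rw [Nat.choose_eq_zero_of_lt this]; simp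
  · simp

lemma dl_le (y : Fin (n + 1) → ℤ) (ξ δ : ℝ) (hδ : 0 ≤ δ)
    (h : ∀ i : Fin (n + 1), |(y 0 : ℝ) * ξ ^ (i : ℕ) - y i| ≤ δ) (k : Fin (n + 1)) (hk : k ≠ 0) :
    |dl y ξ (k : ℕ)| ≤ cX n ξ * δ := by
  have hk' : 0 < (k : ℕ) := Nat.pos_of_ne_zero (fun h => hk (Fin.ext h))
  have h1 : ∑ i : Fin (n + 1), ((y 0 : ℝ) * ξ ^ (i : ℕ)) *
      ((((k : ℕ).choose (i : ℕ) : ℕ) : ℝ) * (-ξ) ^ ((k : ℕ) - (i : ℕ))) = 0 := by
    have h2 : (ξ + -ξ) ^ (k : ℕ) = ∑ i ∈ Finset.range ((k : ℕ) + 1),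
        ξ ^ i * (-ξ) ^ ((k : ℕ) - i) * (((k : ℕ).choose i : ℕ) : ℝ) := add_pow _ _ _
    have h3 : ∑ i ∈ Finset.range ((k : ℕ) + 1),
        ξ ^ i * (-ξ) ^ ((k : ℕ) - i) * (((k : ℕ).choose i : ℕ) : ℝ) =
        ∑ i ∈ Finset.range (n + 1), ξ ^ i * (-ξ) ^ ((k : ℕ) - i) * (((k : ℕ).choose i : ℕ) : ℝ) := by
      apply Finset.sum_subset
      · intro j hj
        rw [Finset.mem_range] at hj ⊢
        have := k.2
        omega
      · intro j _ hj
        rw [Finset.mem_range] at hj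
        rw [Nat.choose_eq_zero_of_lt (by omega)]
        simp
    rw [add_neg_cancel, zero_pow hk'.ne', h3, ← Fin.sum_univ_eq_sum_range
      (fun i => ξ ^ i * (-ξ) ^ ((k : ℕ) - i) * (((k : ℕ).choose i : ℕ) : ℝ))] at h2
    calc ∑ i : Fin (n + 1), ((y 0 : ℝ) * ξ ^ (i : ℕ)) *
          ((((k : ℕ).choose (i : ℕ) : ℕ) : ℝ) * (-ξ) ^ ((k : ℕ) - (i : ℕ)))
        = (y 0 : ℝ) * ∑ i : Fin (n + 1), ξ ^ (i : ℕ) * (-ξ) ^ ((k : ℕ) - (i : ℕ)) *
            (((k : ℕ).choose (i : ℕ) : ℕ) : ℝ) := by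
          rw [Finset.mul_sum]
          refine Finset.sum_congr rfl (fun i _ => ?_)
          ring
      _ = 0 := by rw [← h2, mul_zero]
  have h4 : dl y ξ (k : ℕ) = ∑ i : Fin (n + 1), (-((y 0 : ℝ) * ξ ^ (i : ℕ) - y i)) *
      ((((k : ℕ).choose (i : ℕ) : ℕ) : ℝ) * (-ξ) ^ ((k : ℕ) - (i : ℕ))) := by
    have h5 : dl y ξ (k : ℕ) = dl y ξ (k : ℕ) - ∑ i : Fin (n + 1), ((y 0 : ℝ) * ξ ^ (i : ℕ)) *
      ((((k : ℕ).choose (i : ℕ) : ℕ) : ℝ) * (-ξ) ^ ((k : ℕ) - (i : ℕ))) := by rw [h1, sub_zero]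
    rw [h5]
    unfold dl
    rw [← Finset.sum_sub_distrib]
    refine Finset.sum_congr rfl (fun i _ => ?_)
    ring
  rw [h4]
  refine (Finset.abs_sum_le_sum_abs _ _).trans ?_
  calc ∑ i : Fin (n + 1), |(-((y 0 : ℝ) * ξ ^ (i : ℕ) - y i)) *
      ((((k : ℕ).choose (i : ℕ) : ℕ) : ℝ) * (-ξ) ^ ((k : ℕ) - (i : ℕ)))|
      ≤ ∑ _i : Fin (n + 1), δ * (2 ^ n * max 1 |ξ| ^ n) := by
        refine Finset.sum_le_sum (fun i _ => ?_)
        rw [abs_mul, abs_mul, abs_pow, abs_neg, abs_neg, Nat.abs_cast]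
        apply mul_le_mul (h i) _ (by positivity) hδ
        apply mul_le_mul (choose_le_two_pow' _ _ (by have := k.2; omega)) _ (by positivity)
          (by positivity)
        exact pow_max_le ξ _ (by have := k.2; omega)
    _ = _ := by
        rw [Finset.sum_const, Finset.card_univ, Fintype.card_fin, nsmul_eq_mul]
        unfold cX; push_cast; ring

/-- finiteness for the simultaneous exponent -/
lemma clause5 (hn : 1 ≤ n) (ξ νd l : ℝ) (hl : 1 / (n : ℝ) ≤ l) (hν : νd = (n * l - 1) / (l + 1))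
    (hD : ∀ ε : ℝ, 0 < ε → ∃ T : ℕ, ∀ t : ℕ, T ≤ t → OkD n ξ t (Real.exp (-((νd + ε) * t))))
    (μ : ℝ) (hμ : l < μ) :
    {q : ℕ | 0 < q ∧ ∃ p : ℕ → ℤ, ∀ i ∈ Finset.Icc 1 n,
            |(q : ℝ) * ξ ^ i - (p i : ℝ)| ≤ (q : ℝ) ^ (-μ)}.Finite := by
  have hn0 : (0 : ℝ) < n := by exact_mod_cast hn
  have hl0 : 0 < l := lt_of_lt_of_le (by positivity) hl
  have hl1 : 0 < l + 1 := by linarith
  have hnl : 0 ≤ n * l - 1 := by
    rw [div_le_iff₀ hn0] at hl
    linarith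
  have hν0 : 0 ≤ νd := by rw [hν]; exact div_nonneg hnl hl1.le
  have h1ν : 0 < n - νd := by
    have : n - νd = (n + 1) / (l + 1) := by rw [hν]; field_simp; ring
    rw [this]; positivity
  have hwν : l * (n - νd) = 1 + νd := by
    rw [hν]; field_simp; ring
  set ε := (μ - l) * (n - νd) / (2 * (1 + μ)) with hε
  have hv1 : 0 < 1 + μ := by linarith
  have hε0 : 0 < ε := by
    rw [hε]
    have : 0 < μ - l := by linarith
    positivity
  have hε1 : ε * (2 * (1 + μ)) = (μ - l) * (n - νd) := by rw [hε]; field_simp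
  set σ := n - νd - ε with hσ
  have hσ0 : 0 < σ := by
    have h2 : ε * (2 * (1 + μ)) < (n - νd) * (2 * (1 + μ)) := by
      rw [hε1]
      have : μ - l < 2 * (1 + μ) := by linarith
      nlinarith
    have := lt_of_mul_lt_mul_right h2 (by linarith)
    linarith
  set τ := 1 + νd + ε with hτ
  have hτ0 : 0 ≤ τ := by linarith
  have hgap : τ < μ * σ := by
    have h2 : μ * σ - τ = (μ - l) * (n - νd) / 2 := by
      rw [hσ, hτ]
      linear_combination hwν - (1 / 2) * hε1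
    have h3 : 0 < (μ - l) * (n - νd) / 2 := by
      have : 0 < μ - l := by linarith
      positivity
    linarith
  obtain ⟨T, hT⟩ := hD ε hε0
  set C := cX n ξ with hC
  have hC1 : 1 ≤ C := one_le_cX n ξ
  obtain ⟨N, hN⟩ := exists_nat_ge (Real.exp (max (σ * (T + 1)) ((σ * (Real.log C + τ)) / (μ * σ - τ))))
  apply (Set.finite_Iic N).subset
  rintro q ⟨hq0, p, hp⟩
  rw [mem_Iic]
  by_contra hcon
  push Not at hcon
  have hH : (N : ℝ) < q := by exact_mod_cast hcon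
  have hHpos : (0 : ℝ) < q := by exact_mod_cast hq0
  have hlogH : max (σ * (T + 1)) ((σ * (Real.log C + τ)) / (μ * σ - τ)) < Real.log q := by
    rw [Real.lt_log_iff_exp_lt hHpos]
    linarith
  have hlog1 : σ * (T + 1) < Real.log q := lt_of_le_of_lt (le_max_left _ _) hlogH
  have hlog2 : (σ * (Real.log C + τ)) / (μ * σ - τ) < Real.log q :=
    lt_of_le_of_lt (le_max_right _ _) hlogH
  have hlogC : 0 ≤ Real.log C := Real.log_nonneg hC1
  set x := Real.log q / σ with hx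
  have hx0 : 0 ≤ x := by
    rw [hx]
    have : 0 < Real.log q := lt_of_le_of_lt (by positivity) hlog1
    positivity
  set t := ⌊x⌋₊ + 1 with ht
  have ht1 : x < t := by rw [ht]; push_cast; exact Nat.lt_floor_add_one x
  have ht2 : (t : ℝ) ≤ x + 1 := by
    rw [ht]; push_cast
    have := Nat.floor_le hx0
    linarith
  have htT : T ≤ t := by
    have h2 : (T : ℝ) + 1 < x := by
      rw [hx, lt_div_iff₀ hσ0]
      linarith
    have h3 : (T : ℝ) < t := by linarith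
    exact_mod_cast h3.le
  set y : Fin (n + 1) → ℤ := fun i => if i = 0 then (q : ℤ) else p i with hy
  have hy00 : y 0 = q := by simp [hy]
  have hy0 : y ≠ 0 := by
    intro h
    have := congrFun h 0
    rw [hy00] at this
    simp only [Pi.zero_apply] at this
    omega
  have hyδ : ∀ i : Fin (n + 1), |(y 0 : ℝ) * ξ ^ (i : ℕ) - y i| ≤ (q : ℝ) ^ (-μ) := by
    intro i
    by_cases hi : i = 0
    · subst hi
      rw [hy00]; simp; positivity
    · have hi' : 0 < (i : ℕ) := Nat.pos_of_ne_zero (fun h => hi (Fin.ext h))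
      have h2 := hp i (Finset.mem_Icc.2 ⟨hi', by have := i.2; omega⟩)
      rw [hy00]
      simp only [hy, if_neg hi]
      exact_mod_cast h2
  obtain ⟨k, hk⟩ := hT t htT y hy0
  have hk0 : k ≠ 0 := by
    rintro rfl
    have h2 : dl y ξ ((0 : Fin (n + 1)) : ℕ) = q := by
      have := dl_index_zero y ξ
      rw [hy00] at this
      exact_mod_cast this
    rw [h2, wt_zero, abs_of_pos hHpos] at hk
    have h3 : Real.exp (σ * t) ≤ q := by
      have h4 := mul_le_mul_of_nonneg_right hk (Real.exp_pos ((n : ℝ) * t)).le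
      rw [← Real.exp_add, mul_assoc, ← Real.exp_add] at h4
      have h5 : -((νd + ε) * (t : ℝ)) + n * t = σ * t := by rw [hσ]; ring
      have h6 : -((n : ℝ) * t) + n * t = 0 := by ring
      rw [h5, h6, Real.exp_zero, mul_one] at h4
      exact h4
    rw [hx, div_lt_iff₀ hσ0] at ht1
    have h7 : (q : ℝ) < Real.exp (σ * t) := by
      rw [← Real.log_lt_iff_lt_exp hHpos]; linarith
    linarith
  have h2 := dl_le y ξ ((q : ℝ) ^ (-μ)) (by positivity) hyδ k hk0
  rw [wt_ne hk0] at hk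
  have h3 : Real.exp (-((νd + ε) * t)) ≤ C * (q : ℝ) ^ (-μ) * Real.exp t :=
    hk.trans (mul_le_mul_of_nonneg_right h2 (Real.exp_pos _).le)
  have h4 : C * (q : ℝ) ^ (-μ) * Real.exp t =
      Real.exp (Real.log C + Real.log q * (-μ) + t) := by
    rw [Real.rpow_def_of_pos hHpos, Real.exp_add, Real.exp_add, Real.exp_log (by linarith)]
  rw [h4, Real.exp_le_exp] at h3
  have h5 : μ * Real.log q ≤ Real.log C + τ * t := by
    rw [hτ]; linarith
  have h6 : τ * t ≤ τ * (x + 1) := mul_le_mul_of_nonneg_left ht2 hτ0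
  have h7 : μ * Real.log q ≤ Real.log C + τ * (x + 1) := by linarith
  have h8 := mul_le_mul_of_nonneg_right h7 hσ0.le
  have h9 : (Real.log C + τ * (x + 1)) * σ = σ * Real.log C + τ * Real.log q + τ * σ := by
    rw [hx]; field_simp; ring
  rw [h9] at h8
  rw [div_lt_iff₀ (by linarith)] at hlog2
  nlinarith

end Pool.Agent.W71
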