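import Mathlib
import Pool.Agent.W71.Fin2
import Pool.Agent.W71.BetaEx

/-! The exponents are large enough. -/

set_option autoImplicit false

open Polynomial Set

namespace Pool.Agent.W71

open Pool.Agent.Helper404 (toP castQ toP_natDegree)

variable {n : ℕ}

lemma Ht_toP_le (v : Fin (n + 1) → ℤ) (N : ℝ) (hN : 0 ≤ N) (h : ∀ i, |(v i : ℝ)| ≤ N) :
    ((Ht n (toP v) : ℕ) : ℝ) ≤ N := by
  have h1 : Ht n (toP v) ≤ ⌊N⌋₊ := by
    unfold Ht
    apply Finset.sup_le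
    intro i hi
    rw [Finset.mem_range] at hi
    rw [toP_coeff' v i hi, Nat.le_floor_iff hN]
    have h2 := h ⟨i, hi⟩
    have h3 : (((v ⟨i, hi⟩).natAbs : ℕ) : ℝ) = |(v ⟨i, hi⟩ : ℝ)| := by
      rw [Nat.cast_natAbs]; push_cast; rfl
    rw [h3]; exact h2
  exact (Nat.le_floor_iff hN).1 h1

section
variable {ℓ : ℕ} [hp : Fact ℓ.Prime]

lemma rad_eq (e : ℝ) (m : ℕ) : rad ℓ e m = Real.exp (-(e * (m * Real.log ℓ))) := rfl

lemma pow_eq_exp (k : ℕ) : (ℓ : ℝ) ^ k = Real.exp (k * Real.log ℓ) := by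
  have hℓpos : (0 : ℝ) < ℓ := by exact_mod_cast hp.out.pos
  rw [Real.exp_nat_mul, Real.exp_log hℓpos]

/-- infinitely many simultaneous approximations -/
lemma clause4 (hn : 1 ≤ n) (ξ l : ℝ) (A : ℝ) (hA : A = n * l + n - 1)
    (happ : ∀ M : ℕ, ∃ m : ℕ, M ≤ m ∧ 1 ≤ m ∧ rad ℓ (1 + A) m ≤ 1 ∧ ∃ p : ℤ,
      |ξ - p / (ℓ : ℝ) ^ m| ≤ 2 * rad ℓ (1 + A) m) (μ : ℝ) (hμ : μ < l) :
    {q : ℕ | 0 < q ∧ ∃ p : ℕ → ℤ, ∀ i ∈ Finset.Icc 1 n,
            |(q : ℝ) * ξ ^ i - (p i : ℝ)| ≤ (q : ℝ) ^ (-μ)}.Infinite := by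
  have hn0 : (0 : ℝ) < n := by exact_mod_cast hn
  have hℓpos : (0 : ℝ) < ℓ := by exact_mod_cast hp.out.pos
  have hℓ1 : (1 : ℝ) < ℓ := by exact_mod_cast hp.out.one_lt
  set L := Real.log ℓ with hL
  have hL0 : 0 < L := Real.log_pos hℓ1
  -- a Lipschitz constant
  set B : ℝ := n * (|ξ| + 2) ^ n with hB
  have hB0 : 0 ≤ B := by positivity
  have hlip : ∀ x : ℝ, |ξ - x| ≤ 2 → ∀ i : ℕ, 1 ≤ i → i ≤ n → |ξ ^ i - x ^ i| ≤ B * |ξ - x| := by
    intro x hx i hi1 hin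
    have hx2 : |x| ≤ |ξ| + 2 := by
      calc |x| = |ξ - (ξ - x)| := by congr 1; ring
        _ ≤ |ξ| + |ξ - x| := abs_sub _ _
        _ ≤ _ := by linarith
    have h1 := Commute.mul_geom_sum₂ (Commute.all ξ x) i
    rw [← h1, abs_mul, mul_comm]
    apply mul_le_mul_of_nonneg_right _ (abs_nonneg _)
    refine (Finset.abs_sum_le_sum_abs _ _).trans ?_
    calc ∑ j ∈ Finset.range i, |ξ ^ j * x ^ (i - 1 - j)|
        ≤ ∑ _j ∈ Finset.range i, (|ξ| + 2) ^ n := by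
          refine Finset.sum_le_sum (fun j hj => ?_)
          rw [Finset.mem_range] at hj
          rw [abs_mul, abs_pow, abs_pow]
          have h0 := abs_nonneg ξ
          calc |ξ| ^ j * |x| ^ (i - 1 - j) ≤ (|ξ| + 2) ^ j * (|ξ| + 2) ^ (i - 1 - j) := by
                apply mul_le_mul (pow_le_pow_left₀ h0 (by linarith) _)
                  (pow_le_pow_left₀ (abs_nonneg _) hx2 _) (by positivity) (by positivity)
            _ = (|ξ| + 2) ^ (j + (i - 1 - j)) := (pow_add _ _ _).symm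
            _ ≤ (|ξ| + 2) ^ n := pow_le_pow_right₀ (by linarith) (by omega)
      _ = i * (|ξ| + 2) ^ n := by rw [Finset.sum_const, Finset.card_range, nsmul_eq_mul]
      _ ≤ B := by
          rw [hB]
          have : (i : ℝ) ≤ n := by exact_mod_cast hin
          gcongr
  -- large `m`
  obtain ⟨M1, hM1⟩ := exists_nat_ge (Real.log (2 * B + 1) / (n * (l - μ) * L))
  have hden : 0 < n * (l - μ) * L := by
    have : 0 < l - μ := by linarith
    positivity
  apply Set.infinite_of_not_bddAbove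
  rintro ⟨N, hN⟩
  obtain ⟨m, hm, hm1, hr1, p, hpm⟩ := happ (max M1 (N + 1))
  have hqq : 0 < ℓ ^ (m * n) := pow_pos hp.out.pos _
  have hmem : ℓ ^ (m * n) ∈ {q : ℕ | 0 < q ∧ ∃ p : ℕ → ℤ, ∀ i ∈ Finset.Icc 1 n,
            |(q : ℝ) * ξ ^ i - (p i : ℝ)| ≤ (q : ℝ) ^ (-μ)} := by
    refine ⟨hqq, fun i => p ^ i * (ℓ : ℤ) ^ (m * (n - i)), ?_⟩
    intro i hi
    rw [Finset.mem_Icc] at hi
    have hi1 := hi.1
    have hin := hi.2
    set x : ℝ := p / (ℓ : ℝ) ^ m with hx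
    have hr := rad_pos ℓ (1 + A) m
    have h1 := hlip x (by linarith) i hi1 hin
    have h2 : ((ℓ ^ (m * n) : ℕ) : ℝ) * ξ ^ i - ((p ^ i * (ℓ : ℤ) ^ (m * (n - i)) : ℤ) : ℝ) =
        (ℓ : ℝ) ^ (m * n) * (ξ ^ i - x ^ i) := by
      push_cast
      have h3 : (ℓ : ℝ) ^ (m * n) = (ℓ : ℝ) ^ (m * (n - i)) * ((ℓ : ℝ) ^ m) ^ i := by
        rw [← pow_mul, ← pow_add, ← mul_add]; congr 2; omega
      rw [hx, div_pow, mul_sub]
      congr 1
      rw [h3]
      field_simp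
    rw [h2, abs_mul, abs_of_pos (by positivity)]
    have h4 : |ξ ^ i - x ^ i| ≤ 2 * B * rad ℓ (1 + A) m := by
      calc |ξ ^ i - x ^ i| ≤ B * |ξ - x| := h1
        _ ≤ B * (2 * rad ℓ (1 + A) m) := mul_le_mul_of_nonneg_left hpm hB0
        _ = _ := by ring
    have h5 : (ℓ : ℝ) ^ (m * n) * (2 * B * rad ℓ (1 + A) m) ≤ ((ℓ ^ (m * n) : ℕ) : ℝ) ^ (-μ) := by
      have h6 : ((ℓ ^ (m * n) : ℕ) : ℝ) = Real.exp (m * n * L) := by
        push_cast; rw [pow_eq_exp]; push_cast; rfl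
      have h7 : (ℓ : ℝ) ^ (m * n) = Real.exp (m * n * L) := by
        rw [pow_eq_exp]; push_cast; rfl
      rw [h6, h7, ← Real.exp_mul, rad_eq, ← hL]
      have h8 : 2 * B ≤ Real.exp (n * (l - μ) * L * m) := by
        have h9 : (M1 : ℝ) ≤ m := by exact_mod_cast (le_max_left _ _).trans hm
        have h10 := hM1.trans h9
        rw [div_le_iff₀ hden] at h10
        have h11 : 2 * B + 1 ≤ Real.exp (m * (n * (l - μ) * L)) := by
          rw [← Real.log_le_iff_le_exp (by positivity)]; exact h10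
        rw [mul_comm (m : ℝ)] at h11
        linarith
      calc Real.exp (m * n * L) * (2 * B * Real.exp (-((1 + A) * (m * L))))
          ≤ Real.exp (m * n * L) * (Real.exp (n * (l - μ) * L * m) *
              Real.exp (-((1 + A) * (m * L)))) := by gcongr
        _ = Real.exp (m * n * L * (-μ)) := by
            rw [← Real.exp_add, ← Real.exp_add, hA]
            congr 1; ring
    exact (mul_le_mul_of_nonneg_left h4 (by positivity)).trans h5
  have h1 := hN hmem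
  have h2 : m < ℓ ^ (m * n) := by
    calc m ≤ m * n := Nat.le_mul_of_pos_right m (by omega)
      _ < ℓ ^ (m * n) := Nat.lt_pow_self hp.out.one_lt
  have h3 := (le_max_right M1 (N + 1)).trans hm
  omega

/-- infinitely many polynomials with small value -/
lemma clause2 (hn : 1 ≤ n) (ξ w β : ℝ) (hw : (n : ℝ) ≤ w) (pv : Fin (n + 1) → ℤ)
    (hβ : BetaData n β pv)
    (happ : ∀ M : ℕ, ∃ m : ℕ, M ≤ m ∧ 1 ≤ m ∧ rad ℓ (n * (1 + w)) m ≤ 1 ∧ ∃ p : ℤ,
      |ξ - p / (ℓ : ℝ) ^ m - β| ≤ 2 * rad ℓ (n * (1 + w)) m) (v : ℝ) (hv : v < w) :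
    {P : ℤ[X] | P ≠ 0 ∧ P.natDegree ≤ n ∧ |aeval ξ P| ≤ ((Ht n P : ℕ) : ℝ) ^ (-v)}.Infinite := by
  have hn0 : (0 : ℝ) < n := by exact_mod_cast hn
  have hℓpos : (0 : ℝ) < ℓ := by exact_mod_cast hp.out.pos
  have hℓ1 : (1 : ℝ) < ℓ := by exact_mod_cast hp.out.one_lt
  set L := Real.log ℓ with hL
  have hL0 : 0 < L := Real.log_pos hℓ1
  set v' := max v 0 with hv'
  have hv'0 : 0 ≤ v' := le_max_right _ _
  have hv'w : v' < w := max_lt hv (by linarith)
  -- constants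
  set C1 : ℝ := (∑ k : Fin (n + 1), |hd (k : ℕ) pv β|) * 2 ^ n with hC1
  have hC10 : 0 ≤ C1 := by positivity
  set X0 : ℝ := |ξ| + |β| + 2 with hX0
  set Hp : ℝ := 1 + ∑ i, |(pv i : ℝ)| with hHp
  have hHp1 : 1 ≤ Hp := by
    have : 0 ≤ ∑ i, |(pv i : ℝ)| := Finset.sum_nonneg (fun _ _ => abs_nonneg _)
    linarith
  set C2 : ℝ := (n + 1) * (2 ^ n * max 1 X0 ^ n) * Hp with hC2
  have hC2pos : 0 < C2 := by positivity
  have hval : ∀ z : ℝ, |z - β| ≤ 2 → |hd 0 pv z| ≤ C1 * |z - β| := by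
    intro z hz
    set c := z - β with hc
    have h1 : z = β + c := by rw [hc]; ring
    rw [h1, hd_shift]
    refine (Finset.abs_sum_le_sum_abs _ _).trans ?_
    rw [hC1, Finset.sum_mul, Finset.sum_mul]
    refine Finset.sum_le_sum (fun l _ => ?_)
    rw [abs_mul, abs_mul, abs_pow, Nat.choose_zero_right, Nat.cast_one, abs_one, one_mul,
      Nat.sub_zero, mul_assoc]
    by_cases hl : l = 0
    · subst hl
      have h2 : hd ((0 : Fin (n + 1)) : ℕ) pv β = 0 := hβ.root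
      rw [h2]; simp
    · have hl' : 0 < (l : ℕ) := Nat.pos_of_ne_zero (fun h => hl (Fin.ext h))
      apply mul_le_mul_of_nonneg_left _ (abs_nonneg _)
      obtain ⟨j, hj⟩ : ∃ j, (l : ℕ) = j + 1 := ⟨(l : ℕ) - 1, by omega⟩
      rw [hj, pow_succ]
      apply mul_le_mul_of_nonneg_right _ (abs_nonneg _)
      calc |c| ^ j ≤ 2 ^ j := pow_le_pow_left₀ (abs_nonneg _) hz _
        _ ≤ 2 ^ n := pow_le_pow_right₀ (by norm_num) (by have := l.2; omega)
  have hcoef : ∀ x : ℝ, |x| ≤ X0 → ∀ k : ℕ, |hd k pv x| ≤ C2 := by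
    intro x hx k
    refine (hd_le pv x Hp (fun i => ?_) k).trans ?_
    · have := Finset.single_le_sum (f := fun i => |(pv i : ℝ)|) (fun _ _ => abs_nonneg _)
        (Finset.mem_univ i)
      linarith
    · rw [hC2]
      unfold cX
      gcongr
  -- large `m`
  obtain ⟨M1, hM1⟩ := exists_nat_ge (Real.log ((2 * C1 + 1) * C2 ^ v') / (n * (w - v') * L))
  have hden : 0 < n * (w - v') * L := by
    have : 0 < w - v' := by linarith
    positivity
  apply Set.Infinite.of_image (fun P : ℤ[X] => P.coeff n)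
  apply Set.infinite_of_not_bddAbove
  rintro ⟨N, hN⟩
  obtain ⟨m, hm, hm1, hr1, p, hpm⟩ := happ (max M1 (N.toNat + 1))
  have hqR : ((ℓ ^ m : ℕ) : ℝ) ≠ 0 := by push_cast; positivity
  set u := tr (ℓ ^ m) (-p) pv with hu
  have hucast : ∀ k : Fin (n + 1), (u k : ℝ) = ((ℓ : ℝ) ^ m) ^ n * hd (k : ℕ) pv (-(p / (ℓ : ℝ) ^ m)) := by
    intro k
    rw [hu, tr_cast _ hqR]
    push_cast
    rw [neg_div]
  have hulast : u (Fin.last n) = ((ℓ : ℤ) ^ m) ^ n := by
    have h1 := hucast (Fin.last n)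
    rw [Fin.val_last, hd_last, hβ.monic] at h1
    have h2 : (u (Fin.last n) : ℝ) = (((ℓ : ℤ) ^ m) ^ n : ℤ) := by
      rw [h1]; push_cast; ring
    exact_mod_cast h2
  have hulast' : (toP u).coeff n = ((ℓ : ℤ) ^ m) ^ n := by
    have := toP_coeff u (Fin.last n)
    rw [Fin.val_last] at this
    rw [this, hulast]
  have hP0 : toP u ≠ 0 := by
    intro h
    rw [h, coeff_zero] at hulast'
    have : (0 : ℤ) < ((ℓ : ℤ) ^ m) ^ n := by
      have : (0 : ℤ) < ℓ := by exact_mod_cast hp.out.pos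
      positivity
    omega
  have hdeg := toP_natDegree u
  have hvecu : vec n (toP u) = u := by
    ext i
    exact toP_coeff u i
  have hr := rad_pos ℓ (n * (1 + w)) m
  set r := rad ℓ (n * (1 + w)) m with hrdef
  have hmem : toP u ∈ {P : ℤ[X] | P ≠ 0 ∧ P.natDegree ≤ n ∧
      |aeval ξ P| ≤ ((Ht n P : ℕ) : ℝ) ^ (-v)} := by
    refine ⟨hP0, hdeg, ?_⟩
    have hHt1 : (1 : ℝ) ≤ Ht n (toP u) := by exact_mod_cast Ht_pos hdeg hP0
    have hq : ((ℓ : ℝ) ^ m) ^ n = Real.exp (m * n * L) := by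
      rw [← pow_mul, pow_eq_exp]; push_cast; rfl
    have hHt : ((Ht n (toP u) : ℕ) : ℝ) ≤ ((ℓ : ℝ) ^ m) ^ n * C2 := by
      apply Ht_toP_le u _ (by positivity)
      intro i
      rw [hucast, abs_mul, abs_of_pos (by positivity)]
      apply mul_le_mul_of_nonneg_left _ (by positivity)
      apply hcoef
      rw [abs_neg]
      calc |(p : ℝ) / (ℓ : ℝ) ^ m| = |(ξ - β) - (ξ - p / (ℓ : ℝ) ^ m - β)| := by congr 1; ring
        _ ≤ |ξ - β| + |ξ - p / (ℓ : ℝ) ^ m - β| := abs_sub _ _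
        _ ≤ (|ξ| + |β|) + 2 := add_le_add (abs_sub _ _) (by linarith)
        _ = X0 := by rw [hX0]
    have hvalue : |aeval ξ (toP u)| ≤ ((ℓ : ℝ) ^ m) ^ n * (C1 * (2 * r)) := by
      rw [← hd_vec hdeg, hvecu, hu, hd_tr _ hqR, abs_mul]
      push_cast
      rw [abs_of_pos (by positivity)]
      apply mul_le_mul_of_nonneg_left _ (by positivity)
      have h1 : -(p : ℝ) / (ℓ : ℝ) ^ m + ξ - β = ξ - p / (ℓ : ℝ) ^ m - β := by ring
      refine (hval _ ?_).trans ?_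
      · rw [h1]; linarith
      · rw [h1]; exact mul_le_mul_of_nonneg_left hpm hC10
    have hrpow : (((ℓ : ℝ) ^ m) ^ n * C2) ^ (-v') ≤ ((Ht n (toP u) : ℕ) : ℝ) ^ (-v) := by
      calc (((ℓ : ℝ) ^ m) ^ n * C2) ^ (-v') ≤ ((Ht n (toP u) : ℕ) : ℝ) ^ (-v') := by
            apply Real.rpow_le_rpow_of_nonpos (by linarith) hHt (by linarith)
        _ ≤ _ := by
            apply Real.rpow_le_rpow_of_exponent_le hHt1
            have := le_max_left v 0
            linarith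
    refine hvalue.trans (le_trans ?_ hrpow)
    rw [Real.mul_rpow (by positivity) hC2pos.le, hq, ← Real.exp_mul, hrdef, rad_eq, ← hL,
      Real.rpow_neg hC2pos.le]
    have hCv : 0 < C2 ^ v' := Real.rpow_pos_of_pos hC2pos _
    have h8 : 2 * C1 * C2 ^ v' ≤ Real.exp (n * (w - v') * L * m) := by
      have h9 : (M1 : ℝ) ≤ m := by exact_mod_cast (le_max_left _ _).trans hm
      have h10 := hM1.trans h9
      rw [div_le_iff₀ hden] at h10
      have h11 : (2 * C1 + 1) * C2 ^ v' ≤ Real.exp (m * (n * (w - v') * L)) := by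
        rw [← Real.log_le_iff_le_exp (by positivity)]; exact h10
      rw [mul_comm (m : ℝ)] at h11
      nlinarith
    have h9 : Real.exp (m * n * L) * (C1 * (2 * Real.exp (-(n * (1 + w) * (m * L))))) =
        (2 * C1 * C2 ^ v') * (Real.exp (m * n * L) * Real.exp (-(n * (1 + w) * (m * L))) *
          (C2 ^ v')⁻¹) := by
      field_simp
    rw [h9]
    calc (2 * C1 * C2 ^ v') * (Real.exp (m * n * L) * Real.exp (-(n * (1 + w) * (m * L))) *
          (C2 ^ v')⁻¹)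
        ≤ Real.exp (n * (w - v') * L * m) * (Real.exp (m * n * L) *
            Real.exp (-(n * (1 + w) * (m * L))) * (C2 ^ v')⁻¹) :=
          mul_le_mul_of_nonneg_right h8 (by positivity)
      _ = Real.exp (m * n * L * (-v')) * (C2 ^ v')⁻¹ := by
          rw [← mul_assoc, ← mul_assoc, ← Real.exp_add, ← Real.exp_add]
          congr 2; ring
  have h1 := hN ⟨_, hmem, rfl⟩
  simp only at h1
  rw [hulast'] at h1
  have h2 : m < ℓ ^ (m * n) := by
    calc m ≤ m * n := Nat.le_mul_of_pos_right m (by omega)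
      _ < ℓ ^ (m * n) := Nat.lt_pow_self hp.out.one_lt
  have h3 := (le_max_right M1 (N.toNat + 1)).trans hm
  rw [← pow_mul] at h1
  have h4 : (m : ℤ) < (ℓ : ℤ) ^ (m * n) := by exact_mod_cast h2
  omega

end

end Pool.Agent.W71
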