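import Mathlib
import Pool.Agent.W71.Nest2

/-! Flexible version of the nested construction. -/

set_option autoImplicit false

open Polynomial Set MeasureTheory

namespace Pool.Agent.W71

/-! ### typical properties -/

/-- the property `Y m` holds at most points of most windows of type `(β, e)` -/
def Typical (ℓ : ℕ) (β e : ℝ) (Y : ℕ → ℝ → Prop) : Prop :=
  ∀ δ : ℝ, 0 < δ → ∃ m0 : ℕ, ∀ m : ℕ, m0 ≤ m → ∃ B : Finset ℕ,
    (B.card : ℝ) ≤ δ * (ℓ : ℝ) ^ m ∧ ∀ p : ℕ, p < ℓ ^ m → p ∉ B →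
      volume {z ∈ Ico (β + rad ℓ e m) (β + rad ℓ e m + rad ℓ e m) |
        ¬ Y m ((p : ℝ) / (ℓ : ℝ) ^ m + z)} ≤ ENNReal.ofReal δ * ENNReal.ofReal (rad ℓ e m)

lemma Typical.and {ℓ : ℕ} {β e : ℝ} {Y Z : ℕ → ℝ → Prop} (hY : Typical ℓ β e Y)
    (hZ : Typical ℓ β e Z) : Typical ℓ β e (fun m ξ => Y m ξ ∧ Z m ξ) := by
  classical
  intro δ hδ
  obtain ⟨m1, h1⟩ := hY (δ / 2) (by positivity)
  obtain ⟨m2, h2⟩ := hZ (δ / 2) (by positivity)
  refine ⟨max m1 m2, fun m hm => ?_⟩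
  obtain ⟨B1, hB1, hB1'⟩ := h1 m ((le_max_left _ _).trans hm)
  obtain ⟨B2, hB2, hB2'⟩ := h2 m ((le_max_right _ _).trans hm)
  refine ⟨B1 ∪ B2, ?_, ?_⟩
  · have h3 : ((B1 ∪ B2).card : ℝ) ≤ B1.card + B2.card := by
      exact_mod_cast Finset.card_union_le _ _
    linarith
  · intro p hp hpB
    rw [Finset.mem_union, not_or] at hpB
    have h3 := hB1' p hp hpB.1
    have h4 := hB2' p hp hpB.2
    have hsub : {z ∈ Ico (β + rad ℓ e m) (β + rad ℓ e m + rad ℓ e m) |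
        ¬ (Y m ((p : ℝ) / (ℓ : ℝ) ^ m + z) ∧ Z m ((p : ℝ) / (ℓ : ℝ) ^ m + z))} ⊆
        {z ∈ Ico (β + rad ℓ e m) (β + rad ℓ e m + rad ℓ e m) |
        ¬ Y m ((p : ℝ) / (ℓ : ℝ) ^ m + z)} ∪
        {z ∈ Ico (β + rad ℓ e m) (β + rad ℓ e m + rad ℓ e m) |
        ¬ Z m ((p : ℝ) / (ℓ : ℝ) ^ m + z)} := by
      rintro z ⟨hz, hz'⟩
      by_cases hY : Y m ((p : ℝ) / (ℓ : ℝ) ^ m + z)
      · right; exact ⟨hz, fun h => hz' ⟨hY, h⟩⟩
      · left; exact ⟨hz, hY⟩
    refine (measure_mono hsub).trans ((measure_union_le _ _).trans ((add_le_add h3 h4).trans ?_))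
    rw [← add_mul, ← ENNReal.ofReal_add (by positivity) (by positivity)]
    exact le_of_eq (by congr 2; ring)

lemma Typical.mono {ℓ : ℕ} {β e : ℝ} {Y Z : ℕ → ℝ → Prop} (hY : Typical ℓ β e Y)
    (m1 : ℕ) (h : ∀ m ξ, m1 ≤ m → Y m ξ → Z m ξ) : Typical ℓ β e Z := by
  intro δ hδ
  obtain ⟨m0, h0⟩ := hY δ hδ
  refine ⟨max m0 m1, fun m hm => ?_⟩
  obtain ⟨B, hB, hB'⟩ := h0 m ((le_max_left _ _).trans hm)
  refine ⟨B, hB, fun p hp hpB => le_trans (measure_mono ?_) (hB' p hp hpB)⟩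
  rintro z ⟨hz, hz'⟩
  exact ⟨hz, fun h' => hz' (h m _ ((le_max_right _ _).trans hm) h')⟩

lemma Typical.true {ℓ : ℕ} {β e : ℝ} : Typical ℓ β e (fun _ _ => True) := by
  intro δ hδ
  refine ⟨0, fun m _ => ⟨∅, by simp only [Finset.card_empty, Nat.cast_zero]; positivity,
    fun p _ _ => ?_⟩⟩
  simp

lemma Typical.finset {ℓ : ℕ} {β e : ℝ} {ι : Type*} (S : Finset ι) (Y : ι → ℕ → ℝ → Prop)
    (h : ∀ i ∈ S, Typical ℓ β e (Y i)) : Typical ℓ β e (fun m ξ => ∀ i ∈ S, Y i m ξ) := by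
  classical
  induction S using Finset.induction_on with
  | empty => exact Typical.true.mono 0 (fun m ξ _ _ i hi => absurd hi (Finset.notMem_empty i))
  | insert a S ha ih =>
    have h1 := (h a (Finset.mem_insert_self _ _)).and
      (ih (fun i hi => h i (Finset.mem_insert_of_mem hi)))
    refine h1.mono 0 (fun m ξ _ hm i hi => ?_)
    rcases Finset.mem_insert.1 hi with rfl | hi
    · exact hm.1
    · exact hm.2 i hi

/-- the time attached to a window -/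
noncomputable def Tm (n ℓ m : ℕ) : ℕ := ⌊(m : ℝ) * Real.log ℓ / (n + 1)⌋₊

lemma Okk.mono {n : ℕ} {νp νd ε ξ : ℝ} {T T' : ℕ} (h : Okk n νp νd ε T ξ) (hT : T ≤ T') :
    Okk n νp νd ε T' ξ := fun t ht => h t (hT.trans ht)

section
variable {ℓ : ℕ} [hp : Fact ℓ.Prime]

lemma exp_Tm_le (n m : ℕ) : Real.exp ((n + 1) * Tm n ℓ m) ≤ (ℓ : ℝ) ^ m := by
  have hℓpos : (0 : ℝ) < ℓ := by exact_mod_cast hp.out.pos
  have hℓ1 : (1 : ℝ) < ℓ := by exact_mod_cast hp.out.one_lt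
  have hL : 0 < Real.log ℓ := Real.log_pos hℓ1
  have h1 : (ℓ : ℝ) ^ m = Real.exp (m * Real.log ℓ) := by
    rw [Real.exp_nat_mul, Real.exp_log hℓpos]
  rw [h1, Real.exp_le_exp]
  have h2 : (Tm n ℓ m : ℝ) ≤ (m : ℝ) * Real.log ℓ / (n + 1) := Nat.floor_le (by positivity)
  rw [le_div_iff₀ (by positivity)] at h2
  linarith

lemma Tm_large (n T : ℕ) : ∃ m0 : ℕ, ∀ m : ℕ, m0 ≤ m → T ≤ Tm n ℓ m := by
  have hℓ1 : (1 : ℝ) < ℓ := by exact_mod_cast hp.out.one_lt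
  have hL : 0 < Real.log ℓ := Real.log_pos hℓ1
  obtain ⟨m0, hm0⟩ := exists_nat_ge ((T : ℝ) * (n + 1) / Real.log ℓ)
  refine ⟨m0, fun m hm => ?_⟩
  rw [Tm, Nat.le_floor_iff (by positivity), le_div_iff₀ (by positivity)]
  rw [div_le_iff₀ hL] at hm0
  have : (m0 : ℝ) ≤ m := by exact_mod_cast hm
  nlinarith

/-- flows are typical -/
theorem Typical.flow {n : ℕ} (hn : 1 ≤ n) (hℓ : (n + 1) * n < ℓ) {β e νp νd : ℝ} (hνp : 0 ≤ νp)
    (hνd : 0 ≤ νd) (hR : Rich n ℓ β e νp νd) (ε : ℝ) (hε : 0 < ε) :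
    Typical ℓ β e (fun m ξ => Okk n νp νd ε (Tm n ℓ m) ξ) := by
  intro δ hδ
  obtain ⟨T0, m0, h0⟩ := stage hn hℓ hνp hνd hR ε δ hε hδ
  obtain ⟨m1, h1⟩ := Tm_large (ℓ := ℓ) n T0
  refine ⟨max m0 m1, fun m hm => ?_⟩
  obtain ⟨B, hB, hB'⟩ := h0 m ((le_max_left _ _).trans hm)
  refine ⟨B, hB, fun p hp hpB => le_trans (measure_mono ?_) (hB' p hp hpB)⟩
  rintro z ⟨hz, hz'⟩
  exact ⟨hz, fun h => hz' (h.mono (h1 m ((le_max_right _ _).trans hm)))⟩

end

/-! ### selection -/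

/-- selection of a good grid cell -/
lemma grid3 (a r β : ℝ) (hr : 0 < r) (hr1 : r ≤ 1) (q : ℕ) (hq : 32 / r ≤ q) (Bad : Set ℝ)
    (hBad : volume {ξ ∈ Ico a (a + r) | ξ ∈ Bad} ≤ ENNReal.ofReal (3 * r / 4)) (B : Finset ℕ)
    (hB : (B.card : ℝ) ≤ r / 32 * q) :
    ∃ p : ℤ, a ≤ p / q + β ∧ (p + 1) / q + β ≤ a + r ∧
      (∃ ξ0 ∈ Ico ((p : ℝ) / q + β) ((p + 1) / q + β), ξ0 ∉ Bad) ∧ (p % (q : ℤ)).toNat ∉ B := by
  classical
  have hq0 : (0 : ℝ) < q := lt_of_lt_of_le (by positivity) hq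
  have hqN : 0 < q := by exact_mod_cast hq0
  have hqr : 32 / (q : ℝ) ≤ r := by
    rw [div_le_iff₀ hr] at hq
    rw [div_le_iff₀ hq0]; linarith
  by_contra hcon
  push Not at hcon
  set N : ℤ := ⌊(a - β) * q⌋ with hN
  set P : Finset ℤ := B.image (fun b : ℕ => N + (((b : ℤ) - N) % (q : ℤ))) ∪
    B.image (fun b : ℕ => N + q + (((b : ℤ) - N) % (q : ℤ))) with hP
  have hPcard : P.card ≤ 2 * B.card := by
    have h1 := Finset.card_union_le (B.image (fun b : ℕ => N + (((b : ℤ) - N) % (q : ℤ))))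
      (B.image (fun b : ℕ => N + q + (((b : ℤ) - N) % (q : ℤ))))
    have h2 := Finset.card_image_le (s := B) (f := fun b : ℕ => N + (((b : ℤ) - N) % (q : ℤ)))
    have h3 := Finset.card_image_le (s := B) (f := fun b : ℕ => N + q + (((b : ℤ) - N) % (q : ℤ)))
    rw [← hP] at h1
    omega
  have hcover : Ico a (a + r) ⊆ ({ξ ∈ Ico a (a + r) | ξ ∈ Bad} ∪ Ico a (a + 1 / q)) ∪
      (Ico (a + r - 1 / q) (a + r) ∪ ⋃ p ∈ P, Ico ((p : ℝ) / q + β) ((p + 1) / q + β)) := by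
    intro x hx
    by_cases hxB : x ∈ Bad
    · exact Or.inl (Or.inl ⟨hx, hxB⟩)
    set p : ℤ := ⌊(x - β) * q⌋ with hp
    have hp1 : (p : ℝ) ≤ (x - β) * q := Int.floor_le _
    have hp2 : (x - β) * q < p + 1 := Int.lt_floor_add_one _
    have hcell : x ∈ Ico ((p : ℝ) / q + β) ((p + 1) / q + β) := by
      constructor
      · have : (p : ℝ) / q ≤ x - β := by rw [div_le_iff₀ hq0]; exact hp1
        linarith
      · have : x - β < ((p : ℝ) + 1) / q := by rw [lt_div_iff₀ hq0]; exact hp2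
        linarith
    by_cases h1 : a ≤ p / q + β
    · by_cases h2 : ((p : ℝ) + 1) / q + β ≤ a + r
      · -- the residue is bad
        have h3 := hcon p h1 h2 ⟨x, hcell, hxB⟩
        right; right
        rw [mem_iUnion₂]
        refine ⟨p, ?_, hcell⟩
        have hNp : N ≤ p := by
          rw [hN, hp]
          apply Int.floor_le_floor
          apply mul_le_mul_of_nonneg_right _ hq0.le
          linarith [hx.1]
        have hpN : p < N + 2 * q := by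
          have h4 : (p : ℝ) < ((N + 2 * q : ℤ) : ℝ) := by
            have h5 : (a - β) * q < N + 1 := Int.lt_floor_add_one _
            have h6 : (x - β) * q ≤ (a - β) * q + q := by
              have : x ≤ a + 1 := by linarith [hx.2]
              nlinarith
            have h7 : (1 : ℝ) ≤ q := by exact_mod_cast hqN
            push_cast
            linarith
          exact_mod_cast h4
        have hqZ : (0 : ℤ) < q := by exact_mod_cast hqN
        have h8 : (((p % (q : ℤ)).toNat : ℕ) : ℤ) = p % (q : ℤ) :=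
          Int.toNat_of_nonneg (Int.emod_nonneg _ hqZ.ne')
        have h9 : ((((p % (q : ℤ)).toNat : ℕ) : ℤ) - N) % (q : ℤ) = (p - N) % (q : ℤ) := by
          rw [h8]; exact Int.emod_sub_emod p q N
        rw [hP, Finset.mem_union, Finset.mem_image, Finset.mem_image]
        by_cases h10 : p - N < q
        · left
          refine ⟨_, h3, ?_⟩
          rw [h9, Int.emod_eq_of_lt (by omega) h10]; ring
        · right
          refine ⟨_, h3, ?_⟩
          have h11 : (p - N) % (q : ℤ) = p - N - q := by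
            rw [← Int.sub_emod_right, Int.emod_eq_of_lt (by omega) (by omega)]
          rw [h9, h11]; ring
      · right; left
        push Not at h2
        refine ⟨?_, hx.2⟩
        have h3 : ((p : ℝ) + 1) / q = p / q + 1 / q := by ring
        have h4 := hcell.1
        linarith
    · left; right
      push Not at h1
      refine ⟨hx.1, ?_⟩
      have h3 : ((p : ℝ) + 1) / q = p / q + 1 / q := by ring
      have h4 := hcell.2
      linarith
  have hvol : ENNReal.ofReal r ≤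
      ENNReal.ofReal (3 * r / 4 + 1 / q + (1 / q + P.card * (1 / q))) := by
    calc ENNReal.ofReal r = volume (Ico a (a + r)) := by rw [Real.volume_Ico]; congr 1; ring
      _ ≤ (volume {ξ ∈ Ico a (a + r) | ξ ∈ Bad} + volume (Ico a (a + 1 / q))) +
          (volume (Ico (a + r - 1 / q) (a + r)) +
            ∑ p ∈ P, volume (Ico ((p : ℝ) / q + β) ((p + 1) / q + β))) := by
          refine (measure_mono hcover).trans ((measure_union_le _ _).trans ?_)
          refine add_le_add (measure_union_le _ _) ((measure_union_le _ _).trans ?_)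
          exact add_le_add le_rfl (measure_biUnion_finset_le _ _)
      _ ≤ (ENNReal.ofReal (3 * r / 4) + ENNReal.ofReal (1 / q)) + (ENNReal.ofReal (1 / q) +
            ENNReal.ofReal (P.card * (1 / q))) := by
          refine add_le_add (add_le_add hBad ?_) (add_le_add ?_ ?_)
          · rw [Real.volume_Ico]; apply le_of_eq; congr 1; ring
          · rw [Real.volume_Ico]; apply le_of_eq; congr 1; ring
          · have h1 : ∀ p ∈ P, volume (Ico ((p : ℝ) / q + β) ((p + 1) / q + β)) =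
                ENNReal.ofReal (1 / q) := by
              intro p _
              rw [Real.volume_Ico]; congr 1; ring
            rw [Finset.sum_congr rfl h1, Finset.sum_const, nsmul_eq_mul,
              ENNReal.ofReal_mul (by positivity), ENNReal.ofReal_natCast]
      _ = _ := by
          rw [← ENNReal.ofReal_add (by positivity) (by positivity),
            ← ENNReal.ofReal_add (by positivity) (by positivity),
            ← ENNReal.ofReal_add (by positivity) (by positivity)]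
  rw [ENNReal.ofReal_le_ofReal_iff (by positivity)] at hvol
  have h1 : (P.card : ℝ) ≤ 2 * (r / 32 * q) := by
    have : (P.card : ℝ) ≤ 2 * B.card := by exact_mod_cast hPcard
    linarith
  have h2 : (P.card : ℝ) * (1 / q) ≤ r / 16 := by
    calc (P.card : ℝ) * (1 / q) ≤ 2 * (r / 32 * q) * (1 / q) :=
          mul_le_mul_of_nonneg_right h1 (by positivity)
      _ = r / 16 := by field_simp; ring
  have h3 : 1 / (q : ℝ) ≤ r / 32 := by
    have : 1 / (q : ℝ) = (32 / q) / 32 := by ring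
    rw [this]; linarith
  linarith

section
variable {ℓ : ℕ} [hp : Fact ℓ.Prime]

/-- choice of a window inside an interval, near a good point -/
lemma window_step {β e : ℝ} {Y : ℕ → ℝ → Prop} (hY : Typical ℓ β e Y)
    (hper : ∀ m ξ, Y m ξ → ∀ k : ℤ, Y m (k + ξ)) (a r : ℝ) (hr : 0 < r)
    (hr1 : r ≤ 1) (Bad : Set ℝ)
    (hBad : volume {ξ ∈ Ico a (a + r) | ξ ∈ Bad} ≤ ENNReal.ofReal (3 * r / 4)) (M : ℕ) :
    ∃ m : ℕ, M ≤ m ∧ ∃ (p : ℤ),
      a ≤ p / (ℓ : ℝ) ^ m + β ∧ (p + 1) / (ℓ : ℝ) ^ m + β ≤ a + r ∧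
      (∃ ξ0 ∈ Ico ((p : ℝ) / (ℓ : ℝ) ^ m + β) ((p + 1) / (ℓ : ℝ) ^ m + β), ξ0 ∉ Bad) ∧
      volume {ξ ∈ Ico ((p : ℝ) / (ℓ : ℝ) ^ m + β + rad ℓ e m)
        ((p : ℝ) / (ℓ : ℝ) ^ m + β + rad ℓ e m + rad ℓ e m) | ¬ Y m ξ} ≤
        ENNReal.ofReal (rad ℓ e m / 2) := by
  obtain ⟨m0, hst⟩ := hY (r / 32) (by positivity)
  have hℓpos : (0 : ℝ) < ℓ := by exact_mod_cast hp.out.pos
  have hℓ1 : (1 : ℝ) < ℓ := by exact_mod_cast hp.out.one_lt
  have htend := tendsto_pow_atTop_atTop_of_one_lt hℓ1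
  obtain ⟨m1, hm1⟩ := Filter.eventually_atTop.1 (htend.eventually_ge_atTop (32 / r))
  set m := max (max M m0) m1 with hm
  have hmM : M ≤ m := (le_max_left _ _).trans (le_max_left _ _)
  have hmm0 : m0 ≤ m := (le_max_right _ _).trans (le_max_left _ _)
  have hmm1 : m1 ≤ m := le_max_right _ _
  obtain ⟨B, hB1, hB2⟩ := hst m hmm0
  have hqpos : 0 < ℓ ^ m := pow_pos hp.out.pos _
  obtain ⟨p, hp1, hp2, hp3, hp4⟩ := grid3 a r β hr hr1 (ℓ ^ m) (by push_cast; exact hm1 m hmm1)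
    Bad hBad B (by push_cast; exact hB1)
  push_cast at hp1 hp2 hp3
  refine ⟨m, hmM, p, hp1, hp2, hp3, ?_⟩
  set b : ℕ := (p % ((ℓ ^ m : ℕ) : ℤ)).toNat with hb
  have hbq : b < ℓ ^ m := by
    have h1 : 0 ≤ p % ((ℓ ^ m : ℕ) : ℤ) := Int.emod_nonneg _ (by exact_mod_cast hqpos.ne')
    have h2 : p % ((ℓ ^ m : ℕ) : ℤ) < ((ℓ ^ m : ℕ) : ℤ) :=
      Int.emod_lt_of_pos _ (by exact_mod_cast hqpos)
    omega
  have h1 := hB2 b hbq hp4
  have h2 := div_mod_real (ℓ ^ m) hqpos p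
  push_cast at h2
  have h3 : (((p % ((ℓ : ℤ) ^ m)).toNat : ℕ) : ℝ) = (b : ℝ) := by
    rw [hb]; push_cast; rfl
  rw [h3] at h2
  set k : ℤ := p / ((ℓ : ℤ) ^ m) with hk
  set r' := rad ℓ e m with hr'
  have hr'pos : 0 < r' := rad_pos _ _ _
  -- translate
  have hsub : {ξ ∈ Ico ((p : ℝ) / (ℓ : ℝ) ^ m + β + r') ((p : ℝ) / (ℓ : ℝ) ^ m + β + r' + r') |
      ¬ Y m ξ} ⊆ (fun z => ((p : ℝ) / (ℓ : ℝ) ^ m) + z) ''
      {z ∈ Ico (β + r') (β + r' + r') | ¬ Y m ((b : ℝ) / (ℓ : ℝ) ^ m + z)} := by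
    rintro ξ ⟨hξ, hξ'⟩
    refine ⟨ξ - (p : ℝ) / (ℓ : ℝ) ^ m, ⟨⟨by linarith [hξ.1], by linarith [hξ.2]⟩, ?_⟩, by ring⟩
    intro hcon
    apply hξ'
    have h4 := hper m _ hcon k
    have h5 : (k : ℝ) + ((b : ℝ) / (ℓ : ℝ) ^ m + (ξ - (p : ℝ) / (ℓ : ℝ) ^ m)) = ξ := by
      rw [h2]; ring
    rwa [h5] at h4
  refine (measure_mono hsub).trans ?_
  have h6 : volume ((fun z => ((p : ℝ) / (ℓ : ℝ) ^ m) + z) ''
      {z ∈ Ico (β + r') (β + r' + r') | ¬ Y m ((b : ℝ) / (ℓ : ℝ) ^ m + z)}) =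
      volume {z ∈ Ico (β + r') (β + r' + r') | ¬ Y m ((b : ℝ) / (ℓ : ℝ) ^ m + z)} := by
    rw [image_add_left, measure_preimage_add]
  rw [h6]
  refine h1.trans ?_
  rw [← ENNReal.ofReal_mul (by positivity)]
  apply ENNReal.ofReal_le_ofReal
  nlinarith

end

/-! ### chains of states -/

lemma exists_chain {S : Type*} (Inv : ℕ → S → Prop) (Rel : ℕ → S → S → Prop) (s0 : S)
    (h0 : Inv 0 s0) (hstep : ∀ k s, Inv k s → ∃ s', Inv (k + 1) s' ∧ Rel k s s') :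
    ∃ f : ℕ → S, (∀ k, Inv k (f k)) ∧ ∀ k, Rel k (f k) (f (k + 1)) := by
  classical
  have h1 : ∀ (k : ℕ) (s : {s : S // Inv k s}), ∃ s' : {s : S // Inv (k + 1) s}, Rel k s.1 s'.1 := by
    rintro k ⟨s, hs⟩
    obtain ⟨s', h1, h2⟩ := hstep k s hs
    exact ⟨⟨s', h1⟩, h2⟩
  choose nx hnx using h1
  let sq : (k : ℕ) → {s : S // Inv k s} := fun k => Nat.rec ⟨s0, h0⟩ (fun k s => nx k s) k
  exact ⟨fun k => (sq k).1, fun k => (sq k).2, fun k => hnx k (sq k)⟩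

lemma exists_point (A R : ℕ → ℝ) (hR : ∀ k, 0 ≤ R k) (h1 : ∀ k, A k ≤ A (k + 1))
    (h2 : ∀ k, A (k + 1) + R (k + 1) ≤ A k + R k) : ∃ ξ : ℝ, ∀ k, ξ ∈ Icc (A k) (A k + R k) := by
  have hAmono : Monotone A := monotone_nat_of_le_succ h1
  have hBanti : Antitone (fun k => A k + R k) := antitone_nat_of_succ_le h2
  have hall : ∀ j k, A j ≤ A k + R k := by
    intro j k
    calc A j ≤ A (max j k) := hAmono (le_max_left _ _)
      _ ≤ A (max j k) + R (max j k) := by linarith [hR (max j k)]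
      _ ≤ A k + R k := hBanti (le_max_right _ _)
  have hbdd : BddAbove (Set.range A) := ⟨A 0 + R 0, by rintro _ ⟨j, rfl⟩; exact hall j 0⟩
  refine ⟨sSup (Set.range A), fun k => ⟨le_csSup hbdd ⟨k, rfl⟩, csSup_le (Set.range_nonempty _) ?_⟩⟩
  rintro _ ⟨j, rfl⟩
  exact hall j k

/-- from goodness of the intermediate points to goodness of the limit point -/
theorem cover {n : ℕ} {νp νd : ℝ} (ξ : ℝ) (k0 : ℕ) (T : ℕ → ℕ) (Δ ξ0 ep : ℕ → ℝ)
    (hΔ0 : ∀ k, 0 < Δ k) (hΔ1 : ∀ k, Δ k ≤ 1) (hΔ : Filter.Tendsto Δ Filter.atTop (nhds 0))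
    (hep : Filter.Tendsto ep Filter.atTop (nhds 0)) (hepa : Antitone ep)
    (hT : ∀ k, k0 ≤ k → Real.exp ((n + 1) * T (k + 1)) * Δ (k + 1) ≤ 1)
    (hgood : ∀ k, k0 ≤ k → Okk n νp νd (ep k) (T k) (ξ0 k))
    (hclose : ∀ k, k0 ≤ k → |ξ0 k - ξ| ≤ Δ (k + 1)) :
    ∀ ε : ℝ, 0 < ε → ∃ T : ℕ, ∀ t : ℕ, T ≤ t →
        OkP n ξ t (Real.exp (-((νp + ε) * t))) ∧ OkD n ξ t (Real.exp (-((νd + ε) * t))) := by
  classical
  have hmtop : ∀ (t k : ℕ), ∃ j, k ≤ j ∧ Real.exp ((n + 1) * t) * Δ (j + 1) ≤ 1 := by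
    intro t k
    have h1 : Filter.Tendsto (fun j => Real.exp ((n + 1) * t) * Δ (j + 1)) Filter.atTop
        (nhds (Real.exp ((n + 1) * t) * 0)) :=
      ((Filter.tendsto_add_atTop_iff_nat 1).2 hΔ).const_mul _
    rw [mul_zero] at h1
    obtain ⟨j, hj⟩ := Filter.eventually_atTop.1 (h1.eventually (gt_mem_nhds one_pos))
    exact ⟨max j k, le_max_right _ _, (hj _ (le_max_left _ _)).le⟩
  have hgood' : ∀ k, k0 ≤ k → ∀ t : ℕ, T k ≤ t →
      OkP n ξ t (Real.exp (-((νp + ep k) * t)) / pC n) ∧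
      OkD n ξ t (Real.exp (-((νd + ep k) * t)) / pC n) := by
    intro k hk t ht
    obtain ⟨j, hkj, hTj, hj⟩ : ∃ j, k ≤ j ∧ T j ≤ t ∧ Real.exp ((n + 1) * t) * Δ (j + 1) ≤ 1 := by
      have hex := hmtop t k
      obtain ⟨h1, h2⟩ := Nat.find_spec hex
      refine ⟨Nat.find hex, h1, ?_, h2⟩
      rcases h1.lt_or_eq with h3 | h3
      · obtain ⟨i, hi⟩ : ∃ i, Nat.find hex = i + 1 := ⟨Nat.find hex - 1, by omega⟩
        have h4 := Nat.find_min hex (m := i) (by omega)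
        rw [not_and, not_le] at h4
        have h5 := h4 (by omega)
        have h6 := hT i (by omega)
        have h7 : Real.exp ((n + 1) * (T (i + 1) : ℝ)) < Real.exp ((n + 1) * (t : ℝ)) :=
          lt_of_mul_lt_mul_right (lt_of_le_of_lt h6 h5) (hΔ0 _).le
        rw [Real.exp_lt_exp] at h7
        have h8 : (T (i + 1) : ℝ) < t := by
          have : (0 : ℝ) < (n : ℝ) + 1 := by positivity
          exact lt_of_mul_lt_mul_left h7 this.le
        rw [hi]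
        exact_mod_cast h8.le
      · rw [← h3]; exact ht
    have h1 := hclose j (hk.trans hkj)
    have h2 := hgood j (hk.trans hkj) t hTj
    have ht0 : (0 : ℝ) ≤ t := Nat.cast_nonneg t
    have hc1 : |ξ0 j - ξ| ≤ 1 := h1.trans (hΔ1 _)
    have hc2 : |ξ0 j - ξ| * Real.exp ((n + 1) * t) ≤ 1 := by
      calc |ξ0 j - ξ| * Real.exp ((n + 1) * t) ≤ Δ (j + 1) * Real.exp ((n + 1) * t) :=
            mul_le_mul_of_nonneg_right h1 (Real.exp_pos _).le
        _ = Real.exp ((n + 1) * t) * Δ (j + 1) := mul_comm _ _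
        _ ≤ 1 := hj
    have hepjk : ep j ≤ ep k := hepa hkj
    have hmon : ∀ ν : ℝ, Real.exp (-((ν + ep k) * t)) / pC n ≤ Real.exp (-((ν + ep j) * t)) / pC n := by
      intro ν
      have := pC_pos n
      gcongr
    exact ⟨(h2.1.pert (Real.exp_pos _) ht0 hc1 hc2).mono (hmon νp),
      (h2.2.pert (Real.exp_pos _) ht0 hc1 hc2).mono (hmon νd)⟩
  intro ε hε
  obtain ⟨k1, hk1⟩ := Filter.eventually_atTop.1 (hep.eventually (gt_mem_nhds (half_pos hε)))
  set k := max k0 k1 with hk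
  have hepk : ep k ≤ ε / 2 := (hk1 k (le_max_right _ _)).le
  obtain ⟨T1, hT1⟩ := exists_nat_ge (2 * Real.log (pC n) / ε)
  refine ⟨max (T k) T1, fun t ht => ?_⟩
  have h1 := hgood' k (le_max_left _ _) t ((le_max_left _ _).trans ht)
  have h2 : (T1 : ℝ) ≤ t := by exact_mod_cast (le_max_right _ _).trans ht
  have h3 : Real.log (pC n) ≤ ε / 2 * t := by
    have h4 := hT1.trans h2
    rw [div_le_iff₀ hε] at h4
    linarith
  have ht0 : (0 : ℝ) ≤ t := Nat.cast_nonneg t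
  have h5 : ∀ ν : ℝ, Real.exp (-((ν + ε) * t)) ≤ Real.exp (-((ν + ep k) * t)) / pC n := by
    intro ν
    rw [le_div_iff₀ (pC_pos n)]
    calc Real.exp (-((ν + ε) * t)) * pC n
        = Real.exp (-((ν + ε) * t)) * Real.exp (Real.log (pC n)) := by
          rw [Real.exp_log (pC_pos n)]
      _ = Real.exp (-((ν + ε) * t) + Real.log (pC n)) := (Real.exp_add _ _).symm
      _ ≤ Real.exp (-((ν + ep k) * t)) := by
          apply Real.exp_le_exp.2
          have h6 := mul_le_mul_of_nonneg_right hepk ht0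
          nlinarith
  exact ⟨h1.1.mono (h5 νp), h1.2.mono (h5 νd)⟩

/-- adding a small neighbourhood of a point to a bad set -/
lemma bad_union (a r c : ℝ) (hr : 0 < r) (Bad : Set ℝ)
    (hBad : volume {ξ ∈ Ico a (a + r) | ξ ∈ Bad} ≤ ENNReal.ofReal (r / 2)) :
    volume {ξ ∈ Ico a (a + r) | ξ ∈ Bad ∪ Ioo (c - r / 8) (c + r / 8)} ≤
      ENNReal.ofReal (3 * r / 4) := by
  have hsub : {ξ ∈ Ico a (a + r) | ξ ∈ Bad ∪ Ioo (c - r / 8) (c + r / 8)} ⊆
      {ξ ∈ Ico a (a + r) | ξ ∈ Bad} ∪ Ioo (c - r / 8) (c + r / 8) := by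
    rintro ξ ⟨h1, h2 | h2⟩
    · exact Or.inl ⟨h1, h2⟩
    · exact Or.inr h2
  refine (measure_mono hsub).trans ((measure_union_le _ _).trans ?_)
  rw [Real.volume_Ioo]
  refine (add_le_add hBad le_rfl).trans ?_
  rw [← ENNReal.ofReal_add (by positivity) (by linarith)]
  apply ENNReal.ofReal_le_ofReal
  linarith

end Pool.Agent.W71
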