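import Mathlib
import Pool.Agent.W71.Nest3

/-! General nested construction with several flows and avoidance of a sequence. -/

set_option autoImplicit false

open Polynomial Set MeasureTheory

namespace Pool.Agent.W71

/-- invariant of a state with a general property -/
def InvG (ℓ : ℕ) (β e : ℝ) (Y : ℕ → ℝ → Prop) (s : ℕ × ℤ) : Prop :=
  1 ≤ s.1 ∧ volume {ξ ∈ Ico ((s.2 : ℝ) / (ℓ : ℝ) ^ s.1 + β + rad ℓ e s.1)
    ((s.2 : ℝ) / (ℓ : ℝ) ^ s.1 + β + rad ℓ e s.1 + rad ℓ e s.1) | ¬ Y s.1 ξ} ≤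
    ENNReal.ofReal (rad ℓ e s.1 / 2)

theorem nested_gen (ℓ : ℕ → ℕ) (hℓ : ∀ k, (ℓ k).Prime) (be ee : ℕ → ℝ) (hee : ∀ k, 2 ≤ ee k)
    (Y : ℕ → ℕ → ℝ → Prop) (hY : ∀ k, Typical (ℓ k) (be k) (ee k) (Y k))
    (hper : ∀ k m ξ, Y k m ξ → ∀ j : ℤ, Y k m (j + ξ)) (av : ℕ → ℝ) (M : ℕ → ℕ → ℕ) (M0 : ℕ) :
    ∃ (m : ℕ → ℕ) (p : ℕ → ℤ) (ξ : ℝ) (ξ0 : ℕ → ℝ), M0 ≤ m 0 ∧ (∀ k, 1 ≤ m k) ∧
      (∀ k, M k (m k) ≤ m (k + 1)) ∧
      (∀ k, ξ ∈ Icc ((p k : ℝ) / (ℓ k : ℝ) ^ (m k) + be k + rad (ℓ k) (ee k) (m k))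
        ((p k : ℝ) / (ℓ k : ℝ) ^ (m k) + be k + rad (ℓ k) (ee k) (m k) + rad (ℓ k) (ee k) (m k))) ∧
      (∀ k, Y k (m k) (ξ0 k)) ∧ (∀ k, |ξ0 k - ξ| ≤ 1 / (ℓ (k + 1) : ℝ) ^ m (k + 1)) ∧
      ∀ k, ξ ≠ av k := by
  classical
  have hfact : ∀ k, Fact (ℓ k).Prime := fun k => ⟨hℓ k⟩
  have hℓpos : ∀ k, (0 : ℝ) < ℓ k := fun k => by exact_mod_cast (hℓ k).pos
  have hℓ1 : ∀ k, (1 : ℝ) < ℓ k := fun k => by exact_mod_cast (hℓ k).one_lt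
  -- endpoints
  set lo : ℕ → ℕ × ℤ → ℝ := fun k s => (s.2 : ℝ) / (ℓ k : ℝ) ^ s.1 + be k + rad (ℓ k) (ee k) s.1 with hlo
  set rr : ℕ → ℕ × ℤ → ℝ := fun k s => rad (ℓ k) (ee k) s.1 with hrr
  -- initial state
  obtain ⟨s0, hs0, hs0'⟩ : ∃ s : ℕ × ℤ, InvG (ℓ 0) (be 0) (ee 0) (Y 0) s ∧ M0 ≤ s.1 := by
    haveI := hfact 0
    obtain ⟨m, hm, p, -, -, -, h⟩ := window_step (ℓ := ℓ 0) (hY 0) (hper 0) 0 1 one_pos le_rfl ∅
      (by simp) (max M0 1)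
    exact ⟨(m, p), ⟨(le_max_right _ _).trans hm, h⟩, (le_max_left _ _).trans hm⟩
  -- the relation
  set Rel : ℕ → ℕ × ℤ → ℕ × ℤ → Prop := fun k s s' =>
    M k s.1 ≤ s'.1 ∧ lo k s ≤ lo (k + 1) s' ∧ lo (k + 1) s' + rr (k + 1) s' ≤ lo k s + rr k s ∧
    ∃ ξ0 : ℝ, Y k s.1 ξ0 ∧ ∀ ξ ∈ Icc (lo (k + 1) s') (lo (k + 1) s' + rr (k + 1) s'),
        |ξ0 - ξ| ≤ 1 / (ℓ (k + 1) : ℝ) ^ s'.1 ∧ ξ ≠ av k with hRel
  obtain ⟨f, hf1, hf2, hf0⟩ : ∃ f : ℕ → ℕ × ℤ,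
      (∀ k, InvG (ℓ k) (be k) (ee k) (Y k) (f k) ∧ (k = 0 → M0 ≤ (f k).1)) ∧
      (∀ k, Rel k (f k) (f (k + 1))) ∧ True := by
    obtain ⟨f, h1, h2⟩ := exists_chain
      (fun k s => InvG (ℓ k) (be k) (ee k) (Y k) s ∧ (k = 0 → M0 ≤ s.1)) Rel s0
      ⟨hs0, fun _ => hs0'⟩ (by
        rintro k s ⟨⟨hs1, hs2⟩, -⟩
        haveI := hfact k
        haveI := hfact (k + 1)
        set r := rad (ℓ k) (ee k) s.1 with hr
        have hrpos : 0 < r := rad_pos _ _ _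
        have hr1 : r ≤ 1 := rad_le_one _ (hee k) _ hs1
        set Bad : Set ℝ := {ξ | ¬ Y k s.1 ξ} ∪ Ioo (av k - r / 8) (av k + r / 8) with hBad
        have hBadv := bad_union (lo k s) r (av k) hrpos {ξ | ¬ Y k s.1 ξ} hs2
        -- large index
        obtain ⟨m1, hm1⟩ := Filter.eventually_atTop.1
          ((tendsto_pow_atTop_atTop_of_one_lt (hℓ1 (k + 1))).eventually_ge_atTop (16 / r))
        obtain ⟨m, hm, p, h1, h2, ⟨ξ0, hξ0, hξ0'⟩, h4⟩ := window_step (ℓ := ℓ (k + 1))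
          (hY (k + 1)) (hper (k + 1)) (lo k s) r hrpos hr1 Bad hBadv (max (max 1 (M k s.1)) m1)
        have hm2 : 1 ≤ m := ((le_max_left _ _).trans (le_max_left _ _)).trans hm
        have hm3 : M k s.1 ≤ m := ((le_max_right _ _).trans (le_max_left _ _)).trans hm
        have hm4 : m1 ≤ m := (le_max_right _ _).trans hm
        refine ⟨(m, p), ⟨⟨hm2, h4⟩, by omega⟩, hm3, ?_⟩
        have hr' := rad_pos (ℓ (k + 1)) (ee (k + 1)) m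
        have hr'le := rad_le (ℓ := ℓ (k + 1)) (ee (k + 1)) (hee (k + 1)) m hm2
        have hqpos : (0 : ℝ) < (ℓ (k + 1) : ℝ) ^ m := pow_pos (hℓpos _) _
        have hq : 1 / (2 * (ℓ (k + 1) : ℝ) ^ m) = (1 / (ℓ (k + 1) : ℝ) ^ m) / 2 := by field_simp
        rw [hq] at hr'le
        have hq2 : ((p : ℝ) + 1) / (ℓ (k + 1) : ℝ) ^ m =
            p / (ℓ (k + 1) : ℝ) ^ m + 1 / (ℓ (k + 1) : ℝ) ^ m := by ring
        rw [hq2] at h2 hξ0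
        have hqr : 1 / (ℓ (k + 1) : ℝ) ^ m ≤ r / 16 := by
          have h5 := hm1 m hm4
          rw [div_le_iff₀ hrpos] at h5
          rw [div_le_iff₀ hqpos]
          linarith
        have hξ0Y : Y k s.1 ξ0 := by
          by_contra h; exact hξ0' (Or.inl h)
        have hξ0a : ¬ ξ0 ∈ Ioo (av k - r / 8) (av k + r / 8) := fun h => hξ0' (Or.inr h)
        have hpos1 : 0 < 1 / (ℓ (k + 1) : ℝ) ^ m := by positivity
        refine ⟨?_, ?_, ξ0, hξ0Y, ?_⟩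
        · simp only [hlo] at h1 ⊢
          linarith
        · simp only [hlo, hrr] at h2 ⊢
          linarith
        · intro ξ hξ
          simp only [hlo, hrr] at hξ
          have hclose : |ξ0 - ξ| ≤ 1 / (ℓ (k + 1) : ℝ) ^ m := by
            rw [abs_le]
            constructor
            · linarith [hξ0.1, hξ.2]
            · linarith [hξ0.2, hξ.1]
          refine ⟨hclose, ?_⟩
          rintro rfl
          apply hξ0a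
          rw [abs_le] at hclose
          constructor <;> linarith [hclose.1, hclose.2])
    exact ⟨f, h1, h2, trivial⟩
  obtain ⟨ξ, hξ⟩ := exists_point (fun k => lo k (f k)) (fun k => rr k (f k))
    (fun k => (rad_pos _ _ _).le) (fun k => (hf2 k).2.1) (fun k => (hf2 k).2.2.1)
  have hex : ∀ k, ∃ ξ0 : ℝ, Y k (f k).1 ξ0 ∧ |ξ0 - ξ| ≤ 1 / (ℓ (k + 1) : ℝ) ^ (f (k + 1)).1 ∧
      ξ ≠ av k := by
    intro k
    obtain ⟨-, -, -, ξ0, h1, h2⟩ := hf2 k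
    exact ⟨ξ0, h1, h2 ξ (hξ (k + 1))⟩
  choose ξ0 hξ01 hξ02 hξ03 using hex
  exact ⟨fun k => (f k).1, fun k => (f k).2, ξ, ξ0, (hf1 0).2 rfl, fun k => (hf1 k).1.1,
    fun k => (hf2 k).1, hξ, hξ01, hξ02, hξ03⟩

/-- several flows at once -/
theorem nested_multi (S : Finset ℕ) (ℓ : ℕ → ℕ) (hℓ : ∀ k, (ℓ k).Prime)
    (hS : ∀ n ∈ S, 1 ≤ n ∧ ∀ k, (n + 1) * n < ℓ k) (be ee : ℕ → ℝ) (hee : ∀ k, 2 ≤ ee k)
    (νp νd : ℕ → ℝ) (hνp : ∀ n, 0 ≤ νp n) (hνd : ∀ n, 0 ≤ νd n)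
    (hR : ∀ n ∈ S, ∀ k, Rich n (ℓ k) (be k) (ee k) (νp n) (νd n))
    (Y : ℕ → ℕ → ℝ → Prop) (hY : ∀ k, Typical (ℓ k) (be k) (ee k) (Y k))
    (hper : ∀ k m ξ, Y k m ξ → ∀ j : ℤ, Y k m (j + ξ)) (av : ℕ → ℝ) (M : ℕ → ℕ → ℕ) (M0 : ℕ) :
    ∃ (m : ℕ → ℕ) (p : ℕ → ℤ) (ξ : ℝ) (ξ0 : ℕ → ℝ), M0 ≤ m 0 ∧ (∀ k, 1 ≤ m k) ∧
      (∀ k, M k (m k) ≤ m (k + 1)) ∧ (∀ k, k ≤ m k) ∧
      (∀ k, ξ ∈ Icc ((p k : ℝ) / (ℓ k : ℝ) ^ (m k) + be k + rad (ℓ k) (ee k) (m k))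
        ((p k : ℝ) / (ℓ k : ℝ) ^ (m k) + be k + rad (ℓ k) (ee k) (m k) + rad (ℓ k) (ee k) (m k))) ∧
      (∀ k, Y k (m k) (ξ0 k)) ∧ (∀ k, |ξ0 k - ξ| ≤ 1 / (ℓ (k + 1) : ℝ) ^ m (k + 1)) ∧
      (∀ k, ξ ≠ av k) ∧
      ∀ n ∈ S, ∀ ε : ℝ, 0 < ε → ∃ T : ℕ, ∀ t : ℕ, T ≤ t →
        OkP n ξ t (Real.exp (-((νp n + ε) * t))) ∧ OkD n ξ t (Real.exp (-((νd n + ε) * t))) := by
  classical
  set ep : ℕ → ℝ := fun k => 1 / ((k : ℝ) + 1) with hep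
  have hep0 : ∀ k, 0 < ep k := fun k => by simp only [hep]; positivity
  have hfact : ∀ k, Fact (ℓ k).Prime := fun k => ⟨hℓ k⟩
  obtain ⟨m, p, ξ, ξ0, h1, h2, h3, h4, h5, h6, h7⟩ := nested_gen ℓ hℓ be ee hee
    (fun k m ξ => Y k m ξ ∧ ∀ n ∈ S, Okk n (νp n) (νd n) (ep k) (Tm n (ℓ k) m) ξ)
    (fun k => by
      haveI := hfact k
      exact (hY k).and (Typical.finset S _ (fun n hn => Typical.flow (hS n hn).1 ((hS n hn).2 k)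
        (hνp n) (hνd n) (hR n hn k) (ep k) (hep0 k))))
    (fun k m ξ h j => ⟨hper k m ξ h.1 j, fun n hn => (h.2 n hn).shift j⟩) av
    (fun k m => max (M k m) (m + 1)) M0
  have hmk : ∀ k, k ≤ m k := by
    intro k
    induction k with
    | zero => omega
    | succ k ih => have := (le_max_right _ _).trans (h3 k); omega
  refine ⟨m, p, ξ, ξ0, h1, h2, fun k => (le_max_left _ _).trans (h3 k), hmk, h4,
    fun k => (h5 k).1, h6, h7, ?_⟩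
  intro n hn
  have hpw : ∀ k, (2 : ℝ) ^ k ≤ (ℓ k : ℝ) ^ m k := by
    intro k
    have hℓ2 : (2 : ℝ) ≤ ℓ k := by exact_mod_cast (hℓ k).two_le
    calc (2 : ℝ) ^ k ≤ (ℓ k : ℝ) ^ k := pow_le_pow_left₀ (by norm_num) hℓ2 _
      _ ≤ (ℓ k : ℝ) ^ m k := pow_le_pow_right₀ (by linarith) (hmk k)
  have hqpos : ∀ k, (0 : ℝ) < (ℓ k : ℝ) ^ m k := fun k => pow_pos (by exact_mod_cast (hℓ k).pos) _
  refine cover ξ 0 (fun k => Tm n (ℓ k) (m k)) (fun k => 1 / (ℓ k : ℝ) ^ m k) ξ0 ep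
    (fun k => by have := hqpos k; positivity) (fun k => ?_) ?_ ?_ ?_ (fun k _ => ?_)
    (fun k _ => (h5 k).2 n hn) (fun k _ => h6 k)
  · rw [div_le_one (hqpos k)]
    exact (one_le_pow₀ (by norm_num)).trans (hpw k)
  · have h8 : Filter.Tendsto (fun k : ℕ => (1 / 2 : ℝ) ^ k) Filter.atTop (nhds 0) :=
      tendsto_pow_atTop_nhds_zero_of_lt_one (by norm_num) (by norm_num)
    refine squeeze_zero (fun k => by have := hqpos k; positivity) (fun k => ?_) h8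
    rw [one_div_pow]
    exact one_div_le_one_div_of_le (by positivity) (hpw k)
  · exact tendsto_one_div_add_atTop_nhds_zero_nat
  · intro i j hij
    simp only [hep]
    apply one_div_le_one_div_of_le (by positivity)
    have : (i : ℝ) ≤ j := by exact_mod_cast hij
    linarith
  · haveI := hfact (k + 1)
    have h9 := exp_Tm_le (ℓ := ℓ (k + 1)) n (m (k + 1))
    rw [mul_one_div, div_le_one (hqpos _)]
    exact h9

end Pool.Agent.W71
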