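import Mathlib
import Pool.Agent.W71.Fin3
import Pool.Agent.W71.Nest4

/-! The exponents `w_n` and `w_n^*`. -/

set_option autoImplicit false

open Polynomial Set

namespace Pool.Agent.W71

open Pool.Agent.Helper404 (toP castQ toP_natDegree)

variable {n : ℕ}

/-- the naive height of an integer polynomial -/
def hgt (P : ℤ[X]) : ℕ := P.support.sup (fun i => (P.coeff i).natAbs)

/-- Mahler's exponent -/
noncomputable def wM (n : ℕ) (ξ : ℝ) : EReal :=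
  sSup {W : EReal | ∃ w : ℝ, W = (w : EReal) ∧
    {P : ℤ[X] | P.natDegree ≤ n ∧ 0 < |aeval ξ P| ∧
      |aeval ξ P| ≤ (hgt P : ℝ) ^ (-w)}.Infinite}

/-- `P` is the minimal polynomial over the integers of the real number `α` -/
def MinPolyZ (P : ℤ[X]) (α : ℝ) : Prop :=
  P.IsPrimitive ∧ 0 < P.leadingCoeff ∧ 0 < P.natDegree ∧ aeval α P = 0 ∧
    ∀ Q : ℤ[X], Q ≠ 0 → aeval α Q = 0 → P.natDegree ≤ Q.natDegree

/-- Koksma's exponent -/
noncomputable def wK (n : ℕ) (ξ : ℝ) : EReal :=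
  sSup {W : EReal | ∃ w : ℝ, W = (w : EReal) ∧
    {α : ℝ | ∃ P : ℤ[X], MinPolyZ P α ∧ P.natDegree ≤ n ∧ 0 < |ξ - α| ∧
      |ξ - α| ≤ (hgt P : ℝ) ^ (-w - 1)}.Infinite}

lemma hgt_eq_Ht {P : ℤ[X]} (hP : P.natDegree ≤ n) : hgt P = Ht n P := by
  unfold hgt Ht
  apply le_antisymm
  · apply Finset.sup_le
    intro i hi
    apply Finset.le_sup (f := fun i => (P.coeff i).natAbs)
    rw [Finset.mem_range]
    have := le_natDegree_of_mem_supp i hi
    omega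
  · apply Finset.sup_le
    intro i _
    by_cases hi : P.coeff i = 0
    · rw [hi]; simp
    · exact Finset.le_sup (f := fun i => (P.coeff i).natAbs) (mem_support_iff.2 hi)

lemma hgt_pos {P : ℤ[X]} (h0 : P ≠ 0) : 1 ≤ hgt P := by
  rw [hgt_eq_Ht le_rfl]; exact Ht_pos le_rfl h0

lemma coeff_le_hgt (P : ℤ[X]) (i : ℕ) : (P.coeff i).natAbs ≤ hgt P := by
  by_cases hi : P.coeff i = 0
  · rw [hi]; simp
  · exact Finset.le_sup (f := fun i => (P.coeff i).natAbs) (mem_support_iff.2 hi)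

lemma hgt_le_real {P : ℤ[X]} (B : ℝ) (hB : 0 ≤ B) (h : ∀ i, |((P.coeff i : ℤ) : ℝ)| ≤ B) :
    (hgt P : ℝ) ≤ B := by
  have h1 : hgt P ≤ ⌊B⌋₊ := by
    apply Finset.sup_le
    intro i _
    rw [Nat.le_floor_iff hB]
    have h3 : (((P.coeff i).natAbs : ℕ) : ℝ) = |((P.coeff i : ℤ) : ℝ)| := by
      rw [Nat.cast_natAbs]; push_cast; rfl
    rw [h3]; exact h i
  exact (Nat.le_floor_iff hB).1 h1

lemma finite_hgt (n : ℕ) (N : ℝ) : {P : ℤ[X] | P.natDegree ≤ n ∧ (hgt P : ℝ) ≤ N}.Finite := by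
  apply Set.Finite.subset (finite_Ht n ⌊N⌋₊)
  rintro P ⟨h1, h2⟩
  refine ⟨h1, ?_⟩
  rw [← hgt_eq_Ht h1]
  exact Nat.le_floor h2

lemma wM_le (ξ w : ℝ) (h : ∀ v : ℝ, w < v →
    {P : ℤ[X] | P ≠ 0 ∧ P.natDegree ≤ n ∧ |aeval ξ P| ≤ ((Ht n P : ℕ) : ℝ) ^ (-v)}.Finite) :
    wM n ξ ≤ (w : EReal) := by
  apply sSup_le
  rintro W ⟨v, rfl, hv⟩
  rw [EReal.coe_le_coe_iff]
  by_contra hcon
  push Not at hcon
  apply hv
  apply (h v hcon).subset
  rintro P ⟨h1, h2, h3⟩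
  refine ⟨?_, h1, ?_⟩
  · rintro rfl; simp at h2
  · rwa [← hgt_eq_Ht h1]

lemma value_le {P : ℤ[X]} (hP : P.natDegree ≤ n) (ξ α : ℝ) (hα : aeval α P = 0)
    (h1 : |ξ - α| ≤ 1) : |aeval ξ P| ≤ ((n + 1) * cX n ξ) * ((Ht n P : ℕ) : ℝ) * |ξ - α| := by
  have h2 : hd 0 (vec n P) (ξ + (α - ξ)) = 0 := by
    have h0 : ξ + (α - ξ) = α := by ring
    rw [hd_vec hP, h0, hα]
  rw [hd_shift] at h2
  rw [Fin.sum_univ_succ] at h2
  have h3 : hd ((0 : Fin (n + 1)) : ℕ) (vec n P) ξ = aeval ξ P := hd_vec hP ξ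
  simp only [Fin.val_zero, Nat.choose_zero_right, Nat.cast_one, Nat.sub_zero, pow_zero, mul_one,
    one_mul] at h2
  rw [Fin.val_zero] at h3
  rw [h3] at h2
  have h4 : aeval ξ P = -∑ i : Fin n, hd ((Fin.succ i : Fin (n + 1)) : ℕ) (vec n P) ξ *
      (α - ξ) ^ ((Fin.succ i : Fin (n + 1)) : ℕ) := by linarith
  rw [h4, abs_neg]
  refine (Finset.abs_sum_le_sum_abs _ _).trans ?_
  have hc : |α - ξ| = |ξ - α| := abs_sub_comm _ _
  have hH : (0 : ℝ) ≤ ((Ht n P : ℕ) : ℝ) := Nat.cast_nonneg _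
  have hcX := one_le_cX n ξ
  calc ∑ i : Fin n, |hd ((Fin.succ i : Fin (n + 1)) : ℕ) (vec n P) ξ *
      (α - ξ) ^ ((Fin.succ i : Fin (n + 1)) : ℕ)|
      ≤ ∑ _i : Fin n, (cX n ξ * ((Ht n P : ℕ) : ℝ)) * |ξ - α| := by
        refine Finset.sum_le_sum (fun i _ => ?_)
        rw [abs_mul, abs_pow, hc]
        apply mul_le_mul (hd_le (vec n P) ξ _ (fun i => coeff_le_Ht i) _) _ (by positivity)
          (by positivity)
        rw [Fin.val_succ, pow_succ]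
        exact mul_le_of_le_one_left (abs_nonneg _) (pow_le_one₀ (abs_nonneg _) h1)
    _ = n * ((cX n ξ * ((Ht n P : ℕ) : ℝ)) * |ξ - α|) := by
        rw [Finset.sum_const, Finset.card_univ, Fintype.card_fin, nsmul_eq_mul]
    _ ≤ (n + 1) * ((cX n ξ * ((Ht n P : ℕ) : ℝ)) * |ξ - α|) :=
        mul_le_mul_of_nonneg_right (by linarith) (by positivity)
    _ = _ := by ring

lemma wK_le (ξ w : ℝ) (hw : 0 ≤ w) (h : ∀ v : ℝ, w < v →
    {P : ℤ[X] | P ≠ 0 ∧ P.natDegree ≤ n ∧ |aeval ξ P| ≤ ((Ht n P : ℕ) : ℝ) ^ (-v)}.Finite) :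
    wK n ξ ≤ (w : EReal) := by
  apply sSup_le
  rintro W ⟨v, rfl, hv⟩
  rw [EReal.coe_le_coe_iff]
  by_contra hcon
  push Not at hcon
  apply hv
  set v' := (v + w) / 2 with hv'
  set C : ℝ := (n + 1) * cX n ξ with hC
  have hC1 : 1 ≤ C := by
    have h1 := one_le_cX n ξ
    have h2 : (0 : ℝ) ≤ n := Nat.cast_nonneg n
    rw [hC]; nlinarith
  have hvv : 0 < v - v' := by rw [hv']; linarith
  set N : ℝ := C ^ (1 / (v - v')) with hN
  have hfin := (h v' (by rw [hv']; linarith)).union (finite_hgt n N)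
  apply Set.Finite.subset (hfin.biUnion (fun P _ => P.rootSet_finite ℝ))
  rintro α ⟨P, hP, hdeg, hpos, hle⟩
  obtain ⟨-, hlead, -, hroot, -⟩ := hP
  have hP0 : P ≠ 0 := by rintro rfl; simp at hlead
  rw [mem_iUnion₂]
  refine ⟨P, ?_, ?_⟩
  · have hH1 : (1 : ℝ) ≤ hgt P := by exact_mod_cast hgt_pos hP0
    have hH0 : (0 : ℝ) < hgt P := by linarith
    by_cases hbig : (hgt P : ℝ) ≤ N
    · exact Or.inr ⟨hdeg, hbig⟩
    · left
      refine ⟨hP0, hdeg, ?_⟩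
      push Not at hbig
      have hd1 : |ξ - α| ≤ 1 := by
        refine hle.trans ?_
        apply Real.rpow_le_one_of_one_le_of_nonpos hH1
        linarith
      have h2 := value_le hdeg ξ α hroot hd1
      rw [← hgt_eq_Ht hdeg] at h2 ⊢
      have h3 : C ≤ (hgt P : ℝ) ^ (v - v') := by
        calc C = N ^ (v - v') := by
              rw [hN, ← Real.rpow_mul (by linarith), one_div_mul_cancel hvv.ne', Real.rpow_one]
          _ ≤ _ := Real.rpow_le_rpow (by rw [hN]; positivity) hbig.le hvv.le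
      calc |aeval ξ P| ≤ C * (hgt P : ℝ) * |ξ - α| := h2
        _ ≤ (hgt P : ℝ) ^ (v - v') * (hgt P : ℝ) * (hgt P : ℝ) ^ (-v - 1) := by
            apply mul_le_mul _ hle hpos.le (by positivity)
            exact mul_le_mul_of_nonneg_right h3 hH0.le
        _ = (hgt P : ℝ) ^ (-v') := by
            nth_rw 2 [← Real.rpow_one (hgt P : ℝ)]
            rw [← Real.rpow_add hH0, ← Real.rpow_add hH0]
            congr 1; ring
  · rw [mem_rootSet]
    exact ⟨hP0, hroot⟩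

lemma le_sSup_real (S : ℝ → Prop) (w : ℝ) (hw : 0 < w) (h : ∀ v : ℝ, 0 ≤ v → v < w → S v) :
    (w : EReal) ≤ sSup {W : EReal | ∃ w : ℝ, W = (w : EReal) ∧ S w} := by
  apply le_of_forall_lt
  intro c hc
  obtain ⟨v, hv1, hv2⟩ := EReal.lt_iff_exists_real_btwn.mp hc
  have hv3 : v < w := by exact_mod_cast hv2
  rcases le_total 0 v with h0 | h0
  · exact lt_of_lt_of_le hv1 (le_sSup ⟨v, rfl, h v h0 hv3⟩)
  · refine lt_of_lt_of_le hv1 (le_trans ?_ (le_sSup ⟨0, rfl, h 0 le_rfl hw⟩))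
    exact_mod_cast h0

/-- the minimal polynomial of a rational number -/
lemma minPoly_rat (r : ℚ) : MinPolyZ (C (r.den : ℤ) * X + C (-r.num)) (r : ℝ) := by
  have hden : (r.den : ℤ) ≠ 0 := by exact_mod_cast r.den_ne_zero
  have hdeg : (C (r.den : ℤ) * X + C (-r.num)).natDegree = 1 := natDegree_linear hden
  have hdenR : ((r.den : ℤ) : ℝ) ≠ 0 := by exact_mod_cast r.den_ne_zero
  refine ⟨?_, ?_, ?_, ?_, ?_⟩
  · intro c hc
    rw [C_dvd_iff_dvd_coeff] at hc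
    have h0 := hc 0
    have h1 := hc 1
    rw [coeff_add, coeff_C_mul, coeff_X_zero, mul_zero, zero_add, coeff_C_zero, dvd_neg] at h0
    rw [coeff_add, coeff_C_mul, coeff_X_one, mul_one, coeff_C_of_ne_zero one_ne_zero, add_zero] at h1
    have hcop : IsCoprime (r.num) (r.den : ℤ) := by
      rw [Int.isCoprime_iff_gcd_eq_one]
      have := r.reduced
      rw [Int.gcd, Int.natAbs_natCast]
      exact this
    exact hcop.isUnit_of_dvd' h0 h1
  · rw [leadingCoeff_linear hden]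
    exact_mod_cast r.den_pos
  · rw [hdeg]; exact one_pos
  · rw [map_add, map_mul, aeval_C, aeval_C, aeval_X, eq_intCast, eq_intCast]
    have : (r : ℝ) = (r.num : ℝ) / (r.den : ℝ) := by exact_mod_cast (Rat.num_div_den r).symm
    rw [this]
    have h2 : (r.den : ℝ) ≠ 0 := by exact_mod_cast r.den_ne_zero
    push_cast
    field_simp
    ring
  · intro Q hQ hroot
    rw [hdeg]
    by_contra hcon
    have h0 : Q.natDegree = 0 := by omega
    rw [natDegree_eq_zero] at h0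
    obtain ⟨c, rfl⟩ := h0
    rw [aeval_C] at hroot
    apply hQ
    have : c = 0 := by
      have : ((c : ℤ) : ℝ) = 0 := hroot
      exact_mod_cast this
    rw [this, C_0]

/-- rational approximations and their minimal polynomials -/
lemma rat_approx (ξ w v : ℝ) (hw : 0 < w) (hv0 : 0 ≤ v) (hvw : v < w) : ∃ Q : ℝ, ∀ q : ℕ, 1 ≤ q →
    Q ≤ q → ∀ p : ℤ, |ξ - (p : ℝ) / q| ≤ 2 * (q : ℝ) ^ (-(1 + w)) →
    ∃ P : ℤ[X], MinPolyZ P ((p : ℝ) / q) ∧ P.natDegree = 1 ∧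
      |ξ - (p : ℝ) / q| ≤ (hgt P : ℝ) ^ (-v - 1) ∧
      |aeval ξ P| = (P.coeff 1 : ℝ) * |ξ - (p : ℝ) / q| ∧ 0 < (P.coeff 1 : ℝ) ∧
      |aeval ξ P| ≤ (hgt P : ℝ) ^ (-v) := by
  set B : ℝ := |ξ| + 3 with hB
  have hB1 : 1 ≤ B := by have := abs_nonneg ξ; linarith
  have hwv : 0 < w - v := by linarith
  refine ⟨(2 * B ^ (v + 1)) ^ (1 / (w - v)), fun qn hqn1 hqQ p happ => ?_⟩
  have hqQ' : 2 * B ^ (v + 1) ≤ (qn : ℝ) ^ (w - v) := by
    calc 2 * B ^ (v + 1) = ((2 * B ^ (v + 1)) ^ (1 / (w - v))) ^ (w - v) := by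
          rw [← Real.rpow_mul (by positivity), one_div_mul_cancel hwv.ne', Real.rpow_one]
      _ ≤ _ := Real.rpow_le_rpow (by positivity) hqQ hwv.le
  set q : ℝ := (qn : ℝ) with hq
  have hq1 : 1 ≤ q := by rw [hq]; exact_mod_cast hqn1
  have hq0 : 0 < q := by linarith
  have hrad1 : q ^ (-(1 + w)) ≤ 1 := Real.rpow_le_one_of_one_le_of_nonpos hq1 (by linarith)
  set r : ℚ := (p : ℚ) / ((qn : ℕ) : ℚ) with hr
  have hrR : (r : ℝ) = (p : ℝ) / q := by rw [hr, hq]; push_cast; rfl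
  set P : ℤ[X] := C (r.den : ℤ) * X + C (-r.num) with hP
  have hden0 : (r.den : ℤ) ≠ 0 := by exact_mod_cast r.den_ne_zero
  have hcoef1 : P.coeff 1 = (r.den : ℤ) := by
    rw [hP, coeff_add, coeff_C_mul, coeff_X_one, mul_one, coeff_C_of_ne_zero one_ne_zero, add_zero]
  have hdenq : (r.den : ℝ) ≤ q := by
    have h1 : ((r.den : ℤ)) ∣ ((qn : ℕ) : ℤ) := by
      have h2 : r = Rat.divInt p ((qn : ℕ) : ℤ) := by
        rw [hr, Rat.divInt_eq_div]; push_cast; rfl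
      rw [h2]
      exact Rat.den_dvd p _
    have h2 : r.den ≤ qn := Nat.le_of_dvd (by omega) (by exact_mod_cast h1)
    rw [hq]; exact_mod_cast h2
  have hden1 : (1 : ℝ) ≤ r.den := by exact_mod_cast r.den_pos
  have habs : |(r : ℝ)| ≤ B := by
    rw [hrR]
    calc |(p : ℝ) / q| = |ξ - (ξ - p / q)| := by congr 1; ring
      _ ≤ |ξ| + |ξ - p / q| := abs_sub _ _
      _ ≤ |ξ| + 2 * 1 := by
          have := happ.trans (mul_le_mul_of_nonneg_left hrad1 (by norm_num : (0 : ℝ) ≤ 2))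
          linarith
      _ ≤ B := by rw [hB]; linarith
  have hH : (hgt P : ℝ) ≤ B * q := by
    apply hgt_le_real _ (by positivity)
    intro i
    rcases i with _ | _ | i
    · have h1 : P.coeff 0 = -r.num := by
        rw [hP, coeff_add, coeff_C_mul, coeff_X_zero, mul_zero, zero_add, coeff_C_zero]
      rw [h1]
      push_cast
      rw [abs_neg]
      have h2 : (r.num : ℝ) = r * r.den := by exact_mod_cast (Rat.mul_den_eq_num r).symm
      rw [h2, abs_mul, abs_of_pos (by linarith : (0 : ℝ) < r.den)]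
      exact mul_le_mul habs hdenq (by linarith) (by linarith)
    · rw [zero_add, hcoef1]
      push_cast
      rw [abs_of_pos (by linarith : (0 : ℝ) < r.den)]
      calc (r.den : ℝ) ≤ q := hdenq
        _ = 1 * q := (one_mul q).symm
        _ ≤ B * q := mul_le_mul_of_nonneg_right hB1 hq0.le
    · have h1 : P.coeff (i + 1 + 1) = 0 := by
        apply coeff_eq_zero_of_natDegree_lt
        rw [hP, natDegree_linear hden0]; omega
      rw [h1]; simp; positivity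
  have hP0 : P ≠ 0 := by
    intro h
    have h1 := natDegree_linear (b := -r.num) hden0
    rw [← hP, h] at h1; simp at h1
  have hH1 : (1 : ℝ) ≤ hgt P := by exact_mod_cast hgt_pos hP0
  have hH0 : (0 : ℝ) < hgt P := by linarith
  have hdenH : (r.den : ℝ) ≤ hgt P := by
    have h1 := coeff_le_hgt P 1
    rw [hcoef1] at h1
    exact_mod_cast h1
  have hmain : |ξ - (p : ℝ) / q| ≤ (hgt P : ℝ) ^ (-v - 1) := by
    calc |ξ - (p : ℝ) / q| ≤ 2 * q ^ (-(1 + w)) := happ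
      _ ≤ (B * q) ^ (-v - 1) := by
          rw [Real.mul_rpow (by linarith) hq0.le]
          have h1 : 2 * B ^ (v + 1) ≤ q ^ (w - v) := hqQ'
          have h3 : B ^ (-v - 1) * B ^ (v + 1) = 1 := by
            rw [← Real.rpow_add (by linarith)]
            have : -v - 1 + (v + 1) = 0 := by ring
            rw [this, Real.rpow_zero]
          have h4 : q ^ (w - v) * q ^ (-(1 + w)) = q ^ (-v - 1) := by
            rw [← Real.rpow_add hq0]; congr 1; ring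
          rw [← h4]
          have h5 : 0 < q ^ (-(1 + w)) := Real.rpow_pos_of_pos hq0 _
          have h6 : 0 < B ^ (-v - 1) := Real.rpow_pos_of_pos (by linarith) _
          calc 2 * q ^ (-(1 + w)) = (B ^ (-v - 1) * B ^ (v + 1)) * (2 * q ^ (-(1 + w))) := by
                rw [h3, one_mul]
            _ = B ^ (-v - 1) * (2 * B ^ (v + 1)) * q ^ (-(1 + w)) := by ring
            _ ≤ B ^ (-v - 1) * (q ^ (w - v)) * q ^ (-(1 + w)) := by gcongr
            _ = _ := by ring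
      _ ≤ (hgt P : ℝ) ^ (-v - 1) :=
          Real.rpow_le_rpow_of_nonpos hH0 hH (by linarith)
  have hval : |aeval ξ P| = (P.coeff 1 : ℝ) * |ξ - (p : ℝ) / q| := by
    rw [hcoef1, hP, map_add, map_mul, aeval_C, aeval_C, aeval_X, eq_intCast, eq_intCast, ← hrR]
    have h2 : (r.num : ℝ) = r * r.den := by exact_mod_cast (Rat.mul_den_eq_num r).symm
    push_cast
    rw [h2]
    have h3 : (r.den : ℝ) * ξ + -(r * r.den) = r.den * (ξ - r) := by ring
    rw [h3, abs_mul, abs_of_pos (by linarith : (0 : ℝ) < r.den)]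
  refine ⟨P, ?_, natDegree_linear hden0, hmain, hval, ?_, ?_⟩
  · rw [← hrR]; exact minPoly_rat r
  · rw [hcoef1]; push_cast; linarith
  · rw [hval, hcoef1]
    push_cast
    calc (r.den : ℝ) * |ξ - (p : ℝ) / q| ≤ (hgt P : ℝ) * (hgt P : ℝ) ^ (-v - 1) :=
          mul_le_mul hdenH hmain (abs_nonneg _) hH0.le
      _ = (hgt P : ℝ) ^ (-v) := by
          nth_rw 1 [← Real.rpow_one (hgt P : ℝ)]
          rw [← Real.rpow_add hH0]
          congr 1; ring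

/-- lower bounds for both exponents -/
theorem exponents_ge' (hn : 1 ≤ n) (ξ w : ℝ) (hw : 0 < w)
    (happ : ∀ Q : ℝ, ∃ q : ℕ, Q ≤ q ∧ 1 ≤ q ∧ ∃ p : ℤ, 0 < |ξ - (p : ℝ) / q| ∧
      |ξ - (p : ℝ) / q| ≤ 2 * (q : ℝ) ^ (-(1 + w))) :
    (w : EReal) ≤ wM n ξ ∧ (w : EReal) ≤ wK n ξ := by
  have hK : ∀ v : ℝ, 0 ≤ v → v < w → {α : ℝ | ∃ P : ℤ[X], MinPolyZ P α ∧ P.natDegree = 1 ∧
      0 < |ξ - α| ∧ |ξ - α| ≤ (hgt P : ℝ) ^ (-v - 1) ∧ 0 < |aeval ξ P| ∧
      |aeval ξ P| ≤ (hgt P : ℝ) ^ (-v)}.Infinite := by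
    intro v hv0 hvw hfin
    obtain ⟨Q, hQ⟩ := rat_approx ξ w v hw hv0 hvw
    -- a lower bound for the distances
    obtain ⟨δ, hδ, hδ'⟩ : ∃ δ : ℝ, 0 < δ ∧ ∀ α ∈ {α : ℝ | ∃ P : ℤ[X], MinPolyZ P α ∧
        P.natDegree = 1 ∧ 0 < |ξ - α| ∧ |ξ - α| ≤ (hgt P : ℝ) ^ (-v - 1) ∧ 0 < |aeval ξ P| ∧
        |aeval ξ P| ≤ (hgt P : ℝ) ^ (-v)}, δ ≤ |ξ - α| := by
      set A := hfin.toFinset with hA
      rcases A.eq_empty_or_nonempty with h | h
      · refine ⟨1, one_pos, fun α hα => ?_⟩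
        have : α ∈ A := hfin.mem_toFinset.2 hα
        rw [h] at this; simp at this
      · obtain ⟨α0, h1, h2⟩ := A.exists_min_image (fun α => |ξ - α|) h
        refine ⟨|ξ - α0|, ?_, fun α hα => h2 α (hfin.mem_toFinset.2 hα)⟩
        obtain ⟨P, -, -, h3, -⟩ := hfin.mem_toFinset.1 h1
        exact h3
    obtain ⟨q, hqQ, hq1, p, hp1, hp2⟩ := happ (max Q (4 / δ))
    have hq0 : (0 : ℝ) < q := by exact_mod_cast (by omega : 0 < q)
    have hq1R : (1 : ℝ) ≤ q := by exact_mod_cast hq1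
    obtain ⟨P, h1, h2, h3, h4, h5, h6⟩ := hQ q hq1 ((le_max_left _ _).trans hqQ) p hp2
    have h7 := hδ' ((p : ℝ) / q) ⟨P, h1, h2, hp1, h3, by rw [h4]; positivity, h6⟩
    have h8 : δ ≤ 2 * (q : ℝ) ^ (-(1 + w)) := h7.trans hp2
    have h9 : (q : ℝ) ^ (-(1 + w)) ≤ (q : ℝ) ^ (-1 : ℝ) :=
      Real.rpow_le_rpow_of_exponent_le hq1R (by linarith)
    rw [Real.rpow_neg_one] at h9
    have h10 : 4 / δ ≤ q := (le_max_right _ _).trans hqQ
    rw [div_le_iff₀ hδ] at h10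
    have h11 : (q : ℝ)⁻¹ * q = 1 := inv_mul_cancel₀ hq0.ne'
    have h12 : δ ≤ 2 * (q : ℝ)⁻¹ := by linarith
    have h13 : δ * q ≤ 2 * (q : ℝ)⁻¹ * q := mul_le_mul_of_nonneg_right h12 hq0.le
    rw [mul_assoc, h11] at h13
    linarith
  constructor
  · apply le_sSup_real (fun v => {P : ℤ[X] | P.natDegree ≤ n ∧ 0 < |aeval ξ P| ∧
      |aeval ξ P| ≤ (hgt P : ℝ) ^ (-v)}.Infinite) w hw
    intro v hv0 hvw hfin
    apply hK v hv0 hvw
    apply Set.Finite.subset (hfin.biUnion (fun P _ => P.rootSet_finite ℝ))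
    rintro α ⟨P, hP, hdeg, -, -, h5, h6⟩
    rw [mem_iUnion₂]
    refine ⟨P, ⟨by omega, h5, h6⟩, ?_⟩
    rw [mem_rootSet]
    refine ⟨?_, hP.2.2.2.1⟩
    rintro rfl; simp at hdeg
  · apply le_sSup_real (fun v => {α : ℝ | ∃ P : ℤ[X], MinPolyZ P α ∧ P.natDegree ≤ n ∧
      0 < |ξ - α| ∧ |ξ - α| ≤ (hgt P : ℝ) ^ (-v - 1)}.Infinite) w hw
    intro v hv0 hvw
    refine (hK v hv0 hvw).mono ?_
    rintro α ⟨P, hP, hdeg, h3, h4, -, -⟩
    exact ⟨P, hP, by omega, h3, h4⟩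

section
variable {ℓ : ℕ} [hp : Fact ℓ.Prime]

lemma rad_rpow (e : ℝ) (m : ℕ) : rad ℓ e m = ((ℓ ^ m : ℕ) : ℝ) ^ (-e) := by
  have hℓpos : (0 : ℝ) < ℓ := by exact_mod_cast hp.out.pos
  push_cast
  rw [← Real.rpow_natCast, ← Real.rpow_mul hℓpos.le, Real.rpow_def_of_pos hℓpos]
  unfold rad
  congr 1; ring

/-- lower bounds for both exponents -/
theorem exponents_ge (hn : 1 ≤ n) (ξ w : ℝ) (hw : 0 < w)
    (happ : ∀ M : ℕ, ∃ m : ℕ, M ≤ m ∧ 1 ≤ m ∧ ∃ p : ℤ, 0 < |ξ - (p : ℝ) / (ℓ : ℝ) ^ m| ∧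
      |ξ - (p : ℝ) / (ℓ : ℝ) ^ m| ≤ 2 * rad ℓ (1 + w) m) :
    (w : EReal) ≤ wM n ξ ∧ (w : EReal) ≤ wK n ξ := by
  apply exponents_ge' hn ξ w hw
  intro Q
  obtain ⟨M, hM⟩ := exists_nat_ge Q
  obtain ⟨m, hm, -, p, h1, h2⟩ := happ M
  have hℓ2 := hp.out.two_le
  refine ⟨ℓ ^ m, ?_, Nat.one_le_pow _ _ hp.out.pos, p, ?_, ?_⟩
  · have h3 : M ≤ ℓ ^ m := hm.trans ((Nat.lt_pow_self hp.out.one_lt).le)
    have h4 : (M : ℝ) ≤ ((ℓ ^ m : ℕ) : ℝ) := by exact_mod_cast h3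
    linarith
  · push_cast; exact h1
  · rw [rad_rpow] at h2
    push_cast at h2 ⊢
    exact h2

end

end Pool.Agent.W71
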