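import Mathlib
import Pool.Agent.W71.Rich
import Pool.Agent.W71.Dual

/-! Digits of integer polynomials in base `P`. -/

set_option autoImplicit false

open Polynomial Set

namespace Pool.Agent.W71

open Pool.Agent.Helper404 (toP castQ toP_natDegree)

variable {n N : ℕ}

/-- basis polynomials -/
noncomputable def Bk (N : ℕ) (P : ℤ[X]) (k : ℕ) : ℤ[X] := X ^ (k % (N + 1)) * P ^ (k / (N + 1))

lemma Bk_monic {P : ℤ[X]} (hP : P.Monic) (k : ℕ) : (Bk N P k).Monic :=
  (monic_X_pow _).mul (hP.pow _)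

lemma Bk_natDegree {P : ℤ[X]} (hP : P.Monic) (hd : P.natDegree = N + 1) (k : ℕ) :
    (Bk N P k).natDegree = k := by
  unfold Bk
  rw [(monic_X_pow _).natDegree_mul (hP.pow _), natDegree_X_pow, hP.natDegree_pow, hd]
  have := Nat.mod_add_div k (N + 1)
  rw [mul_comm (k / (N + 1))]; omega

/-- matrix of the basis polynomials -/
noncomputable def BM (n N : ℕ) (P : ℤ[X]) : Matrix (Fin (n + 1)) (Fin (n + 1)) ℤ :=
  Matrix.of fun k i => (Bk N P k).coeff i

lemma BM_det {P : ℤ[X]} (hP : P.Monic) (hd : P.natDegree = N + 1) : (BM n N P).det = 1 := by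
  unfold BM
  rw [Matrix.det_of_isLowerTriangular]
  · apply Finset.prod_eq_one
    intro i _
    simp only [Matrix.of_apply]
    have h1 := (Bk_monic (N := N) hP i).coeff_natDegree
    rwa [Bk_natDegree hP hd] at h1
  · intro a b hab
    simp only [Matrix.of_apply]
    apply coeff_eq_zero_of_natDegree_lt
    rw [Bk_natDegree hP hd]
    exact hab

/-- digit functional -/
noncomputable def yv (n N : ℕ) (P : ℤ[X]) (k : Fin (n + 1)) : Fin (n + 1) → ℤ :=
  fun i => (BM n N P)⁻¹ i k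

lemma toP_digits {P : ℤ[X]} (hP : P.Monic) (hd : P.natDegree = N + 1) (u : Fin (n + 1) → ℤ) :
    toP u = ∑ k : Fin (n + 1), C (pr (yv n N P k) u) * Bk N P k := by
  ext i
  rw [finsetSum_coeff]
  simp_rw [coeff_C_mul]
  by_cases hi : i < n + 1
  · rw [toP_coeff' u i hi]
    have hinv : (BM n N P)⁻¹ * BM n N P = 1 :=
      Matrix.nonsing_inv_mul _ (by rw [BM_det hP hd]; exact isUnit_one)
    have h1 : ∀ k : Fin (n + 1), (Bk N P k).coeff i = BM n N P k ⟨i, hi⟩ := fun k => rfl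
    simp_rw [h1]
    unfold pr yv
    simp_rw [Finset.sum_mul]
    rw [Finset.sum_comm]
    have h2 : ∀ l : Fin (n + 1), ∑ k, (BM n N P)⁻¹ l k * u l * BM n N P k ⟨i, hi⟩ =
        u l * (1 : Matrix (Fin (n + 1)) (Fin (n + 1)) ℤ) l ⟨i, hi⟩ := by
      intro l
      rw [← hinv, Matrix.mul_apply, Finset.mul_sum]
      exact Finset.sum_congr rfl (fun k _ => by ring)
    simp_rw [h2, Matrix.one_apply]
    simp
  · rw [coeff_eq_zero_of_natDegree_lt (lt_of_le_of_lt (toP_natDegree u) (by omega))]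
    symm
    apply Finset.sum_eq_zero
    intro k _
    rw [coeff_eq_zero_of_natDegree_lt, mul_zero]
    rw [Bk_natDegree hP hd]
    have := k.2
    omega

/-- digits, extended by zero -/
noncomputable def dgn (n N : ℕ) (P : ℤ[X]) (u : Fin (n + 1) → ℤ) (k : ℕ) : ℤ :=
  if h : k < n + 1 then pr (yv n N P ⟨k, h⟩) u else 0

/-- digit blocks -/
noncomputable def dig (N : ℕ) (P : ℤ[X]) (i : ℕ) (u : Fin (n + 1) → ℤ) : Fin (N + 1) → ℤ :=
  fun k => dgn n N P u ((N + 1) * i + k)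

lemma sum_blocks {M : Type*} [AddCommMonoid M] (f : ℕ → M) (d I : ℕ) :
    ∑ k ∈ Finset.range (d * I), f k =
      ∑ i ∈ Finset.range I, ∑ m ∈ Finset.range d, f (d * i + m) := by
  induction I with
  | zero => simp
  | succ I ih => rw [Nat.mul_succ, Finset.sum_range_add, ih, Finset.sum_range_succ]

lemma toP_blocks {P : ℤ[X]} (hP : P.Monic) (hd : P.natDegree = N + 1) (u : Fin (n + 1) → ℤ)
    (K : ℕ) (hK : n + 1 ≤ K) :
    toP u = ∑ i ∈ Finset.range K, toP (dig N P i u) * P ^ i := by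
  rw [toP_digits hP hd u]
  have h1 : ∑ k : Fin (n + 1), C (pr (yv n N P k) u) * Bk N P k =
      ∑ k ∈ Finset.range (n + 1), C (dgn n N P u k) * Bk N P k := by
    rw [Finset.sum_range]
    refine Finset.sum_congr rfl (fun k _ => ?_)
    unfold dgn; rw [dif_pos k.2]
  have h2 : ∑ k ∈ Finset.range (n + 1), C (dgn n N P u k) * Bk N P k =
      ∑ k ∈ Finset.range ((N + 1) * K), C (dgn n N P u k) * Bk N P k := by
    apply Finset.sum_subset
    · intro x hx
      rw [Finset.mem_range] at hx ⊢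
      nlinarith
    · intro k _ hk
      rw [Finset.mem_range] at hk
      unfold dgn; rw [dif_neg hk]; simp
  rw [h1, h2, sum_blocks]
  refine Finset.sum_congr rfl (fun i _ => ?_)
  unfold toP
  rw [Finset.sum_mul, Finset.sum_range]
  refine Finset.sum_congr rfl (fun m _ => ?_)
  unfold Bk
  have hm := m.2
  rw [Nat.mul_add_mod, Nat.mod_eq_of_lt hm, Nat.mul_add_div (by omega), Nat.div_eq_of_lt hm,
    add_zero, ← mul_assoc]
  rfl

lemma low_blocks {P : ℤ[X]} (hP : P.Monic) (hd : P.natDegree = N + 1) (u : Fin (n + 1) → ℤ)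
    (k : ℕ) (h : ∀ i < k, dig N P i u = 0) :
    ∃ R : ℤ[X], toP u = P ^ k * (toP (dig N P k u) + P * R) := by
  rw [toP_blocks hP hd u (k + (n + 1 + 1)) (by omega), Finset.sum_range_add,
    Finset.sum_range_succ']
  refine ⟨∑ x ∈ Finset.range (n + 1), toP (dig N P (k + (x + 1)) u) * P ^ x, ?_⟩
  have h0 : ∑ x ∈ Finset.range k, toP (dig N P x u) * P ^ x = 0 := by
    apply Finset.sum_eq_zero
    intro x hx
    rw [Finset.mem_range] at hx
    rw [h x hx]
    simp [toP]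
  have h1 : ∑ x ∈ Finset.range (n + 1), toP (dig N P (k + (x + 1)) u) * P ^ (k + (x + 1)) =
      P ^ k * (P * ∑ x ∈ Finset.range (n + 1), toP (dig N P (k + (x + 1)) u) * P ^ x) := by
    rw [Finset.mul_sum, Finset.mul_sum]
    refine Finset.sum_congr rfl (fun x _ => ?_)
    generalize toP (dig N P (k + (x + 1)) u) = Z
    rw [pow_add, pow_add, pow_one]
    ring
  have h2 : toP (dig N P (k + 0) u) * P ^ (k + 0) = P ^ k * toP (dig N P k u) := by
    rw [add_zero, mul_comm]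
  rw [h0, zero_add, h1, h2, ← mul_add, add_comm]

/-- leading Taylor coefficient at the root -/
lemma hd_block {p : Fin (N + 1 + 1) → ℤ} {β : ℝ}
    (hβ : hd 0 p β = 0) (hP : (toP p).Monic) (hdeg : (toP p).natDegree = N + 1)
    (u : Fin (n + 1) → ℤ) (k : ℕ) (h : ∀ i < k, dig N (toP p) i u = 0) :
    hd k u β = (hd 1 p β) ^ k * hd 0 (dig N (toP p) k u) β := by
  obtain ⟨R, hR⟩ := low_blocks hP hdeg u k h
  rw [hd_eq_coeff] at hβ
  rw [hd_eq_coeff, hd_eq_coeff, hd_eq_coeff, hR]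
  set T := taylor β ((toP p).map (Int.castRingHom ℝ)) with hT
  obtain ⟨Q, hQ⟩ := X_dvd_iff.2 hβ
  have hQ0 : Q.coeff 0 = T.coeff 1 := by rw [hQ, coeff_X_mul]
  have e1 : taylor β ((toP p ^ k * (toP (dig N (toP p) k u) + toP p * R)).map
      (Int.castRingHom ℝ)) = T ^ k * (taylor β ((toP (dig N (toP p) k u)).map (Int.castRingHom ℝ)) +
        T * taylor β (R.map (Int.castRingHom ℝ))) := by
    simp only [Polynomial.map_mul, Polynomial.map_pow, Polynomial.map_add]
    rw [taylor_mul, map_add, taylor_mul, taylor_pow]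
  rw [e1, ← hQ0]
  have e2 : T ^ k = X ^ k * Q ^ k := by rw [hQ, mul_pow]
  rw [e2, mul_assoc]
  have e3 := coeff_X_pow_mul (Q ^ k * (taylor β ((toP (dig N (toP p) k u)).map (Int.castRingHom ℝ)) +
    T * taylor β (R.map (Int.castRingHom ℝ)))) k 0
  rw [zero_add] at e3
  rw [e3, mul_coeff_zero, coeff_add, mul_coeff_zero, hβ, zero_mul, add_zero, coeff_zero_eq_eval_zero,
    eval_pow, ← coeff_zero_eq_eval_zero]

/-- a real functional in terms of Taylor coefficients -/
lemma functional_shift (β : ℝ) (c : Fin (n + 1) → ℝ) :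
    ∃ c' : Fin (n + 1) → ℝ, ∀ u : Fin (n + 1) → ℤ, ∑ i, c i * (u i : ℝ) =
      ∑ l, c' l * hd (l : ℕ) u β := by
  refine ⟨fun l => ∑ i : Fin (n + 1), c i * ((((l : ℕ).choose (i : ℕ) : ℕ) : ℝ) *
    (-β) ^ ((l : ℕ) - i)), fun u => ?_⟩
  have h1 : ∀ i : Fin (n + 1), (u i : ℝ) =
      ∑ l : Fin (n + 1), hd (l : ℕ) u β * ((((l : ℕ).choose (i : ℕ) : ℕ) : ℝ) *
        (-β) ^ ((l : ℕ) - i)) := by
    intro i
    rw [← hd_shift, add_neg_cancel, hd_zero]
  calc ∑ i, c i * (u i : ℝ) = ∑ i, ∑ l : Fin (n + 1), c i * (hd (l : ℕ) u β *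
        ((((l : ℕ).choose (i : ℕ) : ℕ) : ℝ) * (-β) ^ ((l : ℕ) - i))) := by
        refine Finset.sum_congr rfl (fun i _ => ?_)
        rw [h1 i, Finset.mul_sum]
    _ = ∑ l : Fin (n + 1), ∑ i, c i * (hd (l : ℕ) u β *
        ((((l : ℕ).choose (i : ℕ) : ℕ) : ℝ) * (-β) ^ ((l : ℕ) - i))) := Finset.sum_comm
    _ = _ := by
        refine Finset.sum_congr rfl (fun l _ => ?_)
        rw [Finset.sum_mul]
        exact Finset.sum_congr rfl (fun i _ => by ring)

/-- block derivatives are fixed combinations of Taylor coefficients -/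
lemma dig_functional (P : ℤ[X]) (β : ℝ) (i k : ℕ) :
    ∃ c : Fin (n + 1) → ℝ, ∀ u : Fin (n + 1) → ℤ, hd k (dig N P i u) β =
      ∑ l, c l * hd (l : ℕ) u β := by
  have h1 : ∀ u : Fin (n + 1) → ℤ, hd k (dig N P i u) β =
      ∑ l : Fin (n + 1), (∑ m : Fin (N + 1), (if h : (N + 1) * i + m < n + 1 then
        ((yv n N P ⟨(N + 1) * i + m, h⟩ l : ℤ) : ℝ) else 0) *
          ((((m : ℕ).choose k : ℕ) : ℝ) * β ^ ((m : ℕ) - k))) * (u l : ℝ) := by
    intro u
    have e1 := hd_shift k (dig N P i u) (0 : ℝ) β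
    rw [zero_add] at e1
    rw [e1]
    simp_rw [Finset.sum_mul]
    rw [Finset.sum_comm]
    refine Finset.sum_congr rfl (fun m _ => ?_)
    rw [hd_zero]
    unfold dig dgn
    split_ifs with h
    · unfold pr
      push_cast
      rw [Finset.sum_mul]
      exact Finset.sum_congr rfl (fun l _ => by ring)
    · simp
  obtain ⟨c', hc'⟩ := functional_shift (n := n) β (fun l => ∑ m : Fin (N + 1),
    (if h : (N + 1) * i + m < n + 1 then ((yv n N P ⟨(N + 1) * i + m, h⟩ l : ℤ) : ℝ) else 0) *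
          ((((m : ℕ).choose k : ℕ) : ℝ) * β ^ ((m : ℕ) - k)))
  exact ⟨c', fun u => by rw [h1 u, hc' u]⟩

end Pool.Agent.W71
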