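import Mathlib
import Pool.Agent.W71.Digits

/-! Echelon lattice bases with respect to the digits. -/

set_option autoImplicit false

open Polynomial Set

namespace Pool.Agent.W71

open Pool.Agent.Helper404 (toP castQ toP_natDegree IB rk SB)

variable {n N : ℕ}

/-- subspace killed by the functionals of index less than `k` -/
def Kk (y : Fin (n + 1) → Fin (n + 1) → ℤ) (V : Submodule ℚ (Fin (n + 1) → ℚ)) (k : ℕ) :
    Submodule ℚ (Fin (n + 1) → ℚ) where
  carrier := {x | x ∈ V ∧ ∀ l : Fin (n + 1), (l : ℕ) < k → prQ (y l) x = 0}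
  add_mem' := by
    rintro a b ⟨ha, ha'⟩ ⟨hb, hb'⟩
    exact ⟨V.add_mem ha hb, fun l hl => by rw [map_add, ha' l hl, hb' l hl, add_zero]⟩
  zero_mem' := ⟨V.zero_mem, fun l _ => map_zero _⟩
  smul_mem' := by
    rintro c a ⟨ha, ha'⟩
    exact ⟨V.smul_mem c ha, fun l hl => by rw [map_smul, ha' l hl, smul_zero]⟩

lemma mem_Kk {y : Fin (n + 1) → Fin (n + 1) → ℤ} {V : Submodule ℚ (Fin (n + 1) → ℚ)} {k : ℕ}
    {x : Fin (n + 1) → ℚ} :
    x ∈ Kk y V k ↔ x ∈ V ∧ ∀ l : Fin (n + 1), (l : ℕ) < k → prQ (y l) x = 0 := Iff.rfl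

lemma Kk_succ (y : Fin (n + 1) → Fin (n + 1) → ℤ) (V : Submodule ℚ (Fin (n + 1) → ℚ)) (k : ℕ)
    (hk : k < n + 1) : Kk y V (k + 1) = Kk y V k ⊓ LinearMap.ker (prQ (y ⟨k, hk⟩)) := by
  ext x
  rw [Submodule.mem_inf, mem_Kk, mem_Kk, LinearMap.mem_ker]
  constructor
  · rintro ⟨h1, h2⟩
    exact ⟨⟨h1, fun l hl => h2 l (by omega)⟩, h2 ⟨k, hk⟩ (by simp)⟩
  · rintro ⟨⟨h1, h2⟩, h3⟩
    refine ⟨h1, fun l hl => ?_⟩
    rcases Nat.lt_succ_iff_lt_or_eq.1 hl with h | h
    · exact h2 l h
    · have : l = ⟨k, hk⟩ := Fin.ext h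
      rw [this]; exact h3

lemma exists_ech_aux (y : Fin (n + 1) → Fin (n + 1) → ℤ)
    (hy : ∀ x : Fin (n + 1) → ℚ, (∀ k, prQ (y k) x = 0) → x = 0)
    (V : Submodule ℚ (Fin (n + 1) → ℚ)) (m : ℕ) (hm : m ≤ n + 1) :
    ∃ (j : ℕ) (v : Fin j → Fin (n + 1) → ℤ) (π : Fin j → Fin (n + 1)),
      ZB (Kk y V (n + 1 - m)) j v ∧ StrictMono π ∧ (∀ a, n + 1 - m ≤ (π a : ℕ)) ∧
      (∀ a, ∀ l < π a, pr (y l) (v a) = 0) ∧ ∀ a, pr (y (π a)) (v a) ≠ 0 := by
  induction m with
  | zero =>
    have hbot : Kk y V (n + 1 - 0) = ⊥ := by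
      rw [eq_bot_iff]
      rintro x ⟨_, hx⟩
      rw [Submodule.mem_bot]
      exact hy x (fun k => hx k (by have := k.2; omega))
    refine ⟨0, Fin.elim0, Fin.elim0, ?_, fun a => a.elim0, fun a => a.elim0, fun a => a.elim0,
      fun a => a.elim0⟩
    rw [hbot]
    refine ⟨⟨linearIndependent_empty_type, by simp⟩, ?_⟩
    intro x hx
    rw [Submodule.mem_bot] at hx
    refine ⟨Fin.elim0, ?_⟩
    simpa using Pool.Agent.Helper404.castQ_eq_zero hx
  | succ m ih =>
    obtain ⟨j, v, π, h1, h2, h3, h4, h5⟩ := ih (by omega)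
    have hk : n + 1 - (m + 1) < n + 1 := by omega
    have hs : n + 1 - m = (n + 1 - (m + 1)) + 1 := by omega
    rw [hs, Kk_succ y V _ hk] at h1
    set k := n + 1 - (m + 1) with hkdef
    by_cases hA : Kk y V k ≤ LinearMap.ker (prQ (y ⟨k, hk⟩))
    · refine ⟨j, v, π, ?_, h2, fun a => by have := h3 a; omega, h4, h5⟩
      rwa [inf_eq_left.2 hA] at h1
    · obtain ⟨v0, hv0, hZ⟩ := exists_split (y ⟨k, hk⟩) (Kk y V k) hA v h1
      refine ⟨j + 1, Fin.cons v0 v, Fin.cons ⟨k, hk⟩ π, hZ, ?_, ?_, ?_, ?_⟩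
      · intro a b hab
        revert hab
        refine Fin.cases ?_ (fun b => ?_) b
        · intro hab; exact absurd hab (Fin.not_lt_zero _)
        · refine Fin.cases ?_ (fun a => ?_) a
          · intro _
            simp only [Fin.cons_zero, Fin.cons_succ]
            rw [Fin.lt_def]
            have := h3 b
            simp only
            omega
          · intro hab
            simp only [Fin.cons_succ]
            exact h2 (Fin.succ_lt_succ_iff.1 hab)
      · intro a
        refine Fin.cases ?_ (fun a => ?_) a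
        · simp
        · simp only [Fin.cons_succ]
          have := h3 a
          omega
      · intro a
        refine Fin.cases ?_ (fun a => ?_) a
        · intro l hl
          simp only [Fin.cons_zero] at hl ⊢
          have hmem : castQ v0 ∈ Kk y V k := by
            rw [← hZ.1.2]
            exact Submodule.subset_span ⟨0, by simp⟩
          have h6 := hmem.2 l (by simpa [Fin.lt_def] using hl)
          rw [prQ_castQ] at h6
          exact_mod_cast h6
        · intro l hl
          simp only [Fin.cons_succ] at hl ⊢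
          exact h4 a l hl
      · intro a
        refine Fin.cases ?_ (fun a => ?_) a
        · simpa using hv0
        · simpa using h5 a

lemma exists_ech (y : Fin (n + 1) → Fin (n + 1) → ℤ)
    (hy : ∀ x : Fin (n + 1) → ℚ, (∀ k, prQ (y k) x = 0) → x = 0)
    (V : Submodule ℚ (Fin (n + 1) → ℚ)) :
    ∃ (j : ℕ) (v : Fin j → Fin (n + 1) → ℤ) (π : Fin j → Fin (n + 1)),
      ZB V j v ∧ StrictMono π ∧
      (∀ a, ∀ l < π a, pr (y l) (v a) = 0) ∧ ∀ a, pr (y (π a)) (v a) ≠ 0 := by
  obtain ⟨j, v, π, h1, h2, _, h4, h5⟩ := exists_ech_aux y hy V (n + 1) le_rfl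
  refine ⟨j, v, π, ?_, h2, h4, h5⟩
  have : Kk y V (n + 1 - (n + 1)) = V := by
    ext x
    rw [mem_Kk]
    simp
  rwa [this] at h1

lemma yv_inj {P : ℤ[X]} (hP : P.Monic) (hd : P.natDegree = N + 1) (x : Fin (n + 1) → ℚ)
    (hx : ∀ k, prQ (yv n N P k) x = 0) : x = 0 := by
  have hdet : IsUnit (BM n N P).det := by rw [BM_det hP hd]; exact isUnit_one
  have h1 : Matrix.vecMul x ((BM n N P)⁻¹.map (Int.castRingHom ℚ)) = 0 := by
    ext k
    have := hx k
    simp only [Matrix.vecMul, dotProduct, Matrix.map_apply, Pi.zero_apply]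
    rw [← this]
    change _ = ∑ i, ((yv n N P k i : ℤ) : ℚ) * x i
    exact Finset.sum_congr rfl (fun i _ => mul_comm _ _)
  have h2 : ((BM n N P)⁻¹.map (Int.castRingHom ℚ)) * ((BM n N P).map (Int.castRingHom ℚ)) = 1 := by
    rw [← Matrix.map_mul, Matrix.nonsing_inv_mul _ hdet]
    simp
  have h3 : Matrix.vecMul (Matrix.vecMul x ((BM n N P)⁻¹.map (Int.castRingHom ℚ)))
      ((BM n N P).map (Int.castRingHom ℚ)) = x := by
    rw [Matrix.vecMul_vecMul, h2, Matrix.vecMul_one]
  rw [← h3, h1, Matrix.zero_vecMul]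

/-- an adapted lattice basis -/
structure Adapt (n N : ℕ) (P : ℤ[X]) (V : Submodule ℚ (Fin (n + 1) → ℚ)) (j : ℕ)
    (v : Fin j → Fin (n + 1) → ℤ) (bl : Fin j → ℕ) : Prop where
  zb : ZB V j v
  mono : Monotone bl
  low : ∀ a, ∀ i < bl a, dig N P i (v a) = 0
  indep : ∀ (i : ℕ) (c : Fin j → ℚ), (∀ a, bl a ≠ i → c a = 0) →
    ∑ a, c a • castQ (dig N P i (v a)) = 0 → c = 0
  card : (Finset.univ.filter fun a => 1 ≤ bl a).card ≤ n - N
  blk : ∀ i, (Finset.univ.filter fun a => bl a = i).card ≤ N + 1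
  le : ∀ a, bl a ≤ n

lemma exists_adapt {P : ℤ[X]} (hP : P.Monic) (hd : P.natDegree = N + 1)
    (V : Submodule ℚ (Fin (n + 1) → ℚ)) : ∃ j v bl, Adapt n N P V j v bl := by
  classical
  obtain ⟨j, v, π, h1, h2, h4, h5⟩ := exists_ech (yv n N P) (yv_inj hP hd) V
  refine ⟨j, v, fun a => (π a : ℕ) / (N + 1), ⟨h1, ?_, ?_, ?_, ?_, ?_, ?_⟩⟩
  · intro a b hab
    exact Nat.div_le_div_right (h2.monotone hab)
  · intro a i hi
    ext m
    unfold dig dgn
    split_ifs with h
    · rw [Pi.zero_apply]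
      apply h4
      rw [Fin.lt_def]
      have h6 := Nat.div_add_mod (π a : ℕ) (N + 1)
      have h7 := m.2
      simp only
      have h8 : (N + 1) * i + (N + 1) ≤ (N + 1) * ((π a : ℕ) / (N + 1)) := by
        calc (N + 1) * i + (N + 1) = (N + 1) * (i + 1) := by ring
          _ ≤ _ := Nat.mul_le_mul_left _ hi
      omega
    · rfl
  · intro i c hc hsum
    by_contra hne
    have hex : (Finset.univ.filter fun a => c a ≠ 0).Nonempty := by
      obtain ⟨a, ha⟩ := Function.ne_iff.1 hne
      exact ⟨a, by simpa using ha⟩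
    set a := (Finset.univ.filter fun a => c a ≠ 0).min' hex with ha
    have hca : c a ≠ 0 := by
      have := Finset.min'_mem _ hex
      rw [← ha, Finset.mem_filter] at this
      exact this.2
    have hmin : ∀ b, c b ≠ 0 → a ≤ b := fun b hb =>
      Finset.min'_le _ _ (by simpa using hb)
    have hbl : (π a : ℕ) / (N + 1) = i := by
      by_contra h
      exact hca (hc a h)
    have hm : (π a : ℕ) % (N + 1) < N + 1 := Nat.mod_lt _ (by omega)
    have h6 := congrFun hsum ⟨(π a : ℕ) % (N + 1), hm⟩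
    have hidx : (N + 1) * i + (π a : ℕ) % (N + 1) = π a := by
      rw [← hbl]; exact Nat.div_add_mod _ _
    have hval : ∀ b, castQ (dig N P i (v b)) ⟨(π a : ℕ) % (N + 1), hm⟩ =
        ((pr (yv n N P (π a)) (v b) : ℤ) : ℚ) := by
      intro b
      unfold castQ dig dgn
      simp only
      rw [dif_pos (by rw [hidx]; exact (π a).2)]
      congr 3
      exact Fin.ext hidx
    rw [Finset.sum_apply] at h6
    simp only [Pi.smul_apply, smul_eq_mul, Pi.zero_apply] at h6
    simp_rw [hval] at h6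
    rw [Finset.sum_eq_single a] at h6
    · rcases mul_eq_zero.1 h6 with h | h
      · exact hca h
      · exact h5 a (by exact_mod_cast h)
    · intro b _ hb
      by_cases hcb : c b = 0
      · rw [hcb, zero_mul]
      · have h7 : a < b := lt_of_le_of_ne (hmin b hcb) (Ne.symm hb)
        rw [h4 b (π a) (h2 h7)]; simp
    · intro h; exact absurd (Finset.mem_univ _) h
  · have h6 : (Finset.univ.filter fun a => 1 ≤ (π a : ℕ) / (N + 1)).card ≤ (Finset.Ico (N + 1) (n + 1)).card := by
      apply Finset.card_le_card_of_injOn (fun a => (π a : ℕ))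
      · intro a ha
        rw [Finset.mem_coe, Finset.mem_filter] at ha
        rw [Finset.mem_coe, Finset.mem_Ico]
        refine ⟨?_, (π a).2⟩
        by_contra hlt
        push Not at hlt
        have := Nat.div_eq_of_lt hlt
        omega
      · intro a _ b _ hab
        exact h2.injective (Fin.ext hab)
    rw [Nat.card_Ico] at h6
    omega
  · intro i
    have h6 : (Finset.univ.filter fun a => (π a : ℕ) / (N + 1) = i).card ≤
        (Finset.Ico ((N + 1) * i) ((N + 1) * i + (N + 1))).card := by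
      apply Finset.card_le_card_of_injOn (fun a => (π a : ℕ))
      · intro a ha
        rw [Finset.mem_coe, Finset.mem_filter] at ha
        rw [Finset.mem_coe, Finset.mem_Ico]
        have h7 := Nat.div_add_mod (π a : ℕ) (N + 1)
        have h8 := Nat.mod_lt (π a : ℕ) (show 0 < N + 1 by omega)
        rw [ha.2] at h7
        constructor
        · simp only; omega
        · simp only; omega
      · intro a _ b _ hab
        exact h2.injective (Fin.ext hab)
    rw [Nat.card_Ico] at h6
    omega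
  · intro a
    have := (π a).2
    exact (Nat.div_le_self _ _).trans (by omega)

end Pool.Agent.W71
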