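import Mathlib
import Pool.Agent.W71.Ech

/-! Degree of the Wronskian for an adapted basis. -/

set_option autoImplicit false

open Polynomial Set

namespace Pool.Agent.W71

open Pool.Agent.Helper404 (toP castQ toP_natDegree IB rk SB)

variable {n N : ℕ}

section
variable {F : Type*} [Field F]

lemma count_low {j : ℕ} (f : Fin j → F[X]) (hf : LinearIndependent F f)
    (A : Matrix (Fin j) (Fin j) F) (hA : A.det ≠ 0) {Q : F[X]} (hQ : Q.Monic) {d : ℕ}
    (hQd : Q.natDegree = d) (bl : Fin j → ℕ) (hdiv : ∀ a, Q ^ (bl a) ∣ f a) (i : ℕ) :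
    (Finset.univ.filter fun a => (∑ k, A a k • f k).natDegree < d * i).card ≤
      (Finset.univ.filter fun a => bl a < i).card := by
  classical
  set S := Finset.univ.filter fun a => (∑ k, A a k • f k).natDegree < d * i with hS
  set T := Finset.univ.filter fun a => bl a < i with hT
  by_contra hcon
  push Not at hcon
  have hnot : ¬ LinearIndependent F (fun a : S => fun k : T => A a k) := by
    intro h
    have h1 := h.fintype_card_le_finrank
    rw [Module.finrank_fintype_fun_eq_card, Fintype.card_coe, Fintype.card_coe] at h1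
    omega
  rw [Fintype.not_linearIndependent_iff] at hnot
  obtain ⟨c, hc, a0, ha0⟩ := hnot
  set g := fun i => ∑ k, A i k • f k with hg
  have hgi : LinearIndependent F g := comb_ne_zero hf hA
  have hsum : ∑ a : S, c a • g a = ∑ k, (∑ a : S, c a * A a k) • f k := by
    simp only [hg, Finset.smul_sum, Finset.sum_smul, mul_smul]
    exact Finset.sum_comm
  have hz : ∀ k ∈ T, ∑ a : S, c a * A a k = 0 := by
    intro k hk
    have := congrFun hc ⟨k, hk⟩
    simpa [Finset.sum_apply] using this
  have hdvd : Q ^ i ∣ ∑ a : S, c a • g a := by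
    rw [hsum]
    apply Finset.dvd_sum
    intro k _
    by_cases hk : k ∈ T
    · rw [hz k hk, zero_smul]; exact dvd_zero _
    · have hbk : i ≤ bl k := by
        rw [hT, Finset.mem_filter] at hk
        push Not at hk
        exact hk (Finset.mem_univ _)
      rw [smul_eq_C_mul]
      exact ((pow_dvd_pow Q hbk).trans (hdiv k)).mul_left _
  have hne : ∑ a : S, c a • g a ≠ 0 := by
    intro h
    have h1 : LinearIndependent F (fun a : S => g a) := hgi.comp _ Subtype.val_injective
    exact ha0 (Fintype.linearIndependent_iff.1 h1 c h a0)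
  have h1 := natDegree_le_of_dvd hdvd hne
  rw [hQ.natDegree_pow, hQd] at h1
  have hSne : S.Nonempty := ⟨a0, a0.2⟩
  have hSm : ∀ a ∈ S, (g a).natDegree < d * i := by
    intro a ha
    rw [hS, Finset.mem_filter] at ha
    exact ha.2
  have hpos : 0 < d * i := by
    have := hSm _ a0.2
    omega
  have h2 : (∑ a : S, c a • g a).natDegree ≤ d * i - 1 := by
    apply natDegree_sum_le_of_forall_le
    intro a _
    refine (natDegree_smul_le _ _).trans ?_
    have h3 := hSm _ a.2
    omega
  rw [mul_comm] at h1
  omega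

/-- sorting lemma -/
lemma sum_sorted {j d : ℕ} (D : Fin j → ℕ) (hD : Function.Injective D) (bl : Fin j → ℕ)
    (hbl : Monotone bl)
    (hcount : ∀ i, (Finset.univ.filter fun a => D a < d * i).card ≤
      (Finset.univ.filter fun a => bl a < i).card) :
    ∑ a, d * bl a + ∑ b : Fin j, (b : ℕ) ≤
      ∑ a, D a + ∑ a, (Finset.univ.filter fun a' => bl a' < bl a).card := by
  classical
  set s := Finset.univ.image D with hs
  have hcard : s.card = j := by
    rw [hs, Finset.card_image_of_injective _ hD, Finset.card_univ, Fintype.card_fin]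
  set e := s.orderEmbOfFin hcard with he
  have hsum : ∑ a, D a = ∑ a, e a := by
    have h1 : ∑ a, D a = ∑ x ∈ s, x := by
      rw [hs, Finset.sum_image (fun a _ b _ h => hD h)]
    have h2 : Finset.univ.image e = s := by
      rw [he, Finset.image_orderEmbOfFin_univ]
    rw [h1, ← h2, Finset.sum_image (fun a _ b _ h => e.injective h)]
  rw [hsum, ← Finset.sum_add_distrib, ← Finset.sum_add_distrib]
  apply Finset.sum_le_sum
  intro a _
  set c := (Finset.univ.filter fun a' => bl a' < bl a).card with hc
  have hca : c ≤ a := by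
    have h1 : (Finset.univ.filter fun a' => bl a' < bl a) ⊆ Finset.univ.filter fun a' => a' < a := by
      intro x hx
      rw [Finset.mem_filter] at hx ⊢
      refine ⟨Finset.mem_univ _, ?_⟩
      by_contra h
      push Not at h
      have := hbl h
      omega
    have h2 := Finset.card_le_card h1
    have h3 : (Finset.univ.filter fun a' => a' < a).card = (a : ℕ) := by
      have : (Finset.univ.filter fun a' => a' < a) = Finset.Iio a := by
        ext x; simp
      rw [this, Fin.card_Iio]
    omega
  have hcj : c < j := lt_of_le_of_lt hca a.2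
  -- the value at position `c`
  have h1 : d * bl a ≤ e ⟨c, hcj⟩ := by
    by_contra hlt
    push Not at hlt
    have h2 : (Finset.univ.filter fun b : Fin j => (b : ℕ) < c + 1).card ≤
        (Finset.univ.filter fun b => D b < d * bl a).card := by
      have h3 : ∀ b : Fin j, ∃ b', D b' = e b := by
        intro b
        obtain ⟨b', _, hb'⟩ := Finset.mem_image.1 (Finset.orderEmbOfFin_mem s hcard b)
        exact ⟨b', hb'⟩
      choose φ hφ using h3
      apply Finset.card_le_card_of_injOn φ
      · intro b hb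
        rw [Finset.mem_coe, Finset.mem_filter] at hb ⊢
        refine ⟨Finset.mem_univ _, ?_⟩
        rw [hφ]
        refine lt_of_le_of_lt ?_ hlt
        apply e.monotone
        rw [Fin.le_def]
        simp only
        omega
      · intro b _ b' _ hbb
        apply e.injective
        rw [← hφ, ← hφ]
        exact congrArg D hbb
    have h4 : (Finset.univ.filter fun b : Fin j => (b : ℕ) < c + 1).card = c + 1 := by
      have : (Finset.univ.filter fun b : Fin j => (b : ℕ) < c + 1) = Finset.Iic (⟨c, hcj⟩ : Fin j) := by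
        ext x
        rw [Finset.mem_filter, Finset.mem_Iic, Fin.le_def]
        simp only [Finset.mem_univ, true_and]
        omega
      rw [this, Fin.card_Iic]
    have h5 := hcount (bl a)
    omega
  have h6 : ∀ m : ℕ, ∀ h : c + m < j, (e ⟨c, hcj⟩ : ℕ) + m ≤ e ⟨c + m, h⟩ := by
    intro m
    induction m with
    | zero => intro h; exact le_rfl
    | succ m ih =>
      intro h
      have h7 := ih (by omega)
      have h8 : e ⟨c + m, by omega⟩ < e ⟨c + (m + 1), h⟩ := by
        apply e.strictMono
        rw [Fin.lt_def]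
        simp only
        omega
      omega
  have h9 := h6 (a - c) (by have := a.2; omega)
  have h10 : (⟨c + (a - c), by have := a.2; omega⟩ : Fin j) = a := by
    ext; simp only; omega
  rw [h10] at h9
  omega

/-- Wronskian degree, general version -/
theorem Wf_coeff_C {j M : ℕ} (hj : j ≤ M + 1) (hN : ∀ i : ℕ, 0 < i → i ≤ M → (i : F) ≠ 0)
    (f : Fin j → F[X]) (hf : LinearIndependent F f) (hfN : ∀ i, (f i).natDegree ≤ M)
    {Q : F[X]} (hQ : Q.Monic) {d : ℕ} (hQd : Q.natDegree = d) (bl : Fin j → ℕ)
    (hbl : Monotone bl) (hdiv : ∀ a, Q ^ (bl a) ∣ f a) :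
    ∃ e, ∑ a, d * bl a ≤ e + ∑ a, (Finset.univ.filter fun a' => bl a' < bl a).card ∧
      (Wf f).coeff e ≠ 0 := by
  obtain ⟨A, hA, hinj⟩ := exists_echelon f hf
  set g := fun i => ∑ k, A i k • f k with hg
  have hgi : LinearIndependent F g := comb_ne_zero hf hA
  have hgN : ∀ i, (g i).natDegree ≤ M := by
    intro i
    apply natDegree_sum_le_of_forall_le
    intro k _
    exact (natDegree_smul_le _ _).trans (hfN k)
  obtain ⟨e, he, hsum⟩ := Wf_distinct hj hN g (fun i => hgi.ne_zero i) hinj hgN
  refine ⟨e, ?_, ?_⟩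
  · have h1 := sum_sorted (d := d) (fun i => (g i).natDegree) hinj bl hbl
      (fun i => count_low f hf A hA hQ hQd bl hdiv i)
    omega
  · rw [Wf_change, coeff_C_mul] at he
    intro h
    apply he
    rw [h, mul_zero]

end

section
variable {ℓ : ℕ} [hp : Fact ℓ.Prime]

/-- `ℓ`-adic lower bound for an adapted basis -/
theorem padicC {P : ℤ[X]} (hP : P.Monic) (hd : P.natDegree = N + 1)
    {V : Submodule ℚ (Fin (n + 1) → ℚ)} {j : ℕ} {v : Fin j → Fin (n + 1) → ℤ} {bl : Fin j → ℕ}
    (h : Adapt n N P V j v bl) (hℓ : (n + 1) * n < ℓ) (m : ℕ) :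
    ∃ E : ℕ, ∑ a, (N + 1) * bl a ≤ E + ∑ a, (Finset.univ.filter fun a' => bl a' < bl a).card ∧
      ∃ p ≤ (n + 1) * n, ((ℓ : ℝ) ^ m) ^ E ≤ Ux ℓ v (pt ℓ m p) := by
  have hj : j ≤ n + 1 := h.zb.1.le
  have hℓn : n < ℓ := by nlinarith
  have hN : ∀ i : ℕ, 0 < i → i ≤ n → ((i : ℕ) : ZMod ℓ) ≠ 0 := by
    intro i hi hin h0
    rw [ZMod.natCast_eq_zero_iff] at h0
    have := Nat.le_of_dvd hi h0
    omega
  obtain ⟨e, he1, he2⟩ := Wf_coeff_C (F := ZMod ℓ) hj hN
    (fun a => (toP (v a)).map (Int.castRingHom (ZMod ℓ))) (indep_zmod h.zb)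
    (fun a => natDegree_mapP _) (Q := P.map (Int.castRingHom (ZMod ℓ))) (hP.map _)
    (d := N + 1) (by rw [hP.natDegree_map, hd]) bl h.mono (by
      intro a
      obtain ⟨R, hR⟩ := low_blocks hP hd (v a) (bl a) (h.low a)
      rw [hR, Polynomial.map_mul, Polynomial.map_pow]
      exact dvd_mul_right _ _)
  obtain ⟨p, hp1, hp2⟩ := lower_of_coeff v hj hℓ m e he2
  exact ⟨e, he1, p, hp1, hp2⟩

end

end Pool.Agent.W71
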