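import Mathlib
import Pool.Agent.W71.WronC

/-! Liouville and Minkowski inside a block. -/

set_option autoImplicit false

open Polynomial Set

namespace Pool.Agent.W71

open Pool.Agent.Helper404 (toP castQ toP_natDegree IB rk SB term Nm term_le exists_term
  term_nonneg Nm_nonneg nrm)

variable {n N : ℕ}

/-- Liouville inequality for all nonzero integer polynomials of degree at most `N` -/
def LiouN (N : ℕ) (β c : ℝ) : Prop :=
  ∀ g : Fin (N + 1) → ℤ, g ≠ 0 → ∀ H : ℝ, (∀ k : Fin (N + 1), |hd (k : ℕ) g β| ≤ H) →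
    c ≤ |hd 0 g β| * H ^ N

lemma toP_snoc (g : Fin (N + 1) → ℤ) : toP (Fin.snoc g 0 : Fin (N + 1 + 1) → ℤ) = toP g := by
  unfold toP
  rw [Fin.sum_univ_castSucc]
  simp

lemma BetaData.liouN {β : ℝ} {p : Fin (N + 1 + 1) → ℤ} (h : BetaData (N + 1) β p) :
    ∃ c : ℝ, 0 < c ∧ LiouN N β c := by
  obtain ⟨c, hc, hl⟩ := h.liou
  refine ⟨c, hc, ?_⟩
  intro g hg H hH
  have hhd : ∀ k, hd k (Fin.snoc g 0 : Fin (N + 1 + 1) → ℤ) β = hd k g β := by
    intro k; unfold hd; rw [toP_snoc]
  have h1 := hl (Fin.snoc g 0 : Fin (N + 1 + 1) → ℤ) (by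
    intro hmem
    rw [Submodule.mem_span_singleton] at hmem
    obtain ⟨a, ha⟩ := hmem
    have h2 := congrFun ha (Fin.last (N + 1))
    simp only [Pi.smul_apply, castQ, h.monic, smul_eq_mul, Fin.snoc_last] at h2
    have ha0 : a = 0 := by simpa using h2
    apply hg
    ext k
    have h3 := congrFun ha k.castSucc
    simp only [Pi.smul_apply, castQ, smul_eq_mul, Fin.snoc_castSucc, ha0, zero_mul] at h3
    exact_mod_cast h3.symm) H (by
    intro k
    rw [hhd]
    refine Fin.lastCases ?_ (fun k => ?_) k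
    · have h4 : hd ((Fin.last (N + 1) : Fin (N + 1 + 1)) : ℕ) g β = 0 := by
        rw [← hhd, Fin.val_last, hd_last]; simp
      rw [h4, abs_zero]
      exact (abs_nonneg _).trans (hH 0)
    · exact hH k)
  rw [hhd] at h1
  simpa using h1

/-- lower bound for covolumes in a block -/
lemma delta_block {β c : ℝ} (hc : 0 < c) (hl : LiouN N β c)
    (w : Fin (N + 1) → ℝ) (hw : ∀ k, 0 < w k) (hwm : ∀ k, w k ≤ 1) {j : ℕ}
    (v : Fin (j + 1) → Fin (N + 1) → ℤ) (hv : LinearIndependent ℚ (fun a => castQ (v a))) :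
    ((c / w 0) ^ (1 / ((N : ℝ) + 1)) / (2 * (j + 1))) ^ (j + 1) ≤ Nm w v β := by
  have hΔ := Nm_pos w hw v hv β
  set Δ := Nm w v β with hΔd
  obtain ⟨a, ha0, ha⟩ := mink_tuple w hw v β hΔ
  rw [← hΔd] at ha
  set B : ℝ := (j + 1) * (2 * Δ ^ (1 / ((j + 1 : ℕ) : ℝ))) with hB
  have hBpos : 0 < B := by
    have := Real.rpow_pos_of_pos hΔ (1 / ((j + 1 : ℕ) : ℝ))
    positivity
  set u := ∑ i, a i • v i with hu
  have hcast : castQ u = ∑ i, (a i : ℚ) • castQ (v i) := castQ_sum a v
  have hu0 : u ≠ 0 := by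
    intro h
    have h0 : castQ u = 0 := by rw [h]; ext i; simp [castQ]
    rw [hcast] at h0
    have := Fintype.linearIndependent_iff.1 hv _ h0
    apply ha0
    ext i
    exact_mod_cast this i
  have hbd : ∀ k : Fin (N + 1), |hd (k : ℕ) u β| ≤ w k * B := by
    intro k
    have := ha k
    rw [nrm_eq, div_le_iff₀ (hw k)] at this
    linarith
  have h1 := hl u hu0 B (fun k => (hbd k).trans (by
    have := mul_le_mul_of_nonneg_right (hwm k) hBpos.le
    linarith))
  have hw0 := hw 0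
  have h2 : c ≤ w 0 * B ^ (N + 1) := by
    have h3 := hbd 0
    rw [Fin.val_zero] at h3
    calc c ≤ |hd 0 u β| * B ^ N := h1
      _ ≤ (w 0 * B) * B ^ N := mul_le_mul_of_nonneg_right h3 (by positivity)
      _ = w 0 * B ^ (N + 1) := by ring
  have hN0 : (0 : ℝ) < (N : ℝ) + 1 := by positivity
  have h4 : (c / w 0) ^ (1 / ((N : ℝ) + 1)) ≤ B := by
    have h5 : c / w 0 ≤ B ^ (N + 1) := by
      rw [div_le_iff₀ (by positivity)]; linarith
    calc (c / w 0) ^ (1 / ((N : ℝ) + 1)) ≤ (B ^ (N + 1)) ^ (1 / ((N : ℝ) + 1)) :=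
          Real.rpow_le_rpow (by positivity) h5 (by positivity)
      _ = B := by
          rw [← Real.rpow_natCast, ← Real.rpow_mul hBpos.le]
          push_cast
          rw [mul_one_div_cancel hN0.ne', Real.rpow_one]
  have h6 : (c / w 0) ^ (1 / ((N : ℝ) + 1)) / (2 * (j + 1)) ≤
      Δ ^ (1 / ((j + 1 : ℕ) : ℝ)) := by
    rw [div_le_iff₀ (by positivity)]
    refine h4.trans (le_of_eq ?_)
    rw [hB]; ring
  calc ((c / w 0) ^ (1 / ((N : ℝ) + 1)) / (2 * (j + 1))) ^ (j + 1)
      ≤ (Δ ^ (1 / ((j + 1 : ℕ) : ℝ))) ^ (j + 1) := by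
        apply pow_le_pow_left₀ _ h6
        positivity
    _ = Δ := by
        rw [← Real.rpow_natCast, ← Real.rpow_mul hΔ.le, one_div_mul_cancel (by positivity),
          Real.rpow_one]

/-- Liouville inequality in logarithmic form for a block -/
lemma block_log {β c : ℝ} (hc : 0 < c) (hl : LiouN N β c) :
    ∃ C : ℝ, 0 ≤ C ∧ ∀ (j : ℕ) (g : Fin (j + 1) → Fin (N + 1) → ℤ),
      LinearIndependent ℚ (fun a => castQ (g a)) → j ≤ N →
      ∃ (a b : ℝ) (e e' : Fin (j + 1) → Fin (N + 1)),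
        |dv g (fun x => (e x : ℕ)) β| = Real.exp a ∧
        |dv g (fun x => (e' x : ℕ)) β| = Real.exp b ∧ (∃ x, e' x = 0) ∧ -C ≤ a ∧
        -C ≤ ((j : ℝ) + 1) * b + ((N : ℝ) - j) * a := by
  classical
  have hN0 : (0 : ℝ) < (N : ℝ) + 1 := by positivity
  -- constant
  set κ : ℝ := (min 1 c) ^ (1 / ((N : ℝ) + 1)) / (2 * (N + 1)) with hκ
  have hmc : 0 < min 1 c := lt_min one_pos hc
  have hκpos : 0 < κ := by positivity
  have hκ1 : κ ≤ 1 := by
    rw [hκ, div_le_one (by positivity)]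
    have h1 : (min 1 c) ^ (1 / ((N : ℝ) + 1)) ≤ 1 :=
      Real.rpow_le_one hmc.le (min_le_left _ _) (by positivity)
    linarith
  set K : ℝ := κ ^ (N + 1) with hK
  have hKpos : 0 < K := by positivity
  have hK1 : K ≤ 1 := pow_le_one₀ hκpos.le hκ1
  refine ⟨(N + 1) * -Real.log K, ?_, ?_⟩
  · have := Real.log_nonpos hKpos.le hK1
    nlinarith
  intro j g hg hj
  have hjN : (j : ℝ) ≤ N := by exact_mod_cast hj
  set s : ℝ := ((j : ℝ) + 1) / ((N : ℝ) + 1) with hs
  have hspos : 0 < s := by positivity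
  have hs1 : s ≤ 1 := by rw [hs, div_le_one hN0]; linarith
  -- basic inequality
  have hmain : ∀ τ : ℝ, 1 ≤ τ → K * τ ^ s ≤ Nm (wr N τ⁻¹) g β := by
    intro τ hτ
    have hτ0 : 0 < τ := by linarith
    have h1 := delta_block hc hl (wr N τ⁻¹) (wr_pos (by positivity)) (by
      intro k
      unfold wr
      split_ifs
      · exact inv_le_one_of_one_le₀ hτ
      · exact le_rfl) g hg
    refine le_trans ?_ h1
    have h2 : wr N τ⁻¹ 0 = τ⁻¹ := by simp [wr]
    rw [h2, div_inv_eq_mul]
    have h3 : κ * τ ^ (1 / ((N : ℝ) + 1)) ≤ (c * τ) ^ (1 / ((N : ℝ) + 1)) / (2 * (j + 1)) := by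
      rw [Real.mul_rpow hc.le hτ0.le, hκ, div_mul_eq_mul_div]
      apply div_le_div₀ (by positivity) _ (by positivity) (by linarith)
      apply mul_le_mul_of_nonneg_right _ (by positivity)
      exact Real.rpow_le_rpow hmc.le (min_le_right _ _) (by positivity)
    calc K * τ ^ s ≤ κ ^ (j + 1) * (τ ^ (1 / ((N : ℝ) + 1))) ^ (j + 1) := by
          apply mul_le_mul _ _ (by positivity) (by positivity)
          · exact pow_le_pow_of_le_one hκpos.le hκ1 (by omega)
          · rw [← Real.rpow_natCast, ← Real.rpow_mul hτ0.le]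
            apply le_of_eq
            congr 1
            rw [hs]; push_cast; ring
      _ = (κ * τ ^ (1 / ((N : ℝ) + 1))) ^ (j + 1) := by rw [mul_pow]
      _ ≤ _ := pow_le_pow_left₀ (by positivity) h3 _
  -- maximal minors
  obtain ⟨eA, _, heA⟩ := Finset.exists_max_image (Finset.univ : Finset (Fin (j + 1) → Fin (N + 1)))
    (fun e => |dv g (fun x => (e x : ℕ)) β|) ⟨fun _ => 0, Finset.mem_univ _⟩
  obtain ⟨eB, heB0, heB⟩ := Finset.exists_max_image
    (Finset.univ.filter fun e : Fin (j + 1) → Fin (N + 1) => ∃ x, e x = 0)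
    (fun e => |dv g (fun x => (e x : ℕ)) β|) ⟨fun _ => 0, by simp⟩
  set A := |dv g (fun x => (eA x : ℕ)) β| with hA
  set B := |dv g (fun x => (eB x : ℕ)) β| with hB
  have hBA : B ≤ A := heA eB (Finset.mem_univ _)
  have hB0 : 0 ≤ B := abs_nonneg _
  have hup : ∀ τ : ℝ, 1 ≤ τ → K * τ ^ s ≤ max A (τ * B) := by
    intro τ hτ
    have hτ0 : 0 < τ := by linarith
    refine (hmain τ hτ).trans ?_
    obtain ⟨I, hI⟩ := exists_term (wr N τ⁻¹) g β
    rw [hI, term_eq]
    by_cases hdv : dv g (fun b => (I b : ℕ)) β = 0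
    · rw [hdv, abs_zero, zero_div]
      exact le_max_of_le_left (abs_nonneg _)
    · have hinj := inj_of_dv_ne g I β hdv
      by_cases hz : ∃ b, I b = 0
      · obtain ⟨b0, hb0⟩ := hz
        have hprod : ∏ b, wr N τ⁻¹ (I b) = τ⁻¹ := by
          rw [← Finset.mul_prod_erase _ _ (Finset.mem_univ b0), Finset.prod_eq_one]
          · rw [hb0]; simp [wr]
          · intro b hb
            have : I b ≠ 0 := fun h0 => (Finset.ne_of_mem_erase hb) (hinj (h0.trans hb0.symm))
            simp [wr, this]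
        rw [hprod, div_inv_eq_mul, mul_comm]
        apply le_max_of_le_right
        apply mul_le_mul_of_nonneg_left _ hτ0.le
        exact heB I (by simpa using ⟨b0, hb0⟩)
      · push Not at hz
        have hprod : ∏ b, wr N τ⁻¹ (I b) = 1 := by
          apply Finset.prod_eq_one
          intro b _
          simp [wr, hz b]
        rw [hprod, div_one]
        exact le_max_of_le_left (heA I (Finset.mem_univ _))
  have hAK : K ≤ A := by
    have h1 := hup 1 le_rfl
    rw [Real.one_rpow, mul_one, one_mul, max_eq_left hBA] at h1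
    exact h1
  have hApos : 0 < A := hKpos.trans_le hAK
  have hBpos : 0 < B := by
    rcases hB0.lt_or_eq with h | h
    · exact h
    · exfalso
      have h2 : 1 ≤ 2 * A / K := by
        rw [le_div_iff₀ hKpos]; linarith
      have h3 := hup ((2 * A / K) ^ (1 / s)) (Real.one_le_rpow h2 (by positivity))
      rw [← h, mul_zero, max_eq_left hApos.le, ← Real.rpow_mul (by positivity),
        one_div_mul_cancel hspos.ne', Real.rpow_one] at h3
      have h4 : K * (2 * A / K) = 2 * A := by field_simp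
      rw [h4] at h3
      linarith
  refine ⟨Real.log A, Real.log B, eA, eB, ?_, ?_, ?_, ?_, ?_⟩
  · rw [Real.exp_log hApos]
  · rw [Real.exp_log hBpos]
  · simpa using heB0
  · have h1 := Real.log_le_log hKpos hAK
    have h2 := Real.log_nonpos hKpos.le hK1
    nlinarith
  · have h1 := hup (A / B) ((one_le_div hBpos).2 hBA)
    rw [div_mul_cancel₀ _ hBpos.ne', max_self] at h1
    have h2 := Real.log_le_log (by positivity) h1
    rw [Real.log_mul hKpos.ne' (by positivity), Real.log_rpow (by positivity),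
      Real.log_div hApos.ne' hBpos.ne', hs] at h2
    have h3 : ((N : ℝ) + 1) * (Real.log K + ((j : ℝ) + 1) / ((N : ℝ) + 1) *
        (Real.log A - Real.log B)) ≤ ((N : ℝ) + 1) * Real.log A :=
      mul_le_mul_of_nonneg_left h2 hN0.le
    have h4 : ((N : ℝ) + 1) * (Real.log K + ((j : ℝ) + 1) / ((N : ℝ) + 1) *
        (Real.log A - Real.log B)) = ((N : ℝ) + 1) * Real.log K + ((j : ℝ) + 1) *
        (Real.log A - Real.log B) := by field_simp
    rw [h4] at h3
    linarith

end Pool.Agent.W71
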