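import Mathlib
import Pool.Agent.W71.BlockL

/-! Block triangular determinants. -/

set_option autoImplicit false

open Polynomial Set

namespace Pool.Agent.W71

open Pool.Agent.Helper404 (toP castQ toP_natDegree IB rk SB term Nm term_le exists_term
  term_nonneg Nm_nonneg nrm)

variable {n N : ℕ}

/-- block determinant -/
noncomputable def Db (N : ℕ) (P : ℤ[X]) (β : ℝ) {j : ℕ} (v : Fin j → Fin (n + 1) → ℤ)
    (bl : Fin j → ℕ) (i : ℕ) (e : {x // bl x = i} → Fin (N + 1)) : ℝ :=
  Matrix.det (Matrix.of fun x y : {x // bl x = i} => hd (e y : ℕ) (dig N P i (v x)) β)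

/-- number of basis vectors in a block -/
def nb {j : ℕ} (bl : Fin j → ℕ) (i : ℕ) : ℕ := (Finset.univ.filter fun a => bl a = i).card

lemma adapt_block {β c : ℝ} (hc : 0 < c) (hl : LiouN N β c) :
    ∃ C : ℝ, 0 ≤ C ∧ ∀ (P : ℤ[X]) (V : Submodule ℚ (Fin (n + 1) → ℚ)) (j : ℕ)
      (v : Fin j → Fin (n + 1) → ℤ) (bl : Fin j → ℕ), Adapt n N P V j v bl →
      ∀ i, (∃ a, bl a = i) →
      ∃ (a b : ℝ) (e e' : {x // bl x = i} → Fin (N + 1)),
        |Db N P β v bl i e| = Real.exp a ∧
        |Db N P β v bl i e'| = Real.exp b ∧ (∃ x, e' x = 0) ∧ -C ≤ a ∧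
        -C ≤ (nb bl i : ℝ) * b + ((N : ℝ) + 1 - nb bl i) * a := by
  classical
  obtain ⟨C, hC0, hC⟩ := block_log hc hl
  refine ⟨C, hC0, ?_⟩
  intro P V j v bl h i hi
  have hcard : Fintype.card {x // bl x = i} = nb bl i := by
    unfold nb
    rw [Fintype.card_subtype]
  have hpos : 0 < nb bl i := by
    obtain ⟨a, ha⟩ := hi
    unfold nb
    rw [Finset.card_pos]
    exact ⟨a, by simpa using ha⟩
  obtain ⟨j', hj'⟩ : ∃ j', nb bl i = j' + 1 := ⟨nb bl i - 1, by omega⟩
  set σ : Fin (j' + 1) ≃ {x // bl x = i} := (Fintype.equivFinOfCardEq (hcard.trans hj')).symm with hσ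
  set g : Fin (j' + 1) → Fin (N + 1) → ℤ := fun x => dig N P i (v (σ x)) with hg
  have hind : LinearIndependent ℚ (fun a => castQ (g a)) := by
    rw [Fintype.linearIndependent_iff]
    intro c hc x
    have h1 := h.indep i (fun a => if ha : bl a = i then c (σ.symm ⟨a, ha⟩) else 0)
      (fun a ha => dif_neg ha) (by
        have h2 : ∑ a, (if ha : bl a = i then c (σ.symm ⟨a, ha⟩) else 0) •
            castQ (dig N P i (v a)) =
            ∑ a ∈ Finset.univ.filter (fun a => bl a = i),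
              (if ha : bl a = i then c (σ.symm ⟨a, ha⟩) else 0) • castQ (dig N P i (v a)) := by
          symm
          apply Finset.sum_subset (Finset.subset_univ _)
          intro a _ ha
          have hne : ¬ bl a = i := by simpa using ha
          rw [dif_neg hne, zero_smul]
        rw [h2, Finset.sum_subtype (p := fun a => bl a = i) _ (by simp), ← hc]
        symm
        apply Fintype.sum_equiv σ
        intro x
        have hx : bl (σ x : Fin j) = i := (σ x).2
        rw [dif_pos hx]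
        simp [hg])
    have h4 := congrFun h1 (σ x)
    simp only [Pi.zero_apply] at h4
    rw [dif_pos (σ x).2] at h4
    simpa using h4
  have hle : j' ≤ N := by
    have h5 := h.blk i
    unfold nb at hj'
    omega
  obtain ⟨a, b, e, e', h1, h2, ⟨x0, h3⟩, h4, h5⟩ := hC j' g hind hle
  have hdet : ∀ f : Fin (j' + 1) → Fin (N + 1),
      Db N P β v bl i (f ∘ σ.symm) = dv g (fun x => (f x : ℕ)) β := by
    intro f
    unfold Db
    rw [dv_eq_det, ← Matrix.det_submatrix_equiv_self σ]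
    congr 1
    ext x y
    simp [hg]
  refine ⟨a, b, e ∘ σ.symm, e' ∘ σ.symm, by rw [hdet, h1], by rw [hdet, h2], ⟨σ x0, ?_⟩, h4, ?_⟩
  · simpa using h3
  · rw [hj']
    push_cast
    have : (N : ℝ) + 1 - ((j' : ℝ) + 1) = N - j' := by ring
    rw [this]
    exact h5

/-- the mixed matrix -/
noncomputable def Gm (N : ℕ) (P : ℤ[X]) (β : ℝ) {j : ℕ} (v : Fin j → Fin (n + 1) → ℤ)
    (bl : Fin j → ℕ) (e : Fin j → Fin (N + 1)) : Matrix (Fin j) (Fin j) ℝ :=
  Matrix.of fun a b => if e b = 0 then hd (bl b) (v a) β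
    else hd (e b : ℕ) (dig N P (bl b) (v a)) β

lemma Gm_det {p : Fin (N + 1 + 1) → ℤ} {β : ℝ} (hβ : hd 0 p β = 0) (hP : (toP p).Monic)
    (hdeg : (toP p).natDegree = N + 1) {V : Submodule ℚ (Fin (n + 1) → ℚ)} {j : ℕ}
    {v : Fin j → Fin (n + 1) → ℤ} {bl : Fin j → ℕ} (h : Adapt n N (toP p) V j v bl)
    (e : Fin j → Fin (N + 1)) :
    (Gm N (toP p) β v bl e).det = (∏ b, (if e b = 0 then (hd 1 p β) ^ (bl b) else 1)) *
      ∏ i ∈ Finset.univ.image bl, Db N (toP p) β v bl i (fun x => e x) := by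
  classical
  have hbt : (Gm N (toP p) β v bl e).BlockTriangular bl := by
    intro a b hab
    unfold Gm
    simp only [Matrix.of_apply]
    split_ifs with he
    · rw [hd_block hβ hP hdeg (v a) (bl b) (fun i hi => h.low a i (hi.trans hab)), h.low a _ hab]
      simp [hd, toP]
    · rw [h.low a _ hab]
      simp [hd, toP]
  set f : Fin j → ℝ := fun b => if e b = 0 then (hd 1 p β) ^ (bl b) else 1 with hf
  set G0 : Matrix (Fin j) (Fin j) ℝ :=
    Matrix.of fun a b => hd (e b : ℕ) (dig N (toP p) (bl b) (v a)) β with hG0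
  have hbt0 : G0.BlockTriangular bl := by
    intro a b hab
    simp only [hG0, Matrix.of_apply]
    rw [h.low a _ hab]
    simp [hd, toP]
  have hbt1 : (Matrix.of fun a b => f b * G0 a b).BlockTriangular bl := by
    intro a b hab
    simp only [Matrix.of_apply]
    rw [hbt0 hab, mul_zero]
  have h1 : (Gm N (toP p) β v bl e).det = (Matrix.of fun a b => f b * G0 a b).det := by
    rw [hbt.det, hbt1.det]
    refine Finset.prod_congr rfl (fun i _ => ?_)
    congr 1
    ext x y
    change Gm N (toP p) β v bl e x y = f y * G0 x y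
    unfold Gm
    simp only [Matrix.of_apply, hf, hG0]
    have hx : bl (x : Fin j) = bl (y : Fin j) := x.2.trans y.2.symm
    split_ifs with he
    · rw [hd_block hβ hP hdeg (v x) (bl y) (fun i hi => h.low x i (by rw [hx]; exact hi)), he]
      rfl
    · rw [one_mul]
  rw [h1, Matrix.det_mul_row, hbt0.det]
  congr 1
  refine Finset.prod_congr rfl (fun i _ => ?_)
  unfold Db
  congr 1
  ext x y
  change G0 x y = _
  simp only [hG0, Matrix.of_apply]
  rw [y.2]

lemma Gm_lower {p : Fin (N + 1 + 1) → ℤ} {β : ℝ} (hβ : hd 0 p β = 0) (hP : (toP p).Monic)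
    (hdeg : (toP p).natDegree = N + 1) (hne : hd 1 p β ≠ 0) :
    ∃ κ : ℝ, 0 < κ ∧ ∀ (V : Submodule ℚ (Fin (n + 1) → ℚ)) (j : ℕ)
      (v : Fin j → Fin (n + 1) → ℤ) (bl : Fin j → ℕ), Adapt n N (toP p) V j v bl →
      ∀ e : Fin j → Fin (N + 1),
      κ * ∏ i ∈ Finset.univ.image bl, |Db N (toP p) β v bl i (fun x => e x)| ≤
        |(Gm N (toP p) β v bl e).det| := by
  classical
  set μ : ℝ := min 1 |hd 1 p β| with hμ
  have hμ0 : 0 < μ := lt_min one_pos (abs_pos.2 hne)
  have hμ1 : μ ≤ 1 := min_le_left _ _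
  refine ⟨(μ ^ n) ^ (n + 1), by positivity, ?_⟩
  intro V j v bl h e
  rw [Gm_det hβ hP hdeg h e, abs_mul, Finset.abs_prod, Finset.abs_prod]
  apply mul_le_mul_of_nonneg_right _ (Finset.prod_nonneg (fun _ _ => abs_nonneg _))
  calc (μ ^ n) ^ (n + 1) ≤ (μ ^ n) ^ j :=
        pow_le_pow_of_le_one (by positivity) (pow_le_one₀ hμ0.le hμ1) h.zb.1.le
    _ = ∏ _b : Fin j, μ ^ n := by simp
    _ ≤ ∏ b, |if e b = 0 then (hd 1 p β) ^ (bl b) else 1| := by
        apply Finset.prod_le_prod (fun _ _ => by positivity)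
        intro b _
        split_ifs
        · rw [abs_pow]
          calc μ ^ n ≤ μ ^ (bl b) := pow_le_pow_of_le_one hμ0.le hμ1 (h.le b)
            _ ≤ _ := pow_le_pow_left₀ hμ0.le (min_le_right _ _) _
        · rw [abs_one]; exact pow_le_one₀ hμ0.le hμ1

/-- expansion of the mixed determinant -/
lemma Gm_upper (P : ℤ[X]) (β : ℝ) :
    ∃ K : ℝ, 0 < K ∧ ∀ (V : Submodule ℚ (Fin (n + 1) → ℚ)) (j : ℕ)
      (v : Fin j → Fin (n + 1) → ℤ) (bl : Fin j → ℕ), Adapt n N P V j v bl →
      ∀ e : Fin j → Fin (N + 1), ∃ φ : Fin j → Fin (n + 1),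
        (∀ b, e b = 0 → ((φ b : Fin (n + 1)) : ℕ) = bl b) ∧
        |(Gm N P β v bl e).det| ≤ K * |dv v (fun b => (φ b : ℕ)) β| := by
  classical
  choose c hc using fun (i k : ℕ) => dig_functional (n := n) (N := N) P β i k
  set C0 : ℝ := 1 + ∑ i : Fin (n + 1), ∑ k : Fin (N + 1), ∑ l : Fin (n + 1), |c i k l| with hC0
  have hC01 : 1 ≤ C0 := by
    have : 0 ≤ ∑ i : Fin (n + 1), ∑ k : Fin (N + 1), ∑ l : Fin (n + 1), |c i k l| :=
      Finset.sum_nonneg (fun _ _ => Finset.sum_nonneg (fun _ _ => Finset.sum_nonneg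
        (fun _ _ => abs_nonneg _)))
    linarith
  have hcb : ∀ (i : ℕ) (_ : i ≤ n) (k : Fin (N + 1)) (l : Fin (n + 1)), |c i k l| ≤ C0 := by
    intro i hi k l
    have h1 : |c i k l| ≤ ∑ l : Fin (n + 1), |c i k l| :=
      Finset.single_le_sum (f := fun l : Fin (n + 1) => |c i k l|) (fun _ _ => abs_nonneg _)
        (Finset.mem_univ l)
    have h2 : ∑ l : Fin (n + 1), |c i k l| ≤ ∑ k : Fin (N + 1), ∑ l : Fin (n + 1), |c i k l| :=
      Finset.single_le_sum (f := fun k : Fin (N + 1) => ∑ l : Fin (n + 1), |c i k l|)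
        (fun _ _ => Finset.sum_nonneg (fun _ _ => abs_nonneg _)) (Finset.mem_univ k)
    have h3 : ∑ k : Fin (N + 1), ∑ l : Fin (n + 1), |c i k l| ≤
        ∑ i : Fin (n + 1), ∑ k : Fin (N + 1), ∑ l : Fin (n + 1), |c i k l| :=
      Finset.single_le_sum (f := fun i : Fin (n + 1) => ∑ k : Fin (N + 1), ∑ l : Fin (n + 1), |c i k l|)
        (fun _ _ => Finset.sum_nonneg (fun _ _ => Finset.sum_nonneg (fun _ _ => abs_nonneg _)))
        (Finset.mem_univ (⟨i, by omega⟩ : Fin (n + 1)))
    rw [hC0]; linarith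
  refine ⟨((n : ℝ) + 1) ^ (n + 1) * C0 ^ (n + 1), by positivity, ?_⟩
  intro V j v bl h e
  have hj := h.zb.1.le
  set Cm : Matrix (Fin (n + 1)) (Fin j) ℝ := Matrix.of fun l b =>
    if e b = 0 then (if (l : ℕ) = bl b then 1 else 0) else c (bl b) (e b) l with hCm
  set H : Matrix (Fin j) (Fin (n + 1)) ℝ := Matrix.of fun a l => hd (l : ℕ) (v a) β with hH
  have hprod : Gm N P β v bl e = H * Cm := by
    ext a b
    rw [Matrix.mul_apply]
    unfold Gm
    simp only [Matrix.of_apply, hH, hCm]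
    split_ifs with he
    · have hb : bl b < n + 1 := by have := h.le b; omega
      rw [Finset.sum_eq_single (⟨bl b, hb⟩ : Fin (n + 1))]
      · simp
      · intro l _ hl
        have : ¬ (l : ℕ) = bl b := fun h => hl (Fin.ext h)
        rw [if_neg this, mul_zero]
      · intro h; exact absurd (Finset.mem_univ _) h
    · rw [hc]
      exact Finset.sum_congr rfl (fun l _ => mul_comm _ _)
  have hex := det_mul_expand H Cm
  rw [← hprod] at hex
  -- allowed assignments
  set S := Finset.univ.filter fun φ : Fin j → Fin (n + 1) =>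
    ∀ b, e b = 0 → ((φ b : Fin (n + 1)) : ℕ) = bl b with hS
  have hSne : S.Nonempty := by
    refine ⟨fun b => ⟨bl b, by have := h.le b; omega⟩, ?_⟩
    rw [hS, Finset.mem_filter]
    exact ⟨Finset.mem_univ _, fun b _ => rfl⟩
  obtain ⟨φ, hφS, hφ⟩ := Finset.exists_max_image S (fun φ => |dv v (fun b => (φ b : ℕ)) β|) hSne
  refine ⟨φ, (Finset.mem_filter.1 hφS).2, ?_⟩
  have hdv : ∀ ψ : Fin j → Fin (n + 1), Matrix.det (Matrix.of fun a b => H a (ψ b)) =
      dv v (fun b => (ψ b : ℕ)) β := by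
    intro ψ
    rw [dv_eq_det]
    rfl
  rw [hex]
  refine (Finset.abs_sum_le_sum_abs _ _).trans ?_
  calc ∑ ψ : Fin j → Fin (n + 1), |(∏ b, Cm (ψ b) b) * Matrix.det (Matrix.of fun a b => H a (ψ b))|
      ≤ ∑ _ψ : Fin j → Fin (n + 1), C0 ^ (n + 1) * |dv v (fun b => (φ b : ℕ)) β| := by
        apply Finset.sum_le_sum
        intro ψ _
        rw [hdv, abs_mul, Finset.abs_prod]
        by_cases hψ : ψ ∈ S
        · apply mul_le_mul _ (hφ ψ hψ) (abs_nonneg _) (by positivity)
          calc ∏ b, |Cm (ψ b) b| ≤ ∏ _b : Fin j, C0 := by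
                apply Finset.prod_le_prod (fun _ _ => abs_nonneg _)
                intro b _
                simp only [hCm, Matrix.of_apply]
                split_ifs
                · rw [abs_one]; exact hC01
                · rw [abs_zero]; linarith
                · exact hcb _ (h.le b) _ _
            _ = C0 ^ j := by simp
            _ ≤ C0 ^ (n + 1) := pow_le_pow_right₀ hC01 hj
        · have h0 : ∏ b, |Cm (ψ b) b| = 0 := by
            rw [hS, Finset.mem_filter] at hψ
            push Not at hψ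
            obtain ⟨b, hb1, hb2⟩ := hψ (Finset.mem_univ _)
            apply Finset.prod_eq_zero (Finset.mem_univ b)
            simp only [hCm, Matrix.of_apply]
            rw [if_pos hb1, if_neg hb2, abs_zero]
          rw [h0, zero_mul]
          positivity
    _ = ((n : ℝ) + 1) ^ j * (C0 ^ (n + 1) * |dv v (fun b => (φ b : ℕ)) β|) := by
        rw [Finset.sum_const, Finset.card_univ, Fintype.card_fun, Fintype.card_fin, Fintype.card_fin,
          nsmul_eq_mul]
        push_cast
        ring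
    _ ≤ ((n : ℝ) + 1) ^ (n + 1) * (C0 ^ (n + 1) * |dv v (fun b => (φ b : ℕ)) β|) := by
        apply mul_le_mul_of_nonneg_right _ (by positivity)
        exact pow_le_pow_right₀ (by linarith [(Nat.cast_nonneg n : (0 : ℝ) ≤ n)]) hj
    _ = _ := by ring

end Pool.Agent.W71
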