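import Mathlib
import Pool.Agent.W71.BlockD

/-! Real lower bounds near `β` through Taylor coefficients. -/

set_option autoImplicit false

open Polynomial Set

namespace Pool.Agent.W71

open Pool.Agent.Helper404 (toP castQ toP_natDegree IB rk SB term Nm term_le exists_term
  term_nonneg Nm_nonneg nrm)

variable {n N : ℕ}

/-- a coefficient is controlled by values on `[r, 2 r)` -/
lemma exists_coeff (n : ℕ) : ∃ C : ℝ, 0 < C ∧ ∀ (c : Fin (n + 1) → ℝ) (k : Fin (n + 1)) (r : ℝ),
    0 < r → ∃ x ∈ Ico r (r + r), |c k| * r ^ (k : ℕ) ≤ C * |∑ l : Fin (n + 1), c l * x ^ (l : ℕ)| := by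
  classical
  set y : Fin (n + 1) → ℝ := fun i => 1 + (i : ℕ) / ((n : ℝ) + 1) with hy
  have hn1 : (0 : ℝ) < (n : ℝ) + 1 := by positivity
  have hyinj : Function.Injective y := by
    intro a b hab
    simp only [hy, add_right_inj] at hab
    rw [div_left_inj' hn1.ne'] at hab
    exact Fin.ext (by exact_mod_cast hab)
  have hyI : ∀ i, y i ∈ Ico (1 : ℝ) 2 := by
    intro i
    have h1 : ((i : ℕ) : ℝ) < (n : ℝ) + 1 := by exact_mod_cast i.2
    have h2 : ((i : ℕ) : ℝ) / ((n : ℝ) + 1) < 1 := (div_lt_one hn1).2 h1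
    have h3 : 0 ≤ ((i : ℕ) : ℝ) / ((n : ℝ) + 1) := by positivity
    exact ⟨by simp only [hy]; linarith, by simp only [hy]; linarith⟩
  set V : Matrix (Fin (n + 1)) (Fin (n + 1)) ℝ := Matrix.vandermonde y with hV
  have hdet : IsUnit V.det := by
    rw [isUnit_iff_ne_zero]
    exact Matrix.det_vandermonde_ne_zero_iff.2 hyinj
  set C : ℝ := 1 + ∑ k, ∑ i, |V⁻¹ k i| with hC
  have hCpos : 0 < C := by
    have : 0 ≤ ∑ k, ∑ i, |V⁻¹ k i| :=
      Finset.sum_nonneg (fun _ _ => Finset.sum_nonneg (fun _ _ => abs_nonneg _))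
    linarith
  refine ⟨C, hCpos, ?_⟩
  intro c k r hr
  set f : Fin (n + 1) → ℝ := fun i => ∑ l : Fin (n + 1), c l * (r * y i) ^ (l : ℕ) with hf
  set c' : Fin (n + 1) → ℝ := fun l => c l * r ^ (l : ℕ) with hc'
  have hVc : V.mulVec c' = f := by
    ext i
    simp only [Matrix.mulVec, dotProduct, hV, Matrix.vandermonde_apply, hc', hf]
    refine Finset.sum_congr rfl (fun l _ => ?_)
    rw [mul_pow]; ring
  have hc'f : V⁻¹.mulVec f = c' := by
    rw [← hVc, Matrix.mulVec_mulVec, Matrix.nonsing_inv_mul _ hdet, Matrix.one_mulVec]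
  obtain ⟨i0, _, hi0⟩ := Finset.exists_max_image (Finset.univ : Finset (Fin (n + 1)))
    (fun i => |f i|) ⟨0, Finset.mem_univ _⟩
  refine ⟨r * y i0, ⟨?_, ?_⟩, ?_⟩
  · nlinarith [(hyI i0).1]
  · nlinarith [(hyI i0).2]
  · have h1 : |c k| * r ^ (k : ℕ) = |c' k| := by
      simp only [hc']
      rw [abs_mul, abs_pow, abs_of_pos hr]
    rw [h1, ← hc'f]
    change |∑ i, V⁻¹ k i * f i| ≤ C * |f i0|
    calc |∑ i, V⁻¹ k i * f i| ≤ ∑ i, |V⁻¹ k i| * |f i0| := by
          refine (Finset.abs_sum_le_sum_abs _ _).trans (Finset.sum_le_sum (fun i hi => ?_))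
          rw [abs_mul]
          exact mul_le_mul_of_nonneg_left (hi0 i hi) (abs_nonneg _)
      _ = (∑ i, |V⁻¹ k i|) * |f i0| := by rw [Finset.sum_mul]
      _ ≤ C * |f i0| := by
          apply mul_le_mul_of_nonneg_right _ (abs_nonneg _)
          have h2 : ∑ i, |V⁻¹ k i| ≤ ∑ k, ∑ i, |V⁻¹ k i| :=
            Finset.single_le_sum (f := fun k => ∑ i, |V⁻¹ k i|)
              (fun _ _ => Finset.sum_nonneg (fun _ _ => abs_nonneg _)) (Finset.mem_univ k)
          linarith

/-- the mixed determinant at two points is controlled by the norm -/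
lemma mixed_le (β : ℝ) (t : ℝ) (ht : 0 ≤ t) {j : ℕ} (hj : j ≤ n) (v : Fin (j + 1) → Fin (n + 1) → ℤ)
    (φ : Fin (j + 1) → Fin (n + 1)) (b0 : Fin (j + 1)) (z : ℝ) (hz : |β - z| ≤ 2) :
    |Matrix.det (Matrix.of fun a b : Fin (j + 1) =>
      if b = b0 then hd 0 (v a) z else hd (φ b : ℕ) (v a) β)| ≤
      (((n : ℝ) + 1) ^ (n + 1) * (2 ^ n * 2 ^ n) ^ (n + 1)) *
        (Nm (wt n t) v z * (Real.exp (-(n * t)) * Real.exp t ^ j)) := by
  classical
  set C0 : ℝ := 2 ^ n * 2 ^ n with hC0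
  have hC01 : 1 ≤ C0 := by
    have h1 : (1 : ℝ) ≤ 2 ^ n := one_le_pow₀ (by norm_num)
    nlinarith
  set Cm : Matrix (Fin (n + 1)) (Fin (j + 1)) ℝ := Matrix.of fun l b =>
    if b = b0 then (if l = 0 then 1 else 0) else
      ((((l : ℕ).choose (φ b : ℕ) : ℕ) : ℝ) * (β - z) ^ ((l : ℕ) - (φ b : ℕ))) with hCm
  set H : Matrix (Fin (j + 1)) (Fin (n + 1)) ℝ := Matrix.of fun a l => hd (l : ℕ) (v a) z with hH
  have hprod : (Matrix.of fun a b : Fin (j + 1) =>
      if b = b0 then hd 0 (v a) z else hd (φ b : ℕ) (v a) β) = H * Cm := by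
    ext a b
    rw [Matrix.mul_apply]
    simp only [Matrix.of_apply, hH, hCm]
    split_ifs with hb
    · simp
    · have := hd_shift (φ b : ℕ) (v a) z (β - z)
      rw [add_sub_cancel] at this
      rw [this]
  rw [hprod, det_mul_expand]
  have hdv : ∀ ψ : Fin (j + 1) → Fin (n + 1), Matrix.det (Matrix.of fun a b => H a (ψ b)) =
      dv v (fun b => (ψ b : ℕ)) z := by
    intro ψ
    rw [dv_eq_det]
    rfl
  have hN := Nm_nonneg (wt n t) (wt_pos t) v z
  refine (Finset.abs_sum_le_sum_abs _ _).trans ?_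
  calc ∑ ψ : Fin (j + 1) → Fin (n + 1), |(∏ b, Cm (ψ b) b) * Matrix.det (Matrix.of fun a b => H a (ψ b))|
      ≤ ∑ _ψ : Fin (j + 1) → Fin (n + 1), C0 ^ (n + 1) *
        (Nm (wt n t) v z * (Real.exp (-(n * t)) * Real.exp t ^ j)) := by
        apply Finset.sum_le_sum
        intro ψ _
        rw [hdv, abs_mul, Finset.abs_prod]
        by_cases hψ : ψ b0 = 0
        · apply mul_le_mul _ _ (abs_nonneg _) (by positivity)
          · calc ∏ b, |Cm (ψ b) b| ≤ ∏ _b : Fin (j + 1), C0 := by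
                  apply Finset.prod_le_prod (fun _ _ => abs_nonneg _)
                  intro b _
                  simp only [hCm, Matrix.of_apply]
                  split_ifs
                  · rw [abs_one]; exact hC01
                  · rw [abs_zero]; linarith
                  · rw [abs_mul, Nat.abs_cast, abs_pow]
                    apply mul_le_mul _ _ (by positivity) (by positivity)
                    · have h1 : (ψ b : ℕ).choose (φ b : ℕ) ≤ 2 ^ n :=
                        (Nat.choose_le_two_pow _ _).trans (Nat.pow_le_pow_right (by norm_num)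
                          (by have := (ψ b).2; omega))
                      exact_mod_cast h1
                    · calc |β - z| ^ ((ψ b : ℕ) - (φ b : ℕ)) ≤ 2 ^ ((ψ b : ℕ) - (φ b : ℕ)) :=
                            pow_le_pow_left₀ (abs_nonneg _) hz _
                        _ ≤ 2 ^ n := pow_le_pow_right₀ (by norm_num) (by have := (ψ b).2; omega)
              _ = C0 ^ (j + 1) := by simp
              _ ≤ C0 ^ (n + 1) := pow_le_pow_right₀ hC01 (by omega)
          · have h1 := term_le (wt n t) v z ψ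
            rw [term_eq, div_le_iff₀ (Finset.prod_pos (fun _ _ => wt_pos t _))] at h1
            refine h1.trans ?_
            exact mul_le_mul_of_nonneg_left (prod_wt_le' t ht ψ b0 hψ) hN
        · have h0 : ∏ b, |Cm (ψ b) b| = 0 := by
            apply Finset.prod_eq_zero (Finset.mem_univ b0)
            simp only [hCm, Matrix.of_apply, if_true]
            rw [if_neg hψ, abs_zero]
          rw [h0, zero_mul]
          positivity
    _ = ((n : ℝ) + 1) ^ (j + 1) * (C0 ^ (n + 1) *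
        (Nm (wt n t) v z * (Real.exp (-(n * t)) * Real.exp t ^ j))) := by
        rw [Finset.sum_const, Finset.card_univ, Fintype.card_fun, Fintype.card_fin, Fintype.card_fin,
          nsmul_eq_mul]
        push_cast
        ring
    _ ≤ ((n : ℝ) + 1) ^ (n + 1) * (C0 ^ (n + 1) *
        (Nm (wt n t) v z * (Real.exp (-(n * t)) * Real.exp t ^ j))) := by
        apply mul_le_mul_of_nonneg_right _ (by positivity)
        exact pow_le_pow_right₀ (by linarith [(Nat.cast_nonneg n : (0 : ℝ) ≤ n)]) (by omega)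
    _ = _ := by ring

/-- the mixed determinant is a polynomial in the real variable -/
lemma mixed_expand (β x : ℝ) {j : ℕ} (v : Fin (j + 1) → Fin (n + 1) → ℤ)
    (φ : Fin (j + 1) → Fin (n + 1)) (b0 : Fin (j + 1)) :
    Matrix.det (Matrix.of fun a b : Fin (j + 1) =>
      if b = b0 then hd 0 (v a) (β + x) else hd (φ b : ℕ) (v a) β) =
      ∑ l : Fin (n + 1), dv v (fun b => (Function.update φ b0 l b : ℕ)) β * x ^ (l : ℕ) := by
  classical
  have hminor : ∀ (f : Fin (j + 1) → ℝ) (a : Fin (j + 1)),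
      (Matrix.of fun a b : Fin (j + 1) => if b = b0 then f a else hd (φ b : ℕ) (v a) β).submatrix
        a.succAbove b0.succAbove =
      (Matrix.of fun a' b' : Fin j => hd (φ (b0.succAbove b') : ℕ) (v (a.succAbove a')) β) := by
    intro f a
    ext a' b'
    simp [Fin.succAbove_ne]
  have hdet : ∀ f : Fin (j + 1) → ℝ, Matrix.det (Matrix.of fun a b : Fin (j + 1) =>
      if b = b0 then f a else hd (φ b : ℕ) (v a) β) = ∑ a : Fin (j + 1), (-1) ^ ((a : ℕ) + (b0 : ℕ)) * f a *
        Matrix.det (Matrix.of fun a' b' : Fin j => hd (φ (b0.succAbove b') : ℕ) (v (a.succAbove a')) β) := by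
    intro f
    rw [Matrix.det_succ_column _ b0]
    refine Finset.sum_congr rfl (fun a _ => ?_)
    rw [hminor f a]
    simp
  have hup : ∀ l : Fin (n + 1), dv v (fun b => (Function.update φ b0 l b : ℕ)) β =
      Matrix.det (Matrix.of fun a b : Fin (j + 1) =>
        if b = b0 then hd (l : ℕ) (v a) β else hd (φ b : ℕ) (v a) β) := by
    intro l
    rw [dv_eq_det]
    congr 1
    ext a b
    simp only [Matrix.of_apply, Function.update_apply]
    split_ifs <;> rfl
  have hv : ∀ a, hd 0 (v a) (β + x) = ∑ l : Fin (n + 1), hd (l : ℕ) (v a) β * x ^ (l : ℕ) := by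
    intro a
    rw [hd_shift]
    refine Finset.sum_congr rfl (fun l _ => ?_)
    simp
  rw [hdet (fun a => hd 0 (v a) (β + x))]
  simp_rw [hup, hdet, hv]
  simp_rw [Finset.mul_sum, Finset.sum_mul]
  rw [Finset.sum_comm]
  refine Finset.sum_congr rfl (fun l _ => ?_)
  refine Finset.sum_congr rfl (fun a _ => ?_)
  ring

/-- lower bound through a coefficient -/
lemma real_coeff (n : ℕ) : ∃ C : ℝ, 0 < C ∧ ∀ (β t : ℝ), 0 ≤ t → ∀ (j : ℕ), j ≤ n →
    ∀ (v : Fin (j + 1) → Fin (n + 1) → ℤ) (φ : Fin (j + 1) → Fin (n + 1)) (b0 : Fin (j + 1)) (r : ℝ),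
    0 < r → r ≤ 1 → ∃ z ∈ Ico (β + r) (β + r + r),
      |dv v (fun b => (φ b : ℕ)) β| * r ^ ((φ b0 : Fin (n + 1)) : ℕ) ≤
        C * (Nm (wt n t) v z * (Real.exp (-(n * t)) * Real.exp t ^ j)) := by
  classical
  obtain ⟨C, hC, h⟩ := exists_coeff n
  refine ⟨C * (((n : ℝ) + 1) ^ (n + 1) * (2 ^ n * 2 ^ n) ^ (n + 1)), by positivity, ?_⟩
  intro β t ht j hj v φ b0 r hr hr1
  obtain ⟨x, hx, h1⟩ := h (fun l => dv v (fun b => (Function.update φ b0 l b : ℕ)) β) (φ b0) r hr
  refine ⟨β + x, ⟨by linarith [hx.1], by linarith [hx.2]⟩, ?_⟩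
  rw [← mixed_expand] at h1
  simp only [Function.update_eq_self] at h1
  refine h1.trans ?_
  rw [mul_assoc]
  apply mul_le_mul_of_nonneg_left _ hC.le
  apply mixed_le β t ht hj v φ b0 (β + x)
  rw [sub_add_cancel_left, abs_neg, abs_of_nonneg (by linarith [hx.1])]
  linarith [hx.2]

end Pool.Agent.W71
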