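import Mathlib
import Pool.Agent.W71.RealL

/-! Elementary inequalities for the general window. -/

set_option autoImplicit false

namespace Pool.Agent.W71

/-- combination of the real bounds -/
lemma comb_bound {im : Finset ℕ} (d : ℝ) (J lam η a b : ℕ → ℝ) (C X : ℝ) (hC : 0 ≤ C)
    (hd : 0 < d) (hJ1 : ∀ k ∈ im, 1 ≤ J k) (hJd : ∀ k ∈ im, J k ≤ d)
    (hl0 : ∀ k ∈ im, 0 ≤ lam k) (hld : ∀ k ∈ im, lam k * d ≤ J k) (hls : ∑ k ∈ im, lam k ≤ 1)
    (ha : ∀ k ∈ im, -C ≤ a k) (hb : ∀ k ∈ im, -C ≤ J k * b k + (d - J k) * a k)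
    (hX : ∑ k ∈ im, a k - C ≤ X) (hXk : ∀ k ∈ im, η k + b k - a k + ∑ k ∈ im, a k - C ≤ X) :
    ∑ k ∈ im, lam k * η k - C * (1 + 2 * im.card) ≤ X := by
  set A := ∑ k ∈ im, a k with hA
  have h1 : (1 - ∑ k ∈ im, lam k) * (A - C) ≤ (1 - ∑ k ∈ im, lam k) * X :=
    mul_le_mul_of_nonneg_left hX (by linarith)
  have h2 : ∑ k ∈ im, lam k * (η k + b k - a k + A - C) ≤ ∑ k ∈ im, lam k * X :=
    Finset.sum_le_sum (fun k hk => mul_le_mul_of_nonneg_left (hXk k hk) (hl0 k hk))
  have h3 : ∑ k ∈ im, lam k * (η k + b k - a k + A - C) =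
      ∑ k ∈ im, lam k * η k + ∑ k ∈ im, lam k * (b k - a k) + (∑ k ∈ im, lam k) * (A - C) := by
    rw [Finset.sum_mul, ← Finset.sum_add_distrib, ← Finset.sum_add_distrib]
    exact Finset.sum_congr rfl (fun k _ => by ring)
  have h4 : ∑ k ∈ im, lam k * X = (∑ k ∈ im, lam k) * X := by rw [Finset.sum_mul]
  have h5 : -(2 * C * im.card) ≤ A + ∑ k ∈ im, lam k * (b k - a k) := by
    rw [hA, ← Finset.sum_add_distrib]
    have h6 : ∀ k ∈ im, -(2 * C) ≤ a k + lam k * (b k - a k) := by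
      intro k hk
      have hJ := hJ1 k hk
      have hJ' := hJd k hk
      have hl := hl0 k hk
      have hld' := hld k hk
      have ha' := ha k hk
      have hb' := hb k hk
      have hl1 : lam k ≤ 1 := by
        by_contra hcon
        push Not at hcon
        nlinarith
      have h7 : J k * (-(2 * C)) ≤ J k * (a k + lam k * (b k - a k)) := by
        have h8 : lam k * (-C) ≤ lam k * (J k * b k + (d - J k) * a k) :=
          mul_le_mul_of_nonneg_left hb' hl
        have h9 : (J k - lam k * d) * (-C) ≤ (J k - lam k * d) * a k :=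
          mul_le_mul_of_nonneg_left ha' (by linarith)
        have h10 : lam k * C ≤ J k * C := mul_le_mul_of_nonneg_right (by linarith) hC
        have h11 : 0 ≤ lam k * d * C := by positivity
        nlinarith
      exact le_of_mul_le_mul_left h7 (by linarith)
    calc -(2 * C * im.card) = ∑ _k ∈ im, -(2 * C) := by
          rw [Finset.sum_const, nsmul_eq_mul]; ring
      _ ≤ _ := Finset.sum_le_sum h6
  nlinarith

/-- partial sums capped -/
noncomputable def Acap (d : ℝ) (S : ℕ → ℝ) (k : ℕ) : ℝ := min 1 (S k / d)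

/-- weights -/
noncomputable def lamw (d : ℝ) (S : ℕ → ℝ) : ℕ → ℝ
  | 0 => Acap d S 0
  | (k + 1) => Acap d S (k + 1) - Acap d S k

lemma bracket {d θ j s J V δ ρ : ℝ} (hd : 0 < d) (hs : 0 ≤ s) (hJs : J ≤ s)
    (hJd : J ≤ d) (hV : 0 ≤ V) (hj : s + V = j) (hθj : j ≤ θ) (hθ : d + V ≤ θ) (hδ : 0 ≤ δ)
    (hδρ : δ ≤ ρ) : 0 ≤ (θ * min 1 (s / d) - j) * δ + (ρ / d) * ((d - J) * V) := by
  have h1 : (δ / d) * ((d - J) * V) ≤ (ρ / d) * ((d - J) * V) := by
    apply mul_le_mul_of_nonneg_right _ (mul_nonneg (by linarith) hV)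
    exact div_le_div_of_nonneg_right hδρ hd.le
  have h2 : 0 ≤ (θ * min 1 (s / d) - j) * δ + (δ / d) * ((d - J) * V) := by
    have h3 : (θ * min 1 (s / d) - j) * δ + (δ / d) * ((d - J) * V) =
        (δ / d) * (d * (θ * min 1 (s / d) - j) + (d - J) * V) := by field_simp
    rw [h3]
    apply mul_nonneg (by positivity)
    rcases le_total 1 (s / d) with h | h
    · rw [min_eq_left h]
      have h4 : 0 ≤ (d - J) * V := mul_nonneg (by linarith) hV
      have h5 : 0 ≤ d * (θ * 1 - j) := mul_nonneg hd.le (by linarith)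
      linarith
    · rw [min_eq_right h]
      have h4 : d * (θ * (s / d) - j) + (d - J) * V = s * (θ - d) - J * V := by
        rw [← hj]; field_simp; ring
      rw [h4]
      have h5 : J * V ≤ s * V := mul_le_mul_of_nonneg_right hJs hV
      have h6 : 0 ≤ s * (θ - d - V) := mul_nonneg hs (by linarith)
      nlinarith
  linarith

/-- the main combinatorial inequality -/
lemma trop_ineq {d θ j σ ρ : ℝ} (J V Sp : ℕ → ℝ) (hd : 0 < d) (hρ : 0 ≤ ρ) (hσ : 0 ≤ σ)
    (hJ0 : ∀ k, 0 ≤ J k) (hJd : ∀ k, J k ≤ d) (hV : ∀ k, 0 ≤ V k)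
    (hS0 : Sp 0 = J 0) (hS : ∀ k, Sp (k + 1) = Sp k + J (k + 1)) (hSV : ∀ k, Sp k + V k = j)
    (hθj : j ≤ θ) (hθ : ∀ k, d + V k ≤ θ) (m : ℕ) :
    (θ * Acap d Sp m - j) * max 0 (σ - (m + 1 : ℕ) * ρ) ≤
      θ * ∑ k ∈ Finset.range (m + 1), lamw d Sp k * max 0 (σ - (k : ℕ) * ρ) +
        (ρ / d) * ∑ k ∈ Finset.range (m + 1), (d - J k) * V k - j * σ := by
  have hSn : ∀ k, 0 ≤ Sp k ∧ J k ≤ Sp k := by
    intro k
    induction k with
    | zero => rw [hS0]; exact ⟨hJ0 0, le_rfl⟩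
    | succ k ih => rw [hS]; exact ⟨by linarith [ih.1, hJ0 (k + 1)], by linarith [ih.1]⟩
  have hδ : ∀ k : ℕ, 0 ≤ max 0 (σ - (k : ℝ) * ρ) - max 0 (σ - ((k + 1 : ℕ) : ℝ) * ρ) ∧
      max 0 (σ - (k : ℝ) * ρ) - max 0 (σ - ((k + 1 : ℕ) : ℝ) * ρ) ≤ ρ := by
    intro k
    push_cast
    have h1 : σ - ((k : ℝ) + 1) * ρ = (σ - k * ρ) - ρ := by ring
    rw [h1]
    constructor
    · have : max 0 (σ - k * ρ - ρ) ≤ max 0 (σ - k * ρ) := max_le_max le_rfl (by linarith)
      linarith
    · have : max 0 (σ - (k : ℝ) * ρ) ≤ max 0 (σ - k * ρ - ρ) + ρ := by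
        apply max_le
        · have := le_max_left 0 (σ - (k : ℝ) * ρ - ρ); linarith
        · have := le_max_right 0 (σ - (k : ℝ) * ρ - ρ); linarith
      linarith
  have hbr : ∀ k : ℕ, 0 ≤ (θ * Acap d Sp k - j) * (max 0 (σ - (k : ℝ) * ρ) -
      max 0 (σ - ((k + 1 : ℕ) : ℝ) * ρ)) + (ρ / d) * ((d - J k) * V k) := fun k =>
    bracket hd (hSn k).1 (hSn k).2 (hJd k) (hV k) (hSV k) hθj (hθ k) (hδ k).1 (hδ k).2
  induction m with
  | zero =>
    have h1 := hbr 0
    simp only [zero_add, Finset.range_one, Finset.sum_singleton, lamw]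
    have h2 : max 0 (σ - ((0 : ℕ) : ℝ) * ρ) = σ := by
      simp [hσ]
    rw [h2] at h1 ⊢
    simp only [zero_add] at h1
    nlinarith
  | succ m ih =>
    rw [Finset.sum_range_succ (fun k => lamw d Sp k * max 0 (σ - (k : ℕ) * ρ)) (m + 1),
      Finset.sum_range_succ (fun k => (d - J k) * V k) (m + 1)]
    have h1 := hbr (m + 1)
    have hlam : lamw d Sp (m + 1) = Acap d Sp (m + 1) - Acap d Sp m := rfl
    rw [hlam]
    have e1 : θ * (∑ k ∈ Finset.range (m + 1), lamw d Sp k * max 0 (σ - (k : ℕ) * ρ) +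
        (Acap d Sp (m + 1) - Acap d Sp m) * max 0 (σ - ((m + 1 : ℕ) : ℝ) * ρ)) +
        (ρ / d) * (∑ k ∈ Finset.range (m + 1), (d - J k) * V k + (d - J (m + 1)) * V (m + 1)) - j * σ
        = (θ * ∑ k ∈ Finset.range (m + 1), lamw d Sp k * max 0 (σ - (k : ℕ) * ρ) +
        (ρ / d) * ∑ k ∈ Finset.range (m + 1), (d - J k) * V k - j * σ) +
        θ * (Acap d Sp (m + 1) - Acap d Sp m) * max 0 (σ - ((m + 1 : ℕ) : ℝ) * ρ) +
        (ρ / d) * ((d - J (m + 1)) * V (m + 1)) := by ring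
    rw [e1]
    nlinarith

/-! ### counting -/

/-- number of indices above `k` -/
def na {j : ℕ} (bl : Fin j → ℕ) (k : ℕ) : ℕ := (Finset.univ.filter fun a => k < bl a).card

lemma sum_nb {j : ℕ} (bl : Fin j → ℕ) (k : ℕ) :
    ∑ i ∈ Finset.range (k + 1), nb bl i + na bl k = j := by
  classical
  have h1 : ∑ i ∈ Finset.range (k + 1), nb bl i =
      (Finset.univ.filter fun a => bl a ≤ k).card := by
    have h2 : ∀ x ∈ (Finset.univ.filter fun a => bl a ≤ k), bl x ∈ Finset.range (k + 1) := by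
      intro x hx
      rw [Finset.mem_filter] at hx
      rw [Finset.mem_range]; omega
    rw [Finset.card_eq_sum_card_fiberwise h2]
    refine Finset.sum_congr rfl (fun i hi => ?_)
    unfold nb
    congr 1
    ext x
    rw [Finset.mem_filter, Finset.mem_filter, Finset.mem_filter]
    rw [Finset.mem_range] at hi
    constructor
    · rintro ⟨h, h'⟩; exact ⟨⟨h, by omega⟩, h'⟩
    · rintro ⟨⟨h, _⟩, h'⟩; exact ⟨h, h'⟩
  have h3 : (Finset.univ.filter fun a : Fin j => bl a ≤ k).card +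
      (Finset.univ.filter fun a : Fin j => ¬ bl a ≤ k).card = j := by
    rw [Finset.card_filter_add_card_filter_not, Finset.card_univ, Fintype.card_fin]
  rw [h1]
  unfold na
  have h4 : (Finset.univ.filter fun a : Fin j => k < bl a) =
      Finset.univ.filter fun a : Fin j => ¬ bl a ≤ k := by
    ext x; simp
  rw [h4, h3]

lemma sum_bl {j n : ℕ} (bl : Fin j → ℕ) (hle : ∀ a, bl a ≤ n) :
    ∑ a, bl a = ∑ k ∈ Finset.range (n + 1), na bl k := by
  classical
  unfold na
  simp_rw [Finset.card_filter]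
  rw [Finset.sum_comm]
  refine Finset.sum_congr rfl (fun a _ => ?_)
  rw [← Finset.card_filter]
  have : (Finset.range (n + 1)).filter (fun k => k < bl a) = Finset.range (bl a) := by
    ext x
    rw [Finset.mem_filter, Finset.mem_range, Finset.mem_range]
    have := hle a
    omega
  rw [this, Finset.card_range]

lemma sum_less {j n : ℕ} (bl : Fin j → ℕ) (hle : ∀ a, bl a ≤ n) :
    ∑ a, (Finset.univ.filter fun a' => bl a' < bl a).card =
      ∑ k ∈ Finset.range (n + 1), nb bl k * na bl k := by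
  classical
  have h1 : ∀ k, nb bl k * na bl k = ∑ a, ∑ a', if bl a' = k ∧ k < bl a then 1 else 0 := by
    intro k
    unfold nb na
    rw [Finset.card_filter, Finset.card_filter, Finset.sum_mul_sum, Finset.sum_comm]
    refine Finset.sum_congr rfl (fun a _ => Finset.sum_congr rfl (fun a' _ => ?_))
    split_ifs <;> simp_all
  simp_rw [h1]
  rw [Finset.sum_comm]
  refine Finset.sum_congr rfl (fun a _ => ?_)
  rw [Finset.sum_comm, Finset.card_filter]
  refine Finset.sum_congr rfl (fun a' _ => ?_)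
  by_cases h : bl a' < bl a
  · rw [if_pos h, Finset.sum_eq_single (bl a')]
    · rw [if_pos ⟨rfl, h⟩]
    · intro k _ hk
      rw [if_neg]
      rintro ⟨h', _⟩
      exact hk h'.symm
    · intro hn
      exact absurd (Finset.mem_range.2 (by have := hle a'; omega)) hn
  · rw [if_neg h]
    symm
    apply Finset.sum_eq_zero
    intro k _
    rw [if_neg]
    rintro ⟨rfl, h'⟩
    exact h h'

end Pool.Agent.W71
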