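import Mathlib
import Pool.Agent.W71.Trop

/-! Richness of the window around an algebraic integer of arbitrary degree. -/

set_option autoImplicit false

open Polynomial Set

namespace Pool.Agent.W71

open Pool.Agent.Helper404 (toP castQ toP_natDegree IB rk SB term Nm term_le exists_term
  term_nonneg Nm_nonneg nrm)

variable {n N : ℕ}

section lam
variable {d : ℝ} {J Sp : ℕ → ℝ}

lemma lamw_nonneg (hd : 0 < d) (hJ : ∀ k, 0 ≤ J k) (hS0 : Sp 0 = J 0)
    (hS : ∀ k, Sp (k + 1) = Sp k + J (k + 1)) (k : ℕ) : 0 ≤ lamw d Sp k := by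
  cases k with
  | zero =>
    change 0 ≤ min 1 (Sp 0 / d)
    apply le_min zero_le_one
    rw [hS0]; exact div_nonneg (hJ 0) hd.le
  | succ k =>
    change 0 ≤ min 1 (Sp (k + 1) / d) - min 1 (Sp k / d)
    have h1 : Sp k / d ≤ Sp (k + 1) / d := by
      apply div_le_div_of_nonneg_right _ hd.le
      rw [hS]; linarith [hJ (k + 1)]
    have := min_le_min (le_refl (1 : ℝ)) h1
    linarith

lemma lamw_le (hd : 0 < d) (hJ : ∀ k, 0 ≤ J k) (hS0 : Sp 0 = J 0)
    (hS : ∀ k, Sp (k + 1) = Sp k + J (k + 1)) (k : ℕ) : lamw d Sp k * d ≤ J k := by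
  rw [← le_div_iff₀ hd]
  cases k with
  | zero =>
    change min 1 (Sp 0 / d) ≤ _
    rw [← hS0]; exact min_le_right _ _
  | succ k =>
    change min 1 (Sp (k + 1) / d) - min 1 (Sp k / d) ≤ _
    have h0 : 0 ≤ J (k + 1) / d := div_nonneg (hJ _) hd.le
    have h1 : Sp (k + 1) / d = Sp k / d + J (k + 1) / d := by rw [hS, add_div]
    rw [h1]
    rcases le_total 1 (Sp k / d) with h | h
    · rw [min_eq_left h]
      have := min_le_left 1 (Sp k / d + J (k + 1) / d)
      linarith
    · rw [min_eq_right h]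
      have := min_le_right 1 (Sp k / d + J (k + 1) / d)
      linarith

lemma lamw_sum (m : ℕ) : ∑ k ∈ Finset.range (m + 1), lamw d Sp k = Acap d Sp m := by
  induction m with
  | zero => simp [lamw]
  | succ m ih =>
    rw [Finset.sum_range_succ, ih]
    change Acap d Sp m + (Acap d Sp (m + 1) - Acap d Sp m) = _
    ring

end lam

section
variable {ℓ : ℕ} [hp : Fact ℓ.Prime]

/-- the real lower bound -/
lemma real_lower {β : ℝ} {p : Fin (N + 1 + 1) → ℤ} (hβ : BetaData (N + 1) β p) (hn : 1 ≤ n) :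
    ∃ C : ℝ, 0 ≤ C ∧ ∀ (V : Submodule ℚ (Fin (n + 1) → ℚ)) (j : ℕ)
      (v : Fin j → Fin (n + 1) → ℤ) (bl : Fin j → ℕ), Adapt n N (toP p) V j v bl → 1 ≤ j →
      ∀ t : ℝ, 0 ≤ t → ∀ r : ℝ, 0 < r → r ≤ 1 → ∃ z ∈ Ico (β + r) (β + r + r),
      Real.exp (∑ k ∈ Finset.range (n + 1), lamw ((N : ℝ) + 1)
        (fun k => ∑ i ∈ Finset.range (k + 1), (nb bl i : ℝ)) k *
          max 0 ((n + 1) * t - (k : ℕ) * (-Real.log r)) - C - j * t) ≤ Nm (wt n t) v z := by
  classical
  have hpm : (toP p).Monic ∧ (toP p).natDegree = N + 1 := by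
    have hco : (toP p).coeff (N + 1) = 1 := by
      have := toP_coeff p (Fin.last (N + 1))
      rw [Fin.val_last, hβ.monic] at this
      exact this
    have hdeg : (toP p).natDegree = N + 1 := by
      apply le_antisymm (toP_natDegree p)
      apply le_natDegree_of_ne_zero
      rw [hco]; exact one_ne_zero
    exact ⟨by rw [Monic, leadingCoeff, hdeg, hco], hdeg⟩
  obtain ⟨hP, hdeg⟩ := hpm
  obtain ⟨c, hc, hl⟩ := hβ.liouN
  obtain ⟨Cb, hCb0, hCb⟩ := adapt_block (n := n) hc hl
  obtain ⟨κ, hκ, hGl⟩ := Gm_lower (n := n) hβ.root hP hdeg (hβ.deriv_ne (by omega))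
  obtain ⟨K, hK, hGu⟩ := Gm_upper (n := n) (N := N) (toP p) β
  obtain ⟨Cr, hCr, hreal⟩ := real_coeff n
  set D := CD ((n + 1) * n) with hD
  have hDpos : 0 < D := CD_pos _
  -- total constants
  set Q : ℝ := 1 + K * D / κ + K * Cr / κ with hQ
  have hQ1 : 1 ≤ Q := by
    have h1 : 0 ≤ K * D / κ := by positivity
    have h2 : 0 ≤ K * Cr / κ := by positivity
    linarith
  have hQa : K * D / κ ≤ Q := by
    have h2 : 0 ≤ K * Cr / κ := by positivity
    linarith
  have hQb : K * Cr / κ ≤ Q := by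
    have h2 : 0 ≤ K * D / κ := by positivity
    linarith
  have hlogQ : 0 ≤ Real.log Q := Real.log_nonneg hQ1
  set C1 : ℝ := Cb + Real.log Q with hC1
  have hC10 : 0 ≤ C1 := by linarith
  refine ⟨C1 * (1 + 2 * (n + 1)) + 1, by positivity, ?_⟩
  intro V j v bl h hj1 t ht r hr hr1
  obtain ⟨j', rfl⟩ : ∃ j', j = j' + 1 := ⟨j - 1, by omega⟩
  have hjn : j' ≤ n := by have := h.zb.1.le; omega
  set Sp : ℕ → ℝ := fun k => ∑ i ∈ Finset.range (k + 1), (nb bl i : ℝ) with hSp
  set lam := lamw ((N : ℝ) + 1) Sp with hlam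
  set ρ : ℝ := -Real.log r with hρ
  set η : ℕ → ℝ := fun k => max 0 ((n + 1) * t - (k : ℕ) * ρ) with hη
  set Sl := ∑ k ∈ Finset.range (n + 1), lam k * η k with hSl
  by_contra hcon
  push Not at hcon
  set Y : ℝ := Sl - (C1 * (1 + 2 * (n + 1)) + 1) with hY
  have hcon' : ∀ z ∈ Ico (β + r) (β + r + r), Nm (wt n t) v z * Real.exp (((j' + 1 : ℕ) : ℝ) * t) <
      Real.exp Y := by
    intro z hz
    have h1 := hcon z hz
    have h2 : Real.exp Y = Real.exp (Y - ((j' + 1 : ℕ) : ℝ) * t) *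
        Real.exp (((j' + 1 : ℕ) : ℝ) * t) := by rw [← Real.exp_add]; congr 1; ring
    rw [h2]
    exact mul_lt_mul_of_pos_right h1 (Real.exp_pos _)
  -- block data
  have hdata : ∀ i : ℕ, ∃ (a b : ℝ) (e e' : {x // bl x = i} → Fin (N + 1)), (∃ x, bl x = i) →
      (|Db N (toP p) β v bl i e| = Real.exp a ∧ |Db N (toP p) β v bl i e'| = Real.exp b ∧
        (∃ x, e' x = 0) ∧ -Cb ≤ a ∧ -Cb ≤ (nb bl i : ℝ) * b + ((N : ℝ) + 1 - nb bl i) * a) := by
    intro i
    by_cases hi : ∃ x, bl x = i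
    · obtain ⟨a, b, e, e', h1⟩ := hCb (toP p) V (j' + 1) v bl h i hi
      exact ⟨a, b, e, e', fun _ => h1⟩
    · exact ⟨0, 0, fun _ => 0, fun _ => 0, fun h => absurd h hi⟩
  choose a b e e' hab using hdata
  set im := Finset.univ.image bl with him
  have him' : ∀ i ∈ im, ∃ x, bl x = i := by
    intro i hi
    rw [him, Finset.mem_image] at hi
    obtain ⟨x, _, hx⟩ := hi
    exact ⟨x, hx⟩
  have himn : ∀ i ∈ im, i < n + 1 := by
    intro i hi
    obtain ⟨x, rfl⟩ := him' i hi
    have := h.le x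
    omega
  have hcardim : im.card ≤ n + 1 := by
    have : im ⊆ Finset.range (n + 1) := fun i hi => Finset.mem_range.2 (himn i hi)
    simpa using Finset.card_le_card this
  set A := ∑ k ∈ im, a k with hA
  -- A-type
  have hXA : A - C1 ≤ Y := by
    set eA : Fin (j' + 1) → Fin (N + 1) := fun x => e (bl x) ⟨x, rfl⟩ with heA
    have h1 := hGl V (j' + 1) v bl h eA
    obtain ⟨φ, _, h2⟩ := hGu V (j' + 1) v bl h eA
    have h3 : ∏ i ∈ im, |Db N (toP p) β v bl i (fun x => eA x)| = Real.exp A := by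
      rw [hA, Real.exp_sum]
      refine Finset.prod_congr rfl (fun i hi => ?_)
      rw [← (hab i (him' i hi)).1]
      congr 2
      funext x
      obtain ⟨x, rfl⟩ := x
      rfl
    rw [h3] at h1
    obtain ⟨z, hz, h4⟩ := Nm_near (wt n t) (wt_pos t) v (by omega) φ β r hr
    have hpr : 0 < ∏ b, wt n t (φ b) := Finset.prod_pos (fun _ _ => wt_pos t _)
    have h5 : |dv v (fun b => (φ b : ℕ)) β| ≤ D * (Nm (wt n t) v z *
        Real.exp (((j' + 1 : ℕ) : ℝ) * t)) := by
      rw [div_le_iff₀ hpr] at h4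
      refine h4.trans ?_
      rw [mul_assoc]
      apply mul_le_mul_of_nonneg_left _ hDpos.le
      apply mul_le_mul_of_nonneg_left _ (Nm_nonneg _ (wt_pos t) _ _)
      rw [Real.exp_nat_mul]
      exact prod_wt_le t ht φ
    have h6 : Real.exp A ≤ Q * Real.exp Y := by
      have h7 : κ * Real.exp A ≤ K * (D * Real.exp Y) := by
        refine h1.trans (h2.trans ?_)
        apply mul_le_mul_of_nonneg_left _ hK.le
        exact h5.trans (mul_le_mul_of_nonneg_left (hcon' z hz).le hDpos.le)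
      calc Real.exp A ≤ (K * (D * Real.exp Y)) / κ := by
            rw [le_div_iff₀ hκ]; linarith
        _ = (K * D / κ) * Real.exp Y := by ring
        _ ≤ _ := mul_le_mul_of_nonneg_right hQa (Real.exp_pos _).le
    have h8 := Real.log_le_log (Real.exp_pos _) h6
    rw [Real.log_exp, Real.log_mul (by linarith) (Real.exp_pos _).ne', Real.log_exp] at h8
    rw [hC1]; linarith
  -- B-type
  have hXB : ∀ k ∈ im, η k + b k - a k + A - C1 ≤ Y := by
    intro k hk
    obtain ⟨hk1, hk2, ⟨x0, hx0⟩, hk4, hk5⟩ := hab k (him' k hk)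
    set eB : Fin (j' + 1) → Fin (N + 1) := fun x =>
      if bl x = k then e' (bl x) ⟨x, rfl⟩ else e (bl x) ⟨x, rfl⟩ with heB
    have h1 := hGl V (j' + 1) v bl h eB
    obtain ⟨φ, hφ, h2⟩ := hGu V (j' + 1) v bl h eB
    have h3 : ∏ i ∈ im, |Db N (toP p) β v bl i (fun x => eB x)| = Real.exp (A - a k + b k) := by
      rw [← Finset.mul_prod_erase _ _ hk]
      have e1 : Db N (toP p) β v bl k (fun x => eB x) = Db N (toP p) β v bl k (e' k) := by
        congr 1
        funext x
        obtain ⟨x, rfl⟩ := x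
        simp [heB]
      have e2 : ∏ i ∈ im.erase k, |Db N (toP p) β v bl i (fun x => eB x)| =
          Real.exp (∑ i ∈ im.erase k, a i) := by
        rw [Real.exp_sum]
        refine Finset.prod_congr rfl (fun i hi => ?_)
        have hik : i ≠ k := Finset.ne_of_mem_erase hi
        rw [← (hab i (him' i (Finset.mem_of_mem_erase hi))).1]
        congr 2
        funext x
        obtain ⟨x, rfl⟩ := x
        simp [heB, hik]
      rw [e1, hk2, e2, ← Real.exp_add]
      congr 1
      rw [hA, ← Finset.add_sum_erase _ _ hk]; ring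
    rw [h3] at h1
    have hx0k : bl (x0 : Fin (j' + 1)) = k := x0.2
    have hφ0 : ((φ x0 : Fin (n + 1)) : ℕ) = k := by
      rw [hφ x0 _, hx0k]
      obtain ⟨x0, rfl⟩ := x0
      simp only [heB, if_true]
      exact hx0
    -- first bound
    have hB1 : A - a k + b k - C1 ≤ Y := by
      obtain ⟨z, hz, h4⟩ := Nm_near (wt n t) (wt_pos t) v (by omega) φ β r hr
      have hpr : 0 < ∏ b, wt n t (φ b) := Finset.prod_pos (fun _ _ => wt_pos t _)
      have h5 : |dv v (fun b => (φ b : ℕ)) β| ≤ D * (Nm (wt n t) v z *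
          Real.exp (((j' + 1 : ℕ) : ℝ) * t)) := by
        rw [div_le_iff₀ hpr] at h4
        refine h4.trans ?_
        rw [mul_assoc]
        apply mul_le_mul_of_nonneg_left _ hDpos.le
        apply mul_le_mul_of_nonneg_left _ (Nm_nonneg _ (wt_pos t) _ _)
        rw [Real.exp_nat_mul]
        exact prod_wt_le t ht φ
      have h6 : Real.exp (A - a k + b k) ≤ Q * Real.exp Y := by
        have h7 : κ * Real.exp (A - a k + b k) ≤ K * (D * Real.exp Y) := by
          refine h1.trans (h2.trans ?_)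
          apply mul_le_mul_of_nonneg_left _ hK.le
          exact h5.trans (mul_le_mul_of_nonneg_left (hcon' z hz).le hDpos.le)
        calc Real.exp (A - a k + b k) ≤ (K * (D * Real.exp Y)) / κ := by
              rw [le_div_iff₀ hκ]; linarith
          _ = (K * D / κ) * Real.exp Y := by ring
          _ ≤ _ := mul_le_mul_of_nonneg_right hQa (Real.exp_pos _).le
      have h8 := Real.log_le_log (Real.exp_pos _) h6
      rw [Real.log_exp, Real.log_mul (by linarith) (Real.exp_pos _).ne', Real.log_exp] at h8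
      rw [hC1]; linarith
    -- second bound
    have hB2 : ((n + 1) * t - (k : ℕ) * ρ) + (A - a k + b k) - C1 ≤ Y := by
      obtain ⟨z, hz, h4⟩ := hreal β t ht j' hjn v φ x0 r hr hr1
      rw [hφ0] at h4
      have hrk : r ^ k = Real.exp (-(k * ρ)) := by
        rw [hρ, mul_neg, neg_neg, mul_comm, Real.exp_mul, Real.exp_log hr, Real.rpow_natCast]
      have hexp : Real.exp (-(n * t)) * Real.exp t ^ j' =
          Real.exp (((j' + 1 : ℕ) : ℝ) * t) * Real.exp (-((n + 1) * t)) := by
        rw [← Real.exp_nat_mul, ← Real.exp_add, ← Real.exp_add]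
        congr 1
        push_cast; ring
      rw [hrk, hexp] at h4
      have h5 : |dv v (fun b => (φ b : ℕ)) β| ≤
          Cr * Real.exp Y * Real.exp (-((n + 1) * t - k * ρ)) := by
        have h6 : |dv v (fun b => (φ b : ℕ)) β| * Real.exp (-(k * ρ)) ≤
            Cr * Real.exp Y * Real.exp (-((n + 1) * t)) := by
          refine h4.trans ?_
          rw [mul_assoc Cr]
          apply mul_le_mul_of_nonneg_left _ hCr.le
          rw [← mul_assoc]
          exact mul_le_mul_of_nonneg_right (hcon' z hz).le (Real.exp_pos _).le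
        have h7 : Real.exp (-((n + 1) * t - k * ρ)) =
            Real.exp (-((n + 1) * t)) / Real.exp (-(k * ρ)) := by
          rw [← Real.exp_sub]; congr 1; ring
        rw [h7, ← mul_div_assoc, le_div_iff₀ (Real.exp_pos _)]
        exact h6
      have h6 : Real.exp (A - a k + b k) * Real.exp ((n + 1) * t - k * ρ) ≤ Q * Real.exp Y := by
        have h7 : κ * Real.exp (A - a k + b k) ≤
            K * (Cr * Real.exp Y * Real.exp (-((n + 1) * t - k * ρ))) :=
          h1.trans (h2.trans (mul_le_mul_of_nonneg_left h5 hK.le))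
        have h8 : Real.exp (A - a k + b k) ≤
            (K * Cr / κ) * Real.exp Y * Real.exp (-((n + 1) * t - k * ρ)) := by
          calc Real.exp (A - a k + b k) ≤
              (K * (Cr * Real.exp Y * Real.exp (-((n + 1) * t - k * ρ)))) / κ := by
                rw [le_div_iff₀ hκ]; linarith
            _ = _ := by ring
        calc Real.exp (A - a k + b k) * Real.exp ((n + 1) * t - k * ρ)
            ≤ ((K * Cr / κ) * Real.exp Y * Real.exp (-((n + 1) * t - k * ρ))) *
              Real.exp ((n + 1) * t - k * ρ) := mul_le_mul_of_nonneg_right h8 (Real.exp_pos _).le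
          _ = (K * Cr / κ) * Real.exp Y := by
              rw [mul_assoc, ← Real.exp_add]; simp
          _ ≤ _ := mul_le_mul_of_nonneg_right hQb (Real.exp_pos _).le
      have h8 := Real.log_le_log (by positivity) h6
      rw [Real.log_mul (Real.exp_pos _).ne' (Real.exp_pos _).ne', Real.log_exp, Real.log_exp,
        Real.log_mul (by linarith) (Real.exp_pos _).ne', Real.log_exp] at h8
      rw [hC1]; linarith
    have hηk : η k = max 0 ((n + 1) * t - (k : ℕ) * ρ) := rfl
    rcases max_choice 0 ((n + 1) * t - (k : ℕ) * ρ) with hm | hm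
    · rw [hηk, hm]; linarith
    · rw [hηk, hm]; linarith
  -- combine
  have hd0 : (0 : ℝ) < (N : ℝ) + 1 := by positivity
  have hS0 : Sp 0 = (nb bl 0 : ℝ) := by simp [hSp]
  have hSs : ∀ k, Sp (k + 1) = Sp k + (nb bl (k + 1) : ℝ) := by
    intro k; simp only [hSp]; rw [Finset.sum_range_succ]
  have hJ0 : ∀ k, (0 : ℝ) ≤ (nb bl k : ℝ) := fun k => Nat.cast_nonneg _
  have hlam0 : ∀ k, 0 ≤ lam k := lamw_nonneg hd0 hJ0 hS0 hSs
  have hlamd : ∀ k, lam k * ((N : ℝ) + 1) ≤ (nb bl k : ℝ) := lamw_le hd0 hJ0 hS0 hSs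
  have hsub : im ⊆ Finset.range (n + 1) := fun i hi => Finset.mem_range.2 (himn i hi)
  have hout : ∀ k, k ∉ im → lam k = 0 := by
    intro k hk
    have h1 : nb bl k = 0 := by
      unfold nb
      rw [Finset.card_eq_zero, Finset.filter_eq_empty_iff]
      intro x _ hx
      exact hk (by rw [him, Finset.mem_image]; exact ⟨x, Finset.mem_univ _, hx⟩)
    have h2 := hlamd k
    rw [h1] at h2
    have h3 := hlam0 k
    push_cast at h2
    nlinarith
  have hsumlam : ∑ k ∈ im, lam k ≤ 1 := by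
    calc ∑ k ∈ im, lam k ≤ ∑ k ∈ Finset.range (n + 1), lam k :=
          Finset.sum_le_sum_of_subset_of_nonneg hsub (fun k _ _ => hlam0 k)
      _ = Acap ((N : ℝ) + 1) Sp n := lamw_sum n
      _ ≤ 1 := min_le_left _ _
  have hsumeta : ∑ k ∈ im, lam k * η k = Sl := by
    rw [hSl]
    apply Finset.sum_subset hsub
    intro k _ hk
    rw [hout k hk, zero_mul]
  have hfin' := comb_bound (im := im) ((N : ℝ) + 1) (fun k => (nb bl k : ℝ)) lam η a b C1 Y hC10 hd0
    (by
      intro k hk
      obtain ⟨x, hx⟩ := him' k hk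
      have : 0 < nb bl k := by
        unfold nb
        rw [Finset.card_pos]
        exact ⟨x, by simpa using hx⟩
      exact_mod_cast this)
    (by
      intro k _
      have := h.blk k
      have h1 : nb bl k ≤ N + 1 := this
      exact_mod_cast h1)
    (fun k _ => hlam0 k) (fun k _ => hlamd k) hsumlam
    (by
      intro k hk
      have := (hab k (him' k hk)).2.2.2.1
      rw [hC1]; linarith)
    (by
      intro k hk
      have := (hab k (him' k hk)).2.2.2.2
      rw [hC1]; linarith)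
    hXA hXB
  rw [hsumeta, hY] at hfin'
  have h9 : C1 * (1 + 2 * (im.card : ℝ)) ≤ C1 * (1 + 2 * ((n : ℝ) + 1)) := by
    apply mul_le_mul_of_nonneg_left _ hC10
    have : (im.card : ℝ) ≤ (n : ℝ) + 1 := by exact_mod_cast hcardim
    linarith
  linarith

theorem richG (hn : 1 ≤ n) (hNn : N ≤ n) (hℓ : (n + 1) * n < ℓ) {β : ℝ} {p : Fin (N + 1 + 1) → ℤ}
    (hβ : BetaData (N + 1) β p) (θ e νp νd : ℝ) (hθ : (n : ℝ) + 1 ≤ θ) (he0 : 0 ≤ e)
    (he : e ≤ ((N : ℝ) + 1) * θ ∨ N = n)
    (h1 : 1 - ((n : ℝ) + 1) / θ ≤ νp) (h2 : n * (1 - ((n : ℝ) + 1) / θ) ≤ νd) :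
    Rich n ℓ β e νp νd := by
  classical
  obtain ⟨C, hC0, hreal⟩ := real_lower (n := n) hβ hn
  have hpm : (toP p).Monic ∧ (toP p).natDegree = N + 1 := by
    have hco : (toP p).coeff (N + 1) = 1 := by
      have := toP_coeff p (Fin.last (N + 1))
      rw [Fin.val_last, hβ.monic] at this
      exact this
    have hdeg : (toP p).natDegree = N + 1 := by
      apply le_antisymm (toP_natDegree p)
      apply le_natDegree_of_ne_zero
      rw [hco]; exact one_ne_zero
    exact ⟨by rw [Monic, leadingCoeff, hdeg, hco], hdeg⟩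
  obtain ⟨hP, hdeg⟩ := hpm
  have hn0 : (0 : ℝ) < n := by exact_mod_cast hn
  have hθ0 : 0 < θ := by linarith
  set ν := 1 - ((n : ℝ) + 1) / θ with hν
  have hν0 : 0 ≤ ν := by
    rw [hν, sub_nonneg, div_le_one hθ0]; exact hθ
  refine ⟨Real.exp (-C), Real.exp_pos _, by rw [Real.exp_le_one_iff]; linarith, 0, ?_⟩
  intro m _ t ht s hs1 hsn
  have hrk1 : (1 : ℝ) ≤ rk s := by exact_mod_cast hs1
  have hrkn : (rk s : ℝ) ≤ n := by exact_mod_cast hsn
  obtain ⟨j, v, bl, h⟩ := exists_adapt (n := n) hP hdeg s.1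
  have hjrk : j = rk s := h.zb.1.finrank.symm
  have hjR : (j : ℝ) = rk s := by exact_mod_cast hjrk
  set r := rad ℓ e m with hr
  have hrpos : 0 < r := rad_pos _ _ _
  set L : ℝ := m * Real.log ℓ with hL
  have hL0 : 0 ≤ L := mul_nonneg (Nat.cast_nonneg _) (Real.log_natCast_nonneg _)
  have hlogr : -Real.log r = e * L := by
    rw [hr, rad, Real.log_exp]; ring
  have hr1 : r ≤ 1 := by
    rw [hr, rad, Real.exp_le_one_iff]
    have : 0 ≤ e * (m * Real.log ℓ) := mul_nonneg he0 hL0
    linarith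
  obtain ⟨z, hz, h3⟩ := hreal s.1 j v bl h (by omega) t ht r hrpos hr1
  obtain ⟨E, hE, p', hp1, hp2⟩ := padicC (ℓ := ℓ) hP hdeg h hℓ m
  have hℓpos : (0 : ℝ) < ℓ := by exact_mod_cast hp.out.pos
  have hqexp : ((ℓ : ℝ) ^ m) ^ E = Real.exp (E * L) := by
    rw [← pow_mul, ← Real.rpow_natCast, ← Real.exp_log (Real.rpow_pos_of_pos hℓpos _),
      Real.log_rpow hℓpos, hL]
    congr 1
    push_cast; ring
  rw [hqexp] at hp2
  set Sp : ℕ → ℝ := fun k => ∑ i ∈ Finset.range (k + 1), (nb bl i : ℝ) with hSp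
  set lam := lamw ((N : ℝ) + 1) Sp with hlam
  rw [hlogr] at h3
  set Sl := ∑ k ∈ Finset.range (n + 1), lam k * max 0 (((n : ℝ) + 1) * t - (k : ℕ) * (e * L)) with hSl
  -- combinatorial inequality
  have hd0 : (0 : ℝ) < (N : ℝ) + 1 := by positivity
  have hSV : ∀ k, Sp k + (na bl k : ℝ) = (j : ℝ) := by
    intro k
    have := sum_nb bl k
    simp only [hSp]
    exact_mod_cast this
  have hna : ∀ k, na bl k ≤ n - N := by
    intro k
    refine le_trans ?_ h.card
    unfold na
    apply Finset.card_le_card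
    intro x hx
    rw [Finset.mem_filter] at hx ⊢
    exact ⟨hx.1, by omega⟩
  have hjn1 : (j : ℝ) ≤ n := by rw [hjR]; exact hrkn
  have htrop := trop_ineq (d := (N : ℝ) + 1) (θ := θ) (j := (j : ℝ)) (σ := ((n : ℝ) + 1) * t)
    (ρ := e * L) (fun k => (nb bl k : ℝ)) (fun k => (na bl k : ℝ)) Sp hd0 (by positivity)
    (by positivity) (fun k => Nat.cast_nonneg _)
    (by
      intro k
      have h1 : nb bl k ≤ N + 1 := h.blk k
      exact_mod_cast h1)
    (fun k => Nat.cast_nonneg _) (by simp [hSp])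
    (by intro k; simp only [hSp]; rw [Finset.sum_range_succ]) hSV (by linarith)
    (by
      intro k
      have h1 := hna k
      have h2 : (na bl k : ℝ) + N ≤ n := by exact_mod_cast (by omega : na bl k + N ≤ n)
      linarith) n
  have hnan : na bl n = 0 := by
    unfold na
    rw [Finset.card_eq_zero, Finset.filter_eq_empty_iff]
    intro x _ hx
    have := h.le x
    omega
  have hSn : Sp n = (j : ℝ) := by
    have := hSV n
    rw [hnan] at this
    simpa using this
  have hAn : 0 ≤ θ * Acap ((N : ℝ) + 1) Sp n - j := by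
    unfold Acap
    rw [hSn]
    have hNn' : (N : ℝ) ≤ n := by exact_mod_cast hNn
    rcases le_total 1 ((j : ℝ) / ((N : ℝ) + 1)) with h | h
    · rw [min_eq_left h]; linarith
    · rw [min_eq_right h, sub_nonneg, mul_div_assoc', le_div_iff₀ hd0, mul_comm θ]
      exact mul_le_mul_of_nonneg_left (by linarith) (Nat.cast_nonneg _)
  have h4 : 0 ≤ θ * Sl + ((e * L) / ((N : ℝ) + 1)) * ∑ k ∈ Finset.range (n + 1),
      (((N : ℝ) + 1) - (nb bl k : ℝ)) * (na bl k : ℝ) - j * (((n : ℝ) + 1) * t) := by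
    refine le_trans (mul_nonneg hAn (le_max_left _ _)) htrop
  -- the exponent `E`
  have hE' : ∑ k ∈ Finset.range (n + 1), (((N : ℝ) + 1) - (nb bl k : ℝ)) * (na bl k : ℝ) ≤ E := by
    have e1 : ∑ a, (N + 1) * bl a = (N + 1) * ∑ k ∈ Finset.range (n + 1), na bl k := by
      rw [← Finset.mul_sum, sum_bl bl h.le]
    rw [e1, sum_less bl h.le] at hE
    have hE2 : ((N : ℝ) + 1) * ∑ k ∈ Finset.range (n + 1), (na bl k : ℝ) ≤
        E + ∑ k ∈ Finset.range (n + 1), (nb bl k : ℝ) * (na bl k : ℝ) := by exact_mod_cast hE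
    simp_rw [sub_mul]
    rw [Finset.sum_sub_distrib, ← Finset.mul_sum]
    linarith
  have hW0 : 0 ≤ ∑ k ∈ Finset.range (n + 1), (((N : ℝ) + 1) - (nb bl k : ℝ)) * (na bl k : ℝ) := by
    apply Finset.sum_nonneg
    intro k _
    apply mul_nonneg _ (Nat.cast_nonneg _)
    have h1 : nb bl k ≤ N + 1 := h.blk k
    have h2 : (nb bl k : ℝ) ≤ N + 1 := by exact_mod_cast h1
    linarith
  have h5 : ((e * L) / ((N : ℝ) + 1)) * ∑ k ∈ Finset.range (n + 1),
      (((N : ℝ) + 1) - (nb bl k : ℝ)) * (na bl k : ℝ) ≤ θ * (E * L) := by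
    rcases he with he | he
    · have h6 : (e * L) / ((N : ℝ) + 1) ≤ θ * L := by
        rw [div_le_iff₀ hd0]
        have := mul_le_mul_of_nonneg_right he hL0
        linarith
      calc _ ≤ (θ * L) * ∑ k ∈ Finset.range (n + 1),
            (((N : ℝ) + 1) - (nb bl k : ℝ)) * (na bl k : ℝ) := mul_le_mul_of_nonneg_right h6 hW0
        _ ≤ (θ * L) * E := mul_le_mul_of_nonneg_left hE' (by positivity)
        _ = _ := by ring
    · have h6 : ∀ k, na bl k = 0 := fun k => by have := hna k; omega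
      have h7 : ∑ k ∈ Finset.range (n + 1), (((N : ℝ) + 1) - (nb bl k : ℝ)) * (na bl k : ℝ) = 0 := by
        apply Finset.sum_eq_zero
        intro k _
        rw [h6 k]; simp
      rw [h7, mul_zero]; positivity
  have h6 : j * (((n : ℝ) + 1) * t) / θ ≤ Sl + E * L := by
    rw [div_le_iff₀ hθ0]; nlinarith
  have hmain : Real.exp (-C) * Real.exp (-((rk s : ℝ) * ν * t)) ≤
      Nm (wt n t) (zb s) z * Ux ℓ (zb s) (pt ℓ m p') := by
    rw [zb_eq (ℓ := ℓ) (wt n t) (wt_pos t) s _ h.zb]
    refine le_trans ?_ (mul_le_mul h3 hp2 (Real.exp_pos _).le (Nm_nonneg _ (wt_pos t) _ _))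
    rw [← Real.exp_add, ← Real.exp_add]
    apply Real.exp_le_exp.2
    have e1 : -((rk s : ℝ) * ν * t) = j * (((n : ℝ) + 1) * t) / θ - j * t := by
      rw [hν, ← hjR]; field_simp; ring
    rw [e1]
    linarith
  refine ⟨z, hz, p', hp1, le_trans ?_ hmain, le_trans ?_ hmain⟩
  · gcongr
  · apply mul_le_mul_of_nonneg_left _ (Real.exp_pos _).le
    apply Real.exp_le_exp.2
    apply neg_le_neg
    apply mul_le_mul_of_nonneg_right _ ht
    have h3 : (rk s : ℝ) * ν ≤ n * ν := mul_le_mul_of_nonneg_right hrkn hν0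
    have hνd : 0 ≤ νd := le_trans (by positivity) h2
    have h4 : νd ≤ ((n : ℝ) + 1 - rk s) * νd := by
      have : 1 ≤ (n : ℝ) + 1 - rk s := by linarith
      calc νd = 1 * νd := (one_mul _).symm
        _ ≤ _ := mul_le_mul_of_nonneg_right this hνd
    linarith

end

end Pool.Agent.W71
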