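import Mathlib
import Pool.Agent.W71.RichG
import Pool.Agent.W71.Expo

/-! Nested construction with exponents converging from above, and algebraic numbers of
prescribed degree. -/

set_option autoImplicit false

open Polynomial Set MeasureTheory

namespace Pool.Agent.W71

open Pool.Agent.Helper404 (toP castQ toP_natDegree)

/-- several flows at once, with converging exponents -/
theorem nested_lim (S : Finset ℕ) (ℓ : ℕ → ℕ) (hℓ : ∀ k, (ℓ k).Prime)
    (hS : ∀ n ∈ S, 1 ≤ n ∧ ∀ k, (n + 1) * n < ℓ k) (be ee : ℕ → ℝ) (hee : ∀ k, 2 ≤ ee k)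
    (νp νd : ℕ → ℝ) (hνp : ∀ n, 0 ≤ νp n) (hνd : ∀ n, 0 ≤ νd n) (dl : ℕ → ℝ)
    (hdl0 : ∀ k, 0 ≤ dl k) (hdla : Antitone dl) (hdl : Filter.Tendsto dl Filter.atTop (nhds 0))
    (hR : ∀ n ∈ S, ∀ k, Rich n (ℓ k) (be k) (ee k) (νp n + dl k) (νd n + dl k))
    (av : ℕ → ℝ) (M : ℕ → ℕ → ℕ) (M0 : ℕ) :
    ∃ (m : ℕ → ℕ) (p : ℕ → ℤ) (ξ : ℝ), M0 ≤ m 0 ∧ (∀ k, 1 ≤ m k) ∧
      (∀ k, M k (m k) ≤ m (k + 1)) ∧ (∀ k, k ≤ m k) ∧
      (∀ k, ξ ∈ Icc ((p k : ℝ) / (ℓ k : ℝ) ^ (m k) + be k + rad (ℓ k) (ee k) (m k))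
        ((p k : ℝ) / (ℓ k : ℝ) ^ (m k) + be k + rad (ℓ k) (ee k) (m k) + rad (ℓ k) (ee k) (m k))) ∧
      (∀ k, ξ ≠ av k) ∧
      ∀ n ∈ S, ∀ ε : ℝ, 0 < ε → ∃ T : ℕ, ∀ t : ℕ, T ≤ t →
        OkP n ξ t (Real.exp (-((νp n + ε) * t))) ∧ OkD n ξ t (Real.exp (-((νd n + ε) * t))) := by
  classical
  set ep : ℕ → ℝ := fun k => 1 / ((k : ℝ) + 1) with hep
  have hep0 : ∀ k, 0 < ep k := fun k => by simp only [hep]; positivity
  have hfact : ∀ k, Fact (ℓ k).Prime := fun k => ⟨hℓ k⟩
  obtain ⟨m, p, ξ, ξ0, h1, h2, h3, h4, h5, h6, h7⟩ := nested_gen ℓ hℓ be ee hee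
    (fun k m ξ => ∀ n ∈ S, Okk n (νp n + dl k) (νd n + dl k) (ep k) (Tm n (ℓ k) m) ξ)
    (fun k => by
      have := hfact k
      exact (Typical.finset S _ (fun n hn => Typical.flow (hS n hn).1 ((hS n hn).2 k)
        (add_nonneg (hνp n) (hdl0 k)) (add_nonneg (hνd n) (hdl0 k)) (hR n hn k) (ep k) (hep0 k))))
    (fun k m ξ h j => fun n hn => (h n hn).shift j) av
    (fun k m => max (M k m) (m + 1)) M0
  have hmk : ∀ k, k ≤ m k := by
    intro k
    induction k with
    | zero => omega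
    | succ k ih => have := (le_max_right _ _).trans (h3 k); omega
  refine ⟨m, p, ξ, h1, h2, fun k => (le_max_left _ _).trans (h3 k), hmk, h4, h7, ?_⟩
  intro n hn
  have hpw : ∀ k, (2 : ℝ) ^ k ≤ (ℓ k : ℝ) ^ m k := by
    intro k
    have hℓ2 : (2 : ℝ) ≤ ℓ k := by exact_mod_cast (hℓ k).two_le
    calc (2 : ℝ) ^ k ≤ (ℓ k : ℝ) ^ k := pow_le_pow_left₀ (by norm_num) hℓ2 _
      _ ≤ (ℓ k : ℝ) ^ m k := pow_le_pow_right₀ (by linarith) (hmk k)
  have hqpos : ∀ k, (0 : ℝ) < (ℓ k : ℝ) ^ m k := fun k => pow_pos (by exact_mod_cast (hℓ k).pos) _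
  refine cover ξ 0 (fun k => Tm n (ℓ k) (m k)) (fun k => 1 / (ℓ k : ℝ) ^ m k) ξ0
    (fun k => ep k + dl k)
    (fun k => by have := hqpos k; positivity) (fun k => ?_) ?_ ?_ ?_ (fun k _ => ?_)
    (fun k _ => ?_) (fun k _ => h6 k)
  · rw [div_le_one (hqpos k)]
    exact (one_le_pow₀ (by norm_num)).trans (hpw k)
  · have h8 : Filter.Tendsto (fun k : ℕ => (1 / 2 : ℝ) ^ k) Filter.atTop (nhds 0) :=
      tendsto_pow_atTop_nhds_zero_of_lt_one (by norm_num) (by norm_num)
    refine squeeze_zero (fun k => by have := hqpos k; positivity) (fun k => ?_) h8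
    rw [one_div_pow]
    exact one_div_le_one_div_of_le (by positivity) (hpw k)
  · have := (tendsto_one_div_add_atTop_nhds_zero_nat (𝕜 := ℝ)).add hdl
    rw [add_zero] at this
    exact this
  · intro i j hij
    simp only [hep]
    apply add_le_add _ (hdla hij)
    apply one_div_le_one_div_of_le (by positivity)
    have : (i : ℝ) ≤ j := by exact_mod_cast hij
    linarith
  · have := hfact (k + 1)
    have h9 := exp_Tm_le (ℓ := ℓ (k + 1)) n (m (k + 1))
    rw [mul_one_div, div_le_one (hqpos _)]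
    exact h9
  · have h9 := h5 k n hn
    intro t ht
    have h10 := h9 t ht
    have e1 : νp n + dl k + ep k = νp n + (ep k + dl k) := by ring
    have e2 : νd n + dl k + ep k = νd n + (ep k + dl k) := by ring
    rw [e1, e2] at h10
    exact h10

/-- the translate of `2 ^ (1 / d)` by a rational number: minimal polynomial and height -/
lemma minPoly_translate {d : ℕ} (hd : 1 ≤ d) (B : ℝ) (hB : 1 ≤ B) (q : ℕ) (hq : 1 ≤ q) (p : ℤ)
    (hpB : |(p : ℝ) / q| ≤ B) :
    ∃ P : ℤ[X], MinPolyZ P ((p : ℝ) / q + rt d) ∧ P.natDegree = d ∧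
      (hgt P : ℝ) ≤ (2 ^ d * B ^ d + 2) * (q : ℝ) ^ d := by
  have hq0 : (0 : ℝ) < q := by exact_mod_cast (by omega : 0 < q)
  have hqZ : (q : ℤ) ≠ 0 := by exact_mod_cast (by omega : q ≠ 0)
  set F : ℤ[X] := (C (q : ℤ) * X + C (-p)) ^ d - C (2 * (q : ℤ) ^ d) with hF
  -- real version
  have hFR : F.map (Int.castRingHom ℝ) =
      C ((q : ℝ) ^ d) * (X + C (-((p : ℝ) / q))) ^ d - C (2 * (q : ℝ) ^ d) := by
    have e1 : (C (q : ℝ) * X + C (-(p : ℝ)) : ℝ[X]) = C (q : ℝ) * (X + C (-((p : ℝ) / q))) := by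
      rw [mul_add, ← C_mul]
      congr 2
      field_simp
    have e2 : (C (q : ℤ) : ℤ[X]).map (Int.castRingHom ℝ) = C (q : ℝ) := by
      rw [Polynomial.map_C]; simp
    have e3 : (C (-p) : ℤ[X]).map (Int.castRingHom ℝ) = C (-(p : ℝ)) := by
      rw [Polynomial.map_C]; simp
    have e4 : (C (2 * (q : ℤ) ^ d) : ℤ[X]).map (Int.castRingHom ℝ) = C (2 * (q : ℝ) ^ d) := by
      rw [Polynomial.map_C]; simp
    rw [hF, Polynomial.map_sub, Polynomial.map_pow, Polynomial.map_add, Polynomial.map_mul, e2, e3,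
      e4, map_X, e1, mul_pow, ← C_pow]
  have hcoefR : ∀ i, ((F.coeff i : ℤ) : ℝ) = (q : ℝ) ^ d * ((-((p : ℝ) / q)) ^ (d - i) *
      ((d.choose i : ℕ) : ℝ)) - (if i = 0 then 2 * (q : ℝ) ^ d else 0) := by
    intro i
    have h1 : ((F.coeff i : ℤ) : ℝ) = (F.map (Int.castRingHom ℝ)).coeff i := by
      rw [coeff_map]; rfl
    rw [h1, hFR, coeff_sub, coeff_C_mul, coeff_X_add_C_pow, coeff_C]
  -- the number
  set α : ℝ := (p : ℝ) / q + rt d with hα
  have hFα : aeval α F = 0 := by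
    have h1 : aeval α F = (F.map (Int.castRingHom ℝ)).eval α := by
      rw [aeval_def, eval_map]; rfl
    rw [h1, hFR]
    simp only [eval_sub, eval_mul, eval_C, eval_pow, eval_add, eval_X]
    have h2 : α + -((p : ℝ) / q) = rt d := by rw [hα]; ring
    rw [h2, rt_pow hd]; ring
  have hFd : F.coeff d = (q : ℤ) ^ d := by
    have h1 := hcoefR d
    rw [if_neg (by omega), Nat.sub_self, pow_zero, Nat.choose_self] at h1
    have h2 : ((F.coeff d : ℤ) : ℝ) = (((q : ℤ) ^ d : ℤ) : ℝ) := by rw [h1]; push_cast; ring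
    exact_mod_cast h2
  have hqd : (q : ℤ) ^ d ≠ 0 := pow_ne_zero _ hqZ
  have hFdeg : F.natDegree = d := by
    apply le_antisymm
    · rw [natDegree_le_iff_coeff_eq_zero]
      intro i hi
      have h1 := hcoefR i
      rw [if_neg (by omega), Nat.choose_eq_zero_of_lt hi] at h1
      have h2 : ((F.coeff i : ℤ) : ℝ) = ((0 : ℤ) : ℝ) := by rw [h1]; simp
      exact_mod_cast h2
    · apply le_natDegree_of_ne_zero
      rw [hFd]; exact hqd
  have hFlead : F.leadingCoeff = (q : ℤ) ^ d := by rw [leadingCoeff, hFdeg, hFd]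
  have hF0 : F ≠ 0 := by
    intro h
    rw [h] at hFd
    simp only [coeff_zero] at hFd
    exact hqd hFd.symm
  have hcont : F = C F.content * F.primPart := eq_C_content_mul_primPart F
  have hc0 : F.content ≠ 0 := fun h => hF0 (content_eq_zero_iff.1 h)
  have hcpos : 0 < F.content := by
    have h1 : normalize F.content = F.content := normalize_content
    have h2 := Int.abs_eq_normalize F.content
    rw [h1] at h2
    have h3 : 0 ≤ F.content := by rw [← h2]; exact abs_nonneg _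
    exact lt_of_le_of_ne h3 (Ne.symm hc0)
  set P := F.primPart with hP
  have hPdeg : P.natDegree = d := by rw [hP, natDegree_primPart, hFdeg]
  have hPlead : 0 < P.leadingCoeff := by
    have h1 : F.leadingCoeff = F.content * P.leadingCoeff := by
      conv_lhs => rw [hcont]
      rw [leadingCoeff_mul, leadingCoeff_C]
    rw [hFlead] at h1
    have h2 : 0 < F.content * P.leadingCoeff := by rw [← h1]; positivity
    exact (mul_pos_iff_of_pos_left hcpos).1 h2
  have hPα : aeval α P = 0 := by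
    rw [hcont, map_mul, aeval_C] at hFα
    rcases mul_eq_zero.1 hFα with h | h
    · exfalso
      apply hc0
      have h1 : ((F.content : ℤ) : ℝ) = 0 := h
      exact_mod_cast h1
    · exact h
  -- the degree of the number
  have hroot : aeval (rt d) (fQ d) = 0 := by
    have h0 : aeval (rt d) (fQ d) = aeval (rt d) (fZ d) := aeval_map_algebraMap ℚ (rt d) (fZ d)
    have h1 : aeval (rt d) (fQ d) = (rt d) ^ d - 2 := by
      rw [h0]
      unfold fZ
      rw [map_sub, map_pow, aeval_X, aeval_C]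
      simp
    rw [h1, rt_pow hd, sub_self]
  have hmin : minpoly ℚ (rt d) = fQ d :=
    (minpoly.eq_of_irreducible_of_monic (fQ_irr hd) hroot (fQ_monic hd)).symm
  have hαeq : α = rt d + algebraMap ℚ ℝ ((p : ℚ) / (q : ℚ)) := by
    rw [hα, add_comm]
    congr 1
    rw [eq_ratCast]; push_cast; rfl
  have hminα : (minpoly ℚ α).natDegree = d := by
    rw [hαeq, minpoly.add_algebraMap, hmin, natDegree_comp, natDegree_X_sub_C, mul_one,
      fQ_natDegree hd]
  refine ⟨P, ⟨isPrimitive_primPart F, hPlead, by omega, hPα, ?_⟩, hPdeg, ?_⟩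
  · intro Q hQ0 hQα
    rw [hPdeg, ← hminα]
    have h1 : aeval α (Q.map (Int.castRingHom ℚ)) = 0 := by
      have : aeval α (Q.map (algebraMap ℤ ℚ)) = aeval α Q := aeval_map_algebraMap ℚ α Q
      rw [hQα] at this
      exact this
    have h2 : Q.map (Int.castRingHom ℚ) ≠ 0 := by
      rw [Ne, Polynomial.map_eq_zero_iff (RingHom.injective_int (Int.castRingHom ℚ))]
      exact hQ0
    exact (natDegree_le_natDegree (minpoly.degree_le_of_ne_zero ℚ α h2 h1)).trans natDegree_map_le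
  · apply hgt_le_real _ (by positivity)
    intro i
    have h1 : F.coeff i = F.content * P.coeff i := by
      conv_lhs => rw [hcont]
      rw [coeff_C_mul]
    have h2 : |((P.coeff i : ℤ) : ℝ)| ≤ |((F.coeff i : ℤ) : ℝ)| := by
      rw [h1]
      push_cast
      rw [abs_mul]
      have h3 : (1 : ℝ) ≤ |((F.content : ℤ) : ℝ)| := by
        rw [← Int.cast_abs]
        exact_mod_cast Int.one_le_abs hc0
      exact le_mul_of_one_le_left (abs_nonneg _) h3
    refine h2.trans ?_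
    rw [hcoefR i]
    have h4 : |(q : ℝ) ^ d * ((-((p : ℝ) / q)) ^ (d - i) * ((d.choose i : ℕ) : ℝ))| ≤
        (q : ℝ) ^ d * (B ^ d * 2 ^ d) := by
      rw [abs_mul, abs_of_pos (by positivity : (0 : ℝ) < (q : ℝ) ^ d), abs_mul, abs_pow, abs_neg,
        Nat.abs_cast]
      apply mul_le_mul_of_nonneg_left _ (by positivity)
      apply mul_le_mul _ _ (by positivity) (by positivity)
      · calc |(p : ℝ) / q| ^ (d - i) ≤ B ^ (d - i) := pow_le_pow_left₀ (abs_nonneg _) hpB _
          _ ≤ B ^ d := pow_le_pow_right₀ hB (by omega)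
      · have := Nat.choose_le_two_pow d i
        exact_mod_cast this
    have h5 : |(if i = 0 then 2 * (q : ℝ) ^ d else 0)| ≤ 2 * (q : ℝ) ^ d := by
      split_ifs
      · rw [abs_of_pos (by positivity)]
      · rw [abs_zero]; positivity
    refine (abs_sub _ _).trans ?_
    linarith

end Pool.Agent.W71
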