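import Mathlib

/-! Words with too many occurrences of one digit. -/

set_option autoImplicit false

namespace Pool.Agent.W71

/-- the number with `M` digits equal to `d` -/
def rep (g d : ℕ) : ℕ → ℕ
  | 0 => 0
  | M + 1 => g * rep g d M + d

lemma rep_lt (g d : ℕ) (hd : d < g) (M : ℕ) : rep g d M < g ^ M := by
  induction M with
  | zero => simp [rep]
  | succ M ih =>
    rw [rep, pow_succ]
    calc g * rep g d M + d < g * rep g d M + g := by omega
      _ = g * (rep g d M + 1) := by ring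
      _ ≤ g * g ^ M := Nat.mul_le_mul_left _ ih
      _ = _ := mul_comm _ _

lemma rep_digit (g d : ℕ) (hd : d < g) (M : ℕ) : ∀ k, k < M → rep g d M / g ^ k % g = d := by
  have hg : 0 < g := by omega
  induction M with
  | zero => intro k hk; omega
  | succ M ih =>
    intro k hk
    rcases k with _ | k
    · rw [pow_zero, Nat.div_one, rep, Nat.mul_add_mod, Nat.mod_eq_of_lt hd]
    · rw [rep, pow_succ', ← Nat.div_div_eq_div_mul, Nat.mul_add_div hg, Nat.div_eq_of_lt hd,
        add_zero]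
      exact ih k (by omega)

/-- number of digits equal to `d` among the lowest `N` -/
def cntd (g d N y : ℕ) : ℕ := ((Finset.range N).filter (fun k => y / g ^ k % g = d)).card

lemma exists_freq (g : ℕ) (hg : 0 < g) (N y : ℕ) : ∃ d, d < g ∧ N ≤ g * cntd g d N y := by
  by_contra hcon
  push Not at hcon
  have h1 : ∑ d ∈ Finset.range g, cntd g d N y = N := by
    have h2 := Finset.card_eq_sum_card_fiberwise (s := Finset.range N) (t := Finset.range g)
      (f := fun k => y / g ^ k % g) (by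
        intro k _
        simp only [Finset.coe_range, Set.mem_Iio]
        exact Nat.mod_lt _ hg)
    rw [Finset.card_range] at h2
    exact h2.symm
  rcases Nat.eq_zero_or_pos N with rfl | hN
  · exact absurd (hcon 0 hg) (by omega)
  · have h3 : ∑ d ∈ Finset.range g, g * cntd g d N y < ∑ _d ∈ Finset.range g, N := by
      apply Finset.sum_lt_sum_of_nonempty (Finset.nonempty_range_iff.2 hg.ne')
      intro d hd
      exact hcon d (Finset.mem_range.1 hd)
    rw [← Finset.mul_sum, h1, Finset.sum_const, Finset.card_range, smul_eq_mul] at h3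
    omega

lemma cntd_append (g d : ℕ) (hd : d < g) (M N u : ℕ) (hMN : M ≤ N) :
    cntd g d N (u * g ^ M + rep g d M) = M + cntd g d (N - M) u := by
  have hg : 0 < g := by omega
  have h1 : ∀ k, k < M → (u * g ^ M + rep g d M) / g ^ k % g = d := by
    intro k hk
    have h2 : u * g ^ M + rep g d M = g ^ k * (u * g ^ (M - k)) + rep g d M := by
      have : g ^ M = g ^ k * g ^ (M - k) := by rw [← pow_add]; congr 1; omega
      rw [this]; ring
    rw [h2, Nat.mul_add_div (by positivity)]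
    have h3 : u * g ^ (M - k) = g * (u * g ^ (M - k - 1)) := by
      have : g ^ (M - k) = g * g ^ (M - k - 1) := by rw [← pow_succ']; congr 1; omega
      rw [this]; ring
    rw [h3, Nat.mul_add_mod]
    exact rep_digit g d hd M k hk
  have h2 : ∀ k, (u * g ^ M + rep g d M) / g ^ (M + k) % g = u / g ^ k % g := by
    intro k
    rw [pow_add, ← Nat.div_div_eq_div_mul]
    congr 2
    rw [mul_comm u, Nat.mul_add_div (by positivity), Nat.div_eq_of_lt (rep_lt g d hd M), add_zero]
  unfold cntd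
  have h3 : Finset.range N = Finset.range M ∪ (Finset.range (N - M)).image (fun k => M + k) := by
    ext k
    simp only [Finset.mem_union, Finset.mem_range, Finset.mem_image]
    constructor
    · intro h
      by_cases hk : k < M
      · exact Or.inl hk
      · exact Or.inr ⟨k - M, by omega, by omega⟩
    · rintro (h | ⟨a, ha, rfl⟩) <;> omega
  rw [h3, Finset.filter_union, Finset.card_union_of_disjoint]
  · congr 1
    · rw [Finset.filter_true_of_mem, Finset.card_range]
      intro k hk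
      exact h1 k (Finset.mem_range.1 hk)
    · rw [Finset.filter_image, Finset.card_image_of_injective _ (fun a b h => by simpa using h)]
      congr 1
      ext k
      simp only [Finset.mem_filter]
      rw [h2]
  · rw [Finset.disjoint_left]
    intro k hk hk'
    simp only [Finset.mem_filter, Finset.mem_range, Finset.mem_image] at hk hk'
    obtain ⟨⟨a, _, ha⟩, _⟩ := hk'
    omega

/-- many biased words -/
theorem biased_words (g : ℕ) (hg : 2 ≤ g) (M N : ℕ) (hMN : M ≤ N) :
    ∃ Y : Finset ℕ, Y ⊆ Finset.range (g ^ N) ∧ g ^ (N - M) ≤ Y.card ∧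
      ∀ y ∈ Y, ∃ d, d < g ∧ g * M + (N - M) ≤ g * cntd g d N y := by
  classical
  choose d hd1 hd2 using exists_freq g (by omega) (N - M)
  refine ⟨(Finset.range (g ^ (N - M))).image (fun u => u * g ^ M + rep g (d u) M), ?_, ?_, ?_⟩
  · intro y hy
    rw [Finset.mem_image] at hy
    obtain ⟨u, hu, rfl⟩ := hy
    rw [Finset.mem_range] at hu ⊢
    calc u * g ^ M + rep g (d u) M < u * g ^ M + g ^ M := by
          have := rep_lt g (d u) (hd1 u) M; omega
      _ = (u + 1) * g ^ M := by ring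
      _ ≤ g ^ (N - M) * g ^ M := Nat.mul_le_mul_right _ hu
      _ = g ^ N := by rw [← pow_add]; congr 1; omega
  · rw [Finset.card_image_of_injOn, Finset.card_range]
    intro u _ u' _ h
    simp only at h
    have h1 : ∀ u, (u * g ^ M + rep g (d u) M) / g ^ M = u := by
      intro u
      rw [mul_comm u, Nat.mul_add_div (by positivity), Nat.div_eq_of_lt (rep_lt g _ (hd1 u) M),
        add_zero]
    rw [← h1 u, h, h1 u']
  · intro y hy
    rw [Finset.mem_image] at hy
    obtain ⟨u, _, rfl⟩ := hy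
    refine ⟨d u, hd1 u, ?_⟩
    rw [cntd_append g (d u) (hd1 u) M N u hMN, mul_add]
    have := hd2 u
    omega

/-- digits of the real numbers of a cell -/
lemma cell_digit (g : ℕ) (hg : 2 ≤ g) (N : ℕ) (c0 : ℤ) (y : ℕ) (ξ : ℝ)
    (h1 : ((c0 * g ^ N + y : ℤ) : ℝ) / (g : ℝ) ^ (2 * N) ≤ ξ)
    (h2 : ξ < (((c0 * g ^ N + y : ℤ) : ℝ) + 1) / (g : ℝ) ^ (2 * N)) (k : ℕ) (hk : k < N) :
    ⌊ξ * (g : ℝ) ^ (2 * N - 1 - k + 1)⌋ % (g : ℤ) = ((y / g ^ k % g : ℕ) : ℤ) := by
  have hg0 : (0 : ℝ) < g := by exact_mod_cast (by omega : 0 < g)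
  have hG : (0 : ℝ) < (g : ℝ) ^ (2 * N) := by positivity
  rw [div_le_iff₀ hG] at h1
  rw [lt_div_iff₀ hG] at h2
  have hfl : ⌊ξ * (g : ℝ) ^ (2 * N)⌋ = c0 * g ^ N + y := by
    rw [Int.floor_eq_iff]
    exact ⟨h1, h2⟩
  have he : 2 * N - 1 - k + 1 = 2 * N - k := by omega
  rw [he]
  have hpow : (g : ℝ) ^ (2 * N) = (g : ℝ) ^ (2 * N - k) * (g : ℝ) ^ k := by
    rw [← pow_add]; congr 1; omega
  have h3 : ⌊ξ * (g : ℝ) ^ (2 * N - k)⌋ = (c0 * g ^ N + y) / ((g ^ k : ℕ) : ℤ) := by
    rw [← hfl, hpow, ← mul_assoc]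
    rw [← Int.floor_div_natCast]
    congr 1
    push_cast
    field_simp
  rw [h3]
  have h4 : (c0 * (g : ℤ) ^ N + (y : ℤ)) = (y : ℤ) + ((g ^ k : ℕ) : ℤ) * (c0 * g ^ (N - k)) := by
    have : (g : ℤ) ^ N = (g : ℤ) ^ k * (g : ℤ) ^ (N - k) := by rw [← pow_add]; congr 1; omega
    rw [this]; push_cast; ring
  rw [h4, Int.add_mul_ediv_left _ _ (by positivity)]
  have h5 : (g : ℤ) ^ (N - k) = g * (g : ℤ) ^ (N - k - 1) := by
    rw [← pow_succ']; congr 1; omega
  rw [h5]
  have h6 : c0 * ((g : ℤ) * (g : ℤ) ^ (N - k - 1)) = (g : ℤ) * (c0 * (g : ℤ) ^ (N - k - 1)) := by ring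
  rw [h6, Int.add_mul_emod_self_left]
  push_cast
  rfl

/-- counting digits on the block `[N, 2N)` -/
lemma block_count (g : ℕ) (hg : 2 ≤ g) (N : ℕ) (c0 : ℤ) (y : ℕ) (ξ : ℝ)
    (h1 : ((c0 * g ^ N + y : ℤ) : ℝ) / (g : ℝ) ^ (2 * N) ≤ ξ)
    (h2 : ξ < (((c0 * g ^ N + y : ℤ) : ℝ) + 1) / (g : ℝ) ^ (2 * N)) (d : ℕ) :
    ((Finset.Ico N (2 * N)).filter (fun j : ℕ => ⌊ξ * (g : ℝ) ^ (j + 1)⌋ % (g : ℤ) = (d : ℤ))).card =
      cntd g d N y := by
  unfold cntd
  symm
  apply Finset.card_bij (fun k _ => 2 * N - 1 - k)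
  · intro k hk
    rw [Finset.mem_filter, Finset.mem_range] at hk
    rw [Finset.mem_filter, Finset.mem_Ico]
    refine ⟨by omega, ?_⟩
    rw [cell_digit g hg N c0 y ξ h1 h2 k hk.1, hk.2]
  · intro a ha b hb hab
    rw [Finset.mem_filter, Finset.mem_range] at ha hb
    omega
  · intro j hj
    rw [Finset.mem_filter, Finset.mem_Ico] at hj
    refine ⟨2 * N - 1 - j, ?_, by omega⟩
    rw [Finset.mem_filter, Finset.mem_range]
    refine ⟨by omega, ?_⟩
    have h3 := cell_digit g hg N c0 y ξ h1 h2 (2 * N - 1 - j) (by omega)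
    have h4 : 2 * N - 1 - (2 * N - 1 - j) + 1 = j + 1 := by omega
    rw [h4, hj.2] at h3
    exact_mod_cast h3.symm

end Pool.Agent.W71
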