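import Mathlib
import Pool.Agent.W71.Stage3

/-! Purely real nondivergence on an interval, and its two sources of richness. -/

set_option autoImplicit false

open Polynomial Set MeasureTheory

namespace Pool.Agent.W71

open Pool.Agent.Helper404 (toP castQ Dt IB SB W W_ne_zero W_eq_Dt mu term Nm term_le exists_term
  term_nonneg Nm_nonneg nrm laplace rk rk_strict botS Nm_empty castQ_eq_zero Dt_natDegree
  lagrange_bound sublevel kmC kmC_nonneg Nm_cont)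

variable {n : ℕ}

lemma pt_zero_int (ℓ p : ℕ) : pt ℓ 0 p = ((-(p : ℤ) : ℤ) : ℚ) := by
  unfold pt; push_cast; ring

section
variable {ℓ : ℕ} [hp : Fact ℓ.Prime]

lemma one_le_Ux (hn : 1 ≤ n) (hℓ : (n + 1) * n < ℓ) (s : SB n) : 1 ≤ Ux ℓ (zb s) (pt ℓ 0 0) := by
  obtain ⟨p, -, h⟩ := padicA (ℓ := ℓ) (zb_ZB s) hℓ hn 0 (fun a => by simp) 0
  rw [pow_zero, one_pow, pt_zero_int] at h
  rw [pt_zero_int]
  have h1 := Ux_add_int (ℓ := ℓ) (zb s) 0 (-(p : ℤ))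
  have h2 := Ux_add_int (ℓ := ℓ) (zb s) 0 (-((0 : ℕ) : ℤ))
  rw [zero_add] at h1 h2
  rw [h2, ← h1]
  exact h

end

theorem real_level (hn : 1 ≤ n) (a l : ℝ) (hl : 0 < l) (t ρp ρd : ℝ) (hρp0 : 0 < ρp)
    (hρp1 : ρp ≤ 1) (hρd0 : 0 < ρd) (hρd1 : ρd ≤ 1)
    (hrich : ∀ s : SB n, 1 ≤ rk s → rk s ≤ n → ∃ z ∈ Ico a (a + l),
      ρp ^ (rk s) ≤ Nm (wt n t) (zb s) z ∧ ρd ^ (n + 1 - rk s) ≤ Nm (wt n t) (zb s) z)
    (ε₂ : ℝ) (hε₂ : 0 < ε₂) (hε₂1 : ε₂ ≤ 1) :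
    volume {z ∈ Ico a (a + l) | ¬ (OkP n z t (ε₂ * ρp / (4 * (n + 1))) ∧
        OkD n z t (ε₂ * ρd / (4 * (n + 1))))} ≤
      ENNReal.ofReal (2 * ((kmC (cR n) (n + 1) + (n + 1) * cR n) * ε₂ ^ (aR n))) *
        ENNReal.ofReal l := by
  classical
  obtain ⟨ℓ, hℓ, hℓp⟩ := Nat.exists_infinite_primes ((n + 1) * n + 1)
  haveI : Fact ℓ.Prime := ⟨hℓp⟩
  have hU := one_le_Ux (ℓ := ℓ) hn (by omega)
  have hbdd : ∀ s : SB n, BddAbove (Nm (wt n t) (zb s) '' Ico a (a + l)) := fun s =>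
    bddAbove_image (Nm_cont _ _) a l
  have hMP : MarkedAt (fun s : SB n => sSup (Nm (wt n t) (zb s) '' Ico a (a + l)) *
      (Ux ℓ (zb s) (pt ℓ 0 0) / ρp ^ (rk s))) {s : SB n | s.1 ≠ ⊥} 1 := by
    refine ⟨∅, empty_subset _, IsChain.empty, by simp, fun s hs _ => Or.inr ?_⟩
    have hs1 : 1 ≤ rk s := by
      rw [Nat.one_le_iff_ne_zero]; exact fun h => hs (rk_eq_zero_iff.1 h)
    have h1 : ρp ^ (rk s) ≤ sSup (Nm (wt n t) (zb s) '' Ico a (a + l)) := by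
      by_cases hs2 : rk s ≤ n
      · obtain ⟨z, hz, h, -⟩ := hrich s hs1 hs2
        exact h.trans (le_csSup (hbdd s) ⟨z, hz, rfl⟩)
      · have hs3 : s.1 = ⊤ := rk_eq_top (by have := rk_le s; omega)
        have h2 := top_norm (ℓ := ℓ) (wt n t) (wt_pos t) (wt_prod t) s hs3 a 0
        have h3 : (1 : ℝ) ≤ Nm (wt n t) (zb s) a * Ux ℓ (zb s) 0 := by rw [h2]
        have h4 : Ux ℓ (zb s) 0 ≤ 1 := by
          obtain ⟨I, hI⟩ := exists_Ux ℓ (zb s) 0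
          rw [hI]
          have h5 : dv (zb s) (fun b => (I b : ℕ)) (0 : ℚ) =
              ((dv (zb s) (fun b => (I b : ℕ)) (0 : ℤ) : ℤ) : ℚ) := dv_zero_int _ _
          rw [h5]; exact nl_int_le _
        have h6 : 1 ≤ Nm (wt n t) (zb s) a := by
          have h7 := Nm_nonneg _ (wt_pos t) (zb s) a
          nlinarith
        exact (pow_le_one₀ hρp0.le hρp1).trans (h6.trans (le_csSup (hbdd s)
          ⟨a, ⟨le_rfl, by linarith⟩, rfl⟩))
    simp only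
    rw [mul_div_assoc', one_le_div (by positivity)]
    calc ρp ^ (rk s) = ρp ^ (rk s) * 1 := (mul_one _).symm
      _ ≤ _ := mul_le_mul h1 (hU s) zero_le_one ((by positivity : (0 : ℝ) ≤ ρp ^ (rk s)).trans h1)
  have hMD : MarkedAt (fun s : SB n => sSup (Nm (wt n t) (zb s) '' Ico a (a + l)) *
      (Ux ℓ (zb s) (pt ℓ 0 0) / ρd ^ (n + 1 - rk s))) {s : SB n | s.1 ≠ ⊤} 1 := by
    refine ⟨∅, empty_subset _, IsChain.empty, by simp, fun s hs _ => Or.inr ?_⟩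
    have hs2 : rk s ≤ n := by
      by_contra hcon
      exact hs (rk_eq_top (by have := rk_le s; omega))
    have h1 : ρd ^ (n + 1 - rk s) ≤ sSup (Nm (wt n t) (zb s) '' Ico a (a + l)) := by
      by_cases hs1 : 1 ≤ rk s
      · obtain ⟨z, hz, -, h⟩ := hrich s hs1 hs2
        exact h.trans (le_csSup (hbdd s) ⟨z, hz, rfl⟩)
      · have hs3 : s.1 = ⊥ := rk_eq_zero_iff.1 (by omega)
        have h2 := bot_norm (ℓ := ℓ) (wt n t) s hs3 a 0
        have h4 : Ux ℓ (zb s) 0 ≤ 1 := by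
          obtain ⟨I, hI⟩ := exists_Ux ℓ (zb s) 0
          rw [hI]
          have h5 : dv (zb s) (fun b => (I b : ℕ)) (0 : ℚ) =
              ((dv (zb s) (fun b => (I b : ℕ)) (0 : ℤ) : ℤ) : ℚ) := dv_zero_int _ _
          rw [h5]; exact nl_int_le _
        have h6 : 1 ≤ Nm (wt n t) (zb s) a := by
          have h7 := Nm_nonneg _ (wt_pos t) (zb s) a
          nlinarith
        exact (pow_le_one₀ hρd0.le hρd1).trans (h6.trans (le_csSup (hbdd s)
          ⟨a, ⟨le_rfl, by linarith⟩, rfl⟩))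
    simp only
    rw [mul_div_assoc', one_le_div (by positivity)]
    calc ρd ^ (n + 1 - rk s) = ρd ^ (n + 1 - rk s) * 1 := (mul_one _).symm
      _ ≤ _ := mul_le_mul h1 (hU s) zero_le_one
        ((by positivity : (0 : ℝ) ≤ ρd ^ (n + 1 - rk s)).trans h1)
  have hcRn := cR_nonneg n
  have hkm := kmC_nonneg hcRn (n + 1)
  have hεα : 0 ≤ ε₂ ^ aR n := Real.rpow_nonneg hε₂.le _
  have h1 := two (fun (s : SB n) z => Nm (wt n t) (zb s) z) (fun s => Nm_cont _ _)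
    (fun s z => Nm_nonneg _ (wt_pos t) _ _) rk (fun s s' h => rk_strict s s' h)
    (cR n) (aR n) hcRn (fun s c' hc' a l hl hex ε hε =>
      real_good hn (wt n t) (wt_pos t) s c' hc' a l hl hex ε hε)
    (fun s => Ux ℓ (zb s) (pt ℓ 0 0) / ρp ^ (rk s))
    (fun s => div_nonneg (Ux_nonneg _ _) (by positivity)) {s : SB n | s.1 ≠ ⊥}
    (Finset.Icc 1 (n + 1)) (by
      intro s hs
      rw [Finset.mem_Icc]
      refine ⟨?_, rk_le s⟩
      rw [Nat.one_le_iff_ne_zero]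
      exact fun h => hs (rk_eq_zero_iff.1 h)) a l hl 1 ε₂ one_pos le_rfl hε₂ hε₂1 hMP
  have h2 := two (fun (s : SB n) z => Nm (wt n t) (zb s) z) (fun s => Nm_cont _ _)
    (fun s z => Nm_nonneg _ (wt_pos t) _ _) rk (fun s s' h => rk_strict s s' h)
    (cR n) (aR n) hcRn (fun s c' hc' a l hl hex ε hε =>
      real_good hn (wt n t) (wt_pos t) s c' hc' a l hl hex ε hε)
    (fun s => Ux ℓ (zb s) (pt ℓ 0 0) / ρd ^ (n + 1 - rk s))
    (fun s => div_nonneg (Ux_nonneg _ _) (by positivity)) {s : SB n | s.1 ≠ ⊤}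
    (Finset.Icc 0 n) (by
      intro s hs
      rw [Finset.mem_Icc]
      refine ⟨by omega, ?_⟩
      by_contra hcon
      exact hs (rk_eq_top (by have := rk_le s; omega))) a l hl 1 ε₂ one_pos le_rfl hε₂ hε₂1 hMD
  rw [Nat.card_Icc] at h1 h2
  simp only [Nat.add_sub_cancel, Nat.sub_zero, one_mul] at h1 h2
  push_cast at h1 h2
  have hz0 : ∀ z : ℝ, ((0 : ℕ) : ℝ) / (ℓ : ℝ) ^ 0 + z = z := by intro z; simp
  have hsub : {z ∈ Ico a (a + l) | ¬ (OkP n z t (ε₂ * ρp / (4 * (n + 1))) ∧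
        OkD n z t (ε₂ * ρd / (4 * (n + 1))))} ⊆
      {z ∈ Ico a (a + l) | ¬ Mk (fun s : SB n => Nm (wt n t) (zb s) z *
        (Ux ℓ (zb s) (pt ℓ 0 0) / ρp ^ (rk s))) {s : SB n | s.1 ≠ ⊥} (ε₂ / 2)} ∪
      {z ∈ Ico a (a + l) | ¬ Mk (fun s : SB n => Nm (wt n t) (zb s) z *
        (Ux ℓ (zb s) (pt ℓ 0 0) / ρd ^ (n + 1 - rk s))) {s : SB n | s.1 ≠ ⊤} (ε₂ / 2)} := by
    rintro z ⟨hz, hz'⟩
    by_contra hcon
    rw [mem_union, not_or] at hcon
    apply hz'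
    have hn1 : (0 : ℝ) < (n : ℝ) + 1 := by positivity
    constructor
    · rw [← hz0 z]
      refine okP_of_Mk 0 0 z t ρp (ε₂ / 2) _ hρp0 ?_ ?_
      · by_contra h; exact hcon.1 ⟨hz, h⟩
      · have h3 : ε₂ * ρp / (4 * ((n : ℝ) + 1)) * (n + 1) = (1 / 4) * (ε₂ * ρp) := by
          field_simp
        rw [h3]
        have h4 : 0 < ε₂ * ρp := by positivity
        linarith
    · rw [← hz0 z]
      refine okD_of_Mk 0 0 z t ρd (ε₂ / 2) _ hρd0 ?_ ?_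
      · by_contra h; exact hcon.2 ⟨hz, h⟩
      · have h3 : ε₂ * ρd / (4 * ((n : ℝ) + 1)) * (n + 1) = (1 / 4) * (ε₂ * ρd) := by
          field_simp
        rw [h3]
        have h4 : 0 < ε₂ * ρd := by positivity
        linarith
  refine (measure_mono hsub).trans ((measure_union_le _ _).trans ((add_le_add h1 h2).trans ?_))
  rw [← add_mul, ← ENNReal.ofReal_add (by positivity) (by positivity)]
  refine le_of_eq ?_
  congr 2
  ring

end Pool.Agent.W71
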