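import Mathlib
import Pool.Agent.W71.Real1

/-! Two sources of richness for a fixed real interval. -/

set_option autoImplicit false

open Polynomial Set MeasureTheory

namespace Pool.Agent.W71

open Pool.Agent.Helper404 (toP castQ Dt IB SB W W_ne_zero W_eq_Dt mu term Nm term_le exists_term
  term_nonneg Nm_nonneg nrm laplace rk rk_strict botS Nm_empty castQ_eq_zero Dt_natDegree
  lagrange_bound sublevel kmC kmC_nonneg Nm_cont)

variable {n : ℕ}

/-- a nonzero integer polynomial is large somewhere on any interval -/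
lemma exists_large_int (D : ℕ) (F : ℤ[X]) (hF : F ≠ 0) (hD : F.natDegree ≤ D) (a l : ℝ)
    (hl : 0 < l) (hl1 : l ≤ 1) :
    ∃ z ∈ Ico a (a + l), (((D : ℝ) + 1) * (((D : ℝ) + 2) * (D + 1) / l) ^ D)⁻¹ ≤
      |(F.map (Int.castRingHom ℝ)).eval z| := by
  classical
  have hD1 : (0 : ℝ) < (D : ℝ) + 1 := by positivity
  -- an integer point where the polynomial does not vanish
  obtain ⟨i0, hi0, hne⟩ : ∃ i0 : ℕ, i0 ≤ D ∧ F.eval (⌊a⌋ + (i0 : ℤ)) ≠ 0 := by
    by_contra hcon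
    push Not at hcon
    have hsub : (Finset.range (D + 1)).image (fun i : ℕ => ⌊a⌋ + (i : ℤ)) ⊆ F.roots.toFinset := by
      intro z hz
      rw [Finset.mem_image] at hz
      obtain ⟨i, hi, rfl⟩ := hz
      rw [Multiset.mem_toFinset, mem_roots hF]
      exact hcon i (by rw [Finset.mem_range] at hi; omega)
    have h1 := Finset.card_le_card hsub
    have h2 := (Multiset.toFinset_card_le F.roots).trans ((card_roots' _).trans hD)
    rw [Finset.card_image_of_injective _ (fun x y hxy => by simpa using hxy), Finset.card_range] at h1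
    omega
  set x0 : ℝ := ((⌊a⌋ + (i0 : ℤ) : ℤ) : ℝ) with hx0
  have hval : 1 ≤ |(F.map (Int.castRingHom ℝ)).eval x0| := by
    have h1 : (F.map (Int.castRingHom ℝ)).eval x0 = ((F.eval (⌊a⌋ + (i0 : ℤ)) : ℤ) : ℝ) := by
      rw [hx0]; exact Polynomial.eval_intCast_map (Int.castRingHom ℝ) F _
    rw [h1]
    exact_mod_cast Int.one_le_abs hne
  set pts : Finset ℝ := (Finset.range (D + 1)).image (fun i : ℕ => a + (i : ℝ) * (l / (D + 1)))
    with hpts
  have hstep : 0 < l / ((D : ℝ) + 1) := by positivity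
  have hinj : Function.Injective (fun i : ℕ => a + (i : ℝ) * (l / ((D : ℝ) + 1))) := by
    intro x y hxy
    simp only at hxy
    have h1 : (x : ℝ) * (l / ((D : ℝ) + 1)) = (y : ℝ) * (l / ((D : ℝ) + 1)) := by linarith
    exact_mod_cast mul_right_cancel₀ hstep.ne' h1
  have hcard : pts.card = D + 1 := by
    rw [hpts, Finset.card_image_of_injective _ hinj, Finset.card_range]
  have hmem : ∀ x ∈ pts, x ∈ Ico a (a + l) := by
    intro x hx
    rw [hpts, Finset.mem_image] at hx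
    obtain ⟨i, hi, rfl⟩ := hx
    rw [Finset.mem_range] at hi
    have hi' : (i : ℝ) < (D : ℝ) + 1 := by exact_mod_cast hi
    have h1 : (i : ℝ) * (l / ((D : ℝ) + 1)) < l := by
      rw [mul_div_assoc', div_lt_iff₀ hD1]
      nlinarith
    have h2 : 0 ≤ (i : ℝ) * (l / ((D : ℝ) + 1)) := by positivity
    exact ⟨by linarith, by linarith⟩
  obtain ⟨z, hz, hzmax⟩ := Finset.exists_max_image pts
    (fun x => |(F.map (Int.castRingHom ℝ)).eval x|) (Finset.card_pos.1 (by omega))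
  refine ⟨z, hmem z hz, ?_⟩
  have h := lagrange_bound D (F.map (Int.castRingHom ℝ)) (natDegree_map_le.trans hD) pts hcard
    (l / (D + 1)) ((D : ℝ) + 2) (|(F.map (Int.castRingHom ℝ)).eval z|) x0 hstep
    (by
      rw [div_le_iff₀ hD1]
      have : (0 : ℝ) ≤ D := Nat.cast_nonneg D
      nlinarith)
    (by
      intro x hx y hy hxy
      rw [hpts, Finset.mem_image] at hx hy
      obtain ⟨i, hi, rfl⟩ := hx
      obtain ⟨i', hi', rfl⟩ := hy
      have hne : i ≠ i' := fun h => hxy (by rw [h])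
      have e : a + (i : ℝ) * (l / (D + 1)) - (a + (i' : ℝ) * (l / (D + 1))) =
          (((i : ℤ) - (i' : ℤ) : ℤ) : ℝ) * (l / (D + 1)) := by push_cast; ring
      rw [e, abs_mul, abs_of_pos hstep]
      have h1 : (1 : ℝ) ≤ |(((i : ℤ) - (i' : ℤ) : ℤ) : ℝ)| := by
        have h3 : (i : ℤ) - (i' : ℤ) ≠ 0 := by omega
        rw [← Int.cast_abs]
        exact_mod_cast Int.one_le_abs h3
      nlinarith)
    (by
      intro x hx
      have h1 := hmem x hx
      have h2 := Int.floor_le a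
      have h3 := Int.lt_floor_add_one a
      have h4 : (i0 : ℝ) ≤ D := by exact_mod_cast hi0
      have h5 : (0 : ℝ) ≤ i0 := Nat.cast_nonneg _
      rw [abs_le, hx0]
      push_cast
      constructor <;> linarith [h1.1, h1.2])
    (fun x hx => hzmax x hx)
  have e : ((D : ℝ) + 2) / (l / ((D : ℝ) + 1)) = ((D : ℝ) + 2) * (D + 1) / l := by field_simp
  rw [e] at h
  have hpos : 0 < ((D : ℝ) + 1) * (((D : ℝ) + 2) * (D + 1) / l) ^ D := by positivity
  rw [inv_le_iff_one_le_mul₀ hpos]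
  calc (1 : ℝ) ≤ |(F.map (Int.castRingHom ℝ)).eval x0| := hval
    _ ≤ _ := h
    _ = _ := by ring

lemma rich_fixed (_hn : 1 ≤ n) (a l : ℝ) (hl : 0 < l) (hl1 : l ≤ 1) :
    ∃ c : ℝ, 0 < c ∧ c ≤ 1 ∧ ∀ t : ℝ, 0 ≤ t → ∀ s : SB n, 1 ≤ rk s → rk s ≤ n →
      ∃ z ∈ Ico a (a + l), c ≤ Nm (wt n t) (zb s) z := by
  set D := (n + 1) * n with hD
  refine ⟨(((D : ℝ) + 1) * (((D : ℝ) + 2) * (D + 1) / l) ^ D)⁻¹, by positivity, ?_, ?_⟩
  · apply inv_le_one_of_one_le₀
    have h0 : (0 : ℝ) ≤ D := Nat.cast_nonneg D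
    have h1 : (1 : ℝ) ≤ ((D : ℝ) + 2) * (D + 1) / l := by
      rw [le_div_iff₀ hl]; nlinarith
    have h2 : (1 : ℝ) ≤ (((D : ℝ) + 2) * (D + 1) / l) ^ D := one_le_pow₀ h1
    nlinarith
  · intro t ht s hs1 hsn
    have key : ∀ (J : ℕ) (v : Fin J → Fin (n + 1) → ℤ), ZB s.1 J v → J = rk s →
        ∃ z ∈ Ico a (a + l), (((D : ℝ) + 1) * (((D : ℝ) + 2) * (D + 1) / l) ^ D)⁻¹ ≤
          Nm (wt n t) v z := by
      intro J v hv hJ
      obtain ⟨j, rfl⟩ : ∃ j, J = j + 1 := ⟨J - 1, by omega⟩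
      have hjn : j + 1 ≤ n + 1 := by omega
      have hW := W_ne_zero v hv.1.1
      have hWd : (W v).natDegree ≤ D := by
        rw [W_eq_Dt]
        exact (Dt_natDegree _ _).trans (Nat.mul_le_mul_right _ hjn)
      obtain ⟨z, hz, hz1⟩ := exists_large_int D (W v) hW hWd a l hl hl1
      refine ⟨z, hz, ?_⟩
      have h1 := term_le (wt n t) v z (fun b => Fin.castLE hjn b)
      unfold term at h1
      have hprod : ∏ b : Fin (j + 1), wt n t (Fin.castLE hjn b) ≤ 1 := by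
        refine (prod_wt_le' t ht (fun b => Fin.castLE hjn b) 0 rfl).trans ?_
        rw [← Real.exp_nat_mul, ← Real.exp_add, Real.exp_le_one_iff]
        have : (j : ℝ) ≤ n := by exact_mod_cast (by omega : j ≤ n)
        nlinarith
      have hpos : 0 < ∏ b : Fin (j + 1), wt n t (Fin.castLE hjn b) :=
        Finset.prod_pos (fun _ _ => wt_pos t _)
      rw [div_le_iff₀ hpos] at h1
      have h2 : (Dt v fun b => ((Fin.castLE hjn b : Fin (n + 1)) : ℕ)) = W v := by
        rw [W_eq_Dt]; rfl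
      rw [h2] at h1
      have h3 := Nm_nonneg _ (wt_pos t) v z
      calc _ ≤ |(map (Int.castRingHom ℝ) (W v)).eval z| := hz1
        _ ≤ Nm (wt n t) v z * ∏ b : Fin (j + 1), wt n t (Fin.castLE hjn b) := h1
        _ ≤ Nm (wt n t) v z * 1 := mul_le_mul_of_nonneg_left hprod h3
        _ = _ := mul_one _
    exact key (zd s) (zb s) (zb_ZB s) (zd_eq s)

/-- covolumes at a good point -/
lemma rich_point (ξ t κ : ℝ) (hκ : 0 < κ) (h : OkP n ξ t κ) (s : SB n) (hs1 : 1 ≤ rk s) :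
    (κ / (2 * (n + 1))) ^ (rk s) ≤ Nm (wt n t) (zb s) ξ := by
  have key : ∀ (J : ℕ) (v : Fin J → Fin (n + 1) → ℤ), ZB s.1 J v → J = rk s →
      (κ / (2 * (n + 1))) ^ (rk s) ≤ Nm (wt n t) v ξ := by
    intro J v hv hJ
    rw [← hJ]
    obtain ⟨j, rfl⟩ : ∃ j, J = j + 1 := ⟨J - 1, by omega⟩
    have hjn : j + 1 ≤ n + 1 := by rw [hJ]; exact rk_le s
    have hΔ := Nm_pos (wt n t) (wt_pos t) v hv.1.1 ξ
    set Δ := Nm (wt n t) v ξ with hΔd
    obtain ⟨c, hc0, hc⟩ := mink_tuple (wt n t) (wt_pos t) v ξ hΔ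
    rw [← hΔd] at hc
    have hu : ∑ a, c a • v a ≠ 0 := by
      intro h0
      apply hc0
      have h1 : ∑ a, (c a : ℚ) • castQ (v a) = 0 := by
        rw [← castQ_sum, h0]; ext i; simp [castQ]
      have h2 := Fintype.linearIndependent_iff.1 hv.1.1 (fun a => (c a : ℚ)) h1
      funext a
      have := h2 a
      simpa using this
    obtain ⟨k, hk⟩ := h _ hu
    have h1 := hc k
    rw [nrm_eq, div_le_iff₀ (wt_pos t k)] at h1
    have h2 : κ ≤ ((j : ℝ) + 1) * (2 * Δ ^ (1 / ((j + 1 : ℕ) : ℝ))) :=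
      le_of_mul_le_mul_right (hk.trans h1) (wt_pos t k)
    have h3 : κ / (2 * (n + 1)) ≤ Δ ^ (1 / ((j + 1 : ℕ) : ℝ)) := by
      rw [div_le_iff₀ (by positivity)]
      have h4 : (j : ℝ) + 1 ≤ n + 1 := by exact_mod_cast hjn
      have h5 := Real.rpow_nonneg hΔ.le (1 / ((j + 1 : ℕ) : ℝ))
      nlinarith
    calc (κ / (2 * (n + 1))) ^ (j + 1) ≤ (Δ ^ (1 / ((j + 1 : ℕ) : ℝ))) ^ (j + 1) :=
          pow_le_pow_left₀ (by positivity) h3 _
      _ = Δ := by
        rw [← Real.rpow_natCast, ← Real.rpow_mul hΔ.le, one_div_mul_cancel (by positivity),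
          Real.rpow_one]
  exact key (zd s) (zb s) (zb_ZB s) (zd_eq s)

end Pool.Agent.W71
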