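import Mathlib
import Pool.Agent.W71.Real2

/-! All large times, on a real interval. -/

set_option autoImplicit false

open Polynomial Set MeasureTheory

namespace Pool.Agent.W71

open Pool.Agent.Helper404 (toP castQ Dt IB SB W W_ne_zero W_eq_Dt mu term Nm term_le exists_term
  term_nonneg Nm_nonneg nrm laplace rk rk_strict botS Nm_empty castQ_eq_zero Dt_natDegree
  lagrange_bound sublevel kmC kmC_nonneg Nm_cont)

variable {n : ℕ}

/-- countable union bound with a geometric majorant -/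
lemma union_geom (a l K φ : ℝ) (hK : 0 ≤ K) (hφ0 : 0 < φ) (hφ1 : φ < 1) (_hl : 0 < l) (T : ℕ)
    (P : ℕ → ℝ → Prop) (h : ∀ t : ℕ, T ≤ t → volume {z ∈ Ico a (a + l) | ¬ P t z} ≤
      ENNReal.ofReal (K * φ ^ t) * ENNReal.ofReal l) :
    volume {z ∈ Ico a (a + l) | ¬ ∀ t : ℕ, T ≤ t → P t z} ≤
      ENNReal.ofReal (K / (1 - φ) * φ ^ T) * ENNReal.ofReal l := by
  have hsub : {z ∈ Ico a (a + l) | ¬ ∀ t : ℕ, T ≤ t → P t z} ⊆
      ⋃ i : ℕ, {z ∈ Ico a (a + l) | ¬ P (T + i) z} := by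
    rintro z ⟨hz, hz'⟩
    push Not at hz'
    obtain ⟨t, ht, htP⟩ := hz'
    rw [mem_iUnion]
    refine ⟨t - T, hz, ?_⟩
    rwa [Nat.add_sub_cancel' ht]
  have hsum : HasSum (fun i : ℕ => K * φ ^ (T + i)) (K / (1 - φ) * φ ^ T) := by
    have h1 := (hasSum_geometric_of_lt_one hφ0.le hφ1).mul_left (K * φ ^ T)
    have h2 : K * φ ^ T * (1 - φ)⁻¹ = K / (1 - φ) * φ ^ T := by ring
    have h3 : (fun i : ℕ => K * φ ^ T * φ ^ i) = (fun i : ℕ => K * φ ^ (T + i)) := by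
      funext i; rw [pow_add]; ring
    rwa [h2, h3] at h1
  calc volume {z ∈ Ico a (a + l) | ¬ ∀ t : ℕ, T ≤ t → P t z}
      ≤ ∑' i : ℕ, volume {z ∈ Ico a (a + l) | ¬ P (T + i) z} :=
        (measure_mono hsub).trans (measure_iUnion_le _)
    _ ≤ ∑' i : ℕ, ENNReal.ofReal (K * φ ^ (T + i)) * ENNReal.ofReal l :=
        ENNReal.tsum_le_tsum (fun i => h _ (Nat.le_add_right _ _))
    _ = _ := by
        rw [ENNReal.tsum_mul_right]
        congr 1
        rw [← ENNReal.ofReal_tsum_of_nonneg (fun i => by positivity) hsum.summable, hsum.tsum_eq]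

theorem stage_gen (hn : 1 ≤ n) (c0 lam κ : ℝ) (hc0 : 0 < c0) (hc01 : c0 ≤ 1) (hlam : 0 ≤ lam)
    (hκ : lam < κ) : ∃ (C γ : ℝ) (T0 : ℕ), 0 < C ∧ γ = aR n * (κ - lam) ∧ ∀ a l : ℝ, 0 < l →
      ∀ T : ℕ, T0 ≤ T → (∀ t : ℕ, T ≤ t → ∀ s : SB n, 1 ≤ rk s → rk s ≤ n → ∃ z ∈ Ico a (a + l),
        (c0 * Real.exp (-(lam * t))) ^ (rk s) ≤ Nm (wt n t) (zb s) z ∧
        (c0 * Real.exp (-(lam * t))) ^ (n + 1 - rk s) ≤ Nm (wt n t) (zb s) z) →
      volume {z ∈ Ico a (a + l) | ¬ Okk n 0 0 κ T z} ≤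
        ENNReal.ofReal (C * Real.exp (-(γ * T))) * ENNReal.ofReal l := by
  have hκl : 0 < κ - lam := by linarith
  have hn0 : (0 : ℝ) < (n : ℝ) + 1 := by positivity
  have hα0 : 0 < aR n := by
    unfold aR
    have : (0 : ℝ) < (((n + 1) * n : ℕ) : ℝ) := by
      have : 0 < (n + 1) * n := by nlinarith
      exact_mod_cast this
    positivity
  set K0 : ℝ := 4 * (n + 1) / c0 with hK0
  have hK00 : 0 < K0 := by positivity
  obtain ⟨T0, hT0⟩ := exists_nat_ge (Real.log K0 / (κ - lam))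
  set φ := Real.exp (-(aR n * (κ - lam))) with hφ
  have hφ0 : 0 < φ := Real.exp_pos _
  have hφ1 : φ < 1 := by
    rw [hφ, Real.exp_lt_one_iff]
    have : 0 < aR n * (κ - lam) := by positivity
    linarith
  have hcRn := cR_nonneg n
  have hkm := kmC_nonneg hcRn (n + 1)
  set K : ℝ := 2 * ((kmC (cR n) (n + 1) + (n + 1) * cR n) * K0 ^ (aR n)) + 1 with hK
  have hKpos : 0 < K := by
    have := Real.rpow_nonneg hK00.le (aR n)
    positivity
  refine ⟨K / (1 - φ), aR n * (κ - lam), T0, div_pos hKpos (by linarith), rfl, ?_⟩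
  intro a l hl T hT hrich
  have hexpT : Real.exp (-(aR n * (κ - lam) * T)) = φ ^ T := by
    rw [hφ, ← Real.exp_nat_mul]; congr 1; ring
  rw [hexpT]
  apply union_geom a l K φ hKpos.le hφ0 hφ1 hl T (fun t z =>
    OkP n z t (Real.exp (-((0 + κ) * t))) ∧ OkD n z t (Real.exp (-((0 + κ) * t))))
  intro t ht
  have ht0 : (0 : ℝ) ≤ t := Nat.cast_nonneg t
  set ρ := c0 * Real.exp (-(lam * t)) with hρ
  have hρ0 : 0 < ρ := by positivity
  have hρ1 : ρ ≤ 1 := by
    apply mul_le_one₀ hc01 (Real.exp_pos _).le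
    rw [Real.exp_le_one_iff]
    have := mul_nonneg hlam ht0
    linarith
  set ε₂ := K0 * Real.exp (-((κ - lam) * t)) with hε₂
  have hε₂0 : 0 < ε₂ := by positivity
  have hε₂1 : ε₂ ≤ 1 := by
    have h1 : Real.log K0 ≤ (κ - lam) * t := by
      have h2 : (T0 : ℝ) ≤ t := by exact_mod_cast hT.trans ht
      have h3 := hT0.trans h2
      rw [div_le_iff₀ hκl] at h3
      linarith
    calc ε₂ = Real.exp (Real.log K0) * Real.exp (-((κ - lam) * t)) := by
          rw [hε₂, Real.exp_log hK00]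
      _ = Real.exp (Real.log K0 - (κ - lam) * t) := by rw [← Real.exp_add]; congr 1
      _ ≤ 1 := by rw [Real.exp_le_one_iff]; linarith
  have h1 := real_level hn a l hl t ρ ρ hρ0 hρ1 hρ0 hρ1 (hrich t ht) ε₂ hε₂0 hε₂1
  have h2 : ε₂ * ρ / (4 * (n + 1)) = Real.exp (-((0 + κ) * t)) := by
    have h3 : Real.exp (-((0 + κ) * t)) = Real.exp (-((κ - lam) * t)) * Real.exp (-(lam * t)) := by
      rw [← Real.exp_add]; congr 1; ring
    rw [h3, hε₂, hρ, hK0]
    field_simp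
  rw [h2] at h1
  refine h1.trans ?_
  apply mul_le_mul_left
  apply ENNReal.ofReal_le_ofReal
  have h4 : ε₂ ^ (aR n) = K0 ^ (aR n) * φ ^ t := by
    rw [hε₂, Real.mul_rpow hK00.le (Real.exp_pos _).le, ← Real.exp_mul, hφ, ← Real.exp_nat_mul]
    congr 2
    ring
  rw [h4, hK]
  have h5 : 0 < φ ^ t := by positivity
  have h6 : 2 * ((kmC (cR n) (n + 1) + (n + 1) * cR n) * (K0 ^ (aR n) * φ ^ t)) =
    (2 * ((kmC (cR n) (n + 1) + (n + 1) * cR n) * K0 ^ (aR n))) * φ ^ t := by ring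
  rw [h6]
  apply mul_le_mul_of_nonneg_right _ h5.le
  linarith

theorem stage_fixed (hn : 1 ≤ n) (a l : ℝ) (hl : 0 < l) (hl1 : l ≤ 1) (ε δ : ℝ) (hε : 0 < ε)
    (hδ : 0 < δ) : ∃ T0 : ℕ, ∀ T : ℕ, T0 ≤ T → volume {z ∈ Ico a (a + l) | ¬ Okk n 0 0 ε T z} ≤
      ENNReal.ofReal δ * ENNReal.ofReal l := by
  obtain ⟨c, hc, hc1, hrich⟩ := rich_fixed hn a l hl hl1
  obtain ⟨C, γ, T0, hC, hγ, h⟩ := stage_gen hn c 0 ε hc hc1 le_rfl hε
  have hγ0 : 0 < γ := by
    rw [hγ]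
    have : 0 < aR n := by
      unfold aR
      have : (0 : ℝ) < (((n + 1) * n : ℕ) : ℝ) := by
        have : 0 < (n + 1) * n := by nlinarith
        exact_mod_cast this
      positivity
    have h2 : 0 < ε - 0 := by linarith
    positivity
  obtain ⟨T1, hT1⟩ := exists_nat_ge (Real.log (C / δ) / γ)
  refine ⟨max T0 T1, fun T hT => ?_⟩
  have h1 := h a l hl T ((le_max_left _ _).trans hT) (by
    intro t _ s hs1 hsn
    obtain ⟨z, hz, hz'⟩ := hrich t (Nat.cast_nonneg t) s hs1 hsn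
    have h2 : c * Real.exp (-(0 * (t : ℝ))) = c := by simp
    rw [h2]
    have hpow : ∀ k : ℕ, 1 ≤ k → c ^ k ≤ c := by
      intro k hk
      calc c ^ k ≤ c ^ 1 := pow_le_pow_of_le_one hc.le hc1 hk
        _ = c := pow_one c
    exact ⟨z, hz, (hpow _ hs1).trans hz', (hpow _ (by omega)).trans hz'⟩)
  refine h1.trans ?_
  apply mul_le_mul_left
  apply ENNReal.ofReal_le_ofReal
  have h3 : Real.log (C / δ) ≤ γ * T := by
    have h4 : (T1 : ℝ) ≤ T := by exact_mod_cast (le_max_right _ _).trans hT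
    have h5 := hT1.trans h4
    rw [div_le_iff₀ hγ0] at h5
    linarith
  have h6 : C / δ ≤ Real.exp (γ * T) := by
    rw [← Real.log_le_iff_le_exp (by positivity)]; exact h3
  rw [Real.exp_neg, ← div_eq_mul_inv, div_le_iff₀ (Real.exp_pos _)]
  rw [div_le_iff₀ hδ] at h6
  linarith

/-- near a good point all large times are good with a uniform rate -/
theorem stage_point (hn : 1 ≤ n) (κ : ℝ) (hκ : 0 < κ) : ∃ (ε C γ : ℝ) (T0 : ℕ), 0 < ε ∧ 0 < C ∧
    0 < γ ∧ ∀ a l : ℝ, 0 < l → ∀ ξ ∈ Ico a (a + l), ∀ T : ℕ, T0 ≤ T → Okk n 0 0 ε T ξ →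
      volume {z ∈ Ico a (a + l) | ¬ Okk n 0 0 κ T z} ≤
        ENNReal.ofReal (C * Real.exp (-(γ * T))) * ENNReal.ofReal l := by
  have hn0 : (0 : ℝ) < n := by exact_mod_cast hn
  set ε := κ / (2 * n) with hε
  have hε0 : 0 < ε := by positivity
  have hnε : n * ε = κ / 2 := by rw [hε]; field_simp
  obtain ⟨C, γ, T0, hC, hγ, h⟩ := stage_gen hn ((1 / (2 * ((n : ℝ) + 1))) ^ n) (n * ε) κ
    (by positivity) (pow_le_one₀ (by positivity) (by
      rw [div_le_one (by positivity)]; linarith)) (by positivity) (by rw [hnε]; linarith)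
  have hγ0 : 0 < γ := by
    rw [hγ]
    have h1 : 0 < aR n := by
      unfold aR
      have : (0 : ℝ) < (((n + 1) * n : ℕ) : ℝ) := by
        have : 0 < (n + 1) * n := by nlinarith
        exact_mod_cast this
      positivity
    have h2 : 0 < κ - n * ε := by rw [hnε]; linarith
    positivity
  refine ⟨ε, C, γ, T0, hε0, hC, hγ0, ?_⟩
  intro a l hl ξ hξ T hT hok
  apply h a l hl T hT
  intro t ht s hs1 hsn
  refine ⟨ξ, hξ, ?_⟩
  have h1 := rich_point ξ t _ (Real.exp_pos _) (hok t ht).1 s hs1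
  set x : ℝ := Real.exp (-((0 + ε) * t)) / (2 * (n + 1)) with hx
  have ht0 : (0 : ℝ) ≤ t := Nat.cast_nonneg t
  have hx0 : 0 < x := by positivity
  have hx1 : x ≤ 1 := by
    rw [hx, div_le_one (by positivity)]
    have : Real.exp (-((0 + ε) * t)) ≤ 1 := by
      rw [Real.exp_le_one_iff]
      have := mul_nonneg hε0.le ht0
      linarith
    linarith
  have h2 : (1 / (2 * ((n : ℝ) + 1))) ^ n * Real.exp (-(n * ε * t)) = x ^ n := by
    rw [hx, div_pow, div_pow, one_pow, ← Real.exp_nat_mul]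
    have h3 : (n : ℝ) * -((0 + ε) * t) = -(n * ε * t) := by ring
    rw [h3]
    ring
  rw [h2]
  constructor
  · refine le_trans ?_ h1
    rw [← pow_mul]
    exact pow_le_pow_of_le_one hx0.le hx1 (Nat.le_mul_of_pos_left _ (by omega))
  · refine le_trans ?_ h1
    rw [← pow_mul]
    refine pow_le_pow_of_le_one hx0.le hx1 ?_
    calc rk s ≤ n := hsn
      _ = n * 1 := (mul_one n).symm
      _ ≤ n * (n + 1 - rk s) := Nat.mul_le_mul_left _ (by omega)

end Pool.Agent.W71
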