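import Mathlib
import Pool.Agent.W71.Nest4
import Pool.Agent.W71.Real3
import Pool.Agent.W71.Bias1

/-! A step that biases the digits in base `g` while keeping all flows bounded below. -/

set_option autoImplicit false

open Polynomial Set MeasureTheory

namespace Pool.Agent.W71

variable {n : ℕ}

theorem bias_step (hn : 1 ≤ n) (κ : ℝ) (hκ : 0 < κ) (g : ℕ) (hg : 2 ≤ g) :
    ∃ K : ℕ, 1 ≤ K ∧ ∀ a l : ℝ, 0 < l → l ≤ 1 → ∀ Bad : Set ℝ,
      volume {z ∈ Ico a (a + l) | z ∈ Bad} ≤ ENNReal.ofReal (3 * l / 4) → ∀ N0 : ℕ,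
      ∃ (N T : ℕ) (a' l' ξ0 : ℝ), N0 ≤ N ∧ 0 < l' ∧ l' ≤ 1 ∧ a ≤ a' ∧ a' + l' ≤ a + l ∧
        ξ0 ∉ Bad ∧ (∀ ξ ∈ Icc a' (a' + l'), |ξ0 - ξ| ≤ 1 / (g : ℝ) ^ N) ∧
        Real.exp ((n + 1) * T) ≤ (g : ℝ) ^ N ∧
        volume {z ∈ Ico a' (a' + l') | ¬ Okk n 0 0 κ T z} ≤ ENNReal.ofReal (l' / 2) ∧
        ∀ ξ ∈ Icc a' (a' + l'), ∃ d, d < g ∧ g * (N / K) + (N - N / K) ≤
          g * ((Finset.Ico N (2 * N)).filter
            (fun j : ℕ => ⌊ξ * (g : ℝ) ^ (j + 1)⌋ % (g : ℤ) = (d : ℤ))).card := by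
  classical
  obtain ⟨ε, C, γ, T0, hε, hC, hγ, hpt⟩ := stage_point hn κ hκ
  have hn1 : (0 : ℝ) < (n : ℝ) + 1 := by positivity
  obtain ⟨K0, hK0⟩ := exists_nat_ge (2 * ((n : ℝ) + 1) / γ)
  have hgR : (1 : ℝ) < g := by exact_mod_cast (by omega : 1 < g)
  have hg0 : (0 : ℝ) < g := by linarith
  set L := Real.log g with hL
  have hL0 : 0 < L := Real.log_pos hgR
  have hpowexp : ∀ k : ℕ, (g : ℝ) ^ k = Real.exp (k * L) := by
    intro k
    rw [Real.exp_nat_mul, hL, Real.exp_log hg0]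
  refine ⟨K0 + 1, by omega, ?_⟩
  intro a l hl hl1 Bad hBad N0
  obtain ⟨T1, hT1⟩ := stage_fixed hn a l hl hl1 ε (1 / 16) hε (by norm_num)
  have hT1' := hT1 T1 le_rfl
  -- the good point
  obtain ⟨ξ0, hξa, hξb, hξBad, hξok⟩ : ∃ ξ0, a + l / 32 ≤ ξ0 ∧ ξ0 < a + l - l / 32 ∧ ξ0 ∉ Bad ∧
      Okk n 0 0 ε T1 ξ0 := by
    by_contra hcon
    push Not at hcon
    have hcover : Ico a (a + l) ⊆ ({z ∈ Ico a (a + l) | z ∈ Bad} ∪
        {z ∈ Ico a (a + l) | ¬ Okk n 0 0 ε T1 z}) ∪ (Ico a (a + l / 32) ∪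
        Ico (a + l - l / 32) (a + l)) := by
      intro z hz
      by_cases h1 : a + l / 32 ≤ z
      · by_cases h2 : z < a + l - l / 32
        · by_cases h3 : z ∈ Bad
          · exact Or.inl (Or.inl ⟨hz, h3⟩)
          · exact Or.inl (Or.inr ⟨hz, hcon z h1 h2 h3⟩)
        · exact Or.inr (Or.inr ⟨not_lt.1 h2, hz.2⟩)
      · exact Or.inr (Or.inl ⟨hz.1, not_le.1 h1⟩)
    have hvol : ENNReal.ofReal l ≤ ENNReal.ofReal (3 * l / 4 + 1 / 16 * l + (l / 32 + l / 32)) := by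
      calc ENNReal.ofReal l = volume (Ico a (a + l)) := by rw [Real.volume_Ico]; congr 1; ring
        _ ≤ (ENNReal.ofReal (3 * l / 4) + ENNReal.ofReal (1 / 16 * l)) +
            (ENNReal.ofReal (l / 32) + ENNReal.ofReal (l / 32)) := by
          refine (measure_mono hcover).trans ((measure_union_le _ _).trans (add_le_add
            ((measure_union_le _ _).trans (add_le_add hBad ?_)) ((measure_union_le _ _).trans
            (add_le_add ?_ ?_))))
          · refine hT1'.trans (le_of_eq ?_)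
            rw [← ENNReal.ofReal_mul (by norm_num)]
          · rw [Real.volume_Ico]; apply le_of_eq; congr 1; ring
          · rw [Real.volume_Ico]; apply le_of_eq; congr 1; ring
        _ = _ := by
          rw [← ENNReal.ofReal_add (by positivity) (by positivity),
            ← ENNReal.ofReal_add (by positivity) (by positivity),
            ← ENNReal.ofReal_add (by positivity) (by positivity)]
    rw [ENNReal.ofReal_le_ofReal_iff (by positivity)] at hvol
    linarith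
  -- the parameters
  obtain ⟨N1, hN1⟩ := Filter.eventually_atTop.1
    ((tendsto_pow_atTop_atTop_of_one_lt hgR).eventually_ge_atTop (32 / l))
  obtain ⟨N2, hN2⟩ := exists_nat_ge (((max T0 T1 : ℕ) : ℝ) * (n + 1) / L)
  obtain ⟨N3, hN3⟩ := exists_nat_ge ((Real.log (8 * C) + γ + 1) * (2 * (n + 1)) / (γ * L))
  set N := max (max N0 N1) (max N2 N3) with hN
  have hNN0 : N0 ≤ N := (le_max_left _ _).trans (le_max_left _ _)
  have hNN1 : N1 ≤ N := (le_max_right _ _).trans (le_max_left _ _)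
  have hNN2 : (N2 : ℝ) ≤ N := by exact_mod_cast (le_max_left _ _).trans (le_max_right _ _)
  have hNN3 : (N3 : ℝ) ≤ N := by exact_mod_cast (le_max_right N2 N3).trans (le_max_right _ _)
  have hN0R : (0 : ℝ) ≤ N := Nat.cast_nonneg N
  set T : ℕ := ⌊(N : ℝ) * L / (n + 1)⌋₊ with hT
  have hTle : (T : ℝ) ≤ N * L / (n + 1) := Nat.floor_le (by positivity)
  have hTge : (N : ℝ) * L / (n + 1) - 1 ≤ T := (Nat.sub_one_lt_floor _).le
  have hTmax : max T0 T1 ≤ T := by
    rw [hT, Nat.le_floor_iff (by positivity), le_div_iff₀ hn1]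
    have := hN2.trans hNN2
    rw [div_le_iff₀ hL0] at this
    exact this
  have hG : (0 : ℝ) < (g : ℝ) ^ N := by positivity
  have hGl : 1 / (g : ℝ) ^ N ≤ l / 32 := by
    have h1 := hN1 N hNN1
    rw [div_le_iff₀ hl] at h1
    rw [div_le_iff₀ hG]
    linarith
  set M := N / (K0 + 1) with hM
  have hMN : M ≤ N := Nat.div_le_self _ _
  have hMle : (M : ℝ) ≤ N * γ / (2 * (n + 1)) := by
    have h1 : (M : ℝ) ≤ (N : ℝ) / ((K0 + 1 : ℕ) : ℝ) := Nat.cast_div_le
    refine h1.trans ?_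
    push_cast
    have h2 : 2 * ((n : ℝ) + 1) / γ ≤ K0 + 1 := by linarith
    rw [div_le_iff₀ hγ] at h2
    rw [div_le_div_iff₀ (by positivity) (by positivity)]
    nlinarith
  have hkey : 8 * C * (g : ℝ) ^ M * Real.exp (-(γ * T)) < 1 := by
    have h1 : 8 * C = Real.exp (Real.log (8 * C)) := by rw [Real.exp_log (by positivity)]
    rw [h1, hpowexp, ← Real.exp_add, ← Real.exp_add, Real.exp_lt_one_iff]
    have h2 := hN3.trans hNN3
    rw [div_le_iff₀ (by positivity)] at h2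
    have h3 : (M : ℝ) * L ≤ N * γ / (2 * (n + 1)) * L := mul_le_mul_of_nonneg_right hMle hL0.le
    have h4 : γ * (N * L / (n + 1) - 1) ≤ γ * T := mul_le_mul_of_nonneg_left hTge hγ.le
    have h5 : Real.log (8 * C) + γ + 1 ≤ N * (γ * L) / (2 * (n + 1)) := by
      rw [le_div_iff₀ (by positivity)]; exact h2
    have h6 : γ * (N * L / (n + 1) - 1) = 2 * (N * (γ * L) / (2 * (n + 1))) - γ := by
      field_simp
    have h7 : N * γ / (2 * ((n : ℝ) + 1)) * L = N * (γ * L) / (2 * (n + 1)) := by ring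
    rw [h6] at h4
    rw [h7] at h3
    linarith
  -- the cell of the good point
  set c0 : ℤ := ⌊ξ0 * (g : ℝ) ^ N⌋ with hc0
  have hc1 : (c0 : ℝ) / (g : ℝ) ^ N ≤ ξ0 := by rw [div_le_iff₀ hG]; exact Int.floor_le _
  have hc2 : ξ0 < (c0 : ℝ) / (g : ℝ) ^ N + 1 / (g : ℝ) ^ N := by
    rw [← add_div, lt_div_iff₀ hG]; exact Int.lt_floor_add_one _
  have hbad := hpt ((c0 : ℝ) / (g : ℝ) ^ N) (1 / (g : ℝ) ^ N) (by positivity) ξ0 ⟨hc1, hc2⟩ T
    ((le_max_left _ _).trans hTmax) (hξok.mono ((le_max_right _ _).trans hTmax))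
  obtain ⟨Y, hY1, hY2, hY3⟩ := biased_words g hg M N hMN
  have hG2 : (g : ℝ) ^ (2 * N) = (g : ℝ) ^ N * (g : ℝ) ^ N := by rw [two_mul, pow_add]
  set lo : ℕ → ℝ := fun y => ((c0 * g ^ N + y : ℤ) : ℝ) / (g : ℝ) ^ (2 * N) with hlo
  set l' : ℝ := 1 / (2 * (g : ℝ) ^ (2 * N)) with hl'
  have hl'pos : 0 < l' := by positivity
  have hlo' : ∀ y, lo y = (c0 : ℝ) / (g : ℝ) ^ N + y / (g : ℝ) ^ (2 * N) := by
    intro y
    simp only [hlo]
    push_cast
    rw [hG2]
    field_simp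
  have hYlt : ∀ y ∈ Y, (y : ℝ) + 1 ≤ (g : ℝ) ^ N := by
    intro y hy
    have h1 := Finset.mem_range.1 (hY1 hy)
    have h2 : y + 1 ≤ g ^ N := h1
    exact_mod_cast h2
  have hcellsub : ∀ y ∈ Y, (c0 : ℝ) / (g : ℝ) ^ N ≤ lo y ∧
      lo y + 2 * l' ≤ (c0 : ℝ) / (g : ℝ) ^ N + 1 / (g : ℝ) ^ N := by
    intro y hy
    rw [hlo']
    constructor
    · have : 0 ≤ (y : ℝ) / (g : ℝ) ^ (2 * N) := by positivity
      linarith
    · have h1 : 2 * l' = 1 / (g : ℝ) ^ (2 * N) := by rw [hl']; field_simp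
      have h2 : (y : ℝ) / (g : ℝ) ^ (2 * N) + 1 / (g : ℝ) ^ (2 * N) ≤ 1 / (g : ℝ) ^ N := by
        rw [← add_div, hG2, div_le_div_iff₀ (by positivity) hG]
        have := hYlt y hy
        nlinarith
      rw [h1]; linarith
  -- averaging
  obtain ⟨y, hyY, hyv⟩ : ∃ y ∈ Y, volume {z ∈ Ico (lo y) (lo y + l') | ¬ Okk n 0 0 κ T z} ≤
      ENNReal.ofReal (l' / 2) := by
    by_contra hcon
    push Not at hcon
    set B : Set ℝ := {z | ¬ Okk n 0 0 κ T z} with hB
    have hsum : ∑ y ∈ Y, (volume.restrict B) (Ico (lo y) (lo y + l')) =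
        (volume.restrict B) (⋃ y ∈ Y, Ico (lo y) (lo y + l')) := by
      symm
      apply measure_biUnion_finset
      · intro y _ y' _ hne
        rw [Function.onFun, Set.disjoint_left]
        intro z hz hz'
        have h1 : lo y = lo y' + ((y : ℝ) - y') * (2 * l') := by
          rw [hlo', hlo', hl']; field_simp; ring
        rcases lt_or_gt_of_ne hne with h | h
        · have h2 : (y : ℝ) + 1 ≤ y' := by exact_mod_cast h
          have h3 : ((y : ℝ) - y') * (2 * l') ≤ (-1) * (2 * l') :=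
            mul_le_mul_of_nonneg_right (by linarith) (by positivity)
          linarith [hz.2, hz'.1]
        · have h2 : (y' : ℝ) + 1 ≤ y := by exact_mod_cast h
          have h3 : 1 * (2 * l') ≤ ((y : ℝ) - y') * (2 * l') :=
            mul_le_mul_of_nonneg_right (by linarith) (by positivity)
          linarith [hz.1, hz'.2]
      · intro y _; exact measurableSet_Ico
    have hle : (volume.restrict B) (⋃ y ∈ Y, Ico (lo y) (lo y + l')) ≤
        ENNReal.ofReal (C * Real.exp (-(γ * T))) * ENNReal.ofReal (1 / (g : ℝ) ^ N) := by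
      refine le_trans (measure_mono (iUnion₂_subset (t := Ico ((c0 : ℝ) / (g : ℝ) ^ N)
        ((c0 : ℝ) / (g : ℝ) ^ N + 1 / (g : ℝ) ^ N)) ?_)) ?_
      · intro y hy z hz
        have := hcellsub y hy
        exact ⟨this.1.trans hz.1, by linarith [hz.2, this.2]⟩
      · rw [Measure.restrict_apply measurableSet_Ico]
        exact hbad
    have hge : ENNReal.ofReal (Y.card * (l' / 2)) ≤
        ∑ y ∈ Y, (volume.restrict B) (Ico (lo y) (lo y + l')) := by
      rw [ENNReal.ofReal_mul (by positivity), ENNReal.ofReal_natCast, ← nsmul_eq_mul,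
        ← Finset.sum_const]
      apply Finset.sum_le_sum
      intro y hy
      rw [Measure.restrict_apply measurableSet_Ico]
      exact (hcon y hy).le
    rw [hsum] at hge
    have hfin := hge.trans hle
    rw [← ENNReal.ofReal_mul (by positivity), ENNReal.ofReal_le_ofReal_iff (by positivity)] at hfin
    have h1 : (g : ℝ) ^ (N - M) ≤ Y.card := by exact_mod_cast hY2
    have h2 : (g : ℝ) ^ (N - M) * (l' / 2) ≤ C * Real.exp (-(γ * T)) * (1 / (g : ℝ) ^ N) :=
      (mul_le_mul_of_nonneg_right h1 (by positivity)).trans hfin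
    have h3 : (g : ℝ) ^ N = (g : ℝ) ^ (N - M) * (g : ℝ) ^ M := by
      rw [← pow_add]; congr 1; omega
    have h4 : (g : ℝ) ^ (N - M) * (l' / 2) * (4 * (g : ℝ) ^ N * (g : ℝ) ^ M) = 1 := by
      have h5 : l' = 1 / (2 * ((g : ℝ) ^ N * (g : ℝ) ^ N)) := by rw [hl', hG2]
      rw [h5]
      have h6 : (g : ℝ) ^ (N - M) * (1 / (2 * ((g : ℝ) ^ N * (g : ℝ) ^ N)) / 2) *
          (4 * (g : ℝ) ^ N * (g : ℝ) ^ M) = ((g : ℝ) ^ (N - M) * (g : ℝ) ^ M) / (g : ℝ) ^ N := by
        field_simp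
        ring
      rw [h6, ← h3, div_self hG.ne']
    have h5 := mul_le_mul_of_nonneg_right h2 (by positivity : 0 ≤ 4 * (g : ℝ) ^ N * (g : ℝ) ^ M)
    rw [h4] at h5
    have h6 : C * Real.exp (-(γ * T)) * (1 / (g : ℝ) ^ N) * (4 * (g : ℝ) ^ N * (g : ℝ) ^ M) =
        (8 * C * (g : ℝ) ^ M * Real.exp (-(γ * T))) / 2 := by field_simp; ring
    rw [h6] at h5
    linarith
  have hcs := hcellsub y hyY
  refine ⟨N, T, lo y, l', ξ0, hNN0, hl'pos, ?_, ?_, ?_, hξBad, ?_, ?_, hyv, ?_⟩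
  · rw [hl', div_le_one (by positivity)]
    have : (1 : ℝ) ≤ (g : ℝ) ^ (2 * N) := one_le_pow₀ hgR.le
    linarith
  · linarith [hcs.1]
  · linarith [hcs.2]
  · intro ξ hξ
    rw [abs_le]
    constructor
    · linarith [hξ.2, hcs.2]
    · linarith [hξ.1, hcs.1]
  · rw [hpowexp, Real.exp_le_exp]
    rw [le_div_iff₀ hn1] at hTle
    linarith
  · intro ξ hξ
    obtain ⟨d, hd, hd'⟩ := hY3 y hyY
    refine ⟨d, hd, ?_⟩
    rw [block_count g hg N c0 y ξ hξ.1 ?_ d]
    · exact hd'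
    · have h1 := hξ.2
      simp only [hlo, hl'] at h1
      refine lt_of_le_of_lt h1 ?_
      rw [add_div]
      have : 1 / (2 * (g : ℝ) ^ (2 * N)) < 1 / (g : ℝ) ^ (2 * N) := by
        apply one_div_lt_one_div_of_lt (by positivity)
        have : (0 : ℝ) < (g : ℝ) ^ (2 * N) := by positivity
        linarith
      linarith

end Pool.Agent.W71
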