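import Mathlib
import Pool.Agent.W71.Bias2

/-! Chains of heterogeneous steps; numbers that are simply normal in no base. -/

set_option autoImplicit false

open Polynomial Set MeasureTheory

namespace Pool.Agent.W71

variable {n : ℕ}

lemma Okk.weaken {νp νd κ ε ξ : ℝ} {T : ℕ} (h : Okk n 0 0 κ T ξ) (h1 : κ ≤ νp) (h2 : κ ≤ νd)
    (hε : 0 ≤ ε) : Okk n νp νd ε T ξ := by
  intro t ht
  have ht0 : (0 : ℝ) ≤ t := Nat.cast_nonneg t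
  have h3 := h t ht
  refine ⟨h3.1.mono ?_, h3.2.mono ?_⟩
  · rw [Real.exp_le_exp]
    apply neg_le_neg
    exact mul_le_mul_of_nonneg_right (by linarith) ht0
  · rw [Real.exp_le_exp]
    apply neg_le_neg
    exact mul_le_mul_of_nonneg_right (by linarith) ht0

/-- a step of a chain -/
def ChStep (n : ℕ) (νp νd : ℝ) (F : ℕ → ℝ → Prop) (k : ℕ) : Prop :=
  ∀ a l : ℝ, 0 < l → l ≤ 1 → ∀ Bad : Set ℝ,
    volume {z ∈ Ico a (a + l) | z ∈ Bad} ≤ ENNReal.ofReal (3 * l / 4) →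
    ∃ (a' l' ξ0 Δ : ℝ) (T : ℕ), 0 < l' ∧ l' ≤ 1 ∧ 0 < Δ ∧ Δ ≤ 1 / ((k : ℝ) + 2) ∧
      Real.exp ((n + 1) * T) * Δ ≤ 1 ∧ a ≤ a' ∧ a' + l' ≤ a + l ∧ ξ0 ∉ Bad ∧
      (∀ ξ ∈ Icc a' (a' + l'), |ξ0 - ξ| ≤ Δ ∧ F k ξ) ∧
      volume {z ∈ Ico a' (a' + l') | ¬ Okk n νp νd (1 / ((k : ℝ) + 2)) T z} ≤
        ENNReal.ofReal (l' / 2)

theorem chain_gen (hn : 1 ≤ n) (νp νd : ℝ) (hνp : 0 ≤ νp) (hνd : 0 ≤ νd) (F : ℕ → ℝ → Prop)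
    (hstep : ∀ k, ChStep n νp νd F k) :
    ∃ ξ : ℝ, (∀ ε : ℝ, 0 < ε → ∃ T : ℕ, ∀ t : ℕ, T ≤ t →
        OkP n ξ t (Real.exp (-((νp + ε) * t))) ∧ OkD n ξ t (Real.exp (-((νd + ε) * t)))) ∧
      ∀ k, F k ξ := by
  classical
  -- states: left end, length, neighbourhood size, time
  set Inv : ℕ → (ℝ × ℝ) × (ℝ × ℕ) → Prop := fun k s =>
    0 < s.1.2 ∧ s.1.2 ≤ 1 ∧ 0 < s.2.1 ∧ s.2.1 ≤ 1 / ((k : ℝ) + 1) ∧
    Real.exp ((n + 1) * s.2.2) * s.2.1 ≤ 1 ∧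
    volume {z ∈ Ico s.1.1 (s.1.1 + s.1.2) | ¬ Okk n νp νd (1 / ((k : ℝ) + 1)) s.2.2 z} ≤
      ENNReal.ofReal (s.1.2 / 2) with hInv
  set Rel : ℕ → (ℝ × ℝ) × (ℝ × ℕ) → (ℝ × ℝ) × (ℝ × ℕ) → Prop := fun k s s' =>
    s.1.1 ≤ s'.1.1 ∧ s'.1.1 + s'.1.2 ≤ s.1.1 + s.1.2 ∧
    ∃ ξ0 : ℝ, Okk n νp νd (1 / ((k : ℝ) + 1)) s.2.2 ξ0 ∧
      ∀ ξ ∈ Icc s'.1.1 (s'.1.1 + s'.1.2), |ξ0 - ξ| ≤ s'.2.1 ∧ F k ξ with hRel
  obtain ⟨T0, hT0⟩ := stage_fixed hn 0 1 one_pos le_rfl 1 (1 / 2) one_pos (by norm_num)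
  have hInit : Inv 0 ((0, 1), (Real.exp (-((n + 1) * T0)), T0)) := by
    refine ⟨one_pos, le_rfl, Real.exp_pos _, ?_, ?_, ?_⟩
    · simp only [Nat.cast_zero, zero_add, div_one, Real.exp_le_one_iff]
      have : (0 : ℝ) ≤ (n + 1) * T0 := by positivity
      linarith
    · simp only
      rw [← Real.exp_add]; simp
    · simp only
      refine le_trans (measure_mono ?_) ((hT0 T0 le_rfl).trans (le_of_eq (by simp)))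
      rintro z ⟨hz, hz'⟩
      refine ⟨hz, fun h => hz' ?_⟩
      intro t ht
      have ht0 : (0 : ℝ) ≤ t := Nat.cast_nonneg t
      have h3 := h t ht
      refine ⟨h3.1.mono ?_, h3.2.mono ?_⟩ <;>
      · rw [Real.exp_le_exp]
        apply neg_le_neg
        apply mul_le_mul_of_nonneg_right _ ht0
        simp
        assumption
  obtain ⟨f, hf1, hf2⟩ := exists_chain Inv Rel _ hInit (by
    rintro k ⟨⟨a, l⟩, ⟨Δ, T⟩⟩ ⟨h1, h2, h3, h4, h5, h6⟩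
    simp only at h1 h2 h3 h4 h5 h6
    obtain ⟨a', l', ξ0, Δ', T', g1, g2, g3, g4, g5, g6, g7, g8, g9, g10⟩ := hstep k a l h1 h2
      {z | ¬ Okk n νp νd (1 / ((k : ℝ) + 1)) T z} (h6.trans (ENNReal.ofReal_le_ofReal (by linarith)))
    have hk2 : ((k + 1 : ℕ) : ℝ) + 1 = (k : ℝ) + 2 := by push_cast; ring
    refine ⟨((a', l'), (Δ', T')), ⟨g1, g2, g3, ?_, g5, ?_⟩, g6, g7, ξ0, ?_, g9⟩
    · simp only; rw [hk2]; exact g4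
    · simp only; rw [hk2]; exact g10
    · by_contra h; exact g8 h)
  obtain ⟨ξ, hξ⟩ := exists_point (fun k => (f k).1.1) (fun k => (f k).1.2)
    (fun k => (hf1 k).1.le) (fun k => (hf2 k).1) (fun k => (hf2 k).2.1)
  have hex : ∀ k : ℕ, ∃ ξ0 : ℝ, Okk n νp νd (1 / ((k : ℝ) + 1)) (f k).2.2 ξ0 ∧
      |ξ0 - ξ| ≤ (f (k + 1)).2.1 ∧ F k ξ := by
    intro k
    obtain ⟨-, -, ξ0, h1, h2⟩ := hf2 k
    exact ⟨ξ0, h1, h2 ξ (hξ (k + 1))⟩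
  choose ξ0 hξ01 hξ02 hξ03 using hex
  refine ⟨ξ, ?_, hξ03⟩
  refine cover ξ 0 (fun k => (f k).2.2) (fun k => (f k).2.1) ξ0 (fun k => 1 / ((k : ℝ) + 1))
    (fun k => (hf1 k).2.2.1) (fun k => ?_) ?_ tendsto_one_div_add_atTop_nhds_zero_nat ?_
    (fun k _ => ?_) (fun k _ => hξ01 k) (fun k _ => hξ02 k)
  · refine (hf1 k).2.2.2.1.trans ?_
    rw [div_le_one (by positivity)]
    have : (0 : ℝ) ≤ k := Nat.cast_nonneg k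
    linarith
  · exact squeeze_zero (fun k => (hf1 k).2.2.1.le) (fun k => (hf1 k).2.2.2.1)
      tendsto_one_div_add_atTop_nhds_zero_nat
  · intro i j hij
    simp only
    apply one_div_le_one_div_of_le (by positivity)
    have : (i : ℝ) ≤ j := by exact_mod_cast hij
    linarith
  · exact (hf1 (k + 1)).2.2.2.2.1

/-- the window step as a step of a chain -/
lemma chStep_window (hn : 1 ≤ n) {ℓ : ℕ} [hp : Fact ℓ.Prime] (hℓ : (n + 1) * n < ℓ) {β e νp νd : ℝ}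
    (he : 2 ≤ e) (hνp : 0 ≤ νp) (hνd : 0 ≤ νd) (hR : Rich n ℓ β e νp νd) (F : ℕ → ℝ → Prop) (k : ℕ)
    (hF : ∃ M : ℕ, ∀ (m : ℕ) (p : ℤ) (ξ : ℝ), M ≤ m →
      (p : ℝ) / (ℓ : ℝ) ^ m + β + rad ℓ e m ≤ ξ →
      ξ ≤ (p : ℝ) / (ℓ : ℝ) ^ m + β + rad ℓ e m + rad ℓ e m → F k ξ) :
    ChStep n νp νd F k := by
  intro a l hl hl1 Bad hBad
  obtain ⟨M, hM⟩ := hF
  have hεk : (0 : ℝ) < 1 / ((k : ℝ) + 2) := by positivity
  obtain ⟨m, hm, p, h1, h2, ⟨ξ0, hξ0, hξ0'⟩, h4⟩ := window_step (ℓ := ℓ)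
    (Typical.flow hn hℓ hνp hνd hR (1 / ((k : ℝ) + 2)) hεk)
    (fun m ξ h j => h.shift j) a l hl hl1 Bad hBad (max M (k + 2))
  have hm1 : M ≤ m := (le_max_left _ _).trans hm
  have hm2 : k + 2 ≤ m := (le_max_right _ _).trans hm
  have hℓpos : (0 : ℝ) < ℓ := by exact_mod_cast hp.out.pos
  have hℓ2 : (2 : ℝ) ≤ ℓ := by exact_mod_cast hp.out.two_le
  have hq : (0 : ℝ) < (ℓ : ℝ) ^ m := by positivity
  have hr := rad_pos ℓ e m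
  have hrle := rad_le (ℓ := ℓ) e he m (by omega)
  have hq1 : 1 / (2 * (ℓ : ℝ) ^ m) = (1 / (ℓ : ℝ) ^ m) / 2 := by field_simp
  rw [hq1] at hrle
  have hq2 : ((p : ℝ) + 1) / (ℓ : ℝ) ^ m = p / (ℓ : ℝ) ^ m + 1 / (ℓ : ℝ) ^ m := by ring
  rw [hq2] at h2 hξ0
  refine ⟨(p : ℝ) / (ℓ : ℝ) ^ m + β + rad ℓ e m, rad ℓ e m, ξ0, 1 / (ℓ : ℝ) ^ m, Tm n ℓ m, hr,
    rad_le_one _ he _ (by omega), by positivity, ?_, ?_, by linarith, by linarith, hξ0', ?_, h4⟩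
  · apply one_div_le_one_div_of_le (by positivity)
    have h5 : ((k + 2 : ℕ) : ℝ) ≤ (2 : ℝ) ^ (k + 2) := by exact_mod_cast (Nat.lt_two_pow_self).le
    have h6 : (2 : ℝ) ^ (k + 2) ≤ (ℓ : ℝ) ^ (k + 2) := pow_le_pow_left₀ (by norm_num) hℓ2 _
    have h7 : (ℓ : ℝ) ^ (k + 2) ≤ (ℓ : ℝ) ^ m := pow_le_pow_right₀ (by linarith) hm2
    push_cast at h5
    linarith
  · rw [mul_one_div, div_le_one hq]
    exact exp_Tm_le n m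
  · intro ξ hξ
    refine ⟨?_, hM m p ξ hm1 hξ.1 hξ.2⟩
    rw [abs_le]
    constructor
    · linarith [hξ0.1, hξ.2]
    · linarith [hξ0.2, hξ.1]

/-- the digit step as a step of a chain -/
lemma chStep_bias (hn : 1 ≤ n) (κ νp νd : ℝ) (hκ : 0 < κ) (h1 : κ ≤ νp) (h2 : κ ≤ νd) (g : ℕ)
    (hg : 2 ≤ g) : ∃ K : ℕ, 1 ≤ K ∧ ∀ (F : ℕ → ℝ → Prop) (k : ℕ),
      (∃ M : ℕ, ∀ (N : ℕ) (ξ : ℝ), M ≤ N → (∃ d, d < g ∧ g * (N / K) + (N - N / K) ≤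
          g * ((Finset.Ico N (2 * N)).filter
            (fun j : ℕ => ⌊ξ * (g : ℝ) ^ (j + 1)⌋ % (g : ℤ) = (d : ℤ))).card) → F k ξ) →
      ChStep n νp νd F k := by
  obtain ⟨K, hK1, hK⟩ := bias_step hn κ hκ g hg
  refine ⟨K, hK1, ?_⟩
  intro F k ⟨M, hM⟩ a l hl hl1 Bad hBad
  obtain ⟨N, T, a', l', ξ0, g1, g2, g3, g4, g5, g6, g7, g8, g9, g10⟩ := hK a l hl hl1 Bad hBad
    (max M (k + 2))
  have hgR : (2 : ℝ) ≤ g := by exact_mod_cast hg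
  have hG : (0 : ℝ) < (g : ℝ) ^ N := by positivity
  refine ⟨a', l', ξ0, 1 / (g : ℝ) ^ N, T, g2, g3, by positivity, ?_, ?_, g4, g5, g6, ?_, ?_⟩
  · apply one_div_le_one_div_of_le (by positivity)
    have h5 : ((k + 2 : ℕ) : ℝ) ≤ (2 : ℝ) ^ (k + 2) := by exact_mod_cast (Nat.lt_two_pow_self).le
    have h6 : (2 : ℝ) ^ (k + 2) ≤ (g : ℝ) ^ (k + 2) := pow_le_pow_left₀ (by norm_num) hgR _
    have h7 : (g : ℝ) ^ (k + 2) ≤ (g : ℝ) ^ N :=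
      pow_le_pow_right₀ (by linarith) ((le_max_right _ _).trans g1)
    push_cast at h5
    linarith
  · rw [mul_one_div, div_le_one hG]
    exact g8
  · intro ξ hξ
    exact ⟨g7 ξ hξ, hM N ξ ((le_max_left _ _).trans g1) (g10 ξ hξ)⟩
  · refine le_trans (measure_mono ?_) g9
    rintro z ⟨hz, hz'⟩
    exact ⟨hz, fun h => hz' (h.weaken h1 h2 (by positivity))⟩

end Pool.Agent.W71
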