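import Mathlib
import Pool.Agent.W71.Chain
import Pool.Agent.W71.Expo

/-! Numbers with prescribed exponents that are simply normal in no base. -/

set_option autoImplicit false

open Polynomial Set MeasureTheory Filter Topology

namespace Pool.Agent.W71

variable {n : ℕ}

/-- simple normality in base `b` -/
def SimpNorm (b : ℕ) (ξ : ℝ) : Prop :=
  ∀ d : ℕ, d < b → Tendsto (fun N : ℕ => (((Finset.range N).filter
    (fun j : ℕ => ⌊ξ * (b : ℝ) ^ (j + 1)⌋ % (b : ℤ) = (d : ℤ))).card : ℝ) / (N : ℝ))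
    atTop (𝓝 (1 / (b : ℝ)))

lemma not_simpNorm (g : ℕ) (hg : 2 ≤ g) (ξ : ℝ) (K : ℕ) (hK : 1 ≤ K)
    (h : ∀ N0 : ℕ, ∃ N, N0 ≤ N ∧ ∃ d, d < g ∧ g * (N / K) + (N - N / K) ≤
      g * ((Finset.Ico N (2 * N)).filter
        (fun j : ℕ => ⌊ξ * (g : ℝ) ^ (j + 1)⌋ % (g : ℤ) = (d : ℤ))).card) :
    ¬ SimpNorm g ξ := by
  intro hs
  have hg0 : (0 : ℝ) < g := by exact_mod_cast (by omega : 0 < g)
  have hgR : (2 : ℝ) ≤ g := by exact_mod_cast hg
  have hKR : (1 : ℝ) ≤ K := by exact_mod_cast hK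
  set c : ℕ → ℕ → ℕ := fun d N => ((Finset.range N).filter
    (fun j : ℕ => ⌊ξ * (g : ℝ) ^ (j + 1)⌋ % (g : ℤ) = (d : ℤ))).card with hc
  set I : ℕ → ℕ → ℕ := fun d N => ((Finset.Ico N (2 * N)).filter
    (fun j : ℕ => ⌊ξ * (g : ℝ) ^ (j + 1)⌋ % (g : ℤ) = (d : ℤ))).card with hI
  have hcI : ∀ d N, c d (2 * N) = c d N + I d N := by
    intro d N
    simp only [hc, hI]
    have h1 : Finset.range (2 * N) = Finset.range N ∪ Finset.Ico N (2 * N) := by
      ext j; simp only [Finset.mem_range, Finset.mem_union, Finset.mem_Ico]; omega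
    rw [h1, Finset.filter_union, Finset.card_union_of_disjoint]
    rw [Finset.disjoint_left]
    intro j hj hj'
    simp only [Finset.mem_filter, Finset.mem_range, Finset.mem_Ico] at hj hj'
    omega
  have hlim : ∀ d, d < g → Tendsto (fun N : ℕ => (I d N : ℝ) / N) atTop (𝓝 (1 / (g : ℝ))) := by
    intro d hd
    have h1 := hs d hd
    have h2 : Tendsto (fun N : ℕ => (c d (2 * N) : ℝ) / ((2 * N : ℕ) : ℝ)) atTop
        (𝓝 (1 / (g : ℝ))) := by
      have h3 : Tendsto (fun N : ℕ => 2 * N) atTop atTop :=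
        tendsto_atTop_mono (fun N => by simp only [id]; omega) tendsto_id
      exact h1.comp h3
    have h4 := (h2.const_mul 2).sub h1
    have h5 : 2 * (1 / (g : ℝ)) - 1 / g = 1 / g := by ring
    rw [h5] at h4
    refine h4.congr' ?_
    filter_upwards [eventually_gt_atTop 0] with N hN
    have hN' : (0 : ℝ) < N := by exact_mod_cast hN
    have h6 := hcI d N
    have h7 : (c d (2 * N) : ℝ) = c d N + I d N := by exact_mod_cast h6
    rw [h7]
    push_cast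
    field_simp
    simp only [hc]
    ring
  have hev : ∀ᶠ N : ℕ in atTop, ∀ d ∈ Finset.range g, (I d N : ℝ) / N < 1 / g + 1 / (4 * K) := by
    rw [Filter.eventually_all_finset]
    intro d hd
    apply (hlim d (Finset.mem_range.1 hd)).eventually_lt_const
    have : (0 : ℝ) < 1 / (4 * K) := by positivity
    linarith
  obtain ⟨N1, hN1⟩ := eventually_atTop.1 hev
  obtain ⟨N, hN, d, hd, hcount⟩ := h (max N1 (2 * K))
  have h1 := hN1 N ((le_max_left _ _).trans hN) d (Finset.mem_range.2 hd)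
  have hN2K : 2 * K ≤ N := (le_max_right _ _).trans hN
  have hN0 : (0 : ℝ) < N := by exact_mod_cast (by omega : 0 < N)
  have hcount' : g * (N / K) + (N - N / K) ≤ g * I d N := hcount
  have hMN : N / K ≤ N := Nat.div_le_self _ _
  have h2 : (g : ℝ) * ((N / K : ℕ) : ℝ) + ((N : ℝ) - ((N / K : ℕ) : ℝ)) ≤ g * I d N := by
    have h3 : ((g * (N / K) + (N - N / K) : ℕ) : ℝ) ≤ ((g * I d N : ℕ) : ℝ) := by
      exact_mod_cast hcount'
    rw [Nat.cast_add, Nat.cast_mul, Nat.cast_sub hMN, Nat.cast_mul] at h3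
    exact h3
  have h3 : (N : ℝ) / (2 * K) ≤ ((N / K : ℕ) : ℝ) := by
    have h4 : N < K * (N / K + 1) := by
      have := Nat.div_add_mod N K
      have h5 := Nat.mod_lt N (by omega : 0 < K)
      rw [mul_add, mul_one]; omega
    have h5 : (N : ℝ) < K * (((N / K : ℕ) : ℝ) + 1) := by exact_mod_cast h4
    have h6 : 2 * (K : ℝ) ≤ N := by exact_mod_cast hN2K
    rw [div_le_iff₀ (by positivity)]
    nlinarith
  rw [div_lt_iff₀ hN0] at h1
  have h4 : (g : ℝ) * I d N < g * ((1 / g + 1 / (4 * K)) * N) := mul_lt_mul_of_pos_left h1 hg0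
  have h5 : (g : ℝ) * ((1 / g + 1 / (4 * K)) * N) = N + g * (N / (4 * K)) := by
    field_simp
  rw [h5] at h4
  have h6 : ((g : ℝ) - 1) * (N / (2 * K)) ≤ (g - 1) * ((N / K : ℕ) : ℝ) :=
    mul_le_mul_of_nonneg_left h3 (by linarith)
  have h7 : (N : ℝ) / (2 * K) = 2 * (N / (4 * K)) := by field_simp; ring
  have h8 : (0 : ℝ) < N / (4 * K) := by positivity
  rw [h7] at h6
  nlinarith

theorem nowhere_normal (hn : 1 ≤ n) (w : ℝ) (hw : (n : ℝ) < w) :
    ∃ ξ : ℝ, wM n ξ = (w : EReal) ∧ wK n ξ = (w : EReal) ∧ ∀ b : ℕ, 2 ≤ b → ¬ SimpNorm b ξ := by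
  classical
  obtain ⟨ℓ, hℓ, hℓp⟩ := Nat.exists_infinite_primes ((n + 1) * n + 1)
  have hfact : Fact ℓ.Prime := ⟨hℓp⟩
  have hn0 : (1 : ℝ) ≤ n := by exact_mod_cast hn
  have hw0 : 0 < w := by linarith
  set ν := (w - n) / (w + 1) with hν
  have hν0 : 0 < ν := div_pos (by linarith) (by linarith)
  have hnν : ν ≤ n * ν := by nlinarith
  have hR : Rich n ℓ 0 (1 + w) ν (n * ν) := richA hn (by omega) w ν (n * ν) hw.le le_rfl le_rfl
  have hK : ∀ g : ℕ, ∃ K : ℕ, 2 ≤ g → (1 ≤ K ∧ ∀ (F : ℕ → ℝ → Prop) (k : ℕ),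
      (∃ M : ℕ, ∀ (N : ℕ) (ξ : ℝ), M ≤ N → (∃ d, d < g ∧ g * (N / K) + (N - N / K) ≤
          g * ((Finset.Ico N (2 * N)).filter
            (fun j : ℕ => ⌊ξ * (g : ℝ) ^ (j + 1)⌋ % (g : ℤ) = (d : ℤ))).card) → F k ξ) →
      ChStep n ν (n * ν) F k) := by
    intro g
    by_cases hg : 2 ≤ g
    · obtain ⟨K, hK⟩ := chStep_bias hn ν ν (n * ν) hν0 le_rfl hnν g hg
      exact ⟨K, fun _ => hK⟩
    · exact ⟨0, fun h => absurd h hg⟩
  choose K hK using hK
  set base : ℕ → ℕ := fun k => (k / 2).unpair.1 + 2 with hbase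
  set F : ℕ → ℝ → Prop := fun k ξ =>
    (k % 2 = 0 → ∃ m : ℕ, k ≤ m ∧ 1 ≤ m ∧ ∃ p : ℤ, 0 < |ξ - (p : ℝ) / (ℓ : ℝ) ^ m| ∧
      |ξ - (p : ℝ) / (ℓ : ℝ) ^ m| ≤ 2 * rad ℓ (1 + w) m) ∧
    (k % 2 = 1 → ∃ N : ℕ, k ≤ N ∧ ∃ d, d < base k ∧
      base k * (N / K (base k)) + (N - N / K (base k)) ≤
        base k * ((Finset.Ico N (2 * N)).filter
          (fun j : ℕ => ⌊ξ * (base k : ℝ) ^ (j + 1)⌋ % (base k : ℤ) = (d : ℤ))).card) with hF
  obtain ⟨ξ, hflow, hfact'⟩ := chain_gen hn ν (n * ν) hν0.le (by positivity) F (by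
    intro k
    rcases Nat.mod_two_eq_zero_or_one k with hk | hk
    · apply chStep_window hn (ℓ := ℓ) (by omega) (by linarith) hν0.le (by positivity) hR
      refine ⟨k + 1, fun m p ξ hm h1 h2 => ?_⟩
      simp only [hF]
      refine ⟨fun _ => ⟨m, by omega, by omega, p, ?_, ?_⟩, fun h => by omega⟩
      · have := rad_pos ℓ (1 + w) m
        rw [abs_pos]
        intro h; linarith
      · have := rad_pos ℓ (1 + w) m
        rw [abs_of_nonneg (by linarith)]
        linarith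
    · have hb2 : 2 ≤ base k := by simp only [hbase]; omega
      apply (hK (base k) hb2).2
      refine ⟨k, fun N ξ hN h => ?_⟩
      simp only [hF]
      exact ⟨fun h => by omega, fun _ => ⟨N, hN, h⟩⟩)
  have hfin := fun v hv => clause3 (n := n) ξ ν w hw.le hν
    (fun ε hε => by
      obtain ⟨T, hT⟩ := hflow ε hε
      exact ⟨T, fun t ht => (hT t ht).1⟩) v hv
  have hge := exponents_ge (ℓ := ℓ) hn ξ w hw0 (by
    intro M
    obtain ⟨m, h1, h2, h3⟩ := (hfact' (2 * M)).1 (by omega)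
    exact ⟨m, by omega, h2, h3⟩)
  refine ⟨ξ, le_antisymm (wM_le ξ w hfin) hge.1, le_antisymm (wK_le ξ w hw0.le hfin) hge.2, ?_⟩
  intro b hb
  apply not_simpNorm b hb ξ (K b) (hK b hb).1
  intro N0
  set k := 2 * Nat.pair (b - 2) N0 + 1 with hk
  have hbk : base k = b := by
    simp only [hbase]
    have : k / 2 = Nat.pair (b - 2) N0 := by omega
    rw [this, Nat.unpair_pair]
    simp only
    omega
  obtain ⟨N, hN, hd⟩ := (hfact' k).2 (by omega)
  rw [hbk] at hd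
  refine ⟨N, ?_, hd⟩
  have := Nat.right_le_pair (b - 2) N0
  omega

end Pool.Agent.W71
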