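import Mathlib
import Pool.Agent.H493R3.MomentB
import Pool.Agent.W71.Nest4

/-! Second moments of Weyl sums over windows. -/

set_option autoImplicit false

open MeasureTheory Set Filter Topology

namespace Pool.Agent.W71

open Pool.Agent.H493R3 (ee ee_norm ee_add ee_neg ee_int ee_zpow sep_card sym_sum)

lemma ee_pow (x : ℝ) (k : ℕ) : ee x ^ k = ee (x * k) := by
  have h := ee_zpow x (k : ℤ)
  rw [zpow_natCast] at h
  rw [← h]; push_cast; rfl

lemma sum_res (q : ℕ) (hq : 1 ≤ q) (c : ℤ) :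
    ∑ p ∈ Finset.range q, ee (c * ((p : ℝ) / q)) = if (q : ℤ) ∣ c then (q : ℂ) else 0 := by
  have hq0 : (q : ℝ) ≠ 0 := by exact_mod_cast (by omega : q ≠ 0)
  have h1 : ∀ p : ℕ, ee (c * ((p : ℝ) / q)) = ee ((c : ℝ) / q) ^ p := by
    intro p; rw [ee_pow]; congr 1; ring
  simp_rw [h1]
  split_ifs with hd
  · obtain ⟨d, rfl⟩ := hd
    have h2 : (((q : ℤ) * d : ℤ) : ℝ) / q = (d : ℤ) := by push_cast; field_simp
    rw [h2, ee_int]
    simp
  · have hz : ee ((c : ℝ) / q) ≠ 1 := by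
      intro h
      unfold ee at h
      rw [Complex.exp_eq_one_iff] at h
      obtain ⟨k, hk⟩ := h
      apply hd
      refine ⟨k, ?_⟩
      have hpi : (2 * (Real.pi : ℂ) * Complex.I) ≠ 0 := Complex.two_pi_I_ne_zero
      have h3 : (((c : ℝ) / q : ℝ) : ℂ) = k := by
        apply mul_left_cancel₀ hpi
        calc 2 * (Real.pi : ℂ) * Complex.I * (((c : ℝ) / q : ℝ) : ℂ) =
            2 * Real.pi * (((c : ℝ) / q : ℝ) : ℂ) * Complex.I := by ring
          _ = k * (2 * Real.pi * Complex.I) := hk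
          _ = _ := by ring
      have h4 : (c : ℝ) / q = k := by exact_mod_cast h3
      rw [div_eq_iff hq0] at h4
      have h5 : (c : ℝ) = ((q : ℤ) * k : ℤ) := by push_cast; linarith
      exact_mod_cast h5
    rw [geom_sum_eq hz, ee_pow]
    have h2 : (c : ℝ) / q * q = (c : ℤ) := by field_simp
    rw [h2, ee_int, sub_self, zero_div]

lemma ee_cont (c : ℝ) : Continuous (fun z : ℝ => ee (c * z)) := by
  unfold ee; fun_prop

lemma int_ee (c : ℤ) (hc : c ≠ 0) (a r : ℝ) :
    ‖∫ z in a..(a + r), ee (c * z)‖ ≤ 1 / |(c : ℝ)| := by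
  have hc0 : (c : ℝ) ≠ 0 := by exact_mod_cast hc
  have hcC : (c : ℂ) ≠ 0 := by exact_mod_cast hc
  have hpi : (2 * (Real.pi : ℂ) * Complex.I) ≠ 0 := Complex.two_pi_I_ne_zero
  have h1 : ∀ z : ℝ, ee (c * z) = Complex.exp ((2 * Real.pi * Complex.I * c) * z) := by
    intro z; unfold ee; congr 1; push_cast; ring
  simp_rw [h1]
  rw [integral_exp_mul_complex (mul_ne_zero hpi hcC), ← h1, ← h1, norm_div]
  have h2 : ‖2 * (Real.pi : ℂ) * Complex.I * c‖ = 2 * Real.pi * |(c : ℝ)| := by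
    rw [norm_mul, norm_mul, norm_mul, Complex.norm_I, mul_one, Complex.norm_real, Complex.norm_two,
      Real.norm_eq_abs, abs_of_pos Real.pi_pos]
    congr 1
    rw [← Complex.ofReal_intCast, Complex.norm_real, Real.norm_eq_abs]
  rw [h2]
  have h3 : ‖ee (c * (a + r)) - ee (c * a)‖ ≤ 2 := by
    refine (norm_sub_le _ _).trans ?_
    rw [ee_norm, ee_norm]; norm_num
  have hpos : 0 < |(c : ℝ)| := abs_pos.2 hc0
  have hpi3 := Real.pi_gt_three
  rw [div_le_div_iff₀ (by positivity) hpos]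
  nlinarith

/-- bound of an oscillating integral -/
noncomputable def Bd (r : ℝ) (c : ℤ) : ℝ := if c = 0 then r else min r (1 / |(c : ℝ)|)

lemma Bd_nonneg {r : ℝ} (hr : 0 ≤ r) (c : ℤ) : 0 ≤ Bd r c := by
  unfold Bd; split_ifs
  · exact hr
  · exact le_min hr (by positivity)

lemma Bd_neg (r : ℝ) (c : ℤ) : Bd r (-c) = Bd r c := by
  unfold Bd; simp

lemma Bd_le_r {r : ℝ} (c : ℤ) : Bd r c ≤ r := by
  unfold Bd; split_ifs
  · exact le_rfl
  · exact min_le_left _ _

lemma int_le_Bd (c : ℤ) (a r : ℝ) (hr : 0 ≤ r) : ‖∫ z in a..(a + r), ee (c * z)‖ ≤ Bd r c := by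
  have h1 : ‖∫ z in a..(a + r), ee (c * z)‖ ≤ r := by
    have := intervalIntegral.norm_integral_le_of_norm_le_const (a := a) (b := a + r)
      (f := fun z => ee (c * z)) (C := 1) (fun z _ => (ee_norm _).le)
    rwa [one_mul, add_sub_cancel_left, abs_of_nonneg hr] at this
  unfold Bd
  split_ifs with h
  · exact h1
  · exact le_min h1 (int_ee c h a r)

theorem moment2 (f : ℕ → ℤ) (M q : ℕ) (hq : 1 ≤ q) (a r : ℝ) (hr : 0 ≤ r) :
    ∑ p ∈ Finset.range q, ∫ z in a..(a + r),
      ‖∑ j ∈ Finset.range M, ee ((f j : ℝ) * ((p : ℝ) / q + z))‖ ^ 2 ≤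
      q * ∑ i ∈ Finset.range M, ∑ j ∈ Finset.range M,
        if (q : ℤ) ∣ (f i - f j) then Bd r (f i - f j) else 0 := by
  classical
  have hcont : ∀ p : ℕ, Continuous (fun z : ℝ =>
      ‖∑ j ∈ Finset.range M, ee ((f j : ℝ) * ((p : ℝ) / q + z))‖ ^ 2) := by
    intro p
    unfold ee
    fun_prop
  rw [← intervalIntegral.integral_finsetSum (fun p _ => (hcont p).intervalIntegrable _ _)]
  set G : ℝ → ℝ := fun z => ∑ p ∈ Finset.range q,
    ‖∑ j ∈ Finset.range M, ee ((f j : ℝ) * ((p : ℝ) / q + z))‖ ^ 2 with hG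
  have hG0 : ∀ z, 0 ≤ G z := fun z => Finset.sum_nonneg (fun _ _ => by positivity)
  have hGC : ∀ z : ℝ, ((G z : ℝ) : ℂ) = ∑ i ∈ Finset.range M, ∑ j ∈ Finset.range M,
      (if (q : ℤ) ∣ (f i - f j) then (q : ℂ) else 0) * ee (((f i - f j : ℤ) : ℝ) * z) := by
    intro z
    have h1 : ∀ p : ℕ, ((‖∑ j ∈ Finset.range M, ee ((f j : ℝ) * ((p : ℝ) / q + z))‖ ^ 2 : ℝ) : ℂ) =
        ∑ i ∈ Finset.range M, ∑ j ∈ Finset.range M,
          ee (((f i - f j : ℤ) : ℝ) * ((p : ℝ) / q)) * ee (((f i - f j : ℤ) : ℝ) * z) := by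
      intro p
      rw [Complex.ofReal_pow, ← Complex.mul_conj', map_sum, Finset.sum_mul_sum]
      refine Finset.sum_congr rfl fun i _ => Finset.sum_congr rfl fun j _ => ?_
      rw [← ee_neg, ← ee_add, ← ee_add]
      congr 1
      push_cast; ring
    rw [hG]
    simp only
    rw [Complex.ofReal_sum]
    simp_rw [h1]
    rw [Finset.sum_comm]
    refine Finset.sum_congr rfl fun i _ => ?_
    rw [Finset.sum_comm]
    refine Finset.sum_congr rfl fun j _ => ?_
    rw [← Finset.sum_mul, sum_res q hq]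
  have hint : ((∫ z in a..(a + r), G z : ℝ) : ℂ) = ∑ i ∈ Finset.range M, ∑ j ∈ Finset.range M,
      (if (q : ℤ) ∣ (f i - f j) then (q : ℂ) else 0) *
        ∫ z in a..(a + r), ee (((f i - f j : ℤ) : ℝ) * z) := by
    rw [← intervalIntegral.integral_ofReal]
    simp_rw [hGC]
    rw [intervalIntegral.integral_finsetSum]
    · refine Finset.sum_congr rfl fun i _ => ?_
      rw [intervalIntegral.integral_finsetSum]
      · refine Finset.sum_congr rfl fun j _ => ?_
        rw [intervalIntegral.integral_const_mul]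
      · intro j _
        exact ((ee_cont _).const_mul _).intervalIntegrable _ _ 
    · intro i _
      apply Continuous.intervalIntegrable
      exact continuous_finsetSum _ (fun j _ => continuous_const.mul (ee_cont _))
  have h2 : ∫ z in a..(a + r), G z = ‖((∫ z in a..(a + r), G z : ℝ) : ℂ)‖ := by
    rw [Complex.norm_real, Real.norm_eq_abs, abs_of_nonneg]
    exact intervalIntegral.integral_nonneg (by linarith) (fun z _ => hG0 z)
  rw [h2, hint]
  refine (norm_sum_le _ _).trans ?_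
  rw [Finset.mul_sum]
  refine Finset.sum_le_sum fun i _ => ?_
  refine (norm_sum_le _ _).trans ?_
  rw [Finset.mul_sum]
  refine Finset.sum_le_sum fun j _ => ?_
  rw [norm_mul]
  split_ifs with hd
  · rw [Complex.norm_natCast]
    exact mul_le_mul_of_nonneg_left (int_le_Bd _ _ _ hr) (Nat.cast_nonneg _)
  · simp

end Pool.Agent.W71
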