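import Mathlib
import Pool.Agent.W71.Weyl1

/-! Counting resonances. -/

set_option autoImplicit false

open MeasureTheory Set Filter Topology

namespace Pool.Agent.W71

open Pool.Agent.H493R3 (ee ee_norm ee_add ee_neg ee_int ee_zpow sep_card sym_sum)

lemma sum_tail (K : ℕ) : ∑ k ∈ Finset.range K, ((k : ℝ) + 1) * (1 / 2) ^ k =
    4 - (2 * K + 4) * (1 / 2) ^ K := by
  induction K with
  | zero => simp
  | succ K ih =>
    rw [Finset.sum_range_succ, ih, pow_succ]
    push_cast
    ring

/-- resonances force a large gap -/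
lemma res_gap (q b h : ℕ) (hb : 2 ≤ b) (hh : 1 ≤ h) (hcop : Nat.Coprime q b) (s : ℕ)
    (hs : h * b ^ s ≤ q) (i j : ℕ) (hij : i < j)
    (hd : (q : ℤ) ∣ ((h : ℤ) * (b : ℤ) ^ j - (h : ℤ) * (b : ℤ) ^ i)) : s < j - i := by
  obtain ⟨e, rfl⟩ : ∃ e, j = i + e := ⟨j - i, by omega⟩
  have he : 1 ≤ e := by omega
  have h1 : ((h : ℤ) * (b : ℤ) ^ (i + e) - (h : ℤ) * (b : ℤ) ^ i) =
      (b : ℤ) ^ i * ((h : ℤ) * ((b : ℤ) ^ e - 1)) := by rw [pow_add]; ring
  rw [h1] at hd
  have hcop' : IsCoprime (q : ℤ) ((b : ℤ) ^ i) :=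
    (Nat.isCoprime_iff_coprime.2 hcop).pow_right
  have h2 := hcop'.dvd_of_dvd_mul_left hd
  have hb0 : (1 : ℤ) < (b : ℤ) ^ e := by
    have : (1 : ℤ) < b := by exact_mod_cast (by omega : 1 < b)
    exact one_lt_pow₀ this (by omega)
  have hh0 : (0 : ℤ) < h := by exact_mod_cast hh
  have h3 := Int.le_of_dvd (mul_pos hh0 (by omega)) h2
  have h4 : ((h * b ^ s : ℕ) : ℤ) ≤ q := by exact_mod_cast hs
  push_cast at h4
  have h5 : (h : ℤ) * (b : ℤ) ^ s < (h : ℤ) * (b : ℤ) ^ e := by
    calc (h : ℤ) * (b : ℤ) ^ s ≤ q := h4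
      _ ≤ (h : ℤ) * ((b : ℤ) ^ e - 1) := h3
      _ < _ := by nlinarith
  have h6 : (b : ℤ) ^ s < (b : ℤ) ^ e := lt_of_mul_lt_mul_left h5 hh0.le
  have h7 : b ^ s < b ^ e := by exact_mod_cast h6
  have h8 := (Nat.pow_lt_pow_iff_right (by omega : 1 < b)).1 h7
  omega

theorem count_res (q b h : ℕ) (hb : 2 ≤ b) (hh : 1 ≤ h) (hcop : Nat.Coprime q b) (s : ℕ)
    (hs1 : 1 ≤ s) (hs : h * b ^ s ≤ q) (r : ℝ) (hr : 0 < r) (R : ℕ) (hR : 1 ≤ r * (b : ℝ) ^ R)
    (M : ℕ) :
    ∑ i ∈ Finset.range M, ∑ j ∈ Finset.range M,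
      (if (q : ℤ) ∣ ((h : ℤ) * (b : ℤ) ^ i - (h : ℤ) * (b : ℤ) ^ j) then
        Bd r ((h : ℤ) * (b : ℤ) ^ i - (h : ℤ) * (b : ℤ) ^ j) else 0) ≤
      r * (M + 2 * (R * ((R / s : ℕ) + 1) + 8 * (R + 1))) := by
  classical
  set f : ℕ → ℤ := fun i => (h : ℤ) * (b : ℤ) ^ i with hf
  set G : ℕ → ℕ → ℝ := fun i j => if (q : ℤ) ∣ (f i - f j) then Bd r (f i - f j) else 0 with hG
  have hsym : ∀ i j, G i j = G j i := by
    intro i j
    simp only [hG]
    have h1 : f j - f i = -(f i - f j) := by ring
    rw [h1, Bd_neg]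
    simp only [dvd_neg]
  have hmain := sym_sum G hsym 0 M (Nat.zero_le _)
  have h0 : ∀ N, Finset.Ico 0 N = Finset.range N := fun N => by
    ext x; simp
  simp only [h0] at hmain
  change ∑ i ∈ Finset.range M, ∑ j ∈ Finset.range M, G i j ≤ _
  rw [hmain]
  have hb0 : (0 : ℝ) < b := by exact_mod_cast (by omega : 0 < b)
  have hb2 : (2 : ℝ) ≤ b := by exact_mod_cast hb
  have hhR : (1 : ℝ) ≤ h := by exact_mod_cast hh
  -- diagonal
  have hdiag : ∀ j, G j j ≤ r := by
    intro j
    simp only [hG]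
    rw [sub_self, if_pos (dvd_zero _)]
    exact Bd_le_r _
  -- the size of the resonance sets
  set J : ℕ → Finset ℕ := fun j => (Finset.range j).filter (fun i => (q : ℤ) ∣ (f i - f j)) with hJ
  have hJcard : ∀ j, (J j).card ≤ j / s + 1 := by
    intro j
    apply sep_card j s hs1 (J j) (Finset.filter_subset _ _)
    intro i hi i' hi' hii
    simp only [hJ, Finset.mem_filter, Finset.mem_range] at hi hi'
    have hd : (q : ℤ) ∣ (f i' - f i) := by
      have := dvd_sub hi'.2 hi.2
      have e : f i' - f j - (f i - f j) = f i' - f i := by ring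
      rwa [e] at this
    exact (res_gap q b h hb hh hcop s hs i i' hii hd).le
  -- off-diagonal terms
  set D : ℕ → ℝ := fun j => if j < R then ((R / s : ℕ) + 1) * r else
    2 * r * (R + 1) * (((j - R : ℕ) : ℝ) + 1) * (1 / 2) ^ (j - R) with hD
  have hD0 : ∀ j, 0 ≤ D j := by
    intro j; simp only [hD]; split_ifs <;> positivity
  have hoff : ∀ j, ∑ i ∈ Finset.range j, G i j ≤ D j := by
    intro j
    have h1 : ∑ i ∈ Finset.range j, G i j = ∑ i ∈ J j, Bd r (f i - f j) := by
      simp only [hJ, Finset.sum_filter, hG]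
    rw [h1]
    by_cases hj : j < R
    · simp only [hD, if_pos hj]
      calc ∑ i ∈ J j, Bd r (f i - f j) ≤ ∑ _i ∈ J j, r := Finset.sum_le_sum (fun _ _ => Bd_le_r _)
        _ = (J j).card * r := by rw [Finset.sum_const, nsmul_eq_mul]
        _ ≤ ((R / s : ℕ) + 1) * r := by
            apply mul_le_mul_of_nonneg_right _ hr.le
            have h2 : (J j).card ≤ R / s + 1 :=
              (hJcard j).trans (Nat.add_le_add_right (Nat.div_le_div_right hj.le) 1)
            exact_mod_cast h2
    · simp only [hD, if_neg hj]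
      push Not at hj
      have hpowR : (b : ℝ) ^ j = (b : ℝ) ^ R * (b : ℝ) ^ (j - R) := by
        rw [← pow_add]; congr 1; omega
      have hbd : ∀ i ∈ J j, Bd r (f i - f j) ≤ 2 * r * (1 / 2) ^ (j - R) := by
        intro i hi
        simp only [hJ, Finset.mem_filter, Finset.mem_range] at hi
        have hlt : i < j := hi.1
        have h2 : (b : ℝ) ^ j / 2 ≤ |((f i - f j : ℤ) : ℝ)| := by
          simp only [hf]
          push_cast
          rw [abs_sub_comm, ← mul_sub, abs_mul, abs_of_pos (by linarith : (0 : ℝ) < h)]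
          have h3 : (b : ℝ) ^ i ≤ (b : ℝ) ^ j / 2 := by
            obtain ⟨e, rfl⟩ : ∃ e, j = i + 1 + e := ⟨j - i - 1, by omega⟩
            rw [pow_add, pow_add, pow_one]
            have h4 : (1 : ℝ) ≤ (b : ℝ) ^ e := one_le_pow₀ (by linarith)
            have h5 : (0 : ℝ) < (b : ℝ) ^ i := by positivity
            rw [le_div_iff₀ (by norm_num)]
            calc (b : ℝ) ^ i * 2 ≤ (b : ℝ) ^ i * b := mul_le_mul_of_nonneg_left hb2 h5.le
              _ = (b : ℝ) ^ i * b * 1 := (mul_one _).symm
              _ ≤ _ := mul_le_mul_of_nonneg_left h4 (by positivity)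
          rw [abs_of_nonneg (by have : (0 : ℝ) < (b : ℝ) ^ j := by positivity
                                linarith)]
          have h6 : (0 : ℝ) ≤ (b : ℝ) ^ j - (b : ℝ) ^ i := by
            have : (0 : ℝ) < (b : ℝ) ^ j := by positivity
            linarith
          nlinarith
        have hpos : (0 : ℝ) < (b : ℝ) ^ j / 2 := by positivity
        have hne : f i - f j ≠ 0 := by
          intro h3
          rw [h3, Int.cast_zero, abs_zero] at h2
          linarith
        unfold Bd
        rw [if_neg hne]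
        refine (min_le_right _ _).trans ?_
        calc 1 / |((f i - f j : ℤ) : ℝ)| ≤ 1 / ((b : ℝ) ^ j / 2) :=
              one_div_le_one_div_of_le hpos h2
          _ = 2 * (1 / (b : ℝ) ^ R) * (1 / (b : ℝ)) ^ (j - R) := by
              rw [hpowR, one_div_pow]; field_simp
          _ ≤ 2 * r * (1 / 2) ^ (j - R) := by
              have h7 : 1 / (b : ℝ) ^ R ≤ r := by
                rw [div_le_iff₀ (by positivity)]; exact hR
              have h8 : (1 / (b : ℝ)) ^ (j - R) ≤ (1 / 2) ^ (j - R) :=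
                pow_le_pow_left₀ (by positivity) (one_div_le_one_div_of_le (by norm_num) hb2) _
              apply mul_le_mul _ h8 (by positivity) (by positivity)
              linarith
      calc ∑ i ∈ J j, Bd r (f i - f j) ≤ ∑ _i ∈ J j, 2 * r * (1 / 2) ^ (j - R) :=
            Finset.sum_le_sum hbd
        _ = (J j).card * (2 * r * (1 / 2) ^ (j - R)) := by rw [Finset.sum_const, nsmul_eq_mul]
        _ ≤ ((R + 1) * (((j - R : ℕ) : ℝ) + 1)) * (2 * r * (1 / 2) ^ (j - R)) := by
            apply mul_le_mul_of_nonneg_right _ (by positivity)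
            have h2 : (J j).card ≤ j + 1 :=
              (hJcard j).trans (Nat.add_le_add_right (Nat.div_le_self _ _) 1)
            have h3 : j + 1 ≤ (R + 1) * ((j - R) + 1) := by
              obtain ⟨e, rfl⟩ : ∃ e, j = R + e := ⟨j - R, by omega⟩
              rw [Nat.add_sub_cancel_left]
              nlinarith
            exact_mod_cast h2.trans h3
        _ = _ := by ring
  have hsumD : ∑ j ∈ Finset.range M, D j ≤ R * (((R / s : ℕ) + 1) * r) + 8 * r * (R + 1) := by
    calc ∑ j ∈ Finset.range M, D j ≤ ∑ j ∈ Finset.range (R + M), D j := by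
          apply Finset.sum_le_sum_of_subset_of_nonneg
          · intro x hx; rw [Finset.mem_range] at hx ⊢; omega
          · intro j _ _; exact hD0 j
      _ = ∑ j ∈ Finset.range R, D j + ∑ k ∈ Finset.range M, D (R + k) :=
          Finset.sum_range_add _ _ _
      _ ≤ R * (((R / s : ℕ) + 1) * r) + 8 * r * (R + 1) := by
          apply add_le_add
          · apply le_of_eq
            rw [Finset.sum_congr rfl (fun j hj => by
              simp only [hD, if_pos (Finset.mem_range.1 hj)] : ∀ j ∈ Finset.range R,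
                D j = ((R / s : ℕ) + 1) * r), Finset.sum_const, Finset.card_range, nsmul_eq_mul]
          · have h1 : ∀ k, D (R + k) = 2 * r * (R + 1) * (((k : ℝ) + 1) * (1 / 2) ^ k) := by
              intro k
              simp only [hD, if_neg (by omega : ¬ R + k < R), Nat.add_sub_cancel_left]
              ring
            simp_rw [h1]
            rw [← Finset.mul_sum, sum_tail]
            have h2 : (0 : ℝ) ≤ (2 * M + 4) * (1 / 2) ^ M := by positivity
            have h3 : (0 : ℝ) ≤ 2 * r * (R + 1) := by positivity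
            nlinarith
  calc ∑ j ∈ Finset.range M, (G j j + 2 * ∑ i ∈ Finset.range j, G i j)
      ≤ ∑ j ∈ Finset.range M, (r + 2 * D j) := by
        refine Finset.sum_le_sum fun j _ => ?_
        have := hdiag j
        have := hoff j
        linarith
    _ = M * r + 2 * ∑ j ∈ Finset.range M, D j := by
        rw [Finset.sum_add_distrib, ← Finset.mul_sum, Finset.sum_const, Finset.card_range,
          nsmul_eq_mul]
    _ ≤ M * r + 2 * (R * (((R / s : ℕ) + 1) * r) + 8 * r * (R + 1)) := by linarith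
    _ = _ := by ring

end Pool.Agent.W71
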