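import Mathlib
import Pool.Agent.W71.Weyl2

/-! Weyl sums are small at most points of most windows. -/

set_option autoImplicit false

open MeasureTheory Set Filter Topology

namespace Pool.Agent.W71

open Pool.Agent.H493R3 (ee ee_norm ee_add ee_neg ee_int ee_zpow sep_card sym_sum)

/-- Weyl sum -/
noncomputable def Sw (b h M : ℕ) (ξ : ℝ) : ℂ := ∑ j ∈ Finset.range M, ee (h * (ξ * (b : ℝ) ^ j))

lemma Sw_cont (b h M : ℕ) : Continuous (Sw b h M) := by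
  unfold Sw ee; fun_prop

lemma Sw_shift (b h M : ℕ) (ξ : ℝ) (k : ℤ) : Sw b h M (k + ξ) = Sw b h M ξ := by
  unfold Sw
  refine Finset.sum_congr rfl fun j _ => ?_
  have h1 : (h : ℝ) * ((k + ξ) * (b : ℝ) ^ j) = (((h : ℤ) * (k * (b : ℤ) ^ j) : ℤ) : ℝ) +
      h * (ξ * (b : ℝ) ^ j) := by push_cast; ring
  rw [h1, ee_add, ee_int, one_mul]

lemma Sw_diff (b h M M' : ℕ) (hM : M ≤ M') (ξ : ℝ) :
    ‖Sw b h M' ξ‖ ≤ ‖Sw b h M ξ‖ + (M' - M : ℕ) := by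
  have h1 : Sw b h M' ξ = Sw b h M ξ + ∑ j ∈ Finset.Ico M M', ee (h * (ξ * (b : ℝ) ^ j)) := by
    unfold Sw
    rw [Finset.sum_range_add_sum_Ico _ hM]
  rw [h1]
  refine (norm_add_le _ _).trans (add_le_add le_rfl ?_)
  refine (norm_sum_le _ _).trans ?_
  simp [ee_norm]

section
variable {ℓ : ℕ} [hp : Fact ℓ.Prime]

/-- the second moment over the windows -/
theorem moment_window (b h : ℕ) (hb : 2 ≤ b) (hh : 1 ≤ h) (hbℓ : b < ℓ) (e : ℝ) (E : ℕ)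
    (hE : 1 ≤ E) (heE : e ≤ E) (m T : ℕ) (hT : T = Nat.log b (ℓ ^ m)) (hT1 : 2 * h + 1 ≤ T)
    (a : ℝ) (M : ℕ) (hM : T ≤ 4 * M) :
    ∑ p ∈ Finset.range (ℓ ^ m), ∫ z in a..(a + rad ℓ e m),
      ‖Sw b h M ((p : ℝ) / (ℓ : ℝ) ^ m + z)‖ ^ 2 ≤
      (1 + 16 * E * (2 * E + 1) + 144 * E) * M * ((ℓ : ℝ) ^ m * rad ℓ e m) := by
  have hℓpos : (0 : ℝ) < ℓ := by exact_mod_cast hp.out.pos
  have hℓ1 : (1 : ℝ) < ℓ := by exact_mod_cast hp.out.one_lt
  have hbR : (1 : ℝ) < b := by exact_mod_cast (by omega : 1 < b)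
  set q := ℓ ^ m with hq
  have hqpos : 0 < q := pow_pos hp.out.pos _
  have hqR : ((q : ℕ) : ℝ) = (ℓ : ℝ) ^ m := by rw [hq]; push_cast; rfl
  have hcop : Nat.Coprime q b := by
    apply Nat.Coprime.pow_left
    rw [Nat.Prime.coprime_iff_not_dvd hp.out]
    intro hd
    have := Nat.le_of_dvd (by omega) hd
    omega
  have hlog1 : b ^ T ≤ q := by rw [hT]; exact Nat.pow_log_le_self b hqpos.ne'
  have hlog2 : q < b ^ (T + 1) := by rw [hT]; exact Nat.lt_pow_succ_log_self (by omega) q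
  set r := rad ℓ e m with hr
  have hr0 : 0 < r := rad_pos _ _ _
  set s := T - h with hs
  have hs1 : 1 ≤ s := by omega
  have hhs : h * b ^ s ≤ q := by
    calc h * b ^ s ≤ b ^ h * b ^ s := Nat.mul_le_mul_right _ (Nat.lt_pow_self (by omega)).le
      _ = b ^ T := by rw [← pow_add]; congr 1; omega
      _ ≤ q := hlog1
  set R := (T + 1) * E with hR
  have hrR : 1 ≤ r * (b : ℝ) ^ R := by
    have h1 : r = (((q : ℕ) : ℝ) ^ e)⁻¹ := by
      rw [hqR, ← Real.rpow_natCast, ← Real.rpow_mul hℓpos.le, ← Real.rpow_neg hℓpos.le,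
        Real.rpow_def_of_pos hℓpos, hr]
      unfold rad
      congr 1; ring
    have h2 : ((q : ℕ) : ℝ) ^ e ≤ (b : ℝ) ^ R := by
      have hq1 : (1 : ℝ) ≤ (q : ℝ) := by exact_mod_cast hqpos
      calc ((q : ℕ) : ℝ) ^ e ≤ ((q : ℕ) : ℝ) ^ (E : ℝ) := Real.rpow_le_rpow_of_exponent_le hq1 heE
        _ = ((q : ℕ) : ℝ) ^ E := Real.rpow_natCast _ _
        _ ≤ ((b : ℝ) ^ (T + 1)) ^ E := by
            apply pow_le_pow_left₀ (by positivity)
            exact_mod_cast hlog2.le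
        _ = (b : ℝ) ^ R := by rw [← pow_mul]
    have h3 : 0 < ((q : ℕ) : ℝ) ^ e := Real.rpow_pos_of_pos (by exact_mod_cast hqpos) _
    rw [h1, inv_mul_eq_div, one_le_div h3]
    exact h2
  have hmom := moment2 (fun j => (h : ℤ) * (b : ℤ) ^ j) M q (by omega) a r hr0.le
  have hcnt := count_res q b h hb hh hcop s hs1 hhs r hr0 R hrR M
  have hSw : ∀ p : ℕ, ∀ z : ℝ, ‖Sw b h M ((p : ℝ) / (ℓ : ℝ) ^ m + z)‖ ^ 2 =
      ‖∑ j ∈ Finset.range M, ee ((((h : ℤ) * (b : ℤ) ^ j : ℤ) : ℝ) * ((p : ℝ) / q + z))‖ ^ 2 := by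
    intro p z
    unfold Sw
    congr 2
    refine Finset.sum_congr rfl fun j _ => ?_
    congr 1
    rw [hqR]
    push_cast; ring
  simp_rw [hSw]
  refine hmom.trans ?_
  refine (mul_le_mul_of_nonneg_left hcnt (Nat.cast_nonneg _)).trans ?_
  have hRs : R / s ≤ 2 * E := by
    apply Nat.div_le_of_le_mul
    rw [hR, hs]
    have : T + 1 ≤ (T - h) * 2 := by omega
    calc (T + 1) * E ≤ ((T - h) * 2) * E := Nat.mul_le_mul_right _ this
      _ = _ := by ring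
  have hRM : R ≤ 8 * E * M := by
    rw [hR]
    have : T + 1 ≤ 8 * M := by omega
    calc (T + 1) * E ≤ (8 * M) * E := Nat.mul_le_mul_right _ this
      _ = _ := by ring
  have hRM1 : R + 1 ≤ 9 * E * M := by
    have : 1 ≤ E * M := Nat.mul_pos hE (by omega)
    nlinarith
  have h1 : ((R / s : ℕ) : ℝ) ≤ 2 * E := by exact_mod_cast hRs
  have h2 : (R : ℝ) ≤ 8 * E * M := by exact_mod_cast hRM
  have h3 : (R : ℝ) + 1 ≤ 9 * E * M := by exact_mod_cast hRM1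
  have hE0 : (0 : ℝ) ≤ E := Nat.cast_nonneg _
  have hM0 : (0 : ℝ) ≤ M := Nat.cast_nonneg _
  have h4 : (R : ℝ) * (((R / s : ℕ) : ℝ) + 1) ≤ (8 * E * M) * (2 * E + 1) :=
    mul_le_mul h2 (by linarith) (by positivity) (by positivity)
  have h5 : (M : ℝ) + 2 * (R * (((R / s : ℕ) : ℝ) + 1) + 8 * (R + 1)) ≤
      (1 + 16 * E * (2 * E + 1) + 144 * E) * M := by nlinarith
  rw [hqR]
  calc (ℓ : ℝ) ^ m * (r * (M + 2 * (R * (((R / s : ℕ) : ℝ) + 1) + 8 * (R + 1))))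
      ≤ (ℓ : ℝ) ^ m * (r * ((1 + 16 * E * (2 * E + 1) + 144 * E) * M)) := by gcongr
    _ = _ := by ring

end

end Pool.Agent.W71
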