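import Mathlib
import Pool.Agent.W71.Weyl3

/-! Weyl sums are small at most points of most windows. -/

set_option autoImplicit false

open MeasureTheory Set Filter Topology

namespace Pool.Agent.W71

open Pool.Agent.H493R3 (ee ee_norm ee_add ee_neg ee_int ee_zpow sep_card sym_sum)

/-- Chebyshev on an interval -/
lemma cheb (g : ℝ → ℝ) (hg : Continuous g) (hg0 : ∀ z, 0 ≤ g z) (a r : ℝ) (hr : 0 ≤ r) (η : ℝ)
    (hη : 0 < η) : volume {z ∈ Ico a (a + r) | η < g z} ≤
      ENNReal.ofReal (η⁻¹ * ∫ z in a..(a + r), g z) := by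
  have h1 : volume {z ∈ Ico a (a + r) | η < g z} ≤
      (volume.restrict (Ioc a (a + r))) {z | η ≤ g z} := by
    have hm : MeasurableSet {z | η ≤ g z} := measurableSet_le measurable_const hg.measurable
    rw [Measure.restrict_apply hm]
    have h2 : {z ∈ Ico a (a + r) | η < g z} ⊆ ({z | η ≤ g z} ∩ Ioc a (a + r)) ∪ {a} := by
      rintro z ⟨hz, hz'⟩
      rcases hz.1.lt_or_eq with h | h
      · exact Or.inl ⟨hz'.le, h, hz.2.le⟩
      · exact Or.inr h.symm
    refine (measure_mono h2).trans ((measure_union_le _ _).trans ?_)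
    simp
  refine h1.trans ?_
  have hint : Integrable g (volume.restrict (Ioc a (a + r))) :=
    (hg.integrableOn_Icc).mono_set Ioc_subset_Icc_self
  have h3 := mul_meas_ge_le_integral_of_nonneg (μ := volume.restrict (Ioc a (a + r)))
    (ae_of_all _ hg0) hint η
  rw [← intervalIntegral.integral_of_le (by linarith)] at h3
  have hfin : (volume.restrict (Ioc a (a + r))) {z | η ≤ g z} ≠ ⊤ := measure_ne_top _ _
  rw [← ENNReal.ofReal_toReal hfin]
  apply ENNReal.ofReal_le_ofReal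
  rw [measureReal_def] at h3
  rw [inv_mul_eq_div, le_div_iff₀ hη, mul_comm]
  exact h3

lemma sum_inv_sq (I n : ℕ) (hI : 1 ≤ I) :
    ∑ k ∈ Finset.range n, (1 : ℝ) / ((I + k : ℕ) : ℝ) ^ 2 ≤ 2 / I := by
  have h1 := sum_Ioo_inv_sq_le (α := ℝ) (I - 1) (I + n)
  have h2 : (((I - 1 : ℕ) : ℝ) + 1) = I := by
    rw [Nat.cast_sub hI]; push_cast; ring
  rw [h2] at h1
  refine le_trans (le_of_eq ?_) h1
  have h3 : Finset.Ioo (I - 1) (I + n) = (Finset.range n).image (fun k => I + k) := by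
    ext x
    simp only [Finset.mem_Ioo, Finset.mem_image, Finset.mem_range]
    constructor
    · intro h; exact ⟨x - I, by omega, by omega⟩
    · rintro ⟨k, hk, rfl⟩; omega
  rw [h3, Finset.sum_image (fun a _ b _ hab => by omega)]
  refine Finset.sum_congr rfl fun k _ => ?_
  rw [one_div]

section
variable {ℓ : ℕ} [hp : Fact ℓ.Prime]

theorem Typical.weyl (b h : ℕ) (hb : 2 ≤ b) (hh : 1 ≤ h) (hbℓ : b < ℓ) (β e : ℝ) (η : ℝ)
    (hη : 0 < η) : Typical ℓ β e (fun m ξ => ∀ M : ℕ, Nat.log b (ℓ ^ m) ≤ M →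
      ‖Sw b h M ξ‖ ≤ η * M) := by
  classical
  intro δ hδ
  have hℓpos : (0 : ℝ) < ℓ := by exact_mod_cast hp.out.pos
  obtain ⟨E0, hE0⟩ := exists_nat_ge e
  set E := E0 + 1 with hE
  have hE1 : 1 ≤ E := by omega
  have heE : e ≤ E := by rw [hE]; push_cast; linarith
  set C2 : ℝ := 1 + 16 * E * (2 * E + 1) + 144 * E with hC2
  have hC20 : 0 < C2 := by positivity
  set η' := η / 2 with hη'
  have hη'0 : 0 < η' := by positivity
  obtain ⟨I1, hI1⟩ := exists_nat_ge (2 / η')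
  obtain ⟨I2, hI2⟩ := exists_nat_ge (2 * C2 / (η' ^ 2 * δ ^ 2))
  set Is := max (max I1 I2) 1 with hIs
  have hIs1 : 1 ≤ Is := le_max_right _ _
  have hIsI1 : I1 ≤ Is := (le_max_left _ _).trans (le_max_left _ _)
  have hIsI2 : I2 ≤ Is := (le_max_right _ _).trans (le_max_left _ _)
  refine ⟨max (2 * h + 1) (Is ^ 2), fun m hm => ?_⟩
  set q := ℓ ^ m with hq
  have hqpos : 0 < q := pow_pos hp.out.pos _
  have hqR : ((q : ℕ) : ℝ) = (ℓ : ℝ) ^ m := by rw [hq]; push_cast; rfl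
  have hqR0 : (0 : ℝ) < (ℓ : ℝ) ^ m := by positivity
  set T := Nat.log b q with hT
  have hmT : m ≤ T := by
    apply Nat.le_log_of_pow_le (by omega)
    rw [hq]
    exact Nat.pow_le_pow_left hbℓ.le _
  have hT1 : 2 * h + 1 ≤ T := ((le_max_left _ _).trans hm).trans hmT
  have hT2 : Is ^ 2 ≤ T := ((le_max_right _ _).trans hm).trans hmT
  set I0 := Nat.sqrt T with hI0
  have hIsI0 : Is ≤ I0 := by rw [hI0, Nat.le_sqrt']; exact hT2
  have hI01 : 1 ≤ I0 := hIs1.trans hIsI0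
  have hI0R : (0 : ℝ) < I0 := by exact_mod_cast hI01
  set r := rad ℓ e m with hr
  have hr0 : 0 < r := rad_pos _ _ _
  set a := β + r with ha
  -- bad sets
  set V : ℕ → Set ℝ := fun p => {z ∈ Ico a (a + r) | ∃ i : ℕ, I0 ≤ i ∧
    η' * ((i ^ 2 : ℕ) : ℝ) < ‖Sw b h (i ^ 2) ((p : ℝ) / (ℓ : ℝ) ^ m + z)‖} with hV
  -- second moments
  set MO : ℕ → ℕ → ℝ := fun p i => ∫ z in a..(a + r),
    ‖Sw b h (i ^ 2) ((p : ℝ) / (ℓ : ℝ) ^ m + z)‖ ^ 2 with hMO
  have hMO0 : ∀ p i, 0 ≤ MO p i := by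
    intro p i
    exact intervalIntegral.integral_nonneg (by linarith) (fun z _ => by positivity)
  have hmom : ∀ i, I0 ≤ i → ∑ p ∈ Finset.range q, MO p i ≤ C2 * ((i ^ 2 : ℕ) : ℝ) *
      ((ℓ : ℝ) ^ m * r) := by
    intro i hi
    apply moment_window b h hb hh hbℓ e E hE1 heE m T hT hT1 a (i ^ 2)
    have h1 : T < (I0 + 1) ^ 2 := by rw [hI0]; exact Nat.lt_succ_sqrt' T
    have h2 : I0 ^ 2 ≤ i ^ 2 := Nat.pow_le_pow_left hi 2
    nlinarith
  have hVle : ∀ p, volume (V p) ≤ ∑' k : ℕ, ENNReal.ofReal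
      ((η' ^ 2 * (((I0 + k) ^ 2 : ℕ) : ℝ) ^ 2)⁻¹ * MO p (I0 + k)) := by
    intro p
    have hsub : V p ⊆ ⋃ k : ℕ, {z ∈ Ico a (a + r) | η' ^ 2 * (((I0 + k) ^ 2 : ℕ) : ℝ) ^ 2 <
        ‖Sw b h ((I0 + k) ^ 2) ((p : ℝ) / (ℓ : ℝ) ^ m + z)‖ ^ 2} := by
      rintro z ⟨hz, i, hi, hz'⟩
      rw [mem_iUnion]
      refine ⟨i - I0, hz, ?_⟩
      rw [Nat.add_sub_cancel' hi, ← mul_pow]
      exact pow_lt_pow_left₀ hz' (by positivity) (by norm_num)
    refine (measure_mono hsub).trans ((measure_iUnion_le _).trans (ENNReal.tsum_le_tsum fun k => ?_))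
    apply cheb (fun z => ‖Sw b h ((I0 + k) ^ 2) ((p : ℝ) / (ℓ : ℝ) ^ m + z)‖ ^ 2)
      (((Sw_cont b h _).comp (continuous_const.add continuous_id)).norm.pow 2)
      (fun z => by positivity) a r hr0.le
    have : 0 < I0 + k := by omega
    positivity
  have htotal : ∑ p ∈ Finset.range q, volume (V p) ≤ ENNReal.ofReal (δ ^ 2 * ((ℓ : ℝ) ^ m * r)) := by
    calc ∑ p ∈ Finset.range q, volume (V p)
        ≤ ∑ p ∈ Finset.range q, ∑' k : ℕ, ENNReal.ofReal
            ((η' ^ 2 * (((I0 + k) ^ 2 : ℕ) : ℝ) ^ 2)⁻¹ * MO p (I0 + k)) :=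
          Finset.sum_le_sum (fun p _ => hVle p)
      _ = ∑' k : ℕ, ∑ p ∈ Finset.range q, ENNReal.ofReal
            ((η' ^ 2 * (((I0 + k) ^ 2 : ℕ) : ℝ) ^ 2)⁻¹ * MO p (I0 + k)) := by
          rw [Summable.tsum_finsetSum (fun _ _ => ENNReal.summable)]
      _ ≤ ∑' k : ℕ, ENNReal.ofReal ((C2 / η' ^ 2 * ((ℓ : ℝ) ^ m * r)) *
            (1 / ((I0 + k : ℕ) : ℝ) ^ 2)) := by
          apply ENNReal.tsum_le_tsum
          intro k
          rw [← ENNReal.ofReal_sum_of_nonneg (fun p _ => by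
            have := hMO0 p (I0 + k)
            positivity), ← Finset.mul_sum]
          apply ENNReal.ofReal_le_ofReal
          have hpos : (0 : ℝ) < ((I0 + k : ℕ) : ℝ) := by exact_mod_cast (by omega : 0 < I0 + k)
          refine (mul_le_mul_of_nonneg_left (hmom (I0 + k) (Nat.le_add_right _ _))
            (by positivity)).trans (le_of_eq ?_)
          push_cast at hpos ⊢
          field_simp
      _ ≤ ENNReal.ofReal ((C2 / η' ^ 2 * ((ℓ : ℝ) ^ m * r)) * (2 / I0)) := by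
          apply ENNReal.tsum_le_of_sum_range_le
          intro N
          rw [← ENNReal.ofReal_sum_of_nonneg (fun k _ => by positivity), ← Finset.mul_sum]
          apply ENNReal.ofReal_le_ofReal
          exact mul_le_mul_of_nonneg_left (sum_inv_sq I0 N hI01) (by positivity)
      _ ≤ ENNReal.ofReal (δ ^ 2 * ((ℓ : ℝ) ^ m * r)) := by
          apply ENNReal.ofReal_le_ofReal
          have h1 : 2 * C2 / (η' ^ 2 * δ ^ 2) ≤ I0 := by
            refine hI2.trans ?_
            exact_mod_cast hIsI2.trans hIsI0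
          rw [div_le_iff₀ (by positivity)] at h1
          have h2 : C2 / η' ^ 2 * (2 / I0) ≤ δ ^ 2 := by
            rw [div_mul_div_comm, div_le_iff₀ (by positivity)]
            linarith
          calc C2 / η' ^ 2 * ((ℓ : ℝ) ^ m * r) * (2 / I0) =
              (C2 / η' ^ 2 * (2 / I0)) * ((ℓ : ℝ) ^ m * r) := by ring
            _ ≤ _ := mul_le_mul_of_nonneg_right h2 (by positivity)
  -- the exceptional numerators
  refine ⟨(Finset.range q).filter (fun p => ENNReal.ofReal δ * ENNReal.ofReal r < volume (V p)),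
    ?_, ?_⟩
  · set B := (Finset.range q).filter (fun p => ENNReal.ofReal δ * ENNReal.ofReal r < volume (V p))
      with hB
    have h1 : ENNReal.ofReal (B.card * (δ * r)) ≤ ENNReal.ofReal (δ ^ 2 * ((ℓ : ℝ) ^ m * r)) := by
      calc ENNReal.ofReal (B.card * (δ * r)) = ∑ _p ∈ B, ENNReal.ofReal (δ * r) := by
            rw [Finset.sum_const, nsmul_eq_mul, ENNReal.ofReal_mul (by positivity),
              ENNReal.ofReal_natCast]
        _ ≤ ∑ p ∈ B, volume (V p) := by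
            apply Finset.sum_le_sum
            intro p hpB
            rw [hB, Finset.mem_filter] at hpB
            rw [ENNReal.ofReal_mul hδ.le]
            exact hpB.2.le
        _ ≤ ∑ p ∈ Finset.range q, volume (V p) :=
            Finset.sum_le_sum_of_subset (Finset.filter_subset _ _)
        _ ≤ _ := htotal
    rw [ENNReal.ofReal_le_ofReal_iff (by positivity)] at h1
    have h2 : (B.card : ℝ) * (δ * r) ≤ (δ * (ℓ : ℝ) ^ m) * (δ * r) := by
      refine h1.trans (le_of_eq ?_); ring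
    exact le_of_mul_le_mul_right h2 (by positivity)
  · intro p hp1 hp2
    have h1 : volume (V p) ≤ ENNReal.ofReal δ * ENNReal.ofReal r := by
      by_contra hcon
      exact hp2 (Finset.mem_filter.2 ⟨Finset.mem_range.2 hp1, not_le.1 hcon⟩)
    refine le_trans (measure_mono ?_) h1
    rintro z ⟨hz, hz'⟩
    refine ⟨hz, ?_⟩
    by_contra hcon
    push Not at hcon
    apply hz'
    intro M hM
    set i := Nat.sqrt M with hi
    have hiI0 : I0 ≤ i := Nat.sqrt_le_sqrt hM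
    have hi1 : i ^ 2 ≤ M := Nat.sqrt_le' M
    have hi2 : M < (i + 1) ^ 2 := Nat.lt_succ_sqrt' M
    have h2 := Sw_diff b h (i ^ 2) M hi1 ((p : ℝ) / (ℓ : ℝ) ^ m + z)
    have h3 := hcon i hiI0
    have h4 : ((M - i ^ 2 : ℕ) : ℝ) ≤ 2 * i := by
      have : M - i ^ 2 ≤ 2 * i := by
        have : (i + 1) ^ 2 = i ^ 2 + 2 * i + 1 := by ring
        omega
      exact_mod_cast this
    have h5 : 2 / η' ≤ i := by
      refine hI1.trans ?_
      exact_mod_cast (hIsI1.trans hIsI0).trans hiI0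
    rw [div_le_iff₀ hη'0] at h5
    have h6 : (0 : ℝ) ≤ i := Nat.cast_nonneg _
    have h7 : 2 * (i : ℝ) ≤ η' * ((i ^ 2 : ℕ) : ℝ) := by push_cast; nlinarith
    have h8 : ((i ^ 2 : ℕ) : ℝ) ≤ M := by exact_mod_cast hi1
    have h9 : η' * ((i ^ 2 : ℕ) : ℝ) ≤ η' * M := mul_le_mul_of_nonneg_left h8 hη'0.le
    have h10 : η = 2 * η' := by rw [hη']; ring
    rw [h10]
    linarith

end

end Pool.Agent.W71
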