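import Mathlib
import Pool.Agent.W71.Weyl4
import Pool.Agent.W71.Nowhere

/-! Normal numbers with prescribed exponents. -/

set_option autoImplicit false

open Polynomial Set MeasureTheory Filter Topology

namespace Pool.Agent.W71

open Pool.Agent.H493R3 (ee ee_norm ee_add ee_neg ee_int ee_zpow sep_card sym_sum block_freq)

variable {n : ℕ}

lemma ee_lip (x y : ℝ) : ‖ee x - ee y‖ ≤ 7 * |x - y| := by
  have h1 : ee x - ee y = ee y * (ee (x - y) - 1) := by
    rw [mul_sub, mul_one, ← ee_add]; congr 2; ring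
  have h2 : ee (x - y) = Complex.exp (Complex.I * ((2 * Real.pi * (x - y) : ℝ) : ℂ)) := by
    unfold ee
    congr 1
    push_cast; ring
  rw [h1, norm_mul, ee_norm, one_mul, h2]
  refine (Real.norm_exp_I_mul_ofReal_sub_one_le).trans ?_
  rw [Real.norm_eq_abs, abs_mul, abs_of_pos (by positivity : 0 < 2 * Real.pi)]
  have h3 := Real.pi_lt_d2
  have h4 := abs_nonneg (x - y)
  nlinarith

lemma geom_le (b : ℕ) (hb : 2 ≤ b) (M : ℕ) : ∑ j ∈ Finset.range M, (b : ℝ) ^ j ≤ (b : ℝ) ^ M := by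
  have hb2 : (2 : ℝ) ≤ b := by exact_mod_cast hb
  induction M with
  | zero => simp
  | succ M ih =>
    rw [Finset.sum_range_succ, pow_succ]
    have : (0 : ℝ) ≤ (b : ℝ) ^ M := by positivity
    nlinarith

lemma Sw_close (b h M : ℕ) (hb : 2 ≤ b) (ξ α : ℝ) :
    ‖Sw b h M ξ‖ ≤ ‖Sw b h M α‖ + 7 * h * (|ξ - α| * (b : ℝ) ^ M) := by
  have h1 : ‖Sw b h M ξ - Sw b h M α‖ ≤ 7 * h * (|ξ - α| * (b : ℝ) ^ M) := by
    unfold Sw
    rw [← Finset.sum_sub_distrib]
    refine (norm_sum_le _ _).trans ?_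
    calc ∑ j ∈ Finset.range M, ‖ee (h * (ξ * (b : ℝ) ^ j)) - ee (h * (α * (b : ℝ) ^ j))‖
        ≤ ∑ j ∈ Finset.range M, 7 * h * |ξ - α| * (b : ℝ) ^ j := by
          refine Finset.sum_le_sum fun j _ => ?_
          refine (ee_lip _ _).trans (le_of_eq ?_)
          have e : (h : ℝ) * (ξ * (b : ℝ) ^ j) - h * (α * (b : ℝ) ^ j) =
              (h * (b : ℝ) ^ j) * (ξ - α) := by ring
          rw [e, abs_mul, abs_of_nonneg (by positivity : (0 : ℝ) ≤ h * (b : ℝ) ^ j)]
          ring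
      _ = 7 * h * |ξ - α| * ∑ j ∈ Finset.range M, (b : ℝ) ^ j := by rw [Finset.mul_sum]
      _ ≤ 7 * h * |ξ - α| * (b : ℝ) ^ M := by
          gcongr
          exact geom_le b hb M
      _ = _ := by ring
  have h2 := norm_sub_norm_le (Sw b h M ξ) (Sw b h M α)
  linarith

theorem normal_number (hn : 1 ≤ n) (w : ℝ) (hw : (n : ℝ) < w) :
    ∃ ξ : ℝ, wM n ξ = (w : EReal) ∧ wK n ξ = (w : EReal) ∧ ∀ b : ℕ, 2 ≤ b → SimpNorm b ξ := by
  classical
  have hn0 : (1 : ℝ) ≤ n := by exact_mod_cast hn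
  have hw0 : 0 < w := by linarith
  set ν := (w - n) / (w + 1) with hν
  have hν0 : 0 < ν := div_pos (by linarith) (by linarith)
  have hpr : ∀ k : ℕ, ∃ ℓ : ℕ, (n + 1) * n + k + 3 ≤ ℓ ∧ ℓ.Prime := fun k =>
    Nat.exists_infinite_primes _
  choose ℓ hℓ1 hℓ2 using hpr
  set Y : ℕ → ℕ → ℝ → Prop := fun k m ξ => ∀ x ∈ Finset.range (k + 1) ×ˢ Finset.range (k + 1),
    ∀ M : ℕ, Nat.log (x.1 + 2) (ℓ k ^ m) ≤ M →
      ‖Sw (x.1 + 2) (x.2 + 1) M ξ‖ ≤ (1 / ((k : ℝ) + 1)) * M with hY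
  obtain ⟨m, p, ξ, ξ0, -, hm1, -, hmk, hξ, hYk, hclose, -, hflow⟩ := nested_multi {n} ℓ hℓ2
    (by
      intro n' hn'
      rw [Finset.mem_singleton] at hn'
      subst hn'
      exact ⟨hn, fun k => by have := hℓ1 k; omega⟩)
    (fun _ => 0) (fun _ => 1 + w) (fun _ => by linarith) (fun _ => ν) (fun _ => n * ν)
    (fun _ => hν0.le) (fun _ => by positivity)
    (by
      intro n' hn' k
      rw [Finset.mem_singleton] at hn'
      subst hn'
      haveI : Fact (ℓ k).Prime := ⟨hℓ2 k⟩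
      exact richA hn (by have := hℓ1 k; omega) w ν (n' * ν) hw.le le_rfl le_rfl)
    Y
    (by
      intro k
      haveI : Fact (ℓ k).Prime := ⟨hℓ2 k⟩
      apply Typical.finset
      intro x hx
      rw [Finset.mem_product, Finset.mem_range, Finset.mem_range] at hx
      exact Typical.weyl (x.1 + 2) (x.2 + 1) (by omega) (by omega)
        (by have := hℓ1 k; omega) 0 (1 + w) (1 / ((k : ℝ) + 1)) (by positivity))
    (by
      intro k m ξ h j x hx M hM
      rw [Sw_shift]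
      exact h x hx M hM)
    (fun _ => 0) (fun _ _ => 0) 0
  have hfin := fun v hv => clause3 (n := n) ξ ν w hw.le hν
    (fun ε hε => by
      obtain ⟨T, hT⟩ := hflow n (Finset.mem_singleton_self n) ε hε
      exact ⟨T, fun t ht => (hT t ht).1⟩) v hv
  have hqR : ∀ k, (0 : ℝ) < (ℓ k : ℝ) ^ m k := fun k => pow_pos (by exact_mod_cast (hℓ2 k).pos) _
  have hge := exponents_ge' hn ξ w hw0 (by
    intro Q
    obtain ⟨k, hk⟩ := exists_nat_ge Q
    haveI : Fact (ℓ k).Prime := ⟨hℓ2 k⟩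
    have hr := rad_pos (ℓ k) (1 + w) (m k)
    have h1 := hξ k
    refine ⟨ℓ k ^ m k, ?_, Nat.one_le_pow _ _ (hℓ2 k).pos, p k, ?_, ?_⟩
    · have h3 : k ≤ ℓ k ^ m k := (hmk k).trans ((Nat.lt_pow_self (hℓ2 k).one_lt).le)
      have h4 : (k : ℝ) ≤ ((ℓ k ^ m k : ℕ) : ℝ) := by exact_mod_cast h3
      linarith
    · push_cast
      rw [abs_pos]
      intro h
      have := h1.1
      linarith
    · rw [← rad_rpow]
      push_cast
      rw [abs_of_nonneg (by linarith [h1.1])]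
      linarith [h1.2])
  refine ⟨ξ, le_antisymm (wM_le ξ w hfin) hge.1, le_antisymm (wK_le ξ w hw0.le hfin) hge.2, ?_⟩
  intro b hb
  -- Weyl sums
  have hW : ∀ h : ℕ, 1 ≤ h →
      Tendsto (fun M : ℕ => ‖∑ j ∈ Finset.range M, ee (h * (ξ * (b : ℝ) ^ j))‖ / M) atTop (𝓝 0) := by
    intro h hh
    rw [Metric.tendsto_atTop]
    intro ε hε
    obtain ⟨k1, hk1⟩ := exists_nat_gt (2 / ε)
    set k0 := max k1 (max b h) with hk0
    have hk0b : b ≤ k0 := (le_max_left _ _).trans (le_max_right _ _)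
    have hk0h : h ≤ k0 := (le_max_right _ _).trans (le_max_right _ _)
    obtain ⟨M1, hM1⟩ := exists_nat_gt (14 * h / ε)
    set Tb : ℕ → ℕ := fun k => Nat.log b (ℓ k ^ m k) with hTb
    refine ⟨max (Tb k0) (M1 + 1), fun M hM => ?_⟩
    have hMT : Tb k0 ≤ M := (le_max_left _ _).trans hM
    have hMM1 : M1 + 1 ≤ M := (le_max_right _ _).trans hM
    -- the stage of `M`
    have hlarge : ∀ j, k0 ≤ j → j ≤ Tb j := by
      intro j hj
      apply Nat.le_log_of_pow_le (by omega)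
      calc b ^ j ≤ (ℓ j) ^ j := Nat.pow_le_pow_left (by have := hℓ1 j; omega) _
        _ ≤ (ℓ j) ^ (m j) := Nat.pow_le_pow_right (hℓ2 j).pos (hmk j)
    obtain ⟨k, hk1', hk2, hk3⟩ : ∃ k, k0 ≤ k ∧ Tb k ≤ M ∧ M ≤ Tb (k + 1) := by
      have hex : ∃ j, M ≤ Tb (k0 + j + 1) := by
        refine ⟨M, ?_⟩
        have := hlarge (k0 + M + 1) (by omega)
        omega
      refine ⟨k0 + Nat.find hex, by omega, ?_, Nat.find_spec hex⟩
      rcases Nat.eq_zero_or_pos (Nat.find hex) with h0 | h0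
      · rw [h0]; exact hMT
      · have h1 := Nat.find_min hex (m := Nat.find hex - 1) (by omega)
        have h2 : k0 + (Nat.find hex - 1) + 1 = k0 + Nat.find hex := by omega
        rw [h2] at h1
        omega
    have h1 := hYk k (b - 2, h - 1) (by
      rw [Finset.mem_product, Finset.mem_range, Finset.mem_range]
      constructor
      · simp only; omega
      · simp only; omega) M
    simp only at h1
    have e1 : b - 2 + 2 = b := by omega
    have e2 : h - 1 + 1 = h := by omega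
    rw [e1, e2] at h1
    have h2 := h1 hk2
    have h3 := Sw_close b h M hb ξ (ξ0 k)
    have h4 : |ξ - ξ0 k| * (b : ℝ) ^ M ≤ 1 := by
      rw [abs_sub_comm]
      have h5 : (b : ℝ) ^ M ≤ (ℓ (k + 1) : ℝ) ^ m (k + 1) := by
        have h6 : b ^ M ≤ ℓ (k + 1) ^ m (k + 1) :=
          (Nat.pow_le_pow_right (by omega) hk3).trans (Nat.pow_log_le_self b
            (pow_pos (hℓ2 (k + 1)).pos _).ne')
        exact_mod_cast h6
      calc |ξ0 k - ξ| * (b : ℝ) ^ M ≤ (1 / (ℓ (k + 1) : ℝ) ^ m (k + 1)) *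
            (ℓ (k + 1) : ℝ) ^ m (k + 1) :=
            mul_le_mul (hclose k) h5 (by positivity) (by have := hqR (k + 1); positivity)
        _ = 1 := one_div_mul_cancel (hqR (k + 1)).ne'
    have hM0 : (0 : ℝ) < M := by exact_mod_cast (by omega : 0 < M)
    have hhR : (0 : ℝ) ≤ h := Nat.cast_nonneg _
    have h5 : ‖Sw b h M ξ‖ ≤ 1 / ((k : ℝ) + 1) * M + 7 * h := by
      have := mul_le_mul_of_nonneg_left h4 (by positivity : (0 : ℝ) ≤ 7 * h)
      linarith
    rw [Real.dist_eq, sub_zero, abs_of_nonneg (by positivity), div_lt_iff₀ hM0]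
    refine lt_of_le_of_lt h5 ?_
    have h6 : 1 / ((k : ℝ) + 1) ≤ ε / 2 := by
      rw [div_le_div_iff₀ (by positivity) (by norm_num)]
      have h7 : (k1 : ℝ) ≤ k := by exact_mod_cast (le_max_left _ _).trans hk1'
      rw [div_lt_iff₀ hε] at hk1
      nlinarith
    have h7 : 14 * (h : ℝ) < ε * M := by
      have h8 : (M1 : ℝ) + 1 ≤ M := by exact_mod_cast hMM1
      rw [div_lt_iff₀ hε] at hM1
      nlinarith
    nlinarith
  intro d hd
  have h1 := block_freq b hb ξ hW 1 (fun _ => ⟨d, hd⟩)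
  rw [pow_one] at h1
  refine h1.congr (fun N => ?_)
  congr 3
  ext j
  simp only [Finset.mem_filter, Fin.forall_fin_one, Fin.val_zero, add_zero]

end Pool.Agent.W71
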