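import Pool.Agent.W71.IetE

/-! Eigenvectors, the window of periodic points, and the conclusion. -/

set_option autoImplicit false
open MeasureTheory Set

namespace Pool.Agent.W71.Iet

/-- the eigenvector of `A` attached to a root of the cubic `r^3 - 11 r^2 + 7 r - 1` -/
noncomputable def al (r : ℝ) : Fin 7 → ℝ :=
  ![1, (r ^ 2 - 10 * r + 1) / 2, 1, -r ^ 2 + 11 * r - 4, -r ^ 2 + 11 * r - 6, 1,
    (3 * r ^ 2 - 32 * r + 13) / 2]

/-- a left eigenvector -/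
noncomputable def xl (r : ℝ) : Fin 7 → ℝ :=
  ![1, (r ^ 2 - 10 * r + 3) / 2, (r + 1) / 2, (-r ^ 2 + 11 * r - 4) / 2, (r - 1) / 2, (r - 1) / 2,
    (r ^ 2 - 10 * r + 3) / 2]

theorem Av_al (r : ℝ) (hr : r ^ 3 - 11 * r ^ 2 + 7 * r - 1 = 0) (k : Fin 7) :
    Av (al r) k = r * al r k := by
  unfold Av ev
  rw [Fin.sum_univ_seven]
  fin_cases k <;> simp [A, al]
  · ring
  · linear_combination (-1/2) * hr
  · ring
  · linear_combination hr
  · linear_combination hr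
  · ring
  · linear_combination (-3/2) * hr

theorem xl_eig (r : ℝ) (hr : r ^ 3 - 11 * r ^ 2 + 7 * r - 1 = 0) (j : Fin 7) :
    ∑ k, xl r k * (A k j : ℝ) = r * xl r j := by
  rw [Fin.sum_univ_seven]
  fin_cases j <;> simp [A, xl]
  · ring
  · linear_combination (-1/2) * hr
  · ring
  · linear_combination (1/2) * hr
  · ring
  · ring
  · linear_combination (-1/2) * hr

theorem exists_lam : ∃ r : ℝ, 10.33 ≤ r ∧ r ≤ 10.34 ∧ r ^ 3 - 11 * r ^ 2 + 7 * r - 1 = 0 := by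
  have hc : ContinuousOn (fun r : ℝ => r ^ 3 - 11 * r ^ 2 + 7 * r - 1) (Icc 10.33 10.34) := by
    fun_prop
  have := intermediate_value_Icc (by norm_num : (10.33 : ℝ) ≤ 10.34) hc
  obtain ⟨r, hr, hr'⟩ := this (⟨by norm_num, by norm_num⟩ : (0 : ℝ) ∈ Icc _ _)
  exact ⟨r, hr.1, hr.2, hr'⟩

theorem exists_mu : ∃ r : ℝ, 0.455 ≤ r ∧ r ≤ 0.456 ∧ r ^ 3 - 11 * r ^ 2 + 7 * r - 1 = 0 := by
  have hc : ContinuousOn (fun r : ℝ => r ^ 3 - 11 * r ^ 2 + 7 * r - 1) (Icc 0.455 0.456) := by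
    fun_prop
  have := intermediate_value_Icc' (by norm_num : (0.455 : ℝ) ≤ 0.456) hc
  obtain ⟨r, hr, hr'⟩ := this (⟨by norm_num, by norm_num⟩ : (0 : ℝ) ∈ Icc _ _)
  exact ⟨r, hr.1, hr.2, hr'⟩

theorem eig_al (r : ℝ) (h1 : 10.33 ≤ r) (h2 : r ≤ 10.34)
    (hr : r ^ 3 - 11 * r ^ 2 + 7 * r - 1 = 0) : Eig (al r) r (xl r) := by
  refine ⟨?_, ?_, by linarith, Av_al r hr, rfl, ?_, xl_eig r hr⟩
  · intro k
    fin_cases k <;> simp [al]
    all_goals nlinarith
  · intro k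
    fin_cases k <;> simp [al]
    all_goals nlinarith
  · intro k
    fin_cases k <;> simp [xl]
    all_goals nlinarith

/-- the window: an interval of points of period two -/
theorem NP_window (v : Fin 7 → ℝ) (hv : ∀ i, 0 < v i) (h2 : v 2 = v 0) (h5 : v 5 = v 0)
    (h36 : v 3 + v 6 = 2 * v 0 + v 1) (h3 : v 0 + v 1 < v 3) : NP v := by
  have hv' : ∀ i, 0 ≤ v i := fun i => (hv i).le
  have s2 : sL v 2 = v 0 + v 1 := by
    unfold sL
    rw [Finset.sum_filter, Fin.sum_univ_seven]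
    simp
  have s3 : sL v 3 = v 0 + v 1 + v 2 := by
    unfold sL
    rw [Finset.sum_filter, Fin.sum_univ_seven]
    simp [Fin.lt_def]
  have r2 : ps p0 v 2 = v 1 + v 3 + v 5 + v 6 := by
    unfold ps
    rw [Finset.sum_filter, Fin.sum_univ_seven]
    simp [p0, Fin.lt_def]
  have r3 : ps p0 v 3 = 0 := by
    unfold ps
    rw [Finset.sum_filter, Fin.sum_univ_seven]
    simp [p0]
  have hlt : v 0 + v 1 < min (2 * v 0 + v 1) (v 3) := lt_min (by linarith [hv 0]) h3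
  apply Set.Infinite.mono _ (Set.Ico_infinite hlt)
  intro x hx
  have hx1 := hx.1
  have hx2 : x < 2 * v 0 + v 1 := lt_of_lt_of_le hx.2 (min_le_left _ _)
  have hx3 : x < v 3 := lt_of_lt_of_le hx.2 (min_le_right _ _)
  refine ⟨⟨by linarith [hv 0, hv 1], ?_⟩, 2, by norm_num, ?_⟩
  · rw [Fin.sum_univ_seven]
    linarith [hv 2, hv 3, hv 4, hv 5, hv 6]
  · show T p0 v (T p0 v x) = x
    rw [T_in p0 v hv' (j := 2) (x := x) ⟨by rw [s2]; exact hx1, by rw [s2]; linarith⟩]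
    rw [T_in p0 v hv' (j := 3)]
    · rw [r2, r3, s2, s3]; linarith
    · rw [r2, s2, s3]
      constructor <;> linarith [hv 0, hv 1]

theorem comb_pos (r s : ℝ) (h1 : 10.33 ≤ r) (h2 : r ≤ 10.34) (g1 : 0.455 ≤ s) (g2 : s ≤ 0.456)
    (t : ℝ) (t0 : 0 ≤ t) (t1 : t ≤ 3/5) (k : Fin 7) : 0 < al r k + t * al s k := by
  have a1 : 2 ≤ (r ^ 2 - 10 * r + 1) / 2 := by nlinarith
  have a3 : 2 ≤ -r ^ 2 + 11 * r - 4 := by nlinarith
  have a4 : 0.8 ≤ -r ^ 2 + 11 * r - 6 := by nlinarith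
  have a6 : 1 ≤ (3 * r ^ 2 - 32 * r + 13) / 2 := by nlinarith
  have b1 : -2 ≤ (s ^ 2 - 10 * s + 1) / 2 := by nlinarith
  have b3 : 0 ≤ -s ^ 2 + 11 * s - 4 := by nlinarith
  have b4 : -1.3 ≤ -s ^ 2 + 11 * s - 6 := by nlinarith
  have b6 : -1 ≤ (3 * s ^ 2 - 32 * s + 13) / 2 := by nlinarith
  fin_cases k <;> simp [al]
  · linarith
  · nlinarith
  · linarith
  · nlinarith
  · nlinarith
  · linarith
  · nlinarith

theorem NP_first (r s : ℝ) (h1 : 10.33 ≤ r) (h2 : r ≤ 10.34) (g1 : 0.455 ≤ s) (g2 : s ≤ 0.456)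
    (t : ℝ) (t0 : 2/5 ≤ t) (t1 : t ≤ 3/5) : NP (fun k => al r k + t * al s k) := by
  apply NP_window
  · intro k
    exact comb_pos r s h1 h2 g1 g2 t (by linarith) t1 k
  · simp [al]
  · simp [al]
  · simp [al]; ring
  · simp [al]
    have a1 : (r ^ 2 - 10 * r + 1) / 2 ≤ 2.26 := by nlinarith
    have a3 : 2.8 ≤ -r ^ 2 + 11 * r - 4 := by nlinarith
    have b1 : (s ^ 2 - 10 * s + 1) / 2 ≤ -1.66 := by nlinarith
    have b3 : 0.79 ≤ -s ^ 2 + 11 * s - 4 := by nlinarith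
    nlinarith

theorem NP_all (r s : ℝ) (h1 : 10.33 ≤ r) (h2 : r ≤ 10.34) (g1 : 0.455 ≤ s) (g2 : s ≤ 0.456)
    (hr : r ^ 3 - 11 * r ^ 2 + 7 * r - 1 = 0) (hs : s ^ 3 - 11 * s ^ 2 + 7 * s - 1 = 0)
    (t : ℝ) (t0 : 2/5 ≤ t) (t1 : t ≤ 3/5) (n : ℕ) :
    NP (fun k => al r k + (t * (s / r) ^ n) * al s k) := by
  have hr0 : 0 < r := by linarith
  have hs0 : 0 < s := by linarith
  have hq1 : s / r ≤ 1 := by rw [div_le_one hr0]; linarith
  have hq0 : 0 < s / r := div_pos hs0 hr0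
  induction n with
  | zero => simpa using NP_first r s h1 h2 g1 g2 t t0 t1
  | succ n ih =>
    have hpos : ∀ k, 0 < (fun k => al r k + (t * (s / r) ^ n) * al s k) k := by
      intro k
      apply comb_pos r s h1 h2 g1 g2
      · positivity
      · calc t * (s / r) ^ n ≤ t * 1 :=
            mul_le_mul_of_nonneg_left (pow_le_one₀ hq0.le hq1) (by linarith)
          _ ≤ 3/5 := by linarith
    have h3 := NP_lift _ (fun k => (hpos k).le) ih
    have h4 := NP_scale _ (Av_nonneg _ (fun k => (hpos k).le)) (inv_pos.mpr hr0) h3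
    have e : (fun i => r⁻¹ * Av (fun k => al r k + (t * (s / r) ^ n) * al s k) i)
        = fun k => al r k + (t * (s / r) ^ (n+1)) * al s k := by
      funext k
      have e1 : Av (fun k => al r k + (t * (s / r) ^ n) * al s k) k
          = Av (al r) k + (t * (s / r) ^ n) * Av (al s) k := by
        unfold Av ev
        rw [Finset.mul_sum, ← Finset.sum_add_distrib]
        apply Finset.sum_congr rfl
        intro m _
        ring
      rw [e1, Av_al r hr, Av_al s hs, pow_succ]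
      field_simp
    rw [← e]
    exact h4

end Pool.Agent.W71.Iet
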