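import Mathlib

/-! Basic facts on interval exchange maps: lengths `v`, order of the images given by a permutation. -/

set_option autoImplicit false
open MeasureTheory Set

namespace Pool.Agent.W71.Iet

variable {d : ℕ}

/-- left endpoint of the `j`-th interval -/
noncomputable def sL (v : Fin d → ℝ) (j : Fin d) : ℝ :=
  ∑ i ∈ (Finset.univ : Finset (Fin d)).filter (fun i : Fin d => i < j), v i

/-- left endpoint of the image of the `j`-th interval -/
noncomputable def ps (p : Equiv.Perm (Fin d)) (v : Fin d → ℝ) (j : Fin d) : ℝ :=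
  ∑ i ∈ (Finset.univ : Finset (Fin d)).filter (fun i : Fin d => p i < p j), v i

/-- the interval exchange map, extended by the identity -/
noncomputable def T (p : Equiv.Perm (Fin d)) (v : Fin d → ℝ) (x : ℝ) : ℝ :=
  x + ∑ j : Fin d, (Set.Ico (sL v j) (sL v j + v j)).indicator (fun _ : ℝ => ps p v j - sL v j) x

theorem sL_eq (v : Fin d → ℝ) (j : Fin d) : sL v j = ps 1 v j := rfl

theorem ps_nonneg (p : Equiv.Perm (Fin d)) (v : Fin d → ℝ) (hv : ∀ i, 0 ≤ v i) (j : Fin d) :
    0 ≤ ps p v j := Finset.sum_nonneg fun i _ => hv i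

theorem ps_step (p : Equiv.Perm (Fin d)) (v : Fin d → ℝ) (hv : ∀ i, 0 ≤ v i) {i j : Fin d}
    (h : p i < p j) : ps p v i + v i ≤ ps p v j := by
  unfold ps
  have hi : i ∉ (Finset.univ : Finset (Fin d)).filter (fun k : Fin d => p k < p i) := by simp
  rw [add_comm, ← Finset.sum_insert hi]
  apply Finset.sum_le_sum_of_subset_of_nonneg
  · intro k hk
    simp only [Finset.mem_insert, Finset.mem_filter, Finset.mem_univ, true_and] at hk ⊢
    rcases hk with rfl | hk
    · exact h
    · exact hk.trans h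
  · intro k _ _
    exact hv k

theorem ps_le (p : Equiv.Perm (Fin d)) (v : Fin d → ℝ) (hv : ∀ i, 0 ≤ v i) (j : Fin d) :
    ps p v j + v j ≤ ∑ i, v i := by
  unfold ps
  have hi : j ∉ (Finset.univ : Finset (Fin d)).filter (fun k : Fin d => p k < p j) := by simp
  rw [add_comm, ← Finset.sum_insert hi]
  apply Finset.sum_le_sum_of_subset_of_nonneg
  · intro k _
    simp
  · intro k _ _
    exact hv k

theorem ps_uniq (p : Equiv.Perm (Fin d)) (v : Fin d → ℝ) (hv : ∀ i, 0 ≤ v i) {i j : Fin d} {x : ℝ}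
    (h1 : x ∈ Ico (ps p v i) (ps p v i + v i)) (h2 : x ∈ Ico (ps p v j) (ps p v j + v j)) :
    i = j := by
  rcases lt_trichotomy (p i) (p j) with h | h | h
  · exfalso
    have := ps_step p v hv h
    linarith [h1.2, h2.1]
  · exact p.injective h
  · exfalso
    have := ps_step p v hv h
    linarith [h2.2, h1.1]

theorem ps_exists (p : Equiv.Perm (Fin d)) (v : Fin d → ℝ) {x : ℝ} (h0 : 0 ≤ x)
    (h1 : x < ∑ i, v i) : ∃ j, x ∈ Ico (ps p v j) (ps p v j + v j) := by
  set f : ℕ → ℝ := fun k => ∑ i ∈ (Finset.univ : Finset (Fin d)).filter (fun i : Fin d => (p i : ℕ) < k), v i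
    with hf
  have f0 : f 0 = 0 := by simp [hf]
  have fd : f d = ∑ i, v i := by simp [hf]
  have hex : ∃ k, x < f k := ⟨d, by rw [fd]; exact h1⟩
  classical
  set k := Nat.find hex with hk
  have hk1 : x < f k := Nat.find_spec hex
  have hk0 : k ≠ 0 := by
    intro h
    rw [h, f0] at hk1
    linarith
  obtain ⟨m, hm⟩ := Nat.exists_eq_succ_of_ne_zero hk0
  have hm1 : f m ≤ x := by
    have : m < k := by omega
    have := Nat.find_min hex this
    exact not_lt.mp this
  have hmd : m < d := by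
    by_contra hcon
    have hkd : d < k := by omega
    exact Nat.find_min hex hkd (by rw [fd]; exact h1)
  refine ⟨p.symm ⟨m, hmd⟩, ?_, ?_⟩
  · have : ps p v (p.symm ⟨m, hmd⟩) = f m := by
      unfold ps
      simp only [hf]
      apply Finset.sum_congr _ (fun _ _ => rfl)
      ext i
      simp [Fin.lt_def]
    rw [this]; exact hm1
  · have : ps p v (p.symm ⟨m, hmd⟩) + v (p.symm ⟨m, hmd⟩) = f k := by
      unfold ps
      have hi : (p.symm ⟨m, hmd⟩) ∉ (Finset.univ : Finset (Fin d)).filter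
          (fun k : Fin d => p k < p (p.symm ⟨m, hmd⟩)) := by simp
      rw [add_comm, ← Finset.sum_insert hi, hm]
      simp only [hf]
      apply Finset.sum_congr _ (fun _ _ => rfl)
      ext i
      simp only [Finset.mem_insert, Finset.mem_filter, Finset.mem_univ, true_and,
        Equiv.apply_symm_apply, Fin.lt_def]
      constructor
      · rintro (h | h)
        · rw [h]; simp
        · omega
      · intro h
        rcases Nat.lt_succ_iff_lt_or_eq.mp h with h | h
        · right; exact h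
        · left
          rw [Equiv.eq_symm_apply]
          exact Fin.ext h
    rw [this]; exact hk1

theorem T_in (p : Equiv.Perm (Fin d)) (v : Fin d → ℝ) (hv : ∀ i, 0 ≤ v i) {j : Fin d} {x : ℝ}
    (h : x ∈ Ico (sL v j) (sL v j + v j)) : T p v x = x + (ps p v j - sL v j) := by
  unfold T
  rw [Finset.sum_eq_single j]
  · rw [indicator_of_mem h]
  · intro k _ hk
    apply indicator_of_notMem
    intro h'
    exact hk (ps_uniq 1 v hv (i := k) (j := j) h' h)
  · intro h; exact absurd (Finset.mem_univ _) h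

theorem T_out (p : Equiv.Perm (Fin d)) (v : Fin d → ℝ) (hv : ∀ i, 0 ≤ v i) {x : ℝ}
    (h : x ∉ Ico 0 (∑ i, v i)) : T p v x = x := by
  unfold T
  rw [Finset.sum_eq_zero, add_zero]
  intro j _
  apply indicator_of_notMem
  intro h'
  apply h
  exact ⟨(ps_nonneg 1 v hv j).trans h'.1, lt_of_lt_of_le h'.2 (ps_le 1 v hv j)⟩

theorem T_slot (p : Equiv.Perm (Fin d)) (v : Fin d → ℝ) (hv : ∀ i, 0 ≤ v i) {j : Fin d} {x : ℝ}
    (h : x ∈ Ico (sL v j) (sL v j + v j)) : T p v x ∈ Ico (ps p v j) (ps p v j + v j) := by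
  rw [T_in p v hv h]
  exact ⟨by linarith [h.1], by linarith [h.2]⟩

theorem T_maps (p : Equiv.Perm (Fin d)) (v : Fin d → ℝ) (hv : ∀ i, 0 ≤ v i) {x : ℝ}
    (h : x ∈ Ico 0 (∑ i, v i)) : T p v x ∈ Ico 0 (∑ i, v i) := by
  obtain ⟨j, hj⟩ := ps_exists 1 v h.1 h.2
  have := T_slot p v hv (j := j) hj
  exact ⟨(ps_nonneg p v hv j).trans this.1, lt_of_lt_of_le this.2 (ps_le p v hv j)⟩

theorem T_inj (p : Equiv.Perm (Fin d)) (v : Fin d → ℝ) (hv : ∀ i, 0 ≤ v i) :
    Function.Injective (T p v) := by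
  intro x y hxy
  by_cases hx : x ∈ Ico 0 (∑ i, v i) <;> by_cases hy : y ∈ Ico 0 (∑ i, v i)
  · obtain ⟨j, hj⟩ := ps_exists 1 v hx.1 hx.2
    obtain ⟨k, hk⟩ := ps_exists 1 v hy.1 hy.2
    have h1 := T_slot p v hv (j := j) hj
    have h2 := T_slot p v hv (j := k) hk
    rw [hxy] at h1
    have hjk := ps_uniq p v hv h1 h2
    subst hjk
    rw [T_in p v hv (j := j) hj, T_in p v hv (j := j) hk] at hxy
    linarith
  · exfalso
    have h1 := T_maps p v hv hx
    rw [hxy, T_out p v hv hy] at h1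
    exact hy h1
  · exfalso
    have h1 := T_maps p v hv hy
    rw [← hxy, T_out p v hv hx] at h1
    exact hx h1
  · rw [T_out p v hv hx, T_out p v hv hy] at hxy
    exact hxy

theorem T_meas (p : Equiv.Perm (Fin d)) (v : Fin d → ℝ) : Measurable (T p v) := by
  unfold T
  apply measurable_id.add
  apply Finset.measurable_sum
  intro j _
  exact measurable_const.indicator measurableSet_Ico

theorem T_scale (p : Equiv.Perm (Fin d)) (v : Fin d → ℝ) (hv : ∀ i, 0 ≤ v i) {c : ℝ} (hc : 0 < c)
    (x : ℝ) : T p (fun i => c * v i) (c * x) = c * T p v x := by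
  have e1 : ∀ j, sL (fun i => c * v i) j = c * sL v j := fun j => by
    unfold sL; rw [Finset.mul_sum]
  have e2 : ∀ j, ps p (fun i => c * v i) j = c * ps p v j := fun j => by
    unfold ps; rw [Finset.mul_sum]
  have hcv : ∀ i, 0 ≤ (fun i => c * v i) i := fun i => mul_nonneg hc.le (hv i)
  have e3 : ∑ i, (fun i => c * v i) i = c * ∑ i, v i := by rw [Finset.mul_sum]
  by_cases hx : x ∈ Ico 0 (∑ i, v i)
  · obtain ⟨j, hj⟩ := ps_exists 1 v hx.1 hx.2
    have hj' : x ∈ Ico (sL v j) (sL v j + v j) := hj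
    rw [T_in p v hv hj', T_in p _ hcv (j := j), e1, e2]
    · ring
    · rw [e1]
      constructor
      · exact mul_le_mul_of_nonneg_left hj'.1 hc.le
      · have := mul_lt_mul_of_pos_left hj'.2 hc
        linarith
  · rw [T_out p v hv hx, T_out p _ hcv]
    intro h
    apply hx
    rw [e3] at h
    refine ⟨?_, ?_⟩
    · by_contra hcon
      push Not at hcon
      have := mul_neg_of_pos_of_neg hc hcon
      linarith [h.1]
    · exact lt_of_mul_lt_mul_left h.2 hc.le

/-- Lebesgue measure is invariant -/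
theorem T_leb (p : Equiv.Perm (Fin d)) (v : Fin d → ℝ) (hv : ∀ i, 0 ≤ v i) :
    Measure.map (T p v) (volume.restrict (Ico 0 (∑ i, v i))) = volume.restrict (Ico 0 (∑ i, v i)) := by
  ext E hE
  rw [Measure.map_apply (T_meas p v) hE, Measure.restrict_apply (T_meas p v hE),
    Measure.restrict_apply hE]
  have key : ∀ (q : Equiv.Perm (Fin d)) (G : Set ℝ), MeasurableSet G →
      volume (G ∩ Ico 0 (∑ i, v i)) = ∑ j, volume (G ∩ Ico (ps q v j) (ps q v j + v j)) := by
    intro q G hG
    have : G ∩ Ico 0 (∑ i, v i) = ⋃ j, G ∩ Ico (ps q v j) (ps q v j + v j) := by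
      ext x
      simp only [mem_inter_iff, mem_iUnion]
      constructor
      · rintro ⟨h1, h2⟩
        obtain ⟨j, hj⟩ := ps_exists q v h2.1 h2.2
        exact ⟨j, h1, hj⟩
      · rintro ⟨j, h1, h2⟩
        exact ⟨h1, (ps_nonneg q v hv j).trans h2.1, lt_of_lt_of_le h2.2 (ps_le q v hv j)⟩
    rw [this, measure_iUnion, tsum_fintype]
    · intro i j hij
      rw [Function.onFun, disjoint_left]
      rintro x ⟨_, h1⟩ ⟨_, h2⟩
      exact hij (ps_uniq q v hv h1 h2)
    · intro j
      exact hG.inter measurableSet_Ico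
  rw [key 1 _ (T_meas p v hE), key p _ hE]
  apply Finset.sum_congr rfl
  intro j _
  have : T p v ⁻¹' E ∩ Ico (ps 1 v j) (ps 1 v j + v j)
      = (fun x => x + (ps p v j - sL v j)) ⁻¹' (E ∩ Ico (ps p v j) (ps p v j + v j)) := by
    ext x
    simp only [mem_inter_iff, mem_preimage]
    constructor
    · rintro ⟨h1, h2⟩
      have h3 := T_slot p v hv (j := j) h2
      rw [T_in p v hv (j := j) h2] at h1 h3
      exact ⟨h1, h3⟩
    · rintro ⟨h1, h2⟩
      have h3 : x ∈ Ico (sL v j) (sL v j + v j) := ⟨by linarith [h2.1], by linarith [h2.2]⟩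
      rw [T_in p v hv (j := j) h3]
      exact ⟨h1, h3⟩
  rw [this, measure_preimage_add_right]

/-- an invariant measure gives equal mass to an interval inside a piece and to its translate -/
theorem inv_Ico (p : Equiv.Perm (Fin d)) (v : Fin d → ℝ) (hv : ∀ i, 0 ≤ v i) (m : Measure ℝ)
    (hm : Measure.map (T p v) m = m) (k : Fin d) (x y : ℝ) (hx : sL v k ≤ x)
    (hy : y ≤ sL v k + v k) :
    m (Ico (x + (ps p v k - sL v k)) (y + (ps p v k - sL v k))) = m (Ico x y) := by
  conv_lhs => rw [← hm]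
  rw [Measure.map_apply (T_meas p v) measurableSet_Ico]
  congr 1
  ext z
  simp only [mem_preimage]
  constructor
  · intro hz
    have h3 : T p v z - (ps p v k - sL v k) ∈ Ico x y := ⟨by linarith [hz.1], by linarith [hz.2]⟩
    have h4 : T p v z - (ps p v k - sL v k) ∈ Ico (sL v k) (sL v k + v k) :=
      ⟨hx.trans h3.1, lt_of_lt_of_le h3.2 hy⟩
    have h5 := T_in p v hv h4
    have h6 : T p v (T p v z - (ps p v k - sL v k)) = T p v z := by rw [h5]; ring
    have h7 := T_inj p v hv h6
    rw [← h7]; exact h3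
  · intro hz
    have h4 : z ∈ Ico (sL v k) (sL v k + v k) := ⟨hx.trans hz.1, lt_of_lt_of_le hz.2 hy⟩
    rw [T_in p v hv h4]
    exact ⟨by linarith [hz.1], by linarith [hz.2]⟩

end Pool.Agent.W71.Iet
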