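import Pool.Agent.W71.IetA

/-! Invariant measures of interval exchanges: periodic points and distribution functions. -/

set_option autoImplicit false
open MeasureTheory Set

namespace Pool.Agent.W71.Iet

variable {d : ℕ}

/-- being an invariant probability measure of the interval exchange -/
def IsInv (p : Equiv.Perm (Fin d)) (v : Fin d → ℝ) (m : Measure ℝ) : Prop :=
  IsProbabilityMeasure m ∧ m ((Ico (0 : ℝ) (∑ i : Fin d, v i))ᶜ) = 0 ∧ Measure.map (T p v) m = m

theorem T_iter_maps (p : Equiv.Perm (Fin d)) (v : Fin d → ℝ) (hv : ∀ i, 0 ≤ v i) {x : ℝ}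
    (h : x ∈ Ico 0 (∑ i, v i)) (n : ℕ) : (T p v)^[n] x ∈ Ico 0 (∑ i, v i) := by
  induction n with
  | zero => exact h
  | succ n ih => rw [Function.iterate_succ_apply']; exact T_maps p v hv ih

/-- the measure carried by a periodic orbit -/
noncomputable def orbM (p : Equiv.Perm (Fin d)) (v : Fin d → ℝ) (x : ℝ) (n : ℕ) : Measure ℝ :=
  ((n : ENNReal)⁻¹) • ∑ i ∈ Finset.range n, Measure.dirac ((T p v)^[i] x)

theorem orbM_inv (p : Equiv.Perm (Fin d)) (v : Fin d → ℝ) (hv : ∀ i, 0 ≤ v i) {x : ℝ}
    (h : x ∈ Ico 0 (∑ i, v i)) {n : ℕ} (hn : 1 ≤ n) (hx : (T p v)^[n] x = x) :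
    IsInv p v (orbM p v x n) := by
  have hn0 : (n : ENNReal) ≠ 0 := by
    simp only [ne_eq, Nat.cast_eq_zero]; omega
  refine ⟨⟨?_⟩, ?_, ?_⟩
  · unfold orbM
    rw [Measure.smul_apply, Measure.finsetSum_apply]
    simp only [measure_univ, Finset.sum_const, Finset.card_range, nsmul_eq_mul, mul_one, smul_eq_mul]
    exact ENNReal.inv_mul_cancel hn0 (ENNReal.natCast_ne_top n)
  · unfold orbM
    rw [Measure.smul_apply, Measure.finsetSum_apply]
    have : ∀ i ∈ Finset.range n, (Measure.dirac ((T p v)^[i] x)) ((Ico (0 : ℝ) (∑ i : Fin d, v i))ᶜ) = 0 := by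
      intro i _
      rw [Measure.dirac_apply' _ measurableSet_Ico.compl]
      apply indicator_of_notMem
      intro hh
      exact hh (T_iter_maps p v hv h i)
    rw [Finset.sum_eq_zero this, smul_zero]
  · unfold orbM
    rw [Measure.map_smul, Measure.map_finset_sum (T_meas p v).aemeasurable]
    congr 1
    have e1 : ∀ i ∈ Finset.range n, Measure.map (T p v) (Measure.dirac ((T p v)^[i] x))
        = Measure.dirac ((T p v)^[i+1] x) := by
      intro i _
      rw [Measure.map_dirac' (T_meas p v), Function.iterate_succ_apply']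
    rw [Finset.sum_congr rfl e1]
    obtain ⟨m, rfl⟩ : ∃ m, n = m + 1 := ⟨n - 1, by omega⟩
    rw [Finset.sum_range_succ, Finset.sum_range_succ', hx]
    simp

theorem per_not_ue (p : Equiv.Perm (Fin d)) (v : Fin d → ℝ) (hv : ∀ i, 0 ≤ v i)
    (hinf : {x : ℝ | x ∈ Ico 0 (∑ i, v i) ∧ ∃ n, 1 ≤ n ∧ (T p v)^[n] x = x}.Infinite) :
    ¬ ∃! m : Measure ℝ, IsInv p v m := by
  rintro ⟨m, _, hm⟩
  obtain ⟨x, hx, n, hn, hxn⟩ := hinf.nonempty
  apply hinf
  apply Set.Finite.subset (Set.Finite.image (fun i => (T p v)^[i] x) (Set.finite_lt_nat n))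
  rintro y ⟨hy, k, hk, hyk⟩
  have e1 := hm _ (orbM_inv p v hv hx hn hxn)
  have e2 := hm _ (orbM_inv p v hv hy hk hyk)
  by_contra hcon
  have z1 : orbM p v x n {y} = 0 := by
    unfold orbM
    rw [Measure.smul_apply, Measure.finsetSum_apply]
    have : ∀ i ∈ Finset.range n, (Measure.dirac ((T p v)^[i] x)) ({y} : Set ℝ) = 0 := by
      intro i hi
      rw [Measure.dirac_apply' _ (measurableSet_singleton y)]
      apply indicator_of_notMem
      intro hh
      apply hcon
      exact ⟨i, Finset.mem_range.mp hi, hh⟩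
    rw [Finset.sum_eq_zero this, smul_zero]
  have z2 : orbM p v y k {y} ≠ 0 := by
    unfold orbM
    rw [Measure.smul_apply, Measure.finsetSum_apply, smul_eq_mul]
    apply mul_ne_zero
    · exact ENNReal.inv_ne_zero.mpr (ENNReal.natCast_ne_top k)
    · have : (1 : ENNReal) ≤ ∑ i ∈ Finset.range k, (Measure.dirac ((T p v)^[i] y)) ({y} : Set ℝ) := by
        have h0 : (Measure.dirac ((T p v)^[0] y)) ({y} : Set ℝ) = 1 := by
          rw [Measure.dirac_apply' _ (measurableSet_singleton y)]
          simp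
        rw [← h0]
        exact Finset.single_le_sum (f := fun i => (Measure.dirac ((T p v)^[i] y)) ({y} : Set ℝ))
          (fun _ _ => zero_le) (Finset.mem_range.mpr (by omega))
      intro h0
      rw [h0] at this
      simp at this
  rw [e1, ← e2] at z1
  exact z2 z1

/-- if the distribution function of every invariant probability measure is linear, the
interval exchange is uniquely ergodic -/
theorem ue_of_linear (p : Equiv.Perm (Fin d)) (v : Fin d → ℝ) (hv : ∀ i, 0 ≤ v i)
    (hS : 0 < ∑ i, v i)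
    (hF : ∀ m : Measure ℝ, IsInv p v m → ∀ x, 0 ≤ x → x ≤ ∑ i, v i →
      (m (Iio x)).toReal = x / ∑ i, v i) :
    ∃! m : Measure ℝ, IsInv p v m := by
  set S := ∑ i, v i with hSd
  refine ⟨(ENNReal.ofReal S)⁻¹ • volume.restrict (Ico 0 S), ?_, ?_⟩
  · refine ⟨⟨?_⟩, ?_, ?_⟩
    · rw [Measure.smul_apply, Measure.restrict_apply MeasurableSet.univ, univ_inter,
        Real.volume_Ico, sub_zero, smul_eq_mul]
      exact ENNReal.inv_mul_cancel (by simpa using hS) ENNReal.ofReal_ne_top
    · rw [Measure.smul_apply, Measure.restrict_apply measurableSet_Ico.compl, ← hSd]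
      simp
    · rw [Measure.map_smul, T_leb p v hv]
  · intro m hm
    have hprob := hm.1
    have key : ∀ m₁ m₂ : Measure ℝ, IsInv p v m₁ → IsInv p v m₂ → m₁ = m₂ := by
      intro m₁ m₂ h1 h2
      have := h1.1
      have := h2.1
      have hIio : ∀ x, m₁ (Iio x) = m₂ (Iio x) := by
        intro x
        rcases lt_or_ge x 0 with hx | hx
        · have hsub : Iio x ⊆ (Ico (0 : ℝ) (∑ i : Fin d, v i))ᶜ := by
            intro y hy hy'
            have : y < x := hy
            linarith [hy'.1]
          rw [measure_mono_null hsub h1.2.1, measure_mono_null hsub h2.2.1]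
        · rcases le_or_gt x S with hxS | hxS
          · have a1 := hF m₁ h1 x hx hxS
            have a2 := hF m₂ h2 x hx hxS
            rw [← ENNReal.toReal_eq_toReal_iff' (measure_ne_top m₁ _) (measure_ne_top m₂ _), a1, a2]
          · have hsub : (Iio x)ᶜ ⊆ (Ico (0 : ℝ) (∑ i : Fin d, v i))ᶜ := by
              intro y hy hy'
              have h3 : x ≤ y := not_lt.mp hy
              have h4 : y < S := hy'.2
              linarith
            have b1 : m₁ (Iio x)ᶜ = 0 := measure_mono_null hsub h1.2.1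
            have b2 : m₂ (Iio x)ᶜ = 0 := measure_mono_null hsub h2.2.1
            rw [prob_compl_eq_zero_iff measurableSet_Iio] at b1 b2
            rw [b1, b2]
      apply Measure.ext_of_Ici
      intro x
      have c1 : m₁ (Ici x) = 1 - m₁ (Iio x) := by
        rw [← compl_Iio, prob_compl_eq_one_sub measurableSet_Iio]
      have c2 : m₂ (Ici x) = 1 - m₂ (Iio x) := by
        rw [← compl_Iio, prob_compl_eq_one_sub measurableSet_Iio]
      rw [c1, c2, hIio]
    apply key m _ hm
    refine ⟨⟨?_⟩, ?_, ?_⟩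
    · rw [Measure.smul_apply, Measure.restrict_apply MeasurableSet.univ, univ_inter,
        Real.volume_Ico, sub_zero, smul_eq_mul]
      exact ENNReal.inv_mul_cancel (by simpa using hS) ENNReal.ofReal_ne_top
    · rw [Measure.smul_apply, Measure.restrict_apply measurableSet_Ico.compl, ← hSd]
      simp
    · rw [Measure.map_smul, T_leb p v hv]

/-- a function on the line that behaves like the distribution function of an invariant measure -/
structure Good (p : Equiv.Perm (Fin d)) (v : Fin d → ℝ) (F : ℝ → ℝ) : Prop where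
  mono : ∀ x y, 0 ≤ x → x ≤ y → y ≤ ∑ i, v i → F x ≤ F y
  inv : ∀ k x y, sL v k ≤ x → x ≤ y → y ≤ sL v k + v k →
    F (y + (ps p v k - sL v k)) - F (x + (ps p v k - sL v k)) = F y - F x

theorem good_of_inv (p : Equiv.Perm (Fin d)) (v : Fin d → ℝ) (hv : ∀ i, 0 ≤ v i)
    (m : Measure ℝ) (hm : IsInv p v m) : Good p v (fun x => (m (Iio x)).toReal) := by
  have := hm.1
  have key : ∀ x y : ℝ, x ≤ y → (m (Iio y)).toReal - (m (Iio x)).toReal = (m (Ico x y)).toReal := by
    intro x y hxy
    have : Iio y = Iio x ∪ Ico x y := by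
      ext z
      simp only [mem_Iio, mem_union, mem_Ico]
      constructor
      · intro h
        rcases lt_or_ge z x with h' | h'
        · exact Or.inl h'
        · exact Or.inr ⟨h', h⟩
      · rintro (h | h)
        · exact lt_of_lt_of_le h hxy
        · exact h.2
    rw [this, measure_union _ measurableSet_Ico, ENNReal.toReal_add (measure_ne_top _ _)
      (measure_ne_top _ _)]
    · ring
    · rw [disjoint_left]
      intro z hz hz'
      exact absurd hz (not_lt.mpr hz'.1)
  refine ⟨?_, ?_⟩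
  · intro x y _ hxy _
    exact ENNReal.toReal_mono (measure_ne_top _ _) (measure_mono (Iio_subset_Iio hxy))
  · intro k x y hx hxy hy
    rw [key x y hxy, key _ _ (by linarith), inv_Ico p v hv m hm.2.2 k x y hx hy]

theorem inv_zero (p : Equiv.Perm (Fin d)) (v : Fin d → ℝ) (m : Measure ℝ) (hm : IsInv p v m) :
    (m (Iio 0)).toReal = 0 := by
  have hsub : Iio (0 : ℝ) ⊆ (Ico (0 : ℝ) (∑ i : Fin d, v i))ᶜ := by
    intro y hy hy'
    have : y < 0 := hy
    linarith [hy'.1]
  rw [measure_mono_null hsub hm.2.1]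
  simp

theorem inv_one (p : Equiv.Perm (Fin d)) (v : Fin d → ℝ) (m : Measure ℝ) (hm : IsInv p v m) :
    (m (Iio (∑ i, v i))).toReal = 1 := by
  have := hm.1
  have hsub : (Iio (∑ i, v i))ᶜ ⊆ (Ico (0 : ℝ) (∑ i : Fin d, v i))ᶜ := by
    intro y hy hy'
    exact hy hy'.2
  have b1 : m (Iio (∑ i, v i))ᶜ = 0 := measure_mono_null hsub hm.2.1
  rw [prob_compl_eq_zero_iff measurableSet_Iio] at b1
  rw [b1]; simp

end Pool.Agent.W71.Iet
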