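import Pool.Agent.W71.IetB

/-! The inducing scheme of the 7-interval exchange. -/

set_option autoImplicit false
open MeasureTheory Set

namespace Pool.Agent.W71.Iet

/-- the permutation -/
def p0 : Equiv.Perm (Fin 7) where
  toFun := ![6, 2, 4, 0, 5, 1, 3]
  invFun := ![3, 5, 1, 6, 2, 4, 0]
  left_inv := by decide
  right_inv := by decide

/-- integer linear forms in seven variables -/
abbrev V := Fin 7 → ℤ

/-- the matrix of the inducing scheme -/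
def A : Fin 7 → V := ![![1, 1, 1, 1, 1, 1, 1],
  ![1, 4, 3, 2, 1, 2, 1],
  ![0, 1, 3, 0, 2, 2, 1],
  ![2, 4, 4, 3, 2, 2, 2],
  ![0, 0, 2, 0, 3, 2, 2],
  ![0, 1, 2, 0, 2, 3, 1],
  ![1, 1, 2, 1, 2, 1, 2]]

/-- itineraries -/
def W : Fin 7 → List (Fin 7) := ![[0, 6, 3, 1, 3], [0, 6, 3, 1, 3, 1, 2, 5, 1, 3, 1, 3],
  [0, 6, 3, 1, 3, 1, 2, 5, 2, 4, 5, 2, 4, 6, 3, 1, 3], [0, 6, 3, 1, 3, 1, 3],
  [0, 6, 4, 5, 2, 4, 5, 2, 4, 6, 3, 1, 3], [0, 6, 4, 5, 2, 4, 5, 2, 5, 1, 3, 1, 3],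
  [0, 6, 4, 5, 2, 4, 6, 3, 1, 3]]

/-- order of the floors inside each interval -/
def TL : Fin 7 → List (Fin 7 × ℕ) := ![
  [(0, 0), (1, 0), (2, 0), (3, 0), (4, 0), (5, 0), (6, 0)],
  [(1, 5), (2, 5), (3, 5), (5, 11), (1, 10), (6, 8), (2, 15), (4, 11), (0, 3), (1, 3), (2, 3),
    (3, 3), (5, 9), (1, 8)],
  [(2, 8), (4, 4), (5, 4), (6, 4), (2, 11), (4, 7), (5, 7), (1, 6), (2, 6)],
  [(3, 6), (5, 12), (1, 11), (6, 9), (2, 16), (4, 12), (0, 4), (1, 4), (2, 4), (3, 4), (5, 10),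
    (1, 9), (6, 7), (2, 14), (4, 10), (0, 2), (1, 2), (2, 2), (3, 2)],
  [(4, 2), (5, 2), (6, 2), (2, 9), (4, 5), (5, 5), (6, 5), (2, 12), (4, 8)],
  [(5, 8), (1, 7), (2, 7), (4, 3), (5, 3), (6, 3), (2, 10), (4, 6), (5, 6)],
  [(6, 6), (2, 13), (4, 9), (0, 1), (1, 1), (2, 1), (3, 1), (4, 1), (5, 1), (6, 1)]]

def ee (j : Fin 7) : V := fun i => if i = j then 1 else 0

def Sx (k : Fin 7) : V := fun m => ∑ i ∈ (Finset.univ : Finset (Fin 7)).filter (fun i => i < k), A i m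

def Rx (k : Fin 7) : V :=
  fun m => ∑ i ∈ (Finset.univ : Finset (Fin 7)).filter (fun i => p0 i < p0 k), A i m

def Dx (k : Fin 7) : V := fun m => Rx k m - Sx k m

def S1 (j : Fin 7) : V := fun i => if i < j then 1 else 0

def R1 (j : Fin 7) : V := fun i => if p0 i < p0 j then 1 else 0

/-- explicit tables for `Sx` and `Dx` -/
def Stab : Fin 7 → V := ![![0, 0, 0, 0, 0, 0, 0], ![1, 1, 1, 1, 1, 1, 1], ![2, 5, 4, 3, 2, 3, 2],
  ![2, 6, 7, 3, 4, 5, 3], ![4, 10, 11, 6, 6, 7, 5], ![4, 10, 13, 6, 9, 9, 7],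
  ![4, 11, 15, 6, 11, 12, 8]]

def Rtab : Fin 7 → V := ![![4, 11, 16, 6, 12, 12, 9], ![2, 5, 6, 3, 4, 5, 3],
  ![4, 10, 11, 6, 7, 8, 6], ![0, 0, 0, 0, 0, 0, 0], ![4, 11, 14, 6, 9, 10, 7],
  ![2, 4, 4, 3, 2, 2, 2], ![3, 9, 9, 5, 5, 7, 4]]

theorem Stab_eq : ∀ k m, Stab k m = Sx k m := by decide +kernel
theorem Rtab_eq : ∀ k m, Rtab k m = Rx k m := by decide +kernel

/-- positions of the floors as linear forms -/
def posn (j : Fin 7) : ℕ → V
  | 0 => S1 j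
  | i + 1 => fun m => posn j i m + (Rtab ((W j).getD i 0) m - Stab ((W j).getD i 0) m)

theorem chk1 : ∀ j : Fin 7, ∀ i ∈ List.range (W j).length, ∀ m : Fin 7,
    Stab ((W j).getD i 0) m ≤ posn j i m ∧
    posn j i m + ee j m ≤ Stab ((W j).getD i 0) m + A ((W j).getD i 0) m := by decide +kernel

theorem chk2 : ∀ j m : Fin 7, posn j (W j).length m = R1 j m := by decide +kernel

/-- the chain condition: the floors of the list are laid one after the other from `p` to `q` -/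
def chn : V → List (Fin 7 × ℕ) → V → Prop
  | p, [], q => ∀ m, p m = q m
  | p, t :: l, q => (∀ m, posn t.1 t.2 m = p m) ∧ t.2 < (W t.1).length ∧
      chn (fun m => p m + ee t.1 m) l q

instance chnDec : (p : V) → (l : List (Fin 7 × ℕ)) → (q : V) → Decidable (chn p l q)
  | p, [], q => by unfold chn; infer_instance
  | p, t :: l, q => by
      unfold chn
      have := chnDec (fun m => p m + ee t.1 m) l q
      infer_instance

theorem chk3 : ∀ k : Fin 7, chn (Stab k) (TL k) (fun m => Stab k m + A k m) := by decide +kernel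

theorem chk4 : ∀ k j : Fin 7, (((TL k).map Prod.fst).count j : ℤ) = A k j := by decide +kernel

end Pool.Agent.W71.Iet
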