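import Pool.Agent.W71.IetC

/-! Geometry of the inducing scheme: transport along towers. -/

set_option autoImplicit false
open MeasureTheory Set

namespace Pool.Agent.W71.Iet

/-- evaluation of a linear form -/
noncomputable def ev (u : Fin 7 → ℝ) (c : V) : ℝ := ∑ m, (c m : ℝ) * u m

theorem ev_congr (u : Fin 7 → ℝ) {c c' : V} (h : ∀ m, c m = c' m) : ev u c = ev u c' := by
  unfold ev
  apply Finset.sum_congr rfl
  intro m _
  rw [h m]

theorem ev_add (u : Fin 7 → ℝ) (c c' : V) : ev u (fun m => c m + c' m) = ev u c + ev u c' := by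
  unfold ev
  rw [← Finset.sum_add_distrib]
  apply Finset.sum_congr rfl
  intro m _
  push_cast; ring

theorem ev_sub (u : Fin 7 → ℝ) (c c' : V) : ev u (fun m => c m - c' m) = ev u c - ev u c' := by
  unfold ev
  rw [← Finset.sum_sub_distrib]
  apply Finset.sum_congr rfl
  intro m _
  push_cast; ring

theorem ev_mono (u : Fin 7 → ℝ) (hu : ∀ m, 0 ≤ u m) {c c' : V} (h : ∀ m, c m ≤ c' m) :
    ev u c ≤ ev u c' := by
  unfold ev
  apply Finset.sum_le_sum
  intro m _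
  exact mul_le_mul_of_nonneg_right (by exact_mod_cast h m) (hu m)

theorem ev_sum (u : Fin 7 → ℝ) (s : Finset (Fin 7)) (c : Fin 7 → V) :
    ev u (fun m => ∑ i ∈ s, c i m) = ∑ i ∈ s, ev u (c i) := by
  unfold ev
  rw [Finset.sum_comm]
  apply Finset.sum_congr rfl
  intro m _
  push_cast
  rw [Finset.sum_mul]

theorem ev_ee (u : Fin 7 → ℝ) (j : Fin 7) : ev u (ee j) = u j := by
  unfold ev ee
  simp

/-- the induced lengths: `v = A u` -/
noncomputable def Av (u : Fin 7 → ℝ) : Fin 7 → ℝ := fun k => ev u (A k)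

theorem sL_Av (u : Fin 7 → ℝ) (k : Fin 7) : sL (Av u) k = ev u (Stab k) := by
  rw [ev_congr u (Stab_eq k)]
  unfold Sx
  rw [ev_sum]
  rfl

theorem ps_Av (u : Fin 7 → ℝ) (k : Fin 7) : ps p0 (Av u) k = ev u (Rtab k) := by
  rw [ev_congr u (Rtab_eq k)]
  unfold Rx
  rw [ev_sum]
  rfl

theorem sL_u (u : Fin 7 → ℝ) (j : Fin 7) : sL u j = ev u (S1 j) := by
  unfold ev S1 sL
  rw [Finset.sum_filter]
  apply Finset.sum_congr rfl
  intro m _
  split_ifs <;> simp

theorem ps_u (u : Fin 7 → ℝ) (j : Fin 7) : ps p0 u j = ev u (R1 j) := by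
  unfold ev R1 ps
  rw [Finset.sum_filter]
  apply Finset.sum_congr rfl
  intro m _
  split_ifs <;> simp

theorem Av_nonneg (u : Fin 7 → ℝ) (hu : ∀ m, 0 ≤ u m) (k : Fin 7) : 0 ≤ Av u k := by
  have h : ∀ k m : Fin 7, 0 ≤ A k m := by decide +kernel
  unfold Av ev
  exact Finset.sum_nonneg fun m _ => mul_nonneg (by exact_mod_cast h k m) (hu m)

/-- the first interval of `Av u` is the whole base `[0, Σ u)` -/
theorem Av_zero (u : Fin 7 → ℝ) : Av u 0 = ∑ i, u i := by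
  have h : ∀ m : Fin 7, A 0 m = 1 := by decide +kernel
  unfold Av ev
  apply Finset.sum_congr rfl
  intro m _
  rw [h m]; simp

theorem sum_u_le (u : Fin 7 → ℝ) (hu : ∀ m, 0 ≤ u m) : ∑ i, u i ≤ ∑ i, Av u i := by
  rw [← Av_zero]
  exact Finset.single_le_sum (f := Av u) (fun k _ => Av_nonneg u hu k) (Finset.mem_univ _)

/-- the letter at height `i` of tower `j` -/
def wl (j : Fin 7) (i : ℕ) : Fin 7 := (W j).getD i 0

theorem posn_succ (u : Fin 7 → ℝ) (j : Fin 7) (i : ℕ) :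
    ev u (posn j (i+1)) = ev u (posn j i) + (ps p0 (Av u) (wl j i) - sL (Av u) (wl j i)) := by
  rw [ps_Av, sL_Av]
  show ev u (fun m => posn j i m + (Rtab ((W j).getD i 0) m - Stab ((W j).getD i 0) m)) = _
  rw [ev_add, ev_sub]
  rfl

theorem posn_low (u : Fin 7 → ℝ) (hu : ∀ m, 0 ≤ u m) (j : Fin 7) {i : ℕ} (hi : i < (W j).length) :
    sL (Av u) (wl j i) ≤ ev u (posn j i) := by
  rw [sL_Av]
  exact ev_mono u hu fun m => (chk1 j i (List.mem_range.mpr hi) m).1

theorem posn_high (u : Fin 7 → ℝ) (hu : ∀ m, 0 ≤ u m) (j : Fin 7) {i : ℕ}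
    (hi : i < (W j).length) :
    ev u (posn j i) + u j ≤ sL (Av u) (wl j i) + Av u (wl j i) := by
  rw [sL_Av, ← ev_ee u j]
  unfold Av
  rw [← ev_add, ← ev_add]
  exact ev_mono u hu fun m => (chk1 j i (List.mem_range.mpr hi) m).2

theorem posn_zero (u : Fin 7 → ℝ) (j : Fin 7) : ev u (posn j 0) = sL u j := by
  rw [sL_u]; rfl

theorem posn_end (u : Fin 7 → ℝ) (j : Fin 7) : ev u (posn j (W j).length) = ps p0 u j := by
  rw [ps_u]
  exact ev_congr u (chk2 j)

/-- points of the base move along the towers -/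
theorem iter_tower (u : Fin 7 → ℝ) (hu : ∀ m, 0 ≤ u m) (j : Fin 7) {x : ℝ}
    (hx : x ∈ Ico (sL u j) (sL u j + u j)) (i : ℕ) (hi : i ≤ (W j).length) :
    (T p0 (Av u))^[i] x = x + (ev u (posn j i) - sL u j) := by
  induction i with
  | zero => rw [posn_zero]; simp
  | succ i ih =>
    have hi' : i < (W j).length := by omega
    rw [Function.iterate_succ_apply', ih (by omega), posn_succ]
    rw [T_in p0 (Av u) (Av_nonneg u hu) (j := wl j i)]
    · ring
    · have h1 := posn_low u hu j hi'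
      have h2 := posn_high u hu j hi'
      exact ⟨by linarith [hx.1], by linarith [hx.2]⟩

theorem W_pos : ∀ j : Fin 7, 1 ≤ (W j).length := by decide +kernel

/-- first return to the base -/
theorem iter_return (u : Fin 7 → ℝ) (hu : ∀ m, 0 ≤ u m) {x : ℝ}
    (hx : x ∈ Ico 0 (∑ i, u i)) : ∃ n, 1 ≤ n ∧ (T p0 (Av u))^[n] x = T p0 u x := by
  obtain ⟨j, hj⟩ := ps_exists 1 u hx.1 hx.2
  refine ⟨(W j).length, W_pos j, ?_⟩
  rw [iter_tower u hu j hj _ le_rfl, posn_end, T_in p0 u hu (j := j) hj]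

/-- periodic points of the induced map are periodic -/
theorem per_lift (u : Fin 7 → ℝ) (hu : ∀ m, 0 ≤ u m) {x : ℝ}
    (hx : x ∈ Ico 0 (∑ i, u i)) {n : ℕ} (hn : 1 ≤ n) (h : (T p0 u)^[n] x = x) :
    ∃ k, 1 ≤ k ∧ (T p0 (Av u))^[k] x = x := by
  have key : ∀ n : ℕ, 1 ≤ n → ∃ k, 1 ≤ k ∧ (T p0 (Av u))^[k] x = (T p0 u)^[n] x := by
    intro n hn
    induction n with
    | zero => omega
    | succ n ih =>
      obtain ⟨r, hr, hr'⟩ := iter_return u hu (T_iter_maps p0 u hu hx n)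
      rcases Nat.eq_zero_or_pos n with h0 | h0
      · subst h0
        exact ⟨r, hr, by simpa using hr'⟩
      · obtain ⟨k, hk, hk'⟩ := ih h0
        refine ⟨r + k, by omega, ?_⟩
        rw [Function.iterate_add_apply, hk', hr', Function.iterate_succ_apply']
  obtain ⟨k, hk, hk'⟩ := key n hn
  exact ⟨k, hk, by rw [hk', h]⟩

/-- infinitely many periodic points -/
def NP (v : Fin 7 → ℝ) : Prop :=
  {x : ℝ | x ∈ Ico 0 (∑ i, v i) ∧ ∃ n, 1 ≤ n ∧ (T p0 v)^[n] x = x}.Infinite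

theorem NP_lift (u : Fin 7 → ℝ) (hu : ∀ m, 0 ≤ u m) (h : NP u) : NP (Av u) := by
  apply Set.Infinite.mono _ h
  rintro x ⟨hx, n, hn, hxn⟩
  exact ⟨⟨hx.1, lt_of_lt_of_le hx.2 (sum_u_le u hu)⟩, per_lift u hu hx hn hxn⟩

theorem NP_scale (v : Fin 7 → ℝ) (hv : ∀ i, 0 ≤ v i) {c : ℝ} (hc : 0 < c) (h : NP v) :
    NP (fun i => c * v i) := by
  have hinj : InjOn (fun x : ℝ => c * x)
      {x : ℝ | x ∈ Ico 0 (∑ i, v i) ∧ ∃ n, 1 ≤ n ∧ (T p0 v)^[n] x = x} := by
    intro x _ y _ hxy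
    exact mul_left_cancel₀ hc.ne' hxy
  apply Set.Infinite.mono _ (Set.Infinite.image hinj h)
  rintro _ ⟨x, ⟨hx, n, hn, hxn⟩, rfl⟩
  refine ⟨⟨mul_nonneg hc.le hx.1, ?_⟩, n, hn, ?_⟩
  · rw [← Finset.mul_sum]
    exact mul_lt_mul_of_pos_left hx.2 hc
  · have : ∀ n : ℕ, (T p0 (fun i => c * v i))^[n] (c * x) = c * (T p0 v)^[n] x := by
      intro n
      induction n with
      | zero => rfl
      | succ n ih => rw [Function.iterate_succ_apply', ih, T_scale p0 v hv hc,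
          Function.iterate_succ_apply']
    show (T p0 (fun i => c * v i))^[n] (c * x) = c * x
    rw [this n, hxn]

end Pool.Agent.W71.Iet
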