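import Pool.Agent.W71.IetD

/-! Rigidity of the functions with the invariance of an invariant measure. -/

set_option autoImplicit false
open MeasureTheory Set

namespace Pool.Agent.W71.Iet

theorem transport (u : Fin 7 → ℝ) (hu : ∀ m, 0 ≤ u m) (F : ℝ → ℝ) (hF : Good p0 (Av u) F)
    (j : Fin 7) {x y : ℝ} (hx : sL u j ≤ x) (hxy : x ≤ y) (hy : y ≤ sL u j + u j) (i : ℕ)
    (hi : i ≤ (W j).length) :
    F (y + (ev u (posn j i) - sL u j)) - F (x + (ev u (posn j i) - sL u j)) = F y - F x := by
  induction i with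
  | zero => rw [posn_zero]; simp
  | succ i ih =>
    have hi' : i < (W j).length := by omega
    have h1 := posn_low u hu j hi'
    have h2 := posn_high u hu j hi'
    rw [← ih (by omega), posn_succ]
    have := hF.inv (wl j i) (x + (ev u (posn j i) - sL u j)) (y + (ev u (posn j i) - sL u j))
      (by linarith) (by linarith) (by linarith)
    rw [← this]
    congr 2 <;> ring

theorem chain_sum (u : Fin 7 → ℝ) (hu : ∀ m, 0 ≤ u m) (F : ℝ → ℝ) (hF : Good p0 (Av u) F) :
    ∀ (l : List (Fin 7 × ℕ)) (p q : V), chn p l q →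
      F (ev u q) - F (ev u p) = (l.map (fun t => F (sL u t.1 + u t.1) - F (sL u t.1))).sum := by
  intro l
  induction l with
  | nil =>
    intro p q h
    have h' : ∀ m, p m = q m := h
    rw [ev_congr u h']
    simp
  | cons t l ih =>
    intro p q h
    obtain ⟨h1, h2, h3⟩ := h
    have e1 := ih _ _ h3
    rw [List.map_cons, List.sum_cons, ← e1, ev_add, ev_ee]
    have e2 := transport u hu F hF t.1 (x := sL u t.1) (y := sL u t.1 + u t.1) le_rfl
      (by linarith [hu t.1]) le_rfl t.2 h2.le
    rw [ev_congr u h1] at e2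
    have e3 : sL u t.1 + u t.1 + (ev u p - sL u t.1) = ev u p + u t.1 := by ring
    have e4 : sL u t.1 + (ev u p - sL u t.1) = ev u p := by ring
    rw [e3, e4] at e2
    rw [← e2]
    ring

theorem sum_count (f : Fin 7 → ℝ) (l : List (Fin 7 × ℕ)) :
    (l.map (fun t => f t.1)).sum = ∑ j, (((l.map Prod.fst).count j : ℤ) : ℝ) * f j := by
  induction l with
  | nil => simp
  | cons t l ih =>
    rw [List.map_cons, List.sum_cons, ih, List.map_cons]
    have : ∀ j, ((((t.1 :: l.map Prod.fst).count j : ℤ)) : ℝ) * f j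
        = (((l.map Prod.fst).count j : ℤ) : ℝ) * f j + (if t.1 = j then f j else 0) := by
      intro j
      rw [List.count_cons]
      by_cases h : t.1 = j
      · simp [h]; ring
      · have h' : (t.1 == j) = false := by simpa using h
        simp [h]
    rw [Finset.sum_congr rfl fun j _ => this j, Finset.sum_add_distrib]
    simp
    ring

/-- all floors, from left to right -/
def TLall : List (Fin 7 × ℕ) := TL 0 ++ TL 1 ++ TL 2 ++ TL 3 ++ TL 4 ++ TL 5 ++ TL 6

def Tot : V := fun m => ∑ k, A k m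

theorem chkall : chn (fun _ => 0) TLall Tot := by decide +kernel

theorem ev_zero (u : Fin 7 → ℝ) : ev u (fun _ => 0) = 0 := by
  unfold ev; simp

theorem ev_tot (u : Fin 7 → ℝ) : ev u Tot = ∑ k, Av u k := by
  unfold Tot
  rw [ev_sum]; rfl

/-- localisation of the deviation from linearity -/
theorem chain_loc (u : Fin 7 → ℝ) (hu : ∀ m, 0 ≤ u m) (F : ℝ → ℝ) (hF : Good p0 (Av u) F) (c : ℝ)
    (hc : ∀ j, F (sL u j + u j) - F (sL u j) = c * u j) :
    ∀ (l : List (Fin 7 × ℕ)) (p q : V), chn p l q → ∀ x, ev u p ≤ x → x ≤ ev u q →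
      ∃ j y, sL u j ≤ y ∧ y ≤ sL u j + u j ∧
        F x - F (ev u p) - c * (x - ev u p) = F y - F (sL u j) - c * (y - sL u j) := by
  intro l
  induction l with
  | nil =>
    intro p q h x h1 h2
    have h' : ∀ m, p m = q m := h
    rw [← ev_congr u h'] at h2
    have hx : x = ev u p := le_antisymm h2 h1
    refine ⟨0, sL u 0, le_rfl, by linarith [hu 0], ?_⟩
    rw [hx]; ring
  | cons t l ih =>
    intro p q h x h1 h2
    obtain ⟨g1, g2, g3⟩ := h
    have tr := fun (y : ℝ) (hy : sL u t.1 ≤ y) (hy' : y ≤ sL u t.1 + u t.1) =>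
      transport u hu F hF t.1 (x := sL u t.1) (y := y) le_rfl hy hy' t.2 g2.le
    have ep : ev u (posn t.1 t.2) = ev u p := ev_congr u g1
    rcases le_or_gt x (ev u p + u t.1) with hx | hx
    · refine ⟨t.1, x - ev u p + sL u t.1, by linarith, by linarith, ?_⟩
      have e2 := tr (x - ev u p + sL u t.1) (by linarith) (by linarith)
      rw [ep] at e2
      have e3 : x - ev u p + sL u t.1 + (ev u p - sL u t.1) = x := by ring
      have e4 : sL u t.1 + (ev u p - sL u t.1) = ev u p := by ring
      rw [e3, e4] at e2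
      rw [e2]
      ring
    · have e1 := ih _ _ g3 x (by rw [ev_add, ev_ee]; exact hx.le) h2
      obtain ⟨j, y, y1, y2, y3⟩ := e1
      refine ⟨j, y, y1, y2, ?_⟩
      rw [← y3, ev_add, ev_ee]
      have e2 := tr (sL u t.1 + u t.1) (by linarith [hu t.1]) le_rfl
      rw [ep] at e2
      have e3 : sL u t.1 + u t.1 + (ev u p - sL u t.1) = ev u p + u t.1 := by ring
      have e4 : sL u t.1 + (ev u p - sL u t.1) = ev u p := by ring
      rw [e3, e4, hc] at e2
      linarith

/-- eigendata -/
structure Eig (a : Fin 7 → ℝ) (lam : ℝ) (xi : Fin 7 → ℝ) : Prop where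
  pos : ∀ k, 0 < a k
  le4 : ∀ k, a k ≤ 4
  lam_gt : 2 < lam
  eig : ∀ k, Av a k = lam * a k
  a0 : a 0 = 1
  xpos : ∀ k, 0 < xi k
  xeig : ∀ j, ∑ k, xi k * (A k j : ℝ) = lam * xi j

namespace Eig

variable {a : Fin 7 → ℝ} {lam : ℝ} {xi : Fin 7 → ℝ}

theorem sum_eq (E : Eig a lam xi) : ∑ i, a i = lam := by
  rw [← Av_zero, E.eig, E.a0, mul_one]

theorem Av_div (E : Eig a lam xi) : Av (fun i => a i / lam) = a := by
  funext k
  have h := E.eig k
  have hl : lam ≠ 0 := by linarith [E.lam_gt]
  unfold Av ev at h ⊢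
  have : ∑ m, (A k m : ℝ) * (a m / lam) = (∑ m, (A k m : ℝ) * a m) / lam := by
    rw [Finset.sum_div]
    apply Finset.sum_congr rfl
    intro m _
    ring
  rw [this, h]
  field_simp

theorem sL_div (lam : ℝ) (a : Fin 7 → ℝ) (j : Fin 7) :
    sL (fun i => a i / lam) j = sL a j / lam := by
  unfold sL
  rw [Finset.sum_div]

theorem ps_div (lam : ℝ) (a : Fin 7 → ℝ) (j : Fin 7) :
    ps p0 (fun i => a i / lam) j = ps p0 a j / lam := by
  unfold ps
  rw [Finset.sum_div]

theorem scale (E : Eig a lam xi) {F : ℝ → ℝ} (hF : Good p0 a F) :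
    Good p0 a (fun x => F (x / lam)) := by
  have hl : 0 < lam := by linarith [E.lam_gt]
  have hu : ∀ m, 0 ≤ (fun i => a i / lam) m := fun m => (div_pos (E.pos m) hl).le
  have hF' : Good p0 (Av (fun i => a i / lam)) F := by rw [E.Av_div]; exact hF
  refine ⟨?_, ?_⟩
  · intro x y hx hxy hy
    apply hF.mono
    · exact div_nonneg hx hl.le
    · exact div_le_div_of_nonneg_right hxy hl.le
    · have hs : 0 ≤ ∑ i, a i := Finset.sum_nonneg fun i _ => (E.pos i).le
      have : y / lam ≤ (∑ i, a i) / lam := div_le_div_of_nonneg_right hy hl.le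
      have h2 : (∑ i, a i) / lam ≤ ∑ i, a i := div_le_self hs (by linarith [E.lam_gt])
      linarith
  · intro k x y hx hxy hy
    have h := transport (fun i => a i / lam) hu F hF' k (x := x / lam) (y := y / lam)
      (by rw [sL_div]; exact div_le_div_of_nonneg_right hx hl.le)
      (div_le_div_of_nonneg_right hxy hl.le)
      (by rw [sL_div, ← add_div]; exact div_le_div_of_nonneg_right hy hl.le)
      (W k).length le_rfl
    rw [posn_end, ps_div, sL_div] at h
    rw [← h]
    congr 2 <;> ring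

/-- the mass of the `k`-th interval -/
noncomputable def inc (a : Fin 7 → ℝ) (F : ℝ → ℝ) (k : Fin 7) : ℝ := F (sL a k + a k) - F (sL a k)

theorem inc_nonneg (E : Eig a lam xi) {F : ℝ → ℝ} (hF : Good p0 a F) (k : Fin 7) :
    0 ≤ inc a F k := by
  unfold inc
  have ha : ∀ i, 0 ≤ a i := fun i => (E.pos i).le
  have := hF.mono (sL a k) (sL a k + a k) (ps_nonneg 1 a ha k) (by linarith [ha k])
    (ps_le 1 a ha k)
  linarith

theorem inc_div (F : ℝ → ℝ) (j : Fin 7) :
    inc a (fun x => F (x / lam)) j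
      = F (sL (fun i => a i / lam) j + a j / lam) - F (sL (fun i => a i / lam) j) := by
  show F ((sL a j + a j) / lam) - F (sL a j / lam) = _
  rw [sL_div, add_div]

theorem inc_step (E : Eig a lam xi) {F : ℝ → ℝ} (hF : Good p0 a F) (k : Fin 7) :
    inc a F k = ∑ j, (A k j : ℝ) * inc a (fun x => F (x / lam)) j := by
  have hl : 0 < lam := by linarith [E.lam_gt]
  have hu : ∀ m, 0 ≤ (fun i => a i / lam) m := fun m => (div_pos (E.pos m) hl).le
  have hF' : Good p0 (Av (fun i => a i / lam)) F := by rw [E.Av_div]; exact hF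
  have h := chain_sum _ hu F hF' (TL k) _ _ (chk3 k)
  rw [ev_add, ← sL_Av, E.Av_div] at h
  have e1 : ev (fun i => a i / lam) (A k) = a k := congrFun E.Av_div k
  rw [e1] at h
  have e2 : (fun t : Fin 7 × ℕ => F (sL (fun i => a i / lam) t.1 + (fun i => a i / lam) t.1)
      - F (sL (fun i => a i / lam) t.1)) = fun t => inc a (fun x => F (x / lam)) t.1 := by
    funext t
    rw [inc_div]
  rw [e2, sum_count (inc a (fun x => F (x / lam)))] at h
  unfold inc at h ⊢
  rw [h]
  apply Finset.sum_congr rfl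
  intro j _
  rw [chk4 k j]

theorem xi_step (E : Eig a lam xi) {F : ℝ → ℝ} (hF : Good p0 a F) :
    ∑ k, xi k * inc a F k = lam * ∑ k, xi k * inc a (fun x => F (x / lam)) k := by
  have : ∀ k, xi k * inc a F k = ∑ j, xi k * (A k j : ℝ) * inc a (fun x => F (x / lam)) j := by
    intro k
    rw [E.inc_step hF k, Finset.mul_sum]
    apply Finset.sum_congr rfl
    intro j _
    ring
  rw [Finset.sum_congr rfl fun k _ => this k, Finset.sum_comm, Finset.mul_sum]
  apply Finset.sum_congr rfl
  intro j _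
  rw [← Finset.sum_mul, E.xeig j]
  ring

theorem sq_ge : ∀ k j : Fin 7, 2 ≤ ∑ i, A k i * A i j := by decide +kernel

theorem exists_K (E : Eig a lam xi) : ∃ K : ℝ, 0 ≤ K ∧ ∀ k, 1 ≤ K * (xi k * a k) := by
  refine ⟨∑ k, (xi k * a k)⁻¹, Finset.sum_nonneg fun k _ =>
    inv_nonneg.mpr (mul_pos (E.xpos k) (E.pos k)).le, ?_⟩
  intro k
  have h1 : (xi k * a k)⁻¹ ≤ ∑ k, (xi k * a k)⁻¹ :=
    Finset.single_le_sum (f := fun k => (xi k * a k)⁻¹)
      (fun k _ => inv_nonneg.mpr (mul_pos (E.xpos k) (E.pos k)).le) (Finset.mem_univ k)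
  have h2 : 0 < xi k * a k := mul_pos (E.xpos k) (E.pos k)
  calc (1 : ℝ) = (xi k * a k)⁻¹ * (xi k * a k) := (inv_mul_cancel₀ h2.ne').symm
    _ ≤ _ := mul_le_mul_of_nonneg_right h1 h2.le

/-- contraction towards the eigenvector -/
theorem contract (E : Eig a lam xi) {K : ℝ} (hK : 0 ≤ K) (hK1 : ∀ k, 1 ≤ K * (xi k * a k)) (m : ℕ) :
    ∀ F : ℝ → ℝ, Good p0 a F → ∃ al : ℝ, ∀ k, al * a k ≤ inc a F k ∧
      inc a F k ≤ (al + K * (∑ j, xi j * inc a F j) * (1 - 1 / (2 * lam)) ^ m) * a k := by
  have hl : 0 < lam := by linarith [E.lam_gt]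
  induction m with
  | zero =>
    intro F hF
    refine ⟨0, fun k => ⟨by simpa using E.inc_nonneg hF k, ?_⟩⟩
    have h1 : xi k * inc a F k ≤ ∑ j, xi j * inc a F j :=
      Finset.single_le_sum (f := fun j => xi j * inc a F j)
        (fun j _ => mul_nonneg (E.xpos j).le (E.inc_nonneg hF j)) (Finset.mem_univ k)
    have h2 := E.inc_nonneg hF k
    have h3 : inc a F k ≤ K * (xi k * a k) * inc a F k := by
      nlinarith [hK1 k]
    have h4 : K * a k * (xi k * inc a F k) ≤ K * a k * ∑ j, xi j * inc a F j :=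
      mul_le_mul_of_nonneg_left h1 (mul_nonneg hK (E.pos k).le)
    simp only [pow_zero, mul_one, zero_add]
    linarith
  | succ m ih =>
    intro F hF
    have hF1 := E.scale hF
    have hF2 := E.scale hF1
    obtain ⟨al, hal⟩ := ih _ hF2
    have x1 := E.xi_step hF
    have x2 := E.xi_step hF1
    set z : Fin 7 → ℝ := inc a (fun x => F (x / lam / lam)) with hz
    have hz0 : ∀ k, 0 ≤ z k := fun k => E.inc_nonneg hF2 k
    have hB : ∀ k, inc a F k = ∑ j, ((∑ i, A k i * A i j : ℤ) : ℝ) * z j := by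
      intro k
      rw [E.inc_step hF k]
      have : ∀ i, (A k i : ℝ) * inc a (fun x => F (x / lam)) i = ∑ j, (A k i : ℝ) * (A i j : ℝ) * z j := by
        intro i
        rw [E.inc_step hF1 i, Finset.mul_sum]
        apply Finset.sum_congr rfl
        intro j _
        rw [hz]; ring
      rw [Finset.sum_congr rfl fun i _ => this i, Finset.sum_comm]
      apply Finset.sum_congr rfl
      intro j _
      push_cast
      rw [Finset.sum_mul]
    have hBa : ∀ k, ∑ j, ((∑ i, A k i * A i j : ℤ) : ℝ) * a j = lam ^ 2 * a k := by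
      intro k
      have e : ∀ i, ∑ j, (A i j : ℝ) * a j = lam * a i := fun i => E.eig i
      have : ∑ j, ((∑ i, A k i * A i j : ℤ) : ℝ) * a j = ∑ i, (A k i : ℝ) * ∑ j, (A i j : ℝ) * a j := by
        have : ∀ i, (A k i : ℝ) * ∑ j, (A i j : ℝ) * a j = ∑ j, (A k i : ℝ) * (A i j : ℝ) * a j := by
          intro i
          rw [Finset.mul_sum]
          apply Finset.sum_congr rfl
          intro j _
          ring
        rw [Finset.sum_congr rfl fun i _ => this i, Finset.sum_comm]
        apply Finset.sum_congr rfl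
        intro j _
        push_cast
        rw [Finset.sum_mul]
      rw [this]
      have : ∀ i, (A k i : ℝ) * ∑ j, (A i j : ℝ) * a j = lam * ((A k i : ℝ) * a i) := by
        intro i; rw [e i]; ring
      rw [Finset.sum_congr rfl fun i _ => this i, ← Finset.mul_sum, e k]
      ring
    have hsum := E.sum_eq
    -- the nonnegative matrix `B - (1/2) a ⊗ 1`
    have hC : ∀ k j, 0 ≤ ((∑ i, A k i * A i j : ℤ) : ℝ) - a k / 2 := by
      intro k j
      have h1 : (2 : ℝ) ≤ ((∑ i, A k i * A i j : ℤ) : ℝ) := by exact_mod_cast sq_ge k j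
      linarith [E.le4 k]
    have hdec : ∀ k, inc a F k = a k / 2 * (∑ j, z j)
        + ∑ j, (((∑ i, A k i * A i j : ℤ) : ℝ) - a k / 2) * z j := by
      intro k
      rw [hB k, Finset.mul_sum, ← Finset.sum_add_distrib]
      apply Finset.sum_congr rfl
      intro j _
      ring
    have hCa : ∀ k, ∑ j, (((∑ i, A k i * A i j : ℤ) : ℝ) - a k / 2) * a j
        = (lam ^ 2 - lam / 2) * a k := by
      intro k
      have : ∀ j, (((∑ i, A k i * A i j : ℤ) : ℝ) - a k / 2) * a j
          = ((∑ i, A k i * A i j : ℤ) : ℝ) * a j - a k / 2 * a j := by intro j; ring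
      rw [Finset.sum_congr rfl fun j _ => this j, Finset.sum_sub_distrib, hBa k,
        ← Finset.mul_sum, hsum]
      ring
    refine ⟨(∑ j, z j) / 2 + (lam ^ 2 - lam / 2) * al, fun k => ⟨?_, ?_⟩⟩
    · rw [hdec k]
      have h1 : ∑ j, (((∑ i, A k i * A i j : ℤ) : ℝ) - a k / 2) * (al * a j)
          ≤ ∑ j, (((∑ i, A k i * A i j : ℤ) : ℝ) - a k / 2) * z j :=
        Finset.sum_le_sum fun j _ => mul_le_mul_of_nonneg_left (hal j).1 (hC k j)
      have h2 : ∑ j, (((∑ i, A k i * A i j : ℤ) : ℝ) - a k / 2) * (al * a j)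
          = al * ((lam ^ 2 - lam / 2) * a k) := by
        rw [← hCa k, Finset.mul_sum]
        apply Finset.sum_congr rfl
        intro j _
        ring
      rw [h2] at h1
      linarith
    · rw [hdec k]
      set e0 : ℝ := K * (∑ j, xi j * z j) * (1 - 1 / (2 * lam)) ^ m with he0
      have h1 : ∑ j, (((∑ i, A k i * A i j : ℤ) : ℝ) - a k / 2) * z j
          ≤ ∑ j, (((∑ i, A k i * A i j : ℤ) : ℝ) - a k / 2) * ((al + e0) * a j) :=
        Finset.sum_le_sum fun j _ => mul_le_mul_of_nonneg_left (hal j).2 (hC k j)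
      have h2 : ∑ j, (((∑ i, A k i * A i j : ℤ) : ℝ) - a k / 2) * ((al + e0) * a j)
          = (al + e0) * ((lam ^ 2 - lam / 2) * a k) := by
        rw [← hCa k, Finset.mul_sum]
        apply Finset.sum_congr rfl
        intro j _
        ring
      rw [h2] at h1
      have h3 : e0 * (lam ^ 2 - lam / 2)
          = K * (∑ j, xi j * inc a F j) * (1 - 1 / (2 * lam)) ^ (m + 1) := by
        rw [x1, x2, he0, pow_succ (1 - 1 / (2 * lam)) m]
        have : lam ^ 2 - lam / 2 = lam * lam * (1 - 1 / (2 * lam)) := by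
          field_simp
        rw [this]
        ring
      rw [← h3]
      linarith

theorem inc_prop (E : Eig a lam xi) {F : ℝ → ℝ} (hF : Good p0 a F) (k : Fin 7) :
    inc a F k = inc a F 0 * a k := by
  have hl : 2 < lam := E.lam_gt
  obtain ⟨K, hK, hK1⟩ := E.exists_K
  have key : ∀ k l, inc a F k * a l ≤ inc a F l * a k := by
    intro k l
    have hb : ∀ m : ℕ, inc a F k * a l - inc a F l * a k
        ≤ (K * (∑ j, xi j * inc a F j) * (a k * a l)) * (1 - 1 / (2 * lam)) ^ m := by
      intro m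
      obtain ⟨al, hal⟩ := E.contract hK hK1 m F hF
      have h1 := mul_le_mul_of_nonneg_right (hal k).2 (E.pos l).le
      have h2 := mul_le_mul_of_nonneg_right (hal l).1 (E.pos k).le
      linarith
    have hr1 : 1 / (2 * lam) < 1 := by
      rw [div_lt_one (by linarith)]; linarith
    have hr0 : 0 < 1 / (2 * lam) := by positivity
    have ht : Filter.Tendsto (fun m : ℕ => (K * (∑ j, xi j * inc a F j) * (a k * a l))
        * (1 - 1 / (2 * lam)) ^ m) Filter.atTop (nhds 0) := by
      have := (tendsto_pow_atTop_nhds_zero_of_lt_one (r := 1 - 1 / (2 * lam)) (by linarith)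
        (by linarith)).const_mul (K * (∑ j, xi j * inc a F j) * (a k * a l))
      simpa using this
    have := ge_of_tendsto' ht hb
    linarith
  have h1 := key k 0
  have h2 := key 0 k
  rw [E.a0] at h1 h2
  linarith

theorem c_step (E : Eig a lam xi) {F : ℝ → ℝ} (hF : Good p0 a F) :
    inc a F 0 = lam * inc a (fun x => F (x / lam)) 0 := by
  have h := E.inc_step hF 0
  have hF1 := E.scale hF
  rw [Finset.sum_congr rfl fun j _ => by rw [E.inc_prop hF1 j]] at h
  have h2 := E.eig 0
  unfold Av ev at h2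
  rw [E.a0, mul_one] at h2
  rw [h, ← h2, Finset.sum_mul]
  apply Finset.sum_congr rfl
  intro j _
  ring

theorem linear_bound (E : Eig a lam xi) (n : ℕ) :
    ∀ F : ℝ → ℝ, Good p0 a F → ∀ x, 0 ≤ x → x ≤ ∑ i, a i →
      |F x - F 0 - inc a F 0 * x| ≤ inc a F 0 * lam * (2 / lam) ^ n := by
  have hl : 0 < lam := by linarith [E.lam_gt]
  have hl2 := E.lam_gt
  have hu : ∀ m, 0 ≤ (fun i => a i / lam) m := fun m => (div_pos (E.pos m) hl).le
  have hc : ∀ F : ℝ → ℝ, Good p0 a F → ∀ j,
      F (sL (fun i => a i / lam) j + (fun i => a i / lam) j) - F (sL (fun i => a i / lam) j)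
        = inc a F 0 * (fun i => a i / lam) j := by
    intro F hF j
    have h1 := inc_div (a := a) (lam := lam) F j
    rw [E.inc_prop (E.scale hF) j] at h1
    show F (sL (fun i => a i / lam) j + a j / lam) - F (sL (fun i => a i / lam) j)
        = inc a F 0 * (a j / lam)
    rw [← h1, E.c_step hF]
    field_simp
  induction n with
  | zero =>
    intro F hF x hx hx'
    have hF' : Good p0 (Av (fun i => a i / lam)) F := by rw [E.Av_div]; exact hF
    -- total increment
    have htot : F (∑ i, a i) - F 0 = inc a F 0 * lam := by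
      have h := chain_sum _ hu F hF' TLall _ _ chkall
      rw [ev_zero, ev_tot, E.Av_div] at h
      rw [h]
      have e2 : (fun t : Fin 7 × ℕ => F (sL (fun i => a i / lam) t.1 + (fun i => a i / lam) t.1)
        - F (sL (fun i => a i / lam) t.1)) = fun t => (fun j => inc a F 0 * (a j / lam)) t.1 := by
        funext t
        exact hc F hF t.1
      rw [e2]
      -- the same identity for the identity function
      have hid : Good p0 (Av (fun i => a i / lam)) (fun x => x) :=
        ⟨fun x y _ hxy _ => hxy, fun k x y _ _ _ => by ring⟩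
      have h' := chain_sum _ hu (fun x => x) hid TLall _ _ chkall
      rw [ev_zero, ev_tot, E.Av_div, E.sum_eq] at h'
      have e3 : (TLall.map (fun t : Fin 7 × ℕ => inc a F 0 * (a t.1 / lam))).sum
          = inc a F 0 * (TLall.map (fun t : Fin 7 × ℕ => a t.1 / lam)).sum := by
        rw [List.sum_map_mul_left]
      show (TLall.map (fun t : Fin 7 × ℕ => inc a F 0 * (a t.1 / lam))).sum = inc a F 0 * lam
      rw [e3]
      congr 1
      have e4 : (fun t : Fin 7 × ℕ => a t.1 / lam) = (fun t : Fin 7 × ℕ =>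
          (sL (fun i => a i / lam) t.1 + (fun i => a i / lam) t.1) - sL (fun i => a i / lam) t.1) := by
        funext t
        ring
      rw [e4, ← h']
      ring
    have hc0 : 0 ≤ inc a F 0 := E.inc_nonneg hF 0
    have m1 := hF.mono 0 x le_rfl hx hx'
    have m2 := hF.mono x _ hx hx' le_rfl
    rw [E.sum_eq] at hx'
    rw [pow_zero, mul_one, abs_le]
    have g1 : 0 ≤ inc a F 0 * x := mul_nonneg hc0 hx
    have g2 : inc a F 0 * x ≤ inc a F 0 * lam := mul_le_mul_of_nonneg_left hx' hc0
    constructor <;> linarith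
  | succ n ih =>
    intro F hF x hx hx'
    have hF' : Good p0 (Av (fun i => a i / lam)) F := by rw [E.Av_div]; exact hF
    have hF1 := E.scale hF
    obtain ⟨j, y, y1, y2, y3⟩ := chain_loc _ hu F hF' (inc a F 0) (hc F hF) TLall _ _ chkall x
      (by rw [ev_zero]; exact hx) (by rw [ev_tot, E.Av_div]; exact hx')
    rw [ev_zero, sub_zero] at y3
    rw [y3]
    have ha : ∀ i, 0 ≤ a i := fun i => (E.pos i).le
    have s0 : 0 ≤ sL a j := ps_nonneg 1 a ha j
    have s1 : sL a j + a j ≤ ∑ i, a i := ps_le 1 a ha j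
    rw [sL_div] at y1 y2 y3 ⊢
    have z1 : sL a j ≤ lam * y := by
      rw [div_le_iff₀ hl] at y1; linarith
    have z2 : lam * y ≤ sL a j + a j := by
      have : y ≤ (sL a j + a j) / lam := by rw [add_div]; exact y2
      rw [le_div_iff₀ hl] at this; linarith
    have b1 := ih _ hF1 (lam * y) (by linarith) (by linarith)
    have b2 := ih _ hF1 (sL a j) s0 (by linarith [ha j])
    have e1 : lam * y / lam = y := by field_simp
    have cs := E.c_step hF
    set c1 := inc a (fun x => F (x / lam)) 0 with hc1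
    simp only [zero_div, e1] at b1 b2
    rw [cs]
    have e5 : lam * c1 * lam * (2 / lam) ^ (n+1) = 2 * (c1 * lam * (2 / lam) ^ n) := by
      rw [pow_succ]; field_simp
    rw [e5]
    have e6 : F y - F (sL a j / lam) - lam * c1 * (y - sL a j / lam)
        = (F y - F 0 - c1 * (lam * y)) - (F (sL a j / lam) - F 0 - c1 * sL a j) := by
      field_simp
      ring
    rw [e6]
    calc _ ≤ |F y - F 0 - c1 * (lam * y)| + |F (sL a j / lam) - F 0 - c1 * sL a j| := abs_sub _ _
      _ ≤ _ := by linarith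

theorem linear (E : Eig a lam xi) {F : ℝ → ℝ} (hF : Good p0 a F) {x : ℝ} (hx : 0 ≤ x)
    (hx' : x ≤ ∑ i, a i) : F x = F 0 + inc a F 0 * x := by
  have hl := E.lam_gt
  have ht : Filter.Tendsto (fun n : ℕ => inc a F 0 * lam * (2 / lam) ^ n) Filter.atTop (nhds 0) := by
    have h1 : 2 / lam < 1 := by rw [div_lt_one (by linarith)]; exact hl
    have := (tendsto_pow_atTop_nhds_zero_of_lt_one (r := 2 / lam) (by positivity) h1).const_mul
      (inc a F 0 * lam)
    simpa using this
  have := ge_of_tendsto' ht fun n => E.linear_bound n F hF x hx hx'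
  have h0 := abs_nonneg (F x - F 0 - inc a F 0 * x)
  have h1 : |F x - F 0 - inc a F 0 * x| = 0 := le_antisymm this h0
  rw [abs_eq_zero] at h1
  linarith

/-- the interval exchange is uniquely ergodic -/
theorem ue (E : Eig a lam xi) : ∃! m : Measure ℝ, IsInv p0 a m := by
  have ha : ∀ i, 0 ≤ a i := fun i => (E.pos i).le
  have hS : 0 < ∑ i, a i := by rw [E.sum_eq]; linarith [E.lam_gt]
  apply ue_of_linear p0 a ha hS
  intro m hm x hx hx'
  have hF := good_of_inv p0 a ha m hm
  have h1 := E.linear hF hx hx'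
  have h2 := E.linear hF hS.le le_rfl
  rw [inv_zero p0 a m hm, zero_add] at h1 h2
  rw [inv_one p0 a m hm] at h2
  rw [h1, eq_div_iff hS.ne', mul_right_comm, ← h2, one_mul]

end Eig

end Pool.Agent.W71.Iet
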